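import Mathlib

set_option autoImplicit false

open MvPolynomial

namespace Pool.Agent.H920R2

section act

variable (F : Type*) [Field F] (k : Type*) [Field k] [Algebra F k] (n m : ℕ)

/-- The substitution `x_{r,i} ↦ ∑ s, g_{r,s} x_{s,i}` of the polynomial ring in `n * m`
variables `x_{r,i}`, for an `n × n` matrix `g` with entries in `F`. -/
noncomputable def act (g : Matrix (Fin n) (Fin n) F) :
    MvPolynomial (Fin n × Fin m) k →ₐ[k] MvPolynomial (Fin n × Fin m) k :=
  aeval fun p => ∑ s, C (algebraMap F k (g p.1 s)) * X (s, p.2)

/-- The ring of invariants in the polynomial ring in `n * m` variables over `k` of a group `G`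
of invertible `n × n` matrices over `F`. -/
noncomputable def invariants (G : Subgroup (Matrix.GeneralLinearGroup (Fin n) F)) :
    Subalgebra k (MvPolynomial (Fin n × Fin m) k) :=
  ⨅ g : G, AlgHom.equalizer (act F k n m g.1.1) (AlgHom.id k (MvPolynomial (Fin n × Fin m) k))

variable {F k n m}

lemma mem_invariants {G : Subgroup (Matrix.GeneralLinearGroup (Fin n) F)}
    {b : MvPolynomial (Fin n × Fin m) k} :
    b ∈ invariants F k n m G ↔
      ∀ g ∈ G, act F k n m (g : Matrix (Fin n) (Fin n) F) b = b := by
  unfold invariants
  rw [Algebra.mem_iInf]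
  simp only [AlgHom.mem_equalizer, AlgHom.coe_id, id_eq, Subtype.forall]

lemma act_X (g : Matrix (Fin n) (Fin n) F) (r : Fin n) (i : Fin m) :
    act F k n m g (X (r, i)) = ∑ s, C (algebraMap F k (g r s)) * X (s, i) := by
  unfold act
  rw [aeval_X]

lemma act_one (b : MvPolynomial (Fin n × Fin m) k) : act F k n m 1 b = b := by
  have h : act F k n m 1 = AlgHom.id k _ := by
    apply algHom_ext
    rintro ⟨r, i⟩
    rw [act_X, Finset.sum_eq_single r]
    · simp
    · intro s _ hs
      rw [Matrix.one_apply_ne (Ne.symm hs)]
      simp
    · intro h; exact absurd (Finset.mem_univ r) h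
  rw [h]
  rfl

lemma act_act (g h : Matrix (Fin n) (Fin n) F) (b : MvPolynomial (Fin n × Fin m) k) :
    act F k n m h (act F k n m g b) = act F k n m (g * h) b := by
  have e : (act F k n m h).comp (act F k n m g) = act F k n m (g * h) := by
    apply algHom_ext
    rintro ⟨r, i⟩
    rw [AlgHom.comp_apply, act_X, act_X, map_sum]
    simp_rw [map_mul, act_X]
    have : ∀ c : k, act F k n m h (C c) = C c := fun c => AlgHom.commutes _ c
    simp_rw [this, Finset.mul_sum]
    rw [Finset.sum_comm]
    refine Finset.sum_congr rfl fun t _ => ?_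
    rw [Matrix.mul_apply, map_sum, map_sum, Finset.sum_mul]
    refine Finset.sum_congr rfl fun s _ => ?_
    rw [map_mul, C_mul]
    ring
  exact congrArg (fun f => f b) e

variable (k m) in
/-- The polynomial ring is integral over the ring of invariants. -/
lemma isIntegral_invariants [Fintype F] (G : Subgroup (Matrix.GeneralLinearGroup (Fin n) F)) :
    Algebra.IsIntegral (invariants F k n m G) (MvPolynomial (Fin n × Fin m) k) := by
  classical
  constructor
  intro b
  have : Fintype G := Fintype.ofFinite G
  let P : Polynomial (MvPolynomial (Fin n × Fin m) k) :=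
    ∏ g : G, (Polynomial.X - Polynomial.C (act F k n m g.1.1 b))
  have hP : P.Monic := Polynomial.monic_prod_of_monic _ _ fun g _ => Polynomial.monic_X_sub_C _
  have hmap : ∀ h : G, P.map (act F k n m h.1.1).toRingHom = P := by
    intro h
    simp only [P, Polynomial.map_prod, Polynomial.map_sub, Polynomial.map_X, Polynomial.map_C]
    refine Fintype.prod_equiv (Equiv.mulRight h) _ _ fun g => ?_
    have h1 : (act F k n m h.1.1).toRingHom (act F k n m g.1.1 b) =
        act F k n m ((Equiv.mulRight h) g).1.1 b := act_act _ _ _
    rw [h1]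
  have hcoeff : ∀ i, P.coeff i ∈ invariants F k n m G := by
    intro i
    rw [mem_invariants]
    intro g hg
    have := congrArg (fun p => Polynomial.coeff p i) (hmap ⟨g, hg⟩)
    rw [Polynomial.coeff_map] at this
    exact this
  have hsub : ((P.coeffs : Set (MvPolynomial (Fin n × Fin m) k))) ⊆
      (invariants F k n m G).toSubring := by
    intro c hc
    obtain ⟨i, -, rfl⟩ := Polynomial.mem_coeffs_iff.1 hc
    exact hcoeff i
  refine ⟨P.toSubring _ hsub, (Polynomial.monic_toSubring _ _ hsub).2 hP, ?_⟩
  have h1 : Polynomial.eval₂ (invariants F k n m G).toSubring.subtype b (P.toSubring _ hsub) =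
      Polynomial.eval b P := by
    rw [Polynomial.eval₂_eq_eval_map, Polynomial.map_toSubring]
  change Polynomial.eval₂ (invariants F k n m G).toSubring.subtype b _ = 0
  rw [h1, Polynomial.eval_prod]
  apply Finset.prod_eq_zero (Finset.mem_univ (1 : G))
  simp only [Polynomial.eval_sub, Polynomial.eval_X, Polynomial.eval_C, sub_eq_zero]
  exact (act_one b).symm

variable (k m) in
/-- The ring of invariants is a finitely generated algebra. -/
lemma finiteType_invariants [Fintype F] (G : Subgroup (Matrix.GeneralLinearGroup (Fin n) F)) :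
    Algebra.FiniteType k (invariants F k n m G) := by
  have h1 := isIntegral_invariants k m G
  have h2 : Algebra.FiniteType (invariants F k n m G) (MvPolynomial (Fin n × Fin m) k) := by
    apply Algebra.FiniteType.of_restrictScalars_finiteType k
  have h3 : Module.Finite (invariants F k n m G) (MvPolynomial (Fin n × Fin m) k) :=
    Algebra.IsIntegral.finite
  refine ⟨?_⟩
  refine fg_of_fg_of_fg k (invariants F k n m G) (MvPolynomial (Fin n × Fin m) k) ?_ h3.1 ?_
  · exact (inferInstance : Algebra.FiniteType k (MvPolynomial (Fin n × Fin m) k)).1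
  · exact Subtype.val_injective

end act

end Pool.Agent.H920R2
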