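import Mathlib

set_option autoImplicit false

open scoped IntermediateField.algebraAdjoinAdjoin

namespace Pool.Agent.H920R2

section gen

variable {k K : Type*} [Field k] [Field K] [Algebra k K]

/-- Integrality over a subalgebra of a field, tested on valuation rings. -/
lemma isIntegral_of_valuation (C : Subalgebra k K) (y : K)
    (h : ∀ V : ValuationSubring K, (∀ c ∈ C, c ∈ V) → y ∈ V) : IsIntegral C y := by
  have h1 : y ∈ (⨅ V : {V : ValuationSubring K // (C : Set K) ⊆ V.toSubring},
      V.1.toSubring) := by
    rw [Subring.mem_iInf]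
    rintro ⟨V, hV⟩
    exact h V fun c hc => hV hc
  rw [iInf_valuationSubring_superset] at h1
  have h2 : Subring.closure (C : Set K) = C.toSubring := Subring.closure_eq C.toSubring
  rw [h2] at h1
  exact h1

/-- A polynomial subring is integrally closed in its fraction field. -/
lemma mem_adjoin_of_isIntegral {σ : Type*} (c : σ → K) (hc : AlgebraicIndependent k c) (y : K)
    (hy : y ∈ IntermediateField.adjoin k (Set.range c))
    (hint : IsIntegral (Algebra.adjoin k (Set.range c)) y) :
    y ∈ Algebra.adjoin k (Set.range c) := by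
  have h1 : IsIntegrallyClosed (Algebra.adjoin k (Set.range c)) :=
    IsIntegrallyClosed.of_equiv hc.aevalEquiv.toRingEquiv
  have h2 : IsIntegral (Algebra.adjoin k (Set.range c))
      (⟨y, hy⟩ : IntermediateField.adjoin k (Set.range c)) := by
    obtain ⟨P, hP, hP0⟩ := hint
    refine ⟨P, hP, ?_⟩
    apply Subtype.ext
    change ((IntermediateField.adjoin k (Set.range c)).val.toRingHom _) = _
    rw [Polynomial.hom_eval₂]
    exact hP0
  obtain ⟨z, hz⟩ := IsIntegrallyClosed.isIntegral_iff.1 h2
  have h3 := congrArg Subtype.val hz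
  change (z : K) = y at h3
  rw [← h3]
  exact z.2

/-- Algebraic independence by counting. -/
lemma algebraicIndependent_of_isAlgebraic {σ τ : Type} [Finite σ] (x : τ → K)
    (hx : AlgebraicIndependent k x) (c : σ → K) (hcard : Nat.card σ = Nat.card τ)
    (hτ : Finite τ)
    (halg : Algebra.IsAlgebraic (IntermediateField.adjoin k (Set.range c)) K) :
    AlgebraicIndependent k c := by
  have h1 : Algebra.IsAlgebraic (Algebra.adjoin k (Set.range c)) K :=
    Algebra.IsAlgebraic.trans (Algebra.adjoin k (Set.range c))
      (IntermediateField.adjoin k (Set.range c)) K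
  have e : σ ≃ τ := (Finite.card_eq.1 hcard).some
  have h3 := hx.lift_cardinalMk_le_trdeg
  refine (Algebra.IsAlgebraic.isTranscendenceBasis_of_lift_le_trdeg_of_finite k c ?_).1
  refine le_trans (le_of_eq ?_) h3
  rw [Cardinal.mk_congr e]

end gen

end Pool.Agent.H920R2
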