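import Pool.Agent.Helper165.Geom2
import Pool.Agent.Helper165.StdSmooth

set_option autoImplicit false

open HomogeneousLocalization AlgebraicGeometry CategoryTheory TopologicalSpace
open Pool.Agent.Helper165

universe u v w

namespace Pool.Agent.H920R2

section cover

variable {A : Type u} [CommRing A] {K : Type v} [Field K] (g : A →+* K)
  (J : Ideal A) {ι : Type w} (z : ι → A)

lemma psi_locElem (a b : A) (ha : a ∈ J) (hb : b ∈ J) (hgb : g b ≠ 0) :
    psi J g b hb hgb (Away.isLocalizationElem (tElt_mem J b hb) (tElt_mem J a ha)) =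
      g a / g b := by
  have h := congrArg (psi J g b hb hgb) (chartMap_eq_mul J a b ha hb)
  rw [map_mul, psi_chartMap, psi_chartMap] at h
  rw [h]
  field_simp

/-- The charts attached to the indices in `S` cover the blowup, as soon as for every valuation
ring of `K` containing `A` one of the generators attached to `S` has minimal valuation. -/
theorem cover_of_valuative (hg : Function.Injective g) (hJ : J = Ideal.span (Set.range z))
    (S : Set ι) (hmem : ∀ i, z i ∈ J)
    (hV : ∀ V : ValuationSubring K, (∀ a, g a ∈ V) →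
      ∃ s ∈ S, z s ≠ 0 ∧ ∀ i, g (z i) / g (z s) ∈ V) (y : blow J) :
    ∃ s ∈ S, z s ≠ 0 ∧ y ∈ (blowChart J (z s) (hmem s)).opensRange := by
  obtain ⟨i, hi⟩ : ∃ i, tElt J (z i) (hmem i) ∉
      ProjectiveSpectrum.asHomogeneousIdeal (𝒜 := reesPiece J) y := by
    by_contra hcon
    push Not at hcon
    refine false_of_span J y (Set.range z) hJ ?_
    rintro s ⟨i, rfl⟩ hs
    exact hcon i
  have hzi : z i ≠ 0 := by
    intro h0
    apply hi
    have : tElt J (z i) (hmem i) = 0 := by
      apply Subtype.ext
      simp [tElt, reesMon, h0]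
    rw [this]
    exact Ideal.zero_mem _
  have hgz : g (z i) ≠ 0 := fun h => hzi ((map_eq_zero_iff g hg).1 h)
  have hyi : y ∈ (blowChart J (z i) (hmem i)).opensRange := by
    rw [blowChart_opensRange]
    exact hi
  obtain ⟨w, hw⟩ := hyi
  -- the chart ring and its localization
  let P : Ideal (Away (reesPiece J) (tElt J (z i) (hmem i))) := w.asIdeal
  have hP : P.IsPrime := w.isPrime
  let φ := psi J g (z i) (hmem i) hgz
  have hφ : Function.Injective φ := psi_injective J g (z i) (hmem i) hgz hg
  have hunit : ∀ x : P.primeCompl, IsUnit (φ x) := by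
    intro x
    apply IsUnit.mk0
    intro h
    have h0 : (x : Away (reesPiece J) (tElt J (z i) (hmem i))) = 0 :=
      (map_eq_zero_iff φ hφ).1 h
    exact x.2 (by rw [h0]; exact P.zero_mem)
  let f : Localization.AtPrime P →+* K := IsLocalization.lift (M := P.primeCompl)
    (S := Localization.AtPrime P) hunit
  obtain ⟨V, hVf, hloc⟩ := IsLocalRing.exists_factor_valuationRing f
  let α : Away (reesPiece J) (tElt J (z i) (hmem i)) →+* Localization.AtPrime P :=
    algebraMap _ _
  have hfφ : ∀ x : Away (reesPiece J) (tElt J (z i) (hmem i)), f (α x) = φ x :=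
    fun x => IsLocalization.lift_eq (M := P.primeCompl) (S := Localization.AtPrime P) hunit x
  have hgV : ∀ a, g a ∈ V := by
    intro a
    have h1 : f (α (chartMap J (z i) (hmem i) a)) = g a := by
      rw [hfφ]
      exact psi_chartMap J g (z i) (hmem i) hgz a
    rw [← h1]
    exact hVf _
  obtain ⟨s, hsS, hs0, hs⟩ := hV V hgV
  refine ⟨s, hsS, hs0, ?_⟩
  have hgs : g (z s) ≠ 0 := fun h => hs0 ((map_eq_zero_iff g hg).1 h)
  set t := Away.isLocalizationElem (tElt_mem J (z i) (hmem i)) (tElt_mem J (z s) (hmem s))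
    with ht
  have hφt : φ t = g (z s) / g (z i) := psi_locElem g J (z s) (z i) (hmem s) (hmem i) hgz
  have htP : t ∉ P := by
    intro hmemt
    have hnu : ¬ IsUnit (α t) := by
      have := (IsLocalization.AtPrime.to_map_mem_maximal_iff (Localization.AtPrime P) P t).2
        hmemt
      exact (IsLocalRing.mem_maximalIdeal _).1 this
    apply hnu
    apply hloc.1
    have hinv : (f (α t))⁻¹ ∈ V := by
      rw [hfφ, hφt, inv_div]
      exact hs i
    have hne : f (α t) ≠ 0 := by
      rw [hfφ, hφt]
      exact div_ne_zero hgs hgz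
    refine IsUnit.of_mul_eq_one ⟨_, hinv⟩ ?_
    apply Subtype.ext
    change f (α t) * (f (α t))⁻¹ = 1
    exact mul_inv_cancel₀ hne
  have h5 := Proj.awayι_preimage_basicOpen (reesPiece J) (f := tElt J (z i) (hmem i))
    (tElt_mem J (z i) (hmem i)) one_pos (g := tElt J (z s) (hmem s))
    (tElt_mem J (z s) (hmem s)) one_pos
  have h6 : w ∈ (Proj.awayι (reesPiece J) (tElt J (z i) (hmem i))
      (tElt_mem J (z i) (hmem i)) one_pos) ⁻¹ᵁ
      Proj.basicOpen (reesPiece J) (tElt J (z s) (hmem s)) := by
    rw [h5]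
    exact htP
  rw [blowChart_opensRange, ← hw]
  exact h6

end cover

/-- The `k`-scheme `X`, with structure morphism `f`, has a resolution of singularities: there are
an integral scheme `Y`, smooth over `k`, and a proper morphism `π : Y ⟶ X` which is an
isomorphism over a dense open subset of `X`. -/
def HasResolution {k : Type u} [Field k] {X : Scheme.{u}} (f : X ⟶ Spec (CommRingCat.of k)) :
    Prop :=
  ∃ (Y : Scheme.{u}) (π : Y ⟶ X), AlgebraicGeometry.IsIntegral Y ∧
    AlgebraicGeometry.IsProper π ∧ AlgebraicGeometry.Smooth (π ≫ f) ∧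
    ∃ U : X.Opens, Dense (U : Set X) ∧ IsIso (π ∣_ U)

section chart

variable {k A : Type u} [Field k] [CommRing A] [Algebra k A] {K : Type v} [Field K]
  [Algebra k K] (g : A →ₐ[k] K) (hg : Function.Injective g) (J : Ideal A)
  {ι : Type w} (z : ι → A) (hJ : J = Ideal.span (Set.range z))

include hJ in
lemma div_pow_mem (s : ι) (C : Subalgebra k K)
    (h1 : ∀ a, g a ∈ C) (h2 : ∀ i, g (z i) / g (z s) ∈ C) (n : ℕ) {b : A} (hb : b ∈ J ^ n) :
    g b / g (z s) ^ n ∈ C := by
  have hJC : ∀ b ∈ J, g b / g (z s) ∈ C := by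
    intro b hb
    rw [hJ] at hb
    induction hb using Submodule.span_induction with
    | mem x hx =>
      obtain ⟨i, rfl⟩ := hx
      exact h2 i
    | zero => simp
    | add x y _ _ hx hy =>
      rw [map_add, add_div]
      exact C.add_mem hx hy
    | smul a x _ hx =>
      rw [smul_eq_mul, map_mul, mul_div_assoc]
      exact C.mul_mem (h1 a) hx
  induction n generalizing b with
  | zero => simpa using h1 b
  | succ n ih =>
    rw [pow_succ] at hb
    refine Submodule.smul_induction_on hb ?_ ?_
    · intro x hx y hy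
      rw [smul_eq_mul, map_mul, pow_succ, mul_div_mul_comm]
      exact C.mul_mem (ih hx) (hJC y hy)
    · intro x y hx hy
      rw [map_add, add_div]
      exact C.add_mem hx hy

/-- The `k`-algebra structure of the chart ring. -/
@[reducible] noncomputable def chartAlg (a : A) (ha : a ∈ J) :
    Algebra k (Away (reesPiece J) (tElt J a ha)) :=
  ((chartMap J a ha).comp (algebraMap k A)).toAlgebra

include hg hJ in
lemma chart_smooth (s : ι) (hs : z s ∈ J) (hs0 : z s ≠ 0) {σ : Type} [Finite σ] (c : σ → K)
    (hc : AlgebraicIndependent k c) (h1 : ∀ a, g a ∈ Algebra.adjoin k (Set.range c))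
    (h2 : ∀ i, g (z i) / g (z s) ∈ Algebra.adjoin k (Set.range c))
    (h3 : ∀ j, c j ∈ Algebra.adjoin k
      (Set.range g ∪ Set.range fun i => g (z i) / g (z s))) :
    letI := chartAlg (k := k) J (z s) hs
    Algebra.Smooth k (Away (reesPiece J) (tElt J (z s) hs)) := by
  letI : Algebra k (Away (reesPiece J) (tElt J (z s) hs)) := chartAlg (k := k) J (z s) hs
  have hgz : g.toRingHom (z s) ≠ 0 := fun h => hs0 ((map_eq_zero_iff g hg).1 h)
  let Ψ : Away (reesPiece J) (tElt J (z s) hs) →ₐ[k] K :=
    { psi J g.toRingHom (z s) hs hgz with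
      commutes' := by
        intro r
        change psi J g.toRingHom (z s) hs hgz (chartMap J (z s) hs (algebraMap k A r)) = _
        rw [psi_chartMap]
        exact g.commutes r }
  have hΨ : Function.Injective Ψ := psi_injective J g.toRingHom (z s) hs hgz hg
  have hΨfrac : ∀ (n : ℕ) (b : A) (hb : b ∈ J ^ n), Ψ (frac J (z s) hs n b hb) =
      g b / g (z s) ^ n := fun n b hb => psi_frac J g.toRingHom (z s) hs hgz n b hb
  have hmemJ : ∀ i, z i ∈ J := fun i => by
    rw [hJ]; exact Ideal.subset_span ⟨i, rfl⟩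
  have hle : Algebra.adjoin k (Set.range g ∪ Set.range fun i => g (z i) / g (z s)) ≤
      Ψ.range := by
    rw [Algebra.adjoin_le_iff]
    rintro x (⟨a, rfl⟩ | ⟨i, rfl⟩)
    · exact ⟨chartMap J (z s) hs a, psi_chartMap J g.toRingHom (z s) hs hgz a⟩
    · refine ⟨frac J (z s) hs 1 (z i) (by simpa using hmemJ i), ?_⟩
      change Ψ _ = _
      rw [hΨfrac, pow_one]
  have hv : ∀ j, ∃ v, Ψ v = c j := fun j => hle (h3 j)
  choose v hv using hv
  have hcomp : Ψ.comp (MvPolynomial.aeval v) = MvPolynomial.aeval c := by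
    apply MvPolynomial.algHom_ext
    intro j
    simp [hv]
  have hbij : Function.Bijective
      (MvPolynomial.aeval v : MvPolynomial σ k →ₐ[k] Away (reesPiece J) (tElt J (z s) hs)) := by
    constructor
    · have h : Function.Injective (Ψ.comp (MvPolynomial.aeval v)) := by
        rw [hcomp]; exact hc
      intro x y hxy
      apply h
      rw [AlgHom.comp_apply, AlgHom.comp_apply, hxy]
    · intro x
      obtain ⟨n, b, hb, rfl⟩ := exists_frac J (z s) hs x
      have h := div_pow_mem g J z hJ s _ h1 h2 n hb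
      rw [Algebra.adjoin_range_eq_range_aeval] at h
      obtain ⟨q, hq⟩ := h
      refine ⟨q, hΨ ?_⟩
      rw [hΨfrac, ← AlgHom.comp_apply, hcomp]
      exact hq
  have hstd := isStandardSmooth_of_bijective (R := k) v hbij
  have hstd' : Algebra.IsStandardSmooth k (Away (reesPiece J) (tElt J (z s) hs)) :=
    Algebra.IsStandardSmoothOfRelativeDimension.isStandardSmooth (Nat.card σ)
  infer_instance

end chart

instance smooth_local : IsZariskiLocalAtSource (@Smooth.{u}) :=
  @HasRingHomProperty.instIsZariskiLocalAtSource (@Smooth.{u}) RingHom.Smooth inferInstance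

instance smooth_respectsIso' : MorphismProperty.RespectsIso (@Smooth.{u}) :=
  smooth_local.toRespects

section main

variable {k A : Type u} [Field k] [CommRing A] [IsDomain A] [Algebra k A] {K : Type v} [Field K]
  [Algebra k K] (g : A →ₐ[k] K) (hg : Function.Injective g)
  {ι : Type w} [Finite ι] (z : ι → A)

include hg in
/-- Criterion for the blowup of `Spec A` in the ideal generated by `z` to be a resolution of
singularities. -/
theorem hasResolution_of_charts (S : Set ι)
    (hV : ∀ V : ValuationSubring K, (∀ a, g a ∈ V) →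
      ∃ s ∈ S, z s ≠ 0 ∧ ∀ i, g (z i) / g (z s) ∈ V)
    (hc : ∀ s ∈ S, z s ≠ 0 → ∃ (σ : Type) (_ : Finite σ) (c : σ → K),
      AlgebraicIndependent k c ∧ (∀ a, g a ∈ Algebra.adjoin k (Set.range c)) ∧
      (∀ i, g (z i) / g (z s) ∈ Algebra.adjoin k (Set.range c)) ∧
      ∀ j, c j ∈ Algebra.adjoin k (Set.range g ∪ Set.range fun i => g (z i) / g (z s))) :
    HasResolution (X := Spec (CommRingCat.of A))
      (Spec.map (CommRingCat.ofHom (algebraMap k A))) := by
  classical
  set J : Ideal A := Ideal.span (Set.range z) with hJ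
  have hmem : ∀ i, z i ∈ J := fun i => Ideal.subset_span ⟨i, rfl⟩
  have hFG : J.FG := Submodule.fg_span (Set.finite_range z)
  have hcover := cover_of_valuative g.toRingHom J z hg hJ S hmem hV
  obtain ⟨s0, -, hs0, -⟩ := hV ⊤ (fun a => trivial)
  let T := {s : ι // s ∈ S ∧ z s ≠ 0}
  have hsup : ⨆ s : T, (blowChart J (z s.1) (hmem s.1)).opensRange = ⊤ := by
    rw [eq_top_iff]
    intro y _
    rw [Opens.mem_iSup]
    obtain ⟨s, hs, hs0, hy⟩ := hcover y
    exact ⟨⟨s, hs, hs0⟩, hy⟩
  refine ⟨blow J, blowMap J, blow_integral J (z s0) (hmem s0) hs0, blowMap_isProper J hFG,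
    ?_, PrimeSpectrum.basicOpen (z s0), ?_, isIso_blowMap_restrict J (z s0) (hmem s0) hs0⟩
  · rw [IsZariskiLocalAtSource.iff_of_iSup_eq_top (P := @Smooth.{u})
      (fun s : T => (blowChart J (z s.1) (hmem s.1)).opensRange) hsup]
    rintro ⟨s, hs, hs0⟩
    rw [← MorphismProperty.cancel_left_of_respectsIso (P := @Smooth.{u})
      (blowChart J (z s) (hmem s)).isoOpensRange.hom]
    have hcm : blowChart J (z s) (hmem s) ≫ blowMap J ≫
        Spec.map (CommRingCat.ofHom (algebraMap k A)) =
        Spec.map (CommRingCat.ofHom ((chartMap J (z s) (hmem s)).comp (algebraMap k A))) := by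
      rw [← Category.assoc, blowChart_blowMap, ← Spec.map_comp]
      rfl
    rw [← Category.assoc, Scheme.Hom.isoOpensRange_hom_ι, hcm,
      HasRingHomProperty.Spec_iff (P := @Smooth.{u})]
    obtain ⟨σ, _, c, hc0, hc1, hc2, hc3⟩ := hc s hs hs0
    let _ := chartAlg (k := k) J (z s) (hmem s)
    have h := chart_smooth g hg J z hJ s (hmem s) hs0 c hc0 hc1 hc2 hc3
    exact RingHom.smooth_algebraMap.2 h
  · let U : (Spec (CommRingCat.of A)).Opens := PrimeSpectrum.basicOpen (z s0)
    have hne : (U : Set (Spec (CommRingCat.of A))).Nonempty := by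
      refine ⟨(⊥ : PrimeSpectrum A), ?_⟩
      change z s0 ∉ (⊥ : PrimeSpectrum A).asIdeal
      intro h
      have h2 : z s0 ∈ (⊥ : Ideal A) := h
      exact hs0 h2
    have hint : IsIntegral (Spec (CommRingCat.of A)) := inferInstance
    exact U.isOpen.dense hne

end main

end Pool.Agent.H920R2
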