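import Pool.Agent.H920R2.Sig2

set_option autoImplicit false
set_option linter.unusedSectionVars false

open Polynomial

universe u v

namespace Pool.Agent.H920R2

section ded

variable {A : Type u} [CommRing A] [IsDedekindDomain A]

/-- Existence of uniformizers. -/
lemma exists_unif (S : Finset (Ideal A)) (hS : ∀ P ∈ S, P.IsPrime ∧ P ≠ ⊥) (P : Ideal A)
    (hP : P ∈ S) (N : ℕ) : ∃ t, t ∈ P ∧ t ∉ P ^ 2 ∧ ∀ P' ∈ S, P' ≠ P → t ∈ P' ^ N := by
  classical
  have hPp := (hS P hP).1
  have hP0 := (hS P hP).2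
  obtain ⟨a, ha, ha'⟩ : ∃ a ∈ P, a ∉ P ^ 2 := by
    by_contra hcon
    push Not at hcon
    have h1 : P = P ^ 2 := le_antisymm hcon (Ideal.pow_le_self two_ne_zero)
    have h2 : P * 1 = P * P := by rw [mul_one, ← pow_two]; exact h1
    have h3 := mul_left_cancel₀ hP0 h2
    exact hPp.ne_top (by rw [← h3, Ideal.one_eq_top])
  have hmax : P.IsMaximal := hPp.isMaximal hP0
  have hcop : IsCoprime (P ^ 2) (∏ P' ∈ S.erase P, P' ^ N) := by
    refine IsCoprime.prod_right fun P' hP' => ?_
    rw [Finset.mem_erase] at hP'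
    have hmax' : P'.IsMaximal := (hS P' hP'.2).1.isMaximal (hS P' hP'.2).2
    refine IsCoprime.pow ?_
    rw [Ideal.isCoprime_iff_sup_eq]
    exact hmax.coprime_of_ne hmax' (Ne.symm hP'.1)
  rw [Ideal.isCoprime_iff_exists] at hcop
  obtain ⟨x, hx, e, he, hxe⟩ := hcop
  refine ⟨a * e, P.mul_mem_right _ ha, ?_, ?_⟩
  · intro h
    apply ha'
    have h1 : a = a * x + a * e := by rw [← mul_add, hxe, mul_one]
    rw [h1]
    exact Ideal.add_mem _ (Ideal.mul_mem_left _ _ hx) h
  · intro P' hP' hne
    refine Ideal.mul_mem_left _ _ ?_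
    have h1 : ∏ P' ∈ S.erase P, P' ^ N ≤ P' ^ N :=
      Ideal.le_of_dvd (Finset.dvd_prod_of_mem _ (Finset.mem_erase.2 ⟨hne, hP'⟩))
    exact h1 he

/-- Locally, a prime ideal is generated by a uniformizer. -/
lemma exists_den (P : Ideal A) (t : A) (ht : t ∈ P) (ht' : t ∉ P ^ 2) :
    ∃ f, f ∉ P ∧ ∀ b ∈ P, t ∣ f * b := by
  obtain ⟨J, hJ⟩ := Ideal.dvd_span_singleton.2 ht
  obtain ⟨f, hf, hfP⟩ : ∃ f ∈ J, f ∉ P := by
    by_contra hcon
    push Not at hcon
    apply ht'
    have h1 : t ∈ P * J := by rw [← hJ]; exact Ideal.mem_span_singleton_self t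
    rw [pow_two]
    exact Ideal.mul_mono_right hcon h1
  refine ⟨f, hfP, fun b hb => ?_⟩
  rw [← Ideal.mem_span_singleton, hJ, mul_comm f]
  exact Ideal.mul_mem_mul hb hf

/-- Locally, the powers of a prime ideal are generated by the powers of a uniformizer. -/
lemma exists_den_pow (P : Ideal A) {t f : A} (hf : ∀ b ∈ P, t ∣ f * b) (c : ℕ) :
    ∀ b ∈ P ^ c, t ^ c ∣ f ^ c * b := by
  induction c with
  | zero => intro b _; simp
  | succ c ih =>
    intro b hb
    rw [pow_succ] at hb
    refine Submodule.mul_induction_on hb ?_ ?_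
    · intro x hx y hy
      have h1 : f ^ (c + 1) * (x * y) = (f ^ c * x) * (f * y) := by ring
      rw [h1, pow_succ]
      exact mul_dvd_mul (ih x hx) (hf y hy)
    · intro x y hx hy
      rw [mul_add]
      exact dvd_add hx hy

variable {k : Type u} [Field k] [Algebra k A] (σ : A ≃ₐ[k] A)

/-- The differences of the elements of a power of a fixed prime ideal. -/
lemma del_pow_mem (P : Ideal A) (n : ℕ) (hn : ∀ a, del σ a ∈ P ^ (n + 1)) (c : ℕ) :
    ∀ a ∈ P ^ c, del σ a ∈ P ^ (c + n) := by
  induction c with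
  | zero =>
    intro a _
    rw [zero_add]
    exact Ideal.pow_le_pow_right (Nat.le_succ n) (hn a)
  | succ c ih =>
    intro a ha
    rw [pow_succ'] at ha
    refine Submodule.mul_induction_on ha ?_ ?_
    · intro x hx y hy
      rw [del_mul]
      have e : c + 1 + n = 1 + (c + n) := by ring
      have e' : c + 1 + n = (n + 1) + c := by ring
      refine Ideal.add_mem _ (Ideal.add_mem _ ?_ ?_) ?_
      · rw [e', pow_add]
        exact Ideal.mul_mem_mul (hn x) hy
      · rw [e, pow_add, pow_one]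
        exact Ideal.mul_mem_mul hx (ih y hy)
      · have h1 : del σ x * del σ y ∈ P ^ (n + 1) * P ^ (c + n) :=
          Ideal.mul_mem_mul (hn x) (ih y hy)
        rw [← pow_add] at h1
        exact Ideal.pow_le_pow_right (by omega) h1
    · intro x y hx hy
      rw [del_add]
      exact Ideal.add_mem _ hx hy

/-- The increment of a polynomial. -/
lemma del_aeval (a : A) (F : k[X]) : ∃ c, del σ (aeval a F) =
    aeval a (derivative F) * del σ a + c * (del σ a * del σ a) := by
  induction F using Polynomial.induction_on' with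
  | add p q hp hq =>
    obtain ⟨c, hc⟩ := hp
    obtain ⟨c', hc'⟩ := hq
    refine ⟨c + c', ?_⟩
    rw [map_add, del_add, hc, hc', derivative_add, map_add]
    ring
  | monomial n r =>
    have h1 : ∀ n : ℕ, ∃ c, del σ (a ^ n) = n * a ^ (n - 1) * del σ a +
        c * (del σ a * del σ a) := by
      intro n
      induction n with
      | zero => exact ⟨0, by rw [pow_zero]; unfold del; rw [map_one]; simp⟩
      | succ n ih =>
        obtain ⟨c, hc⟩ := ih
        rcases Nat.eq_zero_or_pos n with h | h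
        · subst h
          exact ⟨0, by simp⟩
        · refine ⟨c * a + n * a ^ (n - 1) + c * del σ a, ?_⟩
          rw [pow_succ, del_mul, hc]
          have h2 : a ^ n = a * a ^ (n - 1) := by
            rw [← pow_succ', Nat.sub_add_cancel h]
          rw [Nat.add_sub_cancel, h2]
          push_cast
          ring
    obtain ⟨c, hc⟩ := h1 n
    refine ⟨algebraMap k A r * c, ?_⟩
    rw [aeval_monomial, del_mul, del_algebraMap, hc, derivative_monomial, aeval_monomial, map_mul,
      map_natCast]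
    ring

/-- If the differences of all elements are in the `n`-th power of a prime ideal, and the
difference of a uniformizer in the next power, then so are all differences. -/
lemma del_lift (P : Ideal A) [hPm : P.IsMaximal] (hsep : ∀ a : A, ∃ F : k[X], aeval a F ∈ P ∧
    aeval a (derivative F) ∉ P) {t f : A} (hf : f ∉ P) (hft : ∀ b ∈ P, t ∣ f * b)
    {n : ℕ} (hn : 1 ≤ n) (hdel : ∀ a, del σ a ∈ P ^ n) (ht : t ∈ P)
    (hdt : del σ t ∈ P ^ (n + 1)) : ∀ a, del σ a ∈ P ^ (n + 1) := by
  have hP : ∀ b ∈ P, del σ b ∈ P ^ (n + 1) := by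
    intro b hb
    obtain ⟨c, hc⟩ := hft b hb
    have h1 : del σ (f * b) = del σ (t * c) := by rw [hc]
    rw [del_mul, del_mul] at h1
    have h2 : f * del σ b = del σ t * c + t * del σ c + del σ t * del σ c - del σ f * b -
        del σ f * del σ b := by linear_combination h1
    have h3 : f * del σ b ∈ P ^ (n + 1) := by
      rw [h2]
      refine Ideal.sub_mem _ (Ideal.sub_mem _ (Ideal.add_mem _ (Ideal.add_mem _
        (Ideal.mul_mem_right _ _ hdt) ?_) (Ideal.mul_mem_right _ _ hdt)) ?_) ?_
      · rw [pow_succ']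
        exact Ideal.mul_mem_mul ht (hdel c)
      · rw [pow_succ]
        exact Ideal.mul_mem_mul (hdel f) hb
      · have h4 : del σ f * del σ b ∈ P ^ n * P ^ n := Ideal.mul_mem_mul (hdel f) (hdel b)
        rw [← pow_add] at h4
        exact Ideal.pow_le_pow_right (by omega) h4
    exact (Ideal.IsMaximal.mul_mem_pow P h3).resolve_left hf
  intro a
  obtain ⟨F, hF, hF'⟩ := hsep a
  obtain ⟨c, hc⟩ := del_aeval σ a F
  have h1 := hP _ hF
  have h2 : aeval a (derivative F) * del σ a ∈ P ^ (n + 1) := by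
    have h3 : aeval a (derivative F) * del σ a = del σ (aeval a F) - c * (del σ a * del σ a) := by
      rw [hc]; ring
    rw [h3]
    refine Ideal.sub_mem _ h1 (Ideal.mul_mem_left _ _ ?_)
    have h4 : del σ a * del σ a ∈ P ^ n * P ^ n := Ideal.mul_mem_mul (hdel a) (hdel a)
    rw [← pow_add] at h4
    exact Ideal.pow_le_pow_right (by omega) h4
  exact (Ideal.IsMaximal.mul_mem_pow P h2).resolve_left hF'

/-- Wildness: the differences are in the square of a fixed prime ideal. -/
lemma del_wild {p : ℕ} (hp : p.Prime) (hpk : (p : k) = 0) (hσ : ∀ a, σ^[p] a = a)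
    (P : Ideal A) [hPm : P.IsMaximal] (hsep : ∀ a : A, ∃ F : k[X], aeval a F ∈ P ∧
    aeval a (derivative F) ∉ P) {t f : A} (hf : f ∉ P) (hft : ∀ b ∈ P, t ∣ f * b)
    (ht : t ∈ P) (ht' : t ∉ P ^ 2) (hdel : ∀ a, del σ a ∈ P) : ∀ a, del σ a ∈ P ^ 2 := by
  have hchar : CharP k p := (CharP.charP_iff_prime_eq_zero hp).2 hpk
  have _ : Fact p.Prime := ⟨hp⟩
  have hcharA : CharP A p := charP_of_injective_algebraMap (algebraMap k A).injective p
  have hσP : ∀ b ∈ P, σ b ∈ P := by
    intro b hb
    have h1 : σ b = del σ b + b := by unfold del; ring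
    rw [h1]
    exact P.add_mem (hdel b) hb
  have hσP2 : ∀ b ∈ P ^ 2, σ b ∈ P ^ 2 := by
    intro b hb
    rw [pow_two] at hb ⊢
    refine Submodule.mul_induction_on hb ?_ ?_
    · intro x hx y hy
      rw [map_mul]
      exact Ideal.mul_mem_mul (hσP x hx) (hσP y hy)
    · intro x y hx hy
      rw [map_add]
      exact Ideal.add_mem _ hx hy
  obtain ⟨c, hc⟩ := hft _ (hσP t ht)
  -- f σ t = t c
  have hpow : ∀ (j : ℕ) (x : A), σ x ^ j - x ^ j ∈ P := by
    intro j x
    rw [← Ideal.Quotient.mk_eq_mk_iff_sub_mem, map_pow, map_pow]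
    congr 1
    rw [Ideal.Quotient.mk_eq_mk_iff_sub_mem]
    exact hdel x
  have key : ∀ j : ℕ, f ^ j * σ^[j] t - c ^ j * t ∈ P ^ 2 := by
    intro j
    induction j with
    | zero => simp
    | succ j ih =>
      have hjP : ∀ j : ℕ, σ^[j] t ∈ P := by
        intro j
        induction j with
        | zero => exact ht
        | succ j ih => rw [Function.iterate_succ_apply']; exact hσP _ ih
      have h1 := hσP2 _ ih
      rw [map_sub, map_mul, map_mul, map_pow, map_pow, ← Function.iterate_succ_apply' σ] at h1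
      have h2 : f ^ (j + 1) * σ^[j + 1] t - c ^ (j + 1) * t =
          f * (σ f ^ j * σ^[j + 1] t - σ c ^ j * σ t) -
            f * ((σ f ^ j - f ^ j) * σ^[j + 1] t) + f * ((σ c ^ j - c ^ j) * σ t) +
              c ^ j * (f * σ t - t * c) := by ring
      rw [h2, hc, sub_self, mul_zero, add_zero]
      refine Ideal.add_mem _ (Ideal.sub_mem _ (Ideal.mul_mem_left _ _ h1)
        (Ideal.mul_mem_left _ _ ?_)) (Ideal.mul_mem_left _ _ ?_)
      · rw [pow_two]; exact Ideal.mul_mem_mul (hpow j f) (hjP _)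
      · rw [pow_two]; exact Ideal.mul_mem_mul (hpow j c) (hσP t ht)
  have h1 := key p
  rw [hσ, ← sub_mul, ← sub_pow_char] at h1
  have h2 : f - c ∈ P := by
    by_contra hcon
    have h3 : (f - c) ^ p ∉ P := fun h => hcon (hPm.isPrime.mem_of_pow_mem _ h)
    exact ht' ((Ideal.IsMaximal.mul_mem_pow P h1).resolve_left h3)
  have hdt : del σ t ∈ P ^ (1 + 1) := by
    have h3 : f * del σ t ∈ P ^ 2 := by
      have h4 : f * del σ t = -((f - c) * t) := by
        unfold del
        linear_combination hc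
      rw [h4, pow_two]
      exact neg_mem (Ideal.mul_mem_mul h2 ht)
    exact (Ideal.IsMaximal.mul_mem_pow P h3).resolve_left hf
  exact del_lift σ P hsep hf hft le_rfl (fun a => by rw [pow_one]; exact hdel a) ht hdt

end ded

end Pool.Agent.H920R2
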