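import Pool.Agent.H920R2.Cu1

set_option autoImplicit false
set_option linter.unusedSectionVars false

open Polynomial

universe u v

namespace Pool.Agent.H920R2

section data

variable {k A : Type u} [Field k] [CommRing A] [IsDedekindDomain A] [Algebra k A]

/-- The fixed points of an automorphism of a curve and their ramification jumps. -/
structure CurveData (σ : A ≃ₐ[k] A) (S : Finset (Ideal A)) (m : Ideal A → ℕ) : Prop where
  max : ∀ P ∈ S, P.IsMaximal
  ne : ∀ P ∈ S, P ≠ ⊥
  pos : ∀ P ∈ S, 1 ≤ m P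
  dl : ∀ P ∈ S, ∀ a, del σ a ∈ P ^ (m P + 1)
  ex : ∀ P ∈ S, ∀ t ∈ P, t ∉ P ^ 2 → del σ t ∉ P ^ (m P + 2)
  mem : ∀ P : Ideal A, P.IsPrime → (∀ a, del σ a ∈ P) → P ∈ S

/-- Separability of the residue fields. -/
lemma exists_sep [PerfectField k] [Algebra.FiniteType k A] (P : Ideal A) (hP : P.IsMaximal)
    (a : A) : ∃ F : k[X], aeval a F ∈ P ∧ aeval a (derivative F) ∉ P := by
  let _ : Field (A ⧸ P) := Ideal.Quotient.field P
  have _ : Algebra.FiniteType k (A ⧸ P) := inferInstance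
  have hfin : Module.Finite k (A ⧸ P) := finite_of_finite_type_of_isJacobsonRing k (A ⧸ P)
  let ab : A ⧸ P := Ideal.Quotient.mk P a
  have hint : IsIntegral k ab := Algebra.IsIntegral.isIntegral ab
  have hsep : (minpoly k ab).Separable := PerfectField.separable_of_irreducible
    (minpoly.irreducible hint)
  have hmk : ∀ F : k[X], Ideal.Quotient.mk P (aeval a F) = aeval ab F := by
    intro F
    exact (aeval_algHom_apply (Ideal.Quotient.mkₐ k P) a F).symm
  refine ⟨minpoly k ab, ?_, ?_⟩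
  · rw [← Ideal.Quotient.eq_zero_iff_mem, hmk, minpoly.aeval]
  · intro h
    rw [← Ideal.Quotient.eq_zero_iff_mem, hmk] at h
    exact hsep.aeval_derivative_ne_zero (minpoly.aeval k ab) h

/-- Existence of the ramification data. -/
theorem exists_curveData [PerfectField k] [Algebra.FiniteType k A] {p : ℕ} (hp : p.Prime)
    (hpk : (p : k) = 0) (σ : A ≃ₐ[k] A) (hσ : ∀ a, σ^[p] a = a) (hne : ∃ a, del σ a ≠ 0) :
    ∃ (S : Finset (Ideal A)) (m : Ideal A → ℕ), CurveData σ S m := by
  classical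
  let I : Ideal A := Ideal.span (Set.range (del σ))
  have hI0 : I ≠ ⊥ := by
    obtain ⟨a, ha⟩ := hne
    intro h
    apply ha
    have h1 : del σ a ∈ I := Ideal.subset_span ⟨a, rfl⟩
    rw [h] at h1
    exact h1
  have hfin := Ideal.finite_factors (R := A) hI0
  let S : Finset (Ideal A) := hfin.toFinset.image fun v => v.asIdeal
  have hS : ∀ P : Ideal A, P ∈ S ↔ P.IsPrime ∧ I ≤ P := by
    intro P
    constructor
    · intro h
      obtain ⟨v, hv, rfl⟩ := Finset.mem_image.1 h
      refine ⟨v.isPrime, ?_⟩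
      have h1 := (Set.Finite.mem_toFinset hfin).1 hv
      exact Ideal.le_of_dvd h1
    · rintro ⟨hP, hle⟩
      have hP0 : P ≠ ⊥ := by
        intro h
        rw [h, le_bot_iff] at hle
        exact hI0 hle
      refine Finset.mem_image.2 ⟨⟨P, hP, hP0⟩, ?_, rfl⟩
      rw [Set.Finite.mem_toFinset]
      exact Ideal.dvd_iff_le.2 hle
  have hP0 : ∀ P ∈ S, P ≠ ⊥ := by
    intro P hP h
    have hle := ((hS P).1 hP).2
    rw [h, le_bot_iff] at hle
    exact hI0 hle
  have hmax : ∀ P ∈ S, P.IsMaximal := fun P hP => ((hS P).1 hP).1.isMaximal (hP0 P hP)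
  have hex : ∀ P ∈ S, ∃ n, ¬ I ≤ P ^ (n + 2) := by
    intro P hP
    by_contra hcon
    push Not at hcon
    have h1 := Ideal.iInf_pow_eq_bot_of_isDomain P (hmax P hP).ne_top
    apply hI0
    rw [← le_bot_iff, ← h1]
    refine le_iInf fun n => ?_
    exact (hcon n).trans (Ideal.pow_le_pow_right (by omega))
  let m : Ideal A → ℕ := fun P => if h : P ∈ S then Nat.find (hex P h) else 0
  have hm : ∀ (P) (h : P ∈ S), m P = Nat.find (hex P h) := fun P h => dif_pos h
  have hunif : ∀ P ∈ S, ∃ t, t ∈ P ∧ t ∉ P ^ 2 := by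
    intro P hP
    obtain ⟨t, h1, h2, -⟩ := exists_unif {P} (fun P' h => by
      rw [Finset.mem_singleton] at h; rw [h]; exact ⟨((hS P).1 hP).1, hP0 P hP⟩) P
      (Finset.mem_singleton_self P) 1
    exact ⟨t, h1, h2⟩
  have hle2 : ∀ P ∈ S, I ≤ P ^ 2 := by
    intro P hP
    have _ := hmax P hP
    obtain ⟨t, ht, ht'⟩ := hunif P hP
    obtain ⟨f, hf, hft⟩ := exists_den P t ht ht'
    have h1 := del_wild σ hp hpk hσ P (exists_sep P (hmax P hP)) hf hft ht ht'
      (fun a => ((hS P).1 hP).2 (Ideal.subset_span ⟨a, rfl⟩))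
    rw [Ideal.span_le]
    rintro _ ⟨a, rfl⟩
    exact h1 a
  have hmle : ∀ P ∈ S, I ≤ P ^ (m P + 1) := by
    intro P hP
    rw [hm P hP]
    rcases Nat.eq_zero_or_pos (Nat.find (hex P hP)) with h | h
    · rw [h, zero_add, pow_one]; exact ((hS P).1 hP).2
    · have h1 := Nat.find_min (hex P hP) (m := Nat.find (hex P hP) - 1) (by omega)
      rw [not_not] at h1
      have e : Nat.find (hex P hP) - 1 + 2 = Nat.find (hex P hP) + 1 := by omega
      rwa [e] at h1
  have hmnle : ∀ P ∈ S, ¬ I ≤ P ^ (m P + 2) := by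
    intro P hP
    rw [hm P hP]
    exact Nat.find_spec (hex P hP)
  refine ⟨S, m, ⟨hmax, hP0, ?_, ?_, ?_, ?_⟩⟩
  · intro P hP
    by_contra hcon
    have h0 : m P = 0 := by omega
    apply hmnle P hP
    rw [h0]
    exact hle2 P hP
  · intro P hP a
    exact hmle P hP (Ideal.subset_span ⟨a, rfl⟩)
  · intro P hP t ht ht' h
    have _ := hmax P hP
    obtain ⟨f, hf, hft⟩ := exists_den P t ht ht'
    apply hmnle P hP
    have h1 := del_lift σ P (exists_sep P (hmax P hP)) hf hft (n := m P + 1) (by omega)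
      (fun a => hmle P hP (Ideal.subset_span ⟨a, rfl⟩)) ht h
    rw [Ideal.span_le]
    rintro _ ⟨a, rfl⟩
    exact h1 a
  · intro P hP h
    rw [hS]
    refine ⟨hP, ?_⟩
    rw [Ideal.span_le]
    rintro _ ⟨a, rfl⟩
    exact h a

end data

end Pool.Agent.H920R2
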