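import Pool.Agent.H920R2.Cu2

set_option autoImplicit false
set_option linter.unusedSectionVars false

open Polynomial

universe u v

namespace Pool.Agent.H920R2

section etale

variable {k A : Type u} [Field k] [CommRing A] [IsDedekindDomain A] [Algebra k A]

lemma aeval_inj {P : Ideal A} (hP : P.IsPrime) {t : A} (ht : t ∈ P) (ht0 : t ≠ 0) :
    Function.Injective (aeval t : k[X] →ₐ[k] A) := by
  rw [← transcendental_iff_injective]
  intro halg
  have h1 : IsIntegral k t := halg.isIntegral
  exact hP.ne_top (P.eq_top_of_isUnit_mem ht (h1.isUnit ht0))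

/-- A uniformizer is an étale coordinate near the point. -/
theorem exists_etale_unif [PerfectField k] [Algebra.FiniteType k A] (P : Ideal A)
    (hP : P.IsMaximal) {t : A} (ht : t ∈ P) (ht' : t ∉ P ^ 2) :
    ∃ f, f ∉ P ∧ (∀ b ∈ P, t ∣ f * b) ∧ ((aeval (algebraMap A (Localization.Away f) t) :
      k[X] →ₐ[k] Localization.Away f).toRingHom).Etale := by
  classical
  have ht0 : t ≠ 0 := by
    intro h
    apply ht'
    rw [h]
    exact Ideal.zero_mem _
  have hinj := aeval_inj (k := k) hP.isPrime ht ht0
  obtain ⟨f0, hf0, hft⟩ := exists_den P t ht ht'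
  let _ : Algebra k[X] A := (aeval t : k[X] →ₐ[k] A).toRingHom.toAlgebra
  have halg : ∀ F : k[X], algebraMap k[X] A F = aeval t F := fun F => rfl
  have _ : IsScalarTower k k[X] A := IsScalarTower.of_algebraMap_eq fun r => by
    rw [halg, Polynomial.algebraMap_eq, aeval_C]
  have hfs : FaithfulSMul k[X] A := (faithfulSMul_iff_algebraMap_injective _ _).2 hinj
  have htf : Module.IsTorsionFree k[X] A := inferInstance
  have hflat : Module.Flat k[X] A := by
    rw [IsDedekindDomain.flat_iff_torsion_eq_bot, ← Submodule.isTorsionFree_iff_torsion_eq_bot]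
    exact htf
  have hfp : Algebra.FinitePresentation k[X] A := by
    have _ : Algebra.FiniteType k[X] A := Algebra.FiniteType.of_restrictScalars_finiteType k k[X] A
    exact Algebra.FinitePresentation.of_finiteType.1 inferInstance
  let p := P.under k[X]
  have hp : p.IsPrime := Ideal.IsPrime.under k[X] P
  let _ := Localization.AtPrime.algebraOfLiesOver p P
  have hunr : Algebra.IsUnramifiedAt k[X] P := by
    rw [Algebra.isUnramifiedAt_iff_map_eq k[X] p P]
    constructor
    · let _ : Field (A ⧸ P) := Ideal.Quotient.field P
      have hfin : Module.Finite k (A ⧸ P) := finite_of_finite_type_of_isJacobsonRing k (A ⧸ P)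
      have hbij := Ideal.bijective_algebraMap_quotient_residueField P
      have hfin2 : Module.Finite k P.ResidueField := by
        let e : (A ⧸ P) →ₗ[k] P.ResidueField :=
          (IsScalarTower.toAlgHom k (A ⧸ P) P.ResidueField).toLinearMap
        exact Module.Finite.of_surjective e hbij.2
      have h1 : Algebra.IsSeparable k P.ResidueField := inferInstance
      exact Algebra.isSeparable_tower_top_of_isSeparable k p.ResidueField P.ResidueField
    · rw [← Localization.AtPrime.map_eq_maximalIdeal]
      apply le_antisymm
      · rw [Ideal.map_le_iff_le_comap]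
        intro F hF
        rw [Ideal.mem_comap, IsScalarTower.algebraMap_apply k[X] A]
        exact Ideal.mem_map_of_mem _ hF
      · rw [Ideal.map_le_iff_le_comap]
        intro b hb
        rw [Ideal.mem_comap]
        obtain ⟨c, hc⟩ := hft b hb
        have hu : IsUnit (algebraMap A (Localization.AtPrime P) f0) :=
          IsLocalization.map_units _ (⟨f0, hf0⟩ : P.primeCompl)
        have h1 : algebraMap A (Localization.AtPrime P) f0 * algebraMap A _ b =
            algebraMap A _ t * algebraMap A _ c := by
          rw [← map_mul, ← map_mul, hc]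
        have h2 : algebraMap A (Localization.AtPrime P) f0 * algebraMap A _ b ∈
            p.map (algebraMap k[X] (Localization.AtPrime P)) := by
          rw [h1]
          refine Ideal.mul_mem_right _ _ ?_
          have h3 : algebraMap A (Localization.AtPrime P) t =
              algebraMap k[X] (Localization.AtPrime P) X := by
            rw [IsScalarTower.algebraMap_apply k[X] A, halg, aeval_X]
          rw [h3]
          refine Ideal.mem_map_of_mem _ ?_
          change algebraMap k[X] A X ∈ P
          rw [halg, aeval_X]
          exact ht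
        exact (Ideal.unit_mul_mem_iff_mem _ hu).1 h2
  have het : Algebra.IsEtaleAt k[X] P := Algebra.IsEtaleAt.of_isUnramifiedAt_of_flat P
  obtain ⟨r, hr, hEr⟩ := Algebra.exists_etale_of_isEtaleAt (R := k[X]) P
  obtain ⟨f, hf, hfb, hE⟩ : ∃ f, f ∉ P ∧ (∀ b ∈ P, t ∣ f * b) ∧
      Algebra.Etale k[X] (Localization.Away f) := by
    refine ⟨r * f0, fun h => (hP.isPrime.mem_or_mem h).elim hr hf0, ?_, ?_⟩
    · intro b hb
      rw [mul_assoc]
      exact (hft b hb).mul_left r
    · rw [← Algebra.basicOpen_subset_etaleLocus_iff_etale] at hEr ⊢
      exact Set.Subset.trans (PrimeSpectrum.basicOpen_mul_le_left r f0) hEr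
  refine ⟨f, hf, hfb, ?_⟩
  have h1 : (aeval (algebraMap A (Localization.Away f) t) :
      k[X] →ₐ[k] Localization.Away f).toRingHom = algebraMap k[X] (Localization.Away f) := by
    apply Polynomial.ringHom_ext
    · intro r
      change aeval _ (C r) = _
      rw [aeval_C, IsScalarTower.algebraMap_apply k[X] A (Localization.Away f), halg, aeval_C,
        ← IsScalarTower.algebraMap_apply]
    · change aeval _ X = _
      rw [aeval_X, IsScalarTower.algebraMap_apply k[X] A (Localization.Away f), halg, aeval_X]
  rw [h1]
  exact RingHom.etale_algebraMap.2 hE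

end etale

end Pool.Agent.H920R2
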