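import Pool.Agent.H920R2.Cu3

set_option autoImplicit false
set_option linter.unusedSectionVars false

open MvPolynomial

universe u v

namespace Pool.Agent.H920R2

/-- A coproduct of commutative algebras. -/
structure IsCoprod (k : Type u) [Field k] {ι : Type} {A : ι → Type u} [∀ i, CommRing (A i)]
    [∀ i, Algebra k (A i)] {B : Type u} [CommRing B] [Algebra k B]
    (j : ∀ i, A i →ₐ[k] B) : Prop where
  lift : ∀ (S : Type u) [CommRing S] [Algebra k S] (f : ∀ i, A i →ₐ[k] S),
    ∃ g : B →ₐ[k] S, ∀ i a, g (j i a) = f i a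
  ext : ∀ (S : Type u) [CommRing S] [Algebra k S] (g g' : B →ₐ[k] S),
    (∀ i a, g (j i a) = g' (j i a)) → g = g'

section one

variable {k D : Type u} [Field k] [CommRing D] [Algebra k D]

/-- Unique lifting for an algebra with an étale coordinate. -/
lemma exists_unique_lift {t : D}
    (ht : ((Polynomial.aeval t : Polynomial k →ₐ[k] D).toRingHom).Etale) {S : Type u} [CommRing S]
    [Algebra k S] (I : Ideal S) (hI : I ^ 2 = ⊥) (c : S) :
    (∀ g : D →ₐ[k] S ⧸ I, g t = Ideal.Quotient.mk I c → ∃ h : D →ₐ[k] S, h t = c ∧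
      ∀ x, Ideal.Quotient.mk I (h x) = g x) ∧
    ∀ h h' : D →ₐ[k] S, h t = c → h' t = c →
      (∀ x, Ideal.Quotient.mk I (h x) = Ideal.Quotient.mk I (h' x)) → h = h' := by
  let _ : Algebra (Polynomial k) D := (Polynomial.aeval t : Polynomial k →ₐ[k] D).toRingHom.toAlgebra
  have hE : Algebra.Etale (Polynomial k) D := ht
  have hD : ∀ F, algebraMap (Polynomial k) D F = Polynomial.aeval t F := fun F => rfl
  have _ : IsScalarTower k (Polynomial k) D := IsScalarTower.of_algebraMap_eq fun r => by
    rw [hD, Polynomial.algebraMap_eq, Polynomial.aeval_C]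
  let _ : Algebra (Polynomial k) S := (Polynomial.aeval c : Polynomial k →ₐ[k] S).toRingHom.toAlgebra
  have hS : ∀ F, algebraMap (Polynomial k) S F = Polynomial.aeval c F := fun F => rfl
  have _ : IsScalarTower k (Polynomial k) S := IsScalarTower.of_algebraMap_eq fun r => by
    rw [hS, Polynomial.algebraMap_eq, Polynomial.aeval_C]
  have hbij := Algebra.FormallyEtale.comp_bijective (Polynomial k) D I hI
  have hcomm : ∀ (T : Type u) [CommRing T] [Algebra k T] (h : D →ₐ[k] T) (F : Polynomial k),
      h (algebraMap (Polynomial k) D F) = Polynomial.aeval (h t) F := by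
    intro T _ _ h F
    rw [hD]
    exact (Polynomial.aeval_algHom_apply h t F).symm
  have hQ : ∀ F, algebraMap (Polynomial k) (S ⧸ I) F =
      Polynomial.aeval (Ideal.Quotient.mk I c) F := by
    intro F
    change Ideal.Quotient.mk I (algebraMap (Polynomial k) S F) = _
    rw [hS]
    exact (Polynomial.aeval_algHom_apply (Ideal.Quotient.mkₐ k I) c F).symm
  constructor
  · intro g hg
    let g' : D →ₐ[Polynomial k] S ⧸ I :=
      { toRingHom := g.toRingHom
        commutes' := fun F => by
          change g (algebraMap (Polynomial k) D F) = _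
          rw [hcomm, hg, hQ] }
    obtain ⟨h', hh'⟩ := hbij.2 g'
    let h : D →ₐ[k] S := h'.restrictScalars k
    refine ⟨h, ?_, ?_⟩
    · have h1 := h'.commutes Polynomial.X
      rw [hD, hS, Polynomial.aeval_X, Polynomial.aeval_X] at h1
      exact h1
    · intro x
      have h1 := congrArg (fun φ : D →ₐ[Polynomial k] S ⧸ I => φ x) hh'
      exact h1
  · intro h h' ht1 ht2 hx
    let h1 : D →ₐ[Polynomial k] S :=
      { toRingHom := h.toRingHom
        commutes' := fun F => by
          change h (algebraMap (Polynomial k) D F) = _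
          rw [hcomm, ht1, hS] }
    let h2 : D →ₐ[Polynomial k] S :=
      { toRingHom := h'.toRingHom
        commutes' := fun F => by
          change h' (algebraMap (Polynomial k) D F) = _
          rw [hcomm, ht2, hS] }
    have h3 : h1 = h2 := by
      apply hbij.1
      apply AlgHom.ext
      intro x
      exact hx x
    apply AlgHom.ext
    intro x
    exact congrArg (fun φ : D →ₐ[Polynomial k] S => φ x) h3

end one

section prod

variable {k : Type u} [Field k] {ι : Type} [Fintype ι] {A : ι → Type u} [∀ i, CommRing (A i)]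
    [∀ i, Algebra k (A i)] {B : Type u} [CommRing B] [Algebra k B]
    {j : ∀ i, A i →ₐ[k] B} (hj : IsCoprod k j)

include hj in
/-- A coproduct is generated by its factors. -/
lemma coprod_adjoin : Algebra.adjoin k (⋃ i, Set.range (j i)) = ⊤ := by
  set B' := Algebra.adjoin k (⋃ i, Set.range (j i)) with hB'
  have hmem : ∀ i a, j i a ∈ B' := fun i a =>
    Algebra.subset_adjoin (Set.mem_iUnion.2 ⟨i, a, rfl⟩)
  obtain ⟨g, hg⟩ := hj.lift B' fun i => (j i).codRestrict B' (hmem i)
  have h1 : B'.val.comp g = AlgHom.id k B := by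
    apply hj.ext
    intro i a
    rw [AlgHom.comp_apply, hg]
    rfl
  rw [eq_top_iff]
  intro b _
  have h2 := congrArg (fun φ : B →ₐ[k] B => φ b) h1
  change ((g b : B') : B) = b at h2
  rw [← h2]
  exact (g b).2

include hj in
lemma coprod_finiteType (hA : ∀ i, Algebra.FiniteType k (A i)) : Algebra.FiniteType k B := by
  classical
  choose s hs using fun i => (hA i).1
  constructor
  refine ⟨Finset.univ.biUnion fun i => (s i).image (j i), ?_⟩
  rw [eq_top_iff, ← coprod_adjoin hj, Algebra.adjoin_le_iff]
  intro b hb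
  obtain ⟨i, a, rfl⟩ := Set.mem_iUnion.1 hb
  have h1 : (Algebra.adjoin k (s i : Set (A i))).map (j i) ≤
      Algebra.adjoin k ((Finset.univ.biUnion fun i => (s i).image (j i) : Finset B) : Set B) := by
    rw [AlgHom.map_adjoin]
    apply Algebra.adjoin_mono
    rintro _ ⟨x, hx, rfl⟩
    rw [Finset.mem_coe, Finset.mem_biUnion]
    exact ⟨i, Finset.mem_univ i, Finset.mem_image.2 ⟨x, hx, rfl⟩⟩
  apply h1
  rw [hs]
  exact ⟨a, trivial, rfl⟩

include hj in
/-- A coproduct of formally smooth algebras is formally smooth. -/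
lemma coprod_formallySmooth (hA : ∀ i, Algebra.FormallySmooth k (A i)) :
    Algebra.FormallySmooth k B := by
  classical
  refine Algebra.FormallySmooth.of_comp_surjective (R := k) (A := B) ?_
  intro S _ _ I hI g
  have h1 : ∀ i, ∃ h : A i →ₐ[k] S, (Ideal.Quotient.mkₐ k I).comp h = g.comp (j i) := by
    intro i
    have _ := hA i
    exact Algebra.FormallySmooth.comp_surjective k (A i) I hI (g.comp (j i))
  choose h hh using h1
  obtain ⟨H, hH⟩ := hj.lift S h
  refine ⟨H, ?_⟩
  apply hj.ext
  intro i a
  rw [AlgHom.comp_apply, hH]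
  exact congrArg (fun φ : A i →ₐ[k] S ⧸ I => φ a) (hh i)

end prod

end Pool.Agent.H920R2
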