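import Pool.Agent.H920R2.Cu4

set_option autoImplicit false
set_option linter.unusedSectionVars false

open MvPolynomial

universe u v

namespace Pool.Agent.H920R2

section prod

variable {k : Type u} [Field k] {ι : Type} [Fintype ι] {A : ι → Type u} [∀ i, CommRing (A i)]
    [∀ i, Algebra k (A i)] {B : Type u} [CommRing B] [Algebra k B]
    {j : ∀ i, A i →ₐ[k] B} (hj : IsCoprod k j)

include hj in
/-- Étale coordinates on a product of curves. -/
theorem coprod_etale (hfB : Algebra.FiniteType k B) (f t : ∀ i, A i)
    (ht : ∀ i, ((Polynomial.aeval (algebraMap (A i) (Localization.Away (f i)) (t i)) :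
      Polynomial k →ₐ[k] Localization.Away (f i)).toRingHom).Etale) :
    ((aeval (fun i => algebraMap B (Localization.Away (∏ i, j i (f i))) (j i (t i))) :
      MvPolynomial ι k →ₐ[k] Localization.Away (∏ i, j i (f i))).toRingHom).Etale := by
  classical
  set F : B := ∏ i, j i (f i) with hF
  let D := Localization.Away F
  let C := MvPolynomial ι k
  let _ : Algebra C D := (aeval (fun i => algebraMap B D (j i (t i))) :
      MvPolynomial ι k →ₐ[k] D).toRingHom.toAlgebra
  have hCD : ∀ c : C, algebraMap C D c = aeval (fun i => algebraMap B D (j i (t i))) c :=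
    fun c => rfl
  have _ : IsScalarTower k C D := IsScalarTower.of_algebraMap_eq fun r => by
    rw [hCD, MvPolynomial.algebraMap_eq, aeval_C]
  have hftD : Algebra.FiniteType k D := by
    have h1 : Algebra.FiniteType B D :=
      IsLocalization.finiteType_of_monoid_fg (Submonoid.powers F) D
    exact Algebra.FiniteType.trans hfB h1
  have hfp : Algebra.FinitePresentation C D := by
    have _ : Algebra.FiniteType C D := Algebra.FiniteType.of_restrictScalars_finiteType k C D
    exact Algebra.FinitePresentation.of_finiteType.1 inferInstance
  -- the maps of localizations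
  have hunit : ∀ i, IsUnit (algebraMap B D (j i (f i))) := by
    intro i
    have h1 : IsUnit (algebraMap B D F) := IsLocalization.map_units D
      (⟨F, Submonoid.mem_powers F⟩ : Submonoid.powers F)
    refine isUnit_of_dvd_unit ?_ h1
    exact map_dvd _ (Finset.dvd_prod_of_mem (fun i => j i (f i)) (Finset.mem_univ i))
  let Di := fun i => Localization.Away (f i)
  have hli : ∀ i, ∃ l : Di i →ₐ[k] D, ∀ a, l (algebraMap (A i) (Di i) a) =
      algebraMap B D (j i a) := by
    intro i
    let l : Di i →+* D := IsLocalization.Away.lift (f i)
      (g := (algebraMap B D).comp (j i : A i →+* B)) (hunit i)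
    have hl : ∀ a, l (algebraMap (A i) (Di i) a) = algebraMap B D (j i a) := fun a =>
      IsLocalization.Away.lift_eq (f i) _ a
    refine ⟨{ toRingHom := l, commutes' := fun r => ?_ }, hl⟩
    change l (algebraMap k (Di i) r) = _
    rw [IsScalarTower.algebraMap_apply k (A i) (Di i), hl, AlgHom.commutes,
      ← IsScalarTower.algebraMap_apply]
  choose l hl using hli
  have hfe : Algebra.FormallyEtale C D := by
    rw [Algebra.FormallyEtale.iff_comp_bijective]
    intro S _ _ I hI
    let _ : Algebra k S := ((algebraMap C S).comp (algebraMap k C)).toAlgebra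
    have _ : IsScalarTower k C S := IsScalarTower.of_algebraMap_eq fun r => rfl
    let c : ι → S := fun i => algebraMap C S (X i)
    constructor
    · intro h h' hh
      have hmk : ∀ x, Ideal.Quotient.mk I (h x) = Ideal.Quotient.mk I (h' x) := fun x =>
        congrArg (fun φ : D →ₐ[C] S ⧸ I => φ x) hh
      have hX : ∀ (h : D →ₐ[C] S) (i : ι), h (algebraMap B D (j i (t i))) = c i := by
        intro h i
        have h1 := h.commutes (X i)
        rw [hCD, aeval_X] at h1
        exact h1
      let hk : D →ₐ[k] S := h.restrictScalars k
      let hk' : D →ₐ[k] S := h'.restrictScalars k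
      have h1 : ∀ i, hk.comp (l i) = hk'.comp (l i) := by
        intro i
        refine (exists_unique_lift (ht i) I hI (c i)).2 _ _ ?_ ?_ ?_
        · rw [AlgHom.comp_apply, hl]; exact hX h i
        · rw [AlgHom.comp_apply, hl]; exact hX h' i
        · intro x
          exact hmk _
      let ib : B →ₐ[k] D := IsScalarTower.toAlgHom k B D
      have h2 : hk.comp ib = hk'.comp ib := by
        apply hj.ext
        intro i a
        have h3 := congrArg (fun φ : Di i →ₐ[k] S => φ (algebraMap (A i) (Di i) a)) (h1 i)
        change hk (l i (algebraMap (A i) (Di i) a)) = hk' (l i (algebraMap (A i) (Di i) a)) at h3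
        rw [hl] at h3
        exact h3
      have h3 : (h : D →+* S) = (h' : D →+* S) := by
        apply IsLocalization.ringHom_ext (Submonoid.powers F)
        ext b
        exact congrArg (fun φ : B →ₐ[k] S => φ b) h2
      apply AlgHom.ext
      intro x
      exact congrArg (fun φ : D →+* S => φ x) h3
    · intro g
      have hgX : ∀ (i : ι), g (algebraMap B D (j i (t i))) = Ideal.Quotient.mk I (c i) := by
        intro i
        have h1 := g.commutes (X i)
        rw [hCD, aeval_X] at h1
        exact h1
      have _ : IsScalarTower k C (S ⧸ I) := IsScalarTower.of_algebraMap_eq fun r => rfl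
      let gk : D →ₐ[k] S ⧸ I := g.restrictScalars k
      have h1 : ∀ i, ∃ h : Di i →ₐ[k] S, h (algebraMap (A i) (Di i) (t i)) = c i ∧
          ∀ x, Ideal.Quotient.mk I (h x) = gk (l i x) := by
        intro i
        refine (exists_unique_lift (ht i) I hI (c i)).1 (gk.comp (l i)) ?_
        rw [AlgHom.comp_apply, hl]
        exact hgX i
      choose h hh hh' using h1
      obtain ⟨H, hH⟩ := hj.lift S fun i => (h i).comp (IsScalarTower.toAlgHom k (A i) (Di i))
      have hH' : ∀ i a, H (j i a) = h i (algebraMap (A i) (Di i) a) := fun i a => hH i a
      have hHF : IsUnit (H F) := by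
        rw [hF, map_prod]
        rw [IsUnit.prod_iff]
        intro i _
        rw [hH']
        exact (IsLocalization.map_units (Di i)
          (⟨f i, Submonoid.mem_powers (f i)⟩ : Submonoid.powers (f i))).map (h i)
      let G : D →+* S := IsLocalization.Away.lift F (g := (H : B →+* S)) hHF
      have hG : ∀ b, G (algebraMap B D b) = H b := fun b => IsLocalization.Away.lift_eq F _ b
      have hmkG : ∀ x, Ideal.Quotient.mk I (G x) = g x := by
        have h3 : (Ideal.Quotient.mk I).comp G = (g : D →+* S ⧸ I) := by
          apply IsLocalization.ringHom_ext (Submonoid.powers F)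
          have h4 : (Ideal.Quotient.mkₐ k I).comp H = gk.comp (IsScalarTower.toAlgHom k B D) := by
            apply hj.ext
            intro i a
            rw [AlgHom.comp_apply, hH']
            change Ideal.Quotient.mk I (h i _) = gk (algebraMap B D (j i a))
            rw [hh', hl]
          ext b
          have h5 := congrArg (fun φ : B →ₐ[k] S ⧸ I => φ b) h4
          change Ideal.Quotient.mk I (G (algebraMap B D b)) = g (algebraMap B D b)
          rw [hG]
          exact h5
        intro x
        exact congrArg (fun φ : D →+* S ⧸ I => φ x) h3
      have hGC : ∀ q : C, G (algebraMap C D q) = algebraMap C S q := by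
        intro q
        rw [hCD]
        induction q using MvPolynomial.induction_on with
        | C r =>
          rw [aeval_C, IsScalarTower.algebraMap_apply k B D, hG, AlgHom.commutes]
          rfl
        | add p q hp hq => rw [map_add, map_add, hp, hq, map_add]
        | mul_X p i hp =>
          rw [map_mul, map_mul, hp, aeval_X, hG, hH', hh, map_mul]
      refine ⟨{ toRingHom := G, commutes' := hGC }, ?_⟩
      apply AlgHom.ext
      intro x
      exact hmkG x
  have hE : Algebra.Etale C D := { formallyEtale := hfe, finitePresentation := hfp }
  exact hE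

end prod

end Pool.Agent.H920R2
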