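import Mathlib

set_option autoImplicit false

open Polynomial

universe u v

namespace Pool.Agent.H920R2

section lam

/-- Constant coefficient of the reduced representative. -/
noncomputable def lam {C : Type*} [CommRing C] {f : C[X]} (hf : f.Monic) (x : AdjoinRoot f) : C :=
  (AdjoinRoot.modByMonicHom hf x).coeff 0

variable {C D : Type*} [CommRing C] [CommRing D] (π : C →+* D) {f : C[X]} (hf : f.Monic)

lemma lam_mk (p : C[X]) : lam hf (AdjoinRoot.mk f p) = (p %ₘ f).coeff 0 := by
  unfold lam
  rw [AdjoinRoot.modByMonicHom_mk]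

lemma adjoinRoot_map_mk (p : C[X]) : AdjoinRoot.map π f (f.map π) dvd_rfl (AdjoinRoot.mk f p) =
    AdjoinRoot.mk (f.map π) (p.map π) := by
  have h : (AdjoinRoot.map π f (f.map π) dvd_rfl).comp (AdjoinRoot.mk f) =
      (AdjoinRoot.mk (f.map π)).comp (Polynomial.mapRingHom π) := by
    apply Polynomial.ringHom_ext
    · intro a
      simp
    · simp
  exact congrArg (fun g => g p) h

lemma lam_map (x : AdjoinRoot f) :
    lam (hf.map π) (AdjoinRoot.map π f (f.map π) dvd_rfl x) = π (lam hf x) := by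
  obtain ⟨p, rfl⟩ := AdjoinRoot.mk_surjective x
  rw [adjoinRoot_map_mk, lam_mk, lam_mk, ← Polynomial.map_modByMonic _ hf, coeff_map]

lemma lam_of (h0 : 0 < f.natDegree) (c : C) : lam hf (AdjoinRoot.of f c) = c := by
  nontriviality C
  have h1 : AdjoinRoot.of f c = AdjoinRoot.mk f (Polynomial.C c) := rfl
  rw [h1, lam_mk, (Polynomial.modByMonic_eq_self_iff hf).2, coeff_C_zero]
  exact lt_of_le_of_lt degree_C_le (natDegree_pos_iff_degree_pos.1 h0)

lemma lam_add (x y : AdjoinRoot f) : lam hf (x + y) = lam hf x + lam hf y := by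
  unfold lam; rw [map_add, coeff_add]

lemma lam_of_mul (c : C) (x : AdjoinRoot f) : lam hf (AdjoinRoot.of f c * x) = c * lam hf x := by
  unfold lam
  have h : AdjoinRoot.of f c * x = c • x := by
    rw [Algebra.smul_def]; rfl
  rw [h, map_smul, coeff_smul, smul_eq_mul]

include hf in
/-- The kernel of the reduction of `AdjoinRoot` modulo a square zero ideal has square zero. -/
lemma mul_eq_zero_of_map (hπ : ∀ a b, π a = 0 → π b = 0 → a * b = 0) (x y : AdjoinRoot f)
    (hx : AdjoinRoot.map π f (f.map π) dvd_rfl x = 0)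
    (hy : AdjoinRoot.map π f (f.map π) dvd_rfl y = 0) : x * y = 0 := by
  have key : ∀ x : AdjoinRoot f, AdjoinRoot.map π f (f.map π) dvd_rfl x = 0 →
      ∃ p : C[X], AdjoinRoot.mk f p = x ∧ ∀ i, π (p.coeff i) = 0 := by
    intro x hx
    obtain ⟨p, rfl⟩ := AdjoinRoot.mk_surjective x
    refine ⟨p %ₘ f, ?_, ?_⟩
    · rw [AdjoinRoot.mk_eq_mk]
      refine ⟨-(p /ₘ f), ?_⟩
      rw [modByMonic_eq_sub_mul_div]
      ring
    · rw [adjoinRoot_map_mk] at hx
      have h1 := congrArg (AdjoinRoot.modByMonicHom (hf.map π)) hx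
      rw [AdjoinRoot.modByMonicHom_mk, map_zero, ← Polynomial.map_modByMonic _ hf] at h1
      intro i
      have h2 := congrArg (fun q => q.coeff i) h1
      simpa using h2
  obtain ⟨p, rfl, hp⟩ := key x hx
  obtain ⟨q, rfl, hq⟩ := key y hy
  rw [← map_mul]
  have h : p * q = 0 := by
    ext i
    rw [coeff_mul, coeff_zero]
    exact Finset.sum_eq_zero fun j _ => hπ _ _ (hp _) (hq _)
  rw [h, map_zero]

end lam

section desc

variable {k : Type u} {A : Type v} [CommRing k] [CommRing A] [Algebra k A] {f : A[X]}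
  (hf : f.Monic) (h0 : 0 < f.natDegree)

include hf h0 in
/-- Formal smoothness descends along adjoining a root of a monic polynomial. -/
theorem formallySmooth_of_adjoinRoot [Algebra.FormallySmooth k (AdjoinRoot f)] :
    Algebra.FormallySmooth k A := by
  apply Algebra.FormallySmooth.of_comp_surjective
  intro C _ _ I hI φ
  by_cases htriv : Subsingleton (C ⧸ I)
  · have h1 : I = ⊤ := Ideal.Quotient.subsingleton_iff.1 htriv
    have h2 : Subsingleton C := by
      rw [h1, Ideal.top_pow] at hI
      have h3 : (1 : C) ∈ (⊥ : Ideal C) := hI ▸ Submodule.mem_top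
      exact subsingleton_of_zero_eq_one ((Ideal.mem_bot.1 h3).symm)
    have h3 : ∀ x y : C, x = y := fun x y => Subsingleton.elim x y
    let ψ : A →ₐ[k] C :=
      { toFun := fun _ => 0
        map_one' := h3 _ _
        map_mul' := fun _ _ => h3 _ _
        map_zero' := rfl
        map_add' := fun _ _ => h3 _ _
        commutes' := fun _ => h3 _ _ }
    refine ⟨ψ, AlgHom.ext fun a => Subsingleton.elim _ _⟩
  have hntC : Nontrivial (C ⧸ I) := not_subsingleton_iff_nontrivial.1 htriv
  let π : C →+* C ⧸ I := Ideal.Quotient.mk I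
  have hπ : ∀ a b, π a = 0 → π b = 0 → a * b = 0 := by
    intro a b ha hb
    have h1 : a * b ∈ I ^ 2 := by
      rw [pow_two]
      exact Ideal.mul_mem_mul (Ideal.Quotient.eq_zero_iff_mem.1 ha)
        (Ideal.Quotient.eq_zero_iff_mem.1 hb)
    rw [hI] at h1
    exact Ideal.mem_bot.1 h1
  let fb : (C ⧸ I)[X] := f.map φ.toRingHom
  have hfb : fb.Monic := hf.map _
  obtain ⟨f', hf'map, hf'deg, hf'mon⟩ := Polynomial.lifts_and_natDegree_eq_and_monic
    (f := π) (p := fb) (by
      rw [Polynomial.lifts_iff_coeff_lifts]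
      intro i
      exact Ideal.Quotient.mk_surjective _) hfb
  have hdeg : fb.natDegree = f.natDegree := hf.natDegree_map _
  let p1 : AdjoinRoot f' →+* AdjoinRoot (f'.map π) := AdjoinRoot.map π f' (f'.map π) dvd_rfl
  have hmapeq : f.map φ.toRingHom = f'.map π := hf'map.symm
  let g : AdjoinRoot f' →ₐ[k] AdjoinRoot (f'.map π) :=
    { p1 with
      commutes' := by
        intro r
        change p1 (algebraMap k (AdjoinRoot f') r) = _
        rw [IsScalarTower.algebraMap_apply k C (AdjoinRoot f'),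
          IsScalarTower.algebraMap_apply k (C ⧸ I) (AdjoinRoot (f'.map π))]
        exact AdjoinRoot.map_of _ _ _ _ _ }
  have hgsurj : Function.Surjective g := by
    intro y
    obtain ⟨q, rfl⟩ := AdjoinRoot.mk_surjective y
    obtain ⟨q', rfl⟩ := Polynomial.map_surjective π Ideal.Quotient.mk_surjective q
    exact ⟨AdjoinRoot.mk f' q', adjoinRoot_map_mk π q'⟩
  have hgnil : IsNilpotent (RingHom.ker (g : AdjoinRoot f' →+* AdjoinRoot (f'.map π))) := by
    refine ⟨2, ?_⟩
    rw [pow_two, Submodule.zero_eq_bot, eq_bot_iff, Ideal.mul_le]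
    intro x hx y hy
    exact Ideal.mem_bot.2 (mul_eq_zero_of_map π hf'mon hπ x y hx hy)
  let Φ : AdjoinRoot f →ₐ[k] AdjoinRoot (f'.map π) :=
    { AdjoinRoot.map φ.toRingHom f (f'.map π) (by rw [hmapeq]) with
      commutes' := by
        intro r
        change AdjoinRoot.map φ.toRingHom f (f'.map π) _ (algebraMap k (AdjoinRoot f) r) = _
        rw [IsScalarTower.algebraMap_apply k A (AdjoinRoot f),
          IsScalarTower.algebraMap_apply k (C ⧸ I) (AdjoinRoot (f'.map π))]
        have h1 := AdjoinRoot.map_of φ.toRingHom f (f'.map π) (by rw [hmapeq])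
          (algebraMap k A r)
        rw [AdjoinRoot.algebraMap_eq, h1]
        congr 1
        exact φ.commutes r }
  have hΦ : ∀ a, Φ (AdjoinRoot.of f a) = AdjoinRoot.of (f'.map π) (φ a) := fun a =>
    AdjoinRoot.map_of φ.toRingHom f (f'.map π) (by rw [hmapeq]) a
  let ψ : AdjoinRoot f →ₐ[k] AdjoinRoot f' :=
    Algebra.FormallySmooth.liftOfSurjective Φ g hgsurj hgnil
  have hψ : ∀ x, g (ψ x) = Φ x := fun x =>
    Algebra.FormallySmooth.liftOfSurjective_apply Φ g hgsurj hgnil x
  have hf'0 : 0 < f'.natDegree := by rw [hf'deg, hdeg]; exact h0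
  have hf'π0 : 0 < (f'.map π).natDegree := by rw [← hmapeq, hdeg]; exact h0
  let c : A → C := fun a => lam hf'mon (ψ (AdjoinRoot.of f a))
  have hc : ∀ a, π (c a) = φ a := by
    intro a
    have h1 := lam_map π hf'mon (ψ (AdjoinRoot.of f a))
    change π (lam hf'mon (ψ (AdjoinRoot.of f a))) = _
    rw [← h1]
    have h2 : AdjoinRoot.map π f' (f'.map π) dvd_rfl (ψ (AdjoinRoot.of f a)) =
        AdjoinRoot.of (f'.map π) (φ a) := by
      rw [← hΦ, ← hψ]; rfl
    rw [h2, lam_of _ hf'π0]
  -- the remainder of `ψ a` lies in the kernel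
  have hq : ∀ a, g (ψ (AdjoinRoot.of f a) - AdjoinRoot.of f' (c a)) = 0 := by
    intro a
    rw [map_sub, hψ, hΦ, sub_eq_zero, ← hc a]
    exact (AdjoinRoot.map_of π f' (f'.map π) dvd_rfl (c a)).symm
  have hlq : ∀ a, lam hf'mon (ψ (AdjoinRoot.of f a) - AdjoinRoot.of f' (c a)) = 0 := by
    intro a
    have h1 := lam_add hf'mon (ψ (AdjoinRoot.of f a) - AdjoinRoot.of f' (c a))
      (AdjoinRoot.of f' (c a))
    rw [sub_add_cancel, lam_of hf'mon hf'0] at h1
    have h2 : c a = lam hf'mon (ψ (AdjoinRoot.of f a)) := rfl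
    rw [← h2] at h1
    exact left_eq_add.1 (h1.trans (add_comm _ _)) 
  have hmul : ∀ a b, c (a * b) = c a * c b := by
    intro a b
    set qa := ψ (AdjoinRoot.of f a) - AdjoinRoot.of f' (c a) with hqa
    set qb := ψ (AdjoinRoot.of f b) - AdjoinRoot.of f' (c b) with hqb
    have h1 : qa * qb = 0 := mul_eq_zero_of_map π hf'mon hπ qa qb (hq a) (hq b)
    have h2 : ψ (AdjoinRoot.of f (a * b)) = AdjoinRoot.of f' (c a * c b) +
        (AdjoinRoot.of f' (c a) * qb + AdjoinRoot.of f' (c b) * qa) := by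
      have e1 : ψ (AdjoinRoot.of f a) = AdjoinRoot.of f' (c a) + qa := by rw [hqa]; ring
      have e2 : ψ (AdjoinRoot.of f b) = AdjoinRoot.of f' (c b) + qb := by rw [hqb]; ring
      rw [map_mul, map_mul, e1, e2, map_mul]
      linear_combination h1
    change lam hf'mon (ψ (AdjoinRoot.of f (a * b))) = _
    rw [h2, lam_add, lam_add, lam_of hf'mon hf'0, lam_of_mul, lam_of_mul]
    have h3 : lam hf'mon qa = 0 := hlq a
    have h4 : lam hf'mon qb = 0 := hlq b
    rw [h3, h4, mul_zero, mul_zero, add_zero, add_zero]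
  have hadd : ∀ a b, c (a + b) = c a + c b := by
    intro a b
    change lam hf'mon (ψ (AdjoinRoot.of f (a + b))) = _
    rw [map_add, map_add, lam_add]
  have hcomm : ∀ r : k, c (algebraMap k A r) = algebraMap k C r := by
    intro r
    have h1 : AdjoinRoot.of f (algebraMap k A r) = algebraMap k (AdjoinRoot f) r := by
      rw [IsScalarTower.algebraMap_apply k A (AdjoinRoot f)]; rfl
    change lam hf'mon (ψ (AdjoinRoot.of f (algebraMap k A r))) = _
    rw [h1, ψ.commutes, IsScalarTower.algebraMap_apply k C (AdjoinRoot f')]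
    exact lam_of hf'mon hf'0 _
  let ρ : A →ₐ[k] C :=
    { toFun := c
      map_one' := by
        have := hcomm 1
        rwa [map_one, map_one] at this
      map_mul' := hmul
      map_zero' := by
        have := hcomm 0
        rwa [map_zero, map_zero] at this
      map_add' := hadd
      commutes' := hcomm }
  exact ⟨ρ, AlgHom.ext fun a => hc a⟩

end desc

end Pool.Agent.H920R2
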