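import Pool.Agent.H920R2.Up2
import Pool.Agent.H920R2.Desc

set_option autoImplicit false

open Polynomial

universe u v

namespace Pool.Agent.H920R2

section mono

variable {k : Type u} {L : Type v} [Field k] [Field L] [Algebra k L] (τ : L ≃ₐ[k] L) (n : ℕ)
  (hn : 0 < n) (hτ : ∀ x, τ^[n] x = x) (R : Subalgebra k L) (hstab : ∀ x ∈ R, τ x ∈ R)
  (b : L) (hb : b ∈ R) (h1 : ∀ c ∈ R, (τ c - c) / (τ b - b) ∈ R)
  (h2 : ∀ j, 0 < j → j < n → τ^[j] b ≠ b ∧ (τ b - b) / (τ^[j] b - b) ∈ R)

lemma eval_map_tau (N : L[X]) (x : L) :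
    (N.map (τ : L →+* L)).eval (τ x) = τ (N.eval x) := by
  rw [Polynomial.eval_map]
  exact Polynomial.eval₂_at_apply (τ : L →+* L) x

lemma eval_map_iter (N : L[X]) (hN : N.map (τ : L →+* L) = N) (x : L) (i : ℕ) :
    N.eval (τ^[i] x) = τ^[i] (N.eval x) := by
  induction i with
  | zero => rfl
  | succ i ih =>
    rw [Function.iterate_succ_apply', Function.iterate_succ_apply', ← ih, ← eval_map_tau, hN]

include h1 h2 hb in
lemma exists_interp_aux (hn' : 1 < n) (c : L) (hc : c ∈ R) (j : ℕ) (hj : j < n) :
    ∃ N : L[X], (∀ i, N.coeff i ∈ R) ∧ N.natDegree ≤ j ∧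
      ∀ l ≤ j, N.eval (τ^[l] b) = τ^[l] c := by
  induction j with
  | zero =>
    refine ⟨C c, ?_, by simp, ?_⟩
    · intro i
      rw [coeff_C]
      split_ifs
      · exact hc
      · exact R.zero_mem
    · intro l hl
      have : l = 0 := by omega
      subst this
      simp
  | succ j ih =>
    obtain ⟨N, hN1, hN2, hN3⟩ := ih (by omega)
    obtain ⟨hne, hu⟩ := h2 (j + 1) (by omega) hj
    have hne' : τ^[j + 1] b - b ≠ 0 := sub_ne_zero.2 hne
    have hne1 : τ b - b ≠ 0 := by
      have := (h2 1 (by omega) hn').1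
      exact sub_ne_zero.2 this
    let M : L[X] := (N.map (τ : L →+* L) - N) * C ((τ^[j + 1] b - b)⁻¹)
    have hM : ∀ i, M.coeff i ∈ R := by
      intro i
      have e : M.coeff i = (τ (N.coeff i) - N.coeff i) / (τ b - b) *
          ((τ b - b) / (τ^[j + 1] b - b)) := by
        change ((N.map (τ : L →+* L) - N) * C ((τ^[j + 1] b - b)⁻¹)).coeff i = _
        rw [coeff_mul_C, coeff_sub, coeff_map]
        change (τ (N.coeff i) - N.coeff i) * _ = _
        field_simp
      rw [e]
      exact R.mul_mem (h1 _ (hN1 i)) hu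
    have hMd : M.natDegree ≤ j := by
      refine (natDegree_mul_C_le _ _).trans ((natDegree_sub_le _ _).trans ?_)
      exact max_le ((natDegree_map_le).trans hN2) hN2
    refine ⟨N + (X - C b) * M, ?_, ?_, ?_⟩
    · intro i
      rw [coeff_add, sub_mul, coeff_sub, coeff_C_mul]
      refine R.add_mem (hN1 i) (R.sub_mem ?_ (R.mul_mem hb (hM i)))
      cases i with
      | zero => rw [coeff_X_mul_zero]; exact R.zero_mem
      | succ i => rw [coeff_X_mul]; exact hM i
    · refine (natDegree_add_le _ _).trans (max_le (by omega) ?_)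
      refine (natDegree_mul_le).trans ?_
      have := natDegree_X_sub_C_le b
      omega
    · intro l hl
      cases l with
      | zero =>
        have h3 := hN3 0 (by omega)
        simp only [Function.iterate_zero, id_eq] at h3 ⊢
        simp [h3]
      | succ l =>
        have e1 : (N.map (τ : L →+* L)).eval (τ^[l + 1] b) = τ^[l + 1] c := by
          rw [Function.iterate_succ_apply', Function.iterate_succ_apply', eval_map_tau,
            hN3 l (by omega)]
        rw [eval_add, eval_mul, eval_sub, eval_X, eval_C]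
        change _ + _ * eval _ ((N.map (τ : L →+* L) - N) * C ((τ^[j + 1] b - b)⁻¹)) = _
        rw [eval_mul, eval_sub, eval_C, e1]
        by_cases hlj : l = j
        · subst hlj
          field_simp
          ring
        · rw [hN3 (l + 1) (by omega)]
          ring

include h1 h2 hb hn hτ in
lemma exists_interp (c : L) (hc : c ∈ R) :
    ∃ N : L[X], (∀ i, N.coeff i ∈ R ⊓ fixedAlg τ) ∧ N.natDegree < n ∧ N.eval b = c := by
  by_cases hn1 : n = 1
  · subst hn1
    refine ⟨C c, ?_, by simp, by simp⟩
    intro i
    rw [coeff_C]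
    split_ifs
    · exact ⟨hc, mem_fixedAlg.2 (hτ c)⟩
    · exact Subalgebra.zero_mem _
  obtain ⟨N, hN1, hN2, hN3⟩ := exists_interp_aux τ n R b hb h1 h2 (by omega) c hc (n - 1)
    (by omega)
  have hinj : Set.InjOn (fun i => τ^[i] b) (Finset.range n : Set ℕ) := by
    have key : ∀ i j, i < j → j < n → τ^[i] b ≠ τ^[j] b := by
      intro i j hij hj h
      obtain ⟨e, rfl⟩ := Nat.exists_eq_add_of_lt hij
      have h3 : τ^[i] b = τ^[i] (τ^[e + 1] b) := by
        rw [← Function.iterate_add_apply]; exact h
      have h4 : b = τ^[e + 1] b := (τ.injective.iterate i) h3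
      exact (h2 (e + 1) (by omega) (by omega)).1 h4.symm
    intro i hi j hj h
    have hi' : i < n := Finset.mem_range.1 hi
    have hj' : j < n := Finset.mem_range.1 hj
    rcases lt_trichotomy i j with h3 | h3 | h3
    · exact absurd h (key i j h3 hj')
    · exact h3
    · exact absurd h.symm (key j i h3 hi')
  have hfix : N.map (τ : L →+* L) = N := by
    refine Polynomial.eq_of_degrees_lt_of_eval_index_eq (Finset.range n) hinj ?_ ?_ ?_
    · rw [Finset.card_range]
      refine lt_of_le_of_lt (degree_map_le) ?_
      refine lt_of_le_of_lt degree_le_natDegree ?_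
      exact_mod_cast (by omega : N.natDegree < n)
    · rw [Finset.card_range]
      refine lt_of_le_of_lt degree_le_natDegree ?_
      exact_mod_cast (by omega : N.natDegree < n)
    · intro i hi
      have hi' : i < n := Finset.mem_range.1 hi
      rw [hN3 i (by omega)]
      cases i with
      | zero =>
        have h3 : b = τ (τ^[n - 1] b) := by
          rw [← Function.iterate_succ_apply' τ (n - 1) b]
          have : n - 1 + 1 = n := by omega
          change b = τ^[n - 1 + 1] b
          rw [this, hτ]
        have h4 : c = τ (τ^[n - 1] c) := by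
          rw [← Function.iterate_succ_apply' τ (n - 1) c]
          have : n - 1 + 1 = n := by omega
          change c = τ^[n - 1 + 1] c
          rw [this, hτ]
        change eval b (N.map (τ : L →+* L)) = c
        conv_lhs => rw [h3]
        rw [eval_map_tau, hN3 (n - 1) le_rfl, ← h4]
      | succ i =>
        rw [Function.iterate_succ_apply', Function.iterate_succ_apply', eval_map_tau,
          hN3 i (by omega)]
  refine ⟨N, fun i => ⟨hN1 i, ?_⟩, by omega, hN3 0 (by omega)⟩
  have := congrArg (fun q => q.coeff i) hfix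
  rw [coeff_map] at this
  exact mem_fixedAlg.2 this

include hstab hb h1 h2 hn hτ in
/-- Smoothness of the ring of invariants of a cyclic group acting on a smooth algebra, when the
ideal of the fixed point scheme is generated by one element `τ b - b`. -/
theorem smooth_fixed (hR : Algebra.Smooth k R) : Algebra.Smooth k ↥(R ⊓ fixedAlg τ) := by
  classical
  set C0 : Subalgebra k L := R ⊓ fixedAlg τ with hC0
  let P : L[X] := ∏ i ∈ Finset.range n, (X - C (τ^[i] b))
  have hPmon : P.Monic := monic_prod_of_monic _ _ fun i _ => monic_X_sub_C _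
  have hitR : ∀ i, τ^[i] b ∈ R := by
    intro i
    induction i with
    | zero => exact hb
    | succ i ih => rw [Function.iterate_succ_apply']; exact hstab _ ih
  have hPfix : P.map (τ : L →+* L) = P := by
    have h3 : P.map (τ : L →+* L) =
        ∏ i ∈ Finset.range n, (X - C (τ^[i + 1] b)) := by
      simp only [P, Polynomial.map_prod, Polynomial.map_sub, Polynomial.map_X, Polynomial.map_C]
      refine Finset.prod_congr rfl fun i _ => ?_
      rw [Function.iterate_succ_apply']
      rfl
    obtain ⟨m, rfl⟩ : ∃ m, n = m + 1 := ⟨n - 1, by omega⟩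
    rw [h3, Finset.prod_range_succ, hτ]
    change _ = ∏ i ∈ Finset.range (m + 1), (X - C (τ^[i] b))
    rw [Finset.prod_range_succ']
    rfl
  have hPR : ∀ i, P.coeff i ∈ R := by
    have : P ∈ Polynomial.lifts (algebraMap R L) := by
      refine Subsemiring.prod_mem _ fun i _ => ?_
      refine (Polynomial.lifts_iff_coeff_lifts _).2 fun j => ?_
      refine ⟨(X - C (⟨τ^[i] b, hitR i⟩ : R)).coeff j, ?_⟩
      rw [← coeff_map]
      simp
    intro i
    obtain ⟨y, hy⟩ := (Polynomial.lifts_iff_coeff_lifts _).1 this i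
    rw [← hy]
    exact y.2
  have hPC : ∀ i, P.coeff i ∈ C0 := by
    intro i
    refine ⟨hPR i, ?_⟩
    have := congrArg (fun q => q.coeff i) hPfix
    rw [coeff_map] at this
    exact mem_fixedAlg.2 this
  have hPdeg : P.natDegree = n := by
    rw [natDegree_prod_of_monic _ _ fun i _ => monic_X_sub_C _]
    simp
  let ic : C0 →+* L := C0.val.toRingHom
  have hicinj : Function.Injective ic := Subtype.val_injective
  have lift : ∀ q : L[X], (∀ i, q.coeff i ∈ C0) → ∃ q' : C0[X], q'.map ic = q := by
    intro q hq
    have : q ∈ Polynomial.lifts ic :=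
      (Polynomial.lifts_iff_coeff_lifts _).2 fun i => ⟨⟨_, hq i⟩, rfl⟩
    exact this
  obtain ⟨f, hf⟩ := lift P hPC
  have hfmon : f.Monic := by
    have : (f.map ic).Monic := by rw [hf]; exact hPmon
    exact Polynomial.monic_of_injective hicinj this
  have hfdeg : f.natDegree = n := by
    rw [← hPdeg, ← hf, natDegree_map_eq_of_injective hicinj]
  have hroot : eval₂ (C0.val : C0 →ₐ[k] L) b f = 0 := by
    have h3 : eval₂ (C0.val : C0 →ₐ[k] L) b f = eval b (f.map ic) := by
      rw [eval_map]; rfl
    rw [h3, hf, eval_prod]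
    exact Finset.prod_eq_zero (Finset.mem_range.2 hn) (by simp)
  let Φ : AdjoinRoot f →ₐ[k] L := AdjoinRoot.liftAlgHom f C0.val b hroot
  have hΦmk : ∀ q : C0[X], Φ (AdjoinRoot.mk f q) = eval b (q.map ic) := by
    intro q
    rw [eval_map]
    exact AdjoinRoot.liftAlgHom_mk _ _ _ _ _
  have hfixC : ∀ q : C0[X], (q.map ic).map (τ : L →+* L) = q.map ic := by
    intro q
    ext i
    rw [coeff_map, coeff_map]
    exact mem_fixedAlg.1 (q.coeff i).2.2
  have hΦinj : Function.Injective Φ := by
    rw [injective_iff_map_eq_zero]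
    intro x hx
    obtain ⟨q, rfl⟩ := AdjoinRoot.mk_surjective x
    have e1 : AdjoinRoot.mk f q = AdjoinRoot.mk f (q %ₘ f) := by
      rw [AdjoinRoot.mk_eq_mk, modByMonic_eq_sub_mul_div]
      exact ⟨q /ₘ f, by ring⟩
    rw [e1, hΦmk] at hx
    have hzero : (q %ₘ f).map ic = 0 := by
      have hinj : Set.InjOn (fun i => τ^[i] b) (Finset.range n : Set ℕ) := by
        have key : ∀ i j, i < j → j < n → τ^[i] b ≠ τ^[j] b := by
          intro i j hij hj h
          obtain ⟨e, rfl⟩ := Nat.exists_eq_add_of_lt hij
          have h3 : τ^[i] b = τ^[i] (τ^[e + 1] b) := by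
            rw [← Function.iterate_add_apply]; exact h
          have h4 : b = τ^[e + 1] b := (τ.injective.iterate i) h3
          exact (h2 (e + 1) (by omega) (by omega)).1 h4.symm
        intro i hi j hj h
        have hi' : i < n := Finset.mem_range.1 hi
        have hj' : j < n := Finset.mem_range.1 hj
        rcases lt_trichotomy i j with h3 | h3 | h3
        · exact absurd h (key i j h3 hj')
        · exact h3
        · exact absurd h.symm (key j i h3 hi')
      refine Polynomial.eq_zero_of_degree_lt_of_eval_index_eq_zero (Finset.range n) hinj ?_ ?_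
      · rw [Finset.card_range]
        refine lt_of_le_of_lt degree_map_le ?_
        have := degree_modByMonic_lt q hfmon
        rwa [degree_eq_natDegree hfmon.ne_zero, hfdeg] at this
      · intro i _
        rw [eval_map_iter τ _ (hfixC _), hx]
        exact iterate_map_zero (τ : L →+* L) i
    have hzero' : q %ₘ f = 0 := by
      apply Polynomial.map_injective ic hicinj
      rw [hzero, Polynomial.map_zero]
    rw [e1, hzero', map_zero]
  have hrange : Φ.range = R := by
    apply le_antisymm
    · rintro _ ⟨x, rfl⟩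
      obtain ⟨q, rfl⟩ := AdjoinRoot.mk_surjective x
      change Φ _ ∈ R
      rw [hΦmk, eval_eq_sum_range]
      refine R.sum_mem fun i _ => R.mul_mem ?_ (R.pow_mem hb i)
      rw [coeff_map]
      exact (q.coeff i).2.1
    · intro c hc
      obtain ⟨N, hN1, -, hN3⟩ := exists_interp τ n hn hτ R b hb h1 h2 c hc
      obtain ⟨q, hq⟩ := lift N hN1
      refine ⟨AdjoinRoot.mk f q, ?_⟩
      change Φ _ = c
      rw [hΦmk, hq, hN3]
  have e : AdjoinRoot f ≃ₐ[k] Φ.range := AlgEquiv.ofInjective Φ hΦinj
  rw [hrange] at e
  have hsm : Algebra.Smooth k (AdjoinRoot f) := Algebra.Smooth.of_equiv e.symm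
  have hfs : Algebra.FormallySmooth k (AdjoinRoot f) := inferInstance
  have hfs' : Algebra.FormallySmooth k C0 :=
    formallySmooth_of_adjoinRoot hfmon (by omega)
  have hft : Algebra.FiniteType k C0 := by
    have hfin : Module.Finite C0 (AdjoinRoot f) := Module.Finite.of_basis
      (AdjoinRoot.powerBasis' hfmon).basis
    have hft1 : Algebra.FiniteType k (AdjoinRoot f) := inferInstance
    refine ⟨?_⟩
    refine fg_of_fg_of_fg k C0 (AdjoinRoot f) hft1.1 hfin.1 ?_
    intro x y hxy
    have h3 := congrArg Φ hxy
    rw [AdjoinRoot.algebraMap_eq] at h3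
    have h4 : ∀ x : C0, Φ (AdjoinRoot.of f x) = x := fun x =>
      AdjoinRoot.liftAlgHom_of f C0.val b hroot x
    rw [h4, h4] at h3
    exact Subtype.ext h3
  have hfp : Algebra.FinitePresentation k C0 := Algebra.FinitePresentation.of_finiteType.1 hft
  exact ⟨hfs', hfp⟩

end mono

end Pool.Agent.H920R2
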