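import Pool.Agent.H920R2.Sharp4
import Pool.Agent.H920R2.Mono

set_option autoImplicit false

universe u v

namespace Pool.Agent.H920R2

/-- The ring of Laurent polynomials in one variable. -/
abbrev LP (K : Type u) [Field K] : Type u := AddMonoidAlgebra K ℤ

/-- The homogeneous element of degree `d` with coefficient `a`. -/
noncomputable def hm {K : Type u} [Field K] (d : ℤ) (a : K) : LP K := AddMonoidAlgebra.single d a

section basic

variable {k K : Type u} [Field k] [Field K] [Algebra k K]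

lemma coeff_hm (d e : ℤ) (a : K) : (hm d a).coeff e = if d = e then a else 0 := by
  classical
  unfold hm
  rw [AddMonoidAlgebra.coeff_single, Finsupp.single_apply]

lemma coeff_hm_same (d : ℤ) (a : K) : (hm d a).coeff d = a := by
  rw [coeff_hm, if_pos rfl]

lemma hm_mul (d e : ℤ) (a b : K) : hm d a * hm e b = hm (d + e) (a * b) :=
  AddMonoidAlgebra.single_mul_single _ _ _ _

lemma hm_add (d : ℤ) (a b : K) : hm d (a + b) = hm d a + hm d b := by
  unfold hm; exact AddMonoidAlgebra.single_add _ _ _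

lemma hm_zero (d : ℤ) : hm d (0 : K) = 0 := by
  unfold hm; exact AddMonoidAlgebra.single_zero _

lemma hm_neg (d : ℤ) (a : K) : hm d (-a) = -hm d a := by
  rw [eq_neg_iff_add_eq_zero, ← hm_add, neg_add_cancel, hm_zero]

lemma hm_sub (d : ℤ) (a b : K) : hm d (a - b) = hm d a - hm d b := by
  rw [sub_eq_add_neg, hm_add, hm_neg, sub_eq_add_neg]

lemma hm_one : hm 0 (1 : K) = 1 := rfl

lemma hm_pow (d : ℤ) (a : K) (n : ℕ) : hm d a ^ n = hm (n * d) (a ^ n) := by
  unfold hm
  rw [AddMonoidAlgebra.single_pow, nsmul_eq_mul]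

lemma hm_inj {d : ℤ} {a b : K} (h : hm d a = hm d b) : a = b := by
  have := congrArg (fun f => f.coeff d) h
  simpa [coeff_hm_same] using this

lemma hm_ne_zero {d : ℤ} {a : K} (ha : a ≠ 0) : hm d a ≠ 0 := by
  intro h
  rw [← hm_zero d] at h
  exact ha (hm_inj h)

lemma algebraMap_LP (r : k) : algebraMap k (LP K) r = hm 0 (algebraMap k K r) := rfl

lemma smul_hm (r : k) (d : ℤ) (a : K) : r • hm d a = hm d (r • a) := by
  rw [Algebra.smul_def, algebraMap_LP, hm_mul, zero_add, Algebra.smul_def]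

lemma isUnit_hm {d : ℤ} {a : K} (ha : a ≠ 0) : IsUnit (hm d a) := by
  refine IsUnit.of_mul_eq_one (hm (-d) a⁻¹) ?_
  rw [hm_mul, add_neg_cancel, mul_inv_cancel₀ ha, hm_one]

instance isDomain_LP : IsDomain (LP K) := NoZeroDivisors.to_isDomain _

lemma eq_sum_hm (f : LP K) : f = ∑ d ∈ f.coeff.support, hm d (f.coeff d) := by
  conv_lhs => rw [← AddMonoidAlgebra.sum_coeff_single f]
  rfl

lemma coeff_sum_hm (s : Finset ℤ) (g : ℤ → K) (d : ℤ) :
    (∑ e ∈ s, hm e (g e)).coeff d = if d ∈ s then g d else 0 := by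
  classical
  rw [AddMonoidAlgebra.coeff_sum, Finsupp.finsetSum_apply]
  simp_rw [coeff_hm]
  rw [Finset.sum_ite_eq']

lemma coeff_hm_mul (d : ℤ) (a : K) (f : LP K) (e : ℤ) :
    (hm d a * f).coeff e = a * f.coeff (e - d) := by
  unfold hm
  exact AddMonoidAlgebra.coeff_single_mul_eq_mul_coeff _ (by intro m' _; omega)

/-- A subalgebra is graded if it contains the homogeneous components of its elements. -/
def Gr (C : Subalgebra k (LP K)) : Prop := ∀ f ∈ C, ∀ d, hm d (f.coeff d) ∈ C

lemma mem_of_comp (C : Subalgebra k (LP K)) {f : LP K} (h : ∀ d, hm d (f.coeff d) ∈ C) :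
    f ∈ C := by
  rw [eq_sum_hm f]
  exact C.sum_mem fun d _ => h d

lemma gr_of_span (C : Subalgebra k (LP K))
    (h : ∀ f ∈ C, f ∈ Submodule.span k {g | g ∈ C ∧ ∃ d a, g = hm d a}) : Gr C := by
  intro f hf d
  have hf' := h f hf
  clear hf
  induction hf' using Submodule.span_induction with
  | mem g hg =>
    obtain ⟨hg, e, a, rfl⟩ := hg
    rw [coeff_hm]
    split_ifs with h1
    · rw [← h1]; exact hg
    · rw [hm_zero]; exact C.zero_mem
  | zero =>
    rw [AddMonoidAlgebra.coeff_zero, Finsupp.zero_apply, hm_zero]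
    exact C.zero_mem
  | add x y _ _ hx hy =>
    rw [AddMonoidAlgebra.coeff_add, Finsupp.add_apply, hm_add]
    exact C.add_mem hx hy
  | smul r x _ hx =>
    rw [AddMonoidAlgebra.coeff_smul, Finsupp.smul_apply, ← smul_hm]
    exact C.smul_mem hx r

lemma gr_adjoin (S : Set (LP K)) (hS : ∀ s ∈ S, ∃ d a, s = hm d a) :
    Gr (Algebra.adjoin k S) := by
  apply gr_of_span
  intro f hf
  set C := Algebra.adjoin k S with hC
  set M := Submodule.span k {g | g ∈ C ∧ ∃ d a, g = hm d a} with hM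
  have hmul : ∀ x ∈ M, ∀ y ∈ M, x * y ∈ M := by
    intro x hx y hy
    induction hx using Submodule.span_induction with
    | mem g hg =>
      obtain ⟨hg, e, a, rfl⟩ := hg
      induction hy using Submodule.span_induction with
      | mem g' hg' =>
        obtain ⟨hg', e', a', rfl⟩ := hg'
        exact Submodule.subset_span ⟨C.mul_mem hg hg', _, _, hm_mul _ _ _ _⟩
      | zero => rw [mul_zero]; exact M.zero_mem
      | add x y _ _ hx hy => rw [mul_add]; exact M.add_mem hx hy
      | smul r x _ hx => rw [mul_smul_comm]; exact M.smul_mem r hx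
    | zero => rw [zero_mul]; exact M.zero_mem
    | add x y _ _ hx hy => rw [add_mul]; exact M.add_mem hx hy
    | smul r x _ hx => rw [smul_mul_assoc]; exact M.smul_mem r hx
  induction hf using Algebra.adjoin_induction with
  | mem x hx => exact Submodule.subset_span ⟨Algebra.subset_adjoin hx, hS x hx⟩
  | algebraMap r =>
    exact Submodule.subset_span ⟨C.algebraMap_mem r, 0, _, algebraMap_LP r⟩
  | add x y _ _ hx hy => exact M.add_mem hx hy
  | mul x y _ _ hx hy => exact hmul x hx y hy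

/-- The homogeneous elements of degree zero. -/
noncomputable def zer (k K : Type u) [Field k] [Field K] [Algebra k K] : K →ₐ[k] LP K where
  toFun := hm 0
  map_one' := hm_one
  map_mul' x y := by rw [hm_mul, add_zero]
  map_zero' := hm_zero 0
  map_add' := hm_add 0
  commutes' r := (algebraMap_LP r).symm

/-- The part of degree zero. -/
noncomputable def d0 (C : Subalgebra k (LP K)) : Subalgebra k K := C.comap (zer k K)

lemma mem_d0 {C : Subalgebra k (LP K)} {x : K} : x ∈ d0 C ↔ hm 0 x ∈ C := Iff.rfl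

/-- The localization of a subalgebra. -/
def loc (C : Subalgebra k (LP K)) (x : LP K) (hx : x ∈ C) : Subalgebra k (LP K) where
  carrier := {f | ∃ n : ℕ, x ^ n * f ∈ C}
  mul_mem' := by
    rintro f g ⟨n, hn⟩ ⟨m, hm⟩
    refine ⟨n + m, ?_⟩
    have : x ^ (n + m) * (f * g) = (x ^ n * f) * (x ^ m * g) := by ring
    rw [this]
    exact C.mul_mem hn hm
  add_mem' := by
    rintro f g ⟨n, hn⟩ ⟨m, hm⟩
    refine ⟨n + m, ?_⟩
    have : x ^ (n + m) * (f + g) = x ^ m * (x ^ n * f) + x ^ n * (x ^ m * g) := by ring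
    rw [this]
    exact C.add_mem (C.mul_mem (C.pow_mem hx _) hn) (C.mul_mem (C.pow_mem hx _) hm)
  algebraMap_mem' r := ⟨0, by rw [pow_zero, one_mul]; exact C.algebraMap_mem r⟩

lemma mem_loc {C : Subalgebra k (LP K)} {x : LP K} {hx : x ∈ C} {f : LP K} :
    f ∈ loc C x hx ↔ ∃ n : ℕ, x ^ n * f ∈ C := Iff.rfl

lemma le_loc (C : Subalgebra k (LP K)) (x : LP K) (hx : x ∈ C) : C ≤ loc C x hx :=
  fun f hf => ⟨0, by rw [pow_zero, one_mul]; exact hf⟩

lemma inv_mem_loc (C : Subalgebra k (LP K)) (x y : LP K) (hx : x ∈ C) (h : x * y = 1) :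
    y ∈ loc C x hx := ⟨1, by rw [pow_one, h]; exact C.one_mem⟩

lemma gr_loc {C : Subalgebra k (LP K)} (hC : Gr C) {d : ℤ} {a : K} (ha : a ≠ 0)
    (hx : hm d a ∈ C) : Gr (loc C (hm d a) hx) := by
  rintro f ⟨n, hn⟩ e
  refine ⟨n, ?_⟩
  have h1 := hC _ hn (n * d + e)
  have h2 : hm d a ^ n * hm e (f.coeff e) = hm (n * d + e) ((hm d a ^ n * f).coeff (n * d + e)) := by
    rw [hm_pow, hm_mul, coeff_hm_mul, add_sub_cancel_left]
  rw [h2]
  exact h1

lemma smooth_loc {C : Subalgebra k (LP K)} (hC : Algebra.Smooth k C) {x : LP K} (hx : x ∈ C)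
    (hu : IsUnit x) : Algebra.Smooth k (loc C x hx) := by
  obtain ⟨y, hy⟩ := hu.exists_right_inv
  have hle := le_loc C x hx
  let _ : Algebra C (loc C x hx) := (Subalgebra.inclusion hle).toRingHom.toAlgebra
  have _ : IsScalarTower k C (loc C x hx) := IsScalarTower.of_algebraMap_eq fun r => rfl
  have hmap : ∀ s : C, ((algebraMap C (loc C x hx) s : loc C x hx) : LP K) = s := fun s => rfl
  let x' : C := ⟨x, hx⟩
  have hloc : IsLocalization.Away x' (loc C x hx) := by
    refine IsLocalization.Away.mk x' ?_ ?_ ?_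
    · refine IsUnit.of_mul_eq_one ⟨y, inv_mem_loc C x y hx hy⟩ ?_
      apply Subtype.ext
      exact hy
    · rintro ⟨f, n, hn⟩
      refine ⟨n, ⟨x ^ n * f, hn⟩, ?_⟩
      apply Subtype.ext
      change f * (algebraMap C (loc C x hx) x' : LP K) ^ n = x ^ n * f
      rw [hmap, mul_comm]
    · intro a b hab
      refine ⟨0, ?_⟩
      have h3 : ((algebraMap C (loc C x hx) a : loc C x hx) : LP K) =
        ((algebraMap C (loc C x hx) b : loc C x hx) : LP K) := congrArg Subtype.val hab
      rw [hmap, hmap] at h3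
      rw [Subtype.ext h3]
  have h2 : Algebra.Smooth C (loc C x hx) := Algebra.Smooth.of_isLocalization_Away x'
  exact Algebra.Smooth.comp k C (loc C x hx)

/-- The subalgebra generated by the homogeneous elements of degree less than `ρ`. -/
noncomputable def low (C : Subalgebra k (LP K)) (ρ : ℕ) : Subalgebra k (LP K) :=
  Algebra.adjoin k {f | f ∈ C ∧ ∃ (d : ℤ) (a : K), d < ρ ∧ f = hm d a}

lemma low_le (C : Subalgebra k (LP K)) (ρ : ℕ) : low C ρ ≤ C := by
  unfold low
  rw [Algebra.adjoin_le_iff]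
  exact fun f hf => hf.1

lemma mem_low {C : Subalgebra k (LP K)} {ρ : ℕ} {d : ℤ} {a : K} (h : hm d a ∈ C) (hd : d < ρ) :
    hm d a ∈ low C ρ := Algebra.subset_adjoin ⟨h, d, a, hd, rfl⟩

lemma gr_low (C : Subalgebra k (LP K)) (ρ : ℕ) : Gr (low C ρ) :=
  gr_adjoin _ fun _ hs => ⟨_, _, hs.2.choose_spec.choose_spec.2⟩

end basic

section retract

/-- A retract of a formally smooth algebra is formally smooth. -/
lemma formallySmooth_retract {k A C : Type u} [CommRing k] [CommRing A] [CommRing C]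
    [Algebra k A] [Algebra k C] [Algebra.FormallySmooth k C] (i : A →ₐ[k] C) (r : C →ₐ[k] A)
    (hri : ∀ a, r (i a) = a) : Algebra.FormallySmooth k A := by
  apply Algebra.FormallySmooth.of_comp_surjective
  intro D _ _ I hI φ
  obtain ⟨ψ, hψ⟩ := Algebra.FormallySmooth.comp_surjective k C I hI (φ.comp r)
  refine ⟨ψ.comp i, ?_⟩
  ext a
  have h := congrArg (fun g => g (i a)) hψ
  change (Ideal.Quotient.mkₐ k I) (ψ (i a)) = φ a
  have h2 : (Ideal.Quotient.mkₐ k I) (ψ (i a)) = φ (r (i a)) := h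
  rw [h2, hri]

variable {k K : Type u} [Field k] [Field K] [Algebra k K]

/-- Evaluation of the variable at a unit. -/
noncomputable def ev1 (k : Type u) {K : Type u} [Field k] [Field K] [Algebra k K] (u : Kˣ) :
    LP K →ₐ[k] K :=
  (AddMonoidAlgebra.lift K K ℤ ((Units.coeHom K).comp (zpowersHom Kˣ u))).restrictScalars k

lemma ev1_hm (u : Kˣ) (d : ℤ) (a : K) : ev1 k u (hm d a) = a * (u : K) ^ d := by
  unfold ev1 hm
  rw [AlgHom.restrictScalars_apply, AddMonoidAlgebra.lift_single, smul_eq_mul]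
  simp

lemma smooth_d0 {C : Subalgebra k (LP K)} (hC : Algebra.Smooth k C) (hgr : Gr C) {u : K}
    (hu0 : u ≠ 0) (hu : hm (-1) u⁻¹ ∈ C) (hu' : hm 1 u ∈ C) : Algebra.Smooth k (d0 C) := by
  let w : Kˣ := (Units.mk0 u hu0)⁻¹
  have hev : ∀ d a, ev1 k w (hm d a) = a * u ^ (-d) := by
    intro d a
    rw [ev1_hm]
    simp [w]
  have hmem : ∀ f ∈ C, ev1 k w f ∈ d0 C := by
    intro f hf
    rw [eq_sum_hm f, map_sum]
    refine Subalgebra.sum_mem _ fun d _ => ?_
    rw [hev, mem_d0]
    have h1 := hgr f hf d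
    rcases le_or_gt 0 d with h | h
    · obtain ⟨n, rfl⟩ := Int.eq_ofNat_of_zero_le h
      have h2 : hm 0 (f.coeff n * u ^ (-(n : ℤ))) = hm n (f.coeff n) * hm (-1) u⁻¹ ^ n := by
        rw [hm_pow, hm_mul]
        congr 1
        · ring
        · rw [zpow_neg, zpow_natCast, inv_pow]
      rw [h2]
      exact C.mul_mem h1 (C.pow_mem hu n)
    · obtain ⟨n, hn⟩ := Int.eq_ofNat_of_zero_le (a := -d) (by omega)
      have hd : d = -(n : ℤ) := by
        have : -d = (n : ℤ) := hn
        omega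
      subst hd
      have h2 : hm 0 (f.coeff (-(n : ℤ)) * u ^ (-(-(n : ℤ)))) =
          hm (-(n : ℤ)) (f.coeff (-(n : ℤ))) * hm 1 u ^ n := by
        rw [hm_pow, hm_mul]
        congr 1
        · ring
        · rw [neg_neg, zpow_natCast]
      rw [h2]
      exact C.mul_mem h1 (C.pow_mem hu' n)
  let r : C →ₐ[k] d0 C := ((ev1 k w).comp C.val).codRestrict (d0 C) fun f => hmem f.1 f.2
  let i : d0 C →ₐ[k] C := ((zer k K).comp (d0 C).val).codRestrict C fun x => x.2
  have hri : ∀ a, r (i a) = a := by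
    intro a
    apply Subtype.ext
    change ev1 k w (hm 0 (a : K)) = a
    rw [hev]
    simp
  have h1 : Algebra.FormallySmooth k (d0 C) := formallySmooth_retract i r hri
  have h2 : Algebra.FiniteType k (d0 C) :=
    Algebra.FiniteType.of_surjective r fun a => ⟨i a, hri a⟩
  have h3 : Algebra.FinitePresentation k (d0 C) := Algebra.FinitePresentation.of_finiteType.1 h2
  exact ⟨h1, h3⟩

end retract

end Pool.Agent.H920R2
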