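import Pool.Agent.H920R2.Sig9
import Pool.Agent.H920R2.Gr1

set_option autoImplicit false
set_option linter.unusedSectionVars false

open MvPolynomial TensorProduct

universe u v

namespace Pool.Agent.H920R2

section we

variable {k D L : Type u} [Field k] [CommRing D] [Algebra k D] [Field L] [Algebra k L]
  {ι : Type} [Finite ι] (gD : D →ₐ[k] L) (w : ι → ℕ) (x : ι → D)

/-- The weighted Rees algebra of a system of elements. -/
noncomputable def rwA : Subalgebra k (LP L) :=
  Algebra.adjoin k ({hm (-1) 1} ∪ (Set.range fun b : D => hm 0 (gD b)) ∪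
    Set.range fun i => hm (w i) (gD (x i)))

lemma rwA_s : hm (-1) 1 ∈ rwA gD w x := Algebra.subset_adjoin (Or.inl (Or.inl rfl))

lemma rwA_b (b : D) : hm 0 (gD b) ∈ rwA gD w x := Algebra.subset_adjoin (Or.inl (Or.inr ⟨b, rfl⟩))

lemma rwA_x (i : ι) : hm (w i) (gD (x i)) ∈ rwA gD w x := Algebra.subset_adjoin (Or.inr ⟨i, rfl⟩)

/-- The map of polynomial rings which defines the weighted Rees algebra of a polynomial ring. -/
noncomputable def phiW : MvPolynomial ι k →ₐ[k] MvPolynomial (Option ι) k :=
  aeval fun i => X none ^ w i * X (some i)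

variable {x}

/-- The weighted Rees algebra of an algebra with étale coordinates is smooth. -/
theorem smooth_rwA (hD : Function.Injective gD)
    (hx : (aeval x : MvPolynomial ι k →ₐ[k] D).toRingHom.Etale) :
    Algebra.Smooth k (rwA gD w x) := by
  classical
  let C := MvPolynomial ι k
  let P := MvPolynomial (Option ι) k
  let _ : Algebra C D := (aeval x : MvPolynomial ι k →ₐ[k] D).toRingHom.toAlgebra
  let _ : Algebra C P := (phiW (k := k) w).toRingHom.toAlgebra
  have hCD : ∀ c : C, algebraMap C D c = aeval x c := fun c => rfl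
  have hCP : ∀ c : C, algebraMap C P c = phiW w c := fun c => rfl
  have _ : IsScalarTower k C D := IsScalarTower.of_algebraMap_eq fun r => by
    rw [hCD, MvPolynomial.algebraMap_eq, aeval_C]
  have _ : IsScalarTower k C P := IsScalarTower.of_algebraMap_eq fun r => by
    rw [hCP, AlgHom.commutes]
  have het : Algebra.Etale C D := hx
  let T := P ⊗[C] D
  have hT : Algebra.Etale P T := inferInstance
  have hsmT : Algebra.Smooth P T := inferInstance
  have hP : Algebra.Smooth k P := by
    constructor
    · infer_instance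
    · infer_instance
  have _ : IsScalarTower k P T := inferInstance
  have hsm : Algebra.Smooth k T := Algebra.Smooth.comp k P T
  -- the map to the Laurent polynomials
  let a : P →ₐ[k] LP L := wmap (fun i => gD (x i)) w
  let b0 : D →ₐ[k] LP L := (zer k L).comp gD
  have hb0 : ∀ b, b0 b = hm 0 (gD b) := fun b => rfl
  have hab : ∀ c : C, a (algebraMap C P c) = b0 (algebraMap C D c) := by
    intro c
    rw [hCP, hCD]
    have h1 : a.comp (phiW (k := k) w) = b0.comp (aeval x) := by
      apply MvPolynomial.algHom_ext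
      intro i
      rw [AlgHom.comp_apply, AlgHom.comp_apply, aeval_X, hb0]
      unfold phiW
      rw [aeval_X, map_mul, map_pow]
      change (wmap (fun i => gD (x i)) w (X none)) ^ w i * wmap (fun i => gD (x i)) w (X (some i)) = _
      rw [wmap_none, wmap_some, hm_pow, hm_mul, one_pow, one_mul]
      congr 1
      ring
    exact congrArg (fun f : MvPolynomial ι k →ₐ[k] LP L => f c) h1
  let _ : Algebra C (LP L) := (a.comp (phiW (k := k) w)).toRingHom.toAlgebra
  have hCL : ∀ c : C, algebraMap C (LP L) c = a (algebraMap C P c) := fun c => rfl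
  let a' : P →ₐ[C] LP L := { a with commutes' := fun c => (hCL c).symm }
  have hb0C : ∀ c : C, b0 (algebraMap C D c) = algebraMap C (LP L) c := fun c => by
    rw [hCL, hab]
  let b' : D →ₐ[C] LP L := { b0 with commutes' := hb0C }
  let Ψ : T →ₐ[C] LP L := Algebra.TensorProduct.lift a' b' (fun _ _ => Commute.all _ _)
  have hΨ : ∀ p b, Ψ (p ⊗ₜ b) = a p * b0 b := fun p b => Algebra.TensorProduct.lift_tmul _ _ _ p b
  -- the map from polynomials
  let s : T := (X none : P) ⊗ₜ 1
  let θ : Polynomial D →+* T := Polynomial.eval₂RingHom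
    (Algebra.TensorProduct.includeRight : D →ₐ[C] T).toRingHom s
  have hθC : ∀ b, θ (Polynomial.C b) = 1 ⊗ₜ b := by
    intro b
    change Polynomial.eval₂ _ _ _ = _
    rw [Polynomial.eval₂_C]
    rfl
  have hθX : θ Polynomial.X = s := by
    change Polynomial.eval₂ _ _ _ = _
    rw [Polynomial.eval₂_X]
  have hgen : ∀ z : T, ∃ n, s ^ n * z ∈ θ.range := by
    have hs : s ∈ θ.range := ⟨_, hθX⟩
    have hadd : ∀ y z : T, (∃ n, s ^ n * y ∈ θ.range) → (∃ n, s ^ n * z ∈ θ.range) →
        ∃ n, s ^ n * (y + z) ∈ θ.range := by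
      rintro y z ⟨n, hn⟩ ⟨m, hm'⟩
      refine ⟨n + m, ?_⟩
      have h1 : s ^ (n + m) * (y + z) = s ^ m * (s ^ n * y) + s ^ n * (s ^ m * z) := by
        rw [pow_add]; ring
      rw [h1]
      exact θ.range.add_mem (θ.range.mul_mem (θ.range.pow_mem hs _) hn)
        (θ.range.mul_mem (θ.range.pow_mem hs _) hm')
    have hmul : ∀ y z : T, (∃ n, s ^ n * y ∈ θ.range) → (∃ n, s ^ n * z ∈ θ.range) →
        ∃ n, s ^ n * (y * z) ∈ θ.range := by
      rintro y z ⟨n, hn⟩ ⟨m, hm'⟩
      refine ⟨n + m, ?_⟩
      have h1 : s ^ (n + m) * (y * z) = (s ^ n * y) * (s ^ m * z) := by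
        rw [pow_add]; ring
      rw [h1]
      exact θ.range.mul_mem hn hm'
    have hD' : ∀ b : D, ∃ n, s ^ n * ((1 : P) ⊗ₜ[C] b) ∈ θ.range := by
      intro b
      refine ⟨0, ?_⟩
      rw [pow_zero, one_mul, ← hθC]
      exact ⟨_, rfl⟩
    have hPX : ∀ o : Option ι, ∃ n, s ^ n * ((X o : P) ⊗ₜ[C] (1 : D)) ∈ θ.range := by
      rintro (_ | i)
      · refine ⟨0, ?_⟩
        rw [pow_zero, one_mul]
        exact hs
      · refine ⟨w i, ?_⟩
        have h1 : s ^ w i * ((X (some i) : P) ⊗ₜ[C] (1 : D)) = (1 : P) ⊗ₜ[C] x i := by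
          change ((X none : P) ⊗ₜ[C] (1 : D)) ^ w i * _ = _
          rw [Algebra.TensorProduct.tmul_pow, one_pow, Algebra.TensorProduct.tmul_mul_tmul, one_mul]
          have h2 : (X none ^ w i * X (some i) : P) = algebraMap C P (X i) := by
            rw [hCP]; unfold phiW; rw [aeval_X]
          have h3 : x i = algebraMap C D (X i) := by rw [hCD, aeval_X]
          rw [h2, h3, Algebra.algebraMap_eq_smul_one, Algebra.algebraMap_eq_smul_one,
            TensorProduct.smul_tmul]
        rw [h1, ← hθC]
        exact ⟨_, rfl⟩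
    have hP' : ∀ q : P, ∃ n, s ^ n * ((q : P) ⊗ₜ[C] (1 : D)) ∈ θ.range := by
      intro q
      induction q using MvPolynomial.induction_on with
      | C r =>
        refine ⟨0, ?_⟩
        rw [pow_zero, one_mul]
        have h1 : ((MvPolynomial.C r : P) ⊗ₜ[C] (1 : D)) = (1 : P) ⊗ₜ[C] (algebraMap k D r) := by
          have h2 : (MvPolynomial.C r : P) = algebraMap C P (algebraMap k C r) := by
            rw [← IsScalarTower.algebraMap_apply]; rfl
          have h3 : algebraMap k D r = algebraMap C D (algebraMap k C r) := by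
            rw [← IsScalarTower.algebraMap_apply]
          rw [h2, h3, Algebra.algebraMap_eq_smul_one, Algebra.algebraMap_eq_smul_one (R := C) (A := D),
            TensorProduct.smul_tmul]
        rw [h1, ← hθC]
        exact ⟨_, rfl⟩
      | add p q hp hq =>
        rw [TensorProduct.add_tmul]
        exact hadd _ _ hp hq
      | mul_X p o hp =>
        have h1 : ((p * X o : P) ⊗ₜ[C] (1 : D)) = (p ⊗ₜ[C] (1 : D)) * ((X o : P) ⊗ₜ[C] (1 : D)) := by
          rw [Algebra.TensorProduct.tmul_mul_tmul, one_mul]
        rw [h1]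
        exact hmul _ _ hp (hPX o)
    intro z
    induction z using TensorProduct.induction_on with
    | zero => exact ⟨0, by rw [mul_zero]; exact θ.range.zero_mem⟩
    | tmul q b =>
      have h1 : (q ⊗ₜ[C] b : T) = (q ⊗ₜ[C] (1 : D)) * ((1 : P) ⊗ₜ[C] b) := by
        rw [Algebra.TensorProduct.tmul_mul_tmul, one_mul, mul_one]
      rw [h1]
      exact hmul _ _ (hP' q) (hD' b)
    | add y z hy hz => exact hadd _ _ hy hz
  -- injectivity
  have hΨθ : ∀ f : Polynomial D, ∀ n : ℕ, (Ψ (θ f)).coeff (-(n : ℤ)) = gD (f.coeff n) := by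
    intro f n
    induction f using Polynomial.induction_on' with
    | add p q hp hq =>
      rw [map_add, map_add, AddMonoidAlgebra.coeff_add, Finsupp.add_apply, hp, hq,
        Polynomial.coeff_add, map_add]
    | monomial m b =>
      have h1 : θ (Polynomial.monomial m b) = ((X none : P) ^ m) ⊗ₜ[C] b := by
        rw [← Polynomial.C_mul_X_pow_eq_monomial, map_mul, map_pow, hθC, hθX]
        change (1 : P) ⊗ₜ[C] b * ((X none : P) ⊗ₜ[C] (1 : D)) ^ m = _
        rw [Algebra.TensorProduct.tmul_pow, one_pow, Algebra.TensorProduct.tmul_mul_tmul, one_mul,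
          mul_one]
      rw [h1, hΨ, map_pow, hb0]
      change ((wmap (fun i => gD (x i)) w (X none)) ^ m * hm 0 (gD b)).coeff (-(n : ℤ)) = _
      rw [wmap_none, hm_pow, hm_mul, one_pow, one_mul, coeff_hm, Polynomial.coeff_monomial]
      by_cases h : m = n
      · subst h
        rw [if_pos rfl, if_pos (by ring)]
      · rw [if_neg h, if_neg, map_zero]
        intro h2
        apply h
        have : (m : ℤ) = n := by linarith
        exact_mod_cast this
  have hinj : Function.Injective Ψ := by
    rw [injective_iff_map_eq_zero]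
    intro z hz
    obtain ⟨n, f, hf⟩ := hgen z
    have h1 : f = 0 := by
      ext m
      rw [Polynomial.coeff_zero]
      apply hD
      rw [map_zero, ← hΨθ, hf, map_mul, hz, mul_zero]
      rfl
    rw [h1, map_zero] at hf
    have hflat : Module.Flat P T := Algebra.Smooth.flat P T
    have hX0 : (X none : P) ^ n ≠ 0 := pow_ne_zero _ (X_ne_zero _)
    have hreg := Module.Flat.isSMulRegular_of_nonZeroDivisors (R := P) (M := T)
      (mem_nonZeroDivisors_of_ne_zero hX0)
    apply hreg
    change (X none : P) ^ n • z = (X none : P) ^ n • (0 : T)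
    rw [smul_zero]
    refine (Algebra.smul_def ((X none : P) ^ n) z).trans ?_
    rw [map_pow]
    exact hf.symm
  -- the range
  let Ψ' : T →ₐ[k] LP L :=
    { toRingHom := Ψ.toRingHom
      commutes' := fun r => by
        change Ψ (algebraMap k T r) = _
        rw [IsScalarTower.algebraMap_apply k P T]
        change Ψ ((algebraMap k P r) ⊗ₜ 1) = _
        rw [hΨ, map_one, mul_one, AlgHom.commutes] }
  have hrange : Ψ'.range = rwA gD w x := by
    apply le_antisymm
    · rintro _ ⟨z, rfl⟩
      change Ψ z ∈ _
      induction z using TensorProduct.induction_on with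
      | zero => rw [map_zero]; exact Subalgebra.zero_mem _
      | tmul q b =>
        rw [hΨ]
        refine Subalgebra.mul_mem _ ?_ (rwA_b gD w x b)
        induction q using MvPolynomial.induction_on with
        | C r =>
          have : a (MvPolynomial.C r) = algebraMap k (LP L) r := a.commutes r
          rw [this]
          exact Subalgebra.algebraMap_mem _ r
        | add p q hp hq => rw [map_add]; exact Subalgebra.add_mem _ hp hq
        | mul_X p o hp =>
          rw [map_mul]
          refine Subalgebra.mul_mem _ hp ?_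
          rcases o with _ | i
          · change wmap (fun i => gD (x i)) w (X none) ∈ _
            rw [wmap_none]; exact rwA_s gD w x
          · change wmap (fun i => gD (x i)) w (X (some i)) ∈ _
            rw [wmap_some]; exact rwA_x gD w x i
      | add y z hy hz => rw [map_add]; exact Subalgebra.add_mem _ hy hz
    · unfold rwA
      rw [Algebra.adjoin_le_iff]
      rintro f ((hf | ⟨b, rfl⟩) | ⟨i, rfl⟩)
      · rw [hf]
        refine ⟨(X none : P) ⊗ₜ 1, ?_⟩
        change Ψ _ = _
        rw [hΨ, map_one, mul_one]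
        exact wmap_none _ _
      · refine ⟨(1 : P) ⊗ₜ b, ?_⟩
        change Ψ _ = _
        rw [hΨ, map_one, one_mul]
        exact hb0 b
      · refine ⟨(X (some i) : P) ⊗ₜ 1, ?_⟩
        change Ψ _ = _
        rw [hΨ, map_one, mul_one]
        exact wmap_some _ _ _
  have e := AlgEquiv.ofInjective Ψ' hinj
  rw [hrange] at e
  exact Algebra.Smooth.of_equiv e

end we

end Pool.Agent.H920R2
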