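import Pool.Agent.H920R2.Zp3

set_option autoImplicit false
set_option linter.unusedSectionVars false

open AlgebraicGeometry CategoryTheory

universe u v

namespace Pool.Agent.H920R2

section main

variable {k B : Type u} [Field k] [CommRing B] [IsDomain B] [Algebra k B]

/-- **Resolution of quotients by groups of order `p` in characteristic `p`, general criterion.**
Let `σ` be an automorphism of order `p` of a domain `B` over a field of characteristic `p`, and `R`
a smooth weighted blowup of `B`, such that `σ - 1` is divisible by the `l`-th power of the equation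
of the exceptional divisor on `R` and the zeros of the quotient lie in the vertex. Then the
spectrum of the ring of invariants has a resolution of singularities. -/
theorem hasResolution_zp {p : ℕ} (hp : p.Prime) (hpk : (p : k) = 0) (σ : B ≃ₐ[k] B)
    (hσ : ∀ b, σ^[p] b = b) (τ : FractionRing B ≃ₐ[k] FractionRing B)
    (hτ : ∀ b, τ (algebraMap B (FractionRing B) b) = algebraMap B (FractionRing B) (σ b))
    (R : Subalgebra k (LP (FractionRing B))) (hgr : Gr R) (hs : hm (-1) 1 ∈ R)
    (hb : ∀ b : B, hm 0 (algebraMap B (FractionRing B) b) ∈ R)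
    (hc : ∀ f ∈ R, ∀ d, ∃ b : B, f.coeff d = algebraMap B (FractionRing B) b)
    (hsm : Algebra.Smooth k R) (hpos : ∃ (d : ℕ) (a : FractionRing B), 0 < d ∧ a ≠ 0 ∧ hm d a ∈ R)
    (l : ℕ) (hl : 0 < l) (hD : ∀ f ∈ R, hm l 1 * (tl τ f - f) ∈ R)
    (hrad : ∀ Q : Ideal R, Q.IsPrime →
      (∀ (f : LP (FractionRing B)) (hf : f ∈ R),
        (⟨hm l 1 * (tl τ f - f), hD f hf⟩ : R) ∈ Q) →
      ∀ (d : ℕ) (a : FractionRing B) (h : hm d a ∈ R), 0 < d → (⟨hm d a, h⟩ : R) ∈ Q) :
    HasResolution (X := Spec (CommRingCat.of (fixedAlg σ)))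
      (Spec.map (CommRingCat.ofHom (algebraMap k (fixedAlg σ)))) := by
  classical
  let L := FractionRing B
  let gB : B →ₐ[k] L := IsScalarTower.toAlgHom k B L
  have hgB : ∀ b, gB b = algebraMap B L b := fun b => rfl
  have hinj : Function.Injective gB := IsFractionRing.injective B L
  have hτ' : ∀ b, τ (gB b) = gB (σ b) := hτ
  have hτp : ∀ x, τ^[p] x = x := by
    intro x
    obtain ⟨a, c, -, rfl⟩ := IsFractionRing.div_surjective (A := B) x
    have h3 : ∀ (m : ℕ) (y z : L), τ^[m] (y / z) = τ^[m] y / τ^[m] z := by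
      intro m
      induction m with
      | zero => intro y z; rfl
      | succ m ih => intro y z; rw [Function.iterate_succ_apply, map_div₀, ih,
          Function.iterate_succ_apply, Function.iterate_succ_apply]
    have h4 : ∀ y : B, τ^[p] (algebraMap B L y) = algebraMap B L y := by
      intro y
      have h5 := tau_iter gB σ τ hτ' p y
      rw [hσ] at h5
      exact h5
    rw [h3, h4, h4]
  have hRn : IsNoetherianRing R := Algebra.FiniteType.isNoetherianRing k R
  have hSrad := rad_zp gB hinj σ τ hτ' hp hpk hσ hτp R hgr hs hb hc l hl hD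
    (fun Q hQ h => hrad Q hQ fun f hf => h ⟨f, hf⟩)
  set S := SZ τ R l p hs hD with hS
  have hfg : (Ideal.span S).FG := IsNoetherian.noetherian _
  obtain ⟨T0, hT0S, hT0⟩ := (Submodule.fg_span_iff_fg_span_finset_subset S).1 hfg
  let T := {x // x ∈ T0}
  choose e η he0 hη0 hxeq hτη b hdvd using fun t : T => hT0S t.2
  have he : ∀ t, hm (e t) (η t) ∈ R := fun t => by rw [← hxeq t]; exact t.1.2
  let F := fixedAlg (tl τ)
  have hint := isIntegral_fixedAlg σ p hp.pos hσ
  have hcov : Cover (gA gB σ) gB R F e η he := by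
    refine
      { inj := hinj.comp Subtype.val_injective
        grR := hgr
        grF := gr_fixed τ
        sR := hs
        sF := ?_
        bR := hb
        cR := hc
        gF := ?_
        gAB := fun a => ⟨a, rfl⟩
        gBA := ?_
        invF := ?_
        int := ?_
        epos := he0
        η0 := hη0
        hF := ?_
        sm := ?_
        ft := inferInstance
        pos := hpos
        rad := ?_ }
    · change _ ∈ fixedAlg (tl τ)
      rw [mem_fixedAlg, tl_hm, map_one]
    · intro a
      change _ ∈ fixedAlg (tl τ)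
      rw [mem_fixedAlg, tl_hm]
      change hm 0 (τ (gB a.1)) = hm 0 (gB a.1)
      rw [hτ', mem_fixedAlg.1 a.2]
    · intro b hb
      change _ ∈ fixedAlg (tl τ) at hb
      rw [mem_fixedAlg, tl_hm] at hb
      refine ⟨⟨b, ?_⟩, rfl⟩
      rw [mem_fixedAlg]
      apply hinj
      rw [← hτ']
      exact hm_inj hb
    · intro d a h
      change _ ∈ fixedAlg (tl τ) at h ⊢
      rw [mem_fixedAlg, tl_hm] at h ⊢
      rw [map_inv₀, hm_inj h]
    · intro V hVA b
      obtain ⟨P, hP, hP0⟩ := hint.isIntegral b
      have hb : IsIntegral V (gB b) := by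
        let φ : fixedAlg σ →+* V := (gA gB σ).toRingHom.codRestrict V.toSubring hVA
        refine ⟨P.map φ, hP.map φ, ?_⟩
        rw [Polynomial.eval₂_map]
        have h1 := congrArg gB hP0
        rw [map_zero, ← AlgHom.coe_toRingHom, Polynomial.hom_eval₂] at h1
        exact h1
      obtain ⟨y, hy⟩ := (IsIntegrallyClosedIn.algebraMap_eq_of_integral (R := V) (A := L) hb)
      rw [← hy]
      exact y.2
    · intro t
      change _ ∈ fixedAlg (tl τ)
      rw [mem_fixedAlg, tl_hm, hτη t]
    · intro t
      set h0 : LP L := hm (e t) (η t) with hh0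
      have hτh : tl τ h0 = h0 := by rw [hh0, tl_hm, hτη t]
      let R' := loc R h0 (he t)
      obtain ⟨z, hz⟩ := (isUnit_hm (d := (e t : ℤ)) (hη0 t)).exists_right_inv
      have hzR : z ∈ R' := inv_mem_loc _ _ _ _ hz
      have hbR : (b t : LP L) ∈ R' := le_loc _ _ _ (b t).2
      have hstab : ∀ x ∈ R', tl τ x ∈ R' ∧ hm l 1 * (tl τ x - x) ∈ R' := by
        rintro x ⟨n, hn⟩
        constructor
        · refine ⟨n, ?_⟩
          have h1 := tl_mem_of τ R hs l hD hn
          rw [map_mul, map_pow, hτh] at h1
          exact h1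
        · refine ⟨n, ?_⟩
          have h1 := hD _ hn
          rw [map_mul, map_pow, hτh] at h1
          have h2 : h0 ^ n * (hm l 1 * (tl τ x - x)) =
              hm l 1 * (h0 ^ n * tl τ x - h0 ^ n * x) := by ring
          rw [h2]
          exact h1
      -- the differences are invertible
      have hinv : ∀ j, 0 < j → j < p → ∃ c ∈ R',
          (hm (l : ℤ) (1 : L) : LP L) * ((tl τ)^[j] (b t : LP L) - (b t : LP L)) * c = 1 := by
        intro j hj hjp
        obtain ⟨c, hc'⟩ := hdvd t j hj hjp
        have h1 := congrArg (fun x : R => (x : LP L)) hc'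
        change ((t.1 : R) : LP L) = ((TH τ R l hs hD j (b t) : R) : LP L) * (c : LP L) at h1
        rw [hxeq t] at h1
        refine ⟨c * z, R'.mul_mem (le_loc _ _ _ c.2) hzR, ?_⟩
        rw [← mul_assoc]
        change ((TH τ R l hs hD j (b t) : R) : LP L) * (c : LP L) * z = 1
        rw [← h1, hz]
      have hsl : ∀ x : LP L, x = hm (-1) 1 ^ l * (hm l 1 * x) := by
        intro x
        rw [← mul_assoc, sl_one, one_mul]
      refine smooth_fixed_LP τ p hp.pos hτp R' (fun x hx => (hstab x hx).1) (b t : LP L) hbR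
        ?_ ?_ (smooth_loc hsm _ (isUnit_hm (hη0 t)))
      · intro c hc'
        obtain ⟨w, hw, hw1⟩ := hinv 1 one_pos hp.one_lt
        rw [Function.iterate_one] at hw1
        refine ⟨hm l 1 * (tl τ c - c) * w, R'.mul_mem (hstab c hc').2 hw, ?_⟩
        have h3 : tl τ (b t : LP L) - (b t : LP L) = hm (-1) 1 ^ l * (hm l 1 *
            (tl τ (b t : LP L) - (b t : LP L))) := hsl _
        have h4 : tl τ c - c = hm (-1) 1 ^ l * (hm l 1 * (tl τ c - c)) := hsl _
        rw [h3]
        have h5 : hm (l : ℤ) 1 * (tl τ c - c) * w * (hm (-1) 1 ^ l * (hm l 1 *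
            (tl τ (b t : LP L) - (b t : LP L)))) = hm (-1) 1 ^ l * (hm l 1 * (tl τ c - c)) *
              (hm l 1 * (tl τ (b t : LP L) - (b t : LP L)) * w) := by ring
        rw [h5, hw1, mul_one, ← h4]
      · intro j hj hjp
        obtain ⟨w, hw, hw1⟩ := hinv j hj hjp
        constructor
        · intro h
          rw [h, sub_self, mul_zero, zero_mul] at hw1
          exact zero_ne_one hw1
        · refine ⟨hm l 1 * (tl τ (b t : LP L) - (b t : LP L)) * w,
            R'.mul_mem (hstab _ hbR).2 hw, ?_⟩
          have h3 : (tl τ)^[j] (b t : LP L) - (b t : LP L) = hm (-1) 1 ^ l * (hm l 1 *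
            ((tl τ)^[j] (b t : LP L) - (b t : LP L))) := hsl _
          have h4 : tl τ (b t : LP L) - (b t : LP L) = hm (-1) 1 ^ l * (hm l 1 *
            (tl τ (b t : LP L) - (b t : LP L))) := hsl _
          rw [h3]
          have h5 : hm (l : ℤ) 1 * (tl τ (b t : LP L) - (b t : LP L)) * w *
              (hm (-1) 1 ^ l * (hm l 1 * ((tl τ)^[j] (b t : LP L) - (b t : LP L)))) =
              hm (-1) 1 ^ l * (hm l 1 * (tl τ (b t : LP L) - (b t : LP L))) *
              (hm l 1 * ((tl τ)^[j] (b t : LP L) - (b t : LP L)) * w) := by ring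
          rw [h5, hw1, mul_one, ← h4]
    · intro d a h hd
      have h1 : (⟨hm d a, h⟩ : R) ∈ (Ideal.span (Set.range fun t : T =>
          (⟨hm (e t) (η t), he t⟩ : R))).radical := by
        rw [Ideal.radical_eq_sInf, Ideal.mem_sInf]
        rintro Q ⟨hle, hQ⟩
        refine hSrad Q hQ ?_ d a h hd
        intro x hx
        have h2 : x ∈ Submodule.span R (T0 : Set R) := by
          rw [← hT0]
          exact Submodule.subset_span hx
        have h3 : Submodule.span R (T0 : Set R) ≤ Q := by
          rw [Submodule.span_le]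
          intro z hz
          apply hle
          refine Ideal.subset_span ⟨⟨z, hz⟩, ?_⟩
          exact Subtype.ext (hxeq ⟨z, hz⟩).symm
        exact h3 h2
      obtain ⟨N, hN⟩ := h1
      exact ⟨N, hN⟩
  exact hasResolution_of_cover hcov

end main

end Pool.Agent.H920R2
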