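import Pool.Agent.H920R2.Cu5
import Pool.Agent.H920R2.We1
import Pool.Agent.H920R2.Zp4

set_option autoImplicit false
set_option linter.unusedSectionVars false

open MvPolynomial

universe u v

namespace Pool.Agent.H920R2

section glue

variable {k L : Type u} [Field k] [Field L] [Algebra k L]

/-- Smoothness is local. -/
theorem smooth_of_loc (R : Subalgebra k (LP L))
    (h : ∀ Q : Ideal R, Q.IsPrime → ∃ (x : LP L) (hx : x ∈ R), IsUnit x ∧ (⟨x, hx⟩ : R) ∉ Q ∧
      Algebra.Smooth k (loc R x hx)) : Algebra.Smooth k R := by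
  classical
  let s : Set R := {x | IsUnit (x : LP L) ∧ Algebra.Smooth k (loc R x x.2)}
  have hs : Ideal.span s = ⊤ := by
    by_contra hcon
    obtain ⟨Q, hQ, hle⟩ := Ideal.exists_le_maximal _ hcon
    obtain ⟨x, hx, hu, hnQ, hsm⟩ := h Q hQ.isPrime
    exact hnQ (hle (Ideal.subset_span ⟨hu, hsm⟩))
  have key := RingHom.Smooth.ofLocalizationSpanTarget (algebraMap k R) s hs (by
    rintro ⟨r, hu, hsm⟩
    rw [← IsScalarTower.algebraMap_eq]
    obtain ⟨y, hy⟩ := hu.exists_right_inv
    have hle := le_loc R (r : LP L) r.2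
    let _ : Algebra R (loc R (r : LP L) r.2) := (Subalgebra.inclusion hle).toRingHom.toAlgebra
    have _ : IsScalarTower k R (loc R (r : LP L) r.2) := IsScalarTower.of_algebraMap_eq fun r => rfl
    have hmap : ∀ s : R, ((algebraMap R (loc R (r : LP L) r.2) s : loc R (r : LP L) r.2) : LP L) =
      s := fun s => rfl
    have hloc : IsLocalization.Away r (loc R (r : LP L) r.2) := by
      refine IsLocalization.Away.mk r ?_ ?_ ?_
      · refine IsUnit.of_mul_eq_one ⟨y, inv_mem_loc R r y r.2 hy⟩ ?_
        apply Subtype.ext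
        exact hy
      · rintro ⟨f, n, hn⟩
        refine ⟨n, ⟨(r : LP L) ^ n * f, hn⟩, ?_⟩
        apply Subtype.ext
        change f * (algebraMap R (loc R (r : LP L) r.2) r : LP L) ^ n = (r : LP L) ^ n * f
        rw [hmap, mul_comm]
      · intro a b hab
        refine ⟨0, ?_⟩
        have h3 : ((algebraMap R (loc R (r : LP L) r.2) a : loc R (r : LP L) r.2) : LP L) =
          ((algebraMap R (loc R (r : LP L) r.2) b : loc R (r : LP L) r.2) : LP L) :=
            congrArg Subtype.val hab
        rw [hmap, hmap] at h3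
        rw [Subtype.ext h3]
    let e : loc R (r : LP L) r.2 ≃ₐ[R] Localization.Away r :=
      IsLocalization.algEquiv (Submonoid.powers r) _ _
    have h1 : Algebra.Smooth k (Localization.Away r) :=
      Algebra.Smooth.of_equiv (e.restrictScalars k)
    exact RingHom.smooth_algebraMap.2 h1)
  exact RingHom.smooth_algebraMap.1 key

variable {B : Type u} [CommRing B] [Algebra k B] (gB : B →ₐ[k] L) (hinj : Function.Injective gB)

/-- The Laurent polynomials with coefficients in `B`. -/
def cfB : Subalgebra k (LP L) := cfSub gB.range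

include hinj in
/-- The Laurent polynomials over a smooth algebra are smooth. -/
theorem smooth_loc_s (hB : Algebra.Smooth k B) (R : Subalgebra k (LP L)) (hs : hm (-1) 1 ∈ R)
    (hb : ∀ b, hm 0 (gB b) ∈ R) (hc : ∀ f ∈ R, ∀ d, ∃ b, f.coeff d = gB b) :
    Algebra.Smooth k (loc R (hm (-1) 1) hs) := by
  classical
  let θ : Polynomial B →+* LP L := Polynomial.eval₂RingHom
    (((zer k L).comp gB : B →ₐ[k] LP L) : B →+* LP L) (hm (-1) 1)
  have hθC : ∀ b, θ (Polynomial.C b) = hm 0 (gB b) := by
    intro b
    change Polynomial.eval₂ _ _ _ = _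
    rw [Polynomial.eval₂_C]
    rfl
  have hθX : θ Polynomial.X = hm (-1) 1 := by
    change Polynomial.eval₂ _ _ _ = _
    rw [Polynomial.eval₂_X]
  have hθm : ∀ (m : ℕ) b, θ (Polynomial.monomial m b) = hm (-(m : ℤ)) (gB b) := by
    intro m b
    rw [← Polynomial.C_mul_X_pow_eq_monomial, map_mul, map_pow, hθC, hθX, hm_pow, hm_mul, one_pow,
      mul_one]
    congr 1
    ring
  have hcoef : ∀ (f : Polynomial B) (n : ℕ), (θ f).coeff (-(n : ℤ)) = gB (f.coeff n) := by
    intro f n
    induction f using Polynomial.induction_on' with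
    | add p q hp hq =>
      rw [map_add, AddMonoidAlgebra.coeff_add, Finsupp.add_apply, hp, hq,
        Polynomial.coeff_add, map_add]
    | monomial m b =>
      rw [hθm, coeff_hm, Polynomial.coeff_monomial]
      by_cases h : m = n
      · subst h; rw [if_pos rfl, if_pos rfl]
      · rw [if_neg h, if_neg, map_zero]
        intro h2
        apply h
        have : (m : ℤ) = n := by linarith
        exact_mod_cast this
  have hθinj : Function.Injective θ := by
    rw [injective_iff_map_eq_zero]
    intro f hf
    ext n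
    apply hinj
    rw [← hcoef, hf, Polynomial.coeff_zero, map_zero]
    rfl
  let θ' : Polynomial B →ₐ[k] LP L :=
    { toRingHom := θ
      commutes' := fun r => by
        change θ (algebraMap k (Polynomial B) r) = _
        rw [IsScalarTower.algebraMap_apply k B (Polynomial B)]
        change θ (Polynomial.C _) = _
        rw [hθC, AlgHom.commutes, algebraMap_LP] }
  have hsmP : Algebra.Smooth k (Polynomial B) := by
    have h1 : Algebra.Smooth B (Polynomial B) := by
      constructor
      · infer_instance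
      · infer_instance
    exact Algebra.Smooth.comp k B (Polynomial B)
  have e := AlgEquiv.ofInjective θ' hθinj
  have h0 : Algebra.Smooth k θ'.range := Algebra.Smooth.of_equiv e
  have hsR : hm (-1) 1 ∈ θ'.range := ⟨Polynomial.X, hθX⟩
  have h1 := smooth_loc h0 hsR (isUnit_hm one_ne_zero)
  have h2 : loc R (hm (-1) 1) hs = loc θ'.range (hm (-1) 1) hsR := by
    apply le_antisymm
    · rintro f ⟨n, hn⟩
      -- multiply by a large power of `s`
      obtain ⟨N, hN⟩ : ∃ N : ℕ, ∀ d ∈ (hm (-1) 1 ^ n * f : LP L).coeff.support, d ≤ N := by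
        refine ⟨(hm (-1) 1 ^ n * f : LP L).coeff.support.sup fun d => d.toNat, ?_⟩
        intro d hd
        have h3 := Finset.le_sup (f := fun d : ℤ => d.toNat) hd
        have h4 : (d.toNat : ℤ) ≤ ((hm (-1) 1 ^ n * f : LP L).coeff.support.sup
          fun d => d.toNat : ℕ) := by exact_mod_cast h3
        have := Int.self_le_toNat d
        omega
      refine ⟨N + n, ?_⟩
      rw [pow_add, mul_assoc]
      set F : LP L := hm (-1) 1 ^ n * f with hF
      rw [eq_sum_hm F, Finset.mul_sum]
      refine Subalgebra.sum_mem _ fun d hd => ?_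
      obtain ⟨b, hb'⟩ := hc _ hn d
      rw [hb', hm_pow, hm_mul, one_pow, one_mul]
      have h5 := hN d hd
      obtain ⟨m, hm'⟩ := Int.eq_ofNat_of_zero_le (a := (N : ℤ) - d) (by omega)
      refine ⟨Polynomial.monomial m b, ?_⟩
      change θ _ = _
      rw [hθm]
      congr 1
      have : (N : ℤ) - d = m := hm'
      linarith
    · have h3 : θ'.range ≤ R := by
        rintro _ ⟨f, rfl⟩
        change θ f ∈ R
        induction f using Polynomial.induction_on' with
        | add p q hp hq => rw [map_add]; exact R.add_mem hp hq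
        | monomial m b =>
          rw [← Polynomial.C_mul_X_pow_eq_monomial, map_mul, map_pow, hθC, hθX]
          exact R.mul_mem (hb b) (R.pow_mem hs m)
      rintro f ⟨n, hn⟩
      exact ⟨n, h3 hn⟩
  rw [h2]
  exact h1

end glue

section dz

variable {k L : Type u} [Field k] [Field L] [Algebra k L] (τ : L ≃ₐ[k] L) (l : ℕ)

/-- The difference operator of degree `l` on an algebra generated by a set. -/
theorem dz_adjoin (G : Set (LP L)) (hs : hm (-1) 1 ∈ Algebra.adjoin k G)
    (hG : ∀ x ∈ G, hm l 1 * (tl τ x - x) ∈ Algebra.adjoin k G) :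
    ∀ f ∈ Algebra.adjoin k G, hm l 1 * (tl τ f - f) ∈ Algebra.adjoin k G := by
  intro f hf
  have hf' := hf
  induction hf using Algebra.adjoin_induction with
  | mem x hx => exact hG x hx
  | algebraMap r =>
    rw [AlgEquiv.commutes, sub_self, mul_zero]
    exact Subalgebra.zero_mem _
  | add x y hx' hy' hx hy =>
    have h1 : (hm (l : ℤ) 1 : LP L) * (tl τ (x + y) - (x + y)) =
        hm l 1 * (tl τ x - x) + hm l 1 * (tl τ y - y) := by rw [map_add]; ring
    rw [h1]
    exact Subalgebra.add_mem _ (hx hx') (hy hy')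
  | mul x y hx' hy' hx hy =>
    have h0 : (hm (-1) 1 : LP L) ^ l * hm l 1 = 1 := sl_one l
    have h1 : (hm (l : ℤ) 1 : LP L) * (tl τ (x * y) - x * y) =
        (hm l 1 * (tl τ x - x)) * y + x * (hm l 1 * (tl τ y - y)) +
          hm (-1) 1 ^ l * ((hm l 1 * (tl τ x - x)) * (hm l 1 * (tl τ y - y))) := by
      rw [map_mul]
      linear_combination (-(tl τ x - x) * (tl τ y - y) * hm l 1) * h0
    rw [h1]
    exact Subalgebra.add_mem _ (Subalgebra.add_mem _ (Subalgebra.mul_mem _ (hx hx') hy')
      (Subalgebra.mul_mem _ hx' (hy hy')))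
      (Subalgebra.mul_mem _ (Subalgebra.pow_mem _ hs l) (Subalgebra.mul_mem _ (hx hx') (hy hy')))

end dz

end Pool.Agent.H920R2
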