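import Pool.Agent.H920R2.Cu6

set_option autoImplicit false
set_option linter.unusedSectionVars false

open MvPolynomial

universe u v

namespace Pool.Agent.H920R2

section curve

variable {k A : Type u} [Field k] [CommRing A] [IsDedekindDomain A] [Algebra k A]

/-- The filtration of the coordinate ring of a curve defined by weighted points. -/
def WG (S : Finset (Ideal A)) (w : Ideal A → ℕ) (d : ℕ) (a : A) : Prop :=
  ∀ P ∈ S, ∃ c : ℕ, d ≤ w P * c ∧ a ∈ P ^ c

lemma WG_zero (S : Finset (Ideal A)) (w : Ideal A → ℕ) (a : A) : WG S w 0 a :=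
  fun P _ => ⟨0, Nat.zero_le _, by simp⟩

lemma WG_del {σ : A ≃ₐ[k] A} {S : Finset (Ideal A)} {m w : Ideal A → ℕ} {l : ℕ}
    (h : CurveData σ S m) (hw : ∀ P ∈ S, w P * m P = l) {d : ℕ} {a : A} (ha : WG S w d a) :
    WG S w (d + l) (del σ a) := by
  intro P hP
  obtain ⟨c, hdc, hac⟩ := ha P hP
  refine ⟨c + m P, ?_, del_pow_mem σ P (m P) (h.dl P hP) c a hac⟩
  rw [mul_add, hw P hP]
  omega

variable {L : Type u} [Field L] [Algebra k L] (gA : A →ₐ[k] L) {σ : A ≃ₐ[k] A}
  {S : Finset (Ideal A)} {m w : Ideal A → ℕ} {l : ℕ}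
  (h : CurveData σ S m) (hw1 : ∀ P ∈ S, 1 ≤ w P) (hw : ∀ P ∈ S, w P * m P = l)
  (R : Subalgebra k (LP L)) (hs : hm (-1) 1 ∈ R)
  (hgen : ∀ (d : ℕ) a, WG S w d a → hm d (gA a) ∈ R) (Q : Ideal R) (hQ : Q.IsPrime)

/-- The degree zero part. -/
noncomputable def i0 (hgen : ∀ (d : ℕ) a, WG S w d a → hm d (gA a) ∈ R) : A →+* R where
  toFun a := ⟨hm 0 (gA a), by
    have h1 := hgen 0 a (WG_zero S w a)
    rwa [Nat.cast_zero] at h1⟩
  map_one' := Subtype.ext (by change hm 0 (gA 1) = 1; rw [map_one, hm_one])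
  map_mul' a b := Subtype.ext (by
    change hm 0 (gA (a * b)) = hm 0 (gA a) * hm 0 (gA b)
    rw [map_mul, hm_mul, add_zero])
  map_zero' := Subtype.ext (by change hm 0 (gA 0) = 0; rw [map_zero, hm_zero])
  map_add' a b := Subtype.ext (by
    change hm 0 (gA (a + b)) = hm 0 (gA a) + hm 0 (gA b)
    rw [map_add, hm_add])

lemma i0_coe (a : A) : ((i0 gA R hgen a : R) : LP L) = hm 0 (gA a) := rfl

include h hw1 hQ in
/-- The primes which contain the equation of the exceptional divisor lie over fixed points. -/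
lemma curve_prime (hsQ : (⟨hm (-1) 1, hs⟩ : R) ∈ Q) : Q.comap (i0 gA R hgen) ∈ S := by
  classical
  have hq : (Q.comap (i0 gA R hgen)).IsPrime := hQ.comap _
  have h1 : ∏ P ∈ S, P ≤ Q.comap (i0 gA R hgen) := by
    intro a ha
    have hWG : WG S w 1 a := by
      intro P hP
      refine ⟨1, by rw [mul_one]; exact hw1 P hP, ?_⟩
      rw [pow_one]
      exact Ideal.le_of_dvd (Finset.dvd_prod_of_mem _ hP) ha
    have h2 : i0 gA R hgen a = (⟨hm (-1) 1, hs⟩ : R) * ⟨hm (1 : ℕ) (gA a), hgen 1 a hWG⟩ := by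
      apply Subtype.ext
      change hm 0 (gA a) = hm (-1) 1 * hm ((1 : ℕ) : ℤ) (gA a)
      rw [hm_mul, one_mul]
      norm_num
    rw [Ideal.mem_comap, h2]
    exact Q.mul_mem_right _ hsQ
  obtain ⟨P, hP, hle⟩ := (hq.prod_le).1 h1
  have := (h.max P hP).eq_of_le hq.ne_top hle
  rw [← this]
  exact hP

include h hw1 hw hQ hs in
/-- The zeros of the difference operator lie in the vertex. -/
theorem curve_zero (hDQ : ∀ (d : ℕ) a (h : WG S w d a)
      (h' : hm ((d : ℤ) + l) (gA (del σ a)) ∈ R), (⟨_, h'⟩ : R) ∈ Q)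
    (d : ℕ) (a : A) (hd : 1 ≤ d) (ha : WG S w d a) :
    (⟨hm d (gA a), hgen d a ha⟩ : R) ∈ Q := by
  classical
  set s : R := ⟨hm (-1) 1, hs⟩ with hsdef
  have hq : (Q.comap (i0 gA R hgen)).IsPrime := hQ.comap _
  have hDmem : ∀ (d : ℕ) a (h : WG S w d a), hm ((d : ℤ) + l) (gA (del σ a)) ∈ R := by
    intro d a hda
    have h1 := hgen (d + l) _ (WG_del h hw hda)
    push_cast at h1
    exact h1
  by_cases hsQ : s ∈ Q
  · -- the special fibre
    have hPS := curve_prime gA h hw1 R hs hgen Q hQ hsQ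
    set P := Q.comap (i0 gA R hgen) with hP
    have hmax := h.max P hPS
    obtain ⟨t, ht, ht', htP⟩ := exists_unif S (fun P' hP' => ⟨(h.max P' hP').isPrime, h.ne P' hP'⟩)
      P hPS (w P)
    have hWt : WG S w (w P) t := by
      intro P' hP'
      by_cases hne : P' = P
      · refine ⟨1, by rw [hne, mul_one], ?_⟩
        rw [hne, pow_one]
        exact ht
      · refine ⟨w P, ?_, htP P' hP' hne⟩
        exact Nat.le_mul_of_pos_left _ (hw1 P' hP')
    obtain ⟨f, hf, hft⟩ := exists_den P t ht ht'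
    set n := m P + 1 with hn
    have hdt := h.dl P hPS t
    obtain ⟨g, hg⟩ := exists_den_pow P hft n _ hdt
    have hgP : g ∉ P := by
      intro hgP
      have h1 : f ^ n * del σ t ∈ P ^ (n + 1) := by
        rw [hg, pow_succ]
        exact Ideal.mul_mem_mul (Ideal.pow_mem_pow ht n) hgP
      rcases Ideal.IsMaximal.mul_mem_pow P h1 with h2 | h2
      · exact hf (hmax.isPrime.mem_of_pow_mem _ h2)
      · exact h.ex P hPS t ht ht' h2
    let T : R := ⟨hm (w P) (gA t), hgen _ _ hWt⟩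
    have hTQ : T ∈ Q := by
      have h1 := hDQ (w P) t hWt (hDmem _ _ hWt)
      have h2 : i0 gA R hgen (f ^ n) * ⟨_, hDmem _ _ hWt⟩ = i0 gA R hgen g * T ^ n := by
        apply Subtype.ext
        change hm 0 (gA (f ^ n)) * hm ((w P : ℤ) + l) (gA (del σ t)) =
          hm 0 (gA g) * hm (w P) (gA t) ^ n
        rw [hm_mul, hm_pow, hm_mul, ← map_mul, ← map_pow, ← map_mul, hg]
        have e1 : (0 : ℤ) + ((w P : ℤ) + l) = 0 + (n : ℤ) * (w P : ℤ) := by
          rw [← hw P hPS, hn]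
          push_cast
          ring
        rw [e1, mul_comm (t ^ n) g]
      have h3 : i0 gA R hgen g * T ^ n ∈ Q := by
        rw [← h2]
        exact Q.mul_mem_left _ h1
      rcases hQ.mem_or_mem h3 with h4 | h4
      · exact absurd h4 hgP
      · exact hQ.mem_of_pow_mem _ h4
    obtain ⟨c, hdc, hac⟩ := ha P hPS
    have hc1 : 1 ≤ c := by
      rcases Nat.eq_zero_or_pos c with h0 | h0
      · subst h0; omega
      · exact h0
    obtain ⟨b, hb⟩ := exists_den_pow P hft c a hac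
    obtain ⟨e, he⟩ := Nat.exists_eq_add_of_le hdc
    have h2 : i0 gA R hgen (f ^ c) * ⟨hm d (gA a), hgen d a ha⟩ =
        i0 gA R hgen b * s ^ e * T ^ c := by
      apply Subtype.ext
      change hm 0 (gA (f ^ c)) * hm (d : ℤ) (gA a) =
        hm 0 (gA b) * hm (-1) 1 ^ e * hm (w P) (gA t) ^ c
      rw [hm_mul, hm_pow, hm_pow, hm_mul, hm_mul, ← map_mul, one_pow, mul_one, ← map_pow,
        ← map_mul, hb]
      have e1 : (0 : ℤ) + d = 0 + (e : ℤ) * -1 + (c : ℤ) * (w P : ℤ) := by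
        have : ((w P * c : ℕ) : ℤ) = ((d + e : ℕ) : ℤ) := by rw [he]
        push_cast at this
        linarith
      rw [e1, mul_comm (t ^ c) b]
    have h3 : i0 gA R hgen (f ^ c) * ⟨hm d (gA a), hgen d a ha⟩ ∈ Q := by
      rw [h2]
      exact Q.mul_mem_left _ (Ideal.pow_mem_of_mem _ hTQ _ hc1)
    rcases hQ.mem_or_mem h3 with h4 | h4
    · exact absurd (hmax.isPrime.mem_of_pow_mem _ h4) hf
    · exact h4
  · -- the general fibre
    have hsn : ∀ n : ℕ, s ^ n ∉ Q := fun n hn => hsQ (hQ.mem_of_pow_mem n hn)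
    have hPS : Q.comap (i0 gA R hgen) ∈ S := by
      refine h.mem _ hq fun a => ?_
      rw [Ideal.mem_comap]
      have h1 := hDQ 0 a (WG_zero S w a) (hDmem _ _ (WG_zero S w a))
      have h2 : i0 gA R hgen (del σ a) = s ^ l * ⟨_, hDmem _ _ (WG_zero S w a)⟩ := by
        apply Subtype.ext
        change hm 0 (gA (del σ a)) = hm (-1) 1 ^ l * hm (((0 : ℕ) : ℤ) + l) (gA (del σ a))
        rw [hm_pow, hm_mul, one_pow, one_mul]
        congr 1
        push_cast
        ring
      rw [h2]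
      exact Q.mul_mem_left _ h1
    obtain ⟨c, hdc, hac⟩ := ha _ hPS
    have hc1 : 1 ≤ c := by
      rcases Nat.eq_zero_or_pos c with h0 | h0
      · subst h0; omega
      · exact h0
    have h1 : a ∈ Q.comap (i0 gA R hgen) := by
      have := Ideal.pow_le_pow_right hc1 hac
      rwa [pow_one] at this
    rw [Ideal.mem_comap] at h1
    have h2 : i0 gA R hgen a = s ^ d * ⟨hm d (gA a), hgen d a ha⟩ := by
      apply Subtype.ext
      change hm 0 (gA a) = hm (-1) 1 ^ d * hm (d : ℤ) (gA a)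
      rw [hm_pow, hm_mul, one_pow, one_mul]
      congr 1
      ring
    rw [h2] at h1
    exact (hQ.mem_or_mem h1).resolve_left (hsn d)

end curve

end Pool.Agent.H920R2
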