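import Pool.Agent.H920R2.Sig9

set_option autoImplicit false
set_option linter.unusedSectionVars false

open MvPolynomial AlgebraicGeometry CategoryTheory

universe u v

namespace Pool.Agent.H920R2

section lin

variable {k : Type u} [Field k] {n : ℕ}

lemma linSub_lf' (M : Matrix (Fin n) (Fin n) k) (w : Fin n → k) :
    linSub M (lf w) = lf (w + (M - 1).vecMulLinear w) := by
  rw [linSub_eq, pm_lf]
  congr 1
  rw [Matrix.vecMulLinear_apply, Matrix.vecMulLinear_apply, Matrix.vecMul_sub,
    Matrix.vecMul_one, add_sub_cancel]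

lemma linSub_comp' (M N : Matrix (Fin n) (Fin n) k) :
    (linSub M).comp (linSub N) = linSub (N * M) := by
  rw [linSub_eq, linSub_eq, linSub_eq, pm_comp]
  congr 1
  refine LinearMap.ext fun w => ?_
  change Matrix.vecMulLinear M (Matrix.vecMulLinear N w) = _
  rw [Matrix.vecMulLinear_apply, Matrix.vecMulLinear_apply, Matrix.vecMulLinear_apply,
    Matrix.vecMul_vecMul]

lemma linSub_one' : linSub (1 : Matrix (Fin n) (Fin n) k) = AlgHom.id k _ := by
  rw [linSub_eq, ← pm_id]
  congr 1
  refine LinearMap.ext fun w => ?_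
  rw [Matrix.vecMulLinear_apply, Matrix.vecMul_one]
  rfl

/-- The automorphism given by a matrix of finite order. -/
noncomputable def linE (M : Matrix (Fin n) (Fin n) k) (p : ℕ) (hp : 0 < p) (hM : M ^ p = 1) :
    MvPolynomial (Fin n) k ≃ₐ[k] MvPolynomial (Fin n) k :=
  AlgEquiv.ofAlgHom (linSub M) (linSub (M ^ (p - 1)))
    (by rw [linSub_comp', ← pow_succ, Nat.sub_add_cancel hp, hM, linSub_one'])
    (by rw [linSub_comp', ← pow_succ', Nat.sub_add_cancel hp, hM, linSub_one'])

lemma linE_apply (M : Matrix (Fin n) (Fin n) k) (p : ℕ) (hp : 0 < p) (hM : M ^ p = 1)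
    (b : MvPolynomial (Fin n) k) : linE M p hp hM b = linSub M b := rfl

lemma linE_iter (M : Matrix (Fin n) (Fin n) k) (p : ℕ) (hp : 0 < p) (hM : M ^ p = 1) (j : ℕ)
    (b : MvPolynomial (Fin n) k) : (linE M p hp hM)^[j] b = linSub (M ^ j) b := by
  induction j with
  | zero => rw [pow_zero, linSub_one']; rfl
  | succ j ih =>
    rw [Function.iterate_succ_apply', ih, linE_apply, pow_succ, ← linSub_comp']
    rfl

lemma linE_p (M : Matrix (Fin n) (Fin n) k) (p : ℕ) (hp : 0 < p) (hM : M ^ p = 1)
    (b : MvPolynomial (Fin n) k) : (linE M p hp hM)^[p] b = b := by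
  rw [linE_iter, hM, linSub_one']
  rfl

lemma fixedAlg_linE (M : Matrix (Fin n) (Fin n) k) (p : ℕ) (hp : 0 < p) (hM : M ^ p = 1) :
    fixedAlg (linE M p hp hM) = linInv M := by
  ext b
  rw [mem_fixedAlg]
  unfold linInv
  rw [AlgHom.mem_equalizer]
  rfl

theorem isVariety_linInv' (M : Matrix (Fin n) (Fin n) k) (m : ℕ) (hm : 0 < m)
    (hM : M ^ m = 1) :
    IsVariety (X := Spec (CommRingCat.of (linInv M)))
      (Spec.map (CommRingCat.ofHom (algebraMap k (linInv M)))) := by
  have h1 : Algebra.FiniteType k (fixedAlg (linE M m hm hM)) :=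
    finiteType_fixedAlg _ m hm (linE_p M m hm hM)
  rw [fixedAlg_linE] at h1
  exact isVariety_spec

lemma lf_injective : Function.Injective (lf : (Fin n → k) →ₗ[k] MvPolynomial (Fin n) k) := by
  rw [← LinearMap.ker_eq_bot, LinearMap.ker_eq_bot']
  intro w hw
  funext i
  have h := congrArg (fun f => coeff (Finsupp.single i 1) f) hw
  simp only [coeff_zero] at h
  rw [lf_apply, coeff_sum, Finset.sum_eq_single i] at h
  · rw [coeff_C_mul, coeff_X, if_pos rfl, mul_one] at h
    exact h
  · intro j _ hj
    rw [coeff_C_mul, coeff_X, if_neg, mul_zero]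
    intro h1
    exact hj (Finsupp.single_left_injective one_ne_zero h1)
  · intro h1
    exact absurd (Finset.mem_univ i) h1

/-- The difference operator on linear forms. -/
lemma del_iter_lf (M : Matrix (Fin n) (Fin n) k) (p : ℕ) (hp : 0 < p) (hM : M ^ p = 1) (a : ℕ)
    (w : Fin n → k) :
    (del (linE M p hp hM))^[a] (lf w) =
      lf (((((M - 1).vecMulLinear : Module.End k (Fin n → k)) ^ a : Module.End k _)) w) := by
  induction a with
  | zero => rfl
  | succ a ih =>
    rw [Function.iterate_succ_apply', ih]
    unfold del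
    rw [linE_apply, linSub_lf', map_add, add_sub_cancel_left, pow_succ', Module.End.mul_apply]

lemma adjoin_lf : Algebra.adjoin k (Set.range (lf : (Fin n → k) →ₗ[k] MvPolynomial (Fin n) k)) =
    ⊤ := by
  rw [eq_top_iff, ← adjoin_range_X, Algebra.adjoin_le_iff]
  rintro _ ⟨i, rfl⟩
  exact Algebra.subset_adjoin ⟨Pi.single i 1, lf_single i⟩

/-- The Rees algebra of a linear automorphism of order `p` is a polynomial ring, hence smooth. -/
theorem smooth_reesSig_lin (M : Matrix (Fin n) (Fin n) k) (p : ℕ) (hp : p.Prime)
    (hpk : (p : k) = 0) (hM : M ^ p = 1) :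
    Algebra.Smooth k (reesSig (linE M p hp.pos hM) p) := by
  classical
  let B := MvPolynomial (Fin n) k
  let L := FractionRing B
  let gB : B →ₐ[k] L := IsScalarTower.toAlgHom k B L
  have hinj : Function.Injective gB := IsFractionRing.injective B L
  let N : Module.End k (Fin n → k) := (M - 1).vecMulLinear
  set σ := linE M p hp.pos hM with hσdef
  have hσ : ∀ b, σ^[p] b = b := linE_p M p hp.pos hM
  have hδ := del_iter_p σ p hp hpk hσ
  have hdel : ∀ (a : ℕ) w, (del σ)^[a] (lf w) = lf ((N ^ a) w) :=
    del_iter_lf M p hp.pos hM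
  have hN : N ^ p = 0 := by
    refine LinearMap.ext fun w => ?_
    apply lf_injective
    rw [← hdel, hδ, LinearMap.zero_apply, map_zero]
  obtain ⟨α, hα, β, w, hβ, hsp⟩ := adapted_basis (fun a => LinearMap.range (N ^ a)) (by
      intro a
      rintro _ ⟨x, rfl⟩
      exact ⟨N x, by rw [pow_succ, Module.End.mul_apply]⟩) p
    (by change LinearMap.range (N ^ 0) = ⊤; rw [pow_zero]; exact LinearMap.range_id)
    (by change LinearMap.range (N ^ p) = ⊥; rw [hN]; exact LinearMap.range_zero)
  have : Fintype α := Fintype.ofFinite α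
  let y : α → L := fun i => gB (lf (β i))
  have hE : ∀ v, β.equivFun.symm (Pi.single v 1) = β v := by
    intro v
    rw [Module.Basis.equivFun_symm_apply, Finset.sum_eq_single v]
    · rw [Pi.single_eq_same, one_smul]
    · intro w _ hw
      rw [Pi.single_eq_of_ne hw, zero_smul]
    · intro h
      exact absurd (Finset.mem_univ v) h
  have hy : AlgebraicIndependent k y := by
    have h1 : (aeval y : MvPolynomial α k →ₐ[k] L) =
        gB.comp (pme β.equivFun.symm : MvPolynomial α k →ₐ[k] B) := by
      apply algHom_ext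
      intro i
      rw [aeval_X]
      change gB (lf (β i)) = gB (pme β.equivFun.symm (X i))
      rw [pme_apply, pm_X]
      congr 2
      exact (hE i).symm
    change Function.Injective (aeval y : MvPolynomial α k →ₐ[k] L)
    rw [h1]
    exact hinj.comp (pme β.equivFun.symm).injective
  have hR : reesSig σ p = (wmap (k := k) y w).range := by
    apply le_antisymm
    · have h1 := sR_eq_adjoin gB σ p hδ _ (adjoin_lf (k := k) (n := n))
      refine h1.trans ?_
      rw [Algebra.adjoin_le_iff]
      have hT : hm (-1) 1 ∈ (wmap (k := k) y w).range := ⟨X none, wmap_none y w⟩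
      rintro f (hf | ⟨a, _, ⟨u, rfl⟩, hap, rfl⟩)
      · rw [hf]; exact hT
      · rw [hdel]
        have h2 : (N ^ a) u ∈ Submodule.span k {x | ∃ i, a ≤ w i ∧ x = β i} :=
          hsp a hap.le ⟨u, rfl⟩
        generalize (N ^ a) u = z at h2
        change hm a (gB (lf z)) ∈ (wmap (k := k) y w).range
        induction h2 using Submodule.span_induction with
        | mem z hz =>
          obtain ⟨i, hi, rfl⟩ := hz
          have h3 : hm a (gB (lf (β i))) = (hm (-1) 1 : LP L) ^ (w i - a) * hm (w i) (y i) := by
            rw [hm_pow, hm_mul, one_pow, one_mul]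
            congr 1
            rw [Nat.cast_sub hi]
            ring
          rw [h3]
          exact Subalgebra.mul_mem _ (Subalgebra.pow_mem _ hT _) ⟨X (some i), wmap_some y w i⟩
        | zero => rw [map_zero, map_zero, hm_zero]; exact Subalgebra.zero_mem _
        | add x y _ _ hx hy => rw [map_add, map_add, hm_add]; exact Subalgebra.add_mem _ hx hy
        | smul r x _ hx =>
          rw [map_smul, map_smul, ← smul_hm]
          exact Subalgebra.smul_mem _ hx r
    · unfold wmap
      rw [← Algebra.adjoin_range_eq_range_aeval, Algebra.adjoin_le_iff]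
      rintro _ ⟨o, rfl⟩
      rcases o with _ | i
      · exact sR_T gB σ p
      · obtain ⟨hi, u, hu⟩ := hβ i
        have h1 := sR_del gB σ p hi (lf u)
        rw [hdel, hu] at h1
        exact h1
  rw [hR]
  exact smooth_wmap y w hy

/-- **Linear quotients by groups of prime order in the modular case.** The quotient of affine
space over a field of characteristic `p` by a linear automorphism of order `p` has a resolution of
singularities. -/
theorem hasResolution_linInv_p (M : Matrix (Fin n) (Fin n) k) (p : ℕ) (hp : p.Prime)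
    (hpk : (p : k) = 0) (hM : M ^ p = 1) :
    HasResolution (X := Spec (CommRingCat.of (linInv M)))
      (Spec.map (CommRingCat.ofHom (algebraMap k (linInv M)))) := by
  have h := hasResolution_reesSig (linE M p hp.pos hM) p hp hpk (linE_p M p hp.pos hM)
    (smooth_reesSig_lin M p hp hpk hM)
  rw [fixedAlg_linE] at h
  exact h

end lin

end Pool.Agent.H920R2
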