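import Pool.Agent.H920R2.Fol5
import Pool.Agent.H920R2.Sig10

set_option autoImplicit false
set_option linter.unusedSectionVars false

open MvPolynomial AlgebraicGeometry CategoryTheory

universe u v

namespace Pool.Agent.H920R2

section leib

variable {k : Type u} {Λ : Type v} [Field k] [CommRing Λ] [Algebra k Λ]

/-- Iterated Leibniz formula. -/
theorem iterate_leibniz (D : Derivation k Λ Λ) (n : ℕ) (a b : Λ) :
    D^[n] (a * b) = ∑ ij ∈ Finset.HasAntidiagonal.antidiagonal n,
      (n.choose ij.1 : Λ) * (D^[ij.1] a * D^[ij.2] b) := by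
  induction n with
  | zero => simp
  | succ n ih =>
    rw [Finset.sum_antidiagonal_choose_succ_mul (fun i j => D^[i] a * D^[j] b) n,
      Function.iterate_succ_apply', ih, map_sum, ← Finset.sum_add_distrib]
    refine Finset.sum_congr rfl fun ij hij => ?_
    rw [Derivation.leibniz, Derivation.map_natCast, smul_zero, add_zero, Derivation.leibniz,
      Function.iterate_succ_apply', Function.iterate_succ_apply', smul_eq_mul, smul_eq_mul,
      smul_eq_mul, n.choose_symm_of_eq_add (Finset.HasAntidiagonal.mem_antidiagonal.1 hij).symm]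
    ring

/-- The `p`-th power of a derivation is a derivation in characteristic `p`. -/
theorem iterate_p_mul {p : ℕ} (hp : p.Prime) (hpk : (p : k) = 0) (D : Derivation k Λ Λ)
    (a b : Λ) : D^[p] (a * b) = a * D^[p] b + b * D^[p] a := by
  have hpL : ((p : ℕ) : Λ) = 0 := by rw [← map_natCast (algebraMap k Λ), hpk, map_zero]
  rw [iterate_leibniz]
  have h1 : ∀ ij ∈ Finset.HasAntidiagonal.antidiagonal p, ij ≠ (0, p) → ij ≠ (p, 0) →
      (p.choose ij.1 : Λ) * (D^[ij.1] a * D^[ij.2] b) = 0 := by
    rintro ⟨i, j⟩ hij h0 h1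
    rw [Finset.HasAntidiagonal.mem_antidiagonal] at hij
    have hi : i ≠ 0 := by
      rintro rfl
      simp only [zero_add] at hij
      exact h0 (by rw [hij])
    have hi' : i ≠ p := by
      rintro rfl
      have : j = 0 := by simp only at hij; omega
      exact h1 (by rw [this])
    have h2 : p ∣ p.choose i := hp.dvd_choose_self hi (by simp only at hij; omega)
    obtain ⟨c, hc⟩ := h2
    change ((p.choose i : ℕ) : Λ) * _ = 0
    rw [hc, Nat.cast_mul, hpL, zero_mul, zero_mul]
  have hne : ((0, p) : ℕ × ℕ) ≠ (p, 0) := by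
    intro h
    have := congrArg Prod.fst h
    exact hp.ne_zero this.symm
  rw [← Finset.add_sum_erase _ _ (show (0, p) ∈ Finset.HasAntidiagonal.antidiagonal p by
      rw [Finset.HasAntidiagonal.mem_antidiagonal]; exact zero_add p),
    ← Finset.add_sum_erase _ _ (show (p, 0) ∈ (Finset.HasAntidiagonal.antidiagonal p).erase (0, p) by
      rw [Finset.mem_erase, Finset.HasAntidiagonal.mem_antidiagonal]; exact ⟨hne.symm, add_zero p⟩)]
  rw [Finset.sum_eq_zero]
  · simp only [Nat.choose_zero_right, Nat.choose_self, Nat.cast_one, one_mul,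
      Function.iterate_zero, id_eq, add_zero]
    ring
  · intro ij hij
    rw [Finset.mem_erase, Finset.mem_erase] at hij
    exact h1 ij hij.2.2 hij.2.1 hij.1

end leib

section gen

variable {k K : Type u} [Field k] [Field K] [Algebra k K]

/-- An ideal which contains the generators of positive degree contains all elements of positive
degree. -/
lemma pos_mem {G : Set (LP K)} (hG : ∀ x ∈ G, ∃ d a, x = hm d a)
    (Q : Ideal (Algebra.adjoin k G)) (hQ : ∀ (d : ℕ) (a : K) (h : hm d a ∈ G), 0 < d →
      (⟨hm d a, Algebra.subset_adjoin h⟩ : Algebra.adjoin k G) ∈ Q)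
    (d : ℕ) (a : K) (h : hm d a ∈ Algebra.adjoin k G) (hd : 0 < d) :
    (⟨hm d a, h⟩ : Algebra.adjoin k G) ∈ Q := by
  classical
  have hgr : Gr (Algebra.adjoin k G) := gr_adjoin G hG
  have key : ∀ x (hx : x ∈ Algebra.adjoin k G), ∀ d : ℤ, 0 < d →
      (⟨hm d (x.coeff d), hgr x hx d⟩ : Algebra.adjoin k G) ∈ Q := by
    intro x hx
    induction hx using Algebra.adjoin_induction with
    | mem x hx =>
      intro d hd
      obtain ⟨e, a, rfl⟩ := hG x hx
      by_cases h : e = d
      · subst h
        obtain ⟨n, rfl⟩ := Int.eq_ofNat_of_zero_le hd.le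
        have h1 := hQ n a hx (by exact_mod_cast hd)
        have e1 : (⟨hm (n : ℤ) ((hm (n : ℤ) a).coeff n), hgr _ (Algebra.subset_adjoin hx) n⟩ :
            Algebra.adjoin k G) = ⟨hm n a, Algebra.subset_adjoin hx⟩ := by
          apply Subtype.ext
          change hm (n : ℤ) ((hm (n : ℤ) a).coeff n) = hm (n : ℤ) a
          rw [coeff_hm_same]
        rw [e1]
        exact h1
      · have e1 : (⟨hm d ((hm e a).coeff d), hgr _ (Algebra.subset_adjoin hx) d⟩ :
            Algebra.adjoin k G) = 0 := by
          apply Subtype.ext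
          change hm d ((hm e a).coeff d) = 0
          rw [coeff_hm, if_neg h, hm_zero]
        rw [e1]
        exact Q.zero_mem
    | algebraMap r =>
      intro d hd
      have e1 : (⟨hm d ((algebraMap k (LP K) r).coeff d), hgr _ (Subalgebra.algebraMap_mem _ r) d⟩ :
          Algebra.adjoin k G) = 0 := by
        apply Subtype.ext
        change hm d ((algebraMap k (LP K) r).coeff d) = 0
        rw [algebraMap_LP, coeff_hm, if_neg (by omega), hm_zero]
      rw [e1]
      exact Q.zero_mem
    | add x y hx hy ihx ihy =>
      intro d hd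
      have e1 : (⟨hm d ((x + y).coeff d), hgr _ (Subalgebra.add_mem _ hx hy) d⟩ :
          Algebra.adjoin k G) = ⟨hm d (x.coeff d), hgr x hx d⟩ + ⟨hm d (y.coeff d), hgr y hy d⟩ := by
        apply Subtype.ext
        change hm d ((x + y).coeff d) = hm d (x.coeff d) + hm d (y.coeff d)
        rw [AddMonoidAlgebra.coeff_add, Finsupp.add_apply, hm_add]
      rw [e1]
      exact Q.add_mem (ihx d hd) (ihy d hd)
    | mul x y hx hy ihx ihy =>
      intro d hd
      have e1 : (⟨hm d ((x * y).coeff d), hgr _ (Subalgebra.mul_mem _ hx hy) d⟩ :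
          Algebra.adjoin k G) = ∑ e ∈ x.coeff.support,
            ⟨hm e (x.coeff e), hgr x hx e⟩ * ⟨hm (d - e) (y.coeff (d - e)), hgr y hy (d - e)⟩ := by
        apply Subtype.ext
        rw [AddSubmonoidClass.coe_finsetSum]
        change hm d ((x * y).coeff d) = ∑ e ∈ x.coeff.support,
          hm e (x.coeff e) * hm (d - e) (y.coeff (d - e))
        conv_lhs => rw [eq_sum_hm x, Finset.sum_mul, AddMonoidAlgebra.coeff_sum,
          Finsupp.finsetSum_apply]
        have h1 : ∀ s : Finset ℤ, hm d (∑ e ∈ s, (hm e (x.coeff e) * y).coeff d) =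
            ∑ e ∈ s, hm e (x.coeff e) * hm (d - e) (y.coeff (d - e)) := by
          intro s
          induction s using Finset.induction_on with
          | empty => simp [hm_zero]
          | insert e s he ih =>
            rw [Finset.sum_insert he, Finset.sum_insert he, hm_add, ih, coeff_hm_mul, hm_mul,
              add_sub_cancel]
        exact h1 _
      rw [e1]
      refine Q.sum_mem fun e _ => ?_
      by_cases he : 0 < e
      · exact Q.mul_mem_right _ (ihx e he)
      · exact Q.mul_mem_left _ (ihy (d - e) (by omega))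
  have h1 := key _ h d (by exact_mod_cast hd)
  have e1 : (⟨hm (d : ℤ) ((hm (d : ℤ) a).coeff d), hgr _ h d⟩ : Algebra.adjoin k G) =
      ⟨hm d a, h⟩ := by
    apply Subtype.ext
    change hm (d : ℤ) ((hm (d : ℤ) a).coeff d) = hm (d : ℤ) a
    rw [coeff_hm_same]
  rw [e1] at h1
  exact h1

end gen

section RF

variable {k : Type u} [Field k] {n : ℕ}

/-- The fraction field of the polynomial ring. -/
abbrev FF (k : Type u) [Field k] (n : ℕ) : Type u := FractionRing (MvPolynomial (Fin n) k)

/-- The generators of the weighted Rees algebra of a filtration of the space of linear forms. -/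
def RG (F : ℕ → Submodule k (Fin n → k)) : Set (LP (FF k n)) :=
  {hm (-1) 1} ∪ {f | ∃ (a : ℕ) (v : Fin n → k), v ∈ F a ∧
    f = hm a (algebraMap (MvPolynomial (Fin n) k) (FF k n) (lf v))}

/-- The weighted Rees algebra of a filtration of the space of linear forms. -/
noncomputable def RF (F : ℕ → Submodule k (Fin n → k)) : Subalgebra k (LP (FF k n)) :=
  Algebra.adjoin k (RG F)

/-- It is a polynomial ring. -/
theorem smooth_RF (F : ℕ → Submodule k (Fin n → k)) (hF : ∀ a, F (a + 1) ≤ F a) (p : ℕ)
    (h0 : F 0 = ⊤) (hp : F p = ⊥) : Algebra.Smooth k (RF F) := by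
  classical
  let B := MvPolynomial (Fin n) k
  let L := FractionRing B
  let gB : B →ₐ[k] L := IsScalarTower.toAlgHom k B L
  have hinj : Function.Injective gB := IsFractionRing.injective B L
  obtain ⟨α, hα, β, w, hβ, hsp⟩ := adapted_basis F hF p h0 hp
  have : Fintype α := Fintype.ofFinite α
  let y : α → L := fun i => gB (lf (β i))
  have hE : ∀ v, β.equivFun.symm (Pi.single v 1) = β v := by
    intro v
    rw [Module.Basis.equivFun_symm_apply, Finset.sum_eq_single v]
    · rw [Pi.single_eq_same, one_smul]
    · intro w _ hw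
      rw [Pi.single_eq_of_ne hw, zero_smul]
    · intro h
      exact absurd (Finset.mem_univ v) h
  have hy : AlgebraicIndependent k y := by
    have h1 : (aeval y : MvPolynomial α k →ₐ[k] L) =
        gB.comp (pme β.equivFun.symm : MvPolynomial α k →ₐ[k] B) := by
      apply algHom_ext
      intro i
      rw [aeval_X]
      change gB (lf (β i)) = gB (pme β.equivFun.symm (X i))
      rw [pme_apply, pm_X]
      congr 2
      exact (hE i).symm
    change Function.Injective (aeval y : MvPolynomial α k →ₐ[k] L)
    rw [h1]
    exact hinj.comp (pme β.equivFun.symm).injective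
  have hT : hm (-1) 1 ∈ (wmap (k := k) y w).range := ⟨X none, wmap_none y w⟩
  have hFbot : ∀ a, p ≤ a → F a = ⊥ := by
    intro a ha
    induction a, ha using Nat.le_induction with
    | base => exact hp
    | succ a _ ih => exact eq_bot_iff.2 ((hF a).trans ih.le)
  have hR : RF F = (wmap (k := k) y w).range := by
    apply le_antisymm
    · unfold RF RG
      rw [Algebra.adjoin_le_iff]
      rintro f (hf | ⟨a, v, hv, rfl⟩)
      · rw [hf]; exact hT
      · rcases Nat.lt_or_ge p a with hpa | hpa
        · rw [hFbot a hpa.le, Submodule.mem_bot] at hv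
          rw [hv, map_zero, map_zero, hm_zero]
          exact Subalgebra.zero_mem _
        have h2 := hsp a hpa hv
        clear hv
        change hm a (gB (lf v)) ∈ (wmap (k := k) y w).range
        induction h2 using Submodule.span_induction with
        | mem z hz =>
          obtain ⟨i, hi, rfl⟩ := hz
          have h3 : hm a (gB (lf (β i))) = (hm (-1) 1 : LP L) ^ (w i - a) * hm (w i) (y i) := by
            rw [hm_pow, hm_mul, one_pow, one_mul]
            congr 1
            rw [Nat.cast_sub hi]
            ring
          rw [h3]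
          exact Subalgebra.mul_mem _ (Subalgebra.pow_mem _ hT _) ⟨X (some i), wmap_some y w i⟩
        | zero => rw [map_zero, map_zero, hm_zero]; exact Subalgebra.zero_mem _
        | add x y _ _ hx hy => rw [map_add, map_add, hm_add]; exact Subalgebra.add_mem _ hx hy
        | smul r x _ hx =>
          rw [map_smul, map_smul, ← smul_hm]
          exact Subalgebra.smul_mem _ hx r
    · unfold wmap
      rw [← Algebra.adjoin_range_eq_range_aeval, Algebra.adjoin_le_iff]
      rintro _ ⟨o, rfl⟩
      rcases o with _ | i
      · exact Algebra.subset_adjoin (Or.inl rfl)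
      · exact Algebra.subset_adjoin (Or.inr ⟨w i, β i, (hβ i).2, rfl⟩)
  rw [hR]
  exact smooth_wmap y w hy

end RF

end Pool.Agent.H920R2
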