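import Pool.Agent.H920R2.Cu8

set_option autoImplicit false
set_option linter.unusedSectionVars false

open MvPolynomial AlgebraicGeometry CategoryTheory

universe u v

namespace Pool.Agent.H920R2

section family

variable {k : Type u} [Field k] [PerfectField k] {p : ℕ} (hp : p.Prime) (hpk : (p : k) = 0)
  {ι : Type} [Fintype ι]
  {A : ι → Type u} [∀ i, CommRing (A i)] [∀ i, IsDedekindDomain (A i)] [∀ i, Algebra k (A i)]
  {B : Type u} [CommRing B] [IsDomain B] [Algebra k B] {j : ∀ i, A i →ₐ[k] B}
  (hj : IsCoprod k j) (hjinj : ∀ i, Function.Injective (j i))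
  (hftA : ∀ i, Algebra.FiniteType k (A i)) (hsmA : ∀ i, Algebra.Smooth k (A i))
  {σi : ∀ i, A i ≃ₐ[k] A i} (hσi : ∀ i a, (σi i)^[p] a = a) (hnf : ∀ i, ¬ IsField (A i))
  {σ : B ≃ₐ[k] B} (hσ : ∀ i a, σ (j i a) = j i (σi i a))

include hj hσi hσ in
lemma prod_iter (b : B) : σ^[p] b = b := by
  have h0 : ∀ (n : ℕ) i a, σ^[n] (j i a) = j i ((σi i)^[n] a) := by
    intro n i
    induction n with
    | zero => intro a; rfl
    | succ n ih => intro a; rw [Function.iterate_succ_apply, hσ, ih, Function.iterate_succ_apply]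
  have h1 : b ∈ Algebra.adjoin k (⋃ i, Set.range (j i)) := by rw [coprod_adjoin hj]; trivial
  induction h1 using Algebra.adjoin_induction with
  | mem x hx =>
    obtain ⟨i, a, rfl⟩ := Set.mem_iUnion.1 hx
    rw [h0, hσi]
  | algebraMap r => exact Function.iterate_fixed (AlgEquiv.commutes σ r) p
  | add x y _ _ hx hy => rw [iterate_map_add, hx, hy]
  | mul x y _ _ hx hy => rw [iterate_map_mul, hx, hy]

include hp hpk hj hjinj hftA hsmA hσi hnf hσ in
/-- **Resolution of the quotient of a product of curves by a diagonal action of a group of order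
`p`.** -/
theorem hasResolution_curves :
    HasResolution (X := Spec (CommRingCat.of (fixedAlg σ)))
      (Spec.map (CommRingCat.ofHom (algebraMap k (fixedAlg σ)))) := by
  classical
  let N : ι → Prop := fun i => ∃ a, del (σi i) a ≠ 0
  by_cases hex : ∃ i, N i
  swap
  · -- trivial action
    have hftB : Algebra.FiniteType k B := coprod_finiteType hj hftA
    have hsmB : Algebra.Smooth k B := by
      have h1 : Algebra.FormallySmooth k B := coprod_formallySmooth hj fun i => inferInstance
      exact ⟨h1, Algebra.FinitePresentation.of_finiteType.1 inferInstance⟩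
    have h1 : fixedAlg σ = ⊤ := by
      rw [eq_top_iff, ← coprod_adjoin hj, Algebra.adjoin_le_iff]
      intro b hb
      obtain ⟨i, a, rfl⟩ := Set.mem_iUnion.1 hb
      change _ ∈ fixedAlg σ
      rw [mem_fixedAlg, hσ]
      congr 1
      by_contra hcon
      exact hex ⟨i, a, fun h => hcon (sub_eq_zero.1 h)⟩
    rw [h1]
    exact hasResolution_congr (Subalgebra.topEquiv (R := k) (A := B)).symm hasResolution_of_smooth
  have hdat : ∀ i, ∃ (S : Finset (Ideal (A i))) (m : Ideal (A i) → ℕ), N i →
      CurveData (σi i) S m := by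
    intro i
    by_cases hN : N i
    · obtain ⟨S, m, h⟩ := exists_curveData (k := k) hp hpk (σi i) (hσi i) hN
      exact ⟨S, m, fun _ => h⟩
    · exact ⟨∅, fun _ => 0, fun h => absurd h hN⟩
  choose S m hCD using hdat
  let l : ℕ := ∏ i, ∏ P ∈ S i, if N i then m i P else 1
  have hl : 0 < l := Finset.prod_pos fun i _ => Finset.prod_pos fun P hP => by
    by_cases hN : N i
    · rw [if_pos hN]; exact (hCD i hN).pos P hP
    · rw [if_neg hN]; exact one_pos
  have hdvd : ∀ i, N i → ∀ P ∈ S i, m i P ∣ l := by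
    intro i hN P hP
    have h1 := (Finset.dvd_prod_of_mem (fun P => if N i then m i P else 1) hP).trans
      (Finset.dvd_prod_of_mem (fun i => ∏ P ∈ S i, if N i then m i P else 1) (Finset.mem_univ i))
    simp only [if_pos hN] at h1
    exact h1
  let w : ∀ i, Ideal (A i) → ℕ := fun i P => l / m i P
  have hw : ∀ i, N i → ∀ P ∈ S i, w i P * m i P = l := fun i hN P hP =>
    Nat.div_mul_cancel (hdvd i hN P hP)
  have hw1 : ∀ i, N i → ∀ P ∈ S i, 1 ≤ w i P := fun i hN P hP =>
    Nat.div_pos (Nat.le_of_dvd hl (hdvd i hN P hP)) ((hCD i hN).pos P hP)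
  let L := FractionRing B
  let gB : B →ₐ[k] L := IsScalarTower.toAlgHom k B L
  have hinj : Function.Injective gB := IsFractionRing.injective B L
  let τ : L ≃ₐ[k] L := IsFractionRing.fieldEquivOfAlgEquiv k L L σ
  have hτ : ∀ b, τ (gB b) = gB (σ b) := fun b =>
    IsFractionRing.fieldEquivOfAlgEquiv_algebraMap k L L σ b
  set R := RC gB j N S w with hR
  have hDgen : ∀ (i : ι) (d : ℕ) (a : A i), hm (l : ℤ) 1 * (tl τ (hm d (gB (j i a))) -
      hm d (gB (j i a))) = hm ((d : ℤ) + l) (gB (j i (del (σi i) a))) := by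
    intro i d a
    rw [tl_hm, hτ, hσ, ← hm_sub, hm_mul, one_mul, ← map_sub, ← map_sub, add_comm]
    rfl
  have hD : ∀ f ∈ R, hm l 1 * (tl τ f - f) ∈ R := by
    refine dz_adjoin τ l (GC gB j N S w) (RC_s gB) ?_
    rintro x (hx | ⟨i, d, a, hda, rfl⟩)
    · rw [hx, tl_hm, map_one, sub_self, mul_zero]
      exact Subalgebra.zero_mem _
    · change hm (l : ℤ) 1 * (tl τ (hm (d : ℤ) (gB (j i a))) - hm (d : ℤ) (gB (j i a))) ∈ _
      rw [hDgen]
      by_cases hN : N i
      · have hda' : WG (S i) (w i) d a := by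
          rcases hda with h | h
          · exact h.2
          · rw [h]; exact WG_zero _ _ a
        have h1 := RC_g (j := j) (N := N) gB i (d + l) _
          (Or.inl ⟨hN, WG_del (hCD i hN) (hw i hN) hda'⟩)
        push_cast at h1
        exact h1
      · have h0 : del (σi i) a = 0 := by
          by_contra hcon
          exact hN ⟨a, hcon⟩
        rw [h0, map_zero, map_zero, hm_zero]
        exact Subalgebra.zero_mem _
  refine hasResolution_zp hp hpk σ (prod_iter hj hσi hσ) τ hτ R
    (gr_adjoin _ (GC_hom gB)) (RC_s gB) (RC_b hj gB) (fun f hf d => RC_c gB hf d)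
    (RC_smooth hj hftA hsmA gB hinj hCD hw1 hw hnf) ?_ l hl hD ?_
  · -- elements of positive degree
    obtain ⟨i, hN⟩ := hex
    have h0 : ∏ P ∈ S i, P ≠ ⊥ := by
      have : ∏ P ∈ S i, P ≠ 0 := Finset.prod_ne_zero_iff.2 fun P hP => (hCD i hN).ne P hP
      exact this
    obtain ⟨a, ha, ha0⟩ := Submodule.exists_mem_ne_zero_of_ne_bot h0
    have hWG : WG (S i) (w i) 1 a := by
      intro P hP
      refine ⟨1, by rw [mul_one]; exact hw1 i hN P hP, ?_⟩
      rw [pow_one]
      exact Ideal.le_of_dvd (Finset.dvd_prod_of_mem _ hP) ha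
    refine ⟨1, gB (j i a), one_pos, ?_, RC_g gB i 1 a (Or.inl ⟨hN, hWG⟩)⟩
    intro h
    rw [map_eq_zero_iff gB hinj, map_eq_zero_iff (j i) (hjinj i)] at h
    exact ha0 h
  · intro Q hQ hDQ d a h hd
    refine pos_mem (GC_hom gB) Q ?_ d a h hd
    rintro e b (hb | ⟨i, d', a', hda', hb⟩) he
    · have h1 := congrArg (fun f : LP L => f.coeff (-1)) hb
      change (hm (e : ℤ) b).coeff (-1) = (hm (-1) (1 : L)).coeff (-1) at h1
      rw [coeff_hm, coeff_hm, if_neg (by omega), if_pos rfl] at h1
      exact absurd h1.symm one_ne_zero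
    · by_cases hed : (e : ℤ) = d'
      · have hed' : e = d' := by exact_mod_cast hed
        subst hed'
        have hba := hm_inj hb
        subst hba
        have hNW : N i ∧ WG (S i) (w i) e a' := by
          rcases hda' with h | h
          · exact h
          · omega
        have hN := hNW.1
        exact curve_zero (gB.comp (j i)) (hCD i hN) (hw1 i hN) (hw i hN) R (RC_s gB)
          (fun d a h => RC_g gB i d a (Or.inl ⟨hN, h⟩)) Q hQ (fun d a h h' => by
            have h1 := hDQ _ (RC_g gB i d a (Or.inl ⟨hN, h⟩))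
            have e1 : (⟨hm (l : ℤ) 1 * (tl τ (hm (d : ℤ) (gB (j i a))) - hm (d : ℤ) (gB (j i a))),
                hD _ (RC_g gB i d a (Or.inl ⟨hN, h⟩))⟩ : R) = ⟨_, h'⟩ :=
                  Subtype.ext (hDgen i d a)
            rw [e1] at h1
            exact h1) e a' he hNW.2
      · have h1 := congrArg (fun f : LP L => f.coeff e) hb
        change (hm (e : ℤ) b).coeff e = (hm (d' : ℤ) (gB (j i a'))).coeff e at h1
        rw [coeff_hm, coeff_hm, if_pos rfl, if_neg (fun h => hed h.symm)] at h1
        have e1 : (⟨hm e b, Algebra.subset_adjoin (Or.inr ⟨i, d', a', hda', hb⟩)⟩ :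
            Algebra.adjoin k (GC gB j N S w)) = 0 := by
          apply Subtype.ext
          change hm (e : ℤ) b = 0
          rw [h1, hm_zero]
        rw [e1]
        exact Q.zero_mem

end family

end Pool.Agent.H920R2
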