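import Pool.Agent.H920R2.Fol6

set_option autoImplicit false
set_option linter.unusedSectionVars false

open MvPolynomial AlgebraicGeometry CategoryTheory

universe u v

namespace Pool.Agent.H920R2

section lin

variable {k : Type u} [Field k] {n : ℕ}

/-- The linear vector field given by a matrix. -/
noncomputable def linDer (M : Matrix (Fin n) (Fin n) k) :
    Derivation k (MvPolynomial (Fin n) k) (MvPolynomial (Fin n) k) :=
  mkDerivation k fun i => ∑ j, C (M i j) * X j

lemma linDer_X (M : Matrix (Fin n) (Fin n) k) (i : Fin n) :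
    linDer M (X i) = ∑ j, C (M i j) * X j := mkDerivation_X _ _ _

lemma linDer_lf (M : Matrix (Fin n) (Fin n) k) (w : Fin n → k) :
    linDer M (lf w) = lf (M.vecMulLinear w) := by
  rw [lf_apply, lf_apply, map_sum]
  have h1 : ∀ i, linDer M (C (w i) * X i) = ∑ j, C (w i * M i j) * X j := by
    intro i
    rw [Derivation.leibniz, ← MvPolynomial.algebraMap_eq, Derivation.map_algebraMap, smul_zero,
      add_zero, linDer_X, smul_eq_mul, Finset.mul_sum]
    refine Finset.sum_congr rfl fun j _ => ?_
    rw [MvPolynomial.algebraMap_eq, map_mul, mul_assoc]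
  simp_rw [h1]
  rw [Finset.sum_comm]
  refine Finset.sum_congr rfl fun j _ => ?_
  rw [← Finset.sum_mul, ← map_sum]
  rfl

/-- The endomorphism of the space of linear forms. -/
noncomputable def NM (M : Matrix (Fin n) (Fin n) k) : Module.End k (Fin n → k) := M.vecMulLinear

lemma NM_pow (M : Matrix (Fin n) (Fin n) k) (a : ℕ) (w : Fin n → k) :
    (NM M ^ a) w = (M ^ a).vecMulLinear w := by
  induction a generalizing w with
  | zero => rw [pow_zero, pow_zero, Matrix.vecMulLinear_apply, Matrix.vecMul_one]; rfl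
  | succ a ih =>
    rw [pow_succ', Module.End.mul_apply, ih, pow_succ, Matrix.vecMulLinear_apply,
      Matrix.vecMulLinear_apply, ← Matrix.vecMul_vecMul]
    rfl

lemma linDer_iter_lf (M : Matrix (Fin n) (Fin n) k) (a : ℕ) (w : Fin n → k) :
    (linDer M)^[a] (lf w) = lf ((NM M ^ a) w) := by
  induction a with
  | zero => rfl
  | succ a ih =>
    rw [Function.iterate_succ_apply', ih, linDer_lf, pow_succ', Module.End.mul_apply]
    rfl

lemma linDer_closed {p : ℕ} (hp : p.Prime) (hpk : (p : k) = 0) (M : Matrix (Fin n) (Fin n) k)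
    (c : k) (hM : M ^ p = c • M) (b : MvPolynomial (Fin n) k) :
    (linDer M)^[p] b = C c * linDer M b := by
  have hX : ∀ i : Fin n, (linDer M)^[p] (X i) = C c * linDer M (X i) := by
    intro i
    rw [← lf_single, linDer_iter_lf, linDer_lf, NM_pow, hM]
    have h1 : (c • M).vecMulLinear (Pi.single i 1) = c • M.vecMulLinear (Pi.single i 1) := by
      rw [Matrix.vecMulLinear_apply, Matrix.vecMulLinear_apply, Matrix.vecMul_smul]
    rw [h1, map_smul, smul_eq_C_mul]
  induction b using MvPolynomial.induction_on with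
  | C a =>
    obtain ⟨m, rfl⟩ : ∃ m, p = m + 1 := ⟨p - 1, by have := hp.pos; omega⟩
    rw [Function.iterate_succ_apply, ← MvPolynomial.algebraMap_eq, Derivation.map_algebraMap,
      iter_zero, mul_zero]
  | add f g hf hg => rw [iter_add, hf, hg, map_add, mul_add]
  | mul_X f i hf =>
    rw [iterate_p_mul hp hpk, hf, hX, Derivation.leibniz, smul_eq_mul, smul_eq_mul]
    ring

/-- Resolution of the quotient by a linear vector field, by means of a filtration. -/
theorem hasResolution_filt {p : ℕ} (hp : p.Prime) (hpk : (p : k) = 0)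
    (M : Matrix (Fin n) (Fin n) k) (c : k) (hM : M ^ p = c • M)
    (F : ℕ → Submodule k (Fin n → k)) (hF : ∀ a, F (a + 1) ≤ F a) (q : ℕ)
    (h0 : F 0 = ⊤) (hq : F q = ⊥) (l : ℕ) (h1 : ∀ a v, v ∈ F a → NM M v ∈ F (a + l))
    (h2 : ∀ a v, 0 < a → v ∈ F a → ∃ a' v', v' ∈ F a' ∧ a' + l = a ∧ NM M v' = v)
    (h3 : ∃ a v, 0 < a ∧ v ∈ F a ∧ v ≠ 0) :
    HasResolution (X := Spec (CommRingCat.of (kerAlg (linDer M))))
      (Spec.map (CommRingCat.ofHom (algebraMap k (kerAlg (linDer M))))) := by
  classical
  let B := MvPolynomial (Fin n) k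
  let L := FractionRing B
  let gB : B →ₐ[k] L := IsScalarTower.toAlgHom k B L
  have hinj : Function.Injective gB := IsFractionRing.injective B L
  obtain ⟨E', hE'⟩ := exists_der_frac (linDer M)
  have hG : ∀ x ∈ RG F, ∃ d a, x = hm d a := by
    rintro x (hx | ⟨a, v, -, rfl⟩)
    · exact ⟨_, _, hx⟩
    · exact ⟨_, _, rfl⟩
  have hmem : ∀ (a : ℕ) v, v ∈ F a → hm a (algebraMap B L (lf v)) ∈ RF F := fun a v hv =>
    Algebra.subset_adjoin (Or.inr ⟨a, v, hv, rfl⟩)
  have hT : hm (-1) 1 ∈ RF F := Algebra.subset_adjoin (Or.inl rfl)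
  have hgenD : ∀ (a : ℕ) v, tlD E' l (hm a (algebraMap B L (lf v))) =
      hm ((a + l : ℕ) : ℤ) (algebraMap B L (lf (NM M v))) := by
    intro a v
    rw [tlD_hm, hE', linDer_lf]
    push_cast
    rfl
  have hD : ∀ f ∈ RF F, tlD E' l f ∈ RF F := by
    intro f hf
    unfold RF at hf
    induction hf using Algebra.adjoin_induction with
    | mem x hx =>
      rcases hx with hx | ⟨a, v, hv, rfl⟩
      · rw [hx, tlD_hm, Derivation.map_one_eq_zero, hm_zero]
        exact Subalgebra.zero_mem _
      · rw [hgenD]
        exact hmem _ _ (h1 a v hv)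
    | algebraMap r => rw [Derivation.map_algebraMap]; exact Subalgebra.zero_mem _
    | add x y _ _ hx hy => rw [map_add]; exact Subalgebra.add_mem _ hx hy
    | mul x y hx' hy' hx hy =>
      rw [Derivation.leibniz]
      exact Subalgebra.add_mem _ (Subalgebra.mul_mem _ hx' hy) (Subalgebra.mul_mem _ hy' hx)
  refine hasResolution_fol hp hpk (linDer M) (algebraMap B L (C c)) ?_ E' hE' (RF F)
    (gr_adjoin _ hG) hT ?_ ?_ (smooth_RF F hF q h0 hq) ?_ l hD ?_
  · intro b
    rw [linDer_closed hp hpk M c hM, map_mul]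
  · intro b
    have hb : b ∈ Algebra.adjoin k (Set.range (lf : (Fin n → k) →ₗ[k] B)) := by
      rw [adjoin_lf]; trivial
    induction hb using Algebra.adjoin_induction with
    | mem b hb =>
      obtain ⟨v, rfl⟩ := hb
      exact hmem 0 v (by rw [h0]; trivial)
    | algebraMap r =>
      rw [← IsScalarTower.algebraMap_apply k B L]
      exact Subalgebra.algebraMap_mem _ r
    | add x y _ _ hx hy => rw [map_add, hm_add]; exact Subalgebra.add_mem _ hx hy
    | mul x y _ _ hx hy =>
      have h := Subalgebra.mul_mem _ hx hy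
      rw [hm_mul, ← map_mul, add_zero] at h
      exact h
  · intro f hf d
    have h4 : RF F ≤ cfSub gB.range := by
      unfold RF RG
      rw [Algebra.adjoin_le_iff]
      rintro f (hf | ⟨a, v, -, rfl⟩) d
      · rw [hf, coeff_hm]
        split_ifs
        · exact Subalgebra.one_mem _
        · exact Subalgebra.zero_mem _
      · rw [coeff_hm]
        split_ifs
        · exact ⟨_, rfl⟩
        · exact Subalgebra.zero_mem _
    obtain ⟨b, hb⟩ := h4 hf d
    exact ⟨b, hb.symm⟩
  · obtain ⟨a, v, ha, hv, hv0⟩ := h3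
    refine ⟨a, algebraMap B L (lf v), ha, ?_, hmem a v hv⟩
    intro h
    apply hv0
    apply lf_injective
    apply hinj
    rw [map_zero, map_zero]
    exact h
  · intro Q hQ hDQ d a h hd
    refine pos_mem hG Q ?_ d a h hd
    rintro d a hda hd'
    rcases hda with hda | ⟨a', v, hv, hda⟩
    · exfalso
      have h4 := congrArg (fun f => f.coeff (-1)) hda
      simp only [coeff_hm_same] at h4
      rw [coeff_hm, if_neg (by omega)] at h4
      exact zero_ne_one h4
    · by_cases ha0 : a = 0
      · have e1 : (⟨hm d a, Algebra.subset_adjoin (Or.inr ⟨a', v, hv, hda⟩)⟩ :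
            Algebra.adjoin k (RG F)) = 0 := by
          apply Subtype.ext
          change hm (d : ℤ) a = 0
          rw [ha0, hm_zero]
        rw [e1]
        exact Q.zero_mem
      · have hdd : d = a' := by
          have h4 := congrArg (fun f => f.coeff (d : ℤ)) hda
          simp only [coeff_hm_same] at h4
          rw [coeff_hm] at h4
          by_contra hne
          rw [if_neg (fun h => hne (by exact_mod_cast h.symm))] at h4
          exact ha0 h4
        subst hdd
        obtain ⟨a'', v', hv', he, hNv⟩ := h2 d v hd' hv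
        have h5 := hDQ _ (hmem a'' v' hv')
        have e1 : (⟨hm d a, Algebra.subset_adjoin (Or.inr ⟨d, v, hv, hda⟩)⟩ :
            Algebra.adjoin k (RG F)) = ⟨tlD E' l (hm a'' (algebraMap B L (lf v'))),
              hD _ (hmem a'' v' hv')⟩ := by
          apply Subtype.ext
          change hm (d : ℤ) a = tlD E' l (hm a'' (algebraMap B L (lf v')))
          rw [hgenD, he, hNv]
          exact hda
        rw [e1]
        exact h5

/-- **Quotients by linear `p`-closed vector fields.** -/
theorem hasResolution_linDer {p : ℕ} (hp : p.Prime) (hpk : (p : k) = 0)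
    (M : Matrix (Fin n) (Fin n) k) (c : k) (hM : M ^ p = c • M) :
    HasResolution (X := Spec (CommRingCat.of (kerAlg (linDer M))))
      (Spec.map (CommRingCat.ofHom (algebraMap k (kerAlg (linDer M))))) := by
  classical
  by_cases hN : NM M = 0
  · have h1 : kerAlg (linDer M) = ⊤ := by
      rw [eq_top_iff, ← adjoin_lf, Algebra.adjoin_le_iff]
      rintro _ ⟨w, rfl⟩
      change linDer M (lf w) = 0
      rw [linDer_lf]
      have h2 : M.vecMulLinear w = NM M w := rfl
      rw [h2, hN, LinearMap.zero_apply, map_zero]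
    rw [h1]
    have hB : Algebra.Smooth k (MvPolynomial (Fin n) k) := by
      constructor
      · infer_instance
      · infer_instance
    exact hasResolution_congr
      (Subalgebra.topEquiv (R := k) (A := MvPolynomial (Fin n) k)).symm hasResolution_of_smooth
  have hNne : ∃ v, NM M v ≠ 0 := by
    by_contra hcon
    push Not at hcon
    exact hN (LinearMap.ext hcon)
  obtain ⟨v0, hv0⟩ := hNne
  have hNp : NM M ^ p = c • NM M := by
    refine LinearMap.ext fun w => ?_
    rw [NM_pow, hM]
    change (c • M).vecMulLinear w = c • M.vecMulLinear w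
    rw [Matrix.vecMulLinear_apply, Matrix.vecMulLinear_apply, Matrix.vecMul_smul]
  by_cases hc : c = 0
  · subst hc
    rw [zero_smul] at hNp
    refine hasResolution_filt hp hpk M 0 hM (fun a => LinearMap.range (NM M ^ a)) ?_ p ?_ ?_ 1
      ?_ ?_ ?_
    · intro a
      rintro _ ⟨x, rfl⟩
      exact ⟨NM M x, by rw [pow_succ, Module.End.mul_apply]⟩
    · change LinearMap.range (NM M ^ 0) = ⊤
      rw [pow_zero]
      exact LinearMap.range_id
    · change LinearMap.range (NM M ^ p) = ⊥
      rw [hNp]
      exact LinearMap.range_zero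
    · rintro a _ ⟨x, rfl⟩
      exact ⟨x, by rw [pow_succ', Module.End.mul_apply]⟩
    · rintro a _ ha ⟨x, rfl⟩
      obtain ⟨b, rfl⟩ : ∃ b, a = b + 1 := ⟨a - 1, by omega⟩
      exact ⟨b, (NM M ^ b) x, ⟨x, rfl⟩, rfl, by rw [pow_succ', Module.End.mul_apply]⟩
    · exact ⟨1, NM M v0, one_pos, ⟨v0, by rw [pow_one]⟩, hv0⟩
  · refine hasResolution_filt hp hpk M c hM (fun a => if a = 0 then ⊤ else
      if a = 1 then LinearMap.range (NM M) else ⊥) ?_ 2 ?_ ?_ 0 ?_ ?_ ?_
    · intro a
      by_cases h0 : a = 0
      · subst h0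
        rw [if_pos rfl]
        exact le_top
      · rw [if_neg (by omega), if_neg (by omega)]
        exact bot_le
    · exact if_pos rfl
    · rw [if_neg (by omega), if_neg (by omega)]
    · intro a v hv
      rw [add_zero]
      by_cases h0 : a = 0
      · rw [if_pos h0]; trivial
      · rw [if_neg h0] at hv ⊢
        by_cases h1 : a = 1
        · rw [if_pos h1]
          exact ⟨v, rfl⟩
        · rw [if_neg h1, Submodule.mem_bot] at hv
          rw [if_neg h1, hv, map_zero]
          exact Submodule.zero_mem _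
    · intro a v ha hv
      rw [if_neg (by omega)] at hv
      by_cases h1 : a = 1
      · subst h1
        rw [if_pos rfl] at hv
        obtain ⟨x, rfl⟩ := hv
        refine ⟨1, c⁻¹ • (NM M ^ (p - 1)) x, ?_, rfl, ?_⟩
        · rw [if_neg (by omega), if_pos rfl]
          obtain ⟨m, hm⟩ : ∃ m, p - 1 = m + 1 := ⟨p - 2, by have := hp.two_le; omega⟩
          refine Submodule.smul_mem _ _ ⟨(NM M ^ m) x, ?_⟩
          rw [hm, pow_succ', Module.End.mul_apply]
        · rw [map_smul, ← Module.End.mul_apply, ← pow_succ', Nat.sub_add_cancel hp.one_lt.le,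
            hNp, LinearMap.smul_apply, smul_smul, inv_mul_cancel₀ hc, one_smul]
      · rw [if_neg h1, Submodule.mem_bot] at hv
        subst hv
        refine ⟨a, 0, ?_, rfl, map_zero _⟩
        rw [if_neg (by omega), if_neg h1]
        exact Submodule.zero_mem _
    · refine ⟨1, NM M v0, one_pos, ?_, hv0⟩
      rw [if_neg (by omega), if_pos rfl]
      exact ⟨v0, rfl⟩

lemma finiteType_kerAlg {p : ℕ} (hp : p.Prime) (hpk : (p : k) = 0) {B : Type u} [CommRing B]
    [IsDomain B] [Algebra k B] [Algebra.FiniteType k B] (E : Derivation k B B) :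
    Algebra.FiniteType k (kerAlg E) := by
  have hpB : ((p : ℕ) : B) = 0 := by rw [← map_natCast (algebraMap k B), hpk, map_zero]
  have h1 : Algebra.IsIntegral (kerAlg E) B := by
    constructor
    intro b
    have hb : b ^ p ∈ kerAlg E := by
      rw [mem_kerAlg, Derivation.leibniz_pow, nsmul_eq_mul, hpB, zero_mul]
    refine ⟨Polynomial.X ^ p - Polynomial.C ⟨b ^ p, hb⟩, Polynomial.monic_X_pow_sub_C _ hp.ne_zero,
      ?_⟩
    rw [Polynomial.eval₂_sub, Polynomial.eval₂_pow, Polynomial.eval₂_X, Polynomial.eval₂_C]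
    exact sub_self _
  have h2 : Algebra.FiniteType (kerAlg E) B := by
    apply Algebra.FiniteType.of_restrictScalars_finiteType k
  have h3 : Module.Finite (kerAlg E) B := Algebra.IsIntegral.finite
  refine ⟨?_⟩
  refine fg_of_fg_of_fg k (kerAlg E) B ?_ h3.1 ?_
  · exact (inferInstance : Algebra.FiniteType k B).1
  · exact Subtype.val_injective

end lin

end Pool.Agent.H920R2
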