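import Pool.Agent.H920R2.Cu10
import Pool.Agent.H920R2.Fol7

set_option autoImplicit false
set_option linter.unusedSectionVars false

open Polynomial

universe u v

namespace Pool.Agent.H920R2

section der

variable {k A : Type u} [Field k] [CommRing A] [IsDedekindDomain A] [Algebra k A]
  (E : Derivation k A A)

/-- The derivatives of the elements of a power of a prime ideal of zeros. -/
lemma der_pow_mem (P : Ideal A) (n : ℕ) (hn : ∀ a, E a ∈ P ^ (n + 1)) (c : ℕ) :
    ∀ a ∈ P ^ c, E a ∈ P ^ (c + n) := by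
  induction c with
  | zero =>
    intro a _
    rw [zero_add]
    exact Ideal.pow_le_pow_right (Nat.le_succ n) (hn a)
  | succ c ih =>
    intro a ha
    rw [pow_succ'] at ha
    refine Submodule.mul_induction_on ha ?_ ?_
    · intro x hx y hy
      rw [Derivation.leibniz, smul_eq_mul, smul_eq_mul]
      have e : c + 1 + n = 1 + (c + n) := by ring
      have e' : c + 1 + n = c + (n + 1) := by ring
      refine Ideal.add_mem _ ?_ ?_
      · rw [e, pow_add, pow_one]
        exact Ideal.mul_mem_mul hx (ih y hy)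
      · rw [e', pow_add]
        exact Ideal.mul_mem_mul hy (hn x)
    · intro x y hx hy
      rw [map_add]
      exact Ideal.add_mem _ hx hy

/-- If the derivatives of all elements are in the `n`-th power of a prime ideal, and the
derivative of a uniformizer in the next power, then so are all derivatives. -/
lemma der_lift (P : Ideal A) [hPm : P.IsMaximal] (hsep : ∀ a : A, ∃ F : k[X], aeval a F ∈ P ∧
    aeval a (derivative F) ∉ P) {t f : A} (hf : f ∉ P) (hft : ∀ b ∈ P, t ∣ f * b)
    {n : ℕ} (hdel : ∀ a, E a ∈ P ^ n) (ht : t ∈ P)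
    (hdt : E t ∈ P ^ (n + 1)) : ∀ a, E a ∈ P ^ (n + 1) := by
  have hP : ∀ b ∈ P, E b ∈ P ^ (n + 1) := by
    intro b hb
    obtain ⟨c, hc⟩ := hft b hb
    have h1 : E (f * b) = E (t * c) := by rw [hc]
    rw [Derivation.leibniz, Derivation.leibniz, smul_eq_mul, smul_eq_mul, smul_eq_mul,
      smul_eq_mul] at h1
    have h2 : f * E b = c * E t + t * E c - b * E f := by linear_combination h1
    have h3 : f * E b ∈ P ^ (n + 1) := by
      rw [h2]
      refine Ideal.sub_mem _ (Ideal.add_mem _ (Ideal.mul_mem_left _ _ hdt) ?_) ?_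
      · rw [pow_succ']
        exact Ideal.mul_mem_mul ht (hdel c)
      · rw [pow_succ']
        exact Ideal.mul_mem_mul hb (hdel f)
    exact (Ideal.IsMaximal.mul_mem_pow P h3).resolve_left hf
  intro a
  obtain ⟨F, hF, hF'⟩ := hsep a
  have h1 := hP _ hF
  rw [Derivation.map_aeval, smul_eq_mul] at h1
  exact (Ideal.IsMaximal.mul_mem_pow P h1).resolve_left hF'

/-- The iterated derivatives of a uniformizer at a zero. -/
lemma der_iter (P : Ideal A) {t f c : A} (ht : t ∈ P) (hfc : f * E t = t * c)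
    (hdel : ∀ a, E a ∈ P) (n : ℕ) : f ^ n * E^[n] t - c ^ n * t ∈ P ^ 2 := by
  have hE2 : ∀ b ∈ P ^ 2, E b ∈ P ^ 2 := by
    intro b hb
    have := der_pow_mem E P 0 (fun a => by rw [zero_add, pow_one]; exact hdel a) 2 b hb
    exact this
  have hjP : ∀ j : ℕ, E^[j] t ∈ P := by
    intro j
    cases j with
    | zero => exact ht
    | succ j => rw [Function.iterate_succ_apply']; exact hdel _
  induction n with
  | zero => simp
  | succ n ih =>
    have h1 := hE2 _ ih
    rw [map_sub, Derivation.leibniz, Derivation.leibniz, smul_eq_mul, smul_eq_mul, smul_eq_mul,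
      smul_eq_mul, ← Function.iterate_succ_apply' E] at h1
    have h2 : f ^ (n + 1) * E^[n + 1] t - c ^ (n + 1) * t =
        f * (f ^ n * E^[n + 1] t + E^[n] t * E (f ^ n) - (c ^ n * E t + t * E (c ^ n))) -
          f * (E^[n] t * E (f ^ n)) + f * (t * E (c ^ n)) + c ^ n * (f * E t - t * c) := by ring
    rw [h2, hfc, sub_self, mul_zero, add_zero]
    refine Ideal.add_mem _ (Ideal.sub_mem _ (Ideal.mul_mem_left _ _ h1)
      (Ideal.mul_mem_left _ _ ?_)) (Ideal.mul_mem_left _ _ ?_)
    · rw [pow_two]; exact Ideal.mul_mem_mul (hjP n) (hdel _)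
    · rw [pow_two]; exact Ideal.mul_mem_mul ht (hdel _)

/-- Additive vector fields have multiple zeros. -/
lemma der_wild {p : ℕ} (hE : ∀ a, E^[p] a = 0) (P : Ideal A) [hPm : P.IsMaximal]
    (hsep : ∀ a : A, ∃ F : k[X], aeval a F ∈ P ∧ aeval a (derivative F) ∉ P)
    {t f : A} (hf : f ∉ P) (hft : ∀ b ∈ P, t ∣ f * b)
    (ht : t ∈ P) (ht' : t ∉ P ^ 2) (hdel : ∀ a, E a ∈ P) : ∀ a, E a ∈ P ^ 2 := by
  obtain ⟨c, hc⟩ := hft _ (hdel t)
  have h1 := der_iter E P ht hc hdel p
  rw [hE, mul_zero, zero_sub, neg_mem_iff] at h1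
  have h2 : c ∈ P := by
    by_contra hcon
    exact ht' ((Ideal.IsMaximal.mul_mem_pow P h1).resolve_left
      fun h => hcon (hPm.isPrime.mem_of_pow_mem _ h))
  have hdt : E t ∈ P ^ (1 + 1) := by
    have h3 : f * E t ∈ P ^ 2 := by
      rw [hc, pow_two]
      exact Ideal.mul_mem_mul ht h2
    exact (Ideal.IsMaximal.mul_mem_pow P h3).resolve_left hf
  exact der_lift E P hsep hf hft (fun a => by rw [pow_one]; exact hdel a) ht hdt

/-- Multiplicative vector fields have simple zeros. -/
lemma der_tame {p : ℕ} (hp : p.Prime) {c : k} (hc : c ≠ 0)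
    (hE : ∀ a, E^[p] a = algebraMap k A c * E a) (hne : ∃ a, E a ≠ 0)
    (P : Ideal A) [hPm : P.IsMaximal] (hdel : ∀ a, E a ∈ P ^ 2) : False := by
  have hstep : ∀ n, 1 ≤ n → (∀ a, E a ∈ P ^ (n + 1)) → ∀ a, E a ∈ P ^ (n + 1 + 1) := by
    intro n hn h a
    have h1 : ∀ j : ℕ, ∀ a, E^[j + 1] a ∈ P ^ (n + 1 + j * n) := by
      intro j
      induction j with
      | zero => intro a; rw [zero_mul, add_zero]; exact h a
      | succ j ih =>
        intro a
        rw [Function.iterate_succ_apply']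
        have := der_pow_mem E P n h _ _ (ih a)
        have e : n + 1 + j * n + n = n + 1 + (j + 1) * n := by ring
        rwa [e] at this
    have h2 := h1 (p - 1) a
    rw [Nat.sub_add_cancel hp.one_lt.le, hE] at h2
    have h3 : P ^ (n + 1 + (p - 1) * n) ≤ P ^ (n + 1 + 1) := by
      apply Ideal.pow_le_pow_right
      have : 1 ≤ (p - 1) * n := Nat.mul_pos (Nat.sub_pos_of_lt hp.one_lt) hn
      omega
    have h4 := h3 h2
    have h5 : E a = algebraMap k A c⁻¹ * (algebraMap k A c * E a) := by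
      rw [← mul_assoc, ← map_mul, inv_mul_cancel₀ hc, map_one, one_mul]
    rw [h5]
    exact Ideal.mul_mem_left _ _ h4
  have hall : ∀ n, ∀ a, E a ∈ P ^ (n + 2) := by
    intro n
    induction n with
    | zero => exact hdel
    | succ n ih => exact hstep (n + 1) (by omega) ih
  obtain ⟨a, ha⟩ := hne
  apply ha
  have h1 := Ideal.iInf_pow_eq_bot_of_isDomain P hPm.ne_top
  rw [← Ideal.mem_bot, ← h1, Ideal.mem_iInf]
  exact fun n => Ideal.pow_le_pow_right (by omega) (hall n a)

end der

section data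

variable {k A : Type u} [Field k] [CommRing A] [IsDedekindDomain A] [Algebra k A]

/-- The zeros of a vector field on a curve and their multiplicities minus one. -/
structure CurveDer (E : Derivation k A A) (S : Finset (Ideal A)) (m : Ideal A → ℕ) : Prop where
  max : ∀ P ∈ S, P.IsMaximal
  ne : ∀ P ∈ S, P ≠ ⊥
  dl : ∀ P ∈ S, ∀ a, E a ∈ P ^ (m P + 1)
  ex : ∀ P ∈ S, ∀ t ∈ P, t ∉ P ^ 2 → E t ∉ P ^ (m P + 2)
  mem : ∀ P : Ideal A, P.IsPrime → (∀ a, E a ∈ P) → P ∈ S

/-- Existence of the data. -/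
theorem exists_curveDer [PerfectField k] [Algebra.FiniteType k A] (E : Derivation k A A)
    (hne : ∃ a, E a ≠ 0) :
    ∃ (S : Finset (Ideal A)) (m : Ideal A → ℕ), CurveDer E S m := by
  classical
  let I : Ideal A := Ideal.span (Set.range E)
  have hI0 : I ≠ ⊥ := by
    obtain ⟨a, ha⟩ := hne
    intro h
    apply ha
    have h1 : E a ∈ I := Ideal.subset_span ⟨a, rfl⟩
    rw [h] at h1
    exact h1
  have hfin := Ideal.finite_factors (R := A) hI0
  let S : Finset (Ideal A) := hfin.toFinset.image fun v => v.asIdeal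
  have hS : ∀ P : Ideal A, P ∈ S ↔ P.IsPrime ∧ I ≤ P := by
    intro P
    constructor
    · intro h
      obtain ⟨v, hv, rfl⟩ := Finset.mem_image.1 h
      refine ⟨v.isPrime, ?_⟩
      have h1 := (Set.Finite.mem_toFinset hfin).1 hv
      exact Ideal.le_of_dvd h1
    · rintro ⟨hP, hle⟩
      have hP0 : P ≠ ⊥ := by
        intro h
        rw [h, le_bot_iff] at hle
        exact hI0 hle
      refine Finset.mem_image.2 ⟨⟨P, hP, hP0⟩, ?_, rfl⟩
      rw [Set.Finite.mem_toFinset]
      exact Ideal.dvd_iff_le.2 hle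
  have hP0 : ∀ P ∈ S, P ≠ ⊥ := by
    intro P hP h
    have hle := ((hS P).1 hP).2
    rw [h, le_bot_iff] at hle
    exact hI0 hle
  have hmax : ∀ P ∈ S, P.IsMaximal := fun P hP => ((hS P).1 hP).1.isMaximal (hP0 P hP)
  have hex : ∀ P ∈ S, ∃ n, ¬ I ≤ P ^ (n + 2) := by
    intro P hP
    by_contra hcon
    push Not at hcon
    have h1 := Ideal.iInf_pow_eq_bot_of_isDomain P (hmax P hP).ne_top
    apply hI0
    rw [← le_bot_iff, ← h1]
    refine le_iInf fun n => ?_
    exact (hcon n).trans (Ideal.pow_le_pow_right (by omega))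
  let m : Ideal A → ℕ := fun P => if h : P ∈ S then Nat.find (hex P h) else 0
  have hm : ∀ (P) (h : P ∈ S), m P = Nat.find (hex P h) := fun P h => dif_pos h
  have hmle : ∀ P ∈ S, I ≤ P ^ (m P + 1) := by
    intro P hP
    rw [hm P hP]
    rcases Nat.eq_zero_or_pos (Nat.find (hex P hP)) with h | h
    · rw [h, zero_add, pow_one]; exact ((hS P).1 hP).2
    · have h1 := Nat.find_min (hex P hP) (m := Nat.find (hex P hP) - 1) (by omega)
      rw [not_not] at h1
      have e : Nat.find (hex P hP) - 1 + 2 = Nat.find (hex P hP) + 1 := by omega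
      rwa [e] at h1
  have hmnle : ∀ P ∈ S, ¬ I ≤ P ^ (m P + 2) := by
    intro P hP
    rw [hm P hP]
    exact Nat.find_spec (hex P hP)
  refine ⟨S, m, ⟨hmax, hP0, ?_, ?_, ?_⟩⟩
  · intro P hP a
    exact hmle P hP (Ideal.subset_span ⟨a, rfl⟩)
  · intro P hP t ht ht' h
    have _ := hmax P hP
    obtain ⟨f, hf, hft⟩ := exists_den P t ht ht'
    apply hmnle P hP
    have h1 := der_lift E P (exists_sep P (hmax P hP)) hf hft (n := m P + 1)
      (fun a => hmle P hP (Ideal.subset_span ⟨a, rfl⟩)) ht h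
    rw [Ideal.span_le]
    rintro _ ⟨a, rfl⟩
    exact h1 a
  · intro P hP h
    rw [hS]
    refine ⟨hP, ?_⟩
    rw [Ideal.span_le]
    rintro _ ⟨a, rfl⟩
    exact h a

/-- The multiplicities of the zeros. -/
theorem CurveDer.mult [PerfectField k] [Algebra.FiniteType k A] {p : ℕ} (hp : p.Prime)
    {E : Derivation k A A} {S : Finset (Ideal A)} {m : Ideal A → ℕ} (h : CurveDer E S m)
    (hne : ∃ a, E a ≠ 0) (c : k) (hE : ∀ a, E^[p] a = algebraMap k A c * E a) :
    (c = 0 → ∀ P ∈ S, 1 ≤ m P) ∧ (c ≠ 0 → ∀ P ∈ S, m P = 0) := by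
  constructor
  · intro hc P hP
    by_contra hcon
    have h0 : m P = 0 := by omega
    have _ := h.max P hP
    obtain ⟨t, ht, ht', -⟩ := exists_unif {P} (fun P' h' => by
      rw [Finset.mem_singleton] at h'; rw [h']; exact ⟨(h.max P hP).isPrime, h.ne P hP⟩) P
      (Finset.mem_singleton_self P) 1
    obtain ⟨f, hf, hft⟩ := exists_den P t ht ht'
    have h1 := der_wild E (p := p) (fun a => by rw [hE, hc, map_zero, zero_mul]) P
      (exists_sep P (h.max P hP)) hf hft ht ht' (fun a => by
        have := h.dl P hP a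
        rwa [h0, zero_add, pow_one] at this)
    have h2 := h.ex P hP t ht ht'
    rw [h0, zero_add] at h2
    exact h2 (h1 t)
  · intro hc P hP
    by_contra hcon
    have _ := h.max P hP
    exact der_tame E hp hc hE hne P fun a =>
      Ideal.pow_le_pow_right (by omega) (h.dl P hP a)

end data

end Pool.Agent.H920R2
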