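import Pool.Agent.H920R2.Cv1

set_option autoImplicit false
set_option linter.unusedSectionVars false

open MvPolynomial AlgebraicGeometry CategoryTheory

universe u v

namespace Pool.Agent.H920R2

section curve

variable {k A : Type u} [Field k] [CommRing A] [IsDedekindDomain A] [Algebra k A]

lemma WG_der {E : Derivation k A A} {S : Finset (Ideal A)} {m w : Ideal A → ℕ} {l : ℕ}
    (h : CurveDer E S m) (hw : ∀ P ∈ S, w P * m P = l) {d : ℕ} {a : A} (ha : WG S w d a) :
    WG S w (d + l) (E a) := by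
  intro P hP
  obtain ⟨c, hdc, hac⟩ := ha P hP
  refine ⟨c + m P, ?_, der_pow_mem E P (m P) (h.dl P hP) c a hac⟩
  rw [mul_add, hw P hP]
  omega

variable {L : Type u} [Field L] [Algebra k L] (gA : A →ₐ[k] L) {E : Derivation k A A}
  {S : Finset (Ideal A)} {m w : Ideal A → ℕ} {l : ℕ}
  (h : CurveDer E S m) (hw1 : ∀ P ∈ S, 1 ≤ w P) (hw : ∀ P ∈ S, w P * m P = l)
  (R : Subalgebra k (LP L)) (hs : hm (-1) 1 ∈ R)
  (hgen : ∀ (d : ℕ) a, WG S w d a → hm d (gA a) ∈ R) (Q : Ideal R) (hQ : Q.IsPrime)

include h hw1 hQ in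
/-- The primes which contain the equation of the exceptional divisor lie over fixed points. -/
lemma curve_primeD (hsQ : (⟨hm (-1) 1, hs⟩ : R) ∈ Q) : Q.comap (i0 gA R hgen) ∈ S := by
  classical
  have hq : (Q.comap (i0 gA R hgen)).IsPrime := hQ.comap _
  have h1 : ∏ P ∈ S, P ≤ Q.comap (i0 gA R hgen) := by
    intro a ha
    have hWG : WG S w 1 a := by
      intro P hP
      refine ⟨1, by rw [mul_one]; exact hw1 P hP, ?_⟩
      rw [pow_one]
      exact Ideal.le_of_dvd (Finset.dvd_prod_of_mem _ hP) ha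
    have h2 : i0 gA R hgen a = (⟨hm (-1) 1, hs⟩ : R) * ⟨hm (1 : ℕ) (gA a), hgen 1 a hWG⟩ := by
      apply Subtype.ext
      change hm 0 (gA a) = hm (-1) 1 * hm ((1 : ℕ) : ℤ) (gA a)
      rw [hm_mul, one_mul]
      norm_num
    rw [Ideal.mem_comap, h2]
    exact Q.mul_mem_right _ hsQ
  obtain ⟨P, hP, hle⟩ := (hq.prod_le).1 h1
  have := (h.max P hP).eq_of_le hq.ne_top hle
  rw [← this]
  exact hP

include h hw1 hw hQ hs in
/-- The zeros of the difference operator lie in the vertex. -/
theorem curve_zeroD (hDQ : ∀ (d : ℕ) a (h : WG S w d a)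
      (h' : hm ((d : ℤ) + l) (gA (E a)) ∈ R), (⟨_, h'⟩ : R) ∈ Q)
    (d : ℕ) (a : A) (hd : 1 ≤ d) (ha : WG S w d a) :
    (⟨hm d (gA a), hgen d a ha⟩ : R) ∈ Q := by
  classical
  set s : R := ⟨hm (-1) 1, hs⟩ with hsdef
  have hq : (Q.comap (i0 gA R hgen)).IsPrime := hQ.comap _
  have hDmem : ∀ (d : ℕ) a (h : WG S w d a), hm ((d : ℤ) + l) (gA (E a)) ∈ R := by
    intro d a hda
    have h1 := hgen (d + l) _ (WG_der h hw hda)
    push_cast at h1
    exact h1
  by_cases hsQ : s ∈ Q
  · -- the special fibre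
    have hPS := curve_primeD gA h hw1 R hs hgen Q hQ hsQ
    set P := Q.comap (i0 gA R hgen) with hP
    have hmax := h.max P hPS
    obtain ⟨t, ht, ht', htP⟩ := exists_unif S (fun P' hP' => ⟨(h.max P' hP').isPrime, h.ne P' hP'⟩)
      P hPS (w P)
    have hWt : WG S w (w P) t := by
      intro P' hP'
      by_cases hne : P' = P
      · refine ⟨1, by rw [hne, mul_one], ?_⟩
        rw [hne, pow_one]
        exact ht
      · refine ⟨w P, ?_, htP P' hP' hne⟩
        exact Nat.le_mul_of_pos_left _ (hw1 P' hP')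
    obtain ⟨f, hf, hft⟩ := exists_den P t ht ht'
    set n := m P + 1 with hn
    have hdt := h.dl P hPS t
    obtain ⟨g, hg⟩ := exists_den_pow P hft n _ hdt
    have hgP : g ∉ P := by
      intro hgP
      have h1 : f ^ n * E t ∈ P ^ (n + 1) := by
        rw [hg, pow_succ]
        exact Ideal.mul_mem_mul (Ideal.pow_mem_pow ht n) hgP
      rcases Ideal.IsMaximal.mul_mem_pow P h1 with h2 | h2
      · exact hf (hmax.isPrime.mem_of_pow_mem _ h2)
      · exact h.ex P hPS t ht ht' h2
    let T : R := ⟨hm (w P) (gA t), hgen _ _ hWt⟩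
    have hTQ : T ∈ Q := by
      have h1 := hDQ (w P) t hWt (hDmem _ _ hWt)
      have h2 : i0 gA R hgen (f ^ n) * ⟨_, hDmem _ _ hWt⟩ = i0 gA R hgen g * T ^ n := by
        apply Subtype.ext
        change hm 0 (gA (f ^ n)) * hm ((w P : ℤ) + l) (gA (E t)) =
          hm 0 (gA g) * hm (w P) (gA t) ^ n
        rw [hm_mul, hm_pow, hm_mul, ← map_mul, ← map_pow, ← map_mul, hg]
        have e1 : (0 : ℤ) + ((w P : ℤ) + l) = 0 + (n : ℤ) * (w P : ℤ) := by
          rw [← hw P hPS, hn]
          push_cast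
          ring
        rw [e1, mul_comm (t ^ n) g]
      have h3 : i0 gA R hgen g * T ^ n ∈ Q := by
        rw [← h2]
        exact Q.mul_mem_left _ h1
      rcases hQ.mem_or_mem h3 with h4 | h4
      · exact absurd h4 hgP
      · exact hQ.mem_of_pow_mem _ h4
    obtain ⟨c, hdc, hac⟩ := ha P hPS
    have hc1 : 1 ≤ c := by
      rcases Nat.eq_zero_or_pos c with h0 | h0
      · subst h0; omega
      · exact h0
    obtain ⟨b, hb⟩ := exists_den_pow P hft c a hac
    obtain ⟨e, he⟩ := Nat.exists_eq_add_of_le hdc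
    have h2 : i0 gA R hgen (f ^ c) * ⟨hm d (gA a), hgen d a ha⟩ =
        i0 gA R hgen b * s ^ e * T ^ c := by
      apply Subtype.ext
      change hm 0 (gA (f ^ c)) * hm (d : ℤ) (gA a) =
        hm 0 (gA b) * hm (-1) 1 ^ e * hm (w P) (gA t) ^ c
      rw [hm_mul, hm_pow, hm_pow, hm_mul, hm_mul, ← map_mul, one_pow, mul_one, ← map_pow,
        ← map_mul, hb]
      have e1 : (0 : ℤ) + d = 0 + (e : ℤ) * -1 + (c : ℤ) * (w P : ℤ) := by
        have : ((w P * c : ℕ) : ℤ) = ((d + e : ℕ) : ℤ) := by rw [he]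
        push_cast at this
        linarith
      rw [e1, mul_comm (t ^ c) b]
    have h3 : i0 gA R hgen (f ^ c) * ⟨hm d (gA a), hgen d a ha⟩ ∈ Q := by
      rw [h2]
      exact Q.mul_mem_left _ (Ideal.pow_mem_of_mem _ hTQ _ hc1)
    rcases hQ.mem_or_mem h3 with h4 | h4
    · exact absurd (hmax.isPrime.mem_of_pow_mem _ h4) hf
    · exact h4
  · -- the general fibre
    have hsn : ∀ n : ℕ, s ^ n ∉ Q := fun n hn => hsQ (hQ.mem_of_pow_mem n hn)
    have hPS : Q.comap (i0 gA R hgen) ∈ S := by
      refine h.mem _ hq fun a => ?_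
      rw [Ideal.mem_comap]
      have h1 := hDQ 0 a (WG_zero S w a) (hDmem _ _ (WG_zero S w a))
      have h2 : i0 gA R hgen (E a) = s ^ l * ⟨_, hDmem _ _ (WG_zero S w a)⟩ := by
        apply Subtype.ext
        change hm 0 (gA (E a)) = hm (-1) 1 ^ l * hm (((0 : ℕ) : ℤ) + l) (gA (E a))
        rw [hm_pow, hm_mul, one_pow, one_mul]
        congr 1
        push_cast
        ring
      rw [h2]
      exact Q.mul_mem_left _ h1
    obtain ⟨c, hdc, hac⟩ := ha _ hPS
    have hc1 : 1 ≤ c := by
      rcases Nat.eq_zero_or_pos c with h0 | h0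
      · subst h0; omega
      · exact h0
    have h1 : a ∈ Q.comap (i0 gA R hgen) := by
      have := Ideal.pow_le_pow_right hc1 hac
      rwa [pow_one] at this
    rw [Ideal.mem_comap] at h1
    have h2 : i0 gA R hgen a = s ^ d * ⟨hm d (gA a), hgen d a ha⟩ := by
      apply Subtype.ext
      change hm 0 (gA a) = hm (-1) 1 ^ d * hm (d : ℤ) (gA a)
      rw [hm_pow, hm_mul, one_pow, one_mul]
      congr 1
      ring
    rw [h2] at h1
    exact (hQ.mem_or_mem h1).resolve_left (hsn d)

end curve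

section family

variable {k : Type u} [Field k] [PerfectField k] {ι : Type} [Fintype ι]
  {A : ι → Type u} [∀ i, CommRing (A i)] [∀ i, IsDedekindDomain (A i)] [∀ i, Algebra k (A i)]
  {B : Type u} [CommRing B] [IsDomain B] [Algebra k B] {j : ∀ i, A i →ₐ[k] B}
  (hj : IsCoprod k j) (hftA : ∀ i, Algebra.FiniteType k (A i))
  (hsmA : ∀ i, Algebra.Smooth k (A i))
  {L : Type u} [Field L] [Algebra k L] (gB : B →ₐ[k] L) (hinj : Function.Injective gB)
  {Ei : ∀ i, Derivation k (A i) (A i)} {S : ∀ i, Finset (Ideal (A i))} {m w : ∀ i, Ideal (A i) → ℕ}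
  {N : ι → Prop} (hCD : ∀ i, N i → CurveDer (Ei i) (S i) (m i))
  (hw1 : ∀ i, N i → ∀ P ∈ S i, 1 ≤ w i P)
  (hnf : ∀ i, ¬ IsField (A i))

include hj hftA hsmA hinj hCD hw1 hnf in
/-- The weighted blowup of a product of curves is smooth. -/
theorem RC_smoothD : Algebra.Smooth k (RC gB j N S w) := by
  classical
  set R := RC gB j N S w with hR
  have hftB : Algebra.FiniteType k B := coprod_finiteType hj hftA
  have hsmB : Algebra.Smooth k B := by
    have h1 : Algebra.FormallySmooth k B := coprod_formallySmooth hj fun i => inferInstance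
    exact ⟨h1, Algebra.FinitePresentation.of_finiteType.1 inferInstance⟩
  apply smooth_of_loc
  intro Q hQ
  by_cases hsQ : (⟨hm (-1) 1, RC_s gB⟩ : R) ∈ Q
  · -- coordinates near the point
    let ib : B →+* R :=
      { toFun := fun b => ⟨hm 0 (gB b), RC_b hj gB b⟩
        map_one' := Subtype.ext (by change hm 0 (gB 1) = 1; rw [map_one, hm_one])
        map_mul' := fun a b => Subtype.ext (by
          change hm 0 (gB (a * b)) = hm 0 (gB a) * hm 0 (gB b)
          rw [map_mul, hm_mul, add_zero])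
        map_zero' := Subtype.ext (by change hm 0 (gB 0) = 0; rw [map_zero, hm_zero])
        map_add' := fun a b => Subtype.ext (by
          change hm 0 (gB (a + b)) = hm 0 (gB a) + hm 0 (gB b)
          rw [map_add, hm_add]) }
    have hq : ∀ i, (Q.comap (ib.comp (j i : A i →+* B))).IsPrime := fun i => hQ.comap _
    have hloc : ∀ i, ∃ (t f : A i) (wt : ℕ), ib (j i f) ∉ Q ∧
        (((Polynomial.aeval (algebraMap (A i) (Localization.Away f) t) :
          Polynomial k →ₐ[k] Localization.Away f).toRingHom).Etale) ∧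
        ((N i ∧ WG (S i) (w i) wt t) ∨ wt = 0) ∧
        ∀ (d : ℕ) (a : A i), ((N i ∧ WG (S i) (w i) d a) ∨ d = 0) →
          ∃ (c e : ℕ) (b : A i), f ^ c * a = t ^ c * b ∧ wt * c = d + e := by
      intro i
      by_cases hN : N i
      · have hgen : ∀ (d : ℕ) a, WG (S i) (w i) d a → hm d ((gB.comp (j i)) a) ∈ R :=
          fun d a h => RC_g gB i d a (Or.inl ⟨hN, h⟩)
        have hP : Q.comap (i0 (gB.comp (j i)) R hgen) ∈ S i :=
          curve_primeD (gB.comp (j i)) (hCD i hN) (hw1 i hN) R (RC_s gB) hgen Q hQ hsQ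
        set P := Q.comap (i0 (gB.comp (j i)) R hgen) with hPdef
        obtain ⟨t, ht, ht', htP⟩ := exists_unif (S i)
          (fun P' hP' => ⟨((hCD i hN).max P' hP').isPrime, (hCD i hN).ne P' hP'⟩) P hP (w i P)
        obtain ⟨f, hf, hft, hE⟩ :=
          exists_etale_unif (k := k) P ((hCD i hN).max P hP) ht ht'
        refine ⟨t, f, w i P, hf, hE, Or.inl ⟨hN, ?_⟩, ?_⟩
        · intro P' hP'
          by_cases hne : P' = P
          · refine ⟨1, by rw [hne, mul_one], ?_⟩
            rw [hne, pow_one]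
            exact ht
          · refine ⟨w i P, ?_, htP P' hP' hne⟩
            exact Nat.le_mul_of_pos_left _ (hw1 i hN P' hP')
        · intro d a hda
          have hda' : WG (S i) (w i) d a := by
            rcases hda with h | h
            · exact h.2
            · rw [h]; exact WG_zero _ _ a
          obtain ⟨c, hdc, hac⟩ := hda' P hP
          obtain ⟨b, hb⟩ := exists_den_pow P hft c a hac
          obtain ⟨e, he⟩ := Nat.exists_eq_add_of_le hdc
          exact ⟨c, e, b, hb, he⟩
      · obtain ⟨P, hPm, hPle⟩ := Ideal.exists_le_maximal _ (hq i).ne_top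
        have hP0 : P ≠ ⊥ := Ring.ne_bot_of_isMaximal_of_not_isField hPm (hnf i)
        obtain ⟨t, ht, ht', -⟩ := exists_unif {P} (fun P' h => by
          rw [Finset.mem_singleton] at h; rw [h]; exact ⟨hPm.isPrime, hP0⟩) P
          (Finset.mem_singleton_self P) 1
        obtain ⟨f, hf, hft, hE⟩ := exists_etale_unif (k := k) P hPm ht ht'
        refine ⟨t, f, 0, fun h => hf (hPle h), hE, Or.inr rfl, ?_⟩
        intro d a hda
        have hd0 : d = 0 := by
          rcases hda with h | h
          · exact absurd h.1 hN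
          · exact h
        exact ⟨0, 0, a, by simp, by rw [hd0]⟩
    choose t f wt hf hE hWt hgenloc using hloc
    have hEt := coprod_etale hj hftB f t hE
    set F : B := ∏ i, j i (f i) with hF
    have hFQ : (⟨hm 0 (gB F), RC_b hj gB F⟩ : R) ∉ Q := by
      intro h
      have h1 : (⟨hm 0 (gB F), RC_b hj gB F⟩ : R) = ∏ i, ib (j i (f i)) := by
        rw [← map_prod]
        rfl
      rw [h1] at h
      obtain ⟨i, -, hi⟩ := hQ.prod_mem_iff.1 h
      exact hf i hi
    have hF0 : gB F ≠ 0 := by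
      intro h
      apply hFQ
      have h1 : (⟨hm 0 (gB F), RC_b hj gB F⟩ : R) = 0 := by
        apply Subtype.ext
        change hm 0 (gB F) = 0
        rw [h, hm_zero]
      rw [h1]
      exact Q.zero_mem
    refine ⟨hm 0 (gB F), RC_b hj gB F, isUnit_hm hF0, hFQ, ?_⟩
    let D := Localization.Away F
    let gD' : D →+* L := IsLocalization.Away.lift F (g := (gB : B →+* L)) hF0.isUnit
    have hgD' : ∀ b, gD' (algebraMap B D b) = gB b := fun b => IsLocalization.Away.lift_eq F _ b
    let gD : D →ₐ[k] L :=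
      { toRingHom := gD'
        commutes' := fun r => by
          change gD' (algebraMap k D r) = _
          rw [IsScalarTower.algebraMap_apply k B D, hgD', AlgHom.commutes] }
    have hgD : ∀ b, gD (algebraMap B D b) = gB b := hgD'
    have hDrep : ∀ x : D, ∃ (n : ℕ) (b : B), gB F ^ n * gD x = gB b := by
      intro x
      obtain ⟨n, b, hb⟩ := IsLocalization.Away.surj F x
      refine ⟨n, b, ?_⟩
      rw [← hgD b, ← hb, map_mul, map_pow, hgD]
      ring
    have hgDinj : Function.Injective gD := by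
      rw [injective_iff_map_eq_zero]
      intro x hx
      obtain ⟨n, b, hb⟩ := IsLocalization.Away.surj F x
      have h1 : gB b = 0 := by
        rw [← hgD b, ← hb, map_mul, hx, zero_mul]
      rw [map_eq_zero_iff gB hinj] at h1
      rw [h1, map_zero] at hb
      have hu : IsUnit (algebraMap B D F ^ n) :=
        (IsLocalization.map_units D (⟨F, Submonoid.mem_powers F⟩ : Submonoid.powers F)).pow n
      exact (hu.mul_left_eq_zero).1 hb
    have hsm := smooth_rwA gD wt (x := fun i => algebraMap B D (j i (t i)))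
      hgDinj hEt
    set R1 := rwA gD wt (fun i => algebraMap B D (j i (t i))) with hR1
    have hR1b : ∀ b, hm 0 (gB b) ∈ R1 := fun b => by
      rw [← hgD b]; exact rwA_b gD _ _ _
    have hR1t : ∀ i, hm (wt i) (gB (j i (t i))) ∈ R1 := fun i => by
      rw [← hgD]; exact rwA_x gD _ _ i
    -- inverses
    obtain ⟨Finv, hFinv⟩ : ∃ y : D, algebraMap B D F * y = 1 :=
      (IsLocalization.map_units D (⟨F, Submonoid.mem_powers F⟩ : Submonoid.powers F)).exists_right_inv
    have hfinv : ∀ i, ∃ y ∈ R1, hm 0 (gB (j i (f i))) * y = 1 := by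
      intro i
      obtain ⟨r, hr⟩ := Finset.dvd_prod_of_mem (fun i => j i (f i)) (Finset.mem_univ i)
      change F = j i (f i) * r at hr
      refine ⟨hm 0 (gB r) * hm 0 (gD Finv), Subalgebra.mul_mem _ (hR1b r) (rwA_b gD _ _ _), ?_⟩
      rw [hm_mul, hm_mul, ← mul_assoc, ← map_mul, ← hr, ← hgD, ← map_mul, hFinv, map_one, add_zero,
        add_zero, hm_one]
    have hle : R ≤ R1 := by
      rw [hR]
      unfold RC
      rw [Algebra.adjoin_le_iff]
      rintro x (hx | ⟨i, d, a, hda, rfl⟩)
      · rw [hx]; exact rwA_s gD _ _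
      · change hm (d : ℤ) (gB (j i a)) ∈ R1
        obtain ⟨c, e, b, hb, he⟩ := hgenloc i d a hda
        obtain ⟨y, hy, hfy⟩ := hfinv i
        have h1 : hm (d : ℤ) (gB (j i a)) =
            y ^ c * (hm (-1) 1 ^ e * hm (wt i) (gB (j i (t i))) ^ c * hm 0 (gB (j i b))) := by
          have h2 : hm (-1) 1 ^ e * hm (wt i) (gB (j i (t i))) ^ c * hm 0 (gB (j i b)) =
              hm 0 (gB (j i (f i))) ^ c * hm (d : ℤ) (gB (j i a)) := by
            rw [hm_pow, hm_pow, hm_pow, hm_mul, hm_mul, hm_mul, one_pow, one_mul, ← map_pow,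
              ← map_pow, ← map_pow, ← map_pow, ← map_mul, ← map_mul, ← map_mul, ← map_mul, hb]
            congr 1
            have : ((wt i * c : ℕ) : ℤ) = ((d + e : ℕ) : ℤ) := by rw [he]
            push_cast at this
            linarith
          rw [h2, ← mul_assoc, ← mul_pow, mul_comm y, hfy, one_pow, one_mul]
        rw [h1]
        exact Subalgebra.mul_mem _ (Subalgebra.pow_mem _ hy _) (Subalgebra.mul_mem _
          (Subalgebra.mul_mem _ (Subalgebra.pow_mem _ (rwA_s gD _ _) _)
            (Subalgebra.pow_mem _ (hR1t i) _)) (hR1b _))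
    have heq : loc R (hm 0 (gB F)) (RC_b hj gB F) = R1 := by
      apply le_antisymm
      · rintro x ⟨n, hn⟩
        have h1 : x = hm 0 (gD Finv) ^ n * (hm 0 (gB F) ^ n * x) := by
          rw [← mul_assoc, ← mul_pow, hm_mul, ← hgD, ← map_mul, mul_comm Finv, hFinv, map_one,
            add_zero, hm_one, one_pow, one_mul]
        rw [h1]
        exact Subalgebra.mul_mem _ (Subalgebra.pow_mem _ (rwA_b gD _ _ _) _) (hle hn)
      · rw [hR1]
        unfold rwA
        rw [Algebra.adjoin_le_iff]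
        rintro x ((hx | ⟨y, rfl⟩) | ⟨i, rfl⟩)
        · rw [hx]
          exact le_loc _ _ _ (RC_s gB)
        · obtain ⟨n, b, hb⟩ := hDrep y
          refine ⟨n, ?_⟩
          change hm 0 (gB F) ^ n * hm 0 (gD y) ∈ R
          rw [hm_pow, hm_mul, hb, mul_zero, add_zero]
          exact RC_b hj gB b
        · refine le_loc _ _ _ ?_
          change hm ((wt i : ℕ) : ℤ) (gD (algebraMap B D (j i (t i)))) ∈ R
          rw [hgD]
          exact RC_g gB i _ _ (hWt i)
    rw [heq]
    exact hsm
  · exact ⟨hm (-1) 1, RC_s gB, isUnit_hm one_ne_zero, hsQ,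
      smooth_loc_s gB hinj hsmB R (RC_s gB) (RC_b hj gB) fun f hf d => RC_c gB hf d⟩

end family

end Pool.Agent.H920R2
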