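import Pool.Agent.H920R2.Cv2

set_option autoImplicit false
set_option linter.unusedSectionVars false

open MvPolynomial AlgebraicGeometry CategoryTheory

universe u v

namespace Pool.Agent.H920R2

section family

variable {k : Type u} [Field k] [PerfectField k] {p : ℕ} (hp : p.Prime) (hpk : (p : k) = 0)
  {ι : Type} [Fintype ι]
  {A : ι → Type u} [∀ i, CommRing (A i)] [∀ i, IsDedekindDomain (A i)] [∀ i, Algebra k (A i)]
  {B : Type u} [CommRing B] [IsDomain B] [Algebra k B] {j : ∀ i, A i →ₐ[k] B}
  (hj : IsCoprod k j) (hjinj : ∀ i, Function.Injective (j i))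
  (hftA : ∀ i, Algebra.FiniteType k (A i)) (hsmA : ∀ i, Algebra.Smooth k (A i))
  {Ei : ∀ i, Derivation k (A i) (A i)} {c : k}
  (hEi : ∀ i a, (Ei i)^[p] a = algebraMap k (A i) c * Ei i a) (hnf : ∀ i, ¬ IsField (A i))
  {E : Derivation k B B} (hE : ∀ i a, E (j i a) = j i (Ei i a))

include hp hpk hj hEi hE in
lemma prod_closed (b : B) : E^[p] b = algebraMap k B c * E b := by
  have h0 : ∀ (n : ℕ) i a, E^[n] (j i a) = j i ((Ei i)^[n] a) := by
    intro n i
    induction n with
    | zero => intro a; rfl
    | succ n ih => intro a; rw [Function.iterate_succ_apply, hE, ih, Function.iterate_succ_apply]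
  have h1 : b ∈ Algebra.adjoin k (⋃ i, Set.range (j i)) := by rw [coprod_adjoin hj]; trivial
  induction h1 using Algebra.adjoin_induction with
  | mem x hx =>
    obtain ⟨i, a, rfl⟩ := Set.mem_iUnion.1 hx
    rw [h0, hEi, hE, map_mul, AlgHom.commutes]
  | algebraMap r =>
    rw [Derivation.map_algebraMap, mul_zero]
    obtain ⟨n, hn⟩ : ∃ n, p = n + 1 := ⟨p - 1, by have := hp.pos; omega⟩
    rw [hn, Function.iterate_succ_apply, Derivation.map_algebraMap, iter_zero]
  | add x y _ _ hx hy => rw [iter_add, map_add, hx, hy, mul_add]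
  | mul x y _ _ hx hy =>
    rw [iterate_p_mul hp hpk, hx, hy, Derivation.leibniz, smul_eq_mul, smul_eq_mul]
    ring

include hp hpk hj hjinj hftA hsmA hEi hnf hE in
/-- **Resolution of the quotient of a product of curves by a sum of vector fields on the factors
with the same `p`-th power.** -/
theorem hasResolution_curvesD :
    HasResolution (X := Spec (CommRingCat.of (kerAlg E)))
      (Spec.map (CommRingCat.ofHom (algebraMap k (kerAlg E)))) := by
  classical
  let N : ι → Prop := fun i => ∃ a, Ei i a ≠ 0
  by_cases hex : ∃ i, N i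
  swap
  · -- trivial vector field
    have hftB : Algebra.FiniteType k B := coprod_finiteType hj hftA
    have hsmB : Algebra.Smooth k B := by
      have h1 : Algebra.FormallySmooth k B := coprod_formallySmooth hj fun i => inferInstance
      exact ⟨h1, Algebra.FinitePresentation.of_finiteType.1 inferInstance⟩
    have h1 : kerAlg E = ⊤ := by
      rw [eq_top_iff, ← coprod_adjoin hj, Algebra.adjoin_le_iff]
      intro b hb
      obtain ⟨i, a, rfl⟩ := Set.mem_iUnion.1 hb
      change _ ∈ kerAlg E
      rw [mem_kerAlg, hE]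
      by_contra hcon
      exact hex ⟨i, a, fun h => hcon (by rw [h, map_zero])⟩
    rw [h1]
    exact hasResolution_congr (Subalgebra.topEquiv (R := k) (A := B)).symm hasResolution_of_smooth
  have hdat : ∀ i, ∃ (S : Finset (Ideal (A i))) (m : Ideal (A i) → ℕ), N i →
      CurveDer (Ei i) S m := by
    intro i
    by_cases hN : N i
    · obtain ⟨S, m, h⟩ := exists_curveDer (k := k) (Ei i) hN
      exact ⟨S, m, fun _ => h⟩
    · exact ⟨∅, fun _ => 0, fun h => absurd h hN⟩
  choose S m hCD using hdat
  have hmult : ∀ i (hN : N i), (c = 0 → ∀ P ∈ S i, 1 ≤ m i P) ∧ (c ≠ 0 → ∀ P ∈ S i, m i P = 0) :=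
    fun i hN => (hCD i hN).mult hp hN c (hEi i)
  obtain ⟨l, w, hw, hw1⟩ : ∃ (l : ℕ) (w : ∀ i, Ideal (A i) → ℕ),
      (∀ i, N i → ∀ P ∈ S i, w i P * m i P = l) ∧ (∀ i, N i → ∀ P ∈ S i, 1 ≤ w i P) := by
    by_cases hc : c = 0
    · let l : ℕ := ∏ i, ∏ P ∈ S i, if N i then m i P else 1
      have hl : 0 < l := Finset.prod_pos fun i _ => Finset.prod_pos fun P hP => by
        by_cases hN : N i
        · rw [if_pos hN]; exact (hmult i hN).1 hc P hP
        · rw [if_neg hN]; exact one_pos
      have hdvd : ∀ i, N i → ∀ P ∈ S i, m i P ∣ l := by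
        intro i hN P hP
        have h1 := (Finset.dvd_prod_of_mem (fun P => if N i then m i P else 1) hP).trans
          (Finset.dvd_prod_of_mem (fun i => ∏ P ∈ S i, if N i then m i P else 1)
            (Finset.mem_univ i))
        simp only [if_pos hN] at h1
        exact h1
      exact ⟨l, fun i P => l / m i P, fun i hN P hP => Nat.div_mul_cancel (hdvd i hN P hP),
        fun i hN P hP => Nat.div_pos (Nat.le_of_dvd hl (hdvd i hN P hP))
          ((hmult i hN).1 hc P hP)⟩
    · exact ⟨0, fun _ _ => 1, fun i hN P hP => by rw [(hmult i hN).2 hc P hP, mul_zero],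
        fun i hN P hP => le_rfl⟩
  let L := FractionRing B
  let gB : B →ₐ[k] L := IsScalarTower.toAlgHom k B L
  have hinj : Function.Injective gB := IsFractionRing.injective B L
  obtain ⟨E', hE'⟩ := exists_der_frac E
  have hE'' : ∀ b, E' (gB b) = gB (E b) := hE'
  set R := RC gB j N S w with hR
  have hDgen : ∀ (i : ι) (d : ℕ) (a : A i), tlD E' l (hm d (gB (j i a))) =
      hm ((d : ℤ) + l) (gB (j i (Ei i a))) := by
    intro i d a
    rw [tlD_hm, hE'', hE]
  have hD : ∀ f ∈ R, tlD E' l f ∈ R := by
    intro f hf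
    induction hf using Algebra.adjoin_induction with
    | mem x hx =>
      rcases hx with hx | ⟨i, d, a, hda, rfl⟩
      · have hx' : x = hm (-1) 1 := hx
        rw [hx', tlD_hm, Derivation.map_one_eq_zero, hm_zero]
        exact Subalgebra.zero_mem _
      · change tlD E' l (hm (d : ℤ) (gB (j i a))) ∈ _
        rw [hDgen]
        by_cases hN : N i
        · have hda' : WG (S i) (w i) d a := by
            rcases hda with h | h
            · exact h.2
            · rw [h]; exact WG_zero _ _ a
          have h1 := RC_g (j := j) (N := N) gB i (d + l) _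
            (Or.inl ⟨hN, WG_der (hCD i hN) (hw i hN) hda'⟩)
          push_cast at h1
          exact h1
        · have h0 : Ei i a = 0 := by
            by_contra hcon
            exact hN ⟨a, hcon⟩
          rw [h0, map_zero, map_zero, hm_zero]
          exact Subalgebra.zero_mem _
    | algebraMap r => rw [Derivation.map_algebraMap]; exact Subalgebra.zero_mem _
    | add x y _ _ hx hy => rw [map_add]; exact Subalgebra.add_mem _ hx hy
    | mul x y hxR hyR hx hy =>
      rw [Derivation.leibniz, smul_eq_mul, smul_eq_mul]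
      exact Subalgebra.add_mem _ (Subalgebra.mul_mem _ hxR hy) (Subalgebra.mul_mem _ hyR hx)
  refine hasResolution_fol hp hpk E (algebraMap B L (algebraMap k B c)) (fun b => by
      rw [prod_closed hp hpk hj hEi hE b, map_mul]) E' hE' R
    (gr_adjoin _ (GC_hom gB)) (RC_s gB) (RC_b hj gB) (fun f hf d => RC_c gB hf d)
    (RC_smoothD hj hftA hsmA gB hinj hCD hw1 hnf) ?_ l hD ?_
  · -- elements of positive degree
    obtain ⟨i, hN⟩ := hex
    have h0 : ∏ P ∈ S i, P ≠ ⊥ := by
      have : ∏ P ∈ S i, P ≠ 0 := Finset.prod_ne_zero_iff.2 fun P hP => (hCD i hN).ne P hP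
      exact this
    obtain ⟨a, ha, ha0⟩ := Submodule.exists_mem_ne_zero_of_ne_bot h0
    have hWG : WG (S i) (w i) 1 a := by
      intro P hP
      refine ⟨1, by rw [mul_one]; exact hw1 i hN P hP, ?_⟩
      rw [pow_one]
      exact Ideal.le_of_dvd (Finset.dvd_prod_of_mem _ hP) ha
    refine ⟨1, gB (j i a), one_pos, ?_, RC_g gB i 1 a (Or.inl ⟨hN, hWG⟩)⟩
    intro h
    rw [map_eq_zero_iff gB hinj, map_eq_zero_iff (j i) (hjinj i)] at h
    exact ha0 h
  · intro Q hQ hDQ d a h hd
    refine pos_mem (GC_hom gB) Q ?_ d a h hd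
    rintro e b (hb | ⟨i, d', a', hda', hb⟩) he
    · have h1 := congrArg (fun f : LP L => f.coeff (-1)) hb
      change (hm (e : ℤ) b).coeff (-1) = (hm (-1) (1 : L)).coeff (-1) at h1
      rw [coeff_hm, coeff_hm, if_neg (by omega), if_pos rfl] at h1
      exact absurd h1.symm one_ne_zero
    · by_cases hed : (e : ℤ) = d'
      · have hed' : e = d' := by exact_mod_cast hed
        subst hed'
        have hba := hm_inj hb
        subst hba
        have hNW : N i ∧ WG (S i) (w i) e a' := by
          rcases hda' with h | h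
          · exact h
          · omega
        have hN := hNW.1
        exact curve_zeroD (gB.comp (j i)) (hCD i hN) (hw1 i hN) (hw i hN) R (RC_s gB)
          (fun d a h => RC_g gB i d a (Or.inl ⟨hN, h⟩)) Q hQ (fun d a h h' => by
            have h1 := hDQ _ (RC_g gB i d a (Or.inl ⟨hN, h⟩))
            have e1 : (⟨tlD E' l (hm (d : ℤ) (gB (j i a))),
                hD _ (RC_g gB i d a (Or.inl ⟨hN, h⟩))⟩ : R) = ⟨_, h'⟩ :=
                  Subtype.ext (hDgen i d a)
            rw [e1] at h1
            exact h1) e a' he hNW.2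
      · have h1 := congrArg (fun f : LP L => f.coeff e) hb
        change (hm (e : ℤ) b).coeff e = (hm (d' : ℤ) (gB (j i a'))).coeff e at h1
        rw [coeff_hm, coeff_hm, if_pos rfl, if_neg (fun h => hed h.symm)] at h1
        have e1 : (⟨hm e b, Algebra.subset_adjoin (Or.inr ⟨i, d', a', hda', hb⟩)⟩ :
            Algebra.adjoin k (GC gB j N S w)) = 0 := by
          apply Subtype.ext
          change hm (e : ℤ) b = 0
          rw [h1, hm_zero]
        rw [e1]
        exact Q.zero_mem

end family

end Pool.Agent.H920R2
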