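import Pool.Agent.H920R2.Cv3

set_option autoImplicit false
set_option linter.unusedSectionVars false

open TensorProduct

universe u v

namespace Pool.Agent.H920R2

section coprod

variable {k : Type u} [Field k] {ι : Type} {A : ι → Type u} [∀ i, CommRing (A i)]
  [∀ i, Algebra k (A i)] {B : Type u} [CommRing B] [Algebra k B] {j : ∀ i, A i →ₐ[k] B}

/-- The derivation of a coproduct given by derivations of the factors. -/
theorem exists_der_coprod (hj : IsCoprod k j) (Ei : ∀ i, Derivation k (A i) (A i)) :
    ∃ E : Derivation k B B, ∀ i a, E (j i a) = j i (Ei i a) := by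
  let f : ∀ i, A i →ₐ[k] TrivSqZeroExt B B := fun i =>
    AlgHom.ofLinearMap
      ((TrivSqZeroExt.inlAlgHom k B B).toLinearMap ∘ₗ (j i).toLinearMap +
        (TrivSqZeroExt.inrHom B B).restrictScalars k ∘ₗ (j i).toLinearMap ∘ₗ
          (Ei i : A i →ₗ[k] A i))
      (by
        apply TrivSqZeroExt.ext
        · simp
        · simp)
      (fun x y => by
        apply TrivSqZeroExt.ext
        · simp
        · simp [mul_comm])
  have hf1 : ∀ i a, (f i a).fst = j i a := by
    intro i a
    simp [f]
  have hf2 : ∀ i a, (f i a).snd = j i (Ei i a) := by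
    intro i a
    simp [f]
  obtain ⟨g, hg⟩ := hj.lift (TrivSqZeroExt B B) f
  have hfst : ∀ b, (g b).fst = b := by
    have h1 : (TrivSqZeroExt.fstHom k B B).comp g = AlgHom.id k B := by
      apply hj.ext
      intro i a
      rw [AlgHom.comp_apply, hg]
      exact hf1 i a
    intro b
    exact congrArg (fun φ : B →ₐ[k] B => φ b) h1
  refine ⟨Derivation.mk' ((TrivSqZeroExt.sndHom B B).restrictScalars k ∘ₗ g.toLinearMap) ?_, ?_⟩
  · intro a b
    change (g (a * b)).snd = a • (g b).snd + b • (g a).snd
    rw [map_mul, TrivSqZeroExt.snd_mul, hfst, hfst, op_smul_eq_smul]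
  · intro i a
    change (g (j i a)).snd = _
    rw [hg, hf2]

end coprod

section pi

variable {k : Type u} [Field k] {n : ℕ} {A : Fin n → Type u} [∀ i, CommRing (A i)]
  [∀ i, Algebra k (A i)]

/-- A derivation of a product. -/
lemma der_prod {Λ : Type u} [CommRing Λ] [Algebra k Λ] (E : Derivation k Λ Λ) {ι : Type}
    [DecidableEq ι] (s : Finset ι) (x : ι → Λ) :
    E (∏ i ∈ s, x i) = ∑ i ∈ s, E (x i) * ∏ l ∈ s.erase i, x l := by
  induction s using Finset.induction_on with
  | empty => simp
  | insert i s hi ih =>
    rw [Finset.prod_insert hi, Derivation.leibniz, smul_eq_mul, smul_eq_mul, ih,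
      Finset.sum_insert hi, Finset.erase_insert hi, Finset.mul_sum, add_comm, mul_comm]
    congr 1
    refine Finset.sum_congr rfl fun l hl => ?_
    have hne : i ≠ l := fun h => hi (h ▸ hl)
    rw [Finset.erase_insert_of_ne hne, Finset.prod_insert (fun h => hi (Finset.mem_of_mem_erase h))]
    ring

/-- A pure tensor is the product of its factors. -/
lemma tprod_eq_prod (a : ∀ i, A i) : PiTensorProduct.tprod k a =
    ∏ i, PiTensorProduct.singleAlgHom (R := k) (A := A) i (a i) := by
  classical
  have h1 : ∀ s : Finset (Fin n), (∏ i ∈ s,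
      PiTensorProduct.singleAlgHom (R := k) (A := A) i (a i)) =
      PiTensorProduct.tprod k (fun i => if i ∈ s then a i else 1) := by
    intro s
    induction s using Finset.induction_on with
    | empty =>
      simp only [Finset.prod_empty, Finset.notMem_empty, if_false]
      rfl
    | insert i s hi ih =>
      rw [Finset.prod_insert hi, ih]
      change PiTensorProduct.tprod k (MonoidHom.mulSingle _ i (a i)) * _ = _
      rw [PiTensorProduct.tprod_mul_tprod]
      congr 1
      funext l
      rw [Pi.mul_apply, MonoidHom.mulSingle_apply]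
      by_cases hl : l = i
      · subst hl
        rw [Pi.mulSingle_eq_same, if_neg hi, if_pos (Finset.mem_insert_self _ _), mul_one]
      · rw [Pi.mulSingle_eq_of_ne hl, one_mul]
        by_cases hls : l ∈ s
        · rw [if_pos hls, if_pos (Finset.mem_insert_of_mem hls)]
        · rw [if_neg hls, if_neg (fun h => hls ((Finset.mem_insert.1 h).resolve_left hl))]
  rw [h1]
  congr 1
  funext i
  rw [if_pos (Finset.mem_univ i)]

/-- The sum of the derivations of the factors, on pure tensors. -/
lemma der_tprod (Ei : ∀ i, Derivation k (A i) (A i))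
    (E : Derivation k (⨂[k] i, A i) (⨂[k] i, A i))
    (hE : ∀ i a, E (PiTensorProduct.singleAlgHom (R := k) (A := A) i a) =
      PiTensorProduct.singleAlgHom (R := k) (A := A) i (Ei i a)) (a : ∀ i, A i) :
    E (PiTensorProduct.tprod k a) =
      ∑ i, PiTensorProduct.tprod k (Function.update a i (Ei i (a i))) := by
  classical
  rw [tprod_eq_prod, der_prod]
  refine Finset.sum_congr rfl fun i _ => ?_
  rw [tprod_eq_prod, ← Finset.mul_prod_erase _ _ (Finset.mem_univ i), hE, Function.update_self]
  congr 1
  refine Finset.prod_congr rfl fun l hl => ?_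
  rw [Function.update_of_ne (Finset.ne_of_mem_erase hl)]

end pi

end Pool.Agent.H920R2
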