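import Pool.Agent.H920R2.Cu6

set_option autoImplicit false
set_option linter.unusedSectionVars false

open Polynomial

universe u v

namespace Pool.Agent.H920R2

section dedekind

variable {k A : Type u} [Field k] [CommRing A] [IsDedekindDomain A] [Algebra k A]

/-- A regular affine curve over a perfect field is smooth. -/
theorem smooth_dedekind [PerfectField k] [Algebra.FiniteType k A] (hnf : ¬ IsField A) :
    Algebra.Smooth k A := by
  classical
  let s : Set A := {f | Algebra.Smooth k (Localization.Away f)}
  have hs : Ideal.span s = ⊤ := by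
    by_contra hcon
    obtain ⟨P, hPm, hle⟩ := Ideal.exists_le_maximal _ hcon
    have hP0 : P ≠ ⊥ := Ring.ne_bot_of_isMaximal_of_not_isField hPm hnf
    obtain ⟨t, ht, ht', -⟩ := exists_unif {P} (fun P' h => by
      rw [Finset.mem_singleton] at h; rw [h]; exact ⟨hPm.isPrime, hP0⟩) P
      (Finset.mem_singleton_self P) 1
    obtain ⟨f, hf, hft, hE⟩ := exists_etale_unif (k := k) P hPm ht ht'
    apply hf
    apply hle
    apply Ideal.subset_span
    change Algebra.Smooth k (Localization.Away f)
    have h1 : (algebraMap k k[X]).Smooth := RingHom.smooth_algebraMap.2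
      ⟨inferInstance, inferInstance⟩
    have hE' : ((aeval (algebraMap A (Localization.Away f) t) :
        k[X] →ₐ[k] Localization.Away f).toRingHom).Smooth := by
      let _ := ((aeval (algebraMap A (Localization.Away f) t) :
        k[X] →ₐ[k] Localization.Away f).toRingHom).toAlgebra
      have h4 : Algebra.Etale k[X] (Localization.Away f) := hE
      exact (inferInstance : Algebra.Smooth k[X] (Localization.Away f))
    have h2 := RingHom.Smooth.stableUnderComposition _ _ h1 hE'
    have h3 : ((aeval (algebraMap A (Localization.Away f) t) :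
        k[X] →ₐ[k] Localization.Away f).toRingHom).comp (algebraMap k k[X]) =
        algebraMap k (Localization.Away f) := by
      exact AlgHom.comp_algebraMap (aeval (algebraMap A (Localization.Away f) t) :
        k[X] →ₐ[k] Localization.Away f)
    rw [h3] at h2
    exact RingHom.smooth_algebraMap.1 h2
  have key := RingHom.Smooth.ofLocalizationSpanTarget (algebraMap k A) s hs (by
    rintro ⟨r, hr⟩
    rw [← IsScalarTower.algebraMap_eq]
    exact RingHom.smooth_algebraMap.2 hr)
  exact RingHom.smooth_algebraMap.1 key

end dedekind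

section integral

variable {K : Type u} [Field K]

/-- If the coefficients of a monic polynomial have denominators which are powers of `s`, so do
its roots. -/
lemma denom_root (C : Subring K) (hC : ∀ z : K, IsIntegral C z → z ∈ C) (s : K) (hs : s ∈ C)
    (P : K[X]) (hP : P.Monic) (hc : ∀ j, ∃ n : ℕ, s ^ n * P.coeff j ∈ C) (z : K)
    (hz : P.eval z = 0) : ∃ n : ℕ, s ^ n * z ∈ C := by
  classical
  choose n hn using hc
  let N : ℕ := (Finset.range P.natDegree).sup n
  refine ⟨N, ?_⟩
  apply hC
  -- the scaled polynomial
  have hcoef : ∀ j, (P.scaleRoots (s ^ N)).coeff j ∈ C := by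
    intro j
    rw [coeff_scaleRoots]
    rcases lt_trichotomy j P.natDegree with hj | hj | hj
    · have h1 : n j ≤ N := Finset.le_sup (Finset.mem_range.2 hj)
      obtain ⟨e, he⟩ := Nat.exists_eq_add_of_le
        (show n j ≤ N * (P.natDegree - j) from h1.trans (Nat.le_mul_of_pos_right _ (by omega)))
      rw [← pow_mul, he, pow_add, mul_comm, mul_comm (s ^ n j), mul_assoc]
      exact C.mul_mem (C.pow_mem hs _) (hn j)
    · subst hj
      rw [Nat.sub_self, pow_zero, mul_one, hP.coeff_natDegree]
      exact C.one_mem
    · rw [coeff_eq_zero_of_natDegree_lt hj, zero_mul]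
      exact C.zero_mem
  have hlift : (P.scaleRoots (s ^ N)) ∈ Polynomial.lifts C.subtype := by
    rw [Polynomial.lifts_iff_coeff_lifts]
    intro j
    exact ⟨⟨_, hcoef j⟩, rfl⟩
  obtain ⟨Q, hQ, hQd, hQm⟩ := Polynomial.lifts_and_natDegree_eq_and_monic hlift
    ((monic_scaleRoots_iff _).2 hP)
  refine ⟨Q, hQm, ?_⟩
  change eval₂ C.subtype (s ^ N * z) Q = 0
  rw [← eval_map, hQ]
  have := scaleRoots_eval₂_eq_zero (RingHom.id K) (p := P) (r := z) (s := s ^ N)
    (by rw [eval₂_id]; exact hz)
  simpa [eval₂_id] using this

end integral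

end Pool.Agent.H920R2
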