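import Pool.Agent.H920R2.Cw1

set_option autoImplicit false
set_option linter.unusedSectionVars false

open Polynomial IntermediateField

universe u v

namespace Pool.Agent.H920R2

section ring

variable (k : Type u) {K : Type u} [Field k] [Field K] [Algebra k K] (u : K)

/-- The ring of functions on the curve with poles only at the poles of `u`. -/
def CC : Subalgebra k K := (integralClosure (Algebra.adjoin k {u}) K).restrictScalars k

lemma mem_CC {z : K} : z ∈ CC k u ↔ IsIntegral (Algebra.adjoin k {u}) z := Iff.rfl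

lemma u_mem_CC : u ∈ CC k u := by
  rw [mem_CC]
  exact isIntegral_algebraMap (x := (⟨u, Algebra.self_mem_adjoin_singleton k u⟩ :
    Algebra.adjoin k {u}))

lemma pid_adjoin : IsPrincipalIdealRing (Algebra.adjoin k {u}) := by
  let f : k[X] →ₐ[k] Algebra.adjoin k {u} :=
    aeval ⟨u, Algebra.self_mem_adjoin_singleton k u⟩
  refine IsPrincipalIdealRing.of_surjective (f : k[X] →+* Algebra.adjoin k {u}) ?_
  rintro ⟨z, hz⟩
  have hz' := hz
  rw [Algebra.adjoin_singleton_eq_range_aeval] at hz'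
  obtain ⟨P, rfl⟩ := hz'
  refine ⟨P, Subtype.ext ?_⟩
  change ((Algebra.adjoin k {u}).val (aeval _ P) : K) = _
  rw [← aeval_algHom_apply]
  rfl

lemma adj_le_CC : Algebra.adjoin k {u} ≤ CC k u := by
  rw [Algebra.adjoin_le_iff]
  rintro x rfl
  exact u_mem_CC k x

lemma CC_closed (z : K) (hz : IsIntegral (CC k u).toSubring z) : z ∈ CC k u := by
  rw [mem_CC]
  let _ : Algebra (Algebra.adjoin k {u}) (CC k u) :=
    (Subalgebra.inclusion (adj_le_CC k u)).toRingHom.toAlgebra
  have _ : IsScalarTower (Algebra.adjoin k {u}) (CC k u) K := IsScalarTower.of_algebraMap_eq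
    fun x => rfl
  have h1 : Algebra.IsIntegral (Algebra.adjoin k {u}) (CC k u) := by
    constructor
    intro x
    have h2 : IsIntegral (Algebra.adjoin k {u}) (x : K) := x.2
    exact (isIntegral_algebraMap_iff (A := CC k u) (B := K) Subtype.val_injective).1 h2
  exact isIntegral_trans (R := Algebra.adjoin k {u}) (A := CC k u) z hz

open scoped algebraAdjoinAdjoin in
lemma CC_dedekind [FiniteDimensional k⟮u⟯ K] [Algebra.IsSeparable k⟮u⟯ K] :
    IsDedekindDomain (CC k u) ∧ Module.Finite (Algebra.adjoin k {u}) (integralClosure (Algebra.adjoin k {u}) K) ∧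
      IsFractionRing (CC k u) K := by
  have := pid_adjoin k u
  have h1 : IsDedekindDomain (Algebra.adjoin k {u}) := inferInstance
  exact ⟨integralClosure.isDedekindDomain (Algebra.adjoin k {u}) k⟮u⟯ K,
    IsIntegralClosure.finite (Algebra.adjoin k {u}) k⟮u⟯ K _,
    integralClosure.isFractionRing_of_finite_extension k⟮u⟯ K⟩

lemma CC_finiteType [FiniteDimensional k⟮u⟯ K] [Algebra.IsSeparable k⟮u⟯ K] :
    Algebra.FiniteType k (CC k u) := by
  have h1 := (CC_dedekind k u).2.1
  have h2 : Algebra.FiniteType k (Algebra.adjoin k {u}) :=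
    (Subalgebra.fg_iff_finiteType _).1 (Subalgebra.fg_def.2 ⟨{u}, Set.finite_singleton u, rfl⟩)
  have h3 : Algebra.FiniteType k (integralClosure (Algebra.adjoin k {u}) K) :=
    Algebra.FiniteType.trans (S := Algebra.adjoin k {u}) h2 inferInstance
  exact h3

lemma CC_notField (hu : Transcendental k u) [FiniteDimensional k⟮u⟯ K]
    [Algebra.IsSeparable k⟮u⟯ K] : ¬ IsField (CC k u) := by
  intro hF
  let _ := hF.toField
  have h1 := CC_finiteType k u
  have h2 : Module.Finite k (CC k u) := finite_of_finite_type_of_isJacobsonRing k (CC k u)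
  apply hu
  have h3 : IsAlgebraic k (⟨u, u_mem_CC k u⟩ : CC k u) :=
    (Algebra.IsIntegral.isIntegral _).isAlgebraic
  exact (isAlgebraic_algebraMap_iff (A := K) (S := CC k u) Subtype.val_injective).2 h3

/-- Denominators. -/
lemma CC_denom (hu : u ≠ 0) (z : K) (hz : z ∈ CC k u) : ∃ n : ℕ, u⁻¹ ^ n * z ∈ CC k u⁻¹ := by
  have hc : ∀ c ∈ Algebra.adjoin k {u}, ∃ n : ℕ, u⁻¹ ^ n * c ∈ CC k u⁻¹ := by
    intro c hc
    induction hc using Algebra.adjoin_induction with
    | mem x hx =>
      rw [Set.mem_singleton_iff] at hx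
      subst hx
      exact ⟨1, by rw [pow_one, inv_mul_cancel₀ hu]; exact Subalgebra.one_mem _⟩
    | algebraMap r => exact ⟨0, by rw [pow_zero, one_mul]; exact Subalgebra.algebraMap_mem _ r⟩
    | add x y _ _ hx hy =>
      obtain ⟨n, hn⟩ := hx
      obtain ⟨m, hm⟩ := hy
      refine ⟨n + m, ?_⟩
      have h1 : u⁻¹ ^ (n + m) * (x + y) = u⁻¹ ^ m * (u⁻¹ ^ n * x) + u⁻¹ ^ n * (u⁻¹ ^ m * y) := by
        ring
      rw [h1]
      exact Subalgebra.add_mem _ (Subalgebra.mul_mem _ (Subalgebra.pow_mem _ (u_mem_CC k _) _) hn)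
        (Subalgebra.mul_mem _ (Subalgebra.pow_mem _ (u_mem_CC k _) _) hm)
    | mul x y _ _ hx hy =>
      obtain ⟨n, hn⟩ := hx
      obtain ⟨m, hm⟩ := hy
      refine ⟨n + m, ?_⟩
      have h1 : u⁻¹ ^ (n + m) * (x * y) = (u⁻¹ ^ n * x) * (u⁻¹ ^ m * y) := by ring
      rw [h1]
      exact Subalgebra.mul_mem _ hn hm
  obtain ⟨P, hP, hP0⟩ := (mem_CC k u).1 hz
  refine denom_root (CC k u⁻¹).toSubring (fun z hz => CC_closed k u⁻¹ z hz) u⁻¹ (u_mem_CC k _)
    (P.map (algebraMap (Algebra.adjoin k {u}) K)) (hP.map _) ?_ z (by rw [eval_map]; exact hP0)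
  intro j
  rw [coeff_map]
  exact hc _ (P.coeff j).2

lemma CC_le_val (V : ValuationSubring K) (hV : ∀ c : k, algebraMap k K c ∈ V) (hu : u ∈ V)
    (z : K) (hz : z ∈ CC k u) : z ∈ V := by
  have h1 : ∀ c ∈ Algebra.adjoin k {u}, c ∈ V := by
    intro c hc
    induction hc using Algebra.adjoin_induction with
    | mem x hx =>
      rw [Set.mem_singleton_iff] at hx
      subst hx
      exact hu
    | algebraMap r => exact hV r
    | add x y _ _ hx hy => exact V.add_mem _ _ hx hy
    | mul x y _ _ hx hy => exact V.mul_mem _ _ hx hy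
  obtain ⟨P, hP, hP0⟩ := (mem_CC k u).1 hz
  have hb : IsIntegral V z := by
    let φ : Algebra.adjoin k {u} →+* V :=
      ((Algebra.adjoin k {u}).val.toRingHom).codRestrict V.toSubring (fun x => h1 x x.2)
    refine ⟨P.map φ, hP.map φ, ?_⟩
    rw [Polynomial.eval₂_map]
    exact hP0
  obtain ⟨y, hy⟩ := (IsIntegrallyClosedIn.algebraMap_eq_of_integral (R := V) (A := K) hb)
  rw [← hy]
  exact y.2

lemma CC_sigma (σ : K ≃ₐ[k] K) (hσ : σ u = u) (z : K) (hz : z ∈ CC k u) : σ z ∈ CC k u := by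
  have h1 : ∀ c ∈ Algebra.adjoin k {u}, σ c = c := by
    intro c hc
    induction hc using Algebra.adjoin_induction with
    | mem x hx =>
      rw [Set.mem_singleton_iff] at hx
      subst hx
      exact hσ
    | algebraMap r => exact AlgEquiv.commutes σ r
    | add x y _ _ hx hy => rw [map_add, hx, hy]
    | mul x y _ _ hx hy => rw [map_mul, hx, hy]
  obtain ⟨P, hP, hP0⟩ := (mem_CC k u).1 hz
  refine ⟨P, hP, ?_⟩
  have h2 := congrArg (σ : K →+* K) hP0
  rw [Polynomial.hom_eval₂, map_zero] at h2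
  have h3 : (σ : K →+* K).comp (algebraMap (Algebra.adjoin k {u}) K) =
      algebraMap (Algebra.adjoin k {u}) K := by
    ext x
    exact h1 x x.2
  rw [h3] at h2
  exact h2

end ring

end Pool.Agent.H920R2
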