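import Pool.Agent.H920R2.Cw2

set_option autoImplicit false
set_option linter.unusedSectionVars false

open Polynomial IntermediateField

universe u v

namespace Pool.Agent.H920R2

section choice

/-- `u` is a separating element of the function field `K`. -/
def SepEl (k : Type u) {K : Type u} [Field k] [Field K] [Algebra k K] (u : K) : Prop :=
  Transcendental k u ∧ Algebra.IsSeparable k⟮u⟯ K

variable {k K : Type u} [Field k] [Field K] [Algebra k K]

lemma tower_top_le {F₁ F₂ : IntermediateField k K} (h : F₁ ≤ F₂) (hs : Algebra.IsSeparable F₁ K) :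
    Algebra.IsSeparable F₂ K := by
  let _ : Algebra F₁ F₂ := (IntermediateField.inclusion h).toRingHom.toAlgebra
  have _ : IsScalarTower F₁ F₂ K := IsScalarTower.of_algebraMap_eq fun _ => rfl
  exact Algebra.isSeparable_tower_top_of_isSeparable F₁ F₂ K

lemma sepEl_of {x u : K} (hx : SepEl k x) (hxu : _root_.IsSeparable k⟮u⟯ x) : SepEl k u := by
  have h1 : Algebra.IsSeparable k⟮u⟯ k⟮u⟯⟮x⟯ :=
    (isSeparable_adjoin_simple_iff_isSeparable _ _).2 hxu
  have hle : k⟮x⟯ ≤ (k⟮u⟯⟮x⟯).restrictScalars k := by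
    rw [adjoin_simple_le_iff]
    exact mem_adjoin_simple_self _ x
  have h2' : Algebra.IsSeparable ((k⟮u⟯⟮x⟯).restrictScalars k) K := tower_top_le hle hx.2
  have h2 : Algebra.IsSeparable k⟮u⟯⟮x⟯ K := h2'
  have h3 : Algebra.IsSeparable k⟮u⟯ K := Algebra.IsSeparable.trans k⟮u⟯ k⟮u⟯⟮x⟯ K
  refine ⟨?_, h3⟩
  intro halg
  have h4 : Algebra.IsAlgebraic k k⟮u⟯ := isAlgebraic_adjoin_simple halg.isIntegral
  have h5 : Algebra.IsAlgebraic k⟮u⟯ K := Algebra.IsSeparable.isAlgebraic _ _
  have h6 : Algebra.IsAlgebraic k K := Algebra.IsAlgebraic.trans k k⟮u⟯ K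
  exact hx.1 (Algebra.IsAlgebraic.isAlgebraic x)

lemma SepEl.inv {u : K} (hu : SepEl k u) : SepEl k u⁻¹ := by
  have h1 : k⟮u⟯ ≤ k⟮u⁻¹⟯ := by
    rw [adjoin_simple_le_iff]
    have := inv_mem (mem_adjoin_simple_self k u⁻¹)
    rwa [inv_inv] at this
  exact ⟨fun h => hu.1 ((IsAlgebraic.inv_iff).1 h), tower_top_le h1 hu.2⟩

lemma SepEl.finite {u : K} (hu : SepEl k u) [Algebra.EssFiniteType k K] :
    FiniteDimensional k⟮u⟯ K := by
  have h1 := hu.2
  have h2 : Algebra.EssFiniteType k⟮u⟯ K := Algebra.EssFiniteType.of_comp k k⟮u⟯ K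
  have h3 : Algebra.IsAlgebraic k⟮u⟯ K := Algebra.IsSeparable.isAlgebraic _ _
  exact Algebra.finite_of_essFiniteType_of_isAlgebraic

variable {p : ℕ} (hp : p.Prime) (hpk : (p : k) = 0)

section root

variable {R : Type u} [CommRing R] [Nontrivial R] (G : R[X]) (hG : G.Monic) (u : R)

/-- The equation of `x` over the ring generated by `u`. -/
noncomputable def eqn (p : ℕ) (G : R[X]) (u : R) : R[X] := G ^ p * X + (1 - C u * G ^ p)

include hG in
lemma eqn_monic : (eqn p G u).Monic := by
  unfold eqn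
  have h1 : (G ^ p).Monic := hG.pow p
  refine (h1.mul monic_X).add_of_left ?_
  have h2 : (1 - C u * G ^ p).degree ≤ (G ^ p).degree := by
    refine (degree_sub_le _ _).trans (max_le ?_ ?_)
    · rw [degree_one, degree_eq_natDegree h1.ne_zero]
      exact_mod_cast Nat.zero_le _
    · rw [← smul_eq_C_mul]
      exact degree_smul_le _ _
  exact h2.trans_lt (degree_lt_degree_mul_X h1.ne_zero)

end root

include hp in
lemma eqn_deriv {F : Type u} [Field F] (hpF : (p : F) = 0) (G : F[X]) (u : F) :
    derivative (eqn p G u) = G ^ p := by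
  unfold eqn
  have h1 : derivative (G ^ p) = 0 := by
    rw [derivative_pow, hpF, C_0, zero_mul, zero_mul]
  rw [derivative_add, derivative_mul, h1, zero_mul, zero_add, derivative_X, mul_one,
    derivative_sub, derivative_one, derivative_mul, derivative_C, zero_mul, zero_add, h1,
    mul_zero, sub_zero, add_zero]

include hp hpk in
/-- `x` is separable over `k(u)`, `u = x + 1 / G(x) ^ p`. -/
lemma isSeparable_x (G : k[X]) (x : K) (hg : aeval x G ≠ 0) (hGm : G.Monic) :
    _root_.IsSeparable k⟮x + (aeval x G ^ p)⁻¹⟯ x := by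
  set u := x + (aeval x G ^ p)⁻¹ with hu
  let E := k⟮u⟯
  let u' : E := ⟨u, mem_adjoin_simple_self k u⟩
  let G' : E[X] := G.map (algebraMap k E)
  let P : E[X] := eqn p G' u'
  have hPm : P.Monic := eqn_monic G' (hGm.map _) u'
  have hpE : (p : E) = 0 := by
    have := congrArg (algebraMap k E) hpk
    rwa [map_natCast, map_zero] at this
  have hG'x : aeval x G' = aeval x G := aeval_map_algebraMap E x G
  have hPx : aeval x P = 0 := by
    change aeval x (eqn p G' u') = 0
    unfold eqn
    rw [map_add, map_mul, map_pow, aeval_X, map_sub, map_one, map_mul, aeval_C, map_pow, hG'x]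
    change aeval x G ^ p * x + (1 - u * aeval x G ^ p) = 0
    rw [hu, add_mul, inv_mul_cancel₀ (pow_ne_zero _ hg)]
    ring
  have hint : IsIntegral E x := ⟨P, hPm, hPx⟩
  obtain ⟨Q, hQ⟩ := minpoly.dvd E x hPx
  have hd := eqn_deriv hp hpE G' u'
  change derivative P = _ at hd
  have hne : aeval x (derivative (minpoly E x)) ≠ 0 := by
    intro h0
    have h1 : aeval x (derivative P) = 0 := by
      rw [hQ, derivative_mul, map_add, map_mul, map_mul, h0, minpoly.aeval, zero_mul, zero_mul,
        add_zero]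
    rw [hd, map_pow, hG'x] at h1
    exact pow_ne_zero _ hg h1
  change (minpoly E x).Separable
  rw [separable_iff_derivative_ne_zero (minpoly.irreducible hint)]
  intro h0
  apply hne
  rw [h0, map_zero]

/-- `x` is integral over `k[u]`. -/
lemma x_mem_CC (G : k[X]) (x : K) (hg : aeval x G ≠ 0) (hGm : G.Monic) :
    x ∈ CC k (x + (aeval x G ^ p)⁻¹) := by
  set u := x + (aeval x G ^ p)⁻¹ with hu
  let E := Algebra.adjoin k {u}
  let u' : E := ⟨u, Algebra.self_mem_adjoin_singleton k u⟩
  let G' : E[X] := G.map (algebraMap k E)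
  let P : E[X] := eqn p G' u'
  have hPm : P.Monic := eqn_monic G' (hGm.map _) u'
  have hG'x : aeval x G' = aeval x G := aeval_map_algebraMap E x G
  have hPx : aeval x P = 0 := by
    change aeval x (eqn p G' u') = 0
    unfold eqn
    rw [map_add, map_mul, map_pow, aeval_X, map_sub, map_one, map_mul, aeval_C, map_pow, hG'x]
    change aeval x G ^ p * x + (1 - u * aeval x G ^ p) = 0
    rw [hu, add_mul, inv_mul_cancel₀ (pow_ne_zero _ hg)]
    ring
  exact ⟨P, hPm, hPx⟩

end choice

end Pool.Agent.H920R2
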