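import Pool.Agent.H920R2.Cw3

set_option autoImplicit false
set_option linter.unusedSectionVars false

open Polynomial IntermediateField

universe u v

namespace Pool.Agent.H920R2

section choice

variable {k K : Type u} [Field k] [Field K] [Algebra k K] 

/-- An element of the different of the action which comes from `k[x]`. -/
lemma exists_G [Algebra.EssFiniteType k K] (σ : K ≃ₐ[k] K) {x : K} (hx : SepEl k x)
    (hσx : σ x = x) (hne : ∃ z, σ z ≠ z) :
    ∃ G : k[X], G.Monic ∧ aeval x G ≠ 0 ∧ ∃ (n : ℕ) (a c : Fin n → K),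
      (∀ i, a i ∈ CC k x) ∧ (∀ i, c i ∈ CC k x) ∧ aeval x G = ∑ i, c i * (σ (a i) - a i) := by
  have hfin := hx.finite
  have hsep := hx.2
  have hfr := (CC_dedekind k x).2.2
  let J : Ideal (CC k x) := Ideal.span (Set.range fun a : CC k x =>
    (⟨σ a - a, Subalgebra.sub_mem _ (CC_sigma k x σ hσx a a.2) a.2⟩ : CC k x))
  obtain ⟨a, ha⟩ : ∃ a : CC k x, σ a ≠ a := by
    by_contra hcon
    push Not at hcon
    obtain ⟨z, hz⟩ := hne
    apply hz
    obtain ⟨a, b, hb, rfl⟩ := IsFractionRing.div_surjective (A := CC k x) z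
    change σ ((a : K) / (b : K)) = (a : K) / (b : K)
    rw [map_div₀, hcon, hcon]
  let J' : Ideal (integralClosure (Algebra.adjoin k {x}) K) := J
  have hy : (⟨σ a - a, Subalgebra.sub_mem _ (CC_sigma k x σ hσx a a.2) a.2⟩ : CC k x) ∈ J :=
    Ideal.subset_span ⟨a, rfl⟩
  have hy0 : (⟨σ a - a, Subalgebra.sub_mem _ (CC_sigma k x σ hσx a a.2) a.2⟩ : CC k x) ≠ 0 := by
    intro h
    exact ha (sub_eq_zero.1 (congrArg Subtype.val h))
  have hJ : J'.comap (algebraMap (Algebra.adjoin k {x})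
      (integralClosure (Algebra.adjoin k {x}) K)) ≠ ⊥ :=
    Ideal.comap_ne_bot_of_integral_mem (x := (⟨σ a - a,
      Subalgebra.sub_mem _ (CC_sigma k x σ hσx a a.2) a.2⟩ :
        integralClosure (Algebra.adjoin k {x}) K)) hy0 hy (Algebra.IsIntegral.isIntegral _)
  obtain ⟨c, hcJ, hc0⟩ := Submodule.exists_mem_ne_zero_of_ne_bot hJ
  obtain ⟨G0, hG0⟩ :=
    (SetLike.ext_iff.1 (Algebra.adjoin_singleton_eq_range_aeval k x) (c : K)).1 c.2
  change aeval x G0 = (c : K) at hG0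
  have hG00 : G0 ≠ 0 := by
    intro h
    rw [h, map_zero] at hG0
    exact hc0 (Subtype.ext hG0.symm)
  have hlc : G0.leadingCoeff ≠ 0 := leadingCoeff_ne_zero.2 hG00
  have hcJ' : (⟨(c : K), adj_le_CC k x c.2⟩ : CC k x) ∈ J := hcJ
  refine ⟨G0 * C G0.leadingCoeff⁻¹, monic_mul_leadingCoeff_inv hG00, ?_, ?_⟩
  · rw [map_mul, hG0, aeval_C]
    refine mul_ne_zero (fun h => hc0 (Subtype.ext h)) ?_
    exact (_root_.map_ne_zero _).2 (inv_ne_zero hlc)
  · have h1 := J.mul_mem_left (algebraMap k (CC k x) G0.leadingCoeff⁻¹) hcJ'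
    obtain ⟨n, f, g, hfg⟩ := Submodule.mem_span_set'.1 h1
    choose b hb using fun i => (g i).2
    refine ⟨n, fun i => b i, fun i => f i, fun i => (b i).2, fun i => (f i).2, ?_⟩
    rw [map_mul, hG0, aeval_C, mul_comm]
    have h2 := congrArg (fun z : CC k x => (z : K)) hfg
    change ((∑ i, f i • ((g i : CC k x)) : CC k x) : K) = algebraMap k K _ * (c : K) at h2
    rw [← h2, AddSubmonoidClass.coe_finsetSum]
    refine Finset.sum_congr rfl fun i _ => ?_
    rw [← hb i]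
    rfl

lemma CC_mono {x u : K} (h : x ∈ CC k u) : CC k x ≤ CC k u := by
  intro z hz
  apply CC_closed
  have h1 : ∀ c ∈ Algebra.adjoin k {x}, c ∈ CC k u := by
    have : Algebra.adjoin k {x} ≤ CC k u := by
      rw [Algebra.adjoin_le_iff]
      rintro y rfl
      exact h
    exact this
  obtain ⟨P, hP, hP0⟩ := (mem_CC k x).1 hz
  let φ : Algebra.adjoin k {x} →+* (CC k u).toSubring :=
    ((Algebra.adjoin k {x}).val.toRingHom).codRestrict (CC k u).toSubring (fun y => h1 y y.2)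
  refine ⟨P.map φ, hP.map φ, ?_⟩
  rw [Polynomial.eval₂_map]
  exact hP0

/-- A separating invariant element whose poles contain the fixed points. -/
theorem exists_curve [Algebra.EssFiniteType k K] {p : ℕ} (hp : p.Prime) (hpk : (p : k) = 0)
    (σ : K ≃ₐ[k] K) {x : K} (hx : SepEl k x) (hσx : σ x = x) :
    ∃ u : K, SepEl k u ∧ σ u = u ∧ ((∃ z, σ z ≠ z) → ∃ (n : ℕ) (a c : Fin n → K),
      (∀ i, a i ∈ CC k u) ∧ (∀ i, c i ∈ CC k u) ∧ 1 = ∑ i, c i * (σ (a i) - a i)) := by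
  by_cases hne : ∃ z, σ z ≠ z
  swap
  · exact ⟨x, hx, hσx, fun h => absurd h hne⟩
  obtain ⟨G, hG, hg, n, a, c, ha, hc, hsum⟩ := exists_G σ hx hσx hne
  set g := aeval x G with hgdef
  refine ⟨x + (g ^ p)⁻¹, sepEl_of hx (isSeparable_x hp hpk G x hg hG), ?_, fun _ => ?_⟩
  · have h1 : σ g = g := by
      rw [hgdef]
      have := Polynomial.aeval_algHom_apply (σ : K →ₐ[k] K) x G
      change aeval (σ x) G = σ (aeval x G) at this
      rw [← this, hσx]
    rw [map_add, map_inv₀, map_pow, hσx, h1]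
  · have hxC := x_mem_CC (p := p) G x hg hG
    rw [← hgdef] at hxC
    have hgC : g ∈ CC k (x + (g ^ p)⁻¹) := by
      have h1 : g ∈ Algebra.adjoin k {x} := by
        rw [Algebra.adjoin_singleton_eq_range_aeval]
        exact ⟨G, rfl⟩
      exact CC_mono hxC (adj_le_CC k x h1)
    have hgi : g⁻¹ ∈ CC k (x + (g ^ p)⁻¹) := by
      have h1 : (g ^ p)⁻¹ ∈ CC k (x + (g ^ p)⁻¹) := by
        have := Subalgebra.sub_mem _ (u_mem_CC k (x + (g ^ p)⁻¹)) hxC
        rwa [add_sub_cancel_left] at this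
      have h2 : g⁻¹ = g ^ (p - 1) * (g ^ p)⁻¹ := by
        obtain ⟨q, rfl⟩ := Nat.exists_eq_add_of_le' hp.one_lt.le
        rw [Nat.add_sub_cancel, pow_succ, mul_inv, ← mul_assoc,
          mul_inv_cancel₀ (pow_ne_zero q hg), one_mul]
      rw [h2]
      exact Subalgebra.mul_mem _ (Subalgebra.pow_mem _ hgC _) h1
    refine ⟨n, a, fun i => g⁻¹ * c i, fun i => CC_mono hxC (ha i),
      fun i => Subalgebra.mul_mem _ hgi (CC_mono hxC (hc i)), ?_⟩
    have h3 : ∑ i, g⁻¹ * c i * (σ (a i) - a i) = g⁻¹ * ∑ i, c i * (σ (a i) - a i) := by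
      rw [Finset.mul_sum]
      exact Finset.sum_congr rfl fun i _ => mul_assoc _ _ _
    rw [h3, ← hsum, inv_mul_cancel₀ hg]

end choice

end Pool.Agent.H920R2
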