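import Pool.Agent.H920R2.Gl7

set_option autoImplicit false
set_option linter.unusedSectionVars false

open MvPolynomial AlgebraicGeometry CategoryTheory

universe u v

namespace Pool.Agent.H920R2

/-- The ratio of the homogeneous coordinates of the projective line. -/
noncomputable def rr {L : Type u} [Field L] (h : L) (c c' : Bool) : L :=
  (if c' then h else 1) / (if c then h else 1)

/-- The field of invariants of an automorphism. -/
def fixF {k L : Type u} [Field k] [Field L] [Algebra k L] (τ : L ≃ₐ[k] L) :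
    IntermediateField k L where
  carrier := {x | τ x = x}
  mul_mem' {a b} ha hb := by
    change τ (a * b) = a * b
    rw [map_mul, show τ a = a from ha, show τ b = b from hb]
  one_mem' := map_one τ
  add_mem' {a b} ha hb := by
    change τ (a + b) = a + b
    rw [map_add, show τ a = a from ha, show τ b = b from hb]
  zero_mem' := map_zero τ
  algebraMap_mem' r := AlgEquiv.commutes τ r
  inv_mem' a ha := by
    change τ a⁻¹ = a⁻¹
    rw [map_inv₀, show τ a = a from ha]

lemma mem_fixF {k L : Type u} [Field k] [Field L] [Algebra k L] (τ : L ≃ₐ[k] L) (x : L) :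
    x ∈ fixF τ ↔ τ x = x := Iff.rfl

section global

variable {k : Type u} [Field k] [PerfectField k] {p : ℕ} (hp : p.Prime) (hpk : (p : k) = 0)
  {ι : Type} [Fintype ι] {L : Type u} [Field L] [Algebra k L]
  {A : ι → Bool → Type u} [∀ i c, CommRing (A i c)] [∀ i c, IsDedekindDomain (A i c)]
  [∀ i c, Algebra k (A i c)] (G : ∀ i c, A i c →ₐ[k] L)
  {h : ι → L} (h0 : ∀ i, h i ≠ 0)
  (y : ∀ i, A i false) (hy : ∀ i, G i false (y i) = h i)
  (y' : ∀ i, A i true) (hy' : ∀ i, G i true (y' i) = (h i)⁻¹)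
  (hft : ∀ i (x : A i true), ∃ (n : ℕ) (z : A i false), h i ^ n * G i true x = G i false z)
  (htf : ∀ i (x : A i false), ∃ (n : ℕ) (z : A i true), (h i)⁻¹ ^ n * G i false x = G i true z)
  {N : ι → Prop} {S : ∀ i c, Finset (Ideal (A i c))} {w : ∀ i c, Ideal (A i c) → ℕ}
  (hw1 : ∀ i, N i → ∀ c, ∀ P ∈ S i c, 1 ≤ w i c P)
  (hSt : ∀ i, N i → S i true = ∅) (hSf : ∀ i, N i → ∀ P ∈ S i false, y i ∈ P)

include h0 hy hy' in
lemma rr_mem (i : ι) (c c' : Bool) : ∃ x : A i c, G i c x = rr (h i) c c' := by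
  cases c <;> cases c'
  · exact ⟨1, by simp [rr]⟩
  · exact ⟨y i, by simp [rr, hy]⟩
  · exact ⟨y' i, by simp [rr, hy']⟩
  · refine ⟨1, ?_⟩
    rw [map_one, rr, if_pos rfl, div_self (h0 i)]

include h0 hy hft htf hw1 hSt hSf in
lemma rr_gl (i : ι) (c c' : Bool) (x : A i c') (d : ℕ)
    (hd : (N i ∧ WG (S i c') (w i c') d x) ∨ d = 0) :
    ∃ (n : ℕ) (z : A i c), rr (h i) c c' ^ n * G i c' x = G i c z ∧
      ((N i ∧ WG (S i c) (w i c) d z) ∨ d = 0) := by
  cases c <;> cases c'
  · exact ⟨0, x, by simp, hd⟩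
  · obtain ⟨n, z, hz⟩ := hft i x
    refine ⟨n + d, y i ^ d * z, ?_, ?_⟩
    · rw [map_mul, map_pow, hy, ← hz]
      simp only [rr, if_true, Bool.false_eq_true, if_false, div_one]
      ring
    · rcases hd with ⟨hN, -⟩ | hd
      · refine Or.inl ⟨hN, ?_⟩
        intro P hP
        refine ⟨d, Nat.le_mul_of_pos_left _ (hw1 i hN _ P hP), ?_⟩
        exact Ideal.mul_mem_right _ _ (Ideal.pow_mem_pow (hSf i hN P hP) d)
      · exact Or.inr hd
  · obtain ⟨n, z, hz⟩ := htf i x
    refine ⟨n, z, ?_, ?_⟩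
    · rw [← hz]
      simp only [rr, if_true, Bool.false_eq_true, if_false, one_div]
    · rcases hd with ⟨hN, -⟩ | hd
      · refine Or.inl ⟨hN, ?_⟩
        intro P hP
        rw [hSt i hN] at hP
        exact absurd hP (Finset.notMem_empty P)
      · exact Or.inr hd
  · exact ⟨0, x, by simp, hd⟩

variable {B : (ι → Bool) → Type u} [∀ a, CommRing (B a)] [∀ a, IsDomain (B a)]
  [∀ a, Algebra k (B a)] {j : ∀ (a : ι → Bool) i, A i (a i) →ₐ[k] B a}
  (hj : ∀ a, IsCoprod k (j a)) (gB : ∀ a, B a →ₐ[k] L)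
  (hG : ∀ a i x, gB a (j a i x) = G i (a i) x)

include h0 hy hy' hj hG in
lemma hh_rt (a b : ι → Bool) (s : Finset ι) : hm 0 (∏ i ∈ s, rr (h i) (a i) (b i)) ∈
    RC (gB a) (j a) N (fun i => S i (a i)) (fun i => w i (a i)) := by
  classical
  induction s using Finset.induction_on with
  | empty => rw [Finset.prod_empty]; exact Subalgebra.one_mem _
  | insert i s hi ih =>
    rw [Finset.prod_insert hi]
    obtain ⟨x, hx⟩ := rr_mem G h0 y hy y' hy' i (a i) (b i)
    have h1 : hm 0 (rr (h i) (a i) (b i)) ∈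
        RC (gB a) (j a) N (fun i => S i (a i)) (fun i => w i (a i)) := by
      rw [← hx, ← hG]
      exact RC_b (hj a) (gB a) _
    have h2 := Subalgebra.mul_mem _ h1 ih
    rw [hm_mul, add_zero] at h2
    exact h2

include h0 hy hy' hft htf hw1 hSt hSf hj hG in
lemma hh_gl (a b : ι → Bool) (f : LP L)
    (hf : f ∈ RC (gB b) (j b) N (fun i => S i (b i)) (fun i => w i (b i))) :
    ∃ n : ℕ, hm 0 (∏ i, rr (h i) (a i) (b i)) ^ n * f ∈
      RC (gB a) (j a) N (fun i => S i (a i)) (fun i => w i (a i)) := by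
  classical
  have hrt := hh_rt (N := N) (S := S) (w := w) G h0 y hy y' hy' hj gB hG a b Finset.univ
  have hle : RC (gB b) (j b) N (fun i => S i (b i)) (fun i => w i (b i)) ≤
      loc (RC (gB a) (j a) N (fun i => S i (a i)) (fun i => w i (a i)))
        (hm 0 (∏ i, rr (h i) (a i) (b i))) hrt := by
    conv_lhs => unfold RC
    rw [Algebra.adjoin_le_iff]
    rintro x (hx | ⟨i, d, x, hd, rfl⟩)
    · rw [hx]
      exact le_loc _ _ _ (RC_s (gB a))
    · obtain ⟨n, z, hz, hzd⟩ := rr_gl G h0 y hy hft htf hw1 hSt hSf i (a i) (b i) x d hd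
      refine ⟨n, ?_⟩
      rw [hG, ← Finset.mul_prod_erase Finset.univ _ (Finset.mem_univ i)]
      have h1 : hm 0 (rr (h i) (a i) (b i) * ∏ i' ∈ Finset.univ.erase i,
            rr (h i') (a i') (b i')) ^ n * hm d (G i (b i) x) =
          hm 0 (∏ i' ∈ Finset.univ.erase i, rr (h i') (a i') (b i')) ^ n *
            hm d (gB a (j a i z)) := by
        rw [hG, ← hz, hm_pow, hm_pow, hm_mul, hm_mul]
        congr 1
        ring
      rw [h1]
      exact Subalgebra.mul_mem _ (Subalgebra.pow_mem _ (hh_rt G h0 y hy y' hy' hj gB hG a b _) _)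
        (RC_g (A := fun i => A i (a i)) (j := j a) (N := N) (S := fun i => S i (a i))
          (w := fun i => w i (a i)) (gB a) i d z hzd)
  exact hle hf

end global

end Pool.Agent.H920R2
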