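import Pool.Agent.H920R2.Cw4
import Pool.Agent.H920R2.Gl8

set_option autoImplicit false
set_option linter.unusedSectionVars false

open Polynomial IntermediateField

universe u v

namespace Pool.Agent.H920R2

section fg

variable {k K : Type u} [Field k] [Field K] [Algebra k K]

/-- A subextension of a finitely generated field extension is finitely generated (algebraic
case). -/
theorem essFiniteType_sub [Algebra.EssFiniteType k K] (K₀ : IntermediateField k K)
    [Algebra.IsAlgebraic K₀ K] : Algebra.EssFiniteType k K₀ := by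
  classical
  obtain ⟨s, hs⟩ := fg_top k K
  let T : Finset K := s.biUnion fun z => ((minpoly K₀ z).coeffs).image (algebraMap K₀ K)
  let E : IntermediateField k K := adjoin k (T : Set K)
  have hE : E ≤ K₀ := by
    rw [adjoin_le_iff]
    intro x hx
    obtain ⟨z, -, hz⟩ := Finset.mem_biUnion.1 (Finset.mem_coe.1 hx)
    obtain ⟨c, -, rfl⟩ := Finset.mem_image.1 hz
    exact c.2
  have hint : ∀ z ∈ s, IsIntegral E z := by
    intro z hz
    have hmon : (minpoly K₀ z).Monic := minpoly.monic (Algebra.IsIntegral.isIntegral z)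
    have hl : (minpoly K₀ z).map (algebraMap K₀ K) ∈ lifts (algebraMap E K) := by
      rw [lifts_iff_coeff_lifts]
      intro n
      rw [coeff_map]
      by_cases h0 : (minpoly K₀ z).coeff n = 0
      · exact ⟨0, by rw [h0, map_zero, map_zero]⟩
      · refine ⟨⟨algebraMap K₀ K ((minpoly K₀ z).coeff n), ?_⟩, rfl⟩
        apply subset_adjoin
        rw [Finset.mem_coe, Finset.mem_biUnion]
        exact ⟨z, hz, Finset.mem_image_of_mem _ (coeff_mem_coeffs h0)⟩
    obtain ⟨Q, hQ, -, hQm⟩ := lifts_and_natDegree_eq_and_monic hl (hmon.map _)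
    refine ⟨Q, hQm, ?_⟩
    rw [← eval_map, hQ, eval_map]
    exact minpoly.aeval K₀ z
  have htop : adjoin E (s : Set K) = ⊤ := by
    rw [eq_top_iff]
    intro x _
    have h1 : adjoin k (s : Set K) ≤ (adjoin E (s : Set K)).restrictScalars k := by
      rw [adjoin_le_iff]
      exact subset_adjoin E _
    rw [hs] at h1
    exact h1 (mem_top (x := x))
  have halg : Algebra.IsAlgebraic E K := by
    have h1 : Algebra.IsAlgebraic E (adjoin E (s : Set K)) := isAlgebraic_adjoin hint
    rw [htop] at h1
    exact (topEquiv (F := E) (E := K)).isAlgebraic_iff.1 h1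
  have hess : Algebra.EssFiniteType E K := Algebra.EssFiniteType.of_comp k E K
  have hfin : Module.Finite E K := Algebra.finite_of_essFiniteType_of_isAlgebraic
  have hfgE : Algebra.EssFiniteType k E := essFiniteType_iff.2 ⟨T, rfl⟩
  have h1 : FiniteDimensional E (extendScalars hE) := inferInstance
  have h2 : Algebra.EssFiniteType E (extendScalars hE) := inferInstance
  have h3 : Algebra.EssFiniteType k (extendScalars hE) :=
    Algebra.EssFiniteType.comp k E (extendScalars hE)
  exact h3

/-- The field is separable over the field of invariants of an automorphism of finite order. -/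
lemma isSeparable_fixF (σ : K ≃ₐ[k] K) {p : ℕ} (hp : 0 < p) (hσ : ∀ x, σ^[p] x = x) :
    Algebra.IsSeparable (fixF σ) K := by
  have hpow : ∀ (n : ℕ) x, (σ ^ n) x = σ^[n] x := by
    intro n
    induction n with
    | zero => intro x; rfl
    | succ n ih => intro x; rw [pow_succ, Function.iterate_succ_apply, ← ih]; rfl
  have h1 : σ ^ p = 1 := by
    ext x
    rw [hpow, hσ]
    rfl
  have hfin : Finite (Subgroup.zpowers σ) :=
    (isOfFinOrder_iff_pow_eq_one.2 ⟨p, hp, h1⟩).finite_zpowers.to_subtype
  have heq : (fixF σ).toSubfield = FixedPoints.subfield (Subgroup.zpowers σ) K := by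
    ext x
    constructor
    · intro hx
      change σ x = x at hx
      rintro ⟨g, n, rfl⟩
      change (σ ^ n) x = x
      have h2 : σ ∈ MulAction.stabilizer (K ≃ₐ[k] K) x := hx
      exact (MulAction.stabilizer (K ≃ₐ[k] K) x).zpow_mem h2 n
    · intro hx
      exact hx ⟨σ, Subgroup.mem_zpowers σ⟩
  have h3 : Algebra.IsSeparable (fixF σ).toSubfield K := by
    rw [heq]
    infer_instance
  exact h3

/-- An invariant separating element. -/
theorem exists_sep_fixed [PerfectField k] [Algebra.EssFiniteType k K]
    (htr : Algebra.trdeg k K = 1) (σ : K ≃ₐ[k] K) {p : ℕ} (hp : 0 < p)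
    (hσ : ∀ x, σ^[p] x = x) : ∃ x, SepEl k x ∧ σ x = x := by
  have hsep := isSeparable_fixF σ hp hσ
  have halg : Algebra.IsAlgebraic (fixF σ) K := Algebra.IsSeparable.isAlgebraic _ _
  have hess := essFiniteType_sub (fixF σ)
  obtain ⟨s, hs, hs2⟩ := exists_isTranscendenceBasis_and_isSeparable_of_perfectField k (fixF σ)
  have hs3 := hs.algebraMap_comp (A := K)
  have hcard := hs3.cardinalMk_eq_trdeg
  rw [htr] at hcard
  have hc1 : Fintype.card s = 1 := by
    rw [Cardinal.mk_fintype] at hcard
    exact_mod_cast hcard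
  rw [Fintype.card_coe, Finset.card_eq_one] at hc1
  obtain ⟨x, rfl⟩ := hc1
  refine ⟨x, ⟨?_, ?_⟩, x.2⟩
  · have h1 := hs3.1.transcendental ⟨x, Finset.mem_singleton_self x⟩
    exact h1
  · let F : IntermediateField k (fixF σ) := adjoin k (({x} : Finset (fixF σ)) : Set (fixF σ))
    have h1 : Algebra.IsSeparable F (fixF σ) := hs2
    have h2 : Algebra.IsSeparable F K := Algebra.IsSeparable.trans F (fixF σ) K
    have hle : ∀ c : F, algebraMap F K c ∈ k⟮(x : K)⟯ := by
      rintro ⟨c, hc⟩
      change (c : K) ∈ k⟮(x : K)⟯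
      have h3 : F ≤ (k⟮(x : K)⟯).comap (fixF σ).val := by
        rw [adjoin_le_iff]
        intro y hy
        rw [Finset.coe_singleton, Set.mem_singleton_iff] at hy
        rw [hy]
        exact mem_adjoin_simple_self k (x : K)
      exact h3 hc
    let _ : Algebra F k⟮(x : K)⟯ :=
      ((algebraMap F K).codRestrict (k⟮(x : K)⟯).toSubfield hle).toAlgebra
    have _ : IsScalarTower F k⟮(x : K)⟯ K := IsScalarTower.of_algebraMap_eq fun _ => rfl
    exact Algebra.isSeparable_tower_top_of_isSeparable F k⟮(x : K)⟯ K

end fg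

end Pool.Agent.H920R2
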