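import Pool.Agent.H920R2.Gl2

set_option autoImplicit false
set_option linter.unusedSectionVars false

open AlgebraicGeometry CategoryTheory

universe u v

namespace Pool.Agent.H920R2

section model

variable {k K : Type u} [Field k] [Field K] [Algebra k K]

/-- Homogeneous coordinates of a smooth projective model of `Kf`. -/
structure ModelG (k : Type u) {K : Type u} [Field k] [Field K] [Algebra k K] {𝒜 : Type}
    (W : 𝒜 → Set K) (Kf : Subfield K) {I : Type u} (z : I → K)
    (J : Set I) : Prop where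
  zK : ∀ i, z i ∈ Kf
  z0 : ∀ j ∈ J, z j ≠ 0
  cv : ∀ V : ValuationSubring K, (∀ c : k, algebraMap k K c ∈ V) →
    ∃ j ∈ J, ∀ i, z i / z j ∈ V
  sm : ∀ j ∈ J, Algebra.Smooth k (Algebra.adjoin k (Set.range fun i => z i / z j))
  aa : ∀ j ∈ J, ∃ a, W a ⊆ (Algebra.adjoin k (Set.range fun i => z i / z j) : Set K)

variable {𝒜 : Type} {W : 𝒜 → Set K} {Kf : Subfield K}

theorem model_of_atlasG_one {T : Type u} [Finite T] {C : T → Subalgebra k (LP K)} {H : T → K}
    (h : AtlasG W Kf 1 C H) : ∃ (I : Type u) (_ : Finite I) (z : I → K) (J : Set I),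
      ModelG k W Kf z J := by
  classical
  have : Fintype T := Fintype.ofFinite T
  have hsm : ∀ t, Algebra.Smooth k (d0 (C t)) := by
    intro t
    obtain ⟨r, hr, hr1, u, hu0, hu, hu'⟩ := h.un t
    have hr' : r = 1 := by omega
    subst hr'
    exact smooth_d0 (h.sm t) (h.gr t) hu0 (by exact_mod_cast hu') (by exact_mod_cast hu)
  have hfg : ∀ t, ∃ G : Finset K, Algebra.adjoin k (G : Set K) = d0 (C t) := by
    intro t
    have h1 := hsm t
    have h2 : Algebra.FiniteType k (d0 (C t)) := inferInstance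
    obtain ⟨G, hG⟩ := (Subalgebra.fg_iff_finiteType _).2 h2
    exact ⟨G, hG⟩
  choose G hG using hfg
  have hGm : ∀ t, ∀ x ∈ G t, hm 0 x ∈ C t := by
    intro t x hx
    have : x ∈ d0 (C t) := by rw [← hG t]; exact Algebra.subset_adjoin hx
    exact this
  -- a common exponent
  have h1 : ∀ p : (Σ t, {x // x ∈ G t}), ∃ n : ℕ,
      ∀ t, hm 0 ((H p.1 / H t) ^ n * p.2.1) ∈ C t := by
    rintro ⟨t, x, hx⟩
    choose m hm' using fun t' => h.gl t' t _ (hGm t x hx)
    refine ⟨Finset.univ.sup m, ?_⟩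
    intro t'
    have h2 : m t' ≤ Finset.univ.sup m := Finset.le_sup (Finset.mem_univ t')
    obtain ⟨e, he⟩ := Nat.exists_eq_add_of_le h2
    have h3 : hm 0 ((H t / H t') ^ (Finset.univ.sup m) * x) =
        hm 0 (H t / H t') ^ e * (hm 0 (H t / H t') ^ m t' * hm 0 x) := by
      rw [hm_pow, hm_pow, hm_mul, hm_mul, he]
      congr 1
      ring
    rw [h3]
    exact (C t').mul_mem ((C t').pow_mem (h.rt t' t) _) (hm' t')
  choose N hN2 using h1
  let M : ℕ := Finset.univ.sup N
  have hNM : ∀ p, N p ≤ M := fun p => Finset.le_sup (Finset.mem_univ p)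
  let z : T ⊕ (Σ t, {x // x ∈ G t}) → K := Sum.elim (fun t => H t ^ M) (fun p => H p.1 ^ M * p.2.1)
  have hz : ∀ t i, hm 0 (z i / z (Sum.inl t)) ∈ C t := by
    intro t i
    rcases i with t' | p
    · have e2 : hm 0 (H t' ^ M / H t ^ M) = hm 0 (H t' / H t) ^ M := by
        rw [hm_pow, mul_zero, div_pow]
      change hm 0 (H t' ^ M / H t ^ M) ∈ C t
      rw [e2]
      exact (C t).pow_mem (h.rt t t') M
    · obtain ⟨e, he⟩ := Nat.exists_eq_add_of_le (hNM p)
      have e2 : hm 0 (H p.1 ^ M * p.2.1 / H t ^ M) =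
          hm 0 (H p.1 / H t) ^ e * hm 0 ((H p.1 / H t) ^ N p * p.2.1) := by
        rw [hm_pow, hm_mul, he]
        congr 1
        rw [← mul_assoc, ← pow_add, div_pow, add_comm]
        ring
      change hm 0 (H p.1 ^ M * p.2.1 / H t ^ M) ∈ C t
      rw [e2]
      exact (C t).mul_mem ((C t).pow_mem (h.rt t p.1) _) (hN2 p t)
  have hz0 : ∀ t, z (Sum.inl t) ≠ 0 := fun t => pow_ne_zero M (h.H0 t)
  have hch : ∀ t, Algebra.adjoin k (Set.range fun i => z i / z (Sum.inl t)) = d0 (C t) := by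
    intro t
    apply le_antisymm
    · rw [Algebra.adjoin_le_iff]
      rintro _ ⟨i, rfl⟩
      exact hz t i
    · rw [← hG t, Algebra.adjoin_le_iff]
      intro x hx
      apply Algebra.subset_adjoin
      refine ⟨Sum.inr ⟨t, x, hx⟩, ?_⟩
      change H t ^ M * x / H t ^ M = x
      have := pow_ne_zero M (h.H0 t)
      field_simp
  refine ⟨T ⊕ (Σ t, {x // x ∈ G t}), inferInstance, z, Set.range Sum.inl, ?_⟩
  refine
    { zK := ?_
      z0 := ?_
      cv := ?_
      sm := ?_
      aa := ?_ }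
  · rintro (t | ⟨t, x, hx⟩)
    · exact Kf.pow_mem (h.HK t) _
    · exact Kf.mul_mem (Kf.pow_mem (h.HK t) _) (h.inF _ _ _ (hGm t x hx))
  · rintro _ ⟨t, rfl⟩
    exact hz0 t
  · intro V hV
    obtain ⟨t, ht⟩ := h.cv V hV
    exact ⟨Sum.inl t, ⟨t, rfl⟩, fun i => ht _ (hz t i)⟩
  · rintro _ ⟨t, rfl⟩
    rw [hch t]
    exact hsm t
  · rintro _ ⟨t, rfl⟩
    obtain ⟨a, ha⟩ := h.aa t
    refine ⟨a, ?_⟩
    rw [hch t]
    exact fun x hx => ha x hx

theorem not_atlasG_zero {T : Type u} [Finite T] {C : T → Subalgebra k (LP K)} {H : T → K}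
    (h : AtlasG W Kf 0 C H) : False := by
  obtain ⟨t, -⟩ := h.cv ⊤ (fun _ => trivial)
  obtain ⟨r, hr, hr0, -⟩ := h.un t
  omega

/-- Every atlas gives a smooth projective model. -/
theorem model_of_atlasG (ρ : ℕ) : ∀ {T : Type u} [Finite T] {C : T → Subalgebra k (LP K)}
    {H : T → K}, AtlasG W Kf ρ C H → ∃ (I : Type u) (_ : Finite I) (z : I → K) (J : Set I),
      ModelG k W Kf z J := by
  induction ρ with
  | zero =>
    intro T _ C H h
    exact (not_atlasG_zero h).elim
  | succ ρ ih =>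
    intro T _ C H h
    rcases Nat.eq_zero_or_pos ρ with rfl | hρ
    · exact model_of_atlasG_one h
    · obtain ⟨T', hT', C', H', h', hG⟩ := atlasG_refine h
      obtain ⟨T'', hT'', C'', H'', h''⟩ := atlasG_step (by omega) h' hG
      exact ih h''

end model

end Pool.Agent.H920R2
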