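import Pool.Agent.H920R2.Gl8
import Pool.Agent.H920R2.Gl3
import Pool.Agent.H920R2.Cu10

set_option autoImplicit false
set_option linter.unusedSectionVars false

open MvPolynomial AlgebraicGeometry CategoryTheory

universe u v

namespace Pool.Agent.H920R2

section frac

variable {k B L : Type u} [Field k] [CommRing B] [IsDomain B] [Algebra k B] [Field L]
  [Algebra k L] {p : ℕ}
  (hp : 0 < p) (gB : B →ₐ[k] L) (hinj : Function.Injective gB) (σ : B ≃ₐ[k] B)
  (hσ : ∀ b, σ^[p] b = b) (τ : L ≃ₐ[k] L) (hτ : ∀ b, τ (gB b) = gB (σ b))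

include hp hinj hσ hτ in
/-- The field of invariants is the fraction field of the ring of invariants. -/
lemma fixF_frac (x : L) (hx : τ x = x) (hfr : ∃ b b', gB b' ≠ 0 ∧ x = gB b / gB b') :
    ∃ y ∈ Set.range (gA gB σ), ∃ y' ∈ Set.range (gA gB σ), y' ≠ 0 ∧ x = y / y' := by
  obtain ⟨b, b', hb', rfl⟩ := hfr
  have hn : σ (nrm σ p b') = nrm σ p b' := map_nrm σ p hσ b'
  have hne : ∀ n : ℕ, gB (σ^[n] b') ≠ 0 := by
    intro n
    induction n with
    | zero => exact hb'
    | succ n ih =>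
      rw [Function.iterate_succ_apply', ← hτ]
      exact (map_ne_zero τ).2 ih
  have hn0 : gB (nrm σ p b') ≠ 0 := by
    unfold nrm
    rw [map_prod]
    exact Finset.prod_ne_zero_iff.2 fun i _ => hne i
  obtain ⟨q, hq⟩ : b' ∣ nrm σ p b' := by
    have := Finset.dvd_prod_of_mem (fun i => σ^[i] b') (Finset.mem_range.2 hp)
    exact this
  have h1 : gB b / gB b' * gB (nrm σ p b') = gB (b * q) := by
    rw [hq, map_mul, map_mul]
    field_simp
  have h2 : σ (b * q) = b * q := by
    apply hinj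
    rw [← hτ, ← h1, map_mul, hx, hτ, hn]
  refine ⟨gB (b * q), ⟨⟨b * q, mem_fixedAlg.2 h2⟩, rfl⟩, gB (nrm σ p b'),
    ⟨⟨nrm σ p b', mem_fixedAlg.2 hn⟩, rfl⟩, hn0, ?_⟩
  rw [← h1]
  field_simp

end frac

section global

variable {k : Type u} [Field k] [PerfectField k] {p : ℕ} (hp : p.Prime) (hpk : (p : k) = 0)
  {ι : Type} [Fintype ι] {L : Type u} [Field L] [Algebra k L]
  {A : ι → Bool → Type u} [∀ i c, CommRing (A i c)] [∀ i c, IsDedekindDomain (A i c)]
  [∀ i c, Algebra k (A i c)] (G : ∀ i c, A i c →ₐ[k] L) (hGinj : ∀ i c, Function.Injective (G i c))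
  (hsmA : ∀ i c, Algebra.Smooth k (A i c)) (hnf : ∀ i c, ¬ IsField (A i c))
  {σi : ∀ i c, A i c ≃ₐ[k] A i c} (hσi : ∀ i c x, (σi i c)^[p] x = x)
  (τ : L ≃ₐ[k] L) (hτ : ∀ i c x, τ (G i c x) = G i c (σi i c x)) (hτp : ∀ x, τ^[p] x = x)
  {h : ι → L} (h0 : ∀ i, h i ≠ 0) (hτh : ∀ i, τ (h i) = h i)
  (y : ∀ i, A i false) (hy : ∀ i, G i false (y i) = h i)
  (y' : ∀ i, A i true) (hy' : ∀ i, G i true (y' i) = (h i)⁻¹)
  (hft : ∀ i (x : A i true), ∃ (n : ℕ) (z : A i false), h i ^ n * G i true x = G i false z)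
  (htf : ∀ i (x : A i false), ∃ (n : ℕ) (z : A i true), (h i)⁻¹ ^ n * G i false x = G i true z)
  (hcov : ∀ V : ValuationSubring L, (∀ c : k, algebraMap k L c ∈ V) → ∀ i, ∃ c, ∀ x, G i c x ∈ V)
  {N : ι → Prop} (hN0 : ∀ i, ¬ N i → ∀ c (x : A i c), del (σi i c) x = 0) (hex : ∃ i, N i)
  {S : ∀ i c, Finset (Ideal (A i c))} {m : ∀ i c, Ideal (A i c) → ℕ}
  (hCD : ∀ i, N i → ∀ c, CurveData (σi i c) (S i c) (m i c))
  (hSt : ∀ i, N i → S i true = ∅) (hSf : ∀ i, N i → ∀ P ∈ S i false, y i ∈ P)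
  {B : (ι → Bool) → Type u} [∀ a, CommRing (B a)] [∀ a, IsDomain (B a)]
  [∀ a, Algebra k (B a)] {j : ∀ (a : ι → Bool) i, A i (a i) →ₐ[k] B a}
  (hj : ∀ a, IsCoprod k (j a)) (gB : ∀ a, B a →ₐ[k] L) (hinj : ∀ a, Function.Injective (gB a))
  (hG : ∀ a i x, gB a (j a i x) = G i (a i) x)

include hp hpk hGinj hsmA hnf hσi hτ hτp h0 hτh y hy y' hy' hft htf hcov hN0 hex hCD hSt hSf
  hj hinj hG in
/-- The atlas of the quotient of a product of projective curves. -/
theorem atlas_curves : ∃ (s : ∀ a, B a ≃ₐ[k] B a) (_ : ∀ a b, (s a)^[p] b = b)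
    (_ : ∀ a b, τ (gB a b) = gB a (s a b))
    (ρ : ℕ) (T : Type u) (_ : Finite T) (C : T → Subalgebra k (LP L)) (H : T → L),
      AtlasG (fun a => Set.range (gA (gB a) (s a))) (fixF τ).toSubfield ρ C H := by
  classical
  have hftA : ∀ i c, Algebra.FiniteType k (A i c) := fun i c => inferInstance
  choose s hs using fun a => exists_equiv_coprod (hj a) fun i => σi i (a i)
  have hsp : ∀ a b, (s a)^[p] b = b := fun a b => prod_iter (hj a) (fun i x => hσi i (a i) x)
    (hs a) b
  have hτs : ∀ a b, τ (gB a b) = gB a (s a b) := by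
    intro a b
    have h1 : (τ : L →ₐ[k] L).comp (gB a) = (gB a).comp (s a : B a →ₐ[k] B a) := by
      apply (hj a).ext
      intro i x
      change τ (gB a (j a i x)) = gB a (s a (j a i x))
      rw [hG, hτ, hs, hG]
    exact congrArg (fun f : B a →ₐ[k] L => f b) h1
  -- the weights
  let l : ℕ := ∏ i, ∏ P ∈ S i false, if N i then m i false P else 1
  have hl : 0 < l := Finset.prod_pos fun i _ => Finset.prod_pos fun P hP => by
    by_cases hN : N i
    · rw [if_pos hN]; exact (hCD i hN false).pos P hP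
    · rw [if_neg hN]; exact one_pos
  have hdvd : ∀ i, N i → ∀ P ∈ S i false, m i false P ∣ l := by
    intro i hN P hP
    have h1 := (Finset.dvd_prod_of_mem (fun P => if N i then m i false P else 1) hP).trans
      (Finset.dvd_prod_of_mem (fun i => ∏ P ∈ S i false, if N i then m i false P else 1)
        (Finset.mem_univ i))
    simp only [if_pos hN] at h1
    exact h1
  let w : ∀ i c, Ideal (A i c) → ℕ := fun i c P => l / m i c P
  have hw : ∀ i, N i → ∀ c, ∀ P ∈ S i c, w i c P * m i c P = l := by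
    intro i hN c P hP
    cases c
    · exact Nat.div_mul_cancel (hdvd i hN P hP)
    · rw [hSt i hN] at hP
      exact absurd hP (Finset.notMem_empty P)
  have hw1 : ∀ i, N i → ∀ c, ∀ P ∈ S i c, 1 ≤ w i c P := by
    intro i hN c P hP
    cases c
    · exact Nat.div_pos (Nat.le_of_dvd hl (hdvd i hN P hP)) ((hCD i hN false).pos P hP)
    · rw [hSt i hN] at hP
      exact absurd hP (Finset.notMem_empty P)
  have hjinj : ∀ a i, Function.Injective (j a i) := by
    intro a i x x' hx
    apply hGinj i (a i)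
    rw [← hG, ← hG, hx]
  have hcover := fun a => cover_curves hp hpk (hj a) (hjinj a) (fun i => hftA i (a i))
    (fun i => hsmA i (a i)) (fun i x => hσi i (a i) x) (fun i => hnf i (a i)) (hs a) (gB a)
    (hinj a) τ (hτs a) hτp (N := N) (fun i hN x => hN0 i hN (a i) x) hex
    (S := fun i => S i (a i)) (m := fun i => m i (a i)) (w := fun i => w i (a i)) (l := l) hl
    (fun i hN => hCD i hN (a i)) (fun i hN P hP => hw1 i hN (a i) P hP)
    (fun i hN P hP => hw i hN (a i) P hP)
  choose T hT e η he hC using hcover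
  let hh : (ι → Bool) → L := fun a => ∏ i, if a i then h i else 1
  have hh0 : ∀ a, hh a ≠ 0 := fun a => Finset.prod_ne_zero_iff.2 fun i _ => by
    split_ifs
    · exact h0 i
    · exact one_ne_zero
  have hrat : ∀ a b : ι → Bool, hh b / hh a = ∏ i, rr (h i) (a i) (b i) := fun a b =>
    (Finset.prod_div_distrib _ _).symm
  obtain ⟨ρ, H, hA⟩ := atlasG_of_covers hC (fixF τ).toSubfield
    (by
      intro d x hx
      rw [mem_fixedAlg, tl_hm] at hx
      exact hm_inj hx) hh hh0
    (by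
      intro a
      rw [mem_fixedAlg, tl_hm, map_prod]
      congr 1
      refine Finset.prod_congr rfl fun i _ => ?_
      split_ifs
      · exact hτh i
      · exact map_one τ)
    (by
      intro a b
      rw [hrat]
      exact hh_rt G h0 y hy y' hy' hj gB hG a b _)
    (by
      intro a b f hf
      rw [hrat]
      exact hh_gl G h0 y hy y' hy' hft htf hw1 hSt hSf hj gB hG a b f hf)
    (by
      intro V hV
      choose a ha using hcov V hV
      refine ⟨a, ?_⟩
      intro b
      have h1 : b ∈ Algebra.adjoin k (⋃ i, Set.range (j a i)) := by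
        rw [coprod_adjoin (hj a)]; trivial
      induction h1 using Algebra.adjoin_induction with
      | mem x hx =>
        obtain ⟨i, x, rfl⟩ := Set.mem_iUnion.1 hx
        rw [hG]
        exact ha i x
      | algebraMap r =>
        rw [AlgHom.commutes]
        exact hV r
      | add x y _ _ hx hy => rw [map_add]; exact V.add_mem _ _ hx hy
      | mul x y _ _ hx hy => rw [map_mul]; exact V.mul_mem _ _ hx hy)
  exact ⟨s, hsp, hτs, ρ, _, inferInstance, _, H, hA⟩

include hp hpk hGinj hsmA hnf hσi hτ hτp h0 hτh y hy y' hy' hft htf hcov hN0 hex hCD hSt hSf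
  hj hinj hG in
/-- The quotient of a product of projective curves has a smooth projective model. -/
theorem model_curves (hfr : ∀ (a : ι → Bool) (x : L), ∃ b b', gB a b' ≠ 0 ∧
      x = gB a b / gB a b') :
    ∃ (W : (ι → Bool) → Set L) (_ : ∀ a, ∀ x ∈ fixF τ, ∃ y ∈ W a, ∃ y' ∈ W a, y' ≠ 0 ∧ x = y / y')
      (I : Type u) (_ : Finite I) (z : I → L) (J : Set I),
      ModelG k W (fixF τ).toSubfield z J := by
  obtain ⟨s, hsp, hτs, ρ, T, hT, C, H, hA⟩ := atlas_curves hp hpk G hGinj hsmA hnf hσi τ hτ hτp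
    h0 hτh y hy y' hy' hft htf hcov hN0 hex hCD hSt hSf hj gB hinj hG
  obtain ⟨I, hI, z, J, hM⟩ := model_of_atlasG ρ hA
  exact ⟨_, fun a x hx => fixF_frac hp.pos (gB a) (hinj a) (s a) (hsp a) τ (hτs a) x hx (hfr a x),
    I, hI, z, J, hM⟩

end global

end Pool.Agent.H920R2
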