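import Pool.Agent.H920R2.Cw5
import Pool.Agent.H920R2.Gl9
import Pool.Agent.H920R2.Cv4

set_option autoImplicit false
set_option linter.unusedSectionVars false

open Polynomial TensorProduct

universe u v

namespace Pool.Agent.H920R2

section pi

variable {k : Type u} [Field k] {n : ℕ} {K : Fin n → Type u} [∀ i, CommRing (K i)]
  [∀ i, Algebra k (K i)] (C : ∀ i, Subalgebra k (K i))

/-- Tensor products of subalgebras embed. -/
theorem exists_pi_incl : ∃ φ : (⨂[k] i, C i) →ₐ[k] (⨂[k] i, K i), Function.Injective φ ∧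
    ∀ i (x : C i), φ (PiTensorProduct.singleAlgHom (R := k) (A := fun i => C i) i x) =
      PiTensorProduct.singleAlgHom (R := k) (A := K) i (x : K i) := by
  classical
  obtain ⟨φ, hφ⟩ := (isCoprod_pi (k := k) (A := fun i => C i)).lift (⨂[k] i, K i)
    fun i => (PiTensorProduct.singleAlgHom (R := k) (A := K) i).comp (C i).val
  have hφ' : ∀ i (x : C i), φ (PiTensorProduct.singleAlgHom (R := k) (A := fun i => C i) i x) =
      PiTensorProduct.singleAlgHom (R := k) (A := K) i (x : K i) := hφ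
  have hr : ∀ i, ∃ r : K i →ₗ[k] C i, r ∘ₗ (C i).val.toLinearMap = LinearMap.id := fun i =>
    LinearMap.exists_leftInverse_of_injective _ (LinearMap.ker_eq_bot.2 Subtype.val_injective)
  choose r hr using hr
  have hφt : ∀ x : ∀ i, C i, φ (PiTensorProduct.tprod k x) =
      PiTensorProduct.tprod k fun i => (x i : K i) := by
    intro x
    rw [tprod_eq_prod, map_prod, tprod_eq_prod]
    exact Finset.prod_congr rfl fun i _ => hφ' i _
  have hid : (PiTensorProduct.map r) ∘ₗ φ.toLinearMap = LinearMap.id := by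
    apply PiTensorProduct.ext
    ext x
    change PiTensorProduct.map r (φ (PiTensorProduct.tprod k x)) = PiTensorProduct.tprod k x
    rw [hφt, PiTensorProduct.map_tprod]
    congr 1
    funext i
    exact congrArg (fun f : C i →ₗ[k] C i => f (x i)) (hr i)
  refine ⟨φ, ?_, hφ'⟩
  intro a b hab
  have h1 : ∀ a, PiTensorProduct.map r (φ a) = a := fun a =>
    congrArg (fun f : (⨂[k] i, C i) →ₗ[k] (⨂[k] i, C i) => f a) hid
  rw [← h1 a, ← h1 b, hab]

end pi

section res

variable {k K : Type u} [Field k] [CommRing K] [Algebra k K]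

/-- The restriction of an automorphism to a stable subalgebra. -/
def resEquiv (σ : K ≃ₐ[k] K) (C : Subalgebra k K) (h : ∀ z ∈ C, σ z ∈ C)
    (h' : ∀ z ∈ C, σ.symm z ∈ C) : C ≃ₐ[k] C where
  toFun z := ⟨σ z, h z z.2⟩
  invFun z := ⟨σ.symm z, h' z z.2⟩
  left_inv z := Subtype.ext (σ.symm_apply_apply z)
  right_inv z := Subtype.ext (σ.apply_symm_apply z)
  map_mul' _ _ := Subtype.ext (map_mul σ _ _)
  map_add' _ _ := Subtype.ext (map_add σ _ _)
  commutes' r := Subtype.ext (AlgEquiv.commutes σ r)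

lemma coe_resEquiv (σ : K ≃ₐ[k] K) (C : Subalgebra k K) (h : ∀ z ∈ C, σ z ∈ C)
    (h' : ∀ z ∈ C, σ.symm z ∈ C) (z : C) : ((resEquiv σ C h h' z : C) : K) = σ z := rfl

lemma coe_resEquiv_iter (σ : K ≃ₐ[k] K) (C : Subalgebra k K) (h : ∀ z ∈ C, σ z ∈ C)
    (h' : ∀ z ∈ C, σ.symm z ∈ C) (n : ℕ) (z : C) :
    (((resEquiv σ C h h')^[n] z : C) : K) = σ^[n] z := by
  induction n generalizing z with
  | zero => rfl
  | succ n ih => rw [Function.iterate_succ_apply, ih, coe_resEquiv, ← Function.iterate_succ_apply]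

end res

section one

variable {k K : Type u} [Field k] [PerfectField k] [Field K] [Algebra k K]
  [Algebra.EssFiniteType k K]

/-- The ramification data of the two charts of a projective curve. -/
theorem curve_data (σ : K ≃ₐ[k] K) {u : K} (hu : SepEl k u) (hσu : σ u = u)
    (hfix : ∃ (n : ℕ) (a c : Fin n → K),
      (∀ i, a i ∈ CC k u) ∧ (∀ i, c i ∈ CC k u) ∧ 1 = ∑ i, c i * (σ (a i) - a i)) :
    (∀ P : Ideal (CC k u), P.IsPrime → (∀ (z : CC k u) (hz : σ z - z ∈ CC k u),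
      (⟨σ z - z, hz⟩ : CC k u) ∈ P) → False) ∧
    (∀ P : Ideal (CC k u⁻¹), P.IsPrime → (∀ (z : CC k u⁻¹) (hz : σ z - z ∈ CC k u⁻¹),
      (⟨σ z - z, hz⟩ : CC k u⁻¹) ∈ P) → (⟨u⁻¹, u_mem_CC k u⁻¹⟩ : CC k u⁻¹) ∈ P) := by
  obtain ⟨n, a, c, ha, hc, hsum⟩ := hfix
  have hu0 : u ≠ 0 := fun h => hu.1 (by rw [h]; exact isAlgebraic_zero)
  have hσui : σ u⁻¹ = u⁻¹ := by rw [map_inv₀, hσu]
  constructor
  · intro P hP hz
    apply hP.ne_top
    rw [Ideal.eq_top_iff_one]
    have h1 : (1 : CC k u) = ∑ i, (⟨c i, hc i⟩ : CC k u) * ⟨σ (a i) - a i,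
        Subalgebra.sub_mem _ (CC_sigma k u σ hσu _ (ha i)) (ha i)⟩ := by
      apply Subtype.ext
      rw [AddSubmonoidClass.coe_finsetSum]
      exact hsum
    rw [h1]
    exact P.sum_mem fun i _ => P.mul_mem_left _ (hz ⟨a i, ha i⟩ _)
  · intro P hP hz
    choose na hna using fun i => CC_denom k u hu0 (a i) (ha i)
    choose nc hnc using fun i => CC_denom k u hu0 (c i) (hc i)
    let N : ℕ := Finset.univ.sup fun i => na i + nc i
    have hN : ∀ i, na i + nc i ≤ N := fun i =>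
      Finset.le_sup (f := fun i => na i + nc i) (Finset.mem_univ i)
    have hum := u_mem_CC k u⁻¹
    have hcN : ∀ i, u⁻¹ ^ (N - na i) * c i ∈ CC k u⁻¹ := by
      intro i
      obtain ⟨e, he⟩ := Nat.exists_eq_add_of_le (show nc i ≤ N - na i by have := hN i; omega)
      rw [he, pow_add, mul_comm (u⁻¹ ^ nc i), mul_assoc]
      exact Subalgebra.mul_mem _ (Subalgebra.pow_mem _ hum _) (hnc i)
    apply hP.mem_of_pow_mem N
    have h1 : (⟨u⁻¹, u_mem_CC k u⁻¹⟩ : CC k u⁻¹) ^ N =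
        ∑ i, (⟨u⁻¹ ^ (N - na i) * c i, hcN i⟩ : CC k u⁻¹) *
          ⟨σ (u⁻¹ ^ na i * a i) - u⁻¹ ^ na i * a i,
            Subalgebra.sub_mem _ (CC_sigma k u⁻¹ σ hσui _ (hna i)) (hna i)⟩ := by
      apply Subtype.ext
      rw [AddSubmonoidClass.coe_finsetSum]
      change u⁻¹ ^ N = ∑ i, u⁻¹ ^ (N - na i) * c i * (σ (u⁻¹ ^ na i * a i) - u⁻¹ ^ na i * a i)
      have h2 : ∀ i, u⁻¹ ^ (N - na i) * c i * (σ (u⁻¹ ^ na i * a i) - u⁻¹ ^ na i * a i) =
          u⁻¹ ^ N * (c i * (σ (a i) - a i)) := by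
        intro i
        have h3 : u⁻¹ ^ N = u⁻¹ ^ (N - na i) * u⁻¹ ^ na i := by
          rw [← pow_add]
          congr 1
          have := hN i
          omega
        rw [map_mul, map_pow, hσui, h3]
        ring
      rw [Finset.sum_congr rfl fun i _ => h2 i, ← Finset.mul_sum, ← hsum, mul_one]
    rw [h1]
    exact P.sum_mem fun i _ => P.mul_mem_left _ (hz ⟨_, hna i⟩ _)

end one

end Pool.Agent.H920R2
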