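import Pool.Agent.H920R2.Cw6

set_option autoImplicit false
set_option linter.unusedSectionVars false

open Polynomial TensorProduct

universe u v

namespace Pool.Agent.H920R2

section main

variable {k : Type u} [Field k] [PerfectField k] {p : ℕ} (hp : p.Prime) (hpk : (p : k) = 0)
  {n : ℕ} {K : Fin n → Type u} [∀ i, Field (K i)] [∀ i, Algebra k (K i)]
  [∀ i, Algebra.EssFiniteType k (K i)] (htr : ∀ i, Algebra.trdeg k (K i) = 1)
  (σ : ∀ i, K i ≃ₐ[k] K i) (hσ : ∀ i x, (σ i)^[p] x = x) (hex : ∃ i, ∃ z, σ i z ≠ z)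
  {L : Type u} [Field L] [Algebra k L] (g : (⨂[k] i, K i) →ₐ[k] L)
  (hginj : Function.Injective g) (hgfr : ∀ x : L, ∃ a b, g b ≠ 0 ∧ x = g a / g b)
  (τ : L ≃ₐ[k] L)
  (hτ : ∀ i x, τ (g (PiTensorProduct.singleAlgHom (R := k) (A := K) i x)) =
    g (PiTensorProduct.singleAlgHom (R := k) (A := K) i (σ i x)))

/-- Fractions. -/
def FrB {B L : Type u} [CommRing B] [Field L] (g : B →+* L) (x : L) : Prop :=
  ∃ b b', g b' ≠ 0 ∧ x = g b / g b'

lemma FrB.of {B L : Type u} [CommRing B] [Field L] (g : B →+* L) (b : B) : FrB g (g b) :=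
  ⟨b, 1, by rw [map_one]; exact one_ne_zero, by rw [map_one, div_one]⟩

lemma FrB.add {B L : Type u} [CommRing B] [Field L] {g : B →+* L} {x y : L} (hx : FrB g x)
    (hy : FrB g y) : FrB g (x + y) := by
  obtain ⟨a, a', ha, rfl⟩ := hx
  obtain ⟨b, b', hb, rfl⟩ := hy
  refine ⟨a * b' + b * a', a' * b', by rw [map_mul]; exact mul_ne_zero ha hb, ?_⟩
  simp only [map_mul, map_add]
  field_simp

lemma FrB.mul {B L : Type u} [CommRing B] [Field L] {g : B →+* L} {x y : L} (hx : FrB g x)
    (hy : FrB g y) : FrB g (x * y) := by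
  obtain ⟨a, a', ha, rfl⟩ := hx
  obtain ⟨b, b', hb, rfl⟩ := hy
  refine ⟨a * b, a' * b', by rw [map_mul]; exact mul_ne_zero ha hb, ?_⟩
  simp only [map_mul]
  field_simp

lemma FrB.inv {B L : Type u} [CommRing B] [Field L] {g : B →+* L} {x : L} (hx : FrB g x) :
    FrB g x⁻¹ := by
  obtain ⟨a, a', ha, rfl⟩ := hx
  by_cases h : g a = 0
  · refine ⟨0, 1, by rw [map_one]; exact one_ne_zero, ?_⟩
    rw [h, zero_div, inv_zero, map_zero, zero_div]
  · exact ⟨a', a, h, by rw [inv_div]⟩

lemma FrB.div {B L : Type u} [CommRing B] [Field L] {g : B →+* L} {x y : L} (hx : FrB g x)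
    (hy : FrB g y) : FrB g (x / y) := by
  rw [div_eq_mul_inv]; exact hx.mul hy.inv

lemma FrB.prod {B L : Type u} [CommRing B] [Field L] {g : B →+* L} {ι : Type} (s : Finset ι)
    (x : ι → L) (hx : ∀ i ∈ s, FrB g (x i)) : FrB g (∏ i ∈ s, x i) := by
  classical
  induction s using Finset.induction_on with
  | empty => rw [Finset.prod_empty, ← map_one g]; exact FrB.of g 1
  | insert i s hi ih =>
    rw [Finset.prod_insert hi]
    exact (hx i (Finset.mem_insert_self i s)).mul
      (ih fun j hj => hx j (Finset.mem_insert_of_mem hj))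

include hp hpk htr hσ hex hginj hgfr hτ in
/-- The smooth projective model of the field of invariants. -/
theorem curves_model :
    ∃ (W : (Fin n → Bool) → Set L)
      (_ : ∀ a, ∀ x ∈ fixF τ, ∃ y ∈ W a, ∃ y' ∈ W a, y' ≠ 0 ∧ x = y / y')
      (I : Type u) (_ : Finite I) (z : I → L) (J : Set I),
      ModelG k W (fixF τ).toSubfield z J := by
  classical
  -- the coordinates of the curves
  choose x hx hσx using fun i => exists_sep_fixed (htr i) (σ i) hp.pos (hσ i)
  choose v hv hσv hvfix using fun i => exists_curve hp hpk (σ i) (hx i) (hσx i)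
  have hv0 : ∀ i, v i ≠ 0 := fun i h => (hv i).1 (by rw [h]; exact isAlgebraic_zero)
  let t : ∀ i, Bool → K i := fun i c => if c then v i else (v i)⁻¹
  have ht : ∀ i c, SepEl k (t i c) := by
    intro i c
    cases c
    · exact (hv i).inv
    · exact hv i
  have hσt : ∀ i c, σ i (t i c) = t i c := by
    intro i c
    cases c
    · change σ i (v i)⁻¹ = (v i)⁻¹
      rw [map_inv₀, hσv]
    · exact hσv i
  have hσt' : ∀ i c, (σ i).symm (t i c) = t i c := by
    intro i c
    rw [AlgEquiv.symm_apply_eq, hσt]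
  let C : ∀ i, Bool → Subalgebra k (K i) := fun i c => CC k (t i c)
  have hded : ∀ i c, IsDedekindDomain (C i c) := fun i c => by
    have := (ht i c).finite
    have := (ht i c).2
    exact (CC_dedekind k (t i c)).1
  have hfr : ∀ i c, IsFractionRing (C i c) (K i) := fun i c => by
    have := (ht i c).finite
    have := (ht i c).2
    exact (CC_dedekind k (t i c)).2.2
  have hft : ∀ i c, Algebra.FiniteType k (C i c) := fun i c => by
    have := (ht i c).finite
    have := (ht i c).2
    exact CC_finiteType k (t i c)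
  have hnf : ∀ i c, ¬ IsField (C i c) := fun i c => by
    have := (ht i c).finite
    have := (ht i c).2
    exact CC_notField k (t i c) (ht i c).1
  have hsm : ∀ i c, Algebra.Smooth k (C i c) := fun i c => smooth_dedekind (hnf i c)
  let σi : ∀ i c, C i c ≃ₐ[k] C i c := fun i c => resEquiv (σ i) (C i c)
    (CC_sigma k (t i c) (σ i) (hσt i c)) (CC_sigma k (t i c) (σ i).symm (hσt' i c))
  have hσi : ∀ i c x, (σi i c)^[p] x = x := by
    intro i c x
    apply Subtype.ext
    rw [coe_resEquiv_iter, hσ]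
  -- the maps to the function field
  let e : ∀ i, K i →ₐ[k] L := fun i =>
    g.comp (PiTensorProduct.singleAlgHom (R := k) (A := K) i)
  let G : ∀ i c, C i c →ₐ[k] L := fun i c => (e i).comp (C i c).val
  have hGinj : ∀ i c, Function.Injective (G i c) := fun i c =>
    (e i).injective.comp Subtype.val_injective
  have hτe : ∀ i x, τ (e i x) = e i (σ i x) := hτ
  have hτG : ∀ i c x, τ (G i c x) = G i c (σi i c x) := fun i c x => hτe i x
  have hτp : ∀ x, τ^[p] x = x := by
    have h0 : ∀ (m : ℕ) i x, τ^[m] (e i x) = e i ((σ i)^[m] x) := by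
      intro m i
      induction m with
      | zero => intro x; rfl
      | succ m ih => intro x; rw [Function.iterate_succ_apply, hτe, ih,
          Function.iterate_succ_apply]
    have h1 : ∀ b : ⨂[k] i, K i, τ^[p] (g b) = g b := by
      intro b
      have h2 : b ∈ Algebra.adjoin k (⋃ i, Set.range
          (PiTensorProduct.singleAlgHom (R := k) (A := K) i)) := by
        rw [coprod_adjoin (isCoprod_pi (k := k) (A := K))]; trivial
      induction h2 using Algebra.adjoin_induction with
      | mem x hx =>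
        obtain ⟨i, a, rfl⟩ := Set.mem_iUnion.1 hx
        have h3 := h0 p i a
        rw [hσ] at h3
        exact h3
      | algebraMap r =>
        rw [AlgHom.commutes]
        exact Function.iterate_fixed (AlgEquiv.commutes τ r) p
      | add x y _ _ hx hy => rw [map_add, iterate_map_add, hx, hy]
      | mul x y _ _ hx hy => rw [map_mul, iterate_map_mul, hx, hy]
    intro x
    obtain ⟨a, c, -, rfl⟩ := hgfr x
    have h3 : ∀ (m : ℕ) (y z : L), τ^[m] (y / z) = τ^[m] y / τ^[m] z := by
      intro m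
      induction m with
      | zero => intro y z; rfl
      | succ m ih => intro y z; rw [Function.iterate_succ_apply, map_div₀, ih,
          Function.iterate_succ_apply, Function.iterate_succ_apply]
    rw [h3, h1, h1]
  -- the tensor products
  have hBdata : ∀ a : Fin n → Bool, ∃ φ : (⨂[k] i, C i (a i)) →ₐ[k] (⨂[k] i, K i),
      Function.Injective φ ∧ ∀ i (x : C i (a i)),
        φ (PiTensorProduct.singleAlgHom (R := k) (A := fun i => C i (a i)) i x) =
          PiTensorProduct.singleAlgHom (R := k) (A := K) i (x : K i) := fun a =>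
    exists_pi_incl fun i => C i (a i)
  choose φ hφinj hφ using hBdata
  let gB : ∀ a : Fin n → Bool, (⨂[k] i, C i (a i)) →ₐ[k] L := fun a =>
    g.comp (φ a)
  have hinj : ∀ a, Function.Injective (gB a) := fun a => hginj.comp (hφinj a)
  have hdom : ∀ a : Fin n → Bool, IsDomain (⨂[k] i, C i (a i)) := fun a =>
    (hinj a).isDomain (gB a : (⨂[k] i, C i (a i)) →+* L)
  have hGB : ∀ a i x, gB a (PiTensorProduct.singleAlgHom (R := k) (A := fun i => C i (a i)) i x) =
      G i (a i) x := fun a i x => congrArg g (hφ a i x)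
  -- the fixed points
  let N : Fin n → Prop := fun i => ∃ z, σ i z ≠ z
  have hCDex : ∀ i c, ∃ (S : Finset (Ideal (C i c))) (m : Ideal (C i c) → ℕ),
      N i → CurveData (σi i c) S m := by
    intro i c
    by_cases hN : N i
    · have hne : ∃ a, del (σi i c) a ≠ 0 := by
        by_contra hcon
        push Not at hcon
        obtain ⟨z, hz⟩ := hN
        apply hz
        obtain ⟨a, b, hb, rfl⟩ := IsFractionRing.div_surjective (A := C i c) z
        have h1 : ∀ a : C i c, σ i (a : K i) = a := fun a =>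
          sub_eq_zero.1 (congrArg Subtype.val (hcon a))
        change σ i ((a : K i) / (b : K i)) = (a : K i) / (b : K i)
        rw [map_div₀, h1, h1]
      obtain ⟨S, m, h⟩ := exists_curveData (k := k) hp hpk (σi i c) (hσi i c) hne
      exact ⟨S, m, fun _ => h⟩
    · exact ⟨∅, fun _ => 0, fun h => absurd h hN⟩
  choose S m hCD using hCDex
  have hdl : ∀ i c, N i → ∀ P ∈ S i c, ∀ (z : C i c) (hz : σ i z - z ∈ C i c),
      (⟨σ i z - z, hz⟩ : C i c) ∈ P := by
    intro i c hN P hP z hz
    have h1 := (hCD i c hN).dl P hP z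
    exact Ideal.pow_le_self (Nat.succ_ne_zero _) h1
  have hSt : ∀ i, N i → S i true = ∅ := by
    intro i hN
    rw [Finset.eq_empty_iff_forall_notMem]
    intro P hP
    exact (curve_data (σ i) (hv i) (hσv i) (hvfix i hN)).1 P ((hCD i true hN).max P hP).isPrime
      (hdl i true hN P hP)
  have hSf : ∀ i, N i → ∀ P ∈ S i false, (⟨(v i)⁻¹, u_mem_CC k (v i)⁻¹⟩ : C i false) ∈ P := by
    intro i hN P hP
    exact (curve_data (σ i) (hv i) (hσv i) (hvfix i hN)).2 P ((hCD i false hN).max P hP).isPrime
      (hdl i false hN P hP)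
  refine model_curves hp hpk G hGinj hsm hnf hσi τ hτG hτp (h := fun i => e i (v i)⁻¹) ?_ ?_
    (fun i => ⟨(v i)⁻¹, u_mem_CC k (v i)⁻¹⟩) (fun i => rfl)
    (fun i => ⟨v i, u_mem_CC k (v i)⟩) ?_ ?_ ?_ ?_ (N := N) ?_ hex (S := S) (m := m)
    (fun i hN c => hCD i c hN) hSt hSf (fun a => isCoprod_pi) gB hinj hGB ?_
  · intro i
    exact (_root_.map_ne_zero (e i)).2 (inv_ne_zero (hv0 i))
  · intro i
    rw [hτe, map_inv₀ (σ i), hσv]
  · intro i
    change e i (v i) = (e i (v i)⁻¹)⁻¹
    rw [map_inv₀, inv_inv]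
  · rintro i ⟨z, hz⟩
    obtain ⟨n, hn⟩ := CC_denom k (v i) (hv0 i) z hz
    refine ⟨n, ⟨_, hn⟩, ?_⟩
    change (e i (v i)⁻¹) ^ n * e i z = e i ((v i)⁻¹ ^ n * z)
    rw [map_mul, map_pow]
  · rintro i ⟨z, hz⟩
    obtain ⟨n, hn⟩ := CC_denom k (v i)⁻¹ (inv_ne_zero (hv0 i)) z hz
    rw [inv_inv] at hn
    refine ⟨n, ⟨_, hn⟩, ?_⟩
    change (e i (v i)⁻¹)⁻¹ ^ n * e i z = e i (v i ^ n * z)
    rw [map_mul, map_pow, map_inv₀, inv_inv]
  · intro V hV i
    let V' : ValuationSubring (K i) := V.comap (e i : K i →+* L)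
    have hV' : ∀ c : k, algebraMap k (K i) c ∈ V' := by
      intro c
      change e i (algebraMap k (K i) c) ∈ V
      rw [AlgHom.commutes]
      exact hV c
    rcases V'.mem_or_inv_mem (v i) with h | h
    · exact ⟨true, fun z => CC_le_val k (v i) V' hV' h z z.2⟩
    · exact ⟨false, fun z => CC_le_val k (v i)⁻¹ V' hV' h z z.2⟩
  · intro i hN c z
    apply Subtype.ext
    change σ i (z : K i) - z = 0
    rw [sub_eq_zero]
    by_contra h
    exact hN ⟨_, h⟩
  · intro a z
    have h1 : ∀ i (y : K i), FrB (gB a : (⨂[k] i, C i (a i)) →+* L) (e i y) := by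
      intro i y
      obtain ⟨b, b', -, rfl⟩ := IsFractionRing.div_surjective (A := C i (a i)) y
      rw [map_div₀]
      have h2 : ∀ b : C i (a i), FrB (gB a : (⨂[k] i, C i (a i)) →+* L) (e i (b : K i)) := by
        intro b
        have h3 : e i (b : K i) = gB a
          (PiTensorProduct.singleAlgHom (R := k) (A := fun i => C i (a i)) i b) := (hGB a i b).symm
        rw [h3]
        exact FrB.of (gB a : (⨂[k] i, C i (a i)) →+* L) _
      exact (h2 b).div (h2 b')
    have h2 : ∀ b : ⨂[k] i, K i, FrB (gB a : (⨂[k] i, C i (a i)) →+* L) (g b) := by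
      intro b
      have h2 : b ∈ Algebra.adjoin k (⋃ i, Set.range
          (PiTensorProduct.singleAlgHom (R := k) (A := K) i)) := by
        rw [coprod_adjoin (isCoprod_pi (k := k) (A := K))]; trivial
      induction h2 using Algebra.adjoin_induction with
      | mem x hx =>
        obtain ⟨i, y, rfl⟩ := Set.mem_iUnion.1 hx
        exact h1 i y
      | algebraMap r =>
        rw [AlgHom.commutes]
        have h3 := FrB.of (gB a : (⨂[k] i, C i (a i)) →+* L)
          (algebraMap k (⨂[k] i, C i (a i)) r)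
        have h4 : (gB a : (⨂[k] i, C i (a i)) →+* L) (algebraMap k (⨂[k] i, C i (a i)) r) =
            algebraMap k L r := (gB a).commutes r
        rwa [h4] at h3
      | add x y _ _ hx hy => rw [map_add]; exact hx.add hy
      | mul x y _ _ hx hy => rw [map_mul]; exact hx.mul hy
    obtain ⟨b, b', -, rfl⟩ := hgfr z
    exact (h2 b).div (h2 b')

end main

end Pool.Agent.H920R2
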