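import Mathlib
import Pool.Agent.H918R2.Quad.Reg2

set_option autoImplicit false

namespace Pool.Agent.H920R2

open IsLocalRing

/-- Étale over a polynomial ring implies regular. -/
theorem regular_of_etale {P B : Type} [CommRing P] [IsRegularRing P] [CommRing B]
    [Algebra P B] [Algebra.Etale P B] (Q : Ideal B) [Q.IsPrime] :
    IsRegularLocalRing (Localization.AtPrime Q) := by
  classical
  have hB : IsNoetherianRing B := Algebra.FiniteType.isNoetherianRing P B
  let p : Ideal P := Q.under P
  have hp : p.IsPrime := Ideal.IsPrime.under P Q
  have hover : Q.LiesOver p := ⟨rfl⟩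
  obtain ⟨G, hG, hcard, hgen⟩ := Pool.Agent.H918R2.Quad.exists_local_gens p
  have hnoeth : IsNoetherianRing (Localization.AtPrime Q) :=
    IsLocalization.isNoetherianRing Q.primeCompl _ inferInstance
  let _ : Algebra (Localization.AtPrime p) (Localization.AtPrime Q) :=
    Localization.AtPrime.algebraOfLiesOver p Q
  have hun : Algebra.IsUnramifiedAt P Q := inferInstance
  have h1 := ((Algebra.isUnramifiedAt_iff_map_eq P p Q).1 hun).2
  have hflat : Module.Flat P B := inferInstance
  have hht : p.height ≤ Q.height := by
    rw [Ideal.height_eq_height_add_of_liesOver_of_hasGoingDown p Q]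
    exact le_self_add
  have hspan : maximalIdeal (Localization.AtPrime Q) =
      Ideal.span ((algebraMap P (Localization.AtPrime Q)) '' (G : Set P)) := by
    rw [← h1, ← Ideal.map_span]
    apply le_antisymm
    · rw [Ideal.map_le_iff_le_comap]
      intro x hx
      obtain ⟨c, hc, hcx⟩ := hgen x hx
      rw [Ideal.mem_comap]
      have h2 : algebraMap P (Localization.AtPrime Q) (c * x) ∈
          Ideal.map (algebraMap P (Localization.AtPrime Q)) (Ideal.span (G : Set P)) :=
        Ideal.mem_map_of_mem _ hcx
      rw [map_mul] at h2
      have hu : IsUnit (algebraMap P (Localization.AtPrime Q) c) := by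
        rw [IsScalarTower.algebraMap_apply P B]
        exact IsLocalization.map_units _ (⟨algebraMap P B c, hc⟩ : Q.primeCompl)
      exact (Ideal.unit_mul_mem_iff_mem _ hu).1 h2
    · apply Ideal.map_mono
      rw [Ideal.span_le]
      exact hG
  apply IsRegularLocalRing.of_spanFinrank_maximalIdeal_le
  rw [IsLocalization.AtPrime.ringKrullDim_eq_height Q (Localization.AtPrime Q), hspan]
  have h3 : (Submodule.spanFinrank (Ideal.span
      ((algebraMap P (Localization.AtPrime Q)) '' (G : Set P)))) ≤ G.card := by
    refine (Submodule.spanFinrank_span_le_ncard_of_finite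
      ((Finset.finite_toSet G).image _)).trans ?_
    refine (Set.ncard_image_le (Finset.finite_toSet G)).trans ?_
    rw [Set.ncard_coe_finset]
  have h2 : ((Submodule.spanFinrank (Ideal.span
      ((algebraMap P (Localization.AtPrime Q)) '' (G : Set P))) : ℕ) : ℕ∞) ≤ Q.height :=
    le_trans (by exact_mod_cast h3) (hcard.trans hht)
  exact_mod_cast h2

/-- Smooth algebras over a field are regular. -/
theorem regular_of_smooth {k A : Type} [Field k] [CommRing A] [Algebra k A] [Algebra.Smooth k A]
    (q : Ideal A) [q.IsPrime] : IsRegularLocalRing (Localization.AtPrime q) := by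
  have hsm : Algebra.IsSmoothAt k q := inferInstance
  obtain ⟨f, hf, n, alg, tower, het⟩ :=
    Algebra.IsSmoothAt.exists_isStandardEtale_mvPolynomial (R := k) (S := A) (p := q)
  have het' : Algebra.Etale (MvPolynomial (Fin n) k) (Localization.Away f) := inferInstance
  have hQ : (Ideal.map (algebraMap A (Localization.Away f)) q).IsPrime :=
    IsLocalization.isPrime_of_isPrime_disjoint (.powers f) _ _ ‹_›
      ((Ideal.disjoint_powers_iff_notMem_of_isPrime _).mpr hf)
  have h1 := regular_of_etale (P := MvPolynomial (Fin n) k)
    (Ideal.map (algebraMap A (Localization.Away f)) q)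
  have h2 : (Ideal.map (algebraMap A (Localization.Away f)) q).comap
      (algebraMap A (Localization.Away f)) = q :=
    IsLocalization.comap_map_of_isPrime_disjoint (.powers f) _ ‹_›
      ((Ideal.disjoint_powers_iff_notMem_of_isPrime _).mpr hf)
  have h3 := IsLocalization.isLocalization_isLocalization_atPrime_isLocalization (.powers f)
    (Localization.AtPrime (Ideal.map (algebraMap A (Localization.Away f)) q))
    (Ideal.map (algebraMap A (Localization.Away f)) q)
  simp only [h2] at h3
  exact IsRegularLocalRing.of_ringEquiv (IsLocalization.algEquiv q.primeCompl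
    (Localization.AtPrime (Ideal.map (algebraMap A (Localization.Away f)) q))
    (Localization.AtPrime q)).toRingEquiv

end Pool.Agent.H920R2
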