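import Pool.Agent.H920R2.Gl3
import Pool.Agent.H920R2.Sr1
import Pool.Agent.H473R2.Quad.Poly
import Pool.Agent.H918R2.Quad.HasModule
import Pool.Agent.H968R2.Quad.ExistsModel

set_option autoImplicit false
set_option linter.unusedSectionVars false

open AlgebraicGeometry CategoryTheory

namespace Pool.Agent.H920R2

open Pool.Agent.H918R2.Quad Pool.Agent.H473R2.Quad

/-- A local subring is dominated by a valuation ring of an extension. -/
theorem exists_dom {L K : Type} [Field L] [Field K] (ι : L →+* K) (𝒪 : Subring L)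
    (h : IsLoc 𝒪) :
    ∃ V : ValuationSubring K, (∀ x ∈ 𝒪, ι x ∈ V) ∧ ∀ x ∈ 𝒪, x ≠ 0 → (ι x)⁻¹ ∈ V → U 𝒪 x := by
  classical
  let A : Subring K := 𝒪.map ι
  let e : 𝒪 ≃+* A := 𝒪.equivMapOfInjective ι ι.injective
  let P : Ideal 𝒪 := primeOf h 𝒪.subtype (fun a => a.2)
  have hP : P.IsPrime := primeOf_isPrime h 𝒪.subtype (fun a => a.2)
  let I : Ideal A := P.comap (e.symm : A →+* 𝒪)
  have hI : I ≠ ⊤ := by
    have : I.IsPrime := Ideal.IsPrime.comap _
    exact this.ne_top
  obtain ⟨V, hV, hV2⟩ := Ideal.image_subset_nonunits_valuationSubring I hI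
  refine ⟨V, fun x hx => hV ⟨x, hx, rfl⟩, ?_⟩
  intro x hx hx0 hxV
  by_contra hU
  have h1 : e ⟨x, hx⟩ ∈ I := by
    rw [Ideal.mem_comap]
    change e.symm (e ⟨x, hx⟩) ∈ P
    rw [e.symm_apply_apply]
    exact hU
  have h2 : ι x ∈ V.nonunits := hV2 ⟨e ⟨x, hx⟩, h1, rfl⟩
  rw [ValuationSubring.mem_nonunits_iff_exists_mem_maximalIdeal] at h2
  obtain ⟨hx', h3⟩ := h2
  rw [IsLocalRing.mem_maximalIdeal, mem_nonunits_iff] at h3
  apply h3
  rw [isUnit_iff_exists_inv]
  refine ⟨⟨(ι x)⁻¹, hxV⟩, ?_⟩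
  apply Subtype.ext
  change ι x * (ι x)⁻¹ = 1
  exact mul_inv_cancel₀ ((map_ne_zero ι).2 hx0)

section

variable {k K : Type} [Field k] [Field K] [Algebra k K] {𝒜 : Type} {W : 𝒜 → Set K}

theorem hasModule_of_model (L : IntermediateField k K) {I : Type} [Finite I] {z : I → K}
    {J : Set I} (h : ModelG k W L.toSubfield z J)
    (hW : ∀ a, ∀ x ∈ L, ∃ y ∈ W a, ∃ y' ∈ W a, y' ≠ 0 ∧ x = y / y') : HasModule k L := by
  classical
  let z' : I → L := fun i => ⟨z i, h.zK i⟩
  let M : Submodule k L := Submodule.span k (Set.range z')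
  have hzM : ∀ i, z' i ∈ M := fun i => Submodule.subset_span ⟨i, rfl⟩
  obtain ⟨j₀, hj₀, -⟩ := h.cv ⊤ (fun _ => trivial)
  have hz0 : ∀ j ∈ J, z' j ≠ 0 := fun j hj h0 => h.z0 j hj (congrArg Subtype.val h0)
  have hin : ∀ f (i : I), z' i / f ∈ chart k M f := fun f i =>
    Algebra.subset_adjoin ⟨z' i, hzM i, rfl⟩
  refine ⟨M, Submodule.fg_span (Set.finite_range _), ⟨z' j₀, hzM j₀, hz0 j₀ hj₀⟩, ?_, ?_⟩
  · intro f hf hf0 y
    change Fr (chart k M f) y
    have h1 : ∀ x ∈ Algebra.adjoin k (Set.range fun i => z i / z j₀), ∃ y : L, (y : K) = x ∧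
        Fr (chart k M f) y := by
      intro x hx
      induction hx using Algebra.adjoin_induction with
      | mem x hx =>
        obtain ⟨i, rfl⟩ := hx
        refine ⟨(z' i / f) / (z' j₀ / f), ?_, (Fr.of_mem (hin f i)).div (Fr.of_mem (hin f j₀))⟩
        have e1 : (z' i / f) / (z' j₀ / f) = z' i / z' j₀ := by
          have := hz0 j₀ hj₀
          field_simp
        rw [e1]
        rfl
      | algebraMap r =>
        exact ⟨algebraMap k L r, rfl, Fr.of_mem (Subalgebra.algebraMap_mem _ _)⟩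
      | add x y _ _ hx hy =>
        obtain ⟨x', rfl, hx'⟩ := hx
        obtain ⟨y', rfl, hy'⟩ := hy
        exact ⟨x' + y', rfl, hx'.add hy'⟩
      | mul x y _ _ hx hy =>
        obtain ⟨x', rfl, hx'⟩ := hx
        obtain ⟨y', rfl, hy'⟩ := hy
        exact ⟨x' * y', rfl, hx'.mul hy'⟩
    obtain ⟨a, ha⟩ := h.aa j₀ hj₀
    obtain ⟨w, hw, w', hw', hw0, hyw⟩ := hW a y y.2
    obtain ⟨u, rfl, hu⟩ := h1 w (ha hw)
    obtain ⟨u', rfl, hu'⟩ := h1 w' (ha hw')
    have e2 : y = u / u' := Subtype.ext hyw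
    rw [e2]
    exact hu.div hu'
  · intro f hf hf0 q hq
    obtain ⟨𝒪, hloc, hmem, hU, hreg⟩ := exists_loc (chart k M f).val.toRingHom
      Subtype.val_injective q
    apply hreg
    obtain ⟨V, hV, hV2⟩ := exists_dom (algebraMap L K) 𝒪 hloc
    have hch : ∀ x ∈ chart k M f, x ∈ 𝒪 := fun x hx =>
      (hmem x).2 ⟨⟨x, hx⟩, 1, (Ideal.ne_top_iff_one q).1 Ideal.IsPrime.ne_top', by simp⟩
    have hk : ∀ c : k, algebraMap k L c ∈ 𝒪 := fun c => hch _ (Subalgebra.algebraMap_mem _ c)
    obtain ⟨j, hj, hjV⟩ := h.cv V (fun c => hV _ (hk c))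
    have hfV : (f : K) / z j ∈ V := by
      have h1 := mem_of_span (F := K) (R := k) (𝒪 := V.toSubring) (fun c => hV _ (hk c))
        (Set.range z) (z j) (by rintro _ ⟨i, rfl⟩; exact hjV i) (f : K)
      apply h1
      have h2 : (L.val.toLinearMap f) ∈ Submodule.map L.val.toLinearMap M := ⟨f, hf, rfl⟩
      rw [Submodule.map_span, ← Set.range_comp] at h2
      exact h2
    have hUj : U 𝒪 (z' j / f) := by
      refine hV2 _ (hch _ (hin f j)) (div_ne_zero (hz0 j hj) hf0) ?_
      have e1 : (algebraMap L K (z' j / f))⁻¹ = (f : K) / z j := by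
        rw [map_div₀, inv_div]
        rfl
      rw [e1]
      exact hfV
    let Aj : Subalgebra k L := Algebra.adjoin k (Set.range fun i => z' i / z' j)
    have hAj : ∀ w : Aj, (w : L) ∈ 𝒪 := by
      rintro ⟨w, hw⟩
      change w ∈ 𝒪
      induction hw using Algebra.adjoin_induction with
      | mem x hx =>
        obtain ⟨i, rfl⟩ := hx
        have e1 : z' i / z' j = (z' i / f) * (z' j / f)⁻¹ := by
          have := hz0 j hj
          field_simp
        change z' i / z' j ∈ 𝒪
        rw [e1]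
        exact 𝒪.mul_mem (hch _ (hin f i)) hUj.2.2
      | algebraMap r => exact hk r
      | add x y _ _ hx hy => exact 𝒪.add_mem hx hy
      | mul x y _ _ hx hy => exact 𝒪.mul_mem hx hy
    have hsm : Algebra.Smooth k Aj := by
      have e1 : Aj.map L.val = Algebra.adjoin k (Set.range fun i => z i / z j) := by
        change (Algebra.adjoin k _).map L.val = _
        rw [AlgHom.map_adjoin, ← Set.range_comp]
        rfl
      have e2 : Aj ≃ₐ[k] Algebra.adjoin k (Set.range fun i => z i / z j) :=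
        (Subalgebra.equivMapOfInjective Aj L.val L.val.injective).trans
          (Subalgebra.equivOfEq _ _ e1)
      have := h.sm j hj
      exact Algebra.Smooth.of_equiv e2.symm
    have hfrac := frac_of_chart (𝒪 := 𝒪) Aj.val hAj (Set.range z') f (z' j) (hz0 j hj)
      (by
        rintro _ ⟨i, rfl⟩
        refine ⟨⟨z' i / z' j, Algebra.subset_adjoin ⟨i, rfl⟩⟩, ?_⟩
        change z' i = z' j * (z' i / z' j)
        have := hz0 j hj
        field_simp) hf (by
        have := hUj.inv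
        rwa [inv_div] at this) ⟨hch, by
        intro x hx
        obtain ⟨a, b, hb, rfl⟩ := (hmem x).1 hx
        exact ⟨a, a.2, b, b.2, (hU b).2 hb, rfl⟩⟩
    have hprime : (primeOf hloc Aj.val.toRingHom hAj).IsPrime :=
      primeOf_isPrime hloc Aj.val.toRingHom hAj
    have hmem' : ∀ x, x ∈ 𝒪 ↔ ∃ a b : Aj, b ∉ primeOf hloc Aj.val.toRingHom hAj ∧
        x = Aj.val.toRingHom a / Aj.val.toRingHom b := by
      intro x
      constructor
      · intro hx
        obtain ⟨a, b, hb0, hb, rfl⟩ := hfrac x hx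
        refine ⟨a, b, ?_, rfl⟩
        intro hc
        exact hc ⟨hb0, hAj b, hb⟩
      · rintro ⟨a, b, hb, rfl⟩
        have hb' : U 𝒪 (Aj.val.toRingHom b) := not_not.1 hb
        rw [div_eq_mul_inv]
        exact 𝒪.mul_mem (hAj a) hb'.2.2
    exact reg_of_loc Aj.val.toRingHom Subtype.val_injective
      (primeOf hloc Aj.val.toRingHom hAj) 𝒪 hmem' (regular_of_smooth (k := k) _)

/-- A smooth projective model over a finite field is a regular model proper over the integers. -/
theorem exists_regular_model [Finite k] (L : IntermediateField k K) {I : Type} [Finite I]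
    {z : I → K} {J : Set I} (h : ModelG k W L.toSubfield z J)
    (hW : ∀ a, ∀ x ∈ L, ∃ y ∈ W a, ∃ y' ∈ W a, y' ≠ 0 ∧ x = y / y') :
    ∃ (X' : Scheme.{0}) (_ : IsIntegral X') (g : X' ⟶ Spec (CommRingCat.of ℤ)),
      IsProper g ∧
      (∀ x : X',
        (((Module.finrank (IsLocalRing.ResidueField (X'.presheaf.stalk x))
            (IsLocalRing.CotangentSpace (X'.presheaf.stalk x)) : ℕ∞)) : WithBot ℕ∞)
          = ringKrullDim (X'.presheaf.stalk x)) ∧
      Nonempty (X'.functionField ≃+* L) := by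
  obtain ⟨M, hM, h0, hgen, hreg⟩ := hasModule_of_model L h hW
  have : Module.Finite ℤ k := Module.Finite.of_finite
  exact Pool.Agent.H968R2.Quad.exists_model (algebraMap k L).injective M hM h0 hgen hreg

end

end Pool.Agent.H920R2
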