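import Pool.Agent.H920R2.Cw7
import Pool.Agent.H920R2.Gl4

set_option autoImplicit false
set_option linter.unusedSectionVars false

open Polynomial TensorProduct

universe u v

namespace Pool.Agent.H920R2

/-- The field of fractions of the image. -/
def frF {k B L : Type u} [Field k] [CommRing B] [Field L] [Algebra k L] [Algebra k B]
    (g : B →ₐ[k] L) : IntermediateField k L where
  carrier := {x | FrB (g : B →+* L) x}
  mul_mem' ha hb := FrB.mul ha hb
  one_mem' := by
    have := FrB.of (g : B →+* L) 1
    rwa [map_one] at this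
  add_mem' ha hb := FrB.add ha hb
  zero_mem' := by
    have := FrB.of (g : B →+* L) 0
    rwa [map_zero] at this
  algebraMap_mem' r := by
    have h3 := FrB.of (g : B →+* L) (algebraMap k B r)
    have h4 : (g : B →+* L) (algebraMap k B r) = algebraMap k L r := g.commutes r
    rwa [h4] at h3
  inv_mem' _ ha := FrB.inv ha

section main

variable {k : Type u} [Field k] {L : Type u} [Field L] [Algebra k L] {n : ℕ}
  {K : Fin n → Type u} [∀ i, Field (K i)] [∀ i, Algebra k (K i)] (e : ∀ i, K i →ₐ[k] L)

/-- The multiplication map. -/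
lemma exists_mulMap : ∃ g : (⨂[k] i, K i) →ₐ[k] L,
    (∀ i (x : K i), g (PiTensorProduct.singleAlgHom (R := k) (A := K) i x) = e i x) ∧
    ∀ x, g x = PiTensorProduct.lift ((MultilinearMap.mkPiAlgebra k (Fin n) L).compLinearMap
      fun i => (e i).toLinearMap) x := by
  obtain ⟨g, hg⟩ := (isCoprod_pi (k := k) (A := K)).lift L e
  refine ⟨g, hg, ?_⟩
  have h1 : g.toLinearMap = PiTensorProduct.lift
      ((MultilinearMap.mkPiAlgebra k (Fin n) L).compLinearMap fun i => (e i).toLinearMap) := by
    apply PiTensorProduct.ext
    ext x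
    change g (PiTensorProduct.tprod k x) = PiTensorProduct.lift _ (PiTensorProduct.tprod k x)
    rw [PiTensorProduct.lift.tprod, MultilinearMap.compLinearMap_apply,
      MultilinearMap.mkPiAlgebra_apply, tprod_eq_prod, map_prod]
    exact Finset.prod_congr rfl fun i _ => hg i _
  intro x
  rw [← h1]
  rfl

variable [PerfectField k] {p : ℕ} (hp : p.Prime) (hpk : (p : k) = 0)
  (hfg : ∀ i, Algebra.EssFiniteType k (K i)) (htr : ∀ i, Algebra.trdeg k (K i) = 1)
  (hdisj : Function.Injective (PiTensorProduct.lift
    ((MultilinearMap.mkPiAlgebra k (Fin n) L).compLinearMap fun i => (e i).toLinearMap)))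
  (hgen : ⨆ i, (e i).fieldRange = ⊤) (τ : L ≃ₐ[k] L) (hτ : ∀ x, τ^[p] x = x)
  (hτ1 : ∃ x, τ x ≠ x) (hst : ∀ i x, ∃ y, τ (e i x) = e i y)

include hp hpk hfg htr hdisj hgen hτ hτ1 hst in
/-- The smooth projective model of the field of invariants. -/
theorem curves_model' :
    ∃ (W : (Fin n → Bool) → Set L)
      (_ : ∀ a, ∀ x ∈ fixF τ, ∃ y ∈ W a, ∃ y' ∈ W a, y' ≠ 0 ∧ x = y / y')
      (I : Type u) (_ : Finite I) (z : I → L) (J : Set I),
      ModelG k W (fixF τ).toSubfield z J := by
  classical
  obtain ⟨g, hg, hgl⟩ := exists_mulMap e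
  have hginj : Function.Injective g := by
    intro a b hab
    apply hdisj
    rw [← hgl, ← hgl]
    exact hab
  have hiter : ∀ i (m : ℕ) x, ∃ y, τ^[m] (e i x) = e i y := by
    intro i m
    induction m with
    | zero => intro x; exact ⟨x, rfl⟩
    | succ m ih =>
      intro x
      rw [Function.iterate_succ_apply]
      obtain ⟨y, hy⟩ := hst i x
      rw [hy]
      exact ih y
  have hst' : ∀ i x, ∃ y, τ.symm (e i x) = e i y := by
    intro i x
    have h1 : τ.symm (e i x) = τ^[p - 1] (e i x) := by
      rw [AlgEquiv.symm_apply_eq, ← Function.iterate_succ_apply' τ, Nat.succ_eq_add_one,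
        Nat.sub_add_cancel hp.one_lt.le, hτ]
    rw [h1]
    exact hiter i _ x
  have hσex : ∀ i, ∃ s : K i ≃ₐ[k] K i, ∀ x, τ (e i x) = e i (s x) := by
    intro i
    choose f hf using hst i
    choose f' hf' using hst' i
    have hinj : Function.Injective (e i) := (e i).injective
    exact ⟨{ toFun := f
             invFun := f'
             left_inv := fun x => by
               apply hinj
               rw [← hf', ← hf, AlgEquiv.symm_apply_apply]
             right_inv := fun x => by
               apply hinj
               rw [← hf, ← hf', AlgEquiv.apply_symm_apply]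
             map_mul' := fun x y => by
               apply hinj
               rw [← hf, map_mul, map_mul, map_mul, hf, hf]
             map_add' := fun x y => by
               apply hinj
               rw [← hf, map_add, map_add, map_add, hf, hf]
             commutes' := fun r => by
               apply hinj
               rw [← hf, AlgHom.commutes, AlgEquiv.commutes] }, hf⟩
  choose σ hσe using hσex
  have hσ : ∀ i x, (σ i)^[p] x = x := by
    intro i x
    have hinj : Function.Injective (e i) := (e i).injective
    apply hinj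
    have h0 : ∀ (m : ℕ) x, τ^[m] (e i x) = e i ((σ i)^[m] x) := by
      intro m
      induction m with
      | zero => intro x; rfl
      | succ m ih => intro x; rw [Function.iterate_succ_apply, hσe, ih,
          Function.iterate_succ_apply]
    rw [← h0, hτ]
  have htop : frF g = ⊤ := by
    rw [eq_top_iff, ← hgen, iSup_le_iff]
    rintro i _ ⟨x, rfl⟩
    have h1 := FrB.of (g : (⨂[k] i, K i) →+* L)
      (PiTensorProduct.singleAlgHom (R := k) (A := K) i x)
    have h2 : (g : (⨂[k] i, K i) →+* L)
      (PiTensorProduct.singleAlgHom (R := k) (A := K) i x) = e i x := hg i x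
    rw [h2] at h1
    exact h1
  have hfrac : ∀ x : L, ∃ a b, g b ≠ 0 ∧ x = g a / g b := by
    intro x
    have h1 : x ∈ frF g := by rw [htop]; trivial
    exact h1
  have hex : ∃ i, ∃ z, σ i z ≠ z := by
    by_contra hcon
    push Not at hcon
    obtain ⟨x, hx⟩ := hτ1
    apply hx
    have h1 : fixF τ = ⊤ := by
      rw [eq_top_iff, ← hgen, iSup_le_iff]
      rintro i _ ⟨x, rfl⟩
      change τ (e i x) = e i x
      rw [hσe, hcon]
    have h2 : x ∈ fixF τ := by rw [h1]; trivial
    exact h2
  refine curves_model hp hpk htr σ hσ hex g hginj hfrac τ ?_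
  intro i x
  rw [hg, hg, hσe]

end main

end Pool.Agent.H920R2
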