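import Pool.Agent.H920R2.Cu6
import Pool.Agent.H920R2.Cw8

set_option autoImplicit false
set_option linter.unusedSectionVars false

open MvPolynomial

universe u v

namespace Pool.Agent.H920R2

section rs

variable {k L : Type u} [Field k] [Field L] [Algebra k L] (τ : L ≃ₐ[k] L) (p : ℕ)

/-- The Rees algebra of the filtration defined by an automorphism. -/
noncomputable def RS (C : Subalgebra k L) : Subalgebra k (LP L) :=
  Algebra.adjoin k ({hm (-1) 1} ∪ {f | ∃ (a : ℕ) (c : L), c ∈ C ∧ a < p ∧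
    f = hm a ((del τ)^[a] c)})

lemma RS_s (C : Subalgebra k L) : hm (-1) 1 ∈ RS τ p C := Algebra.subset_adjoin (Or.inl rfl)

lemma RS_del (C : Subalgebra k L) {a : ℕ} (ha : a < p) {c : L} (hc : c ∈ C) :
    hm a ((del τ)^[a] c) ∈ RS τ p C :=
  Algebra.subset_adjoin (Or.inr ⟨a, c, hc, ha, rfl⟩)

lemma gr_RS (C : Subalgebra k L) : Gr (RS τ p C) := by
  apply gr_adjoin
  rintro f (hf | ⟨a, c, -, -, rfl⟩)
  · exact ⟨-1, 1, hf⟩
  · exact ⟨_, _, rfl⟩

lemma RS_b (C : Subalgebra k L) (hp : 0 < p) {c : L} (hc : c ∈ C) : hm 0 c ∈ RS τ p C :=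
  RS_del τ p C hp hc

/-- The localization of a subalgebra of a field. -/
def locL (C : Subalgebra k L) (f : L) (hf : f ∈ C) : Subalgebra k L where
  carrier := {y | ∃ n : ℕ, f ^ n * y ∈ C}
  mul_mem' := by
    rintro a b ⟨n, hn⟩ ⟨m, hm⟩
    exact ⟨n + m, by
      have : f ^ (n + m) * (a * b) = (f ^ n * a) * (f ^ m * b) := by ring
      rw [this]; exact C.mul_mem hn hm⟩
  add_mem' := by
    rintro a b ⟨n, hn⟩ ⟨m, hm⟩
    refine ⟨n + m, ?_⟩
    have : f ^ (n + m) * (a + b) = f ^ m * (f ^ n * a) + f ^ n * (f ^ m * b) := by ring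
    rw [this]
    exact C.add_mem (C.mul_mem (C.pow_mem hf _) hn) (C.mul_mem (C.pow_mem hf _) hm)
  algebraMap_mem' r := ⟨0, by rw [pow_zero, one_mul]; exact C.algebraMap_mem r⟩

lemma mem_locL {C : Subalgebra k L} {f : L} {hf : f ∈ C} {y : L} :
    y ∈ locL C f hf ↔ ∃ n : ℕ, f ^ n * y ∈ C := Iff.rfl

lemma le_locL (C : Subalgebra k L) (f : L) (hf : f ∈ C) : C ≤ locL C f hf :=
  fun y hy => ⟨0, by rwa [pow_zero, one_mul]⟩

lemma inv_mem_locL (C : Subalgebra k L) (f : L) (hf : f ∈ C) : f⁻¹ ∈ locL C f hf := by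
  by_cases h : f = 0
  · have h2 : f⁻¹ = 0 := by rw [h, inv_zero]
    rw [h2]
    exact Subalgebra.zero_mem _
  · exact ⟨1, by rw [pow_one, mul_inv_cancel₀ h]; exact C.one_mem⟩

lemma locL_locL (C : Subalgebra k L) (f : L) (hf : f ∈ C) (g : L)
    (hg : g ∈ locL C f hf) (n : ℕ) (hn : f ^ n * g ∈ C) :
    locL (locL C f hf) g hg = locL C (f * (f ^ n * g)) (C.mul_mem hf hn) := by
  ext y
  rw [mem_locL, mem_locL]
  constructor
  · rintro ⟨m, a, hma⟩
    refine ⟨m + a, ?_⟩
    have h1 : (f * (f ^ n * g)) ^ (m + a) * y = f ^ m * (f ^ n) ^ m * (f ^ n * g) ^ a *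
      (f ^ a * (g ^ m * y)) := by
      rw [mul_pow, pow_add f m a, pow_add, mul_pow (f ^ n) g m]
      ring
    rw [h1]
    exact C.mul_mem (C.mul_mem (C.mul_mem (C.pow_mem hf _) (C.pow_mem (C.pow_mem hf _) _))
      (C.pow_mem hn _)) hma
  · rintro ⟨m, hm⟩
    refine ⟨m, m + n * m, ?_⟩
    have h1 : f ^ (m + n * m) * (g ^ m * y) = (f * (f ^ n * g)) ^ m * y := by
      rw [mul_pow, mul_pow, pow_add, pow_mul]
      ring
    rw [h1]
    exact hm

lemma locL_stable {C : Subalgebra k L} (hC : ∀ c ∈ C, τ c ∈ C) {f : L} (hf : f ∈ C)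
    (hτf : τ f = f) : ∀ c ∈ locL C f hf, τ c ∈ locL C f hf := by
  rintro c ⟨n, hn⟩
  refine ⟨n, ?_⟩
  have h1 := hC _ hn
  rwa [map_mul, map_pow, hτf] at h1

lemma del_mul_inv {f : L} (hτf : τ f = f) (c : L) : del τ (f * c) = f * del τ c := by
  unfold del
  rw [map_mul, hτf]
  ring

lemma del_iter_mul_inv {f : L} (hτf : τ f = f) (a : ℕ) (c : L) :
    (del τ)^[a] (f * c) = f * (del τ)^[a] c := by
  induction a generalizing c with
  | zero => rfl
  | succ a ih => rw [Function.iterate_succ_apply, del_mul_inv τ hτf, ih,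
      Function.iterate_succ_apply]

/-- Localization of the Rees algebra. -/
theorem loc_RS (hp : 0 < p) (C : Subalgebra k L) {f : L} (hf : f ∈ C) (hf0 : f ≠ 0)
    (hτf : τ f = f) :
    loc (RS τ p C) (hm 0 f) (RS_b τ p C hp hf) = RS τ p (locL C f hf) := by
  have hτfn : ∀ n : ℕ, τ (f ^ n) = f ^ n := fun n => by rw [map_pow, hτf]
  apply le_antisymm
  · rintro x ⟨n, hn⟩
    have h1 : RS τ p C ≤ RS τ p (locL C f hf) := by
      refine Algebra.adjoin_mono (Set.union_subset_union_right _ ?_)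
      rintro _ ⟨a, c, hc, ha, rfl⟩
      exact ⟨a, c, le_locL C f hf hc, ha, rfl⟩
    have h2 : x = hm 0 f⁻¹ ^ n * (hm 0 f ^ n * x) := by
      rw [← mul_assoc, ← mul_pow, hm_mul, add_zero, inv_mul_cancel₀ hf0, hm_one, one_pow, one_mul]
    rw [h2]
    exact Subalgebra.mul_mem _ (Subalgebra.pow_mem _ (RS_b τ p _ hp (inv_mem_locL C f hf)) _)
      (h1 hn)
  · unfold RS
    rw [Algebra.adjoin_le_iff]
    rintro x (hx | ⟨a, c, ⟨n, hn⟩, ha, rfl⟩)
    · rw [hx]
      exact le_loc _ _ _ (RS_s τ p C)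
    · refine ⟨n, ?_⟩
      have h1 : hm 0 f ^ n * hm a ((del τ)^[a] c) = hm a ((del τ)^[a] (f ^ n * c)) := by
        rw [hm_pow, hm_mul, mul_zero, zero_add, del_iter_mul_inv τ (hτfn n)]
      rw [h1]
      exact RS_del τ p C ha hn

/-- The Rees algebra in adapted coordinates. -/
theorem RS_eq_rwA (hp : 0 < p) (C : Subalgebra k L) {α : Type} [Finite α] (x : α → C)
    (w : α → ℕ)
    (h1 : ∀ i, w i < p ∧ ∃ u ∈ C, (x i : L) = (del τ)^[w i] u)
    (h2 : ∀ i, del τ (x i : L) ∈ Submodule.span k {y : L | ∃ j, w i + 1 ≤ w j ∧ y = x j})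
    (h3 : ∀ c ∈ C, del τ c ∈ Submodule.span C {y : L | ∃ j, 1 ≤ w j ∧ y = x j}) :
    RS τ p C = rwA C.val w x := by
  apply le_antisymm
  · -- closedness
    have hS : ∀ (b : ℕ) (i : α), b ≤ w i → hm b (x i : L) ∈ rwA C.val w x := by
      intro b i hb
      have h4 : hm b (x i : L) = (hm (-1) 1 : LP L) ^ (w i - b) * hm (w i) (x i : L) := by
        rw [hm_pow, hm_mul, one_pow, one_mul]
        congr 1
        rw [Nat.cast_sub hb]
        ring
      rw [h4]
      exact Subalgebra.mul_mem _ (Subalgebra.pow_mem _ (rwA_s C.val w x) _) (rwA_x C.val w x i)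
    have hclosed : ∀ f ∈ rwA C.val w x, Dl τ f ∈ rwA C.val w x := by
      have h4 := dz_adjoin τ 1 (({hm (-1) 1} ∪ (Set.range fun b : C => hm 0 (C.val b)) ∪
        Set.range fun i => hm (w i) (C.val (x i))) : Set (LP L)) (rwA_s C.val w x) (by
          rintro f ((hf | ⟨b, rfl⟩) | ⟨i, rfl⟩)
          · rw [hf, tl_hm, map_one, sub_self, mul_zero]
            exact Subalgebra.zero_mem _
          · have h5 : (hm ((1 : ℕ) : ℤ) 1 : LP L) * (tl τ (hm 0 (C.val b)) - hm 0 (C.val b)) =
                hm 1 (del τ (b : L)) := by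
              rw [tl_hm, ← hm_sub, hm_mul, one_mul]
              rfl
            rw [h5]
            have h6 := h3 b b.2
            generalize del τ (b : L) = z at h6
            change hm 1 z ∈ rwA C.val w x
            induction h6 using Submodule.span_induction with
            | mem z hz =>
              obtain ⟨j, hj, rfl⟩ := hz
              exact hS 1 j hj
            | zero => rw [hm_zero]; exact Subalgebra.zero_mem _
            | add y z _ _ hy hz => rw [hm_add]; exact Subalgebra.add_mem _ hy hz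
            | smul c y _ hy =>
              have h7 : hm 1 (c • y) = hm 0 (C.val c) * hm 1 y := by
                rw [hm_mul, zero_add]; rfl
              rw [h7]
              exact Subalgebra.mul_mem _ (rwA_b C.val w x c) hy
          · have h5 : (hm ((1 : ℕ) : ℤ) 1 : LP L) * (tl τ (hm (w i) (C.val (x i))) -
                hm (w i) (C.val (x i))) = hm ((w i + 1 : ℕ) : ℤ) (del τ (x i : L)) := by
              rw [tl_hm, ← hm_sub, hm_mul, one_mul]
              congr 1
              push_cast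
              ring
            rw [h5]
            have h6 := h2 i
            generalize del τ (x i : L) = z at h6
            change hm ((w i + 1 : ℕ) : ℤ) z ∈ rwA C.val w x
            induction h6 using Submodule.span_induction with
            | mem z hz =>
              obtain ⟨j, hj, rfl⟩ := hz
              exact hS _ j hj
            | zero => rw [hm_zero]; exact Subalgebra.zero_mem _
            | add y z _ _ hy hz => rw [hm_add]; exact Subalgebra.add_mem _ hy hz
            | smul c y _ hy =>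
              rw [← smul_hm]
              exact Subalgebra.smul_mem _ hy c)
      intro f hf
      have h5 := h4 f hf
      exact h5
    unfold RS
    rw [Algebra.adjoin_le_iff]
    rintro f (hf | ⟨a, c, hc, -, rfl⟩)
    · rw [hf]; exact rwA_s C.val w x
    · change hm a ((del τ)^[a] c) ∈ rwA C.val w x
      induction a with
      | zero => exact rwA_b C.val w x ⟨c, hc⟩
      | succ a ih =>
        have h4 := hclosed _ ih
        rw [Dl_hm] at h4
        rw [Function.iterate_succ_apply']
        push_cast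
        exact h4
  · unfold rwA
    rw [Algebra.adjoin_le_iff]
    rintro f ((hf | ⟨b, rfl⟩) | ⟨i, rfl⟩)
    · rw [hf]; exact RS_s τ p C
    · exact RS_b τ p C hp b.2
    · obtain ⟨hw, u, hu, hxu⟩ := h1 i
      change hm (w i) (x i : L) ∈ RS τ p C
      rw [hxu]
      exact RS_del τ p C hw hu

end rs

end Pool.Agent.H920R2
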