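import Pool.Agent.H920R2.Cy9

set_option autoImplicit false
set_option linter.unusedSectionVars false

universe u v

namespace Pool.Agent.H920R2

section forms

variable {k K : Type u} [Field k] [Field K] [Algebra k K] {m : ℕ} (z : Fin (m + 1) → K)

/-- The form is a unit at the centre of the valuation. -/
def GoodF (V : ValuationSubring K) (d : ℕ) (F : K) : Prop :=
  ∃ i₀, (∀ i, V.valuation (z i) ≤ V.valuation (z i₀)) ∧ V.valuation F = V.valuation (z i₀) ^ d

lemma exists_max_z (V : ValuationSubring K) : ∃ i₀, ∀ i, V.valuation (z i) ≤ V.valuation (z i₀) :=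
  Finite.exists_max fun i => V.valuation (z i)

lemma val_MN (V : ValuationSubring K) {i₀ : Fin (m + 1)}
    (hi₀ : ∀ i, V.valuation (z i) ≤ V.valuation (z i₀)) {d : ℕ} {x : K} (hx : x ∈ MN z d) :
    V.valuation x ≤ V.valuation (z i₀) ^ d := by
  obtain ⟨a, ha, rfl⟩ := hx
  rw [map_prod, ← ha, ← Finset.prod_pow_eq_pow_sum]
  refine Finset.prod_le_prod' fun i _ => ?_
  rw [map_pow]
  exact pow_le_pow_left' (hi₀ i) _

lemma val_FS (V : ValuationSubring K) (hV : ∀ c : k, algebraMap k K c ∈ V) {i₀ : Fin (m + 1)}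
    (hi₀ : ∀ i, V.valuation (z i) ≤ V.valuation (z i₀)) {d : ℕ} {x : K} (hx : x ∈ FS k z d) :
    V.valuation x ≤ V.valuation (z i₀) ^ d := by
  unfold FS at hx
  induction hx using Submodule.span_induction with
  | mem x hx => exact val_MN z V hi₀ hx
  | zero => rw [map_zero]; exact zero_le
  | add a b _ _ ha hb => exact (V.valuation.map_add a b).trans (max_le ha hb)
  | smul c a _ ha =>
    rw [Algebra.smul_def, map_mul]
    have h1 : V.valuation (algebraMap k K c) ≤ 1 := (V.valuation_le_one_iff _).2 (hV c)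
    calc V.valuation (algebraMap k K c) * V.valuation a ≤ 1 * V.valuation a :=
          mul_le_mul_left h1 _
      _ ≤ V.valuation (z i₀) ^ d := by rw [one_mul]; exact ha

variable (hz : ∀ i, z i ≠ 0)

include hz in
lemma good_AF (V : ValuationSubring K) (hV : ∀ c : k, algebraMap k K c ∈ V) {d : ℕ} {F : K}
    (hF : GoodF z V d F) : ∀ y ∈ AF k z d F, y ∈ V := by
  obtain ⟨i₀, hi₀, hF⟩ := hF
  have hpos : 0 < V.valuation F := by
    rw [hF]
    exact pow_pos (zero_lt_iff.2 ((V.valuation.ne_zero_iff).2 (hz i₀))) _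
  intro y hy
  unfold AF at hy
  induction hy using Algebra.adjoin_induction with
  | mem y hy =>
    obtain ⟨x, hx, rfl⟩ := hy
    rw [← V.valuation_le_one_iff, map_div₀]
    have h1 := val_MN z V hi₀ hx
    rw [← hF] at h1
    exact div_le_one_of_le₀ h1 hpos.le
  | algebraMap r => exact hV r
  | add x y _ _ hx hy => exact V.add_mem _ _ hx hy
  | mul x y _ _ hx hy => exact V.mul_mem _ _ hx hy

include hz in
lemma GoodF.ne_zero {V : ValuationSubring K} {d : ℕ} {F : K} (hF : GoodF z V d F) : F ≠ 0 := by
  obtain ⟨i₀, -, hF⟩ := hF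
  intro h
  rw [h, map_zero] at hF
  exact (pow_ne_zero d ((V.valuation.ne_zero_iff).2 (hz i₀))) hF.symm

include hz in
/-- There is a finite set of forms such that every family of points lies in a chart. -/
theorem exists_forms (k : Type u) [Field k] [Algebra k K] (s : ℕ) :
    ∃ (d : ℕ) (Φ : Set K), 1 ≤ d ∧ Φ.Finite ∧ (∀ F ∈ Φ, F ∈ FS k z d) ∧
      ∀ V : Fin (s + 1) → ValuationSubring K, (∀ i (c : k), algebraMap k K c ∈ V i) →
        ∃ F ∈ Φ, ∀ i, GoodF z (V i) d F := by
  classical
  induction s with
  | zero =>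
    refine ⟨1, Set.range z, le_rfl, Set.finite_range z, ?_, ?_⟩
    · rintro _ ⟨i, rfl⟩
      have := FS_z (k := k) z i 1
      rwa [pow_one] at this
    · intro V _
      obtain ⟨i₀, hi₀⟩ := exists_max_z z (V 0)
      refine ⟨z i₀, ⟨i₀, rfl⟩, ?_⟩
      intro i
      obtain rfl : i = 0 := Fin.ext (by have := i.2; omega)
      exact ⟨i₀, hi₀, (pow_one _).symm⟩
  | succ s ih =>
    obtain ⟨d, Φ, hd, hfin, hΦ, hcov⟩ := ih
    let E : (Fin (s + 2) → K) → K := fun f => ∑ j, ∏ l ∈ Finset.univ.erase j, f l
    refine ⟨(s + 1) * d, (fun F => F ^ (s + 1)) '' Φ ∪ E '' {f | ∀ l, f l ∈ Φ}, ?_, ?_, ?_, ?_⟩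
    · exact Nat.mul_pos (Nat.succ_pos s) hd
    · exact (hfin.image _).union ((Set.Finite.pi' fun _ => hfin).image _)
    · rintro _ (⟨F, hF, rfl⟩ | ⟨f, hf, rfl⟩)
      · have h1 := FS_prod (k := k) z (Finset.univ : Finset (Fin (s + 1))) (fun _ => F)
          (fun _ _ => hΦ F hF)
        rw [Finset.prod_const, Finset.card_univ, Fintype.card_fin] at h1
        exact h1
      · refine Submodule.sum_mem _ fun j _ => ?_
        have h1 := FS_prod (k := k) z (Finset.univ.erase j) f (fun l _ => hΦ _ (hf l))
        rw [Finset.card_erase_of_mem (Finset.mem_univ j), Finset.card_univ, Fintype.card_fin]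
          at h1
        exact h1
    · intro V hV
      have h1 : ∀ j : Fin (s + 2), ∃ F ∈ Φ, ∀ i, i ≠ j → GoodF z (V i) d F := by
        intro j
        obtain ⟨F, hF, h1⟩ := hcov (fun i => V (j.succAbove i)) fun i c => hV _ c
        refine ⟨F, hF, ?_⟩
        intro i hij
        obtain ⟨i', rfl⟩ := Fin.exists_succAbove_eq hij
        exact h1 i'
      choose f hf hgood using h1
      by_cases hex : ∃ j, GoodF z (V j) d (f j)
      · obtain ⟨j, hj⟩ := hex
        refine ⟨f j ^ (s + 1), Or.inl ⟨f j, hf j, rfl⟩, ?_⟩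
        intro i
        have h2 : GoodF z (V i) d (f j) := by
          by_cases hij : i = j
          · rw [hij]; exact hj
          · exact hgood j i hij
        obtain ⟨i₀, hi₀, h3⟩ := h2
        refine ⟨i₀, hi₀, ?_⟩
        rw [map_pow, h3, ← pow_mul, mul_comm]
      · push Not at hex
        refine ⟨E f, Or.inr ⟨f, hf, rfl⟩, ?_⟩
        intro i
        obtain ⟨i₀, hi₀⟩ := exists_max_z z (V i)
        set v := (V i).valuation with hv
        set M := v (z i₀) with hM
        have hM0 : M ≠ 0 := (v.ne_zero_iff).2 (hz i₀)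
        have hMd : 0 < M ^ d := pow_pos (zero_lt_iff.2 hM0) _
        have heq : ∀ j, j ≠ i → v (f j) = M ^ d := by
          intro j hj
          obtain ⟨i₁, hi₁, h3⟩ := hgood j i (Ne.symm hj)
          have h4 : v (z i₁) = M := le_antisymm (hi₀ i₁) (hi₁ i₀)
          rw [← hv] at h3
          rw [h3, h4]
        have hlt : v (f i) < M ^ d := by
          refine lt_of_le_of_ne (val_FS z (V i) (hV i) hi₀ (hΦ _ (hf i))) ?_
          intro h3
          exact hex i ⟨i₀, hi₀, h3⟩
        have hPi : v (∏ l ∈ Finset.univ.erase i, f l) = M ^ ((s + 1) * d) := by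
          rw [map_prod, Finset.prod_congr rfl fun l hl => heq l (Finset.ne_of_mem_erase hl),
            Finset.prod_const, Finset.card_erase_of_mem (Finset.mem_univ i), Finset.card_univ,
            Fintype.card_fin, ← pow_mul]
          congr 1
          exact mul_comm _ _
        have hPj : ∀ j ∈ Finset.univ.erase i, v (∏ l ∈ Finset.univ.erase j, f l) <
            M ^ ((s + 1) * d) := by
          intro j hj
          have hij : i ≠ j := (Finset.ne_of_mem_erase hj).symm
          have hmem : i ∈ Finset.univ.erase j := Finset.mem_erase.2 ⟨hij, Finset.mem_univ i⟩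
          rw [← Finset.mul_prod_erase _ _ hmem, map_mul, map_prod]
          have h3 : ∏ l ∈ (Finset.univ.erase j).erase i, v (f l) = (M ^ d) ^ s := by
            rw [Finset.prod_congr rfl fun l hl => heq l (Finset.ne_of_mem_erase hl),
              Finset.prod_const, Finset.card_erase_of_mem hmem,
              Finset.card_erase_of_mem (Finset.mem_univ j), Finset.card_univ, Fintype.card_fin]
            congr 1
          rw [h3]
          have h4 : M ^ ((s + 1) * d) = M ^ d * (M ^ d) ^ s := by
            rw [← pow_mul, ← pow_add]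
            congr 1
            ring
          rw [h4]
          exact mul_lt_mul_of_pos_right hlt (pow_pos hMd _)
        have hrest : v (∑ j ∈ Finset.univ.erase i, ∏ l ∈ Finset.univ.erase j, f l) <
            M ^ ((s + 1) * d) :=
          v.map_sum_lt (pow_ne_zero _ hM0) hPj
        refine ⟨i₀, hi₀, ?_⟩
        rw [← hv, ← hM]
        change v (∑ j, ∏ l ∈ Finset.univ.erase j, f l) = _
        rw [← Finset.add_sum_erase _ _ (Finset.mem_univ i), ← hPi]
        apply v.map_add_eq_of_lt_left
        rw [hPi]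
        exact hrest

end forms

end Pool.Agent.H920R2
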