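import Pool.Agent.H920R2.Cy10

set_option autoImplicit false
set_option linter.unusedSectionVars false

open TensorProduct

universe u v

namespace Pool.Agent.H920R2

section main

variable {k K L : Type u} [Field k] [Field K] [Algebra k K] [Field L] [Algebra k L] {m n : ℕ}
  {z : Fin (m + 1) → K} (hz : ∀ i, z i ≠ 0) (hsmz : ∀ i, Algebra.Smooth k (AZ k z i))
  (hgenz : IntermediateField.adjoin k (Set.range fun j => z j / z 0) = ⊤)
  (e : Fin n → K →ₐ[k] L) {g : (⨂[k] _ : Fin n, K) →ₐ[k] L}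
  (hg : ∀ i x, g (PiTensorProduct.singleAlgHom (R := k) (A := fun _ : Fin n => K) i x) = e i x)
  (hginj : Function.Injective g) (hfr : ∀ x : L, ∃ a b, g b ≠ 0 ∧ x = g a / g b)
  {p : ℕ} (hp : p.Prime) (hpk : (p : k) = 0) (τ : L ≃ₐ[k] L) (hτp : ∀ x, τ^[p] x = x)
  (π : Equiv.Perm (Fin n)) (hπ : π ^ p = 1) (hτ : ∀ i x, τ (e i x) = e (π i) x)
  (hne : ∃ x, τ x ≠ x)

include hz hgenz in
/-- The function field is the fraction field of the charts. -/
lemma AF_frac {d : ℕ} (hd : 1 ≤ d) {F : K} (hF0 : F ≠ 0) (y : K) :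
    FrB ((AF k z d F).val : AF k z d F →+* K) y := by
  have h1 : frF (AF k z d F).val = ⊤ := by
    rw [eq_top_iff, ← hgenz, IntermediateField.adjoin_le_iff]
    rintro _ ⟨j, rfl⟩
    have h2 : z j * z 0 ^ (d - 1) ∈ FS k z d := by
      have h2 := FS_mul (k := k) z (FS_z z j 1) (FS_z z 0 (d - 1))
      rw [pow_one, Nat.add_sub_cancel' hd] at h2
      exact h2
    refine ⟨⟨_, FS_div_mem z h2⟩, ⟨_, FS_div_mem z (FS_z z 0 d)⟩, ?_, ?_⟩
    · change z 0 ^ d / F ≠ 0
      exact div_ne_zero (pow_ne_zero _ (hz 0)) hF0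
    · change z j / z 0 = (z j * z 0 ^ (d - 1) / F) / (z 0 ^ d / F)
      obtain ⟨c, rfl⟩ := Nat.exists_eq_add_of_le hd
      rw [Nat.add_sub_cancel_left, pow_add, pow_one]
      have := hz 0
      field_simp
  have h2 : y ∈ frF (AF k z d F).val := by rw [h1]; trivial
  exact h2

include hg hfr in
lemma TT_frac (A : Subalgebra k K) (hA : ∀ y, FrB (A.val : A →+* K) y) (x : L) :
    FrB ((TT e fun _ => A).val : (TT e fun _ => A) →+* L) x := by
  classical
  have h1 : ∀ i (y : K), FrB ((TT e fun _ => A).val : (TT e fun _ => A) →+* L) (e i y) := by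
    intro i y
    obtain ⟨b, b', -, rfl⟩ := hA y
    rw [map_div₀]
    have h2 : ∀ b : A, FrB ((TT e fun _ => A).val : (TT e fun _ => A) →+* L) (e i (b : K)) :=
      fun b => FrB.of ((TT e fun _ => A).val : (TT e fun _ => A) →+* L)
        ⟨e i (b : K), e_mem_TT e (fun _ => A) i b.2⟩
    exact (h2 b).div (h2 b')
  have h2 : ∀ b : ⨂[k] _ : Fin n, K,
      FrB ((TT e fun _ => A).val : (TT e fun _ => A) →+* L) (g b) := by
    intro b
    have h2 : b ∈ Algebra.adjoin k (⋃ i, Set.range
        (PiTensorProduct.singleAlgHom (R := k) (A := fun _ : Fin n => K) i)) := by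
      rw [coprod_adjoin (isCoprod_pi (k := k) (A := fun _ : Fin n => K))]; trivial
    induction h2 using Algebra.adjoin_induction with
    | mem x hx =>
      obtain ⟨i, y, rfl⟩ := Set.mem_iUnion.1 hx
      rw [hg]
      exact h1 i y
    | algebraMap r =>
      rw [AlgHom.commutes]
      exact FrB.of ((TT e fun _ => A).val : (TT e fun _ => A) →+* L) (algebraMap k _ r)
    | add x y _ _ hx hy => rw [map_add]; exact hx.add hy
    | mul x y _ _ hx hy => rw [map_mul]; exact hx.mul hy
  obtain ⟨b, b', -, rfl⟩ := hfr x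
  exact (h2 b).div (h2 b')

include hz hsmz hgenz hg hginj hfr hp hpk hτp hπ hτ hne in
/-- The smooth projective model of the quotient of a power of a smooth projective variety. -/
theorem model_perm : ∃ (N : ℕ) (W : Fin N → Set L)
      (_ : ∀ a, ∀ x ∈ fixF τ, ∃ y ∈ W a, ∃ y' ∈ W a, y' ≠ 0 ∧ x = y / y')
      (I : Type u) (_ : Finite I) (z' : I → L) (J : Set I),
      ModelG k W (fixF τ).toSubfield z' J := by
  classical
  obtain ⟨d, Φ, hd, hfin, hΦ, hcov⟩ := exists_forms z hz k n
  let Φ' : Set K := Φ ∩ {F | F ≠ 0}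
  have hfin' : Finite Φ' := (hfin.subset Set.inter_subset_left)
  obtain ⟨N, ⟨ε⟩⟩ := Finite.exists_equiv_fin Φ'
  let F : Fin N → K := fun a => (ε.symm a : Φ')
  have hF : ∀ a, F a ∈ FS k z d := fun a => hΦ _ (ε.symm a).2.1
  have hF0 : ∀ a, F a ≠ 0 := fun a => (ε.symm a).2.2
  let C : Fin N → Subalgebra k L := fun a => TT e fun _ => AF k z d (F a)
  have hC : ∀ a, ∀ c ∈ C a, τ c ∈ C a := fun a => TT_stable e τ π hτ _
  let σ : ∀ a, C a ≃ₐ[k] C a := fun a => resEquiv τ _ (hC a) (symm_mem τ hp.pos hτp _ (hC a))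
  have hσp : ∀ a c, (σ a)^[p] c = c := by
    intro a c
    apply Subtype.ext
    rw [coe_resEquiv_iter, hτp]
  have hsmR : ∀ a, Algebra.Smooth k (RS τ p (C a)) := fun a =>
    smooth_RS_TT e hg hginj hp hpk τ hτp π hπ hτ _ (smooth_AF z hz hsmz hd (hF a) (hF0 a))
  have hfrC : ∀ a x, FrB ((C a).val : C a →+* L) x := fun a =>
    TT_frac e hg hfr _ (AF_frac hz hgenz hd (hF0 a))
  have hneC : ∀ a, ∃ c ∈ C a, τ c ≠ c := by
    intro a
    by_contra hcon
    push Not at hcon
    obtain ⟨x, hx⟩ := hne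
    apply hx
    obtain ⟨b, b', -, rfl⟩ := hfrC a x
    change τ ((b : L) / (b' : L)) = (b : L) / (b' : L)
    rw [map_div₀, hcon b b.2, hcon b' b'.2]
  have hcover := fun a => cover_RS τ hp hpk hτp (C a) (hC a) (σ a) (fun c => rfl) (hsmR a) (hneC a)
  choose T hT e' η he' hCov using hcover
  have hz0 : z 0 ^ d ≠ 0 := pow_ne_zero _ (hz 0)
  let hh : Fin N → L := fun a => ∏ i, e i (F a / z 0 ^ d)
  have hh0 : ∀ a, hh a ≠ 0 := fun a => Finset.prod_ne_zero_iff.2 fun i _ =>
    (map_ne_zero (e i)).2 (div_ne_zero (hF0 a) hz0)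
  have hrat : ∀ a b, hh b / hh a = ∏ i, e i (F b / F a) := by
    intro a b
    refine (Finset.prod_div_distrib _ _).symm.trans ?_
    refine Finset.prod_congr rfl fun i _ => ?_
    rw [← map_div₀]
    congr 1
    have := hF0 a
    field_simp
  have hτprod : ∀ x : K, τ (∏ i, e i x) = ∏ i, e i x := by
    intro x
    rw [map_prod, Finset.prod_congr rfl fun i _ => hτ i x]
    exact Equiv.prod_comp π fun i => e i x
  have hmem : ∀ a b, ∏ i, e i (F b / F a) ∈ C a := fun a b =>
    Subalgebra.prod_mem _ fun i _ => e_mem_TT e (fun _ => AF k z d (F a)) i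
      (FS_div_mem z (hF b))
  obtain ⟨ρ, H, hA⟩ := atlasG_of_covers hCov (fixF τ).toSubfield
    (by
      intro d x hx
      rw [mem_fixedAlg, tl_hm] at hx
      exact hm_inj hx) hh hh0
    (by
      intro a
      rw [mem_fixedAlg, tl_hm]
      congr 1
      exact hτprod _)
    (by
      intro a b
      rw [hrat]
      exact RS_b τ p (C a) hp.pos (hmem a b))
    (by
      intro a b f hf
      rw [hrat]
      refine RS_gl τ hp.pos (C b) (C a) _ (hmem a b) (hτprod _) ?_ f hf
      intro c hc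
      have h1 : C b ≤ TT e fun _ => locL (AF k z d (F a)) (F b / F a) (FS_div_mem z (hF b)) :=
        TT_mono e fun _ => AF_gl z (hF b) (hF0 b)
      have h2 := h1 hc
      rw [← locL_TT e (fun _ => AF k z d (F a)) (fun _ => F b / F a)
        (fun _ => FS_div_mem z (hF b)) (fun _ => div_ne_zero (hF0 b) (hF0 a)) (hmem a b)] at h2
      exact h2)
    (by
      intro V hV
      let V' : Fin (n + 1) → ValuationSubring K := fun i =>
        if h : (i : ℕ) < n then V.comap (e ⟨i, h⟩ : K →+* L) else ⊤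
      have hV' : ∀ i (c : k), algebraMap k K c ∈ V' i := by
        intro i c
        by_cases h : (i : ℕ) < n
        · simp only [V', dif_pos h]
          change e ⟨i, h⟩ (algebraMap k K c) ∈ V
          rw [AlgHom.commutes]
          exact hV c
        · simp only [V', dif_neg h]
          trivial
      obtain ⟨F₀, hF₀, hgood⟩ := hcov V' hV'
      have hF₀0 : F₀ ≠ 0 := (hgood (Fin.last n)).ne_zero z hz
      refine ⟨ε ⟨F₀, hF₀, hF₀0⟩, ?_⟩
      have hFa : F (ε ⟨F₀, hF₀, hF₀0⟩) = F₀ := by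
        change ((ε.symm (ε ⟨F₀, hF₀, hF₀0⟩) : Φ') : K) = F₀
        rw [Equiv.symm_apply_apply]
      let S : Subalgebra k L :=
        { carrier := {x | x ∈ V}
          mul_mem' := fun ha hb => V.mul_mem _ _ ha hb
          add_mem' := fun ha hb => V.add_mem _ _ ha hb
          algebraMap_mem' := hV }
      have hle : C (ε ⟨F₀, hF₀, hF₀0⟩) ≤ S := by
        refine TT_le e _ _ ?_
        intro i x hx
        rw [hFa] at hx
        have h1 := good_AF z hz (V' i.castSucc) (hV' _) (hgood i.castSucc) x hx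
        have h2 : V' i.castSucc = V.comap (e i : K →+* L) := by
          have : ((i.castSucc : Fin (n + 1)) : ℕ) < n := i.2
          simp only [V', dif_pos this]
          rfl
        rw [h2] at h1
        exact h1
      intro b
      exact hle b.2)
  obtain ⟨I, hI, z', J, hM⟩ := model_of_atlasG ρ hA
  exact ⟨N, _, fun a x hx => fixF_frac hp.pos (C a).val Subtype.val_injective (σ a) (hσp a) τ
    (fun b => rfl) x hx (hfrC a x), I, hI, z', J, hM⟩

end main

end Pool.Agent.H920R2
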