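import Pool.Agent.H920R2.Cy1

set_option autoImplicit false
set_option linter.unusedSectionVars false

open MvPolynomial

universe u v

namespace Pool.Agent.H920R2

section many

variable {k D : Type u} [Field k] [CommRing D] [Algebra k D] {ι : Type} {x : ι → D}

/-- Unique lifting for an algebra with étale coordinates. -/
lemma exists_unique_lift'
    (hx : ((aeval x : MvPolynomial ι k →ₐ[k] D).toRingHom).Etale) {S : Type u} [CommRing S]
    [Algebra k S] (I : Ideal S) (hI : I ^ 2 = ⊥) (c : ι → S) :
    (∀ g : D →ₐ[k] S ⧸ I, (∀ i, g (x i) = Ideal.Quotient.mk I (c i)) → ∃ h : D →ₐ[k] S,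
      (∀ i, h (x i) = c i) ∧ ∀ y, Ideal.Quotient.mk I (h y) = g y) ∧
    ∀ h h' : D →ₐ[k] S, (∀ i, h (x i) = c i) → (∀ i, h' (x i) = c i) →
      (∀ y, Ideal.Quotient.mk I (h y) = Ideal.Quotient.mk I (h' y)) → h = h' := by
  let P := MvPolynomial ι k
  let _ : Algebra P D := (aeval x : MvPolynomial ι k →ₐ[k] D).toRingHom.toAlgebra
  have hE : Algebra.Etale P D := hx
  have hD : ∀ F, algebraMap P D F = aeval x F := fun F => rfl
  have _ : IsScalarTower k P D := IsScalarTower.of_algebraMap_eq fun r => by
    rw [hD, MvPolynomial.algebraMap_eq, aeval_C]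
  let _ : Algebra P S := (aeval c : MvPolynomial ι k →ₐ[k] S).toRingHom.toAlgebra
  have hS : ∀ F, algebraMap P S F = aeval c F := fun F => rfl
  have _ : IsScalarTower k P S := IsScalarTower.of_algebraMap_eq fun r => by
    rw [hS, MvPolynomial.algebraMap_eq, aeval_C]
  have hbij := Algebra.FormallyEtale.comp_bijective P D I hI
  have hcomm : ∀ (T : Type u) [CommRing T] [Algebra k T] (h : D →ₐ[k] T) (F : P),
      h (algebraMap P D F) = aeval (fun i => h (x i)) F := by
    intro T _ _ h F
    rw [hD]
    have h1 : h.comp (aeval x : MvPolynomial ι k →ₐ[k] D) = aeval fun i => h (x i) := by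
      apply MvPolynomial.algHom_ext
      intro i
      rw [AlgHom.comp_apply, aeval_X, aeval_X]
    exact congrArg (fun φ : MvPolynomial ι k →ₐ[k] T => φ F) h1
  have hQ : ∀ F, algebraMap P (S ⧸ I) F =
      aeval (fun i => Ideal.Quotient.mk I (c i)) F := by
    intro F
    change Ideal.Quotient.mk I (algebraMap P S F) = _
    rw [hS]
    have h1 : (Ideal.Quotient.mkₐ k I).comp (aeval c : MvPolynomial ι k →ₐ[k] S) =
        aeval fun i => Ideal.Quotient.mk I (c i) := by
      apply MvPolynomial.algHom_ext
      intro i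
      rw [AlgHom.comp_apply, aeval_X, aeval_X]
      rfl
    exact congrArg (fun φ : MvPolynomial ι k →ₐ[k] S ⧸ I => φ F) h1
  constructor
  · intro g hg
    let g' : D →ₐ[P] S ⧸ I :=
      { toRingHom := g.toRingHom
        commutes' := fun F => by
          change g (algebraMap P D F) = _
          rw [hcomm, hQ]
          congr 2
          funext i
          exact hg i }
    obtain ⟨h', hh'⟩ := hbij.2 g'
    let h : D →ₐ[k] S := h'.restrictScalars k
    refine ⟨h, ?_, ?_⟩
    · intro i
      have h1 := h'.commutes (X i)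
      rw [hD, hS, aeval_X, aeval_X] at h1
      exact h1
    · intro x
      have h1 := congrArg (fun φ : D →ₐ[P] S ⧸ I => φ x) hh'
      exact h1
  · intro h h' ht1 ht2 hx
    let h1 : D →ₐ[P] S :=
      { toRingHom := h.toRingHom
        commutes' := fun F => by
          change h (algebraMap P D F) = _
          rw [hcomm, hS]
          congr 2
          funext i
          exact ht1 i }
    let h2 : D →ₐ[P] S :=
      { toRingHom := h'.toRingHom
        commutes' := fun F => by
          change h' (algebraMap P D F) = _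
          rw [hcomm, hS]
          congr 2
          funext i
          exact ht2 i }
    have h3 : h1 = h2 := by
      apply hbij.1
      apply AlgHom.ext
      intro x
      exact hx x
    apply AlgHom.ext
    intro x
    exact congrArg (fun φ : D →ₐ[P] S => φ x) h3

/-- The differences of the coordinates generate the ideal of the fixed points near the fixed
points. -/
theorem exists_denom_inv [IsNoetherianRing D] [IsDomain D] [Finite ι]
    (hx : ((aeval x : MvPolynomial ι k →ₐ[k] D).toRingHom).Etale) (σ : D ≃ₐ[k] D) {p : ℕ}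
    (hp : 0 < p) (hσ : ∀ b, σ^[p] b = b) :
    ∃ r : D, σ r = r ∧ r - 1 ∈ Ideal.span (Set.range (del σ)) ∧
      ∀ c, r * del σ c ∈ Ideal.span (Set.range fun i => del σ (x i)) := by
  classical
  set I1 := Ideal.span (Set.range fun i => del σ (x i)) with hI1
  set J := Ideal.span (Set.range (del σ)) with hJ
  have hJle : J ≤ I1 ⊔ J * J := by
    let E : Ideal D := I1 ⊔ J * J
    let S := D ⧸ E
    let I : Ideal S := J.map (Ideal.Quotient.mk E)
    have hI : I ^ 2 = ⊥ := by
      rw [pow_two, ← Ideal.map_mul, Ideal.map_eq_bot_iff_le_ker, Ideal.mk_ker]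
      exact le_sup_right
    let h : D →ₐ[k] S := Ideal.Quotient.mkₐ k E
    let h' : D →ₐ[k] S := h.comp (σ : D →ₐ[k] D)
    have h1 : h' = h := by
      refine (exists_unique_lift' hx I hI fun i => h (x i)).2 h' h ?_ (fun i => rfl) ?_
      · intro i
        change Ideal.Quotient.mk E (σ (x i)) = Ideal.Quotient.mk E (x i)
        rw [Ideal.Quotient.eq]
        exact (le_sup_left : I1 ≤ E) (Ideal.subset_span ⟨i, rfl⟩)
      · intro y
        rw [Ideal.Quotient.eq]
        change Ideal.Quotient.mk E (σ y) - Ideal.Quotient.mk E y ∈ I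
        rw [← map_sub]
        exact Ideal.mem_map_of_mem _ (Ideal.subset_span ⟨y, rfl⟩)
    rw [hJ, Ideal.span_le]
    rintro _ ⟨y, rfl⟩
    have h2 : Ideal.Quotient.mk E (σ y) = Ideal.Quotient.mk E y :=
      congrArg (fun φ : D →ₐ[k] S => φ y) h1
    rw [Ideal.Quotient.eq] at h2
    exact h2
  obtain ⟨r, hr1, hr⟩ := Submodule.exists_sub_one_mem_and_smul_eq_zero_of_fg_of_le_smul J
    (Submodule.map I1.mkQ J) ((IsNoetherian.noetherian J).map _) (by
      rw [← Submodule.map_smul'']
      rintro _ ⟨y, hy, rfl⟩
      obtain ⟨a, ha, b, hb, rfl⟩ := Submodule.mem_sup.1 (hJle hy)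
      refine ⟨b, hb, ?_⟩
      rw [map_add]
      have h2 : I1.mkQ a = 0 := by
        rw [Submodule.mkQ_apply, Submodule.Quotient.mk_eq_zero]
        exact ha
      rw [h2, zero_add])
  have hr' : ∀ c ∈ J, r * c ∈ I1 := by
    intro c hc
    have h2 := hr _ ⟨c, hc, rfl⟩
    rw [← map_smul, Submodule.mkQ_apply, Submodule.Quotient.mk_eq_zero] at h2
    exact h2
  refine ⟨nrm σ p r, map_nrm σ p hσ r, ?_, ?_⟩
  · have hit : ∀ i : ℕ, σ^[i] r - 1 ∈ J := by
      intro i
      induction i with
      | zero => exact hr1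
      | succ i ih =>
        rw [Function.iterate_succ_apply']
        have h2 : σ (σ^[i] r) - 1 = del σ (σ^[i] r) + (σ^[i] r - 1) := by unfold del; ring
        rw [h2]
        exact J.add_mem (Ideal.subset_span ⟨_, rfl⟩) ih
    unfold nrm
    have h3 : ∀ s : Finset ℕ, (∏ i ∈ s, σ^[i] r) - 1 ∈ J := by
      intro s
      induction s using Finset.induction_on with
      | empty => rw [Finset.prod_empty, sub_self]; exact J.zero_mem
      | insert a s ha ih =>
        rw [Finset.prod_insert ha]
        have h4 : σ^[a] r * ∏ i ∈ s, σ^[i] r - 1 = σ^[a] r * (∏ i ∈ s, σ^[i] r - 1) +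
          (σ^[a] r - 1) := by ring
        rw [h4]
        exact J.add_mem (J.mul_mem_left _ ih) (hit a)
    exact h3 _
  · intro c
    have h2 : r ∣ nrm σ p r := by
      unfold nrm
      exact Finset.dvd_prod_of_mem (fun i => σ^[i] r) (Finset.mem_range.2 hp)
    obtain ⟨e, he⟩ := h2
    rw [he]
    have h3 : r * e * del σ c = e * (r * del σ c) := by ring
    rw [h3]
    exact I1.mul_mem_left _ (hr' _ (Ideal.subset_span ⟨c, rfl⟩))

end many

end Pool.Agent.H920R2
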