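import Pool.Agent.H920R2.Cy2
import Pool.Agent.H920R2.Sig10

set_option autoImplicit false
set_option linter.unusedSectionVars false

open MvPolynomial

universe u v

namespace Pool.Agent.H920R2

section locz

variable {k L : Type u} [Field k] [Field L] [Algebra k L]

lemma isLocalization_locL (C : Subalgebra k L) (f : L) (hf : f ∈ C) (hf0 : f ≠ 0) :
    @IsLocalization.Away C _ ⟨f, hf⟩ (locL C f hf) _
      (Subalgebra.inclusion (le_locL C f hf)).toRingHom.toAlgebra := by
  let _ : Algebra C (locL C f hf) := (Subalgebra.inclusion (le_locL C f hf)).toRingHom.toAlgebra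
  have hmap : ∀ s : C, ((algebraMap C (locL C f hf) s : locL C f hf) : L) = s := fun s => rfl
  refine IsLocalization.Away.mk (⟨f, hf⟩ : C) ?_ ?_ ?_
  · refine IsUnit.of_mul_eq_one ⟨f⁻¹, inv_mem_locL C f hf⟩ ?_
    apply Subtype.ext
    exact mul_inv_cancel₀ hf0
  · rintro ⟨y, n, hn⟩
    refine ⟨n, ⟨f ^ n * y, hn⟩, ?_⟩
    apply Subtype.ext
    change y * f ^ n = f ^ n * y
    rw [mul_comm]
  · intro a b hab
    refine ⟨0, ?_⟩
    have h3 : ((algebraMap C (locL C f hf) a : locL C f hf) : L) =
      ((algebraMap C (locL C f hf) b : locL C f hf) : L) := congrArg Subtype.val hab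
    rw [hmap, hmap] at h3
    rw [Subtype.ext h3]

/-- Étale coordinates restrict to localizations. -/
lemma etale_locL (C : Subalgebra k L) (f : L) (hf : f ∈ C) (hf0 : f ≠ 0) {ι : Type} {x : ι → C}
    (hx : ((aeval x : MvPolynomial ι k →ₐ[k] C).toRingHom).Etale) :
    ((aeval (fun i => (⟨x i, le_locL C f hf (x i).2⟩ : locL C f hf)) :
      MvPolynomial ι k →ₐ[k] locL C f hf).toRingHom).Etale := by
  let _ : Algebra C (locL C f hf) := (Subalgebra.inclusion (le_locL C f hf)).toRingHom.toAlgebra
  have h0 := isLocalization_locL C f hf hf0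
  have h1 : Algebra.Etale C (locL C f hf) := Algebra.Etale.of_isLocalizationAway (⟨f, hf⟩ : C)
  have h2 : (algebraMap C (locL C f hf)).Etale := RingHom.etale_algebraMap.2 h1
  have h3 := RingHom.Etale.stableUnderComposition _ _ hx h2
  have h4 : (aeval (fun i => (⟨x i, le_locL C f hf (x i).2⟩ : locL C f hf)) :
      MvPolynomial ι k →ₐ[k] locL C f hf) =
      (Subalgebra.inclusion (le_locL C f hf)).comp (aeval x) := by
    apply MvPolynomial.algHom_ext
    intro i
    rw [AlgHom.comp_apply, aeval_X, aeval_X]
    rfl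
  rw [h4]
  exact h3

end locz

section lin

variable {k L : Type u} [Field k] [Field L] [Algebra k L] (τ : L ≃ₐ[k] L) {p : ℕ}

lemma sub_one_pow_eq_zero {V : Type u} [AddCommGroup V] [Module k V] (hp : p.Prime)
    (hpk : (p : k) = 0) (T : Module.End k V) (hT : T ^ p = 1) : (T - 1) ^ p = 0 := by
  have hc : Commute (T - 1) (1 : Module.End k V) := Commute.one_right _
  have h1 := hc.add_pow_prime_eq hp
  rw [sub_add_cancel, hT, one_pow] at h1
  have h2 : (p : Module.End k V) = 0 := by
    refine LinearMap.ext fun v => ?_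
    rw [Module.End.natCast_apply, LinearMap.zero_apply, ← Nat.cast_smul_eq_nsmul k, hpk, zero_smul]
  rw [h2, zero_mul, zero_mul, zero_mul, add_zero] at h1
  exact (left_eq_add.1 (h1.trans (add_comm _ _)))

/-- The Rees algebra near the fixed points of an action which is linear in étale coordinates. -/
theorem smooth_RS_etale (hp : p.Prime) (hpk : (p : k) = 0) (C : Subalgebra k L)
    [Algebra.FiniteType k C] (σ : C ≃ₐ[k] C) (hσ : ∀ c, (σ c : L) = τ c) (hσp : ∀ c, σ^[p] c = c)
    {ι : Type} [Finite ι] {x : ι → C}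
    (hx : ((aeval x : MvPolynomial ι k →ₐ[k] C).toRingHom).Etale)
    (T : Module.End k (ι → k)) (hTp : T ^ p = 1)
    (hT : ∀ v : ι → k, ∀ s : Finset ι, (∀ i, i ∈ s) → τ (∑ i ∈ s, v i • (x i : L)) =
      ∑ i ∈ s, T v i • (x i : L)) :
    ∃ (r : L) (hr : r ∈ C), τ r = r ∧ (⟨r, hr⟩ : C) - 1 ∈ Ideal.span (Set.range (del σ)) ∧
      (r ≠ 0 → Algebra.Smooth k (RS τ p (locL C r hr))) := by
  classical
  have : Fintype ι := Fintype.ofFinite ι
  have : IsNoetherianRing C := Algebra.FiniteType.isNoetherianRing k C
  obtain ⟨r, hr1, hr2, hr3⟩ := exists_denom_inv hx σ hp.pos hσp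
  refine ⟨r, r.2, ?_, hr2, fun hr0 => ?_⟩
  · rw [← hσ, hr1]
  have hτr : τ (r : L) = r := by rw [← hσ, hr1]
  let C2 := locL C (r : L) r.2
  let N : Module.End k (ι → k) := T - 1
  have hN : N ^ p = 0 := by
    have hc : Commute (T - 1) (1 : Module.End k (ι → k)) := Commute.one_right _
    have h1 := hc.add_pow_prime_eq hp
    rw [sub_add_cancel, hTp, one_pow] at h1
    have h2 : (p : Module.End k (ι → k)) = 0 := by
      refine LinearMap.ext fun v => ?_
      rw [Module.End.natCast_apply, LinearMap.zero_apply, ← Nat.cast_smul_eq_nsmul k, hpk,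
        zero_smul]
    rw [h2, zero_mul, zero_mul, zero_mul, add_zero] at h1
    exact (left_eq_add.1 (h1.trans (add_comm _ _)))
  obtain ⟨α, hα, β, w, hβ, hsp⟩ := adapted_basis (fun a => LinearMap.range (N ^ a)) (by
      intro a
      rintro _ ⟨x, rfl⟩
      exact ⟨N x, by rw [pow_succ, Module.End.mul_apply]⟩) p
    (by change LinearMap.range (N ^ 0) = ⊤; rw [pow_zero]; exact LinearMap.range_id)
    (by change LinearMap.range (N ^ p) = ⊥; rw [hN]; exact LinearMap.range_zero)
  have : Fintype α := Fintype.ofFinite α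
  -- linear forms
  let lx : (ι → k) →ₗ[k] L := Fintype.linearCombination k fun i => (x i : L)
  have hlx : ∀ v, lx v = ∑ i, v i • (x i : L) := fun v => Fintype.linearCombination_apply _ _ _
  have hlxC : ∀ v, lx v ∈ C := by
    intro v
    rw [hlx]
    exact Subalgebra.sum_mem _ fun i _ => C.smul_mem (x i).2 _
  have hdel : ∀ v, del τ (lx v) = lx (N v) := by
    intro v
    unfold del
    have h1 := hT v Finset.univ fun i => Finset.mem_univ i
    rw [hlx, h1]
    change _ = lx (T v - v)
    rw [map_sub, hlx, hlx]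
  have hdeli : ∀ (a : ℕ) v, (del τ)^[a] (lx v) = lx ((N ^ a) v) := by
    intro a
    induction a with
    | zero => intro v; rfl
    | succ a ih =>
      intro v
      rw [Function.iterate_succ_apply, hdel, ih, pow_succ, Module.End.mul_apply]
  let y : α → C2 := fun i => ⟨lx (β i), le_locL C _ _ (hlxC _)⟩
  -- the coordinates are étale
  have hE : ∀ v, β.equivFun.symm (Pi.single v 1) = β v := by
    intro v
    rw [Module.Basis.equivFun_symm_apply, Finset.sum_eq_single v]
    · rw [Pi.single_eq_same, one_smul]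
    · intro w _ hw
      rw [Pi.single_eq_of_ne hw, zero_smul]
    · intro h
      exact absurd (Finset.mem_univ v) h
  have hy : ((aeval y : MvPolynomial α k →ₐ[k] C2).toRingHom).Etale := by
    have h1 := etale_locL C (r : L) r.2 hr0 hx
    have h2 : (pme β.equivFun.symm : MvPolynomial α k ≃ₐ[k] MvPolynomial ι k).toRingEquiv.toRingHom.Etale :=
      RingHom.Etale.of_bijective (pme β.equivFun.symm).bijective
    have h3 := RingHom.Etale.stableUnderComposition _ _ h2 h1
    have h4 : (aeval y : MvPolynomial α k →ₐ[k] C2) =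
        (aeval (fun i => (⟨x i, le_locL C (r : L) r.2 (x i).2⟩ : C2)) :
          MvPolynomial ι k →ₐ[k] C2).comp
          (pme β.equivFun.symm : MvPolynomial α k →ₐ[k] MvPolynomial ι k) := by
      apply MvPolynomial.algHom_ext
      intro i
      rw [aeval_X, AlgHom.comp_apply]
      change y i = aeval _ (pme β.equivFun.symm (X i))
      rw [pme_apply, pm_X]
      have h5 : β.equivFun.symm.toLinearMap (Pi.single i 1) = β i := hE i
      rw [h5, lf_apply, map_sum]
      apply Subtype.ext
      rw [AddSubmonoidClass.coe_finsetSum]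
      change lx (β i) = _
      rw [hlx]
      refine Finset.sum_congr rfl fun j _ => ?_
      rw [map_mul, aeval_C, aeval_X, Algebra.smul_def]
      rfl
    rw [h4]
    exact h3
  have hlin : ∀ (b : ℕ), b ≤ p → ∀ v ∈ LinearMap.range (N ^ b),
      lx v ∈ Submodule.span k {z : L | ∃ j, b ≤ w j ∧ z = y j} := by
    intro b hb v hv
    have h1 := hsp b hb hv
    clear hv
    induction h1 using Submodule.span_induction with
    | mem z hz =>
      obtain ⟨j, hj, rfl⟩ := hz
      exact Submodule.subset_span ⟨j, hj, rfl⟩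
    | zero => rw [map_zero]; exact Submodule.zero_mem _
    | add a b _ _ ha hb => rw [map_add]; exact Submodule.add_mem _ ha hb
    | smul c a _ ha => rw [map_smul]; exact Submodule.smul_mem _ c ha
  have hfin := RS_eq_rwA τ p hp.pos C2 y w ?_ ?_ ?_
  · rw [hfin]
    exact smooth_rwA C2.val w Subtype.val_injective hy
  · intro i
    obtain ⟨hi, u, hu⟩ := hβ i
    refine ⟨hi, lx u, le_locL C _ _ (hlxC u), ?_⟩
    rw [hdeli, hu]
  · intro i
    obtain ⟨hi, u, hu⟩ := hβ i
    change del τ (lx (β i)) ∈ _
    rw [hdel]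
    refine hlin (w i + 1) (by omega) _ ⟨u, ?_⟩
    rw [pow_succ', Module.End.mul_apply, hu]
  · -- the ideal of the fixed points
    have hgen : ∀ c : C, (r : L) * del τ (c : L) ∈
        Submodule.span C2 {z : L | ∃ j, 1 ≤ w j ∧ z = y j} := by
      intro c
      have h1 := hr3 c
      have h2 : ((r * del σ c : C) : L) = (r : L) * del τ (c : L) := by
        unfold del
        change (r : L) * ((σ c : L) - c) = _
        rw [hσ]
      rw [← h2]
      generalize r * del σ c = z at h1
      clear h2
      induction h1 using Submodule.span_induction with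
      | mem z hz =>
        obtain ⟨i, rfl⟩ := hz
        have h3 : ((del σ (x i) : C) : L) = lx (N (Pi.single i 1)) := by
          rw [← hdel]
          unfold del
          change (σ (x i) : L) - x i = _
          rw [hσ]
          have h4 : lx (Pi.single i 1) = (x i : L) := by
            change Fintype.linearCombination k _ _ = _
            rw [Fintype.linearCombination_apply_single, one_smul]
          rw [h4]
        rw [h3]
        have h4 := hlin 1 hp.pos (N (Pi.single i 1)) ⟨Pi.single i 1, by rw [pow_one]⟩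
        have h5 := Submodule.span_le_restrictScalars k C2 {z : L | ∃ j, 1 ≤ w j ∧ z = y j}
        exact h5 h4
      | zero => exact Submodule.zero_mem _
      | add a b _ _ ha hb => exact Submodule.add_mem _ ha hb
      | smul c a _ ha =>
        have h3 := Submodule.smul_mem _ (⟨(c : L), le_locL C _ _ c.2⟩ : C2) ha
        exact h3
    rintro c ⟨n, hn⟩
    have hr0' : (r : L) ≠ 0 := hr0
    have h1 : del τ c = (⟨(r : L)⁻¹ ^ (n + 1), C2.pow_mem (inv_mem_locL C _ _) _⟩ : C2) •
        ((r : L) * del τ ((⟨(r : L) ^ n * c, hn⟩ : C) : L)) := by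
      change del τ c = (r : L)⁻¹ ^ (n + 1) * ((r : L) * del τ ((r : L) ^ n * c))
      rw [del_mul_inv τ (by rw [map_pow, hτr] : τ ((r : L) ^ n) = (r : L) ^ n)]
      rw [inv_pow]
      field_simp
      rw [pow_succ]
      ring
    rw [h1]
    exact Submodule.smul_mem _ _ (hgen _)

end lin

end Pool.Agent.H920R2
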