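import Pool.Agent.H920R2.Cy3

set_option autoImplicit false
set_option linter.unusedSectionVars false

open MvPolynomial

universe u v

namespace Pool.Agent.H920R2

section glue

variable {k L : Type u} [Field k] [Field L] [Algebra k L] (τ : L ≃ₐ[k] L) {p : ℕ}

lemma symm_mem (hp : 0 < p) (hτp : ∀ x, τ^[p] x = x) (C : Subalgebra k L)
    (hC : ∀ c ∈ C, τ c ∈ C) : ∀ c ∈ C, τ.symm c ∈ C := by
  have h1 : ∀ (n : ℕ), ∀ c ∈ C, τ^[n] c ∈ C := by
    intro n
    induction n with
    | zero => exact fun c hc => hc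
    | succ n ih =>
      intro c hc
      rw [Function.iterate_succ_apply]
      exact ih _ (hC c hc)
  intro c hc
  have h2 : τ.symm c = τ^[p - 1] c := by
    rw [AlgEquiv.symm_apply_eq, ← Function.iterate_succ_apply' τ, Nat.succ_eq_add_one,
      Nat.sub_add_cancel hp, hτp]
  rw [h2]
  exact h1 _ c hc

lemma RS_coeff (C : Subalgebra k L) (hC : ∀ c ∈ C, τ c ∈ C) {f : LP L} (hf : f ∈ RS τ p C)
    (d : ℤ) : f.coeff d ∈ C := by
  have h0 : ∀ (a : ℕ), ∀ c ∈ C, (del τ)^[a] c ∈ C := by
    intro a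
    induction a with
    | zero => exact fun c hc => hc
    | succ a ih =>
      intro c hc
      rw [Function.iterate_succ_apply]
      exact ih _ (C.sub_mem (hC c hc) hc)
  have h1 : RS τ p C ≤ cfSub C := by
    unfold RS
    rw [Algebra.adjoin_le_iff]
    rintro f (hf | ⟨a, c, hc, -, rfl⟩)
    · rw [hf]
      intro d
      rw [coeff_hm]
      split_ifs
      · exact C.one_mem
      · exact C.zero_mem
    · intro d
      rw [coeff_hm]
      split_ifs
      · exact h0 a c hc
      · exact C.zero_mem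
  exact h1 hf d

lemma finiteType_locL (C : Subalgebra k L) (hft : Algebra.FiniteType k C) (f : L) (hf : f ∈ C)
    (hf0 : f ≠ 0) : Algebra.FiniteType k (locL C f hf) := by
  let _ : Algebra C (locL C f hf) := (Subalgebra.inclusion (le_locL C f hf)).toRingHom.toAlgebra
  have _ : IsScalarTower k C (locL C f hf) := IsScalarTower.of_algebraMap_eq fun r => rfl
  have h0 := isLocalization_locL C f hf hf0
  have h1 : Algebra.FiniteType C (locL C f hf) :=
    IsLocalization.finiteType_of_monoid_fg (Submonoid.powers (⟨f, hf⟩ : C)) _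
  exact Algebra.FiniteType.trans hft h1

/-- The Rees algebra of an action which is étale-locally linear at the fixed points is smooth. -/
theorem smooth_RS (hp : p.Prime) (hpk : (p : k) = 0) (C : Subalgebra k L)
    (hsm : Algebra.Smooth k C) (hC : ∀ c ∈ C, τ c ∈ C) (hτp : ∀ x, τ^[p] x = x)
    (h : ∀ q : Ideal C, q.IsPrime → (∀ (c : L) (hc : c ∈ C),
        (⟨τ c - c, C.sub_mem (hC c hc) hc⟩ : C) ∈ q) →
      ∃ (f : L) (hf : f ∈ C), (⟨f, hf⟩ : C) ∉ q ∧ τ f = f ∧
        ∃ (ι : Type) (_ : Finite ι) (x : ι → locL C f hf) (T : Module.End k (ι → k)),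
          ((aeval x : MvPolynomial ι k →ₐ[k] locL C f hf).toRingHom).Etale ∧ T ^ p = 1 ∧
          ∀ v : ι → k, ∀ s : Finset ι, (∀ i, i ∈ s) → τ (∑ i ∈ s, v i • (x i : L)) =
            ∑ i ∈ s, T v i • (x i : L)) :
    Algebra.Smooth k (RS τ p C) := by
  classical
  have hft : Algebra.FiniteType k C := inferInstance
  apply smooth_of_loc
  intro Q hQ
  by_cases hsQ : (⟨hm (-1) 1, RS_s τ p C⟩ : RS τ p C) ∈ Q
  · -- the special fibre
    let i0 : C →+* RS τ p C :=
      { toFun := fun c => ⟨hm 0 (c : L), RS_b τ p C hp.pos c.2⟩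
        map_one' := Subtype.ext hm_one
        map_mul' := fun a b => Subtype.ext (by
          change hm 0 ((a : L) * b) = hm 0 (a : L) * hm 0 (b : L)
          rw [hm_mul, add_zero])
        map_zero' := Subtype.ext (hm_zero 0)
        map_add' := fun a b => Subtype.ext (hm_add 0 _ _) }
    let q := Q.comap i0
    have hq : q.IsPrime := hQ.comap _
    have hdq : ∀ (c : L) (hc : c ∈ C), (⟨τ c - c, C.sub_mem (hC c hc) hc⟩ : C) ∈ q := by
      intro c hc
      rw [Ideal.mem_comap]
      have h1 : i0 ⟨τ c - c, C.sub_mem (hC c hc) hc⟩ = (⟨hm (-1) 1, RS_s τ p C⟩ : RS τ p C) *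
          ⟨hm (1 : ℕ) ((del τ)^[1] c), RS_del τ p C hp.one_lt hc⟩ := by
        apply Subtype.ext
        change hm 0 (τ c - c) = hm (-1) 1 * hm ((1 : ℕ) : ℤ) (τ c - c)
        rw [hm_mul, one_mul]
        norm_num
      rw [h1]
      exact Q.mul_mem_right _ hsQ
    obtain ⟨f, hf, hfq, hτf, ι, _, x, T, hx, hT1, hT⟩ := h q hq hdq
    have hf0 : f ≠ 0 := by
      rintro rfl
      exact hfq q.zero_mem
    have hC1 := locL_stable τ hC hf hτf
    have hft1 := finiteType_locL C hft f hf hf0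
    let σ : locL C f hf ≃ₐ[k] locL C f hf := resEquiv τ _ hC1 (symm_mem τ hp.pos hτp _ hC1)
    have hσ : ∀ c, (σ c : L) = τ c := fun c => rfl
    have hσp : ∀ c, σ^[p] c = c := by
      intro c
      apply Subtype.ext
      rw [coe_resEquiv_iter, hτp]
    obtain ⟨r, hr, hτr, hr1, hr2⟩ := smooth_RS_etale τ hp hpk (locL C f hf) σ hσ hσp hx T hT1 hT
    obtain ⟨n, hn⟩ := hr
    -- the element does not vanish at the point
    have key : ∀ y : locL C f hf, y ∈ Ideal.span (Set.range (del σ)) →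
        ∃ (m : ℕ) (hm : f ^ m * (y : L) ∈ C), (⟨f ^ m * (y : L), hm⟩ : C) ∈ q := by
      intro y hy
      induction hy using Submodule.span_induction with
      | mem y hy =>
        obtain ⟨c, rfl⟩ := hy
        obtain ⟨m, hm⟩ := c.2
        have h1 : f ^ m * ((del σ c : locL C f hf) : L) = τ (f ^ m * (c : L)) - f ^ m * (c : L) := by
          change f ^ m * (τ (c : L) - c) = _
          rw [map_mul, map_pow, hτf]
          ring
        have h2 := hdq _ hm
        refine ⟨m, by rw [h1]; exact C.sub_mem (hC _ hm) hm, ?_⟩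
        have h3 : (⟨f ^ m * ((del σ c : locL C f hf) : L),
            by rw [h1]; exact C.sub_mem (hC _ hm) hm⟩ : C) =
            ⟨τ (f ^ m * (c : L)) - f ^ m * (c : L), C.sub_mem (hC _ hm) hm⟩ := Subtype.ext h1
        rw [h3]
        exact h2
      | zero =>
        refine ⟨0, by rw [pow_zero, one_mul]; exact C.zero_mem, ?_⟩
        have h3 : (⟨f ^ 0 * ((0 : locL C f hf) : L), by
            rw [pow_zero, one_mul]; exact C.zero_mem⟩ : C) = 0 := by
          apply Subtype.ext
          change f ^ 0 * (0 : L) = 0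
          rw [mul_zero]
        rw [h3]
        exact q.zero_mem
      | add y z _ _ hy hz =>
        obtain ⟨m, hm, h1⟩ := hy
        obtain ⟨m', hm', h2⟩ := hz
        have h3 : f ^ (m + m') * ((y + z : locL C f hf) : L) =
            f ^ m' * (f ^ m * (y : L)) + f ^ m * (f ^ m' * (z : L)) := by
          change f ^ (m + m') * ((y : L) + z) = _
          ring
        have h4 : f ^ (m + m') * ((y + z : locL C f hf) : L) ∈ C := by
          rw [h3]
          exact C.add_mem (C.mul_mem (C.pow_mem hf _) hm) (C.mul_mem (C.pow_mem hf _) hm')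
        refine ⟨m + m', h4, ?_⟩
        have h5 : (⟨_, h4⟩ : C) = (⟨f ^ m', C.pow_mem hf _⟩ : C) * ⟨_, hm⟩ +
            (⟨f ^ m, C.pow_mem hf _⟩ : C) * ⟨_, hm'⟩ := Subtype.ext h3
        rw [h5]
        exact q.add_mem (q.mul_mem_left _ h1) (q.mul_mem_left _ h2)
      | smul a y _ hy =>
        obtain ⟨m, hm, h1⟩ := hy
        obtain ⟨m', hm'⟩ := a.2
        have h3 : f ^ (m + m') * ((a • y : locL C f hf) : L) =
            (f ^ m' * (a : L)) * (f ^ m * (y : L)) := by
          change f ^ (m + m') * ((a : L) * y) = _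
          ring
        have h4 : f ^ (m + m') * ((a • y : locL C f hf) : L) ∈ C := by
          rw [h3]
          exact C.mul_mem hm' hm
        refine ⟨m + m', h4, ?_⟩
        have h5 : (⟨_, h4⟩ : C) = (⟨_, hm'⟩ : C) * ⟨_, hm⟩ := Subtype.ext h3
        rw [h5]
        exact q.mul_mem_left _ h1
    have hgq : (⟨f ^ n * r, hn⟩ : C) ∉ q := by
      intro hg
      obtain ⟨m, hm, h1⟩ := key _ hr1
      have h2 : (⟨f, hf⟩ : C) ^ (n + m) = (⟨f, hf⟩ : C) ^ m * ⟨f ^ n * r, hn⟩ -
          (⟨f, hf⟩ : C) ^ n * ⟨_, hm⟩ := by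
        apply Subtype.ext
        change f ^ (n + m) = f ^ m * (f ^ n * r) - f ^ n * (f ^ m * (r - 1))
        ring
      have h3 : (⟨f, hf⟩ : C) ^ (n + m) ∈ q := by
        rw [h2]
        exact q.sub_mem (q.mul_mem_left _ hg) (q.mul_mem_left _ h1)
      exact hfq (hq.mem_of_pow_mem _ h3)
    have hr0 : r ≠ 0 := by
      rintro rfl
      apply hgq
      have h3 : (⟨f ^ n * 0, hn⟩ : C) = 0 := Subtype.ext (mul_zero _)
      rw [h3]
      exact q.zero_mem
    have hh : f * (f ^ n * r) ∈ C := C.mul_mem hf hn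
    have hh0 : f * (f ^ n * r) ≠ 0 := mul_ne_zero hf0 (mul_ne_zero (pow_ne_zero _ hf0) hr0)
    have hτh : τ (f * (f ^ n * r)) = f * (f ^ n * r) := by
      rw [map_mul, map_mul, map_pow, hτf, hτr]
    refine ⟨hm 0 (f * (f ^ n * r)), RS_b τ p C hp.pos hh, isUnit_hm hh0, ?_, ?_⟩
    · intro hcon
      have h1 : (⟨f * (f ^ n * r), hh⟩ : C) ∈ q := hcon
      have h2 : (⟨f * (f ^ n * r), hh⟩ : C) = ⟨f, hf⟩ * ⟨f ^ n * r, hn⟩ := rfl
      rw [h2] at h1
      rcases hq.mem_or_mem h1 with h3 | h3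
      · exact hfq h3
      · exact hgq h3
    · rw [loc_RS τ p hp.pos C hh hh0 hτh, ← locL_locL C f hf r ⟨n, hn⟩ n hn]
      exact hr2 hr0
  · refine ⟨hm (-1) 1, RS_s τ p C, isUnit_hm one_ne_zero, hsQ, ?_⟩
    exact smooth_loc_s C.val Subtype.val_injective hsm _ (RS_s τ p C)
      (fun b => RS_b τ p C hp.pos b.2) (fun f hf d => ⟨⟨_, RS_coeff τ C hC hf d⟩, rfl⟩)

end glue

end Pool.Agent.H920R2
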