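import Pool.Agent.H920R2.Cy4

set_option autoImplicit false
set_option linter.unusedSectionVars false

open MvPolynomial TensorProduct

universe u v

namespace Pool.Agent.H920R2

section transport

variable {k : Type u} [Field k] {ι : Type} {A : ι → Type u} [∀ i, CommRing (A i)]
  [∀ i, Algebra k (A i)] {B B' : Type u} [CommRing B] [Algebra k B] [CommRing B'] [Algebra k B']

/-- Coproducts are invariant under isomorphism. -/
lemma isCoprod_congr {j : ∀ i, A i →ₐ[k] B} (hj : IsCoprod k j) (E : B ≃ₐ[k] B')
    {j' : ∀ i, A i →ₐ[k] B'} (h : ∀ i a, j' i a = E (j i a)) : IsCoprod k j' := by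
  constructor
  · intro S _ _ f
    obtain ⟨g, hg⟩ := hj.lift S f
    refine ⟨g.comp (E.symm : B' →ₐ[k] B), ?_⟩
    intro i a
    rw [h]
    change g (E.symm (E (j i a))) = _
    rw [E.symm_apply_apply, hg]
  · intro S _ _ g g' hgg
    have h1 : g.comp (E : B →ₐ[k] B') = g'.comp (E : B →ₐ[k] B') := by
      apply hj.ext
      intro i a
      have h2 := hgg i a
      rw [h] at h2
      exact h2
    apply AlgHom.ext
    intro x
    have h2 := congrArg (fun φ : B →ₐ[k] S => φ (E.symm x)) h1
    change g (E (E.symm x)) = g' (E (E.symm x)) at h2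
    rw [E.apply_symm_apply] at h2
    exact h2

end transport

section et

variable {k : Type u} [Field k] {ι : Type} [Fintype ι] {A : ι → Type u} [∀ i, CommRing (A i)]
    [∀ i, Algebra k (A i)] {B : Type u} [CommRing B] [Algebra k B]
    {j : ∀ i, A i →ₐ[k] B} (hj : IsCoprod k j)

include hj in
/-- Étale coordinates on a product. -/
theorem coprod_etale' (hft : ∀ i, Algebra.FiniteType k (A i)) {κ : ι → Type} [∀ i, Finite (κ i)]
    (x : ∀ i, κ i → A i)
    (hx : ∀ i, ((aeval (x i) : MvPolynomial (κ i) k →ₐ[k] A i).toRingHom).Etale) :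
    ((aeval (fun c : Σ i, κ i => j c.1 (x c.1 c.2)) :
      MvPolynomial (Σ i, κ i) k →ₐ[k] B).toRingHom).Etale := by
  classical
  let P := MvPolynomial (Σ i, κ i) k
  let _ : Algebra P B := (aeval (fun c : Σ i, κ i => j c.1 (x c.1 c.2)) :
      MvPolynomial (Σ i, κ i) k →ₐ[k] B).toRingHom.toAlgebra
  have hPB : ∀ q : P, algebraMap P B q = aeval (fun c : Σ i, κ i => j c.1 (x c.1 c.2)) q :=
    fun q => rfl
  have _ : IsScalarTower k P B := IsScalarTower.of_algebraMap_eq fun r => by
    rw [hPB, MvPolynomial.algebraMap_eq, aeval_C]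
  have hftB : Algebra.FiniteType k B := coprod_finiteType hj hft
  have hfp : Algebra.FinitePresentation P B := by
    have _ : Algebra.FiniteType P B := Algebra.FiniteType.of_restrictScalars_finiteType k P B
    exact Algebra.FinitePresentation.of_finiteType.1 inferInstance
  have hfe : Algebra.FormallyEtale P B := by
    rw [Algebra.FormallyEtale.iff_comp_bijective]
    intro S _ _ I hI
    let _ : Algebra k S := ((algebraMap P S).comp (algebraMap k P)).toAlgebra
    have _ : IsScalarTower k P S := IsScalarTower.of_algebraMap_eq fun r => rfl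
    let c : (Σ i, κ i) → S := fun i => algebraMap P S (X i)
    constructor
    · intro h h' hh
      have hmk : ∀ x, Ideal.Quotient.mk I (h x) = Ideal.Quotient.mk I (h' x) := fun x =>
        congrArg (fun φ : B →ₐ[P] S ⧸ I => φ x) hh
      have hX : ∀ (h : B →ₐ[P] S) (i : Σ i, κ i), h (j i.1 (x i.1 i.2)) = c i := by
        intro h i
        have h1 := h.commutes (X i)
        rw [hPB, aeval_X] at h1
        exact h1
      let hk : B →ₐ[k] S := h.restrictScalars k
      let hk' : B →ₐ[k] S := h'.restrictScalars k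
      have h2 : hk = hk' := by
        apply hj.ext
        intro i a
        have h1 := (exists_unique_lift' (hx i) I hI (fun l => c ⟨i, l⟩)).2 (hk.comp (j i))
          (hk'.comp (j i)) (fun l => hX h ⟨i, l⟩) (fun l => hX h' ⟨i, l⟩) (fun y => hmk _)
        exact congrArg (fun φ : A i →ₐ[k] S => φ a) h1
      apply AlgHom.ext
      intro x
      exact congrArg (fun φ : B →ₐ[k] S => φ x) h2
    · intro g
      have hgX : ∀ (i : Σ i, κ i), g (j i.1 (x i.1 i.2)) = Ideal.Quotient.mk I (c i) := by
        intro i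
        have h1 := g.commutes (X i)
        rw [hPB, aeval_X] at h1
        exact h1
      have _ : IsScalarTower k P (S ⧸ I) := IsScalarTower.of_algebraMap_eq fun r => rfl
      let gk : B →ₐ[k] S ⧸ I := g.restrictScalars k
      have h1 : ∀ i, ∃ h : A i →ₐ[k] S, (∀ l, h (x i l) = c ⟨i, l⟩) ∧
          ∀ y, Ideal.Quotient.mk I (h y) = gk (j i y) := fun i =>
        (exists_unique_lift' (hx i) I hI (fun l => c ⟨i, l⟩)).1 (gk.comp (j i))
          (fun l => hgX ⟨i, l⟩)
      choose h hh hh' using h1
      obtain ⟨H, hH⟩ := hj.lift S h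
      have hHC : ∀ q : P, H (algebraMap P B q) = algebraMap P S q := by
        intro q
        rw [hPB]
        induction q using MvPolynomial.induction_on with
        | C r =>
          rw [aeval_C, AlgHom.commutes]
          rfl
        | add p q hp hq => rw [map_add, map_add, hp, hq, map_add]
        | mul_X p i hp =>
          rw [map_mul, map_mul, hp, aeval_X, hH, hh, map_mul]
      refine ⟨{ toRingHom := H.toRingHom, commutes' := hHC }, ?_⟩
      have h3 : (Ideal.Quotient.mkₐ k I).comp H = gk := by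
        apply hj.ext
        intro i a
        rw [AlgHom.comp_apply, hH]
        exact hh' i a
      apply AlgHom.ext
      intro y
      exact congrArg (fun φ : B →ₐ[k] S ⧸ I => φ y) h3
  have hE : Algebra.Etale P B := { formallyEtale := hfe, finitePresentation := hfp }
  exact hE

end et

section tt

variable {k K L : Type u} [Field k] [Field K] [Algebra k K] [Field L] [Algebra k L] {n : ℕ}
  (e : Fin n → K →ₐ[k] L)

/-- The subalgebra generated by the images of a family of subalgebras. -/
def TT (A : Fin n → Subalgebra k K) : Subalgebra k L := ⨆ i, (A i).map (e i)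

lemma e_mem_TT (A : Fin n → Subalgebra k K) (i : Fin n) {x : K} (hx : x ∈ A i) :
    e i x ∈ TT e A :=
  (le_iSup (fun i => (A i).map (e i)) i) ⟨x, hx, rfl⟩

lemma TT_le (A : Fin n → Subalgebra k K) (S : Subalgebra k L) (h : ∀ i, ∀ x ∈ A i, e i x ∈ S) :
    TT e A ≤ S := by
  unfold TT
  rw [iSup_le_iff]
  rintro i _ ⟨x, hx, rfl⟩
  exact h i x hx

lemma TT_mono {A A' : Fin n → Subalgebra k K} (h : ∀ i, A i ≤ A' i) : TT e A ≤ TT e A' :=
  TT_le e A _ fun i _ hx => e_mem_TT e A' i (h i hx)

/-- The inclusion of a factor. -/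
def TTj (A : Fin n → Subalgebra k K) (i : Fin n) : A i →ₐ[k] TT e A :=
  ((e i).comp (A i).val).codRestrict (TT e A) fun x => e_mem_TT e A i x.2

lemma TTj_coe (A : Fin n → Subalgebra k K) (i : Fin n) (x : A i) :
    ((TTj e A i x : TT e A) : L) = e i (x : K) := rfl

variable {g : (⨂[k] _ : Fin n, K) →ₐ[k] L}
  (hg : ∀ i x, g (PiTensorProduct.singleAlgHom (R := k) (A := fun _ : Fin n => K) i x) = e i x)
  (hginj : Function.Injective g)

include hg hginj in
lemma isCoprod_TT (A : Fin n → Subalgebra k K) : IsCoprod k (TTj e A) := by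
  classical
  obtain ⟨φ, hφi, hφ⟩ := exists_pi_incl A
  let G : (⨂[k] i, A i) →ₐ[k] L := g.comp φ
  have hG : Function.Injective G := hginj.comp hφi
  have hGs : ∀ i (x : A i), G (PiTensorProduct.singleAlgHom (R := k) (A := fun i => A i) i x) =
      e i (x : K) := by
    intro i x
    change g (φ _) = _
    rw [hφ, hg]
  have hj := isCoprod_pi (k := k) (A := fun i => A i)
  have hr : G.range = TT e A := by
    apply le_antisymm
    · rintro _ ⟨z, rfl⟩
      have h1 : z ∈ Algebra.adjoin k (⋃ i, Set.range
          (PiTensorProduct.singleAlgHom (R := k) (A := fun i => A i) i)) := by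
        rw [coprod_adjoin hj]; trivial
      change G z ∈ _
      induction h1 using Algebra.adjoin_induction with
      | mem x hx =>
        obtain ⟨i, a, rfl⟩ := Set.mem_iUnion.1 hx
        rw [hGs]
        exact e_mem_TT e A i a.2
      | algebraMap r => rw [AlgHom.commutes]; exact Subalgebra.algebraMap_mem _ r
      | add x y _ _ hx hy => rw [map_add]; exact Subalgebra.add_mem _ hx hy
      | mul x y _ _ hx hy => rw [map_mul]; exact Subalgebra.mul_mem _ hx hy
    · refine TT_le e A _ fun i x hx => ?_
      exact ⟨_, hGs i ⟨x, hx⟩⟩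
  let E : (⨂[k] i, A i) ≃ₐ[k] TT e A :=
    (AlgEquiv.ofInjective G hG).trans (Subalgebra.equivOfEq _ _ hr)
  refine isCoprod_congr hj E ?_
  intro i a
  apply Subtype.ext
  exact (hGs i a).symm

/-- Localization of the products. -/
lemma locL_TT (A : Fin n → Subalgebra k K) (f : Fin n → K) (hf : ∀ i, f i ∈ A i)
    (hf0 : ∀ i, f i ≠ 0) (hF : ∏ i, e i (f i) ∈ TT e A) :
    locL (TT e A) (∏ i, e i (f i)) hF = TT e fun i => locL (A i) (f i) (hf i) := by
  apply le_antisymm
  · rintro y ⟨m, hm⟩
    have h1 := TT_mono e (fun i => le_locL (A i) (f i) (hf i)) hm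
    have h2 : ∏ i, e i (f i)⁻¹ ∈ TT e fun i => locL (A i) (f i) (hf i) :=
      Subalgebra.prod_mem _ fun i _ => e_mem_TT e (fun i => locL (A i) (f i) (hf i)) i
        (inv_mem_locL (A i) (f i) (hf i))
    have h3 : y = (∏ i, e i (f i)⁻¹) ^ m * ((∏ i, e i (f i)) ^ m * y) := by
      rw [← mul_assoc, ← mul_pow, ← Finset.prod_mul_distrib]
      have h4 : ∀ i, e i (f i)⁻¹ * e i (f i) = 1 := fun i => by
        rw [← map_mul, inv_mul_cancel₀ (hf0 i), map_one]
      rw [Finset.prod_congr rfl fun i _ => h4 i, Finset.prod_const_one, one_pow, one_mul]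
    rw [h3]
    exact Subalgebra.mul_mem _ (Subalgebra.pow_mem _ h2 _) h1
  · refine TT_le e _ _ ?_
    rintro i y ⟨m, hm⟩
    refine ⟨m, ?_⟩
    rw [← Finset.mul_prod_erase _ _ (Finset.mem_univ i), mul_pow]
    have h1 : e i (f i) ^ m * (∏ l ∈ Finset.univ.erase i, e l (f l)) ^ m * e i y =
        e i (f i ^ m * y) * (∏ l ∈ Finset.univ.erase i, e l (f l)) ^ m := by
      rw [map_mul, map_pow]
      ring
    rw [h1]
    exact Subalgebra.mul_mem _ (e_mem_TT e A i hm) (Subalgebra.pow_mem _
      (Subalgebra.prod_mem _ fun l _ => e_mem_TT e A l (hf l)) _)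

end tt

end Pool.Agent.H920R2
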