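import Pool.Agent.H920R2.Cy5

set_option autoImplicit false
set_option linter.unusedSectionVars false

open MvPolynomial TensorProduct

universe u v

namespace Pool.Agent.H920R2

section loc

variable {k K : Type u} [Field k] [Field K] [Algebra k K]

/-- Étale coordinates near a point of a smooth variety. -/
theorem exists_etale_locL (A : Subalgebra k K) (hsm : Algebra.Smooth k A) (P : Ideal A)
    (hP : P.IsPrime) : ∃ (f : K) (hf : f ∈ A), (⟨f, hf⟩ : A) ∉ P ∧
      ∃ (m : ℕ) (x : Fin m → locL A f hf),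
        ((aeval x : MvPolynomial (Fin m) k →ₐ[k] locL A f hf).toRingHom).Etale := by
  obtain ⟨s, hs, hstd⟩ := Algebra.Smooth.exists_span_eq_top_isStandardSmooth (R := k) (S := A)
  obtain ⟨f, hfs, hfP⟩ : ∃ f ∈ s, f ∉ P := by
    by_contra hcon
    push Not at hcon
    apply hP.ne_top
    rw [eq_top_iff, ← hs, Ideal.span_le]
    exact hcon
  have h1 := hstd f hfs
  obtain ⟨m, φ, hφC, hφ⟩ := RingHom.IsStandardSmooth.exists_etale_mvPolynomial
    (f := algebraMap k (Localization.Away f)) (by simpa [RingHom.isStandardSmooth_algebraMap])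
  have hf0 : (f : K) ≠ 0 := by
    intro h
    apply hfP
    have : f = 0 := Subtype.ext h
    rw [this]
    exact P.zero_mem
  refine ⟨f, f.2, hfP, m, ?_⟩
  let _ : Algebra A (locL A (f : K) f.2) :=
    (Subalgebra.inclusion (le_locL A (f : K) f.2)).toRingHom.toAlgebra
  have _ : IsScalarTower k A (locL A (f : K) f.2) := IsScalarTower.of_algebraMap_eq fun r => rfl
  have h0 : IsLocalization.Away f (locL A (f : K) f.2) := isLocalization_locL A (f : K) f.2 hf0
  let E : Localization.Away f ≃ₐ[A] locL A (f : K) f.2 :=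
    IsLocalization.algEquiv (Submonoid.powers f) _ _
  let ψ : MvPolynomial (Fin m) k →+* locL A (f : K) f.2 := (E : _ →+* _).comp φ
  have hψ : ψ.Etale := RingHom.Etale.stableUnderComposition _ _ hφ
    (RingHom.Etale.of_bijective E.bijective)
  refine ⟨fun i => ψ (X i), ?_⟩
  have h2 : (aeval (fun i => ψ (X i)) : MvPolynomial (Fin m) k →ₐ[k]
      locL A (f : K) f.2).toRingHom = ψ := by
    apply MvPolynomial.ringHom_ext
    · intro r
      change aeval _ (C r) = ψ (C r)
      rw [aeval_C]
      have h3 : φ (C r) = algebraMap k (Localization.Away f) r :=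
        congrArg (fun g : k →+* Localization.Away f => g r) hφC
      change _ = E (φ (C r))
      rw [h3, IsScalarTower.algebraMap_apply k A (Localization.Away f), AlgEquiv.commutes,
        ← IsScalarTower.algebraMap_apply]
    · intro i
      change aeval _ (X i) = ψ (X i)
      rw [aeval_X]
  rw [h2]
  exact hψ

end loc

section main

variable {k K L : Type u} [Field k] [Field K] [Algebra k K] [Field L] [Algebra k L] {n : ℕ}
  (e : Fin n → K →ₐ[k] L) {g : (⨂[k] _ : Fin n, K) →ₐ[k] L}
  (hg : ∀ i x, g (PiTensorProduct.singleAlgHom (R := k) (A := fun _ : Fin n => K) i x) = e i x)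
  (hginj : Function.Injective g)

include hg hginj in
lemma smooth_TT (A : Fin n → Subalgebra k K) (hsm : ∀ i, Algebra.Smooth k (A i)) :
    Algebra.Smooth k (TT e A) := by
  have hj := isCoprod_TT e hg hginj A
  have h1 : Algebra.FormallySmooth k (TT e A) :=
    coprod_formallySmooth hj fun i => (hsm i).formallySmooth
  have h2 : Algebra.FiniteType k (TT e A) := coprod_finiteType hj fun i => inferInstance
  exact ⟨h1, Algebra.FinitePresentation.of_finiteType.1 inferInstance⟩

variable {p : ℕ} (hp : p.Prime) (hpk : (p : k) = 0) (τ : L ≃ₐ[k] L) (hτp : ∀ x, τ^[p] x = x)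
  (π : Equiv.Perm (Fin n)) (hπ : π ^ p = 1) (hτ : ∀ i x, τ (e i x) = e (π i) x)

include hτ in
lemma TT_stable (A : Subalgebra k K) : ∀ c ∈ TT e (fun _ => A), τ c ∈ TT e (fun _ => A) := by
  have h1 : TT e (fun _ => A) ≤ (TT e (fun _ => A)).comap (τ : L →ₐ[k] L) := by
    refine TT_le e _ _ fun i x hx => ?_
    change τ (e i x) ∈ TT e (fun _ => A)
    rw [hτ]
    exact e_mem_TT e (fun _ => A) (π i) hx
  exact fun c hc => h1 hc

include hg hginj hp hpk hτp hπ hτ in
/-- The Rees algebra of the permutation of the factors of a power of a smooth variety is smooth. -/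
theorem smooth_RS_TT (A : Subalgebra k K) (hsm : Algebra.Smooth k A) :
    Algebra.Smooth k (RS τ p (TT e fun _ => A)) := by
  classical
  have hC := TT_stable e τ π hτ A
  refine smooth_RS τ hp hpk _ (smooth_TT e hg hginj _ fun _ => hsm) hC hτp ?_
  intro q hq hdq
  -- the components of the point
  let P : Fin n → Ideal A := fun i => q.comap (TTj e (fun _ => A) i)
  have hPp : ∀ i, (P i).IsPrime := fun i => hq.comap _
  have hPπ : ∀ i, P (π i) = P i := by
    intro i
    ext a
    change TTj e (fun _ => A) (π i) a ∈ q ↔ TTj e (fun _ => A) i a ∈ q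
    have h1 := hdq _ (e_mem_TT e (fun _ => A) i a.2)
    have h2 : TTj e (fun _ => A) (π i) a = TTj e (fun _ => A) i a +
        ⟨τ (e i (a : K)) - e i (a : K), (TT e fun _ => A).sub_mem
          (hC _ (e_mem_TT e (fun _ => A) i a.2)) (e_mem_TT e (fun _ => A) i a.2)⟩ := by
      apply Subtype.ext
      change e (π i) (a : K) = e i (a : K) + (τ (e i (a : K)) - e i (a : K))
      rw [hτ]
      ring
    rw [h2]
    constructor
    · intro h
      have := q.sub_mem h h1
      rwa [add_sub_cancel_right] at this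
    · intro h
      exact q.add_mem h h1
  have hch : ∀ P : Ideal A, ∃ (f : K) (hf : f ∈ A) (m : ℕ) (x : Fin m → locL A f hf),
      P.IsPrime → (⟨f, hf⟩ : A) ∉ P ∧
        ((aeval x : MvPolynomial (Fin m) k →ₐ[k] locL A f hf).toRingHom).Etale := by
    intro P
    by_cases hP : P.IsPrime
    · obtain ⟨f, hf, h1, m, x, h2⟩ := exists_etale_locL A hsm P hP
      exact ⟨f, hf, m, x, fun _ => ⟨h1, h2⟩⟩
    · exact ⟨1, A.one_mem, 0, Fin.elim0, fun h => absurd h hP⟩
  choose f hf m x hx using hch
  let f' : Fin n → K := fun i => f (P i)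
  have hf' : ∀ i, f' i ∈ A := fun i => hf (P i)
  have hf'q : ∀ i, TTj e (fun _ => A) i ⟨f' i, hf' i⟩ ∉ q := fun i => (hx (P i) (hPp i)).1
  have hf'0 : ∀ i, f' i ≠ 0 := by
    intro i h
    apply hf'q i
    have h1 : (⟨f' i, hf' i⟩ : A) = 0 := Subtype.ext h
    rw [h1, map_zero]
    exact q.zero_mem
  have hF : ∏ i, e i (f' i) ∈ TT e fun _ => A :=
    Subalgebra.prod_mem _ fun i _ => e_mem_TT e (fun _ => A) i (hf' i)
  let B := TT e fun i => locL A (f' i) (hf' i)
  have hB : locL (TT e fun _ => A) (∏ i, e i (f' i)) hF = B :=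
    locL_TT e (fun _ => A) f' hf' hf'0 hF
  -- the coordinates
  let κ : Fin n → Type := fun i => Fin (m (P i))
  let y : ∀ i, κ i → locL A (f' i) (hf' i) := fun i => x (P i)
  have hy : ∀ i, ((aeval (y i) : MvPolynomial (κ i) k →ₐ[k]
      locL A (f' i) (hf' i)).toRingHom).Etale := fun i => (hx (P i) (hPp i)).2
  have hjB := isCoprod_TT e hg hginj fun i => locL A (f' i) (hf' i)
  have hft : ∀ i, Algebra.FiniteType k (locL A (f' i) (hf' i)) := fun i =>
    finiteType_locL A inferInstance _ _ (hf'0 i)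
  have het := coprod_etale' hjB hft y hy
  let z : (Σ i, κ i) → B := fun c => TTj e (fun i => locL A (f' i) (hf' i)) c.1 (y c.1 c.2)
  have hz : ∀ c, (z c : L) = e c.1 (x (P c.1) c.2 : K) := fun c => rfl
  -- the permutation of the coordinates
  have hxc : ∀ (P P' : Ideal A) (h : P = P') (c : Fin (m P)),
      (x P c : K) = x P' (Fin.cast (congrArg m h) c) := by
    rintro P _ rfl c
    rfl
  let ε : (Σ i, κ i) → (Σ i, κ i) := fun c =>
    ⟨π c.1, Fin.cast (congrArg m (hPπ c.1).symm) c.2⟩
  have hτz : ∀ c, τ (z c : L) = z (ε c) := by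
    intro c
    rw [hz, hz, hτ]
    change e (π c.1) (x (P c.1) c.2 : K) = e (π c.1) (x (P (π c.1)) _ : K)
    rw [hxc (P c.1) (P (π c.1)) (hPπ c.1).symm c.2]
  have hπi : ∀ (l : ℕ) i, π^[l] i = (π ^ l) i := by
    intro l i
    exact (Equiv.Perm.iterate_eq_pow π l ▸ rfl)
  have hεi : ∀ (l : ℕ) c, ((ε^[l] c).1 = π^[l] c.1) ∧ ((ε^[l] c).2 : ℕ) = (c.2 : ℕ) := by
    intro l c
    induction l with
    | zero => exact ⟨rfl, rfl⟩
    | succ l ih =>
      rw [Function.iterate_succ_apply', Function.iterate_succ_apply']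
      refine ⟨congrArg π ih.1, ?_⟩
      have h3 : ∀ c, ((ε c).2 : ℕ) = (c.2 : ℕ) := fun c => rfl
      rw [h3]
      exact ih.2
  have hsig : ∀ c c' : (Σ i, κ i), c.1 = c'.1 → (c.2 : ℕ) = (c'.2 : ℕ) → c = c' := by
    rintro ⟨i, a⟩ ⟨i', a'⟩ h1 h2
    obtain rfl : i = i' := h1
    have : a = a' := Fin.ext h2
    rw [this]
  have hεp : ∀ c, ε^[p] c = c := by
    intro c
    refine hsig _ _ ?_ (hεi p c).2
    rw [(hεi p c).1, hπi, hπ]
    rfl
  let T : Module.End k ((Σ i, κ i) → k) := LinearMap.funLeft k k (ε^[p - 1])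
  have hT : ∀ (l : ℕ) v c, (T ^ l) v c = v ((ε^[p - 1])^[l] c) := by
    intro l
    induction l with
    | zero => intro v c; rfl
    | succ l ih =>
      intro v c
      rw [pow_succ, Module.End.mul_apply, ih, Function.iterate_succ_apply']
      rfl
  have hinvl : ∀ c, ε (ε^[p - 1] c) = c := by
    intro c
    rw [← Function.iterate_succ_apply' ε, Nat.succ_eq_add_one, Nat.sub_add_cancel hp.one_lt.le,
      hεp]
  have hinvr : ∀ c, ε^[p - 1] (ε c) = c := by
    intro c
    rw [← Function.iterate_succ_apply, Nat.succ_eq_add_one, Nat.sub_add_cancel hp.one_lt.le,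
      hεp]
  refine ⟨∏ i, e i (f' i), hF, ?_, ?_, ?_⟩
  · have h1 : (⟨∏ i, e i (f' i), hF⟩ : TT e fun _ => A) =
        ∏ i, TTj e (fun _ => A) i ⟨f' i, hf' i⟩ := by
      apply Subtype.ext
      change ∏ i, e i (f' i) = ((TT e fun _ => A).val) (∏ i, TTj e (fun _ => A) i ⟨f' i, hf' i⟩)
      rw [map_prod]
      rfl
    rw [h1]
    intro h2
    obtain ⟨i, -, h3⟩ := (hq.prod_mem_iff).1 h2
    exact hf'q i h3
  · rw [map_prod]
    have h1 : ∀ i, τ (e i (f' i)) = e (π i) (f' (π i)) := by
      intro i
      rw [hτ]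
      change e (π i) (f (P i)) = e (π i) (f (P (π i)))
      rw [hPπ]
    rw [Finset.prod_congr rfl fun i _ => h1 i]
    exact Equiv.prod_comp π fun i => e i (f' i)
  · rw [hB]
    refine ⟨Σ i, κ i, inferInstance, z, T, het, ?_, ?_⟩
    · refine LinearMap.ext fun v => ?_
      funext c
      rw [hT]
      change v _ = v c
      congr 1
      have h1 : ∀ (l : ℕ) c, ε^[l] ((ε^[p - 1])^[l] c) = c := by
        intro l
        induction l with
        | zero => intro c; rfl
        | succ l ih =>
          intro c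
          rw [Function.iterate_succ_apply, Function.iterate_succ_apply', hinvl, ih]
      have h2 := h1 p c
      rw [hεp] at h2
      exact h2
    · intro v s hs
      have hs' : s = Finset.univ := Finset.eq_univ_iff_forall.2 hs
      subst hs'
      rw [map_sum]
      have h1 : ∀ c, τ (v c • (z c : L)) = v c • (z (ε c) : L) := by
        intro c
        rw [map_smul, hτz]
      rw [Finset.sum_congr rfl fun c _ => h1 c]
      let ε' : Equiv.Perm (Σ i, κ i) :=
        { toFun := ε
          invFun := ε^[p - 1]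
          left_inv := hinvr
          right_inv := hinvl }
      refine (Equiv.sum_comp ε' fun c => T v c • (z c : L)).symm.trans ?_ |>.symm
      refine Finset.sum_congr rfl fun c _ => ?_
      change v (ε^[p - 1] (ε c)) • (z (ε c) : L) = v c • (z (ε c) : L)
      rw [hinvr]

end main

end Pool.Agent.H920R2
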