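import Pool.Agent.H920R2.Cy6

set_option autoImplicit false
set_option linter.unusedSectionVars false

open MvPolynomial TensorProduct AlgebraicGeometry CategoryTheory

universe u v

namespace Pool.Agent.H920R2

section frac

variable {k A : Type u} [Field k] [CommRing A] [IsDomain A] [Algebra k A] {n : ℕ}
  {L : Type u} [Field L] [Algebra k L]

/-- The tensor power of the fraction field embeds. -/
theorem inj_frac (K : Type u) [Field K] [Algebra k K] [Algebra A K] [IsScalarTower k A K]
    [IsFractionRing A K] (gB : (⨂[k] _ : Fin n, A) →ₐ[k] L) (hinj : Function.Injective gB)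
    (e : Fin n → K →ₐ[k] L)
    (he : ∀ i a, e i (algebraMap A K a) =
      gB (PiTensorProduct.singleAlgHom (R := k) (A := fun _ : Fin n => A) i a))
    (g : (⨂[k] _ : Fin n, K) →ₐ[k] L)
    (hg : ∀ i x, g (PiTensorProduct.singleAlgHom (R := k) (A := fun _ : Fin n => K) i x) =
      e i x) : Function.Injective g := by
  classical
  have hjA := isCoprod_pi (k := k) (A := fun _ : Fin n => A)
  have hjK := isCoprod_pi (k := k) (A := fun _ : Fin n => K)
  obtain ⟨φ, hφ⟩ := hjA.lift (⨂[k] _ : Fin n, K) fun i =>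
    (PiTensorProduct.singleAlgHom (R := k) (A := fun _ : Fin n => K) i).comp
      (IsScalarTower.toAlgHom k A K)
  have hφ' : ∀ i a, φ (PiTensorProduct.singleAlgHom (R := k) (A := fun _ : Fin n => A) i a) =
      PiTensorProduct.singleAlgHom (R := k) (A := fun _ : Fin n => K) i (algebraMap A K a) := hφ
  have hgφ : ∀ w, g (φ w) = gB w := by
    have h1 : g.comp φ = gB := by
      apply hjA.ext
      intro i a
      rw [AlgHom.comp_apply, hφ', hg, he]
    intro w
    exact congrArg (fun f : (⨂[k] _ : Fin n, A) →ₐ[k] L => f w) h1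
  let sK := fun i => PiTensorProduct.singleAlgHom (R := k) (A := fun _ : Fin n => K) i
  let U : A → (⨂[k] _ : Fin n, K) := fun a => ∏ i, sK i (algebraMap A K a)
  have hUmul : ∀ a b, U (a * b) = U a * U b := by
    intro a b
    change ∏ i, sK i (algebraMap A K (a * b)) = (∏ i, sK i (algebraMap A K a)) *
      ∏ i, sK i (algebraMap A K b)
    rw [← Finset.prod_mul_distrib]
    exact Finset.prod_congr rfl fun i _ => by rw [map_mul, map_mul]
  have hUφ : ∀ a, ∃ w, U a = φ w := by
    intro a
    refine ⟨∏ i, PiTensorProduct.singleAlgHom (R := k) (A := fun _ : Fin n => A) i a, ?_⟩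
    rw [map_prod]
    exact Finset.prod_congr rfl fun i _ => (hφ' i a).symm
  have hUu : ∀ a, a ≠ 0 → IsUnit (U a) := by
    intro a ha
    have ha' : algebraMap A K a ≠ 0 := by
      intro h
      exact ha ((IsFractionRing.injective A K) (by rw [h, map_zero]))
    refine IsUnit.of_mul_eq_one (∏ i, sK i (algebraMap A K a)⁻¹) ?_
    change (∏ i, sK i (algebraMap A K a)) * ∏ i, sK i (algebraMap A K a)⁻¹ = 1
    rw [← Finset.prod_mul_distrib]
    have h1 : ∀ i, sK i (algebraMap A K a) * sK i (algebraMap A K a)⁻¹ = 1 := fun i => by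
      rw [← map_mul, mul_inv_cancel₀ ha', map_one]
    rw [Finset.prod_congr rfl fun i _ => h1 i, Finset.prod_const_one]
  have hden : ∀ z : ⨂[k] _ : Fin n, K, ∃ a : A, a ≠ 0 ∧ ∃ w, U a * z = φ w := by
    intro z
    have h2 : z ∈ Algebra.adjoin k (⋃ i, Set.range
        (PiTensorProduct.singleAlgHom (R := k) (A := fun _ : Fin n => K) i)) := by
      rw [coprod_adjoin hjK]; trivial
    induction h2 using Algebra.adjoin_induction with
    | mem x hx =>
      obtain ⟨i, y, rfl⟩ := Set.mem_iUnion.1 hx
      obtain ⟨b, c, hc, rfl⟩ := IsFractionRing.div_surjective (A := A) y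
      have hc0 : c ≠ 0 := nonZeroDivisors.ne_zero hc
      have hc' : algebraMap A K c ≠ 0 := by
        intro h
        exact hc0 ((IsFractionRing.injective A K) (by rw [h, map_zero]))
      refine ⟨c, hc0, PiTensorProduct.singleAlgHom (R := k) (A := fun _ : Fin n => A) i b *
        ∏ l ∈ Finset.univ.erase i,
          PiTensorProduct.singleAlgHom (R := k) (A := fun _ : Fin n => A) l c, ?_⟩
      change (∏ i, sK i (algebraMap A K c)) * sK i (algebraMap A K b / algebraMap A K c) = _
      rw [← Finset.mul_prod_erase _ _ (Finset.mem_univ i), map_mul, map_prod, hφ']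
      have h3 : sK i (algebraMap A K c) * (∏ x ∈ Finset.univ.erase i, sK x (algebraMap A K c)) *
          sK i (algebraMap A K b / algebraMap A K c) =
          (sK i (algebraMap A K c) * sK i (algebraMap A K b / algebraMap A K c)) *
            ∏ x ∈ Finset.univ.erase i, sK x (algebraMap A K c) := by ring
      rw [h3, ← map_mul, mul_div_cancel₀ _ hc']
      congr 1
      exact Finset.prod_congr rfl fun l _ => (hφ' l c).symm
    | algebraMap r =>
      refine ⟨1, one_ne_zero, ?_⟩
      obtain ⟨w, hw⟩ := hUφ 1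
      refine ⟨w * algebraMap k _ r, ?_⟩
      rw [hw, map_mul, AlgHom.commutes]
    | add x y _ _ hx hy =>
      obtain ⟨a, ha, w, hw⟩ := hx
      obtain ⟨b, hb, v, hv⟩ := hy
      obtain ⟨wa, hwa⟩ := hUφ a
      obtain ⟨wb, hwb⟩ := hUφ b
      refine ⟨a * b, mul_ne_zero ha hb, wb * w + wa * v, ?_⟩
      rw [hUmul, map_add, map_mul, map_mul, ← hw, ← hv, ← hwa, ← hwb]
      ring
    | mul x y _ _ hx hy =>
      obtain ⟨a, ha, w, hw⟩ := hx
      obtain ⟨b, hb, v, hv⟩ := hy
      refine ⟨a * b, mul_ne_zero ha hb, w * v, ?_⟩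
      rw [hUmul, map_mul, ← hw, ← hv]
      ring
  rw [injective_iff_map_eq_zero]
  intro z hz
  obtain ⟨a, ha, w, hw⟩ := hden z
  have h1 : gB w = 0 := by rw [← hgφ, ← hw, map_mul, hz, mul_zero]
  have h2 : w = 0 := hinj (by rw [h1, map_zero])
  rw [h2, map_zero] at hw
  exact (hUu a ha).mul_right_eq_zero.1 hw

lemma RS_eq_sR {B : Type u} [CommRing B] [Algebra k B] (gB : B →ₐ[k] L) (σ : B ≃ₐ[k] B)
    (τ : L ≃ₐ[k] L) (hτ : ∀ b, τ (gB b) = gB (σ b)) (p : ℕ) :
    RS τ p gB.range = sR gB σ p := by
  have h1 : ∀ (a : ℕ) b, (del τ)^[a] (gB b) = gB ((del σ)^[a] b) := by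
    intro a
    induction a with
    | zero => intro b; rfl
    | succ a ih =>
      intro b
      rw [Function.iterate_succ_apply, Function.iterate_succ_apply, ← ih]
      congr 1
      unfold del
      rw [hτ, map_sub]
  unfold RS sR
  congr 2
  ext f
  constructor
  · rintro ⟨a, _, ⟨b, rfl⟩, ha, rfl⟩
    exact ⟨a, b, ha, by rw [← h1]; rfl⟩
  · rintro ⟨a, b, ha, rfl⟩
    exact ⟨a, gB b, ⟨b, rfl⟩, ha, by rw [h1]⟩

end frac

section main

/-- The order of a permutation of the factors. -/
lemma perm_iter {k A : Type u} [Field k] [CommRing A] [Algebra k A] {n p : ℕ}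
    {σ : (⨂[k] _ : Fin n, A) ≃ₐ[k] (⨂[k] _ : Fin n, A)} {π : Equiv.Perm (Fin n)}
    (hπ : π ^ p = 1)
    (hσ : ∀ i a, σ (PiTensorProduct.singleAlgHom (R := k) (A := fun _ : Fin n => A) i a) =
      PiTensorProduct.singleAlgHom (R := k) (A := fun _ : Fin n => A) (π i) a) (b) :
    σ^[p] b = b := by
  classical
  have hjA := isCoprod_pi (k := k) (A := fun _ : Fin n => A)
  have hσi : ∀ (m : ℕ) i a,
      σ^[m] (PiTensorProduct.singleAlgHom (R := k) (A := fun _ : Fin n => A) i a) =
      PiTensorProduct.singleAlgHom (R := k) (A := fun _ : Fin n => A) ((π ^ m) i) a := by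
    intro m
    induction m with
    | zero => intro i a; rfl
    | succ m ih =>
      intro i a
      rw [Function.iterate_succ_apply, hσ, ih, pow_succ]
      rfl
  have h2 : b ∈ Algebra.adjoin k (⋃ i, Set.range
      (PiTensorProduct.singleAlgHom (R := k) (A := fun _ : Fin n => A) i)) := by
    rw [coprod_adjoin hjA]; trivial
  induction h2 using Algebra.adjoin_induction with
  | mem x hx =>
    obtain ⟨i, a, rfl⟩ := Set.mem_iUnion.1 hx
    rw [hσi, hπ]
    rfl
  | algebraMap r => exact Function.iterate_fixed (AlgEquiv.commutes σ r) p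
  | add x y _ _ hx hy => rw [iterate_map_add, hx, hy]
  | mul x y _ _ hx hy => rw [iterate_map_mul, hx, hy]

variable {k A : Type u} [Field k] [CommRing A] [IsDomain A] [Algebra k A] {n : ℕ}

/-- **Permutation quotients of powers of smooth affine varieties.** -/
theorem hasResolution_perm {p : ℕ} (hp : p.Prime) (hpk : (p : k) = 0)
    (hA : Algebra.Smooth k A) [IsDomain (⨂[k] _ : Fin n, A)]
    (σ : (⨂[k] _ : Fin n, A) ≃ₐ[k] (⨂[k] _ : Fin n, A)) (π : Equiv.Perm (Fin n))
    (hπ : π ^ p = 1)
    (hσ : ∀ i a, σ (PiTensorProduct.singleAlgHom (R := k) (A := fun _ : Fin n => A) i a) =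
      PiTensorProduct.singleAlgHom (R := k) (A := fun _ : Fin n => A) (π i) a) :
    HasResolution (X := Spec (CommRingCat.of (fixedAlg σ)))
      (Spec.map (CommRingCat.ofHom (algebraMap k (fixedAlg σ)))) := by
  classical
  have hjA := isCoprod_pi (k := k) (A := fun _ : Fin n => A)
  have hftB : Algebra.FiniteType k (⨂[k] _ : Fin n, A) := coprod_finiteType hjA fun i =>
    inferInstance
  have hσp : ∀ b, σ^[p] b = b := perm_iter hπ hσ
  refine hasResolution_reesSig σ p hp hpk hσp ?_
  let B := ⨂[k] _ : Fin n, A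
  let L := FractionRing B
  let gB : B →ₐ[k] L := IsScalarTower.toAlgHom k B L
  have hinj : Function.Injective gB := IsFractionRing.injective B L
  let τ : L ≃ₐ[k] L := IsFractionRing.fieldEquivOfAlgEquiv k L L σ
  have hτ : ∀ b, τ (gB b) = gB (σ b) := fun b =>
    IsFractionRing.fieldEquivOfAlgEquiv_algebraMap k L L σ b
  have hτp : ∀ x, τ^[p] x = x := by
    intro x
    obtain ⟨a, c, -, rfl⟩ := IsFractionRing.div_surjective (A := B) x
    have h3 : ∀ (m : ℕ) (y z : L), τ^[m] (y / z) = τ^[m] y / τ^[m] z := by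
      intro m
      induction m with
      | zero => intro y z; rfl
      | succ m ih => intro y z; rw [Function.iterate_succ_apply, map_div₀, ih,
          Function.iterate_succ_apply, Function.iterate_succ_apply]
    have h4 : ∀ y : B, τ^[p] (algebraMap B L y) = algebraMap B L y := by
      intro y
      have h5 := tau_iter gB σ τ hτ p y
      rw [hσp] at h5
      exact h5
    rw [h3, h4, h4]
  -- the fraction field
  let K := FractionRing A
  let gi : Fin n → A →ₐ[k] L := fun i =>
    gB.comp (PiTensorProduct.singleAlgHom (R := k) (A := fun _ : Fin n => A) i)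
  have hgi : ∀ i, Function.Injective (gi i) := fun i => hinj.comp (single_injective i)
  let e : Fin n → K →ₐ[k] L := fun i => IsFractionRing.liftAlgHom (g := gi i) (hgi i)
  have he : ∀ i a, e i (algebraMap A K a) = gi i a := fun i a =>
    IsFractionRing.lift_algebraMap (hgi i) a
  obtain ⟨g, hg⟩ := (isCoprod_pi (k := k) (A := fun _ : Fin n => K)).lift L e
  have hginj : Function.Injective g := inj_frac K gB hinj e he g hg
  have hτe : ∀ i x, τ (e i x) = e (π i) x := by
    intro i x
    obtain ⟨a, c, -, rfl⟩ := IsFractionRing.div_surjective (A := A) x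
    have h1 : ∀ a, τ (e i (algebraMap A K a)) = e (π i) (algebraMap A K a) := by
      intro a
      rw [he, he]
      have h6 := hτ (PiTensorProduct.singleAlgHom (R := k) (A := fun _ : Fin n => A) i a)
      rw [hσ] at h6
      exact h6
    rw [map_div₀, map_div₀, h1, h1, map_div₀]
  let A' : Subalgebra k K := (IsScalarTower.toAlgHom k A K).range
  have hA' : Algebra.Smooth k A' := Algebra.Smooth.of_equiv
    (AlgEquiv.ofInjective (IsScalarTower.toAlgHom k A K) (IsFractionRing.injective A K))
  have hsm := smooth_RS_TT e hg hginj hp hpk τ hτp π hπ hτe A' hA'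
  have hrange : TT e (fun _ => A') = gB.range := by
    apply le_antisymm
    · refine TT_le e _ _ ?_
      rintro i _ ⟨a, rfl⟩
      exact ⟨_, (he i a).symm⟩
    · rintro _ ⟨z, rfl⟩
      have h2 : z ∈ Algebra.adjoin k (⋃ i, Set.range
          (PiTensorProduct.singleAlgHom (R := k) (A := fun _ : Fin n => A) i)) := by
        rw [coprod_adjoin hjA]; trivial
      change gB z ∈ _
      induction h2 using Algebra.adjoin_induction with
      | mem x hx =>
        obtain ⟨i, a, rfl⟩ := Set.mem_iUnion.1 hx
        have h3 : gB (PiTensorProduct.singleAlgHom (R := k) (A := fun _ : Fin n => A) i a) =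
          e i (algebraMap A K a) := (he i a).symm
        rw [h3]
        exact e_mem_TT e (fun _ => A') i ⟨a, rfl⟩
      | algebraMap r => rw [AlgHom.commutes]; exact Subalgebra.algebraMap_mem _ r
      | add x y _ _ hx hy => rw [map_add]; exact Subalgebra.add_mem _ hx hy
      | mul x y _ _ hx hy => rw [map_mul]; exact Subalgebra.mul_mem _ hx hy
  rw [hrange, RS_eq_sR gB σ τ hτ p] at hsm
  exact hsm

end main

end Pool.Agent.H920R2
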