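import Pool.Agent.H920R2.Cy7
import Pool.Agent.H920R2.Gl9

set_option autoImplicit false
set_option linter.unusedSectionVars false

open AlgebraicGeometry CategoryTheory

universe u v

namespace Pool.Agent.H920R2

section locfield

variable {k L : Type u} [Field k] [Field L] [Algebra k L]

/-- Smoothness is local. -/
theorem smooth_of_locL (R : Subalgebra k L)
    (h : ∀ Q : Ideal R, Q.IsPrime → ∃ (x : L) (hx : x ∈ R), (⟨x, hx⟩ : R) ∉ Q ∧
      Algebra.Smooth k (locL R x hx)) : Algebra.Smooth k R := by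
  classical
  let s : Set R := {x | (x : L) ≠ 0 ∧ Algebra.Smooth k (locL R x x.2)}
  have hs : Ideal.span s = ⊤ := by
    by_contra hcon
    obtain ⟨Q, hQ, hle⟩ := Ideal.exists_le_maximal _ hcon
    obtain ⟨x, hx, hnQ, hsm⟩ := h Q hQ.isPrime
    refine hnQ (hle (Ideal.subset_span ⟨?_, hsm⟩))
    intro h0
    apply hnQ
    have h1 : (⟨x, hx⟩ : R) = 0 := Subtype.ext h0
    rw [h1]
    exact Q.zero_mem
  have key := RingHom.Smooth.ofLocalizationSpanTarget (algebraMap k R) s hs (by
    rintro ⟨r, hr0, hsm⟩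
    rw [← IsScalarTower.algebraMap_eq]
    let _ : Algebra R (locL R (r : L) r.2) :=
      (Subalgebra.inclusion (le_locL R (r : L) r.2)).toRingHom.toAlgebra
    have _ : IsScalarTower k R (locL R (r : L) r.2) := IsScalarTower.of_algebraMap_eq fun r => rfl
    have hloc : IsLocalization.Away r (locL R (r : L) r.2) := isLocalization_locL R (r : L) r.2 hr0
    let e : locL R (r : L) r.2 ≃ₐ[R] Localization.Away r :=
      IsLocalization.algEquiv (Submonoid.powers r) _ _
    have h1 : Algebra.Smooth k (Localization.Away r) :=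
      Algebra.Smooth.of_equiv (e.restrictScalars k)
    exact RingHom.smooth_algebraMap.2 h1)
  exact RingHom.smooth_algebraMap.1 key

/-- Localizations of smooth algebras are smooth. -/
theorem smooth_locL (R : Subalgebra k L) (hsm : Algebra.Smooth k R) (f : L) (hf : f ∈ R)
    (hf0 : f ≠ 0) : Algebra.Smooth k (locL R f hf) := by
  let _ : Algebra R (locL R f hf) := (Subalgebra.inclusion (le_locL R f hf)).toRingHom.toAlgebra
  have _ : IsScalarTower k R (locL R f hf) := IsScalarTower.of_algebraMap_eq fun r => rfl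
  have h0 := isLocalization_locL R f hf hf0
  have h1 : Algebra.Etale R (locL R f hf) := Algebra.Etale.of_isLocalizationAway (⟨f, hf⟩ : R)
  exact Algebra.Smooth.comp k R (locL R f hf)

end locfield

section rs

variable {k L : Type u} [Field k] [Field L] [Algebra k L] (τ : L ≃ₐ[k] L) {p : ℕ}

/-- The Rees algebra is stable under the difference operator. -/
lemma RS_stable (hp : p.Prime) (hpk : (p : k) = 0) (hτp : ∀ x, τ^[p] x = x)
    (C : Subalgebra k L) :
    ∀ f ∈ RS τ p C, hm ((1 : ℕ) : ℤ) 1 * (tl τ f - f) ∈ RS τ p C := by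
  refine dz_adjoin τ 1 _ (RS_s τ p C) ?_
  rintro f (hf | ⟨a, c, hc, ha, rfl⟩)
  · rw [hf, tl_hm, map_one, sub_self, mul_zero]
    exact Subalgebra.zero_mem _
  · have h5 : (hm ((1 : ℕ) : ℤ) 1 : LP L) * (tl τ (hm a ((del τ)^[a] c)) - hm a ((del τ)^[a] c)) =
        hm ((a + 1 : ℕ) : ℤ) ((del τ)^[a + 1] c) := by
      rw [tl_hm, ← hm_sub, hm_mul, one_mul, Function.iterate_succ_apply']
      unfold del
      congr 1
      push_cast
      ring
    rw [h5]
    by_cases hap : a + 1 < p
    · exact RS_del τ p C hap hc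
    · have h6 : a + 1 = p := by omega
      rw [h6, del_iter_p τ p hp hpk hτp, hm_zero]
      exact Subalgebra.zero_mem _

/-- The cover of the quotient. -/
theorem cover_RS (hp : p.Prime) (hpk : (p : k) = 0) (hτp : ∀ x, τ^[p] x = x)
    (C : Subalgebra k L) (hC : ∀ c ∈ C, τ c ∈ C) (σ : C ≃ₐ[k] C) (hσ : ∀ c, (σ c : L) = τ c)
    (hsm : Algebra.Smooth k (RS τ p C)) (hne : ∃ c ∈ C, τ c ≠ c) :
    ∃ (T : Type u) (_ : Finite T) (e : T → ℕ) (η : T → L)
      (he : ∀ t, hm (e t) (η t) ∈ RS τ p C),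
      Cover (gA C.val σ) C.val (RS τ p C) (fixedAlg (tl τ)) e η he := by
  have hσp : ∀ c, σ^[p] c = c := by
    intro c
    apply Subtype.ext
    have h1 : ∀ (n : ℕ) (c : C), ((σ^[n] c : C) : L) = τ^[n] c := by
      intro n
      induction n with
      | zero => intro c; rfl
      | succ n ih => intro c; rw [Function.iterate_succ_apply, ih, hσ,
          ← Function.iterate_succ_apply]
    rw [h1, hτp]
  have hD := RS_stable τ hp hpk hτp C
  have hgen : ∀ x ∈ ({hm (-1) 1} ∪ {f | ∃ (a : ℕ) (c : L), c ∈ C ∧ a < p ∧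
      f = hm a ((del τ)^[a] c)} : Set (LP L)), ∃ d a, x = hm d a := by
    rintro f (hf | ⟨a, c, -, -, rfl⟩)
    · exact ⟨-1, 1, hf⟩
    · exact ⟨_, _, rfl⟩
  refine cover_zp hp hpk C.val Subtype.val_injective σ hσp τ (fun c => (hσ c).symm) hτp (RS τ p C)
    (gr_RS τ p C) (RS_s τ p C) (fun b => RS_b τ p C hp.pos b.2)
    (fun f hf d => ⟨⟨_, RS_coeff τ C hC hf d⟩, rfl⟩) hsm ?_ 1 one_pos hD ?_
  · obtain ⟨c, hc, hne⟩ := hne
    exact ⟨1, del τ c, one_pos, sub_ne_zero.2 hne, RS_del τ p C hp.one_lt hc⟩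
  · intro Q hQ hDQ d a h hd
    refine pos_mem hgen Q ?_ d a h hd
    rintro e b hb he
    rcases hb with hb | ⟨a', c, hc, ha', hb⟩
    · have h1 := congrArg (fun f : LP L => f.coeff (-1)) hb
      change (hm (e : ℤ) b).coeff (-1) = (hm (-1) (1 : L)).coeff (-1) at h1
      rw [coeff_hm, coeff_hm, if_neg (by omega), if_pos rfl] at h1
      exact absurd h1.symm one_ne_zero
    · by_cases hed : (e : ℤ) = a'
      · have hed' : e = a' := by exact_mod_cast hed
        subst hed'
        have hba := hm_inj hb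
        subst hba
        have hpm : hm ((e - 1 : ℕ) : ℤ) ((del τ)^[e - 1] c) ∈ RS τ p C :=
          RS_del τ p C (by omega) hc
        have h1 := hDQ _ hpm
        have h2 : (hm ((1 : ℕ) : ℤ) 1 : LP L) * (tl τ (hm ((e - 1 : ℕ) : ℤ) ((del τ)^[e - 1] c)) -
            hm ((e - 1 : ℕ) : ℤ) ((del τ)^[e - 1] c)) = hm (e : ℤ) ((del τ)^[e] c) := by
          obtain ⟨b, rfl⟩ : ∃ b, e = b + 1 := ⟨e - 1, by omega⟩
          rw [Nat.add_sub_cancel, tl_hm, ← hm_sub, hm_mul, one_mul, Function.iterate_succ_apply']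
          unfold del
          congr 1
          push_cast
          ring
        have h3 : (⟨_, hD _ hpm⟩ : RS τ p C) = ⟨hm (e : ℤ) ((del τ)^[e] c),
            RS_del τ p C ha' hc⟩ := Subtype.ext h2
        rw [h3] at h1
        exact h1
      · have h1 := congrArg (fun f : LP L => f.coeff e) hb
        change (hm (e : ℤ) b).coeff e = (hm (a' : ℤ) ((del τ)^[a'] c)).coeff e at h1
        rw [coeff_hm, coeff_hm, if_pos rfl, if_neg (fun h => hed h.symm)] at h1
        have e1 : (⟨hm e b, Algebra.subset_adjoin (Or.inr ⟨a', c, hc, ha', hb⟩)⟩ :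
            Algebra.adjoin k ({hm (-1) 1} ∪ {f | ∃ (a : ℕ) (c : L), c ∈ C ∧ a < p ∧
              f = hm a ((del τ)^[a] c)})) = 0 := by
          apply Subtype.ext
          change hm (e : ℤ) b = 0
          rw [h1, hm_zero]
        rw [e1]
        exact Q.zero_mem

/-- Gluing of the Rees algebras. -/
theorem RS_gl (hp : 0 < p) (C C' : Subalgebra k L) (h : L) (hh : h ∈ C') (hτh : τ h = h)
    (hCC : ∀ c ∈ C, ∃ n : ℕ, h ^ n * c ∈ C') (f : LP L) (hf : f ∈ RS τ p C) :
    ∃ n : ℕ, hm 0 h ^ n * f ∈ RS τ p C' := by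
  have hle : RS τ p C ≤ loc (RS τ p C') (hm 0 h) (RS_b τ p C' hp hh) := by
    conv_lhs => unfold RS
    rw [Algebra.adjoin_le_iff]
    rintro x (hx | ⟨a, c, hc, ha, rfl⟩)
    · rw [hx]
      exact le_loc _ _ _ (RS_s τ p C')
    · obtain ⟨n, hn⟩ := hCC c hc
      refine ⟨n, ?_⟩
      have hτhn : τ (h ^ n) = h ^ n := by rw [map_pow, hτh]
      have h1 : hm 0 h ^ n * hm a ((del τ)^[a] c) = hm a ((del τ)^[a] (h ^ n * c)) := by
        rw [hm_pow, hm_mul, mul_zero, zero_add, del_iter_mul_inv τ hτhn]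
      rw [h1]
      exact RS_del τ p C' ha hn
  exact hle hf

end rs

end Pool.Agent.H920R2
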