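import Pool.Agent.H920R2.Cy8

set_option autoImplicit false
set_option linter.unusedSectionVars false

universe u v

namespace Pool.Agent.H920R2

section forms

variable {k K : Type u} [Field k] [Field K] [Algebra k K] {m : ℕ} (z : Fin (m + 1) → K)

/-- The monomials of degree `d`. -/
def MN (d : ℕ) : Set K := {x | ∃ a : Fin (m + 1) → ℕ, ∑ i, a i = d ∧ x = ∏ i, z i ^ a i}

/-- The forms of degree `d`. -/
def FS (k : Type u) {K : Type u} [Field k] [Field K] [Algebra k K] {m : ℕ}
    (z : Fin (m + 1) → K) (d : ℕ) : Submodule k K := Submodule.span k (MN z d)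

lemma MN_mul {d e : ℕ} {x y : K} (hx : x ∈ MN z d) (hy : y ∈ MN z e) : x * y ∈ MN z (d + e) := by
  obtain ⟨a, ha, rfl⟩ := hx
  obtain ⟨b, hb, rfl⟩ := hy
  refine ⟨fun i => a i + b i, ?_, ?_⟩
  · rw [Finset.sum_add_distrib, ha, hb]
  · rw [← Finset.prod_mul_distrib]
    exact Finset.prod_congr rfl fun i _ => (pow_add _ _ _).symm

lemma MN_one : (1 : K) ∈ MN z 0 := ⟨fun _ => 0, by simp, by simp⟩

lemma MN_pow_z (i : Fin (m + 1)) (d : ℕ) : z i ^ d ∈ MN z d := by
  classical
  refine ⟨fun j => if j = i then d else 0, ?_, ?_⟩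
  · rw [Finset.sum_ite_eq' Finset.univ i]
    rw [if_pos (Finset.mem_univ i)]
  · rw [Finset.prod_eq_single i]
    · change z i ^ d = z i ^ (if i = i then d else 0)
      rw [if_pos rfl]
    · intro j _ hj
      change z j ^ (if j = i then d else 0) = 1
      rw [if_neg hj, pow_zero]
    · intro h
      exact absurd (Finset.mem_univ i) h

lemma FS_mul {d e : ℕ} {x y : K} (hx : x ∈ FS k z d) (hy : y ∈ FS k z e) :
    x * y ∈ FS k z (d + e) := by
  unfold FS at hx hy ⊢
  induction hx using Submodule.span_induction with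
  | mem x hx =>
    induction hy using Submodule.span_induction with
    | mem y hy => exact Submodule.subset_span (MN_mul z hx hy)
    | zero => rw [mul_zero]; exact Submodule.zero_mem _
    | add a b _ _ ha hb => rw [mul_add]; exact Submodule.add_mem _ ha hb
    | smul c a _ ha => rw [mul_smul_comm]; exact Submodule.smul_mem _ c ha
  | zero => rw [zero_mul]; exact Submodule.zero_mem _
  | add a b _ _ ha hb => rw [add_mul]; exact Submodule.add_mem _ ha hb
  | smul c a _ ha => rw [smul_mul_assoc]; exact Submodule.smul_mem _ c ha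

lemma FS_one : (1 : K) ∈ FS k z 0 := Submodule.subset_span (MN_one z)

lemma FS_z (i : Fin (m + 1)) (d : ℕ) : z i ^ d ∈ FS k z d := Submodule.subset_span (MN_pow_z z i d)

lemma FS_prod {d : ℕ} {ι : Type} (s : Finset ι) (x : ι → K) (hx : ∀ i ∈ s, x i ∈ FS k z d) :
    ∏ i ∈ s, x i ∈ FS k z (s.card * d) := by
  classical
  induction s using Finset.induction_on with
  | empty =>
    rw [Finset.prod_empty, Finset.card_empty, zero_mul]
    exact FS_one z
  | insert i s hi ih =>
    rw [Finset.prod_insert hi, Finset.card_insert_of_notMem hi]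
    have h1 := FS_mul z (hx i (Finset.mem_insert_self i s))
      (ih fun j hj => hx j (Finset.mem_insert_of_mem hj))
    have h2 : d + s.card * d = (s.card + 1) * d := by ring
    rwa [h2] at h1

/-- The chart of a form. -/
def AF (k : Type u) {K : Type u} [Field k] [Field K] [Algebra k K] {m : ℕ}
    (z : Fin (m + 1) → K) (d : ℕ) (F : K) : Subalgebra k K :=
  Algebra.adjoin k {y | ∃ x ∈ MN z d, y = x / F}

lemma FS_div_mem {d : ℕ} {F G : K} (hG : G ∈ FS k z d) : G / F ∈ AF k z d F := by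
  unfold FS at hG
  induction hG using Submodule.span_induction with
  | mem x hx => exact Algebra.subset_adjoin ⟨x, hx, rfl⟩
  | zero => rw [zero_div]; exact Subalgebra.zero_mem _
  | add a b _ _ ha hb => rw [add_div]; exact Subalgebra.add_mem _ ha hb
  | smul c a _ ha => rw [smul_div_assoc]; exact Subalgebra.smul_mem _ ha c

/-- The affine charts. -/
def AZ (k : Type u) {K : Type u} [Field k] [Field K] [Algebra k K] {m : ℕ}
    (z : Fin (m + 1) → K) (i : Fin (m + 1)) : Subalgebra k K :=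
  Algebra.adjoin k (Set.range fun j => z j / z i)

lemma MN_div_mem (i : Fin (m + 1)) {d : ℕ} {x : K} (hx : x ∈ MN z d) :
    x / z i ^ d ∈ AZ k z i := by
  obtain ⟨a, ha, rfl⟩ := hx
  have h1 : (∏ j, z j ^ a j) / z i ^ d = ∏ j, (z j / z i) ^ a j := by
    rw [← ha, ← Finset.prod_pow_eq_pow_sum, ← Finset.prod_div_distrib]
    exact Finset.prod_congr rfl fun j _ => (div_pow _ _ _).symm
  have h2 : ∀ j, z j / z i ∈ AZ k z i := fun j => Algebra.subset_adjoin ⟨j, rfl⟩
  rw [h1]
  exact Subalgebra.prod_mem _ fun j _ => Subalgebra.pow_mem _ (h2 j) _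

lemma FS_div_mem' (i : Fin (m + 1)) {d : ℕ} {x : K} (hx : x ∈ FS k z d) :
    x / z i ^ d ∈ AZ k z i := by
  unfold FS at hx
  induction hx using Submodule.span_induction with
  | mem x hx => exact MN_div_mem z i hx
  | zero => rw [zero_div]; exact Subalgebra.zero_mem _
  | add a b _ _ ha hb => rw [add_div]; exact Subalgebra.add_mem _ ha hb
  | smul c a _ ha => rw [smul_div_assoc]; exact Subalgebra.smul_mem _ ha c

variable (hz : ∀ i, z i ≠ 0)

include hz in
lemma locL_AF (i : Fin (m + 1)) {d : ℕ} (hd : 1 ≤ d) {F : K} (hF : F ∈ FS k z d) (hF0 : F ≠ 0) :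
    locL (AF k z d F) (z i ^ d / F) (FS_div_mem z (FS_z z i d)) =
      locL (AZ k z i) (F / z i ^ d) (FS_div_mem' z i hF) := by
  have hzd : z i ^ d ≠ 0 := pow_ne_zero _ (hz i)
  have hinv : (z i ^ d / F) = (F / z i ^ d)⁻¹ := (inv_div _ _).symm
  have hinv' : (z i ^ d / F)⁻¹ = F / z i ^ d := inv_div _ _
  apply le_antisymm
  · rintro y ⟨n, hn⟩
    have hle : AF k z d F ≤ locL (AZ k z i) (F / z i ^ d) (FS_div_mem' z i hF) := by
      unfold AF
      rw [Algebra.adjoin_le_iff]
      rintro _ ⟨x, hx, rfl⟩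
      refine ⟨1, ?_⟩
      have h1 : (F / z i ^ d) ^ 1 * (x / F) = x / z i ^ d := by
        rw [pow_one]
        field_simp
      rw [h1]
      exact MN_div_mem z i hx
    have h1 := hle hn
    have h2 : y = (F / z i ^ d) ^ n * ((z i ^ d / F) ^ n * y) := by
      rw [← mul_assoc, ← mul_pow, hinv, mul_inv_cancel₀ (div_ne_zero hF0 hzd), one_pow, one_mul]
    rw [h2]
    exact Subalgebra.mul_mem _ (Subalgebra.pow_mem _ (le_locL _ _ _ (FS_div_mem' z i hF)) _) h1
  · rintro y ⟨n, hn⟩
    have hle : AZ k z i ≤ locL (AF k z d F) (z i ^ d / F) (FS_div_mem z (FS_z z i d)) := by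
      conv_lhs => unfold AZ
      rw [Algebra.adjoin_le_iff]
      rintro _ ⟨j, rfl⟩
      refine ⟨1, ?_⟩
      have h1 : (z i ^ d / F) ^ 1 * (z j / z i) = (z j * z i ^ (d - 1)) / F := by
        obtain ⟨c, rfl⟩ := Nat.exists_eq_add_of_le hd
        rw [pow_one, Nat.add_sub_cancel_left, pow_add, pow_one]
        have := hz i
        field_simp
      rw [h1]
      refine FS_div_mem z ?_
      have h2 := FS_mul (k := k) z (FS_z z j 1) (FS_z z i (d - 1))
      rw [pow_one, Nat.add_sub_cancel' hd] at h2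
      exact h2
    have h1 := hle hn
    have h2 : y = (z i ^ d / F) ^ n * ((F / z i ^ d) ^ n * y) := by
      rw [← mul_assoc, ← mul_pow, hinv, inv_mul_cancel₀ (div_ne_zero hF0 hzd), one_pow, one_mul]
    rw [h2]
    exact Subalgebra.mul_mem _ (Subalgebra.pow_mem _
      (le_locL _ _ _ (FS_div_mem z (FS_z z i d))) _) h1

include hz in
/-- The charts of a smooth projective variety are smooth. -/
theorem smooth_AF (hsm : ∀ i, Algebra.Smooth k (AZ k z i)) {d : ℕ} (hd : 1 ≤ d) {F : K}
    (hF : F ∈ FS k z d) (hF0 : F ≠ 0) : Algebra.Smooth k (AF k z d F) := by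
  classical
  apply smooth_of_locL
  intro Q hQ
  obtain ⟨i, hi⟩ : ∃ i, (⟨z i ^ d / F, FS_div_mem z (FS_z z i d)⟩ : AF k z d F) ∉ Q := by
    by_contra hcon
    push Not at hcon
    have h1 : ∀ x ∈ MN z d, ∃ h : x / F ∈ AF k z d F, (⟨x / F, h⟩ : AF k z d F) ∈ Q := by
      rintro x hx
      have hxF : x / F ∈ AF k z d F := Algebra.subset_adjoin ⟨x, hx, rfl⟩
      refine ⟨hxF, ?_⟩
      obtain ⟨a, ha, rfl⟩ := hx
      apply hQ.mem_of_pow_mem d
      have h2 : (⟨_, hxF⟩ : AF k z d F) ^ d =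
          ∏ i, (⟨z i ^ d / F, FS_div_mem z (FS_z z i d)⟩ : AF k z d F) ^ a i := by
        apply Subtype.ext
        change ((∏ i, z i ^ a i) / F) ^ d = ((AF k z d F).val)
          (∏ i, (⟨z i ^ d / F, FS_div_mem z (FS_z z i d)⟩ : AF k z d F) ^ a i)
        rw [map_prod]
        have h3 : ∀ i, (AF k z d F).val
            ((⟨z i ^ d / F, FS_div_mem z (FS_z z i d)⟩ : AF k z d F) ^ a i) =
            (z i ^ a i) ^ d / F ^ a i := by
          intro i
          change (z i ^ d / F) ^ a i = _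
          rw [div_pow, ← pow_mul, ← pow_mul, mul_comm d]
        rw [Finset.prod_congr rfl fun i _ => h3 i, Finset.prod_div_distrib, Finset.prod_pow,
          Finset.prod_pow_eq_pow_sum, ha, div_pow]
      rw [h2]
      obtain ⟨i, hi⟩ : ∃ i, a i ≠ 0 := by
        by_contra hcon2
        push Not at hcon2
        have : ∑ i, a i = 0 := Finset.sum_eq_zero fun i _ => hcon2 i
        omega
      rw [← Finset.mul_prod_erase _ _ (Finset.mem_univ i)]
      exact Q.mul_mem_right _ (Ideal.pow_mem_of_mem _ (hcon i) _ (Nat.pos_of_ne_zero hi))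
    have h2 : ∀ x ∈ FS k z d, ∃ h : x / F ∈ AF k z d F, (⟨x / F, h⟩ : AF k z d F) ∈ Q := by
      intro x hx
      refine ⟨FS_div_mem z hx, ?_⟩
      unfold FS at hx
      induction hx using Submodule.span_induction with
      | mem x hx => exact (h1 x hx).2
      | zero =>
        have h3 : (⟨0 / F, FS_div_mem z (Submodule.zero_mem _)⟩ : AF k z d F) = 0 :=
          Subtype.ext (zero_div F)
        rw [h3]
        exact Q.zero_mem
      | add a b ha' hb' ha hb =>
        have h3 : (⟨(a + b) / F, FS_div_mem z (Submodule.add_mem _ ha' hb')⟩ : AF k z d F) =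
            ⟨a / F, FS_div_mem z ha'⟩ + ⟨b / F, FS_div_mem z hb'⟩ := Subtype.ext (add_div _ _ _)
        rw [h3]
        exact Q.add_mem ha hb
      | smul c a ha' ha =>
        have h3 : (⟨(c • a) / F, FS_div_mem z (Submodule.smul_mem _ c ha')⟩ : AF k z d F) =
            c • ⟨a / F, FS_div_mem z ha'⟩ := Subtype.ext (smul_div_assoc _ _ _)
        rw [h3, Algebra.smul_def]
        exact Q.mul_mem_left _ ha
    obtain ⟨h3, h4⟩ := h2 F hF
    apply hQ.ne_top
    rw [Ideal.eq_top_iff_one]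
    have h5 : (⟨F / F, h3⟩ : AF k z d F) = 1 := Subtype.ext (div_self hF0)
    rwa [h5] at h4
  have hzd : z i ^ d ≠ 0 := pow_ne_zero _ (hz i)
  refine ⟨z i ^ d / F, FS_div_mem z (FS_z z i d), hi, ?_⟩
  rw [locL_AF z hz i hd hF hF0]
  exact smooth_locL _ (hsm i) _ _ (div_ne_zero hF0 hzd)

lemma AF_gl {d : ℕ} {F G : K} (hG : G ∈ FS k z d) (hG0 : G ≠ 0) :
    AF k z d G ≤ locL (AF k z d F) (G / F) (FS_div_mem z hG) := by
  conv_lhs => unfold AF
  rw [Algebra.adjoin_le_iff]
  rintro _ ⟨x, hx, rfl⟩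
  refine ⟨1, ?_⟩
  have h1 : (G / F) ^ 1 * (x / G) = x / F := by
    rw [pow_one]
    field_simp
  rw [h1]
  exact Algebra.subset_adjoin ⟨x, hx, rfl⟩

end forms

end Pool.Agent.H920R2
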