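import Pool.Agent.H920R2.Gn5

set_option autoImplicit false
set_option linter.unusedSectionVars false

open AlgebraicGeometry CategoryTheory

universe u v

namespace Pool.Agent.H920R2

section cover

variable {k A B K : Type u} [Field k] [CommRing A] [IsDomain A] [Algebra k A] [CommRing B]
  [Algebra k B] [Field K] [Algebra k K]

/-- Data for the resolution of a ring of invariants `A` of `B`: a graded algebra `R` (the
coordinate ring of a weighted blowup), an algebra `F` of invariants and finitely many invariant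
homogeneous elements of `R`, which cover the weighted blowup, such that the rings of invariants of
the localizations are smooth. -/
structure Cover (g : A →ₐ[k] K) (gB : B →ₐ[k] K) (R F : Subalgebra k (LP K)) {T : Type u}
    (e : T → ℕ) (η : T → K) (hR : ∀ t, hm (e t) (η t) ∈ R) : Prop where
  inj : Function.Injective g
  grR : Gr R
  grF : Gr F
  sR : hm (-1) 1 ∈ R
  sF : hm (-1) 1 ∈ F
  bR : ∀ b, hm 0 (gB b) ∈ R
  cR : ∀ f ∈ R, ∀ d, ∃ b, f.coeff d = gB b
  gF : ∀ a, hm 0 (g a) ∈ F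
  gAB : ∀ a, ∃ b, g a = gB b
  gBA : ∀ b, hm 0 (gB b) ∈ F → ∃ a, g a = gB b
  invF : ∀ d a, hm d a ∈ F → hm (-d) a⁻¹ ∈ F
  int : ∀ V : ValuationSubring K, (∀ a, g a ∈ V) → ∀ b, gB b ∈ V
  epos : ∀ t, 0 < e t
  η0 : ∀ t, η t ≠ 0
  hF : ∀ t, hm (e t) (η t) ∈ F
  sm : ∀ t, Algebra.Smooth k ↥(loc R (hm (e t) (η t)) (hR t) ⊓ F)
  ft : Algebra.FiniteType k R
  pos : ∃ (d : ℕ) (a : K), 0 < d ∧ a ≠ 0 ∧ hm d a ∈ R
  rad : ∀ (d : ℕ) (a : K) (h : hm d a ∈ R), 0 < d → ∃ N : ℕ,
    (⟨hm d a, h⟩ : R) ^ N ∈ Ideal.span (Set.range fun t => (⟨hm (e t) (η t), hR t⟩ : R))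

variable {g : A →ₐ[k] K} {gB : B →ₐ[k] K} {R F : Subalgebra k (LP K)} {T : Type u}
    {e : T → ℕ} {η : T → K} {hR : ∀ t, hm (e t) (η t) ∈ R}

/-- Homogeneous generators of positive degree. -/
lemma exists_pos_gens (hft : Algebra.FiniteType k R) (hgr : Gr R)
    (hpos : ∃ (d : ℕ) (a : K), 0 < d ∧ a ≠ 0 ∧ hm d a ∈ R) :
    ∃ (J : Type u) (_ : Finite J) (_ : Nonempty J) (d : J → ℕ) (y : J → K),
      (∀ j, 0 < d j ∧ y j ≠ 0 ∧ hm (d j) (y j) ∈ R) ∧
      R ≤ Algebra.adjoin k ({f | f ∈ R ∧ ∃ (m : ℤ) (a : K), m ≤ 0 ∧ f = hm m a} ∪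
        Set.range fun j => hm (d j) (y j)) := by
  classical
  obtain ⟨s, hs⟩ := (Subalgebra.fg_iff_finiteType _).2 hft
  obtain ⟨d0, a0, hd0, ha0, h0⟩ := hpos
  let J0 := {p : (Σ f : s, ((f : LP K).coeff.support)) // 0 < (p.2 : ℤ)}
  have hsR : ∀ f ∈ s, f ∈ R := by
    intro f hf
    rw [← hs]
    exact Algebra.subset_adjoin hf
  have hcast : ∀ p : J0, (((p.1.2 : ℤ).toNat : ℕ) : ℤ) = p.1.2 := fun p =>
    Int.toNat_of_nonneg p.2.le
  refine ⟨Option J0, inferInstance, inferInstance,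
    fun o => o.elim d0 fun p => (p.1.2 : ℤ).toNat, fun o => o.elim a0 fun p =>
      (p.1.1 : LP K).coeff p.1.2, ?_, ?_⟩
  · rintro (_ | p)
    · exact ⟨hd0, ha0, h0⟩
    · refine ⟨?_, ?_, ?_⟩
      · have := p.2
        change 0 < (p.1.2 : ℤ).toNat
        omega
      · exact Finsupp.mem_support_iff.1 p.1.2.2
      · change hm (((p.1.2 : ℤ).toNat : ℕ) : ℤ) _ ∈ R
        rw [hcast]
        exact hgr _ (hsR _ p.1.1.2) _
  · rw [← hs, Algebra.adjoin_le_iff]
    intro f hf
    change f ∈ Algebra.adjoin k _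
    rw [eq_sum_hm f]
    refine Subalgebra.sum_mem _ fun m hm' => ?_
    by_cases hm0 : 0 < m
    · refine Algebra.subset_adjoin (Or.inr ⟨some ⟨⟨⟨f, hf⟩, ⟨m, hm'⟩⟩, hm0⟩, ?_⟩)
      change hm ((m.toNat : ℕ) : ℤ) (f.coeff m) = _
      rw [Int.toNat_of_nonneg hm0.le]
    · refine Algebra.subset_adjoin (Or.inl ⟨?_, m, _, not_lt.1 hm0, rfl⟩)
      rw [hs]
      exact hgr _ (hsR _ hf) _

/-- The elements of the graded algebra have bounded valuation. -/
lemma val_R (hbR : ∀ f ∈ R, ∀ d, ∃ b, f.coeff d = gB b) {J : Type u} (d : J → ℕ) (y : J → K)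
    (hgen : R ≤ Algebra.adjoin k ({f | f ∈ R ∧ ∃ (m : ℤ) (a : K), m ≤ 0 ∧ f = hm m a} ∪
        Set.range fun j => hm (d j) (y j))) (V : ValuationSubring K) (hV : ∀ b, gB b ∈ V)
    (j0 : J) (hd0 : 0 < d j0) (hy0 : y j0 ≠ 0) (hyR : hm (d j0) (y j0) ∈ R)
    (hmax : ∀ j, V.valuation (y j) ^ d j0 ≤ V.valuation (y j0) ^ d j)
    {x : LP K} (hx : x ∈ R) (m : ℤ) :
    V.valuation (x.coeff m) ^ d j0 ≤ V.valuation (y j0) ^ m := by
  classical
  set v := V.valuation with hv
  have hpos : 0 < v (y j0) := by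
    rw [zero_lt_iff, Ne, map_eq_zero]
    exact hy0
  have hBpos : ∀ e : ℤ, 0 < v (y j0) ^ e := fun e => zpow_pos hpos e
  have hy1 : v (y j0) ≤ 1 := by
    obtain ⟨b, hb⟩ := hbR _ hyR (d j0)
    rw [coeff_hm_same] at hb
    rw [hb]
    exact (V.valuation_le_one_iff _).2 (hV b)
  have hadd : ∀ (e : ℤ) (b c : K), v b ^ d j0 ≤ v (y j0) ^ e →
      v c ^ d j0 ≤ v (y j0) ^ e → v (b + c) ^ d j0 ≤ v (y j0) ^ e := by
    intro e b c hb hc
    rcases v.map_add' b c with h | h
    · exact (pow_le_pow_left' h _).trans hb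
    · exact (pow_le_pow_left' h _).trans hc
  have hzero : ∀ e : ℤ, v (0 : K) ^ d j0 ≤ v (y j0) ^ e := by
    intro e
    rw [map_zero, zero_pow (by omega)]
    exact (hBpos e).le
  have h1 := hgen hx
  clear hx
  induction h1 using Algebra.adjoin_induction generalizing m with
  | mem x hx =>
    rcases hx with ⟨hxR, l, a, hl, rfl⟩ | ⟨j, rfl⟩
    · rw [coeff_hm]
      split_ifs with h
      · obtain ⟨b, hb⟩ := hbR _ hxR l
        rw [coeff_hm_same] at hb
        have h2 : v a ≤ 1 := by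
          rw [hb]
          exact (V.valuation_le_one_iff _).2 (hV b)
        rw [← h]
        refine (pow_le_one' h2 _).trans ?_
        obtain ⟨n, hn⟩ := Int.eq_ofNat_of_zero_le (a := -l) (by omega)
        have hl' : l = -(n : ℤ) := by
          have : -l = (n : ℤ) := hn
          omega
        rw [hl', zpow_neg, zpow_natCast]
        exact one_le_inv_iff₀.2 ⟨pow_pos hpos n, pow_le_one' hy1 n⟩
      · exact hzero m
    · simp only [coeff_hm]
      split_ifs with h
      · rw [← h, zpow_natCast]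
        exact hmax j
      · exact hzero m
  | algebraMap r =>
    rw [algebraMap_LP, coeff_hm]
    split_ifs with h
    · rw [← h, zpow_zero]
      have h2 := hV (algebraMap k B r)
      rw [AlgHom.commutes] at h2
      exact pow_le_one' ((V.valuation_le_one_iff _).2 h2) _
    · exact hzero m
  | add x y _ _ hx hy =>
    rw [AddMonoidAlgebra.coeff_add, Finsupp.add_apply]
    exact hadd m _ _ (hx m) (hy m)
  | mul x z _ _ hx hy =>
    rw [eq_sum_hm x, Finset.sum_mul, AddMonoidAlgebra.coeff_sum, Finsupp.finsetSum_apply]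
    have h1 : ∀ j ∈ x.coeff.support, v ((hm j (x.coeff j) * z).coeff m) ^ d j0 ≤
        v (y j0) ^ m := by
      intro j _
      rw [coeff_hm_mul, map_mul, mul_pow]
      have h2 : v (y j0) ^ m = v (y j0) ^ j * v (y j0) ^ (m - j) := by
        rw [← zpow_add₀ hpos.ne']
        congr 1
        ring
      rw [h2]
      exact mul_le_mul' (hx j) (hy (m - j))
    have h3 : ∀ s : Finset ℤ, (∀ j ∈ s, v ((hm j (x.coeff j) * z).coeff m) ^ d j0 ≤
        v (y j0) ^ m) → v (∑ j ∈ s, (hm j (x.coeff j) * z).coeff m) ^ d j0 ≤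
          v (y j0) ^ m := by
      intro s
      induction s using Finset.induction_on with
      | empty => intro _; rw [Finset.sum_empty]; exact hzero m
      | insert i s hi ih =>
        intro h
        rw [Finset.sum_insert hi]
        exact hadd m _ _ (h i (Finset.mem_insert_self i s))
          (ih fun i' hi' => h i' (Finset.mem_insert_of_mem hi'))
    exact h3 _ h1

/-- The charts cover all valuations. -/
lemma cover_cv [Finite T] (h : Cover g gB R F e η hR) (V : ValuationSubring K)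
    (hV : ∀ b, gB b ∈ V) : ∃ t, ∀ x, hm 0 x ∈ loc R (hm (e t) (η t)) (hR t) → x ∈ V := by
  classical
  obtain ⟨J, hJ, hJn, d, y, hy, hgen⟩ := exists_pos_gens h.ft h.grR h.pos
  have hJf : Fintype J := Fintype.ofFinite J
  let D : ℕ := ∏ j, d j
  have hD0 : 0 < D := Finset.prod_pos fun j _ => (hy j).1
  have hdvd : ∀ j, d j ∣ D := fun j => Finset.dvd_prod_of_mem d (Finset.mem_univ j)
  have hq : ∀ j, D / d j * d j = D := fun j => Nat.div_mul_cancel (hdvd j)
  obtain ⟨j0, hj0⟩ := Finite.exists_max fun j : J => V.valuation (y j) ^ (D / d j)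
  have hmax : ∀ j, V.valuation (y j) ^ d j0 ≤ V.valuation (y j0) ^ d j := by
    intro j
    have h1 := hj0 j
    have h2 : (V.valuation (y j) ^ d j0) ^ D ≤ (V.valuation (y j0) ^ d j) ^ D := by
      have h3 := pow_le_pow_left' h1 (d j * d j0)
      rw [← pow_mul, ← pow_mul] at h3 ⊢
      have e3 : D / d j * (d j * d j0) = d j0 * D := by rw [← mul_assoc, hq j]; ring
      have e4 : D / d j0 * (d j * d j0) = d j * D := by
        rw [mul_comm (d j), ← mul_assoc, hq j0]; ring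
      rwa [e3, e4] at h3
    exact le_of_pow_le_pow_left₀ hD0.ne' zero_le h2
  set v := V.valuation with hv
  have hval : ∀ {x : LP K}, x ∈ R → ∀ m : ℤ, v (x.coeff m) ^ d j0 ≤ v (y j0) ^ m := by
    intro x hx m
    exact val_R h.cR d y hgen V hV j0 (hy j0).1 (hy j0).2.1 (hy j0).2.2 hmax hx m
  have hpos : 0 < v (y j0) := by
    rw [zero_lt_iff, Ne, map_eq_zero]
    exact (hy j0).2.1
  obtain ⟨N, hN⟩ := h.rad (d j0) (y j0) (hy j0).2.2 (hy j0).1
  obtain ⟨m, f, t, hsum⟩ := Submodule.mem_span_set'.1 hN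
  choose t' ht' using fun i => (t i).2
  have h2 : (∑ i, ((f i : R) : LP K) * hm (e (t' i)) (η (t' i))) = hm (d j0) (y j0) ^ N := by
    have h3 := congrArg (fun z : R => (z : LP K)) hsum
    simp only [AddSubmonoidClass.coe_finsetSum, smul_eq_mul, MulMemClass.coe_mul] at h3
    refine Eq.trans ?_ h3
    refine Finset.sum_congr rfl fun i _ => ?_
    rw [← ht' i]
  have h5 : ∀ s : Finset (Fin m),
      (∑ i ∈ s, ((f i : R) : LP K) * hm (e (t' i)) (η (t' i))).coeff (N * d j0) =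
      ∑ i ∈ s, ((f i : R) : LP K).coeff (N * d j0 - e (t' i)) * η (t' i) := by
    intro s
    rw [AddMonoidAlgebra.coeff_sum, Finsupp.finsetSum_apply]
    refine Finset.sum_congr rfl fun i _ => ?_
    rw [mul_comm, coeff_hm_mul, mul_comm]
  have h4 := congrArg (fun z => z.coeff (N * d j0 : ℤ)) h2
  have h6 : (hm (d j0) (y j0) ^ N).coeff (N * d j0 : ℤ) = y j0 ^ N := by
    rw [hm_pow, coeff_hm_same]
  simp only [h6, h5] at h4
  have hex : ∃ i, v (y j0) ^ N ≤
      v (((f i : R) : LP K).coeff (N * d j0 - e (t' i)) * η (t' i)) := by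
    by_contra hcon
    push Not at hcon
    have h7 : v (∑ i, ((f i : R) : LP K).coeff (N * d j0 - e (t' i)) * η (t' i)) <
        v (y j0) ^ N := Valuation.map_sum_lt _ (pow_pos hpos N).ne' fun i _ => hcon i
    rw [h4, map_pow] at h7
    exact lt_irrefl _ h7
  obtain ⟨i, hi⟩ := hex
  set t0 := t' i with ht0
  have h8 := hval (f i).2 (N * d j0 - e t0)
  have h9 : v (y j0) ^ (e t0 : ℤ) ≤ v (η t0) ^ d j0 := by
    rw [map_mul] at hi
    have h10 := pow_le_pow_left' hi (d j0)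
    rw [mul_pow] at h10
    have h11 : v (y j0) ^ (N * d j0 - e t0 : ℤ) * v (y j0) ^ (e t0 : ℤ) ≤
        v (y j0) ^ (N * d j0 - e t0 : ℤ) * v (η t0) ^ d j0 := by
      rw [← zpow_add₀ hpos.ne', sub_add_cancel]
      have h12 : v (y j0) ^ (N * d j0 : ℤ) = (v (y j0) ^ N) ^ d j0 := by
        rw [← pow_mul, ← zpow_natCast]
        push_cast
        rfl
      rw [h12]
      exact h10.trans (mul_le_mul' h8 le_rfl)
    by_contra hcon
    rw [not_le] at hcon
    exact absurd h11 (not_le.2 (mul_lt_mul_of_pos_left hcon (zpow_pos hpos _)))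
  refine ⟨t0, ?_⟩
  rintro x ⟨l, hl⟩
  have h13 := hval hl (l * e t0)
  rw [hm_pow, hm_mul, add_zero, coeff_hm_same, map_mul, map_pow, mul_pow] at h13
  have h14 : v (y j0) ^ (l * e t0 : ℤ) ≤ (v (η t0) ^ l) ^ d j0 := by
    have h15 : v (y j0) ^ (l * e t0 : ℤ) = (v (y j0) ^ (e t0 : ℤ)) ^ l := by
      rw [← zpow_natCast, ← zpow_mul, mul_comm]
    rw [h15]
    refine (pow_le_pow_left' h9 l).trans (le_of_eq ?_)
    rw [← pow_mul, ← pow_mul, mul_comm]
  have hη : 0 < v (η t0) := by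
    rw [zero_lt_iff, Ne, map_eq_zero]
    exact h.η0 t0
  have h16 : v x ^ d j0 ≤ 1 := by
    by_contra hcon
    rw [not_le] at hcon
    have h17 := mul_lt_mul_of_pos_left hcon (pow_pos (pow_pos hη l) (d j0))
    rw [mul_one] at h17
    exact absurd (h13.trans h14) (not_le.2 h17)
  rw [← V.valuation_le_one_iff]
  by_contra hcon
  rw [not_le] at hcon
  exact absurd h16 (not_le.2 (one_lt_pow₀ hcon (hy j0).1.ne'))

end cover

end Pool.Agent.H920R2
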