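import Pool.Agent.H920R2.Sig1

set_option autoImplicit false

universe u v

namespace Pool.Agent.H920R2

section tl

variable {k L : Type u} [Field k] [Field L] [Algebra k L] (τ : L ≃ₐ[k] L)

/-- The automorphism of the Laurent polynomials induced by an automorphism of the
coefficients. -/
noncomputable def tl : LP L ≃ₐ[k] LP L := AddMonoidAlgebra.mapAlgEquiv k ℤ τ

lemma tl_coeff (f : LP L) (d : ℤ) : (tl τ f).coeff d = τ (f.coeff d) := by
  unfold tl
  simp

lemma tl_hm (d : ℤ) (a : L) : tl τ (hm d a) = hm d (τ a) := by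
  apply AddMonoidAlgebra.coeff_injective
  ext e
  rw [tl_coeff, coeff_hm, coeff_hm]
  split_ifs
  · rfl
  · exact map_zero τ

lemma tl_iter_hm (n : ℕ) (d : ℤ) (a : L) : (tl τ)^[n] (hm d a) = hm d (τ^[n] a) := by
  induction n with
  | zero => rfl
  | succ n ih => rw [Function.iterate_succ_apply', ih, tl_hm, Function.iterate_succ_apply']

lemma tl_iter_coeff (n : ℕ) (f : LP L) (d : ℤ) : ((tl τ)^[n] f).coeff d = τ^[n] (f.coeff d) := by
  induction n generalizing f with
  | zero => rfl
  | succ n ih => rw [Function.iterate_succ_apply, ih, tl_coeff, Function.iterate_succ_apply]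

lemma tl_iter_id (n : ℕ) (h : ∀ x, τ^[n] x = x) (f : LP L) : (tl τ)^[n] f = f := by
  apply AddMonoidAlgebra.coeff_injective
  ext d
  rw [tl_iter_coeff, h]

lemma gr_fixed : Gr (fixedAlg (tl τ)) := by
  intro f hf d
  rw [mem_fixedAlg] at hf ⊢
  rw [tl_hm, ← tl_coeff, hf]

lemma gr_inf {C C' : Subalgebra k (LP L)} (h : Gr C) (h' : Gr C') : Gr (C ⊓ C') :=
  fun f hf d => ⟨h f hf.1 d, h' f hf.2 d⟩

/-- The difference operator of degree one. -/
noncomputable def Dl (f : LP L) : LP L := hm 1 1 * (tl τ f - f)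

lemma Dl_hm (d : ℤ) (a : L) : Dl τ (hm d a) = hm (d + 1) (τ a - a) := by
  unfold Dl
  rw [tl_hm, ← hm_sub, hm_mul, one_mul, add_comm]

lemma tl_eq_Dl (f : LP L) : tl τ f = f + hm (-1) 1 * Dl τ f := by
  unfold Dl
  rw [← mul_assoc, hm_mul, neg_add_cancel, one_mul, hm_one, one_mul]
  ring

lemma Dl_add (f g : LP L) : Dl τ (f + g) = Dl τ f + Dl τ g := by
  unfold Dl; rw [map_add]; ring

lemma Dl_mul (f g : LP L) : Dl τ (f * g) = Dl τ f * g + f * Dl τ g +
    hm (-1) 1 * Dl τ f * Dl τ g := by
  have h1 : (hm (-1) 1 : LP L) * hm 1 1 = 1 := by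
    rw [hm_mul, neg_add_cancel, one_mul, hm_one]
  unfold Dl
  rw [map_mul]
  linear_combination (-(tl τ f - f) * (tl τ g - g) * hm 1 1) * h1

end tl

section rees

variable {k B L : Type u} [Field k] [CommRing B] [Algebra k B] [Field L] [Algebra k L]
  (gB : B →ₐ[k] L) (σ : B ≃ₐ[k] B) (τ : L ≃ₐ[k] L) (hτ : ∀ b, τ (gB b) = gB (σ b)) (p : ℕ)

/-- The difference operator. -/
def del (σ : B ≃ₐ[k] B) (b : B) : B := σ b - b

/-- The Rees algebra of the filtration defined by an automorphism. -/
noncomputable def sR : Subalgebra k (LP L) :=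
  Algebra.adjoin k ({hm (-1) 1} ∪ {f | ∃ (a : ℕ) (b : B), a < p ∧ f = hm a (gB ((del σ)^[a] b))})

lemma sR_T : hm (-1) 1 ∈ sR gB σ p := Algebra.subset_adjoin (Or.inl rfl)

lemma sR_del {a : ℕ} (ha : a < p) (b : B) : hm a (gB ((del σ)^[a] b)) ∈ sR gB σ p :=
  Algebra.subset_adjoin (Or.inr ⟨a, b, ha, rfl⟩)

lemma gr_sR : Gr (sR gB σ p) := by
  refine gr_adjoin _ ?_
  rintro f (hf | ⟨a, b, -, rfl⟩)
  · exact ⟨_, _, hf⟩
  · exact ⟨_, _, rfl⟩

lemma del_add (b c : B) : del σ (b + c) = del σ b + del σ c := by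
  unfold del; rw [map_add]; ring

lemma del_mul (b c : B) : del σ (b * c) = del σ b * c + b * del σ c + del σ b * del σ c := by
  unfold del; rw [map_mul]; ring

lemma del_zero : del σ 0 = 0 := by unfold del; rw [map_zero, sub_zero]

lemma del_algebraMap (r : k) : del σ (algebraMap k B r) = 0 := by
  unfold del; rw [AlgEquiv.commutes, sub_self]

lemma del_iter_add (n : ℕ) (b c : B) : (del σ)^[n] (b + c) = (del σ)^[n] b + (del σ)^[n] c := by
  induction n generalizing b c with
  | zero => rfl
  | succ n ih => rw [Function.iterate_succ_apply, Function.iterate_succ_apply,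
      Function.iterate_succ_apply, del_add, ih]

lemma del_iter_zero (n : ℕ) : (del σ)^[n] 0 = 0 := by
  induction n with
  | zero => rfl
  | succ n ih => rw [Function.iterate_succ_apply, del_zero, ih]

/-- In characteristic `p` the `p`-th power of the difference operator of an automorphism of
order `p` is zero. -/
lemma del_iter_p (hp : p.Prime) (hpk : (p : k) = 0) (hσ : ∀ b, σ^[p] b = b) (b : B) :
    (del σ)^[p] b = 0 := by
  have hchar : CharP k p := (CharP.charP_iff_prime_eq_zero hp).2 hpk
  have : Fact p.Prime := ⟨hp⟩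
  let E : Module.End k B := (σ : B →ₐ[k] B).toLinearMap
  have hE : ∀ (n : ℕ) (x : B), (E ^ n) x = σ^[n] x := by
    intro n x
    rw [Module.End.pow_apply]
    rfl
  have hdel : ∀ (n : ℕ) (x : B), ((E - 1) ^ n) x = (del σ)^[n] x := by
    intro n x
    rw [Module.End.pow_apply]
    rfl
  have h1 : (Polynomial.X - 1 : Polynomial k) ^ p = Polynomial.X ^ p - 1 := by
    rw [sub_pow_char, one_pow]
  have h2 := congrArg (Polynomial.aeval E) h1
  rw [map_pow, map_sub, map_sub, map_pow, Polynomial.aeval_X, map_one] at h2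
  have h3 := congrArg (fun f : Module.End k B => f b) h2
  simp only [LinearMap.sub_apply, Module.End.one_apply] at h3
  rw [hdel, hE, hσ, sub_self] at h3
  exact h3

include hτ in
lemma tl_del (a : ℕ) (b : B) : Dl τ (hm a (gB ((del σ)^[a] b))) =
    hm ((a + 1 : ℕ) : ℤ) (gB ((del σ)^[a + 1] b)) := by
  rw [Dl_hm, hτ, ← map_sub, Function.iterate_succ_apply']
  push_cast
  rfl

include hτ in
/-- The Rees algebra is stable under the automorphism and the difference operator. -/
lemma sR_stable (hδ : ∀ b, (del σ)^[p] b = 0) {f : LP L} (hf : f ∈ sR gB σ p) :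
    tl τ f ∈ sR gB σ p ∧ Dl τ f ∈ sR gB σ p := by
  have key : ∀ f ∈ sR gB σ p, Dl τ f ∈ sR gB σ p := by
    intro f hf
    have hf' := hf
    unfold sR at hf
    induction hf using Algebra.adjoin_induction with
    | mem f hf =>
      rcases hf with hf | ⟨a, b, ha, rfl⟩
      · rw [hf, Dl_hm, map_one, sub_self, hm_zero]; exact Subalgebra.zero_mem _
      · rw [tl_del gB σ τ hτ]
        rcases Nat.lt_or_ge (a + 1) p with h | h
        · exact sR_del gB σ p h b
        · have h1 : a + 1 = p := by omega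
          rw [h1, hδ, map_zero, hm_zero]
          exact Subalgebra.zero_mem _
    | algebraMap r =>
      rw [algebraMap_LP, Dl_hm, AlgEquiv.commutes, sub_self, hm_zero]
      exact Subalgebra.zero_mem _
    | add x y hx' hy' hx hy =>
      rw [Dl_add]
      exact Subalgebra.add_mem _ (hx hx') (hy hy')
    | mul x y hx' hy' hx hy =>
      rw [Dl_mul]
      exact Subalgebra.add_mem _ (Subalgebra.add_mem _ (Subalgebra.mul_mem _ (hx hx') hy')
        (Subalgebra.mul_mem _ hx' (hy hy')))
        (Subalgebra.mul_mem _ (Subalgebra.mul_mem _ (sR_T gB σ p) (hx hx')) (hy hy'))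
  refine ⟨?_, key f hf⟩
  rw [tl_eq_Dl]
  exact Subalgebra.add_mem _ hf (Subalgebra.mul_mem _ (sR_T gB σ p) (key f hf))

/-- The subalgebra of Laurent polynomials with coefficients in a subalgebra. -/
def cfSub (R : Subalgebra k L) : Subalgebra k (LP L) where
  carrier := {f | ∀ d, f.coeff d ∈ R}
  mul_mem' := by
    intro f g hf hg d
    rw [eq_sum_hm f, Finset.sum_mul, AddMonoidAlgebra.coeff_sum, Finsupp.finsetSum_apply]
    refine R.sum_mem fun a _ => ?_
    rw [coeff_hm_mul]
    exact R.mul_mem (hf a) (hg _)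
  add_mem' := by
    intro f g hf hg d
    rw [AddMonoidAlgebra.coeff_add, Finsupp.add_apply]
    exact R.add_mem (hf d) (hg d)
  algebraMap_mem' := by
    intro r d
    rw [algebraMap_LP, coeff_hm]
    split_ifs
    · exact R.algebraMap_mem r
    · exact R.zero_mem

lemma sR_coeff {f : LP L} (hf : f ∈ sR gB σ p) (d : ℤ) : ∃ b, f.coeff d = gB b := by
  have h1 : sR gB σ p ≤ cfSub gB.range := by
    unfold sR
    rw [Algebra.adjoin_le_iff]
    rintro f (hf | ⟨a, b, -, rfl⟩) d
    · rw [hf, coeff_hm]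
      split_ifs
      · exact Subalgebra.one_mem _
      · exact Subalgebra.zero_mem _
    · rw [coeff_hm]
      split_ifs
      · exact ⟨_, rfl⟩
      · exact Subalgebra.zero_mem _
  obtain ⟨b, hb⟩ := h1 hf d
  exact ⟨b, hb.symm⟩

/-- Finitely many generators of the Rees algebra. -/
lemma sR_eq_adjoin (hδ : ∀ b, (del σ)^[p] b = 0) (s : Set B) (hs : Algebra.adjoin k s = ⊤) :
    sR gB σ p ≤ Algebra.adjoin k ({hm (-1) 1} ∪
      {f | ∃ (a : ℕ), ∃ b ∈ s, a < p ∧ f = hm a (gB ((del σ)^[a] b))}) := by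
  set G := Algebra.adjoin k ({hm (-1) 1} ∪
      {f | ∃ (a : ℕ), ∃ b ∈ s, a < p ∧ f = hm a (gB ((del σ)^[a] b))}) with hG
  have hT : hm (-1) 1 ∈ G := Algebra.subset_adjoin (Or.inl rfl)
  have hbig : ∀ a, p ≤ a → ∀ b, (del σ)^[a] b = 0 := by
    intro a ha b
    obtain ⟨c, rfl⟩ := Nat.exists_eq_add_of_le ha
    rw [add_comm, Function.iterate_add_apply, hδ, del_iter_zero]
  let P : ℕ → B → Prop := fun j b => ∀ a : ℕ, hm (((a + j : ℕ)) : ℤ) (gB ((del σ)^[a] b)) ∈ G
  have hPd : ∀ j b, P j b → P (j + 1) (del σ b) := by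
    intro j b h a
    have h1 := h (a + 1)
    rw [Function.iterate_succ_apply] at h1
    have e : a + (j + 1) = a + 1 + j := by ring
    rw [e]
    exact h1
  have hmulP : ∀ (a j l : ℕ) (b c : B), P j b → P l c →
      hm (((a + j + l : ℕ)) : ℤ) (gB ((del σ)^[a] (b * c))) ∈ G := by
    intro a
    induction a with
    | zero =>
      intro j l b c hb hc
      have h1 := hb 0
      have h2 := hc 0
      simp only [Function.iterate_zero, id_eq, zero_add] at h1 h2 ⊢
      have h3 := G.mul_mem h1 h2
      rw [hm_mul, ← map_mul] at h3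
      push_cast
      exact h3
    | succ a ih =>
      intro j l b c hb hc
      rw [Function.iterate_succ_apply, del_mul, del_iter_add, del_iter_add, map_add, map_add,
        hm_add, hm_add]
      refine G.add_mem (G.add_mem ?_ ?_) ?_
      · have h1 := ih (j + 1) l _ _ (hPd j b hb) hc
        have e : a + (j + 1) + l = a + 1 + j + l := by ring
        rwa [e] at h1
      · have h1 := ih j (l + 1) _ _ hb (hPd l c hc)
        have e : a + j + (l + 1) = a + 1 + j + l := by ring
        rwa [e] at h1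
      · have h1 := G.mul_mem hT (ih (j + 1) (l + 1) _ _ (hPd j b hb) (hPd l c hc))
        rw [hm_mul, one_mul] at h1
        have e : (-1 : ℤ) + ((a + (j + 1) + (l + 1) : ℕ) : ℤ) = ((a + 1 + j + l : ℕ) : ℤ) := by
          push_cast; ring
        rwa [e] at h1
  have hall : ∀ b, P 0 b := by
    intro b
    have hb : b ∈ Algebra.adjoin k s := by rw [hs]; trivial
    induction hb using Algebra.adjoin_induction with
    | mem b hb =>
      intro a
      rcases Nat.lt_or_ge a p with h | h
      · exact Algebra.subset_adjoin (Or.inr ⟨a, b, hb, h, rfl⟩)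
      · rw [hbig a h, map_zero, hm_zero]; exact G.zero_mem
    | algebraMap r =>
      intro a
      cases a with
      | zero =>
        rw [Function.iterate_zero, id_eq, AlgHom.commutes]
        exact G.algebraMap_mem r
      | succ a =>
        rw [Function.iterate_succ_apply, del_algebraMap, del_iter_zero, map_zero, hm_zero]
        exact G.zero_mem
    | add x y _ _ hx hy =>
      intro a
      rw [del_iter_add, map_add, hm_add]
      exact G.add_mem (hx a) (hy a)
    | mul x y _ _ hx hy =>
      intro a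
      exact hmulP a 0 0 x y hx hy
  unfold sR
  rw [Algebra.adjoin_le_iff]
  rintro f (hf | ⟨a, b, -, rfl⟩)
  · rw [hf]; exact hT
  · exact hall b a

end rees

end Pool.Agent.H920R2
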