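import Pool.Agent.H920R2.Fol1
import Pool.Agent.H920R2.Sig2

set_option autoImplicit false
set_option linter.unusedSectionVars false

open AlgebraicGeometry CategoryTheory

universe u v

namespace Pool.Agent.H920R2

section cover

variable {k A B K : Type u} [Field k] [CommRing A] [IsDomain A] [Algebra k A] [CommRing B]
  [Algebra k B] [Field K] [Algebra k K] {g : A →ₐ[k] K} {gB : B →ₐ[k] K}
  {R F : Subalgebra k (LP K)} {T : Type u}
    {e : T → ℕ} {η : T → K} {hR : ∀ t, hm (e t) (η t) ∈ R}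

/-- A cover gives an atlas. -/
theorem atlas_of_cover [Finite T] (h : Cover g gB R F e η hR) :
    ∃ (ρ : ℕ) (H : T → K),
      Atlas g ρ (fun t => loc R (hm (e t) (η t)) (hR t) ⊓ F) H := by
  classical
  have hTf : Fintype T := Fintype.ofFinite T
  let E : ℕ := ∏ t, e t
  have hE0 : 0 < E := Finset.prod_pos fun j _ => h.epos j
  have hq : ∀ t, E / e t * e t = E := fun t =>
    Nat.div_mul_cancel (Finset.dvd_prod_of_mem e (Finset.mem_univ t))
  have hq1 : ∀ t, 1 ≤ E / e t := by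
    intro t
    rcases Nat.eq_zero_or_pos (E / e t) with h1 | h1
    · have := hq t
      rw [h1, zero_mul] at this
      omega
    · exact h1
  let H : T → K := fun t => η t ^ (E / e t)
  have hH0 : ∀ t, H t ≠ 0 := fun t => pow_ne_zero _ (h.η0 t)
  have hκ : ∀ t, hm (e t) (η t) ^ (E / e t) = hm E (H t) := by
    intro t
    rw [hm_pow]
    congr 1
    exact_mod_cast hq t
  have hFpow : ∀ t, hm E (H t) ∈ F := fun t => by rw [← hκ]; exact F.pow_mem (h.hF t) _
  have hFrt : ∀ t t', hm 0 (H t' / H t) ∈ F := by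
    intro t t'
    have h1 := F.mul_mem (hFpow t') (h.invF _ _ (hFpow t))
    rw [hm_mul, add_neg_cancel, ← div_eq_mul_inv] at h1
    exact h1
  have hFη : ∀ t, hm 0 (η t) ∈ F := by
    intro t
    have h1 := F.mul_mem (h.hF t) (F.pow_mem h.sF (e t))
    rw [hm_pow, hm_mul, one_pow, mul_one] at h1
    have h2 : (e t : ℤ) + (e t : ℤ) * -1 = 0 := by ring
    rwa [h2] at h1
  have hηg : ∀ t, ∃ a, η t = g a := by
    intro t
    obtain ⟨b, hb⟩ := h.cR _ (hR t) (e t)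
    rw [coeff_hm_same] at hb
    obtain ⟨a, ha⟩ := h.gBA b (by rw [← hb]; exact hFη t)
    exact ⟨a, by rw [hb, ha]⟩
  have htr : ∀ t t' : T, hm (e t) (η t) ^ (E / e t) * hm 0 (H t' / H t) =
        hm (e t') (η t') ^ (E / e t') := by
    intro t t'
    rw [hκ, hκ, hm_mul, add_zero, mul_div_cancel₀ _ (hH0 t)]
  refine ⟨Finset.univ.sup e, H, hH0, ?_, h.sm, ?_, ?_, ?_, ?_, ?_, ?_, ?_, ?_⟩
  · intro t
    obtain ⟨a, ha⟩ := hηg t
    refine ⟨a ^ (E / e t), ?_⟩
    rw [map_pow, ← ha]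
  · intro t
    exact gr_inf (gr_loc h.grR (h.η0 t) _) h.grF
  · intro t
    exact ⟨le_loc _ _ _ h.sR, h.sF⟩
  · intro t
    refine ⟨e t, h.epos t, Finset.le_sup (Finset.mem_univ t), η t, h.η0 t,
      ⟨le_loc _ _ _ (hR t), h.hF t⟩, ⟨?_, h.invF _ _ (h.hF t)⟩⟩
    refine inv_mem_loc _ _ _ _ ?_
    rw [hm_mul, add_neg_cancel, mul_inv_cancel₀ (h.η0 t), hm_one]
  · intro t a
    refine ⟨le_loc _ _ _ ?_, h.gF a⟩
    obtain ⟨b, hb⟩ := h.gAB a
    rw [hb]
    exact h.bR b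
  · intro t t'
    refine ⟨⟨E / e t, ?_⟩, hFrt t t'⟩
    rw [htr]
    exact R.pow_mem (hR t') _
  · rintro t t' f ⟨⟨m, hm'⟩, hf⟩
    refine ⟨m, ⟨E / e t * m, ?_⟩, F.mul_mem (F.pow_mem (hFrt t t') _) hf⟩
    obtain ⟨c, hc⟩ := Nat.exists_eq_add_of_le (hq1 t')
    have h1 : hm (e t) (η t) ^ (E / e t * m) * (hm 0 (H t' / H t) ^ m * f) =
        hm (e t') (η t') ^ (c * m) * (hm (e t') (η t') ^ m * f) := by
      rw [pow_mul, ← mul_assoc, ← mul_pow, htr, hc, pow_add, pow_one, mul_pow, ← pow_mul]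
      ring
    rw [h1]
    exact R.mul_mem (R.pow_mem (hR t') _) hm'
  · rintro t x ⟨⟨m, hm'⟩, hx⟩
    obtain ⟨a, ha⟩ := hηg t
    rw [hm_pow, hm_mul, add_zero] at hm'
    obtain ⟨b, hb⟩ := h.cR _ hm' (m * e t)
    rw [coeff_hm_same] at hb
    obtain ⟨a', ha'⟩ := h.gBA b (by
      rw [← hb]
      have h1 := F.mul_mem (F.pow_mem (hFη t) m) hx
      rw [hm_pow, hm_mul, mul_zero, add_zero] at h1
      exact h1)
    obtain ⟨c, hc⟩ := Nat.exists_eq_add_of_le (hq1 t)
    refine ⟨m, a ^ (c * m) * a', ?_⟩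
    change (η t ^ (E / e t)) ^ m * x = _
    rw [map_mul, map_pow, ← ha, ha', ← hb, hc, pow_add, pow_one, mul_pow, ← pow_mul]
    ring
  · intro V hV
    obtain ⟨t, ht⟩ := cover_cv h V (h.int V hV)
    exact ⟨t, fun x hx => ht x hx.1⟩

/-- A cover gives a resolution. -/
theorem hasResolution_of_cover [Finite T] (h : Cover g gB R F e η hR) :
    HasResolution (X := Spec (CommRingCat.of A))
      (Spec.map (CommRingCat.ofHom (algebraMap k A))) := by
  obtain ⟨ρ, H, hA⟩ := atlas_of_cover h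
  exact hasResolution_of_atlas_gen h.inj ρ hA

end cover

end Pool.Agent.H920R2
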