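import Pool.Agent.H920R2.Act

set_option autoImplicit false

open AlgebraicGeometry CategoryTheory

universe u

namespace Pool.Agent.H920R2

variable (F : Type) [Field F] (k : Type u) [Field k] [Algebra F k] (n m : ℕ)
  (G : Subgroup (Matrix.GeneralLinearGroup (Fin n) F))

/-- The quotient `𝔸^{nm} / G`, that is the spectrum of the ring of invariants. -/
noncomputable def quot : Scheme.{u} := Spec (CommRingCat.of (invariants F k n m G))

/-- The structure morphism of the quotient. -/
noncomputable def quotStr : quot F k n m G ⟶ Spec (CommRingCat.of k) :=
  Spec.map (CommRingCat.ofHom (algebraMap k (invariants F k n m G)))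

/-- The `k`-scheme `X` with structure morphism `f` is a variety: it is integral, separated and
of finite type. -/
def IsVariety {k : Type u} [Field k] {X : Scheme.{u}} (f : X ⟶ Spec (CommRingCat.of k)) :
    Prop :=
  AlgebraicGeometry.IsIntegral X ∧ AlgebraicGeometry.IsSeparated f ∧
    AlgebraicGeometry.LocallyOfFiniteType f ∧ AlgebraicGeometry.QuasiCompact f

lemma quot_isVariety [Finite F] : IsVariety (quotStr F k n m G) := by
  have : Fintype F := Fintype.ofFinite F
  refine ⟨?_, ?_, ?_, ?_⟩
  · unfold quot; infer_instance
  · unfold quotStr quot; infer_instance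
  · unfold quotStr quot
    rw [HasRingHomProperty.Spec_iff (P := @LocallyOfFiniteType)]
    have h := finiteType_invariants k m G
    exact RingHom.finiteType_algebraMap.2 h
  · unfold quotStr quot; infer_instance

end Pool.Agent.H920R2
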