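import Pool.Agent.H920R2.Up2
import Pool.Agent.H920R2.Quot

set_option autoImplicit false

open MvPolynomial AlgebraicGeometry CategoryTheory

universe u v

namespace Pool.Agent.H920R2

section congr

variable {k : Type u} [Field k] {A A' : Type u} [CommRing A] [CommRing A'] [Algebra k A]
  [Algebra k A']

/-- The property of having a resolution is invariant under isomorphism. -/
theorem hasResolution_congr (e : A ≃ₐ[k] A')
    (h : HasResolution (X := Spec (CommRingCat.of A))
      (Spec.map (CommRingCat.ofHom (algebraMap k A)))) :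
    HasResolution (X := Spec (CommRingCat.of A'))
      (Spec.map (CommRingCat.ofHom (algebraMap k A'))) := by
  obtain ⟨Y, π, h1, h2, h3, U, h4, h5⟩ := h
  let φ : Spec (CommRingCat.of A) ≅ Spec (CommRingCat.of A') :=
    Scheme.Spec.mapIso (RingEquiv.toCommRingCatIso e.symm.toRingEquiv).op.symm.symm
  have hφ : φ.hom ≫ Spec.map (CommRingCat.ofHom (algebraMap k A')) =
      Spec.map (CommRingCat.ofHom (algebraMap k A)) := by
    change Spec.map (CommRingCat.ofHom (e.symm : A' →+* A)) ≫
      Spec.map (CommRingCat.ofHom (algebraMap k A')) = _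
    rw [← Spec.map_comp]
    congr 1
    ext x
    exact e.symm.commutes x
  obtain ⟨U', rfl⟩ : ∃ U' : (Spec (CommRingCat.of A')).Opens, φ.hom ⁻¹ᵁ U' = U := by
    refine ⟨φ.inv ⁻¹ᵁ U, ?_⟩
    rw [← Scheme.Hom.comp_preimage, φ.hom_inv_id]
    rfl
  refine ⟨Y, π ≫ φ.hom, h1, inferInstance, ?_, U', ?_, ?_⟩
  · rw [Category.assoc, hφ]; exact h3
  · have hs : (U' : Set (Spec (CommRingCat.of A'))) =
        φ.hom.homeomorph '' (φ.hom ⁻¹ᵁ U' : (Spec (CommRingCat.of A)).Opens) := by
      ext y
      constructor
      · intro hy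
        obtain ⟨x, rfl⟩ := φ.hom.homeomorph.surjective y
        exact ⟨x, hy, rfl⟩
      · rintro ⟨x, hx, rfl⟩
        exact hx
    rw [hs]
    exact φ.hom.homeomorph.surjective.denseRange.dense_image
      φ.hom.homeomorph.continuous h4
  · rw [morphismRestrict_comp]
    have h6 : IsIso (φ.hom ∣_ U') := inferInstance
    exact @IsIso.comp_isIso _ _ _ _ _ _ _ h5 h6

theorem hasResolution_of_smooth [IsDomain A] [Algebra.Smooth k A] :
    HasResolution (X := Spec (CommRingCat.of A))
      (Spec.map (CommRingCat.ofHom (algebraMap k A))) := by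
  refine ⟨Spec (CommRingCat.of A), 𝟙 _, inferInstance, inferInstance, ?_, ⊤, ?_, ?_⟩
  · rw [Category.id_comp, HasRingHomProperty.Spec_iff (P := @Smooth.{u})]
    exact RingHom.smooth_algebraMap.2 inferInstance
  · exact dense_univ
  · infer_instance

end congr

section equalizer

variable {k : Type u} [Field k] {A A' : Type v} [CommRing A] [CommRing A'] [Algebra k A]
  [Algebra k A']

/-- Isomorphism of rings of invariants. -/
noncomputable def fixedEquiv (φ : A ≃ₐ[k] A') (s : A ≃ₐ[k] A) (t : A' →ₐ[k] A')
    (h : ∀ a, φ (s a) = t (φ a)) :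
    fixedAlg s ≃ₐ[k] AlgHom.equalizer t (AlgHom.id k A') :=
  (φ.subalgebraMap (fixedAlg s)).trans (Subalgebra.equivOfEq _ _ (by
    ext b
    rw [AlgHom.mem_equalizer]
    constructor
    · rintro ⟨a, ha, rfl⟩
      have ha' : s a = a := mem_fixedAlg.1 ha
      change t (φ a) = φ a
      rw [← h, ha']
    · intro hb
      refine ⟨φ.symm b, ?_, φ.apply_symm_apply b⟩
      change φ.symm b ∈ fixedAlg s
      rw [mem_fixedAlg]
      apply φ.injective
      rw [h, φ.apply_symm_apply]
      exact hb))

end equalizer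

section ft

variable {k : Type u} [Field k] {B : Type v} [CommRing B] [Algebra k B]

lemma finiteType_fixedAlg [Algebra.FiniteType k B] (σ : B ≃ₐ[k] B) (n : ℕ) (hn : 0 < n)
    (hσ : ∀ b, σ^[n] b = b) : Algebra.FiniteType k (fixedAlg σ) := by
  have h1 := isIntegral_fixedAlg σ n hn hσ
  have h2 : Algebra.FiniteType (fixedAlg σ) B := by
    apply Algebra.FiniteType.of_restrictScalars_finiteType k
  have h3 : Module.Finite (fixedAlg σ) B := Algebra.IsIntegral.finite
  refine ⟨?_⟩
  refine fg_of_fg_of_fg k (fixedAlg σ) B ?_ h3.1 ?_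
  · exact (inferInstance : Algebra.FiniteType k B).1
  · exact Subtype.val_injective

lemma isVariety_spec {k A : Type u} [Field k] [CommRing A] [IsDomain A] [Algebra k A]
    [Algebra.FiniteType k A] :
    IsVariety (X := Spec (CommRingCat.of A))
      (Spec.map (CommRingCat.ofHom (algebraMap k A))) := by
  refine ⟨inferInstance, inferInstance, ?_, inferInstance⟩
  rw [HasRingHomProperty.Spec_iff (P := @LocallyOfFiniteType)]
  exact RingHom.finiteType_algebraMap.2 inferInstance

end ft

section lin

variable {k : Type u} [Field k] {S T U : Type} [Fintype S] [Fintype T] [Fintype U]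
  [DecidableEq S] [DecidableEq T] [DecidableEq U]

/-- The linear form with given coefficients. -/
noncomputable def lf : (S → k) →ₗ[k] MvPolynomial S k :=
  Fintype.linearCombination k (X : S → MvPolynomial S k)

omit [DecidableEq S] in
lemma lf_apply (w : S → k) : lf w = ∑ i, C (w i) * (X i : MvPolynomial S k) := by
  unfold lf
  rw [Fintype.linearCombination_apply]
  exact Finset.sum_congr rfl fun i _ => by rw [smul_eq_C_mul]

lemma lf_single (i : S) : lf (Pi.single i 1 : S → k) = X i := by
  unfold lf
  rw [Fintype.linearCombination_apply_single, one_smul]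

/-- The algebra morphism given by a linear map. -/
noncomputable def pm (E : (S → k) →ₗ[k] (T → k)) : MvPolynomial S k →ₐ[k] MvPolynomial T k :=
  aeval fun i => lf (E (Pi.single i 1))

omit [Fintype S] [DecidableEq T] in
lemma pm_X (E : (S → k) →ₗ[k] (T → k)) (i : S) : pm E (X i) = lf (E (Pi.single i 1)) :=
  aeval_X _ _

omit [DecidableEq T] in
lemma pm_lf (E : (S → k) →ₗ[k] (T → k)) (w : S → k) : pm E (lf w) = lf (E w) := by
  have h : (pm E).toLinearMap ∘ₗ lf = lf ∘ₗ E := by
    refine (Pi.basisFun k S).ext fun i => ?_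
    rw [Pi.basisFun_apply]
    change pm E (lf (Pi.single i 1)) = lf (E (Pi.single i 1))
    rw [lf_single, pm_X]
  exact congrArg (fun f => f w) h

omit [Fintype S] [DecidableEq U] in
lemma pm_comp (E : (S → k) →ₗ[k] (T → k)) (F : (T → k) →ₗ[k] (U → k)) :
    (pm F).comp (pm E) = pm (F ∘ₗ E) := by
  apply algHom_ext
  intro i
  change pm F (pm E (X i)) = pm (F ∘ₗ E) (X i)
  rw [pm_X, pm_lf, pm_X]
  rfl

lemma pm_id : pm (LinearMap.id : (S → k) →ₗ[k] (S → k)) = AlgHom.id k _ := by
  apply algHom_ext
  intro i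
  rw [pm_X, LinearMap.id_apply, lf_single]
  rfl

/-- The isomorphism of polynomial rings given by an isomorphism of vector spaces. -/
noncomputable def pme (E : (S → k) ≃ₗ[k] (T → k)) : MvPolynomial S k ≃ₐ[k] MvPolynomial T k :=
  AlgEquiv.ofAlgHom (pm E.toLinearMap) (pm E.symm.toLinearMap)
    (by rw [pm_comp, LinearEquiv.comp_coe, LinearEquiv.symm_trans_self]; exact pm_id)
    (by rw [pm_comp, LinearEquiv.comp_coe, LinearEquiv.self_trans_symm]; exact pm_id)

lemma pme_apply (E : (S → k) ≃ₗ[k] (T → k)) (b : MvPolynomial S k) :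
    pme E b = pm E.toLinearMap b := rfl

end lin

section sub

variable {k : Type u} [Field k] {n : ℕ}

/-- The substitution `X i ↦ ∑ j, M i j * X j`. -/
noncomputable def linSub (M : Matrix (Fin n) (Fin n) k) :
    MvPolynomial (Fin n) k →ₐ[k] MvPolynomial (Fin n) k :=
  aeval fun i => ∑ j, C (M i j) * X j

/-- The ring of polynomials which are fixed by the linear substitution given by `M`. -/
noncomputable def linInv (M : Matrix (Fin n) (Fin n) k) : Subalgebra k (MvPolynomial (Fin n) k) :=
  AlgHom.equalizer (linSub M) (AlgHom.id k _)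

lemma linSub_eq (M : Matrix (Fin n) (Fin n) k) : linSub M = pm M.vecMulLinear := by
  apply algHom_ext
  intro i
  rw [pm_X, lf_apply]
  unfold linSub
  rw [aeval_X]
  refine Finset.sum_congr rfl fun j _ => ?_
  rw [Matrix.vecMulLinear_apply, Matrix.single_one_vecMul]
  rfl

end sub

end Pool.Agent.H920R2
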