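import Pool.Agent.H920R2.Desc
import Pool.Agent.H920R2.Quot
import Pool.Agent.H920R2.Trans

set_option autoImplicit false
set_option linter.unusedSectionVars false

universe u v

namespace Pool.Agent.H920R2

section ker

variable {k : Type u} {Λ : Type v} [Field k] [CommRing Λ] [IsDomain Λ] [Algebra k Λ]

/-- The subalgebra of constants of a derivation. -/
def kerAlg (D : Derivation k Λ Λ) : Subalgebra k Λ where
  carrier := {x | D x = 0}
  mul_mem' := by
    intro x y hx hy
    change D (x * y) = 0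
    have hx' : D x = 0 := hx
    have hy' : D y = 0 := hy
    rw [Derivation.leibniz, hx', hy', smul_zero, smul_zero, add_zero]
  add_mem' := by
    intro x y hx hy
    change D (x + y) = 0
    have hx' : D x = 0 := hx
    have hy' : D y = 0 := hy
    rw [map_add, hx', hy', add_zero]
  algebraMap_mem' := fun r => D.map_algebraMap r

lemma mem_kerAlg {D : Derivation k Λ Λ} {x : Λ} : x ∈ kerAlg D ↔ D x = 0 := Iff.rfl

variable (D : Derivation k Λ Λ) {p : ℕ} (hp : p.Prime) (hpk : (p : k) = 0) (φ : Λ)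
  (hD : ∀ x, D^[p] x = φ * D x) (b θ θ' : Λ) (hb : D b = θ) (hθ : θ * θ' = 1)

/-- The normalized derivation. -/
noncomputable def nD (D : Derivation k Λ Λ) (θ' : Λ) : Derivation k Λ Λ := θ' • D

lemma nD_apply (x : Λ) : nD D θ' x = θ' * D x := rfl

include hθ in
lemma D_eq_nD (x : Λ) : D x = θ * nD D θ' x := by
  rw [nD_apply, ← mul_assoc, hθ, one_mul]

include hb hθ in
lemma nD_b : nD D θ' b = 1 := by
  rw [nD_apply, hb, mul_comm, hθ]

lemma nD_mem_ker {x : Λ} (hx : x ∈ kerAlg D) : nD D θ' x = 0 := by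
  rw [nD_apply, mem_kerAlg.1 hx, mul_zero]

include hθ in
lemma mem_ker_of_nD {x : Λ} (hx : nD D θ' x = 0) : x ∈ kerAlg D := by
  rw [mem_kerAlg, D_eq_nD D θ θ' hθ, hx, mul_zero]

lemma iter_add (E : Derivation k Λ Λ) (n : ℕ) (x y : Λ) : E^[n] (x + y) = E^[n] x + E^[n] y := by
  induction n generalizing x y with
  | zero => rfl
  | succ n ih => rw [Function.iterate_succ_apply, map_add, ih]; rfl

lemma iter_sub (E : Derivation k Λ Λ) (n : ℕ) (x y : Λ) : E^[n] (x - y) = E^[n] x - E^[n] y := by
  induction n generalizing x y with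
  | zero => rfl
  | succ n ih => rw [Function.iterate_succ_apply, map_sub, ih]; rfl

lemma iter_zero (E : Derivation k Λ Λ) (n : ℕ) : E^[n] 0 = 0 := by
  induction n with
  | zero => rfl
  | succ n ih => rw [Function.iterate_succ_apply, map_zero, ih]

lemma iter_const_mul (E : Derivation k Λ Λ) (n : ℕ) (c x : Λ) (hc : E c = 0) :
    E^[n] (c * x) = c * E^[n] x := by
  induction n generalizing x with
  | zero => rfl
  | succ n ih =>
    rw [Function.iterate_succ_apply, Derivation.leibniz, hc, smul_zero, add_zero, smul_eq_mul, ih]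
    rfl

include hb hθ in
lemma nD_iter_pow (j m : ℕ) : (nD D θ')^[j] (b ^ m) = (m.descFactorial j : Λ) * b ^ (m - j) := by
  induction j with
  | zero => simp
  | succ j ih =>
    rw [Function.iterate_succ_apply', ih, Derivation.leibniz, Derivation.leibniz_pow,
      nD_b D b θ θ' hb hθ, Derivation.map_natCast, smul_zero, add_zero, smul_eq_mul,
      Nat.descFactorial_succ]
    rw [nsmul_eq_mul, smul_eq_mul, mul_one, Nat.sub_sub]
    push_cast
    ring

include hθ in
/-- Expansion of the powers of a derivation by the powers of a multiple. -/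
lemma D_expand (n : ℕ) (hn : 1 ≤ n) : ∃ α : ℕ → Λ, ∀ x, D^[n] x = θ ^ n * (nD D θ')^[n] x +
    ∑ j ∈ Finset.Ico 1 n, α j * (nD D θ')^[j] x := by
  induction n, hn using Nat.le_induction with
  | base =>
    refine ⟨0, fun x => ?_⟩
    simp only [Function.iterate_one, pow_one, Finset.Ico_self, Finset.sum_empty, add_zero]
    exact D_eq_nD D θ θ' hθ x
  | succ n hn ih =>
    obtain ⟨α, hα⟩ := ih
    let E := nD D θ'
    have hDE : ∀ x, D x = θ * E x := D_eq_nD D θ θ' hθ
    let α' : ℕ → Λ := fun j => θ * E (if j < n then α j else 0) +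
      (if 2 ≤ j then θ * α (j - 1) else 0) + (if j = n then θ * E (θ ^ n) else 0)
    refine ⟨α', fun x => ?_⟩
    rw [Function.iterate_succ_apply', hα, map_add, map_sum, hDE (θ ^ n * _),
      Derivation.leibniz, smul_eq_mul, smul_eq_mul, ← Function.iterate_succ_apply' (⇑(nD D θ'))]
    have h1 : ∑ j ∈ Finset.Ico 1 n, D (α j * (nD D θ')^[j] x) =
        ∑ j ∈ Finset.Ico 1 n, θ * E (α j) * E^[j] x +
          ∑ j ∈ Finset.Ico 1 n, θ * α j * E^[j + 1] x := by
      rw [← Finset.sum_add_distrib]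
      refine Finset.sum_congr rfl fun j _ => ?_
      rw [hDE, Derivation.leibniz, smul_eq_mul, smul_eq_mul,
        ← Function.iterate_succ_apply' (⇑(nD D θ'))]
      ring
    have h2 : ∑ j ∈ Finset.Ico 1 (n + 1), α' j * E^[j] x =
        (∑ j ∈ Finset.Ico 1 (n + 1), θ * E (if j < n then α j else 0) * E^[j] x) +
        (∑ j ∈ Finset.Ico 1 (n + 1), (if 2 ≤ j then θ * α (j - 1) else 0) * E^[j] x) +
        ∑ j ∈ Finset.Ico 1 (n + 1), (if j = n then θ * E (θ ^ n) else 0) * E^[j] x := by
      rw [← Finset.sum_add_distrib, ← Finset.sum_add_distrib]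
      refine Finset.sum_congr rfl fun j _ => ?_
      change (θ * E (if j < n then α j else 0) + (if 2 ≤ j then θ * α (j - 1) else 0) +
        (if j = n then θ * E (θ ^ n) else 0)) * E^[j] x = _
      ring
    have h3 : ∑ j ∈ Finset.Ico 1 (n + 1), θ * E (if j < n then α j else 0) * E^[j] x =
        ∑ j ∈ Finset.Ico 1 n, θ * E (α j) * E^[j] x := by
      rw [Finset.sum_Ico_succ_top hn, if_neg (lt_irrefl n), map_zero, mul_zero, zero_mul, add_zero]
      refine Finset.sum_congr rfl fun j hj => ?_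
      rw [if_pos (Finset.mem_Ico.1 hj).2]
    have h4 : ∑ j ∈ Finset.Ico 1 (n + 1), (if 2 ≤ j then θ * α (j - 1) else 0) * E^[j] x =
        ∑ j ∈ Finset.Ico 1 n, θ * α j * E^[j + 1] x := by
      rw [Finset.sum_eq_sum_Ico_succ_bot (by omega : 1 < n + 1), if_neg (by omega), zero_mul,
        zero_add]
      rw [← Finset.sum_Ico_add' (fun j => (if 2 ≤ j then θ * α (j - 1) else 0) * E^[j] x) 1 n 1]
      refine Finset.sum_congr rfl fun j hj => ?_
      have := (Finset.mem_Ico.1 hj).1
      rw [if_pos (by omega), Nat.add_sub_cancel]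
    have h5 : ∑ j ∈ Finset.Ico 1 (n + 1), (if j = n then θ * E (θ ^ n) else 0) * E^[j] x =
        θ * E (θ ^ n) * E^[n] x := by
      rw [Finset.sum_eq_single n]
      · rw [if_pos rfl]
      · intro j _ hj
        rw [if_neg hj, zero_mul]
      · intro h
        exact absurd (Finset.mem_Ico.2 ⟨hn, by omega⟩) h
    change _ + ∑ j ∈ Finset.Ico 1 n, D (α j * (nD D θ')^[j] x) = _ +
      ∑ j ∈ Finset.Ico 1 (n + 1), α' j * E^[j] x
    rw [h1, h2, h3, h4, h5]
    change θ * (θ ^ n * E^[n.succ] x + E^[n] x * E (θ ^ n)) + _ = _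
    ring

lemma cast_ne_of_lt (hp : p.Prime) (hpk : (p : k) = 0) {m : ℕ} (hm : m < p) :
    (m.factorial : Λ) ≠ 0 := by
  have hchar : CharP k p := (CharP.charP_iff_prime_eq_zero hp).2 hpk
  intro h
  have h1 : algebraMap k Λ (m.factorial : k) = algebraMap k Λ 0 := by
    rw [map_natCast, map_zero]; exact h
  have h2 := (algebraMap k Λ).injective h1
  have h3 := (CharP.cast_eq_zero_iff k p _).1 h2
  have := (hp.dvd_factorial).1 h3
  omega

include hp hpk hD hb hθ in
/-- The normalized derivation of a `p`-closed derivation has vanishing `p`-th power. -/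
lemma nD_iter_p (x : Λ) : (nD D θ')^[p] x = 0 := by
  classical
  obtain ⟨α, hα⟩ := D_expand D θ θ' hθ p hp.one_lt.le
  have hθp : θ' ^ p * θ ^ p = 1 := by rw [← mul_pow, mul_comm θ', hθ, one_pow]
  let a : ℕ → Λ := fun j => θ' ^ p * ((if j = 1 then φ * θ else 0) - α j)
  have ha : ∀ x, (nD D θ')^[p] x = ∑ j ∈ Finset.Ico 1 p, a j * (nD D θ')^[j] x := by
    intro x
    have h1 := hα x
    rw [hD, D_eq_nD D θ θ' hθ x] at h1
    have h2 : ∑ j ∈ Finset.Ico 1 p, a j * (nD D θ')^[j] x =
        θ' ^ p * (φ * (θ * nD D θ' x) - ∑ j ∈ Finset.Ico 1 p, α j * (nD D θ')^[j] x) := by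
      have h3 : φ * (θ * nD D θ' x) =
          ∑ j ∈ Finset.Ico 1 p, (if j = 1 then φ * θ else 0) * (nD D θ')^[j] x := by
        rw [Finset.sum_eq_single 1]
        · rw [if_pos rfl, Function.iterate_one]; ring
        · intro j _ hj
          rw [if_neg hj, zero_mul]
        · intro h
          exact absurd (Finset.mem_Ico.2 ⟨le_rfl, hp.one_lt⟩) h
      rw [h3, ← Finset.sum_sub_distrib, Finset.mul_sum]
      refine Finset.sum_congr rfl fun j _ => ?_
      change θ' ^ p * ((if j = 1 then φ * θ else 0) - α j) * _ = _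
      ring
    rw [h2, h1, add_sub_cancel_right, ← mul_assoc, hθp, one_mul]
  have ha0 : ∀ m, 1 ≤ m → m < p → a m = 0 := by
    intro m
    induction m using Nat.strong_induction_on with
    | _ m ih =>
      intro hm hmp
      have h1 := ha (b ^ m)
      rw [nD_iter_pow D b θ θ' hb hθ, Nat.descFactorial_eq_zero_iff_lt.2 hmp, Nat.cast_zero,
        zero_mul, Finset.sum_eq_single m] at h1
      · rw [nD_iter_pow D b θ θ' hb hθ, Nat.descFactorial_self, Nat.sub_self, pow_zero,
          mul_one] at h1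
        exact (mul_eq_zero.1 h1.symm).resolve_right (cast_ne_of_lt hp hpk hmp)
      · intro j hj hjm
        rw [Finset.mem_Ico] at hj
        rcases Nat.lt_or_gt_of_ne hjm with h2 | h2
        · rw [ih j h2 hj.1 hj.2, zero_mul]
        · rw [nD_iter_pow D b θ θ' hb hθ, Nat.descFactorial_eq_zero_iff_lt.2 h2, Nat.cast_zero,
            zero_mul, mul_zero]
      · intro h
        exact absurd (Finset.mem_Ico.2 ⟨hm, hmp⟩) h
  rw [ha]
  refine Finset.sum_eq_zero fun j hj => ?_
  rw [Finset.mem_Ico] at hj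
  rw [ha0 j hj.1 hj.2, zero_mul]

variable (R : Subalgebra k Λ) (hbR : b ∈ R) (hRD : ∀ x ∈ R, D x ∈ R) (hθR : θ' ∈ R)

include hRD hθR in
lemma nD_mem {x : Λ} (hx : x ∈ R) : nD D θ' x ∈ R := R.mul_mem hθR (hRD x hx)

include hp hpk hb hθ hbR hRD hθR in
/-- Taylor expansion. -/
lemma taylor (n : ℕ) (hn : n ≤ p) (x : Λ) (hx : x ∈ R) (h : (nD D θ')^[n] x = 0) :
    ∃ c : ℕ → Λ, (∀ i, c i ∈ R ⊓ kerAlg D) ∧ x = ∑ i ∈ Finset.range n, c i * b ^ i := by
  induction n generalizing x with
  | zero => exact ⟨0, fun i => Subalgebra.zero_mem _, by simpa using h⟩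
  | succ n ih =>
    have hnp : n < p := by omega
    have hit : ∀ (m : ℕ), (nD D θ')^[m] x ∈ R := by
      intro m
      induction m with
      | zero => exact hx
      | succ m ihm => rw [Function.iterate_succ_apply']; exact nD_mem D θ' R hRD hθR ihm
    have hfac : (n.factorial : k) ≠ 0 := by
      intro h0
      apply cast_ne_of_lt (Λ := Λ) hp hpk hnp
      rw [← map_natCast (algebraMap k Λ), h0, map_zero]
    let c : Λ := algebraMap k Λ (n.factorial : k)⁻¹ * (nD D θ')^[n] x
    have hcR : c ∈ R := R.mul_mem (R.algebraMap_mem _) (hit n)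
    have hc0 : nD D θ' c = 0 := by
      change nD D θ' (algebraMap k Λ (n.factorial : k)⁻¹ * (nD D θ')^[n] x) = 0
      rw [Derivation.leibniz, Derivation.map_algebraMap, smul_zero, add_zero,
        ← Function.iterate_succ_apply' (⇑(nD D θ')), h, smul_zero]
    have hck : c ∈ kerAlg D := mem_ker_of_nD D θ θ' hθ hc0
    have h1 : (nD D θ')^[n] (x - c * b ^ n) = 0 := by
      rw [iter_sub, iter_const_mul _ _ _ _ hc0, nD_iter_pow D b θ θ' hb hθ,
        Nat.descFactorial_self, Nat.sub_self, pow_zero, mul_one]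
      change (nD D θ')^[n] x - algebraMap k Λ (n.factorial : k)⁻¹ * (nD D θ')^[n] x *
        (n.factorial : Λ) = 0
      have h2 : (n.factorial : Λ) = algebraMap k Λ (n.factorial : k) := by rw [map_natCast]
      rw [h2, mul_comm, ← mul_assoc, ← map_mul, mul_inv_cancel₀ hfac, map_one, one_mul, sub_self]
    obtain ⟨c', hc', hx'⟩ := ih (by omega) (x - c * b ^ n)
      (R.sub_mem hx (R.mul_mem hcR (R.pow_mem hbR n))) h1
    refine ⟨fun i => if i = n then c else c' i, ?_, ?_⟩
    · intro i
      dsimp only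
      split_ifs
      · exact ⟨hcR, hck⟩
      · exact hc' i
    · rw [Finset.sum_range_succ]
      dsimp only
      rw [if_pos rfl]
      have h3 : ∑ i ∈ Finset.range n, (if i = n then c else c' i) * b ^ i =
          ∑ i ∈ Finset.range n, c' i * b ^ i := by
        refine Finset.sum_congr rfl fun i hi => ?_
        rw [if_neg (Finset.mem_range.1 hi).ne]
      rw [h3, ← hx']
      ring

include hp hpk hb hθ in
/-- Uniqueness of the Taylor expansion. -/
lemma taylor_unique (n : ℕ) (hn : n ≤ p) (c : ℕ → Λ) (hc : ∀ i, c i ∈ kerAlg D)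
    (h : ∑ i ∈ Finset.range n, c i * b ^ i = 0) : ∀ i < n, c i = 0 := by
  induction n with
  | zero => intro i hi; omega
  | succ n ih =>
    have h1 : (nD D θ')^[n] (∑ i ∈ Finset.range (n + 1), c i * b ^ i) = 0 := by
      rw [h, iter_zero]
    have hsum : ∀ (s : Finset ℕ), (nD D θ')^[n] (∑ i ∈ s, c i * b ^ i) =
        ∑ i ∈ s, c i * ((i.descFactorial n : Λ) * b ^ (i - n)) := by
      classical
      intro s
      induction s using Finset.induction_on with
      | empty => rw [Finset.sum_empty, Finset.sum_empty, iter_zero]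
      | insert i s hi ih' =>
        rw [Finset.sum_insert hi, Finset.sum_insert hi, iter_add, ih',
          iter_const_mul _ _ _ _ (nD_mem_ker D θ' (hc i)), nD_iter_pow D b θ θ' hb hθ]
    rw [hsum, Finset.sum_range_succ, Finset.sum_eq_zero, zero_add, Nat.descFactorial_self,
      Nat.sub_self, pow_zero, mul_one] at h1
    · have h2 : c n = 0 :=
        (mul_eq_zero.1 h1).resolve_right (cast_ne_of_lt hp hpk (by omega))
      rw [Finset.sum_range_succ, h2, zero_mul, add_zero] at h
      intro i hi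
      rcases Nat.lt_succ_iff_lt_or_eq.1 hi with h3 | h3
      · exact ih (by omega) h i h3
      · rw [h3]; exact h2
    · intro i hi
      rw [Nat.descFactorial_eq_zero_iff_lt.2 (Finset.mem_range.1 hi), Nat.cast_zero, zero_mul,
        mul_zero]

end ker

section smooth

open Polynomial

variable {k : Type u} {Λ : Type v} [Field k] [CommRing Λ] [IsDomain Λ] [Algebra k Λ]
  (D : Derivation k Λ Λ) {p : ℕ} (hp : p.Prime) (hpk : (p : k) = 0) (φ : Λ)
  (hD : ∀ x, D^[p] x = φ * D x) (b θ θ' : Λ) (hb : D b = θ) (hθ : θ * θ' = 1)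
  (R : Subalgebra k Λ) (hbR : b ∈ R) (hRD : ∀ x ∈ R, D x ∈ R) (hθR : θ' ∈ R)

include hp hpk hD hb hθ hbR hRD hθR in
/-- Smoothness of the ring of constants of a `p`-closed derivation without zeros. -/
theorem smooth_ker (hR : Algebra.Smooth k R) : Algebra.Smooth k ↥(R ⊓ kerAlg D) := by
  classical
  set C0 : Subalgebra k Λ := R ⊓ kerAlg D with hC0
  have hchar : CharP k p := (CharP.charP_iff_prime_eq_zero hp).2 hpk
  have hbp : b ^ p ∈ C0 := by
    refine ⟨R.pow_mem hbR p, ?_⟩
    change D (b ^ p) = 0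
    rw [Derivation.leibniz_pow]
    have h1 : ((p : ℕ) : Λ) = 0 := by
      rw [← map_natCast (algebraMap k Λ), hpk, map_zero]
    rw [nsmul_eq_mul, h1, zero_mul]
  let f : C0[X] := X ^ p - C ⟨b ^ p, hbp⟩
  have hfmon : f.Monic := monic_X_pow_sub_C _ hp.ne_zero
  have hfdeg : f.natDegree = p := natDegree_X_pow_sub_C
  let ic : C0 →+* Λ := C0.val.toRingHom
  have hicinj : Function.Injective ic := Subtype.val_injective
  have hroot : eval₂ (C0.val : C0 →ₐ[k] Λ) b f = 0 := by
    change eval₂ (C0.val : C0 →+* Λ) b (X ^ p - C ⟨b ^ p, hbp⟩) = 0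
    rw [eval₂_sub, eval₂_pow, eval₂_X, eval₂_C]
    exact sub_self _
  let Φ : AdjoinRoot f →ₐ[k] Λ := AdjoinRoot.liftAlgHom f C0.val b hroot
  have hΦmk : ∀ q : C0[X], Φ (AdjoinRoot.mk f q) = eval b (q.map ic) := by
    intro q
    rw [eval_map]
    exact AdjoinRoot.liftAlgHom_mk _ _ _ _ _
  have hΦinj : Function.Injective Φ := by
    rw [injective_iff_map_eq_zero]
    intro x hx
    obtain ⟨q, rfl⟩ := AdjoinRoot.mk_surjective x
    have e1 : AdjoinRoot.mk f q = AdjoinRoot.mk f (q %ₘ f) := by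
      rw [AdjoinRoot.mk_eq_mk, modByMonic_eq_sub_mul_div]
      exact ⟨q /ₘ f, by ring⟩
    rw [e1, hΦmk] at hx
    have hnt : Nontrivial C0 := inferInstance
    have hdeg : (q %ₘ f).natDegree < p := by
      have h1 := natDegree_modByMonic_lt q hfmon (by
        intro h
        rw [h, natDegree_one] at hfdeg
        exact hp.ne_zero hfdeg.symm)
      rwa [hfdeg] at h1
    have hzero : q %ₘ f = 0 := by
      ext i
      rw [coeff_zero]
      by_cases hi : i < p
      · have h1 : ∑ i ∈ Finset.range p, ((q %ₘ f).coeff i : Λ) * b ^ i = 0 := by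
          rw [eval_eq_sum_range' (n := p)] at hx
          · rw [← hx]
            refine Finset.sum_congr rfl fun i _ => ?_
            rw [coeff_map]
            rfl
          · exact lt_of_le_of_lt natDegree_map_le hdeg
        have h2 := taylor_unique D hp hpk b θ θ' hb hθ p le_rfl
          (fun i => ((q %ₘ f).coeff i : Λ)) (fun i => ((q %ₘ f).coeff i).2.2) h1 i hi
        exact congrArg _ (Subtype.ext h2)
      · rw [coeff_eq_zero_of_natDegree_lt (by omega)]
    rw [e1, hzero, map_zero]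
  have hrange : Φ.range = R := by
    apply le_antisymm
    · rintro _ ⟨x, rfl⟩
      obtain ⟨q, rfl⟩ := AdjoinRoot.mk_surjective x
      change Φ _ ∈ R
      rw [hΦmk, eval_eq_sum_range]
      refine R.sum_mem fun i _ => R.mul_mem ?_ (R.pow_mem hbR i)
      rw [coeff_map]
      exact (q.coeff i).2.1
    · intro x hx
      obtain ⟨c, hc, hx'⟩ := taylor D hp hpk b θ θ' hb hθ R hbR hRD hθR p le_rfl x hx
        (nD_iter_p D hp hpk φ hD b θ θ' hb hθ x)
      refine ⟨AdjoinRoot.mk f (∑ i ∈ Finset.range p, C ⟨c i, hc i⟩ * X ^ i), ?_⟩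
      change Φ _ = x
      rw [hΦmk, hx', Polynomial.map_sum, eval_finsetSum]
      refine Finset.sum_congr rfl fun i _ => ?_
      rw [Polynomial.map_mul, Polynomial.map_pow, map_X, map_C, eval_mul, eval_C, eval_pow,
        eval_X]
      rfl
  have e : AdjoinRoot f ≃ₐ[k] Φ.range := AlgEquiv.ofInjective Φ hΦinj
  rw [hrange] at e
  have hsm : Algebra.Smooth k (AdjoinRoot f) := Algebra.Smooth.of_equiv e.symm
  have hfs : Algebra.FormallySmooth k (AdjoinRoot f) := inferInstance
  have hfs' : Algebra.FormallySmooth k C0 :=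
    formallySmooth_of_adjoinRoot hfmon (by rw [hfdeg]; exact hp.pos)
  have hft : Algebra.FiniteType k C0 := by
    have hfin : Module.Finite C0 (AdjoinRoot f) := Module.Finite.of_basis
      (AdjoinRoot.powerBasis' hfmon).basis
    have hft1 : Algebra.FiniteType k (AdjoinRoot f) := inferInstance
    refine ⟨?_⟩
    refine fg_of_fg_of_fg k C0 (AdjoinRoot f) hft1.1 hfin.1 ?_
    intro x y hxy
    have h3 := congrArg Φ hxy
    rw [AdjoinRoot.algebraMap_eq] at h3
    have h4 : ∀ x : C0, Φ (AdjoinRoot.of f x) = x := fun x =>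
      AdjoinRoot.liftAlgHom_of f C0.val b hroot x
    rw [h4, h4] at h3
    exact Subtype.ext h3
  have hfp : Algebra.FinitePresentation k C0 := Algebra.FinitePresentation.of_finiteType.1 hft
  exact ⟨hfs', hfp⟩

end smooth

end Pool.Agent.H920R2
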