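import Pool.Agent.H920R2.Gn1

set_option autoImplicit false
set_option linter.unusedSectionVars false

open TensorProduct

universe u v

namespace Pool.Agent.H920R2

section J

/-- Derivations into a quotient lift, for a formally smooth algebra. -/
theorem exists_der {k C : Type u} [CommRing k] [CommRing C] [Algebra k C]
    [Algebra.FormallySmooth k C] (Q : Ideal C) (E' : Derivation k C (C ⧸ Q)) :
    ∃ E : Derivation k C C, ∀ x, Ideal.Quotient.mk Q (E x) = E' x := by
  obtain ⟨l, hl⟩ := Module.projective_lifting_property (Submodule.mkQ Q)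
    E'.liftKaehlerDifferential (Submodule.mkQ_surjective Q)
  refine ⟨l.compDer (KaehlerDifferential.D k C), fun x => ?_⟩
  have h1 := congrArg (fun f => f (KaehlerDifferential.D k C x)) hl
  simp only [LinearMap.comp_apply] at h1
  rw [Derivation.liftKaehlerDifferential_comp_D] at h1
  exact h1

end J

section ext

variable {k K : Type u} [Field k] [Field K] [Algebra k K]

/-- Derivations extend to localizations. -/
theorem exists_der_loc {C : Subalgebra k (LP K)} {x : LP K} (hx : x ∈ C) (hu : IsUnit x)
    (E : Derivation k C C) : ∃ E' : Derivation k (loc C x hx) (loc C x hx),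
      ∀ c : C, ((E' ⟨c, le_loc C x hx c.2⟩ : loc C x hx) : LP K) = E c := by
  obtain ⟨y, hy⟩ := hu.exists_right_inv
  have hle := le_loc C x hx
  let T := loc C x hx
  let _ : Algebra C T := (Subalgebra.inclusion hle).toRingHom.toAlgebra
  have _ : IsScalarTower k C T := IsScalarTower.of_algebraMap_eq fun r => rfl
  have hmap : ∀ s : C, ((algebraMap C T s : T) : LP K) = s := fun s => rfl
  let x' : C := ⟨x, hx⟩
  have hloc : IsLocalization.Away x' T := by
    refine IsLocalization.Away.mk x' ?_ ?_ ?_
    · refine IsUnit.of_mul_eq_one ⟨y, inv_mem_loc C x y hx hy⟩ ?_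
      apply Subtype.ext
      exact hy
    · rintro ⟨f, n, hn⟩
      refine ⟨n, ⟨x ^ n * f, hn⟩, ?_⟩
      apply Subtype.ext
      change f * (algebraMap C T x' : LP K) ^ n = x ^ n * f
      rw [hmap, mul_comm]
    · intro a b hab
      refine ⟨0, ?_⟩
      have h3 : ((algebraMap C T a : T) : LP K) =
        ((algebraMap C T b : T) : LP K) := congrArg Subtype.val hab
      rw [hmap, hmap] at h3
      rw [Subtype.ext h3]
  have hfe : Algebra.FormallyEtale C T :=
    Algebra.FormallyEtale.of_isLocalization (Submonoid.powers x')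
  let l0 : Ω[C⁄k] →ₗ[C] T := (Algebra.linearMap C T) ∘ₗ E.liftKaehlerDifferential
  let l : T ⊗[C] Ω[C⁄k] →ₗ[T] T := LinearMap.liftBaseChange T l0
  let e := KaehlerDifferential.tensorKaehlerEquivOfFormallyEtale k C T
  refine ⟨(l ∘ₗ e.symm.toLinearMap).compDer (KaehlerDifferential.D k T), fun c => ?_⟩
  have h1 : (⟨c, le_loc C x hx c.2⟩ : T) = algebraMap C T c := rfl
  have h2 : ((l ∘ₗ e.symm.toLinearMap).compDer (KaehlerDifferential.D k T))
      (algebraMap C T c) = algebraMap C T (E c) := by
    change l (e.symm (KaehlerDifferential.D k T (algebraMap C T c))) = _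
    rw [KaehlerDifferential.tensorKaehlerEquivOfFormallyEtale_symm_D_algebraMap,
      LinearMap.liftBaseChange_tmul, one_smul]
    change algebraMap C T (E.liftKaehlerDifferential (KaehlerDifferential.D k C c)) = _
    rw [Derivation.liftKaehlerDifferential_comp_D]
  rw [h1, h2]
  rfl

end ext

section mk

variable {k K : Type u} [Field k] [Field K] [Algebra k K] {C : Subalgebra k (LP K)} (hgr : Gr C)

/-- Homogeneous component. -/
noncomputable def cp (d : ℤ) (x : C) : C := ⟨hm d ((x : LP K).coeff d), hgr _ x.2 d⟩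

lemma cp_add (d : ℤ) (x y : C) : cp hgr d (x + y) = cp hgr d x + cp hgr d y := by
  apply Subtype.ext
  change hm d (((x : LP K) + (y : LP K)).coeff d) = hm d _ + hm d _
  rw [AddMonoidAlgebra.coeff_add, Finsupp.add_apply, hm_add]

lemma cp_smul (d : ℤ) (r : k) (x : C) : cp hgr d (r • x) = r • cp hgr d x := by
  apply Subtype.ext
  change hm d ((r • (x : LP K)).coeff d) = r • hm d ((x : LP K).coeff d)
  rw [smul_hm]
  rfl

lemma cp_zero (d : ℤ) : cp hgr d 0 = 0 := by
  apply Subtype.ext
  change hm d ((0 : LP K).coeff d) = 0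
  rw [AddMonoidAlgebra.coeff_zero, Finsupp.zero_apply, hm_zero]

lemma cp_cp (d e : ℤ) (x : C) : cp hgr e (cp hgr d x) = if d = e then cp hgr d x else 0 := by
  apply Subtype.ext
  change hm e ((hm d ((x : LP K).coeff d)).coeff e) = _
  rw [coeff_hm]
  split_ifs with h
  · subst h; rfl
  · rw [hm_zero]; rfl

lemma cp_sum (x : C) : x = ∑ d ∈ (x : LP K).coeff.support, cp hgr d x := by
  apply Subtype.ext
  conv_lhs => rw [eq_sum_hm (x : LP K)]
  rw [AddSubmonoidClass.coe_finsetSum]
  rfl

lemma cp_eq_zero {x : C} {d : ℤ} (h : d ∉ (x : LP K).coeff.support) : cp hgr d x = 0 := by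
  apply Subtype.ext
  change hm d ((x : LP K).coeff d) = 0
  rw [Finsupp.notMem_support_iff.1 h, hm_zero]

lemma cp_mul (d m : ℤ) (x z : C) : cp hgr (d + m) (cp hgr d x * z) = cp hgr d x * cp hgr m z := by
  apply Subtype.ext
  change hm (d + m) ((hm d ((x : LP K).coeff d) * (z : LP K)).coeff (d + m)) =
    hm d ((x : LP K).coeff d) * hm m ((z : LP K).coeff m)
  rw [coeff_hm_mul, hm_mul, add_sub_cancel_left]

/-- Induction principle for additive predicates. -/
lemma gr_ind {P : C → Prop} (h0 : P 0) (hadd : ∀ x y, P x → P y → P (x + y))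
    (hhom : ∀ d x, cp hgr d x = x → P x) (x : C) : P x := by
  classical
  rw [cp_sum hgr x]
  have h1 : ∀ s : Finset ℤ, P (∑ d ∈ s, cp hgr d x) := by
    intro s
    induction s using Finset.induction_on with
    | empty => rw [Finset.sum_empty]; exact h0
    | insert d s hd ih =>
      rw [Finset.sum_insert hd]
      refine hadd _ _ (hhom d _ ?_) ih
      rw [cp_cp, if_pos rfl]
  exact h1 _

variable {M : Type u} [AddCommGroup M] [Module C M] [Module k M] [IsScalarTower k C M]
  (e : ℤ → C → M) (he0 : ∀ d, e d 0 = 0) (hadd : ∀ d x y, e d (x + y) = e d x + e d y)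
  (hsmul : ∀ d (r : k) x, e d (r • x) = r • e d x)
  (hmul : ∀ d d' x y, cp hgr d x = x → cp hgr d' y = y →
    e (d + d') (x * y) = x • e d' y + y • e d x)

include he0 in
lemma mk_sum (x : C) (s : Finset ℤ) (hs : (x : LP K).coeff.support ⊆ s) :
    ∑ d ∈ (x : LP K).coeff.support, e d (cp hgr d x) = ∑ d ∈ s, e d (cp hgr d x) := by
  refine Finset.sum_subset hs fun d _ hd => ?_
  rw [cp_eq_zero hgr hd, he0]

include hadd hsmul he0 hmul in
/-- Construction of derivations from a prescription on homogeneous elements. -/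
theorem exists_mkDer : ∃ D : Derivation k C M, ∀ d x, cp hgr d x = x → D x = e d x := by
  classical
  let D0 : C → M := fun x => ∑ d ∈ (x : LP K).coeff.support, e d (cp hgr d x)
  have hD0 : ∀ (x : C) (s : Finset ℤ), (x : LP K).coeff.support ⊆ s →
      D0 x = ∑ d ∈ s, e d (cp hgr d x) := fun x s hs => mk_sum hgr e he0 x s hs
  have hDadd : ∀ x y, D0 (x + y) = D0 x + D0 y := by
    intro x y
    let s := ((x + y : C) : LP K).coeff.support ∪ ((x : LP K).coeff.support ∪
      (y : LP K).coeff.support)
    rw [hD0 (x + y) s Finset.subset_union_left,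
      hD0 x s (Finset.subset_union_left.trans Finset.subset_union_right),
      hD0 y s (Finset.subset_union_right.trans Finset.subset_union_right),
      ← Finset.sum_add_distrib]
    refine Finset.sum_congr rfl fun d _ => ?_
    rw [cp_add, hadd]
  have hDsmul : ∀ (r : k) x, D0 (r • x) = r • D0 x := by
    intro r x
    let s := ((r • x : C) : LP K).coeff.support ∪ (x : LP K).coeff.support
    rw [hD0 (r • x) s Finset.subset_union_left, hD0 x s Finset.subset_union_right,
      Finset.smul_sum]
    refine Finset.sum_congr rfl fun d _ => ?_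
    rw [cp_smul, hsmul]
  have hDhom : ∀ d x, cp hgr d x = x → D0 x = e d x := by
    intro d x hx
    rw [hD0 x ((x : LP K).coeff.support ∪ {d}) Finset.subset_union_left,
      Finset.sum_eq_single d]
    · rw [hx]
    · intro b _ hb
      rw [← hx, cp_cp, if_neg (Ne.symm hb), he0]
    · intro h
      exact absurd (Finset.mem_union_right _ (Finset.mem_singleton_self d)) h
  have hD00 : D0 0 = 0 := by
    rw [hDhom 0 0 (cp_zero hgr 0), he0]
  have hleib : ∀ x y, D0 (x * y) = x • D0 y + y • D0 x := by
    intro x
    refine gr_ind hgr (P := fun x => ∀ y, D0 (x * y) = x • D0 y + y • D0 x) ?_ ?_ ?_ x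
    · intro y; rw [zero_mul, hD00, zero_smul, smul_zero, add_zero]
    · intro x x' hx hx' y
      rw [add_mul, hDadd, hx, hx', hDadd, add_smul, smul_add]
      abel
    · intro d x hx y
      refine gr_ind hgr (P := fun y => D0 (x * y) = x • D0 y + y • D0 x) ?_ ?_ ?_ y
      · rw [mul_zero, hD00, zero_smul, smul_zero, add_zero]
      · intro y y' hy hy'
        rw [mul_add, hDadd, hy, hy', hDadd, add_smul, smul_add]
        abel
      · intro d' y hy
        have h1 : cp hgr (d + d') (x * y) = x * y := by
          have h2 := cp_mul hgr d d' x y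
          rwa [hx, hy] at h2
        rw [hDhom _ _ h1, hDhom _ _ hx, hDhom _ _ hy]
        exact hmul d d' x y hx hy
  let D1 : C →ₗ[k] M :=
    { toFun := D0
      map_add' := hDadd
      map_smul' := hDsmul }
  exact ⟨Derivation.mk' D1 hleib, hDhom⟩

end mk

end Pool.Agent.H920R2
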