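import Pool.Agent.H920R2.Fol2
import Pool.Agent.H920R2.Fol3
import Pool.Agent.H920R2.Gn2

set_option autoImplicit false
set_option linter.unusedSectionVars false

open TensorProduct

universe u v

namespace Pool.Agent.H920R2

section frac

/-- Derivations extend to the field of fractions. -/
theorem exists_der_frac {k B : Type u} [Field k] [CommRing B] [IsDomain B] [Algebra k B]
    (E : Derivation k B B) : ∃ E' : Derivation k (FractionRing B) (FractionRing B),
      ∀ b, E' (algebraMap B (FractionRing B) b) = algebraMap B (FractionRing B) (E b) := by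
  let L := FractionRing B
  have hfe : Algebra.FormallyEtale B L :=
    Algebra.FormallyEtale.of_isLocalization (nonZeroDivisors B)
  let l0 : Ω[B⁄k] →ₗ[B] L := (Algebra.linearMap B L) ∘ₗ E.liftKaehlerDifferential
  let l : L ⊗[B] Ω[B⁄k] →ₗ[L] L := LinearMap.liftBaseChange L l0
  let e := KaehlerDifferential.tensorKaehlerEquivOfFormallyEtale k B L
  refine ⟨(l ∘ₗ e.symm.toLinearMap).compDer (KaehlerDifferential.D k L), fun c => ?_⟩
  change l (e.symm (KaehlerDifferential.D k L (algebraMap B L c))) = _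
  rw [KaehlerDifferential.tensorKaehlerEquivOfFormallyEtale_symm_D_algebraMap,
    LinearMap.liftBaseChange_tmul, one_smul]
  change algebraMap B L (E.liftKaehlerDifferential (KaehlerDifferential.D k B c)) = _
  rw [Derivation.liftKaehlerDifferential_comp_D]

end frac

section tld

variable {k K : Type u} [Field k] [Field K] [Algebra k K] (E : Derivation k K K)

/-- The linear map given by a derivation of the coefficients. -/
noncomputable def tlL : LP K →ₗ[k] LP K :=
  (AddMonoidAlgebra.coeffLinearEquiv (M := ℤ) (S := K) k).symm.toLinearMap ∘ₗ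
    (Finsupp.mapRange.linearMap (E : K →ₗ[k] K)) ∘ₗ
      (AddMonoidAlgebra.coeffLinearEquiv (M := ℤ) (S := K) k).toLinearMap

lemma tlL_coeff (f : LP K) (d : ℤ) : (tlL E f).coeff d = E (f.coeff d) := rfl

lemma tlL_hm (d : ℤ) (a : K) : tlL E (hm d a) = hm d (E a) := by
  apply AddMonoidAlgebra.coeff_injective
  ext e
  rw [tlL_coeff, coeff_hm, coeff_hm]
  split_ifs
  · rfl
  · exact map_zero E

/-- The derivation of the Laurent polynomials given by a derivation of the coefficients, shifted
by `l`. -/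
noncomputable def tlD (l : ℕ) : Derivation k (LP K) (LP K) :=
  (hm (l : ℤ) (1 : K) : LP K) • Derivation.mk' (tlL E) (by
    intro x y
    have key : ∀ (d : ℤ) (a : K) (y : LP K),
        tlL E (hm d a * y) = hm d a • tlL E y + y • tlL E (hm d a) := by
      intro d a y
      apply AddMonoidAlgebra.coeff_injective
      ext e
      rw [tlL_coeff, coeff_hm_mul, tlL_hm, smul_eq_mul, smul_eq_mul, mul_comm y,
        AddMonoidAlgebra.coeff_add, Finsupp.add_apply, coeff_hm_mul, coeff_hm_mul, tlL_coeff,
        Derivation.leibniz, smul_eq_mul, smul_eq_mul]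
      ring
    have h1 : ∀ s : Finset ℤ, tlL E ((∑ d ∈ s, hm d (x.coeff d)) * y) =
        (∑ d ∈ s, hm d (x.coeff d)) • tlL E y + y • tlL E (∑ d ∈ s, hm d (x.coeff d)) := by
      classical
      intro s
      induction s using Finset.induction_on with
      | empty => simp
      | insert d s hd ih =>
        rw [Finset.sum_insert hd, add_mul, map_add, ih, key, map_add, add_smul, smul_add]
        abel
    have h2 := h1 x.coeff.support
    rwa [← eq_sum_hm] at h2)

lemma tlD_apply (l : ℕ) (f : LP K) : tlD E l f = hm l 1 * tlL E f := rfl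

lemma tlD_hm (l : ℕ) (d : ℤ) (a : K) : tlD E l (hm d a) = hm (d + l) (E a) := by
  rw [tlD_apply, tlL_hm, hm_mul, one_mul, add_comm]

lemma tlD_iter_hm (l n : ℕ) (d : ℤ) (a : K) : (tlD E l)^[n] (hm d a) =
    hm (d + n * l) (E^[n] a) := by
  induction n generalizing d a with
  | zero => simp
  | succ n ih =>
    rw [Function.iterate_succ_apply, tlD_hm, ih, Function.iterate_succ_apply]
    congr 1
    push_cast
    ring

lemma tlD_closed (l : ℕ) {p : ℕ} (hp : 1 ≤ p) (φ : K) (hE : ∀ x, E^[p] x = φ * E x) (f : LP K) :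
    (tlD E l)^[p] f = hm ((p - 1 : ℕ) * l) φ * tlD E l f := by
  have key : ∀ (d : ℤ) (a : K), (tlD E l)^[p] (hm d a) =
      hm ((p - 1 : ℕ) * l) φ * tlD E l (hm d a) := by
    intro d a
    rw [tlD_iter_hm, tlD_hm, hm_mul, hE]
    congr 1
    rw [Nat.cast_sub hp]
    push_cast
    ring
  rw [eq_sum_hm f]
  classical
  have h1 : ∀ s : Finset ℤ, (tlD E l)^[p] (∑ d ∈ s, hm d (f.coeff d)) =
      hm ((p - 1 : ℕ) * l) φ * tlD E l (∑ d ∈ s, hm d (f.coeff d)) := by
    intro s
    induction s using Finset.induction_on with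
    | empty => rw [Finset.sum_empty, iter_zero, map_zero, mul_zero]
    | insert d s hd ih => rw [Finset.sum_insert hd, iter_add, ih, key, map_add, mul_add]
  exact h1 _

lemma mem_ker_hm {l : ℕ} {d : ℤ} {a : K} : hm d a ∈ kerAlg (tlD E l) ↔ E a = 0 := by
  rw [mem_kerAlg, tlD_hm]
  constructor
  · intro h
    rw [← hm_zero (d + l)] at h
    exact hm_inj h
  · intro h
    rw [h, hm_zero]

lemma gr_kerAlg (l : ℕ) : Gr (kerAlg (tlD E l)) := by
  intro f hf d
  rw [mem_ker_hm]
  rw [mem_kerAlg, tlD_apply] at hf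
  have h1 : tlL E f = 0 := by
    have h2 : hm (-(l : ℤ)) 1 * (hm l 1 * tlL E f) = 0 := by rw [hf, mul_zero]
    rw [← mul_assoc, hm_mul, neg_add_cancel, one_mul, hm_one, one_mul] at h2
    exact h2
  rw [← tlL_coeff, h1]
  rfl

lemma kerAlg_inv {l : ℕ} {d : ℤ} {a : K} (h : hm d a ∈ kerAlg (tlD E l)) :
    hm (-d) a⁻¹ ∈ kerAlg (tlD E l) := by
  rw [mem_ker_hm] at h ⊢
  rw [Derivation.leibniz_inv, h, smul_zero]

end tld

end Pool.Agent.H920R2
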