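import Pool.Agent.H920R2.Fol4

set_option autoImplicit false
set_option linter.unusedSectionVars false

open AlgebraicGeometry CategoryTheory

universe u v

namespace Pool.Agent.H920R2

section main

variable {k B : Type u} [Field k] [CommRing B] [IsDomain B] [Algebra k B]

lemma div_eq_aux {L : Type*} [Field L] (a c : L) (hc : c ≠ 0) (n : ℕ) (hn : 1 ≤ n) :
    a / c = (c ^ n)⁻¹ * (a * c ^ (n - 1)) := by
  obtain ⟨m, rfl⟩ := Nat.exists_eq_add_of_le hn
  rw [Nat.add_sub_cancel_left, pow_add, pow_one]
  field_simp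

lemma frac_closed {p : ℕ} (hp : p.Prime) (hpk : (p : k) = 0) (E : Derivation k B B)
    (φ : FractionRing B) (hE : ∀ b, algebraMap B (FractionRing B) (E^[p] b) =
      φ * algebraMap B (FractionRing B) (E b))
    (E' : Derivation k (FractionRing B) (FractionRing B))
    (hE' : ∀ b, E' (algebraMap B (FractionRing B) b) = algebraMap B (FractionRing B) (E b))
    (x : FractionRing B) : E'^[p] x = φ * E' x := by
  let L := FractionRing B
  obtain ⟨a, c, hc, rfl⟩ := IsFractionRing.div_surjective (A := B) x
  have hc0 : algebraMap B L c ≠ 0 := IsFractionRing.to_map_ne_zero_of_mem_nonZeroDivisors hc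
  have hit : ∀ (n : ℕ) b, E'^[n] (algebraMap B L b) = algebraMap B L (E^[n] b) := by
    intro n
    induction n with
    | zero => intro b; rfl
    | succ n ih => intro b; rw [Function.iterate_succ_apply, hE', ih]; rfl
  have hpB : ((p : ℕ) : L) = 0 := by rw [← map_natCast (algebraMap k L), hpk, map_zero]
  have hcp : E' ((algebraMap B L c ^ p)⁻¹) = 0 := by
    rw [Derivation.leibniz_inv, Derivation.leibniz_pow, nsmul_eq_mul, hpB, zero_mul, smul_zero]
  have hx : algebraMap B L a / algebraMap B L c =
      (algebraMap B L c ^ p)⁻¹ * algebraMap B L (a * c ^ (p - 1)) := by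
    rw [map_mul, map_pow]
    exact div_eq_aux _ _ hc0 p hp.one_lt.le
  rw [hx, iter_const_mul _ _ _ _ hcp, hit, hE, Derivation.leibniz E', hcp, smul_zero, add_zero,
    smul_eq_mul, hE']
  ring

/-- **Resolution of quotients by `p`-closed vector fields.** Let `E` be a `p`-closed derivation of
a domain `B` over a field of characteristic `p`, and `R` a smooth weighted blowup of `B` which is
stable under `E`, up to a shift, such that the zeros of the induced derivation of `R` lie in the
vertex. Then the spectrum of the ring of constants of `E` has a resolution of singularities. -/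
theorem hasResolution_fol {p : ℕ} (hp : p.Prime) (hpk : (p : k) = 0) (E : Derivation k B B)
    (φ : FractionRing B) (hE : ∀ b, algebraMap B (FractionRing B) (E^[p] b) =
      φ * algebraMap B (FractionRing B) (E b))
    (E' : Derivation k (FractionRing B) (FractionRing B))
    (hE' : ∀ b, E' (algebraMap B (FractionRing B) b) = algebraMap B (FractionRing B) (E b))
    (R : Subalgebra k (LP (FractionRing B))) (hgr : Gr R) (hs : hm (-1) 1 ∈ R)
    (hb : ∀ b : B, hm 0 (algebraMap B (FractionRing B) b) ∈ R)
    (hc : ∀ f ∈ R, ∀ d, ∃ b : B, f.coeff d = algebraMap B (FractionRing B) b)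
    (hsm : Algebra.Smooth k R) (hpos : ∃ (d : ℕ) (a : FractionRing B), 0 < d ∧ a ≠ 0 ∧ hm d a ∈ R)
    (l : ℕ) (hD : ∀ f ∈ R, tlD E' l f ∈ R)
    (hrad : ∀ Q : Ideal R, Q.IsPrime →
      (∀ (f : LP (FractionRing B)) (hf : f ∈ R), (⟨tlD E' l f, hD f hf⟩ : R) ∈ Q) →
      ∀ (d : ℕ) (a : FractionRing B) (h : hm d a ∈ R), 0 < d → (⟨hm d a, h⟩ : R) ∈ Q) :
    HasResolution (X := Spec (CommRingCat.of (kerAlg E)))
      (Spec.map (CommRingCat.ofHom (algebraMap k (kerAlg E)))) := by
  classical
  let L := FractionRing B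
  let gB : B →ₐ[k] L := IsScalarTower.toAlgHom k B L
  have hgB : ∀ b, gB b = algebraMap B L b := fun b => rfl
  have hinj : Function.Injective gB := IsFractionRing.injective B L
  let D := tlD E' l
  let F := kerAlg D
  have hpL : ((p : ℕ) : LP L) = 0 := by
    rw [← map_natCast (algebraMap k (LP L)), hpk, map_zero]
  have hDp : ∀ f : LP L, D (f ^ p) = 0 := by
    intro f
    rw [Derivation.leibniz_pow, nsmul_eq_mul, hpL, zero_mul]
  have hclosed := tlD_closed E' l hp.one_lt.le φ (frac_closed hp hpk E φ hE E' hE')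
  have hRn : IsNoetherianRing R := Algebra.FiniteType.isNoetherianRing k R
  -- the good elements
  let S : Set R := {x | ∃ (e : ℕ) (η : L) (he : hm e η ∈ R), 0 < e ∧ η ≠ 0 ∧ x = ⟨hm e η, he⟩ ∧
    ∃ (d m : ℕ) (y : L) (d' : ℤ) (b : L), hm d y ∈ R ∧ hm d' b ∈ R ∧
      hm e η = (hm d y ^ m * D (hm d' b)) ^ p}
  have hfg : (Ideal.span S).FG := IsNoetherian.noetherian _
  obtain ⟨T0, hT0S, hT0⟩ := (Submodule.fg_span_iff_fg_span_finset_subset S).1 hfg
  let T := {x // x ∈ T0}
  choose e η he he0 hη0 hxeq d m y d' b hy hb' hprod using fun t : T => hT0S t.2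
  -- the radical condition
  have hSrad : ∀ Q : Ideal R, Q.IsPrime → S ⊆ Q → ∀ (d : ℕ) (a : L) (h : hm d a ∈ R), 0 < d →
      (⟨hm d a, h⟩ : R) ∈ Q := by
    intro Q hQ hSQ
    by_contra hcon
    push Not at hcon
    obtain ⟨d, a, hda, hd, hnQ⟩ := hcon
    apply hnQ
    refine hrad Q hQ ?_ d a hda hd
    have ha0 : a ≠ 0 := by
      intro h
      apply hnQ
      have e1 : (⟨hm d a, hda⟩ : R) = 0 := by
        apply Subtype.ext
        change hm (d : ℤ) a = 0
        rw [h, hm_zero]
      rw [e1]
      exact Q.zero_mem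
    have key : ∀ (d' : ℤ) (b : L) (hb : hm d' b ∈ R),
        (⟨D (hm d' b), hD _ hb⟩ : R) ∈ Q := by
      intro d' b hb
      by_cases hb0 : E' b = 0
      · have e1 : (⟨D (hm d' b), hD _ hb⟩ : R) = 0 := by
          apply Subtype.ext
          change D (hm d' b) = 0
          rw [tlD_hm, hb0, hm_zero]
        rw [e1]
        exact Q.zero_mem
      · let m : ℕ := (d' + l).natAbs + 1
        have hpos : 0 < (m * d + (d' + l) : ℤ) := by
          have h1 : -(((d' + l).natAbs : ℤ)) ≤ d' + l := by omega
          have h2 : (m : ℤ) = (d' + l).natAbs + 1 := by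
            change ((((d' + l).natAbs + 1 : ℕ)) : ℤ) = _
            push_cast; ring
          have h3 : (1 : ℤ) ≤ d := by exact_mod_cast hd
          nlinarith
        obtain ⟨e1, he1⟩ := Int.eq_ofNat_of_zero_le hpos.le
        have he1' : 0 < e1 := by
          have : (0 : ℤ) < e1 := by rw [← he1]; exact hpos
          exact_mod_cast this
        have hx : (hm d a ^ m * D (hm d' b)) ^ p =
            hm ((p * e1 : ℕ) : ℤ) ((a ^ m * E' b) ^ p) := by
          rw [tlD_hm, hm_pow, hm_mul, hm_pow]
          congr 1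
          push_cast
          rw [← he1]
        have hxR : (hm d a ^ m * D (hm d' b)) ^ p ∈ R :=
          R.pow_mem (R.mul_mem (R.pow_mem hda m) (hD _ hb)) p
        have hmem : (⟨(hm d a ^ m * D (hm d' b)) ^ p, hxR⟩ : R) ∈ Q := by
          apply hSQ
          refine ⟨p * e1, (a ^ m * E' b) ^ p, by rw [← hx]; exact hxR,
            Nat.mul_pos hp.pos he1', pow_ne_zero _ (mul_ne_zero (pow_ne_zero _ ha0) hb0),
            Subtype.ext hx, d, m, a, d', b, hda, hb, hx.symm⟩
        have h4 : ((⟨hm d a, hda⟩ : R) ^ m * ⟨D (hm d' b), hD _ hb⟩) ^ p ∈ Q := by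
          have e2 : ((⟨hm d a, hda⟩ : R) ^ m * ⟨D (hm d' b), hD _ hb⟩) ^ p =
              ⟨(hm d a ^ m * D (hm d' b)) ^ p, hxR⟩ := rfl
          rw [e2]; exact hmem
        have h5 := hQ.mem_of_pow_mem _ h4
        rcases hQ.mem_or_mem h5 with h6 | h6
        · exact absurd (hQ.mem_of_pow_mem _ h6) hnQ
        · exact h6
    intro f hf
    have h1 : (⟨D f, hD f hf⟩ : R) = ∑ d ∈ (f.coeff.support).attach,
        ⟨D (hm d (f.coeff d)), hD _ (hgr f hf d)⟩ := by
      apply Subtype.ext
      rw [AddSubmonoidClass.coe_finsetSum]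
      change D f = ∑ d ∈ f.coeff.support.attach, D (hm (d : ℤ) (f.coeff d))
      rw [Finset.sum_attach f.coeff.support (fun d => D (hm d (f.coeff d))), ← map_sum,
        ← eq_sum_hm]
    rw [h1]
    exact Q.sum_mem fun d _ => key d (f.coeff d) (hgr f hf d)
  -- the embedding
  let g : kerAlg E →ₐ[k] L := gB.comp (kerAlg E).val
  have hgE : ∀ a : kerAlg E, E' (g a) = 0 := by
    intro a
    change E' (algebraMap B L a) = 0
    rw [hE', mem_kerAlg.1 a.2, map_zero]
  have hcov : Cover g gB R F e η he := by
    refine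
      { inj := hinj.comp Subtype.val_injective
        grR := hgr
        grF := gr_kerAlg E' l
        sR := hs
        sF := ?_
        bR := hb
        cR := hc
        gF := ?_
        gAB := fun a => ⟨a, rfl⟩
        gBA := ?_
        invF := fun d a h => kerAlg_inv E' h
        int := ?_
        epos := he0
        η0 := hη0
        hF := ?_
        sm := ?_
        ft := inferInstance
        pos := hpos
        rad := ?_ }
    · rw [mem_ker_hm, Derivation.map_one_eq_zero]
    · intro a
      rw [mem_ker_hm]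
      exact hgE a
    · intro b hb
      rw [mem_ker_hm] at hb
      refine ⟨⟨b, ?_⟩, rfl⟩
      rw [mem_kerAlg]
      apply hinj
      rw [map_zero]
      rw [← hb]
      exact (hE' b).symm
    · intro V hV b
      have h1 : b ^ p ∈ kerAlg E := by
        rw [mem_kerAlg, Derivation.leibniz_pow, nsmul_eq_mul]
        have h2 : ((p : ℕ) : B) = 0 := by
          rw [← map_natCast (algebraMap k B), hpk, map_zero]
        rw [h2, zero_mul]
      have h3 := hV ⟨b ^ p, h1⟩
      have h4 : g ⟨b ^ p, h1⟩ = gB b ^ p := by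
        change gB (b ^ p) = _
        rw [map_pow]
      rw [h4, ← V.valuation_le_one_iff, map_pow] at h3
      rw [← V.valuation_le_one_iff]
      by_contra hcon
      rw [not_le] at hcon
      exact absurd h3 (not_le.2 (one_lt_pow₀ hcon hp.ne_zero))
    · intro t
      rw [hprod t]
      exact hDp _
    · intro t
      set h0 : LP L := hm (e t) (η t) with hh0
      have hh1 : h0 = (hm (d t) (y t) ^ m t * D (hm (d' t) (b t))) ^ p := hprod t
      have hDh : D h0 = 0 := by rw [hh1]; exact hDp _
      have hDhn : ∀ n : ℕ, D (h0 ^ n) = 0 := by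
        intro n
        rw [Derivation.leibniz_pow, nsmul_eq_mul, hDh, smul_zero, mul_zero]
      let R' := loc R h0 (he t)
      have hstab : ∀ x ∈ R', D x ∈ R' := by
        rintro x ⟨n, hn⟩
        refine ⟨n, ?_⟩
        have h1 := hD _ hn
        change D (h0 ^ n * x) ∈ R at h1
        rw [Derivation.leibniz, hDhn, smul_zero, add_zero, smul_eq_mul] at h1
        exact h1
      obtain ⟨z, hz⟩ := (isUnit_hm (d := (e t : ℤ)) (hη0 t)).exists_right_inv
      have hzR : z ∈ R' := inv_mem_loc _ _ _ _ hz
      have hbR : hm (d' t) (b t) ∈ R' := le_loc _ _ _ (hb' t)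
      let w : LP L := hm (d t) (y t) ^ m t *
        (hm (d t) (y t) ^ m t * D (hm (d' t) (b t))) ^ (p - 1)
      have hwR : w ∈ R := R.mul_mem (R.pow_mem (hy t) _)
        (R.pow_mem (R.mul_mem (R.pow_mem (hy t) _) (hD _ (hb' t))) _)
      have hθ : D (hm (d' t) (b t)) * (w * z) = 1 := by
        rw [← hz, ← hh0, hh1]
        change _ * (hm (d t) (y t) ^ m t *
          (hm (d t) (y t) ^ m t * D (hm (d' t) (b t))) ^ (p - 1) * z) = _
        have h2 : ∀ a : LP L, a ^ p = a * a ^ (p - 1) := fun a => by
          rw [← pow_succ', Nat.sub_add_cancel hp.one_lt.le]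
        rw [h2 (hm (d t) (y t) ^ m t * D (hm (d' t) (b t)))]
        ring
      exact smooth_ker D hp hpk _ hclosed (hm (d' t) (b t)) _ (w * z) rfl hθ R' hbR hstab
        (R'.mul_mem (le_loc _ _ _ hwR) hzR) (smooth_loc hsm _ (isUnit_hm (hη0 t)))
    · intro d a h hd
      have h1 : (⟨hm d a, h⟩ : R) ∈ (Ideal.span (Set.range fun t : T =>
          (⟨hm (e t) (η t), he t⟩ : R))).radical := by
        rw [Ideal.radical_eq_sInf, Ideal.mem_sInf]
        rintro Q ⟨hle, hQ⟩
        refine hSrad Q hQ ?_ d a h hd
        intro x hx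
        have h2 : x ∈ Submodule.span R (T0 : Set R) := by
          rw [← hT0]
          exact Submodule.subset_span hx
        have h3 : Submodule.span R (T0 : Set R) ≤ Q := by
          rw [Submodule.span_le]
          intro z hz
          apply hle
          refine Ideal.subset_span ⟨⟨z, hz⟩, ?_⟩
          exact (hxeq ⟨z, hz⟩).symm
        exact h3 h2
      obtain ⟨N, hN⟩ := h1
      exact ⟨N, hN⟩
  exact hasResolution_of_cover hcov

end main

end Pool.Agent.H920R2
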