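import Pool.Agent.H920R2.Gn5

set_option autoImplicit false
set_option linter.unusedSectionVars false

open AlgebraicGeometry CategoryTheory

universe u v

namespace Pool.Agent.H920R2

section atlas

variable {k K : Type u} [Field k] [Field K] [Algebra k K]

/-- An atlas of a proper model over `k` of the field `Kf` by quotients of smooth schemes by the
multiplicative group, with stabilisers of order at most `ρ`: the charts are the parts of degree
zero of smooth graded algebras with a unit of positive degree at most `ρ`. -/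
structure AtlasG {𝒜 : Type} (W : 𝒜 → Set K) (Kf : Subfield K) (ρ : ℕ) {T : Type u}
    (C : T → Subalgebra k (LP K)) (H : T → K) : Prop where
  H0 : ∀ t, H t ≠ 0
  HK : ∀ t, H t ∈ Kf
  sm : ∀ t, Algebra.Smooth k (C t)
  gr : ∀ t, Gr (C t)
  ss : ∀ t, hm (-1) 1 ∈ C t
  un : ∀ t, ∃ r : ℕ, 0 < r ∧ r ≤ ρ ∧ ∃ u : K, u ≠ 0 ∧ hm r u ∈ C t ∧ hm (-r) u⁻¹ ∈ C t
  aa : ∀ t, ∃ a, ∀ x ∈ W a, hm 0 x ∈ C t
  inF : ∀ t (d : ℤ) x, hm d x ∈ C t → x ∈ Kf
  rt : ∀ t t', hm 0 (H t' / H t) ∈ C t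
  gl : ∀ t t', ∀ f ∈ C t', ∃ n : ℕ, hm 0 (H t' / H t) ^ n * f ∈ C t
  cv : ∀ V : ValuationSubring K, (∀ c : k, algebraMap k K c ∈ V) →
    ∃ t, ∀ x, hm 0 x ∈ C t → x ∈ V

lemma mem_of_mul_mem {Kf : Subfield K} {x y : K} (hx0 : x ≠ 0) (hx : x ∈ Kf)
    (hxy : x * y ∈ Kf) : y ∈ Kf := by
  have h1 : y = x⁻¹ * (x * y) := by
    rw [← mul_assoc, inv_mul_cancel₀ hx0, one_mul]
  rw [h1]
  exact Kf.mul_mem (Kf.inv_mem hx) hxy

end atlas

section refine

variable {k K : Type u} [Field k] [Field K] [Algebra k K] {𝒜 : Type} {W : 𝒜 → Set K}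
  {Kf : Subfield K}

/-- Every atlas can be refined to one with good units. -/
theorem atlasG_refine {ρ : ℕ} {T : Type u} [Finite T] {C : T → Subalgebra k (LP K)} {H : T → K}
    (h : AtlasG W Kf ρ C H) :
    ∃ (T' : Type u) (_ : Finite T') (C' : T' → Subalgebra k (LP K)) (H' : T' → K),
      AtlasG W Kf ρ C' H' ∧ ∀ t, GoodUnit (C' t) ρ := by
  classical
  choose r hr hrρ u hu0 hu hu' using h.un
  choose m γ hγ hγ0 hgood c hc hsum using fun t => fin_refine (h.gr t) (h.sm t) (hr t) (hrρ t)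
    (hu0 t) (hu t) (hu' t)
  let T' := Σ t, Fin (m t)
  have hfinT : Fintype T := Fintype.ofFinite T
  let γ' : T' → K := fun p => γ p.1 p.2
  have hγ' : ∀ p : T', hm 0 (γ' p) ∈ C p.1 := fun p => hγ p.1 p.2
  have hγ'0 : ∀ p : T', γ' p ≠ 0 := fun p => hγ0 p.1 p.2
  choose n1 hn1 using fun (t : T) (p : T') => h.gl t p.1 _ (hγ' p)
  let N1 : ℕ := Finset.univ.sup fun t => Finset.univ.sup (n1 t)
  have hN1 : ∀ t p, n1 t p ≤ N1 := fun t p => (Finset.le_sup (f := n1 t) (Finset.mem_univ p)).trans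
    (Finset.le_sup (f := fun t => Finset.univ.sup (n1 t)) (Finset.mem_univ t))
  let N : ℕ := N1 + 1
  have F1 : ∀ (t : T) (p : T') (m a : ℕ), m * N1 ≤ a →
      hm 0 (H p.1 / H t) ^ a * hm 0 (γ' p) ^ m ∈ C t := by
    intro t p m a ha
    obtain ⟨b, rfl⟩ := Nat.exists_eq_add_of_le ha
    obtain ⟨c, hc⟩ := Nat.exists_eq_add_of_le (hN1 t p)
    have h3 : hm 0 (H p.1 / H t) ^ (m * N1 + b) * hm 0 (γ' p) ^ m =
        hm 0 (H p.1 / H t) ^ (m * c + b) *
          (hm 0 (H p.1 / H t) ^ n1 t p * hm 0 (γ' p)) ^ m := by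
      rw [hc]; ring
    rw [h3]
    exact (C t).mul_mem ((C t).pow_mem (h.rt t p.1) _) ((C t).pow_mem (hn1 t p) _)
  let H' : T' → K := fun p => H p.1 ^ N * γ' p
  have hH'0 : ∀ p, H' p ≠ 0 := fun p => mul_ne_zero (pow_ne_zero _ (h.H0 _)) (hγ'0 p)
  let C' : T' → Subalgebra k (LP K) := fun p => loc (C p.1) (hm 0 (γ' p)) (hγ' p)
  have hratio : ∀ (p p' : T') (n : ℕ), hm 0 (γ' p) ^ n * hm 0 (H' p' / H' p) ^ n =
      hm 0 (H p'.1 / H p.1) ^ (n * N) * hm 0 (γ' p') ^ n := by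
    intro p p' n
    have h1 : hm 0 (γ' p) * hm 0 (H' p' / H' p) =
        hm 0 (H p'.1 / H p.1) ^ N * hm 0 (γ' p') := by
      have e1 := h.H0 p.1
      have e2 := hγ'0 p
      have e3 : γ' p * (H' p' / H' p) = (H p'.1 / H p.1) ^ N * γ' p' := by
        change γ' p * ((H p'.1 ^ N * γ' p') / (H p.1 ^ N * γ' p)) = _
        rw [div_pow]
        field_simp
      rw [hm_pow, hm_mul, hm_mul, mul_zero, e3]
    rw [← mul_pow, h1]
    ring
  refine ⟨T', inferInstance, C', H', ?_, fun p => hgood p.1 p.2⟩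
  refine
    { H0 := hH'0
      HK := fun p => Kf.mul_mem (Kf.pow_mem (h.HK _) _) (h.inF _ _ _ (hγ' p))
      sm := fun p => smooth_loc (h.sm p.1) _ (isUnit_hm (hγ'0 p))
      gr := fun p => gr_loc (h.gr p.1) (hγ'0 p) _
      ss := fun p => le_loc _ _ _ (h.ss p.1)
      un := ?_
      aa := fun p => by
        obtain ⟨a, ha⟩ := h.aa p.1
        exact ⟨a, fun x hx => le_loc _ _ _ (ha x hx)⟩
      inF := fun p d x hx => by
        obtain ⟨n, hn⟩ := hx
        rw [hm_pow, hm_mul] at hn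
        exact mem_of_mul_mem (pow_ne_zero n (hγ'0 p)) (Kf.pow_mem (h.inF _ _ _ (hγ' p)) n)
          (h.inF _ _ _ hn)
      rt := ?_
      gl := ?_
      cv := ?_ }
  · intro p
    obtain ⟨r, h1, h2, v, hv0, hv, hv', -⟩ := hgood p.1 p.2
    exact ⟨r, h1, h2, v, hv0, hv, hv'⟩
  · intro p p'
    refine ⟨1, ?_⟩
    have h1 := hratio p p' 1
    rw [pow_one, pow_one, pow_one, one_mul] at h1
    rw [pow_one, h1]
    have h2 := F1 p.1 p' 1 N (by change 1 * N1 ≤ N1 + 1; omega)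
    rwa [pow_one] at h2
  · intro p p' f hf
    obtain ⟨m, hm'⟩ := hf
    obtain ⟨n0, hn0⟩ := h.gl p.1 p'.1 _ hm'
    let n := n0 + m
    refine ⟨n, n, ?_⟩
    have h2 : n0 * N1 + n0 ≤ n * N := by
      have e3 : n * N = n0 * N1 + n0 + m * N := by
        change (n0 + m) * (N1 + 1) = n0 * N1 + n0 + m * (N1 + 1)
        ring
      omega
    obtain ⟨c', hc'⟩ := Nat.exists_eq_add_of_le h2
    have h3 : hm 0 (γ' p) ^ n * (hm 0 (H' p' / H' p) ^ n * f) =
        (hm 0 (H p'.1 / H p.1) ^ c') *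
          ((hm 0 (H p'.1 / H p.1) ^ (n0 * N1) * hm 0 (γ' p') ^ n0) *
          (hm 0 (H p'.1 / H p.1) ^ n0 * (hm 0 (γ' p') ^ m * f))) := by
      rw [← mul_assoc, hratio, hc']
      change _ * hm 0 (γ' p') ^ (n0 + m) * f = _
      ring
    rw [h3]
    exact (C p.1).mul_mem ((C p.1).pow_mem (h.rt _ _) _)
      ((C p.1).mul_mem (F1 p.1 p' _ _ le_rfl) hn0)
  · intro V hV
    obtain ⟨t, ht⟩ := h.cv V hV
    have hex : ∃ i : Fin (m t), V.valuation (γ t i) = 1 := by
      by_contra hcon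
      push Not at hcon
      have hlt : ∀ i : Fin (m t), V.valuation (c t i * γ t i) < 1 := by
        intro i
        have h1 : V.valuation (γ t i) < 1 :=
          lt_of_le_of_ne ((V.valuation_le_one_iff _).2 (ht _ (hγ t i))) (hcon i)
        have h2 : V.valuation (c t i) ≤ 1 := (V.valuation_le_one_iff _).2 (ht _ (hc t i))
        rw [map_mul]
        calc V.valuation (c t i) * V.valuation (γ t i) ≤ 1 * V.valuation (γ t i) :=
              mul_le_mul' h2 le_rfl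
          _ < 1 := by rw [one_mul]; exact h1
      have h3 : V.valuation (∑ i, c t i * γ t i) < 1 :=
        Valuation.map_sum_lt _ one_ne_zero fun i _ => hlt i
      rw [hsum, map_one] at h3
      exact lt_irrefl _ h3
    obtain ⟨i, hi⟩ := hex
    refine ⟨⟨t, i⟩, ?_⟩
    rintro y ⟨n, hn⟩
    rw [hm_pow, hm_mul, mul_zero, add_zero] at hn
    have h1 := (V.valuation_le_one_iff _).2 (ht _ hn)
    change V.valuation (γ t i ^ n * y) ≤ 1 at h1
    rw [map_mul, map_pow, hi, one_pow, one_mul] at h1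
    exact (V.valuation_le_one_iff _).1 h1

end refine

end Pool.Agent.H920R2
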