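import Pool.Agent.H920R2.Gl1

set_option autoImplicit false
set_option linter.unusedSectionVars false

open AlgebraicGeometry CategoryTheory

universe u v

namespace Pool.Agent.H920R2

section step

variable {k K : Type u} [Field k] [Field K] [Algebra k K] {𝒜 : Type} {W : 𝒜 → Set K}
  {Kf : Subfield K}

/-- Reduction of the order of the stabilisers, without tameness. -/
theorem atlasG_step {ρ : ℕ} (hρ : 2 ≤ ρ) {T : Type u}
    [Finite T] {C : T → Subalgebra k (LP K)} {H : T → K} (h : AtlasG W Kf ρ C H)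
    (hG : ∀ t, GoodUnit (C t) ρ) :
    ∃ (T' : Type u) (_ : Finite T') (C' : T' → Subalgebra k (LP K)) (H' : T' → K),
      AtlasG W Kf (ρ - 1) C' H' := by
  classical
  have hρ0 : (0 : ℤ) < ρ := by exact_mod_cast (by omega : 0 < ρ)
  choose r hr hrρ u hu0 hu hu' E hE using hG
  have hft : ∀ t, Algebra.FiniteType k (C t) := fun t => by
    have := h.sm t
    infer_instance
  choose J hJ hJn d x hx hD using fun t => exists_gens_low' (hft t) (h.gr t) hρ (hr t) (hrρ t)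
    (hu0 t) (hu t) (h.ss t)
  let L : ℕ := ρ.factorial
  have hL0 : 0 < L := Nat.factorial_pos ρ
  have hLd : ∀ e : ℕ, 0 < e → e ≤ ρ → e ∣ L := fun e he heρ => Nat.dvd_factorial he heρ
  let U : T → K := fun t => u t ^ (L / r t)
  have hU0 : ∀ t, U t ≠ 0 := fun t => pow_ne_zero _ (hu0 t)
  have hU : ∀ t, hm L (U t) ∈ C t := by
    intro t
    have h1 := (C t).pow_mem (hu t) (L / r t)
    rw [hm_pow] at h1
    have h2 : ((L / r t : ℕ) : ℤ) * r t = L := by
      exact_mod_cast Nat.div_mul_cancel (hLd _ (hr t) (hrρ t))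
    rwa [h2] at h1
  have hU' : ∀ t, hm (-(L : ℤ)) (U t)⁻¹ ∈ C t := by
    intro t
    have h1 := (C t).pow_mem (hu' t) (L / r t)
    rw [hm_pow, inv_pow] at h1
    have h2 : ((L / r t : ℕ) : ℤ) * r t = L := by
      exact_mod_cast Nat.div_mul_cancel (hLd _ (hr t) (hrρ t))
    have h3 : ((L / r t : ℕ) : ℤ) * -(r t : ℤ) = -(L : ℤ) := by rw [mul_neg, h2]
    rwa [h3] at h1
  let T' := Σ t, J t
  have hfinJ : ∀ t, Fintype (J t) := fun t => Fintype.ofFinite _
  have hfinT : Fintype T := Fintype.ofFinite T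
  let q : T' → ℕ := fun p => L / d p.1 p.2
  have hq : ∀ p : T', q p * d p.1 p.2 = L := fun p =>
    Nat.div_mul_cancel (hLd _ (hx p.1 p.2).1 (hx p.1 p.2).2.1.le)
  have hqL : ∀ p : T', q p ≤ L := fun p => Nat.div_le_self _ _
  have hq1 : ∀ p : T', 1 ≤ q p := by
    intro p
    by_contra hc
    have : q p = 0 := by omega
    have h1 := hq p
    rw [this, zero_mul] at h1
    omega
  let hh : T' → K := fun p => (U p.1)⁻¹ * x p.1 p.2 ^ q p
  have hh0 : ∀ p, hh p ≠ 0 := fun p => mul_ne_zero (inv_ne_zero (hU0 _))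
    (pow_ne_zero _ (hx p.1 p.2).2.2.1)
  have hxm : ∀ p : T', hm (d p.1 p.2) (x p.1 p.2) ∈ C p.1 := fun p => (hx p.1 p.2).2.2.2
  have hxpow : ∀ p : T', hm (d p.1 p.2) (x p.1 p.2) ^ q p = hm L (x p.1 p.2 ^ q p) := by
    intro p
    rw [hm_pow]
    congr 1
    exact_mod_cast hq p
  have hhC : ∀ p : T', hm 0 (hh p) ∈ C p.1 := by
    intro p
    have h1 := (C p.1).mul_mem (hU' p.1) ((C p.1).pow_mem (hxm p) (q p))
    rw [hxpow, hm_mul, neg_add_cancel] at h1
    exact h1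
  -- the constants
  choose n1 hn1 using fun (t : T) (p : T') => h.gl t p.1 _ (hxm p)
  choose n2 hn2 using fun (t t' : T) => h.gl t t' _ (hU' t')
  let N1 : ℕ := Finset.univ.sup fun t => Finset.univ.sup (n1 t)
  let N2 : ℕ := Finset.univ.sup fun t => Finset.univ.sup (n2 t)
  have hN1 : ∀ t p, n1 t p ≤ N1 := fun t p => (Finset.le_sup (f := n1 t) (Finset.mem_univ p)).trans
    (Finset.le_sup (f := fun t => Finset.univ.sup (n1 t)) (Finset.mem_univ t))
  have hN2 : ∀ t p, n2 t p ≤ N2 := fun t p => (Finset.le_sup (f := n2 t) (Finset.mem_univ p)).trans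
    (Finset.le_sup (f := fun t => Finset.univ.sup (n2 t)) (Finset.mem_univ t))
  let N : ℕ := L * N1 + N2 + 1
  have hzlow : ∀ t t', hm 0 (H t' / H t) ∈ low (C t) ρ := fun t t' => mem_low (h.rt t t') hρ0
  -- first estimate
  have F1 : ∀ (t : T) (p : T') (m a : ℕ), m * N1 ≤ a →
      hm 0 (H p.1 / H t) ^ a * hm (d p.1 p.2) (x p.1 p.2) ^ m ∈ low (C t) ρ := by
    intro t p m a ha
    obtain ⟨b, rfl⟩ := Nat.exists_eq_add_of_le ha
    obtain ⟨c, hc⟩ := Nat.exists_eq_add_of_le (hN1 t p)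
    have h1 : hm 0 (H p.1 / H t) ^ n1 t p * hm (d p.1 p.2) (x p.1 p.2) ∈ low (C t) ρ := by
      have h2 := hn1 t p
      rw [hm_pow, hm_mul] at h2 ⊢
      refine mem_low h2 ?_
      rw [mul_zero, zero_add]
      exact_mod_cast (hx p.1 p.2).2.1
    have h3 : hm 0 (H p.1 / H t) ^ (m * N1 + b) * hm (d p.1 p.2) (x p.1 p.2) ^ m =
        hm 0 (H p.1 / H t) ^ (m * c + b) *
          (hm 0 (H p.1 / H t) ^ n1 t p * hm (d p.1 p.2) (x p.1 p.2)) ^ m := by
      rw [hc]; ring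
    rw [h3]
    exact (low (C t) ρ).mul_mem ((low (C t) ρ).pow_mem (hzlow t p.1) _)
      ((low (C t) ρ).pow_mem h1 _)
  have F2 : ∀ (t t' : T) (m a : ℕ), m * N2 ≤ a →
      hm 0 (H t' / H t) ^ a * hm 0 ((U t')⁻¹ * U t) ^ m ∈ low (C t) ρ := by
    intro t t' m a ha
    obtain ⟨b, rfl⟩ := Nat.exists_eq_add_of_le ha
    obtain ⟨c, hc⟩ := Nat.exists_eq_add_of_le (hN2 t t')
    have h1 : hm 0 (H t' / H t) ^ n2 t t' * hm 0 ((U t')⁻¹ * U t) ∈ low (C t) ρ := by
      have h2 := (C t).mul_mem (hn2 t t') (hU t)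
      have h4 : hm 0 (H t' / H t) ^ n2 t t' * hm (-(L : ℤ)) (U t')⁻¹ * hm L (U t) =
          hm 0 (H t' / H t) ^ n2 t t' * hm 0 ((U t')⁻¹ * U t) := by
        rw [mul_assoc, hm_mul, neg_add_cancel]
      rw [h4] at h2
      rw [hm_pow, hm_mul] at h2 ⊢
      refine mem_low h2 ?_
      rw [mul_zero, zero_add]
      exact hρ0
    have h3 : hm 0 (H t' / H t) ^ (m * N2 + b) * hm 0 ((U t')⁻¹ * U t) ^ m =
        hm 0 (H t' / H t) ^ (m * c + b) *
          (hm 0 (H t' / H t) ^ n2 t t' * hm 0 ((U t')⁻¹ * U t)) ^ m := by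
      rw [hc]; ring
    rw [h3]
    exact (low (C t) ρ).mul_mem ((low (C t) ρ).pow_mem (hzlow t t') _)
      ((low (C t) ρ).pow_mem h1 _)
  have F3 : ∀ (t t' : T), ∀ f ∈ low (C t') ρ, ∃ n : ℕ,
      hm 0 (H t' / H t) ^ n * f ∈ low (C t) ρ := by
    intro t t'
    have h1 : low (C t') ρ ≤ loc (low (C t) ρ) (hm 0 (H t' / H t)) (hzlow t t') := by
      conv_lhs => unfold low
      rw [Algebra.adjoin_le_iff]
      rintro _ ⟨hf, e, a, he, rfl⟩
      obtain ⟨n, hn⟩ := h.gl t t' _ hf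
      refine ⟨n, ?_⟩
      rw [hm_pow, hm_mul] at hn ⊢
      refine mem_low hn ?_
      rw [mul_zero, zero_add]
      exact he
    exact fun f hf => h1 hf
  let H' : T' → K := fun p => H p.1 ^ N * hh p
  have hH'0 : ∀ p, H' p ≠ 0 := fun p => mul_ne_zero (pow_ne_zero _ (h.H0 _)) (hh0 p)
  let C' : T' → Subalgebra k (LP K) := fun p =>
    loc (low (C p.1) ρ) (hm (d p.1 p.2) (x p.1 p.2))
      (mem_low (hxm p) (by exact_mod_cast (hx p.1 p.2).2.1))
  -- the ratio of the markers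
  have hratio : ∀ (p p' : T') (n : ℕ), hm (d p.1 p.2) (x p.1 p.2) ^ (n * q p) *
      hm 0 (H' p' / H' p) ^ n = hm 0 (H p'.1 / H p.1) ^ (n * N) *
        hm 0 ((U p'.1)⁻¹ * U p.1) ^ n * hm (d p'.1 p'.2) (x p'.1 p'.2) ^ (n * q p') := by
    intro p p' n
    have h1 : hm (d p.1 p.2) (x p.1 p.2) ^ (q p) * hm 0 (H' p' / H' p) =
        hm 0 (H p'.1 / H p.1) ^ N * hm 0 ((U p'.1)⁻¹ * U p.1) *
          hm (d p'.1 p'.2) (x p'.1 p'.2) ^ (q p') := by
      rw [hxpow, hxpow, hm_pow, hm_mul, hm_mul, hm_mul]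
      congr 1
      · ring
      · change x p.1 p.2 ^ q p * ((H p'.1 ^ N * ((U p'.1)⁻¹ * x p'.1 p'.2 ^ q p')) /
          (H p.1 ^ N * ((U p.1)⁻¹ * x p.1 p.2 ^ q p))) = _
        have e1 := h.H0 p.1
        have e2 := hU0 p.1
        have e3 := hU0 p'.1
        have e4 := (hx p.1 p.2).2.2.1
        rw [div_pow]
        field_simp
    have h2 : hm (d p.1 p.2) (x p.1 p.2) ^ (n * q p) * hm 0 (H' p' / H' p) ^ n =
        (hm (d p.1 p.2) (x p.1 p.2) ^ (q p) * hm 0 (H' p' / H' p)) ^ n := by ring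
    rw [h2, h1]
    ring
  refine ⟨T', inferInstance, C', H', ?_⟩
  refine
    { H0 := hH'0
      HK := fun p => Kf.mul_mem (Kf.pow_mem (h.HK _) _) (h.inF _ _ _ (hhC p))
      sm := ?_
      gr := fun p => gr_loc (gr_low _ _) (hx p.1 p.2).2.2.1 _
      ss := fun p => le_loc _ _ _ (mem_low (h.ss p.1) (by linarith))
      un := ?_
      aa := fun p => by
        obtain ⟨a, ha⟩ := h.aa p.1
        exact ⟨a, fun x hx => le_loc _ _ _ (mem_low (ha x hx) hρ0)⟩
      inF := fun p e y hy => by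
        obtain ⟨n, hn⟩ := hy
        have h1 := low_le _ _ hn
        rw [hm_pow, hm_mul] at h1
        exact mem_of_mul_mem (pow_ne_zero n (hx p.1 p.2).2.2.1)
          (Kf.pow_mem (h.inF _ _ _ (hxm p)) n) (h.inF _ _ _ h1)
      rt := ?_
      gl := ?_
      cv := ?_ }
  · intro p
    exact smooth_loc (smooth_low_good (h.sm p.1) (h.gr p.1) (hr p.1) (hrρ p.1) (hu0 p.1)
      (hu p.1) (hu' p.1) (E p.1) (hE p.1)) _ (isUnit_hm (hx p.1 p.2).2.2.1)
  · intro p
    refine ⟨d p.1 p.2, (hx p.1 p.2).1, by have := (hx p.1 p.2).2.1; omega, x p.1 p.2,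
      (hx p.1 p.2).2.2.1, ?_, ?_⟩
    · exact le_loc _ _ _ (mem_low (hxm p) (by exact_mod_cast (hx p.1 p.2).2.1))
    · refine inv_mem_loc _ _ _ _ ?_
      rw [hm_mul, add_neg_cancel, mul_inv_cancel₀ (hx p.1 p.2).2.2.1, hm_one]
  · intro p p'
    refine ⟨q p, ?_⟩
    have h1 := hratio p p' 1
    rw [one_mul, one_mul, pow_one, pow_one, one_mul] at h1
    rw [h1]
    have h2 : N2 + q p' * N1 ≤ N := by
      have := Nat.mul_le_mul_right N1 (hqL p')
      change N2 + q p' * N1 ≤ L * N1 + N2 + 1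
      omega
    obtain ⟨c, hc⟩ := Nat.exists_eq_add_of_le h2
    have h3 : hm 0 (H p'.1 / H p.1) ^ N * hm 0 ((U p'.1)⁻¹ * U p.1) *
          hm (d p'.1 p'.2) (x p'.1 p'.2) ^ (q p') =
        (hm 0 (H p'.1 / H p.1) ^ (N2 + c) * hm 0 ((U p'.1)⁻¹ * U p.1) ^ 1) *
          (hm 0 (H p'.1 / H p.1) ^ (q p' * N1) * hm (d p'.1 p'.2) (x p'.1 p'.2) ^ (q p')) := by
      rw [hc]; ring
    rw [h3]
    exact (low (C p.1) ρ).mul_mem (F2 p.1 p'.1 1 _ (by omega)) (F1 p.1 p' _ _ le_rfl)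
  · intro p p' f hf
    obtain ⟨m, hm'⟩ := hf
    obtain ⟨n0, hn0⟩ := F3 p.1 p'.1 _ hm'
    let n := n0 + m
    refine ⟨n, n * q p, ?_⟩
    have h1 : m ≤ n * q p' := by
      have := Nat.mul_le_mul_left n (hq1 p')
      have h2 : n = n0 + m := rfl
      omega
    obtain ⟨c, hc⟩ := Nat.exists_eq_add_of_le h1
    have h2 : n * N2 + c * N1 + n0 ≤ n * N := by
      have e1 : c ≤ n * L := by
        have := Nat.mul_le_mul_left n (hqL p')
        omega
      have e2 := Nat.mul_le_mul_right N1 e1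
      have e3 : n * N = n * L * N1 + n * N2 + n := by
        change n * (L * N1 + N2 + 1) = _
        ring
      have e4 : n = n0 + m := rfl
      rw [e3]
      omega
    obtain ⟨c', hc'⟩ := Nat.exists_eq_add_of_le h2
    have h3 : hm (d p.1 p.2) (x p.1 p.2) ^ (n * q p) * (hm 0 (H' p' / H' p) ^ n * f) =
        (hm 0 (H p'.1 / H p.1) ^ (n * N2 + c') * hm 0 ((U p'.1)⁻¹ * U p.1) ^ n) *
          ((hm 0 (H p'.1 / H p.1) ^ (c * N1) * hm (d p'.1 p'.2) (x p'.1 p'.2) ^ c) *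
          (hm 0 (H p'.1 / H p.1) ^ n0 * (hm (d p'.1 p'.2) (x p'.1 p'.2) ^ m * f))) := by
      rw [← mul_assoc, hratio, hc, hc']
      ring
    rw [h3]
    exact (low (C p.1) ρ).mul_mem (F2 p.1 p'.1 n _ (by omega))
      ((low (C p.1) ρ).mul_mem (F1 p.1 p' _ _ le_rfl) hn0)
  · intro V hV
    obtain ⟨t, ht⟩ := h.cv V hV
    have hJt := hJn t
    obtain ⟨j, hj⟩ := Finite.exists_max fun j : J t => V.valuation (x t j) ^ (q ⟨t, j⟩)
    refine ⟨⟨t, j⟩, ?_⟩
    rintro y ⟨n, hn⟩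
    refine val_le_of_low (d t) (x t) (hx t) (hD t) V ht j ?_ hn
    intro i
    have h1 := hj i
    have h2 : (V.valuation (x t i) ^ d t j) ^ L ≤ (V.valuation (x t j) ^ d t i) ^ L := by
      have h3 := pow_le_pow_left' h1 (d t i * d t j)
      have e1 := hq ⟨t, i⟩
      have e2 := hq ⟨t, j⟩
      change q ⟨t, i⟩ * d t i = L at e1
      change q ⟨t, j⟩ * d t j = L at e2
      rw [← pow_mul, ← pow_mul] at h3 ⊢
      have e3 : q ⟨t, i⟩ * (d t i * d t j) = d t j * L := by rw [← e1]; ring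
      have e4 : q ⟨t, j⟩ * (d t i * d t j) = d t i * L := by rw [← e2]; ring
      rwa [e3, e4] at h3
    exact le_of_pow_le_pow_left₀ hL0.ne' zero_le h2


end step

end Pool.Agent.H920R2
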