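import Pool.Agent.H920R2.Gl1
import Pool.Agent.H920R2.Fol2

set_option autoImplicit false
set_option linter.unusedSectionVars false

open AlgebraicGeometry CategoryTheory

universe u v

namespace Pool.Agent.H920R2

section covers

variable {k K : Type u} [Field k] [Field K] [Algebra k K] {𝒜 : Type} [Finite 𝒜]
  {A B : 𝒜 → Type u} [∀ a, CommRing (A a)] [∀ a, IsDomain (A a)] [∀ a, Algebra k (A a)]
  [∀ a, CommRing (B a)] [∀ a, Algebra k (B a)]
  {g : ∀ a, A a →ₐ[k] K} {gB : ∀ a, B a →ₐ[k] K} {R : 𝒜 → Subalgebra k (LP K)}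
  {F : Subalgebra k (LP K)} {T : 𝒜 → Type u} [∀ a, Finite (T a)] {e : ∀ a, T a → ℕ}
  {η : ∀ a, T a → K} {hR : ∀ a t, hm (e a t) (η a t) ∈ R a}

/-- Compatible covers give an atlas of a proper model. -/
theorem atlasG_of_covers
    (h : ∀ a, Cover (g a) (gB a) (R a) F (e a) (η a) (hR a))
    (Kf : Subfield K) (hKf : ∀ (d : ℤ) x, hm d x ∈ F → x ∈ Kf)
    (hh : 𝒜 → K) (hh0 : ∀ a, hh a ≠ 0) (hhF : ∀ a, hm 0 (hh a) ∈ F)
    (hrt : ∀ a b, hm 0 (hh b / hh a) ∈ R a)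
    (hgl : ∀ a b, ∀ f ∈ R b, ∃ n : ℕ, hm 0 (hh b / hh a) ^ n * f ∈ R a)
    (hcv : ∀ V : ValuationSubring K, (∀ c : k, algebraMap k K c ∈ V) → ∃ a, ∀ b, gB a b ∈ V) :
    ∃ (ρ : ℕ) (H : (Σ a, T a) → K), AtlasG (fun a => Set.range (g a)) Kf ρ
      (fun p => loc (R p.1) (hm (e p.1 p.2) (η p.1 p.2)) (hR p.1 p.2) ⊓ F) H := by
  classical
  have h𝒜f : Fintype 𝒜 := Fintype.ofFinite 𝒜
  have hTf : ∀ a, Fintype (T a) := fun a => Fintype.ofFinite (T a)
  let P := Σ a, T a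
  let e' : P → ℕ := fun p => e p.1 p.2
  let η' : P → K := fun p => η p.1 p.2
  have he' : ∀ p, 0 < e' p := fun p => (h p.1).epos p.2
  have hη'0 : ∀ p, η' p ≠ 0 := fun p => (h p.1).η0 p.2
  have hRp : ∀ p, hm (e' p) (η' p) ∈ R p.1 := fun p => hR p.1 p.2
  have hFp : ∀ p, hm (e' p) (η' p) ∈ F := fun p => (h p.1).hF p.2
  let E : ℕ := ∏ p, e' p
  have hE0 : 0 < E := Finset.prod_pos fun j _ => he' j
  let q : P → ℕ := fun p => E / e' p
  have hq : ∀ p, q p * e' p = E := fun p =>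
    Nat.div_mul_cancel (Finset.dvd_prod_of_mem e' (Finset.mem_univ p))
  have hqE : ∀ p, q p ≤ E := fun p => Nat.div_le_self _ _
  have hq1 : ∀ p, 1 ≤ q p := by
    intro p
    rcases Nat.eq_zero_or_pos (q p) with h1 | h1
    · have := hq p
      rw [h1, zero_mul] at this
      omega
    · exact h1
  choose n1 hn1 using fun (a : 𝒜) (p : P) => hgl a p.1 _ (hRp p)
  let N1 : ℕ := Finset.univ.sup fun a => Finset.univ.sup (n1 a)
  have hN1 : ∀ a p, n1 a p ≤ N1 := fun a p => (Finset.le_sup (f := n1 a) (Finset.mem_univ p)).trans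
    (Finset.le_sup (f := fun a => Finset.univ.sup (n1 a)) (Finset.mem_univ a))
  let N : ℕ := N1 * E + 1
  have F1 : ∀ (a : 𝒜) (p : P) (m c : ℕ), m * N1 ≤ c →
      hm 0 (hh p.1 / hh a) ^ c * hm (e' p) (η' p) ^ m ∈ R a := by
    intro a p m c hc
    obtain ⟨b, rfl⟩ := Nat.exists_eq_add_of_le hc
    obtain ⟨d, hd⟩ := Nat.exists_eq_add_of_le (hN1 a p)
    have h3 : hm 0 (hh p.1 / hh a) ^ (m * N1 + b) * hm (e' p) (η' p) ^ m =
        hm 0 (hh p.1 / hh a) ^ (m * d + b) *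
          (hm 0 (hh p.1 / hh a) ^ n1 a p * hm (e' p) (η' p)) ^ m := by
      rw [hd]; ring
    rw [h3]
    exact (R a).mul_mem ((R a).pow_mem (hrt a p.1) _) ((R a).pow_mem (hn1 a p) _)
  let H : P → K := fun p => hh p.1 ^ N * η' p ^ q p
  have hH0 : ∀ p, H p ≠ 0 := fun p => mul_ne_zero (pow_ne_zero _ (hh0 _)) (pow_ne_zero _ (hη'0 p))
  have hκ : ∀ p, hm (e' p) (η' p) ^ (q p) = hm E (η' p ^ q p) := by
    intro p
    rw [hm_pow]
    congr 1
    exact_mod_cast hq p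
  have hFinv : ∀ (d : ℤ) x, hm d x ∈ F → hm (-d) x⁻¹ ∈ F := by
    intro d x hx
    by_cases hne : Nonempty 𝒜
    · exact (h hne.some).invF d x hx
    · obtain ⟨a, -⟩ := hcv ⊤ (fun _ => trivial)
      exact absurd ⟨a⟩ hne
  have hFη : ∀ p, hm 0 (η' p ^ q p) ∈ F := by
    intro p
    have h0 : hm 0 (η' p) ∈ F := by
      have h1 := F.mul_mem (hFp p) (F.pow_mem (h p.1).sF (e' p))
      rw [hm_pow, hm_mul, one_pow, mul_one] at h1
      have h2 : (e' p : ℤ) + (e' p : ℤ) * -1 = 0 := by ring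
      rwa [h2] at h1
    have h1 := F.pow_mem h0 (q p)
    rw [hm_pow, mul_zero] at h1
    exact h1
  have hFH : ∀ p, hm 0 (H p) ∈ F := by
    intro p
    have h1 := F.mul_mem (F.pow_mem (hhF p.1) N) (hFη p)
    rw [hm_pow, hm_mul, mul_zero, add_zero] at h1
    exact h1
  have hFrt : ∀ p p', hm 0 (H p' / H p) ∈ F := by
    intro p p'
    have h1 := F.mul_mem (hFH p') (hFinv _ _ (hFH p))
    rw [hm_mul, add_neg_cancel, ← div_eq_mul_inv] at h1
    exact h1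
  have htr : ∀ p p' : P, hm (e' p) (η' p) ^ q p * hm 0 (H p' / H p) =
        hm 0 (hh p'.1 / hh p.1) ^ N * hm (e' p') (η' p') ^ q p' := by
    intro p p'
    rw [hκ, hκ, hm_mul, hm_pow, hm_mul]
    congr 1
    · ring
    · change η' p ^ q p * (hh p'.1 ^ N * η' p' ^ q p' / (hh p.1 ^ N * η' p ^ q p)) = _
      have e1 := hh0 p.1
      have e2 := hη'0 p
      rw [div_pow]
      field_simp
  refine ⟨Finset.univ.sup e', H, ?_⟩
  refine
    { H0 := hH0
      HK := fun p => hKf 0 _ (hFH p)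
      sm := fun p => (h p.1).sm p.2
      gr := fun p => gr_inf (gr_loc (h p.1).grR ((h p.1).η0 p.2) _) (h p.1).grF
      ss := fun p => ⟨le_loc _ _ _ (h p.1).sR, (h p.1).sF⟩
      un := ?_
      aa := ?_
      inF := fun p d x hx => hKf d x hx.2
      rt := ?_
      gl := ?_
      cv := ?_ }
  · intro p
    refine ⟨e' p, he' p, Finset.le_sup (f := e') (Finset.mem_univ p), η' p, hη'0 p,
      ⟨le_loc _ _ _ (hRp p), hFp p⟩, ⟨?_, hFinv _ _ (hFp p)⟩⟩
    refine inv_mem_loc _ _ _ _ ?_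
    change hm ((e' p : ℕ) : ℤ) (η' p) * _ = 1
    rw [hm_mul, add_neg_cancel, mul_inv_cancel₀ (hη'0 p), hm_one]
  · intro p
    refine ⟨p.1, ?_⟩
    rintro _ ⟨a, rfl⟩
    refine ⟨le_loc _ _ _ ?_, (h p.1).gF a⟩
    obtain ⟨b, hb⟩ := (h p.1).gAB a
    rw [hb]
    exact (h p.1).bR b
  · intro p p'
    refine ⟨⟨q p, ?_⟩, hFrt p p'⟩
    change hm (e' p) (η' p) ^ q p * hm 0 (H p' / H p) ∈ R p.1
    rw [htr]
    refine F1 p.1 p' _ _ ?_
    change q p' * N1 ≤ N1 * E + 1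
    have := Nat.mul_le_mul_left N1 (hqE p')
    rw [mul_comm (q p') N1]
    omega
  · rintro p p' f ⟨⟨m, hm'⟩, hf⟩
    obtain ⟨n2, hn2⟩ := hgl p.1 p'.1 _ hm'
    let n := m + n2
    refine ⟨n, ⟨q p * n, ?_⟩, F.mul_mem (F.pow_mem (hFrt p p') _) hf⟩
    change hm (e' p) (η' p) ^ (q p * n) * (hm 0 (H p' / H p) ^ n * f) ∈ R p.1
    have h2 : m ≤ q p' * n := by
      have := hq1 p'
      calc m ≤ n := Nat.le_add_right _ _
        _ ≤ q p' * n := Nat.le_mul_of_pos_left _ this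
    obtain ⟨c', hc'⟩ := Nat.exists_eq_add_of_le h2
    have h3 : c' * N1 + n2 ≤ N * n := by
      have h4 : c' * N1 ≤ q p' * n * N1 := Nat.mul_le_mul_right _ (by omega)
      have h5 : q p' * n * N1 ≤ E * n * N1 :=
        Nat.mul_le_mul_right _ (Nat.mul_le_mul_right _ (hqE p'))
      have h6 : N * n = E * n * N1 + n := by
        change (N1 * E + 1) * n = _
        ring
      have h7 : n2 ≤ n := Nat.le_add_left _ _
      omega
    obtain ⟨d', hd'⟩ := Nat.exists_eq_add_of_le h3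
    have h1 : hm (e' p) (η' p) ^ (q p * n) * (hm 0 (H p' / H p) ^ n * f) =
        hm 0 (hh p'.1 / hh p.1) ^ d' *
          ((hm 0 (hh p'.1 / hh p.1) ^ (c' * N1) * hm (e' p') (η' p') ^ c') *
          (hm 0 (hh p'.1 / hh p.1) ^ n2 * (hm (e' p') (η' p') ^ m * f))) := by
      rw [pow_mul, ← mul_assoc, ← mul_pow, htr, mul_pow, ← pow_mul, ← pow_mul, hd', hc']
      ring
    rw [h1]
    exact (R p.1).mul_mem ((R p.1).pow_mem (hrt _ _) _)
      ((R p.1).mul_mem (F1 p.1 p' _ _ le_rfl) hn2)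
  · intro V hV
    obtain ⟨a, ha⟩ := hcv V hV
    obtain ⟨t, ht⟩ := cover_cv (h a) V ha
    exact ⟨⟨a, t⟩, fun x hx => ht x hx.1⟩

end covers

end Pool.Agent.H920R2
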