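import Pool.Agent.H920R2.Cu9
import Pool.Agent.H920R2.Gl5
import Pool.Agent.H920R2.Gl6

set_option autoImplicit false
set_option linter.unusedSectionVars false

open MvPolynomial AlgebraicGeometry CategoryTheory

universe u v

namespace Pool.Agent.H920R2

section family

variable {k : Type u} [Field k] [PerfectField k] {p : ℕ} (hp : p.Prime) (hpk : (p : k) = 0)
  {ι : Type} [Fintype ι]
  {A : ι → Type u} [∀ i, CommRing (A i)] [∀ i, IsDedekindDomain (A i)] [∀ i, Algebra k (A i)]
  {B : Type u} [CommRing B] [IsDomain B] [Algebra k B] {j : ∀ i, A i →ₐ[k] B}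
  (hj : IsCoprod k j) (hjinj : ∀ i, Function.Injective (j i))
  (hftA : ∀ i, Algebra.FiniteType k (A i)) (hsmA : ∀ i, Algebra.Smooth k (A i))
  {σi : ∀ i, A i ≃ₐ[k] A i} (hσi : ∀ i a, (σi i)^[p] a = a) (hnf : ∀ i, ¬ IsField (A i))
  {σ : B ≃ₐ[k] B} (hσ : ∀ i a, σ (j i a) = j i (σi i a))
  {L : Type u} [Field L] [Algebra k L] (gB : B →ₐ[k] L) (hinj : Function.Injective gB)
  (τ : L ≃ₐ[k] L) (hτ : ∀ b, τ (gB b) = gB (σ b)) (hτp : ∀ x, τ^[p] x = x)
  {N : ι → Prop} (hN0 : ∀ i, ¬ N i → ∀ a, del (σi i) a = 0) (hex : ∃ i, N i)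
  {S : ∀ i, Finset (Ideal (A i))} {m w : ∀ i, Ideal (A i) → ℕ} {l : ℕ} (hl : 0 < l)
  (hCD : ∀ i, N i → CurveData (σi i) (S i) (m i))
  (hw1 : ∀ i, N i → ∀ P ∈ S i, 1 ≤ w i P) (hw : ∀ i, N i → ∀ P ∈ S i, w i P * m i P = l)

include hp hpk hj hjinj hftA hsmA hσi hnf hσ hinj hτ hτp hN0 hex hl hCD hw1 hw in
/-- The cover of the quotient of a product of curves. -/
theorem cover_curves : ∃ (T : Type u) (_ : Finite T) (e : T → ℕ) (η : T → L)
    (he : ∀ t, hm (e t) (η t) ∈ RC gB j N S w),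
      Cover (gA gB σ) gB (RC gB j N S w) (fixedAlg (tl τ)) e η he := by
  classical
  set R := RC gB j N S w with hR
  have hDgen : ∀ (i : ι) (d : ℕ) (a : A i), hm (l : ℤ) 1 * (tl τ (hm d (gB (j i a))) -
      hm d (gB (j i a))) = hm ((d : ℤ) + l) (gB (j i (del (σi i) a))) := by
    intro i d a
    rw [tl_hm, hτ, hσ, ← hm_sub, hm_mul, one_mul, ← map_sub, ← map_sub, add_comm]
    rfl
  have hD : ∀ f ∈ R, hm l 1 * (tl τ f - f) ∈ R := by
    refine dz_adjoin τ l (GC gB j N S w) (RC_s gB) ?_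
    rintro x (hx | ⟨i, d, a, hda, rfl⟩)
    · rw [hx, tl_hm, map_one, sub_self, mul_zero]
      exact Subalgebra.zero_mem _
    · change hm (l : ℤ) 1 * (tl τ (hm (d : ℤ) (gB (j i a))) - hm (d : ℤ) (gB (j i a))) ∈ _
      rw [hDgen]
      by_cases hN : N i
      · have hda' : WG (S i) (w i) d a := by
          rcases hda with h | h
          · exact h.2
          · rw [h]; exact WG_zero _ _ a
        have h1 := RC_g (j := j) (N := N) gB i (d + l) _
          (Or.inl ⟨hN, WG_del (hCD i hN) (hw i hN) hda'⟩)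
        push_cast at h1
        exact h1
      · have h0 : del (σi i) a = 0 := by
          exact hN0 i hN a
        rw [h0, map_zero, map_zero, hm_zero]
        exact Subalgebra.zero_mem _
  refine cover_zp hp hpk gB hinj σ (prod_iter hj hσi hσ) τ hτ hτp R
    (gr_adjoin _ (GC_hom gB)) (RC_s gB) (RC_b hj gB) (fun f hf d => RC_c gB hf d)
    (RC_smooth hj hftA hsmA gB hinj hCD hw1 hw hnf) ?_ l hl hD ?_
  · -- elements of positive degree
    obtain ⟨i, hN⟩ := hex
    have h0 : ∏ P ∈ S i, P ≠ ⊥ := by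
      have : ∏ P ∈ S i, P ≠ 0 := Finset.prod_ne_zero_iff.2 fun P hP => (hCD i hN).ne P hP
      exact this
    obtain ⟨a, ha, ha0⟩ := Submodule.exists_mem_ne_zero_of_ne_bot h0
    have hWG : WG (S i) (w i) 1 a := by
      intro P hP
      refine ⟨1, by rw [mul_one]; exact hw1 i hN P hP, ?_⟩
      rw [pow_one]
      exact Ideal.le_of_dvd (Finset.dvd_prod_of_mem _ hP) ha
    refine ⟨1, gB (j i a), one_pos, ?_, RC_g gB i 1 a (Or.inl ⟨hN, hWG⟩)⟩
    intro h
    rw [map_eq_zero_iff gB hinj, map_eq_zero_iff (j i) (hjinj i)] at h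
    exact ha0 h
  · intro Q hQ hDQ d a h hd
    refine pos_mem (GC_hom gB) Q ?_ d a h hd
    rintro e b (hb | ⟨i, d', a', hda', hb⟩) he
    · have h1 := congrArg (fun f : LP L => f.coeff (-1)) hb
      change (hm (e : ℤ) b).coeff (-1) = (hm (-1) (1 : L)).coeff (-1) at h1
      rw [coeff_hm, coeff_hm, if_neg (by omega), if_pos rfl] at h1
      exact absurd h1.symm one_ne_zero
    · by_cases hed : (e : ℤ) = d'
      · have hed' : e = d' := by exact_mod_cast hed
        subst hed'
        have hba := hm_inj hb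
        subst hba
        have hNW : N i ∧ WG (S i) (w i) e a' := by
          rcases hda' with h | h
          · exact h
          · omega
        have hN := hNW.1
        exact curve_zero (gB.comp (j i)) (hCD i hN) (hw1 i hN) (hw i hN) R (RC_s gB)
          (fun d a h => RC_g gB i d a (Or.inl ⟨hN, h⟩)) Q hQ (fun d a h h' => by
            have h1 := hDQ _ (RC_g gB i d a (Or.inl ⟨hN, h⟩))
            have e1 : (⟨hm (l : ℤ) 1 * (tl τ (hm (d : ℤ) (gB (j i a))) - hm (d : ℤ) (gB (j i a))),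
                hD _ (RC_g gB i d a (Or.inl ⟨hN, h⟩))⟩ : R) = ⟨_, h'⟩ :=
                  Subtype.ext (hDgen i d a)
            rw [e1] at h1
            exact h1) e a' he hNW.2
      · have h1 := congrArg (fun f : LP L => f.coeff e) hb
        change (hm (e : ℤ) b).coeff e = (hm (d' : ℤ) (gB (j i a'))).coeff e at h1
        rw [coeff_hm, coeff_hm, if_pos rfl, if_neg (fun h => hed h.symm)] at h1
        have e1 : (⟨hm e b, Algebra.subset_adjoin (Or.inr ⟨i, d', a', hda', hb⟩)⟩ :
            Algebra.adjoin k (GC gB j N S w)) = 0 := by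
          apply Subtype.ext
          change hm (e : ℤ) b = 0
          rw [h1, hm_zero]
        rw [e1]
        exact Q.zero_mem

end family

end Pool.Agent.H920R2
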