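import Pool.Agent.H920R2.Gr2

set_option autoImplicit false
set_option linter.unusedSectionVars false

open MvPolynomial

universe u v

namespace Pool.Agent.H920R2

section sharp

variable {k : Type u} [Field k] {N : Type} [Fintype N] {w : Option N → ℤ} {ρ : ℕ}
  (hρ : 0 < ρ) (hw0 : w none = -ρ) (hw : ∀ i, 0 ≤ w (some i)) (hw' : ∀ i, w (some i) < ρ)
  {I : Ideal (MvPolynomial (Option N) k)}
  (hI : ∀ f ∈ I, ∀ e, weightedHomogeneousComponent w e f ∈ I) (hp : I.IsPrime)
  (hv : X none ∉ I)

include hρ hw0 hw hw' hp hv in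
/-- Version over the polynomial ring in the variable of negative weight, by means of a vector
field. -/
lemma relative_star' (a : Option N → MvPolynomial (Option N) k)
    (ha : ∀ i, (a i).IsWeightedHomogeneous w (w i)) (ha0 : a none = -X none)
    (haI : ∀ f ∈ I, ∑ i, pderiv i f * a i ∈ I) (s : Option N → MvPolynomial (Option N) k)
    (hs : ∀ i, s i ∈ I) (hs' : ∀ i, (s i).IsWeightedHomogeneous w (w i))
    (hstar : ∀ f ∈ I, ∀ e : ℤ, e < ρ → f.IsWeightedHomogeneous w e →
        f - ∑ i, pderiv i f * s i ∈ shp w ρ I ^ 2) :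
    ∃ t : Option N → MvPolynomial (Option N) k, (∀ i, t i ∈ shp w ρ I) ∧ t none = 0 ∧
      ∀ f ∈ shp w ρ I, f - ∑ i, pderiv i f * t i ∈ shp w ρ I ^ 2 := by
  classical
  have hρ' : (0 : ℤ) < ρ := by exact_mod_cast hρ
  have hwr : ∀ i, w i < ρ := by
    rintro (_ | i)
    · rw [hw0]; linarith
    · exact hw' i
  have hsJ : ∀ i, s i ∈ shp w ρ I := fun i => mem_shp (hs i) (hwr i) (hs' i)
  obtain ⟨η, hη, hηη⟩ := div_wt w ρ hw0 hw (hs' none) 1 (by rw [hw0]; push_cast; linarith) hρ
  have hη0 : w none + (1 : ℕ) * ρ = 0 := by rw [hw0]; push_cast; ring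
  rw [hη0] at hη
  rw [pow_one] at hηη
  have hηI : η ∈ I := by
    have h3 := hs none
    rw [hηη] at h3
    exact (hp.mem_or_mem h3).resolve_left hv
  have hηJ : η ∈ shp w ρ I := mem_shp hηI hρ' hη
  let t : Option N → MvPolynomial (Option N) k := fun i => s i + a i * η
  have htJ : ∀ i, t i ∈ shp w ρ I := fun i =>
    Ideal.add_mem _ (hsJ i) (Ideal.mul_mem_left _ _ hηJ)
  refine ⟨t, htJ, ?_, ?_⟩
  · change s none + a none * η = 0
    rw [hηη, ha0]
    ring
  -- first the generators
  have hgen : ∀ f ∈ I, ∀ e : ℤ, e < ρ → f.IsWeightedHomogeneous w e →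
      f - ∑ i, pderiv i f * t i ∈ shp w ρ I ^ 2 := by
    intro f hf e he hfe
    have h1 := hstar f hf e he hfe
    have h2 : ∑ i, pderiv i f * t i = ∑ i, pderiv i f * s i + η * ∑ i, pderiv i f * a i := by
      rw [Finset.mul_sum, ← Finset.sum_add_distrib]
      refine Finset.sum_congr rfl fun i _ => ?_
      change pderiv i f * (s i + _) = _
      ring
    rw [h2, ← sub_sub]
    refine Ideal.sub_mem _ h1 ?_
    rw [pow_two]
    refine Ideal.mul_mem_mul hηJ (mem_shp (haI f hf) he ?_)
    refine IsWeightedHomogeneous.sum Finset.univ _ e fun i _ => ?_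
    have h4 : (pderiv i f).IsWeightedHomogeneous w (e - w i) := hfe.pderiv (by ring)
    have h5 := h4.mul (ha i)
    rwa [sub_add_cancel] at h5
  intro f hf
  unfold shp at hf
  induction hf using Submodule.span_induction with
  | mem f hf =>
    obtain ⟨hf, e, he, hfe⟩ := hf
    exact hgen f hf e he hfe
  | zero => simp
  | add f g _ _ hf hg =>
    have h1 : f + g - ∑ i, pderiv i (f + g) * t i =
        (f - ∑ i, pderiv i f * t i) + (g - ∑ i, pderiv i g * t i) := by
      simp_rw [map_add, add_mul, Finset.sum_add_distrib]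
      ring
    rw [h1]
    exact Ideal.add_mem _ hf hg
  | smul a f hf' hf =>
    have h1 : a • f - ∑ i, pderiv i (a • f) * t i =
        a * (f - ∑ i, pderiv i f * t i) - f * ∑ i, pderiv i a * t i := by
      simp_rw [smul_eq_mul, Derivation.leibniz, smul_eq_mul, add_mul, Finset.sum_add_distrib,
        mul_sub, Finset.mul_sum]
      have h2 : ∀ i, a * pderiv i f * t i = a * (pderiv i f * t i) := fun i => by ring
      have h3 : ∀ i, f * pderiv i a * t i = f * (pderiv i a * t i) := fun i => by ring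
      simp_rw [h2, h3]
      ring
    rw [h1]
    refine Ideal.sub_mem _ (Ideal.mul_mem_left _ _ hf) ?_
    rw [pow_two]
    exact Ideal.mul_mem_mul hf' (Ideal.sum_mem _ fun i _ => Ideal.mul_mem_left _ _ (htJ i))

include hρ hw0 hw hw' hI hp hv in
/-- Smoothness of the quotient, from the smoothness of its localisation at the variable of
negative weight and a vector field. -/
theorem smooth_sharp' (a : Option N → MvPolynomial (Option N) k)
    (ha : ∀ i, (a i).IsWeightedHomogeneous w (w i)) (ha0 : a none = -X none)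
    (haI : ∀ f ∈ I, ∑ i, pderiv i f * a i ∈ I) {A : Type u} [CommRing A] [Algebra k A]
    [Algebra.FormallySmooth k A] (φ : MvPolynomial (Option N) k →ₐ[k] A)
    (hφ : ∀ f, φ f = 0 ↔ f ∈ I) (hu : IsUnit (φ (X none)))
    (hsurj : ∀ c : A, ∃ (n : ℕ) (f : MvPolynomial (Option N) k), φ (X none) ^ n * c = φ f) :
    Algebra.Smooth k (MvPolynomial (Option N) k ⧸ I) := by
  classical
  obtain ⟨n, r, hr, hstar⟩ := star I φ hφ (X none) hu hsurj
  obtain ⟨s, hs1, hs2, hs3⟩ := graded_star hρ hw0 hw hw' hI hp hv n r hr hstar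
  obtain ⟨t, ht1, ht2, ht3⟩ := relative_star' hρ hw0 hw hw' hp hv a ha ha0 haI s hs1 hs2 hs3
  obtain ⟨h1, h2⟩ := formallySmooth_of_rel (shp w ρ I) t ht1 ht2 ht3
  have h2' : ∀ (n : ℕ) f, X none ^ n * f ∈ shp w ρ I → f ∈ shp w ρ I := by
    intro n
    induction n with
    | zero => intro f hf; simpa using hf
    | succ n ih =>
      intro f hf
      apply ih
      apply h2
      rw [← mul_assoc, ← pow_succ']
      exact hf
  have hJI : shp w ρ I = I := by
    apply le_antisymm shp_le
    intro f hf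
    obtain ⟨s, hs⟩ := exists_sum_wc w f
    rw [hs]
    refine Ideal.sum_mem _ fun e _ => ?_
    obtain ⟨p, m, g', hg', e1, -⟩ := norm_wt hρ hw0 hw hp hv (hI f hf e)
      (weightedHomogeneousComponent_isWeightedHomogeneous e f)
    apply h2' p
    rw [e1]
    exact Ideal.mul_mem_left _ _ hg'
  rw [hJI] at h1
  have hfp : Algebra.FinitePresentation k (MvPolynomial (Option N) k ⧸ I) :=
    Algebra.FinitePresentation.of_finiteType.1 inferInstance
  exact ⟨h1, hfp⟩

end sharp

section low

variable {k K : Type u} [Field k] [Field K] [Algebra k K]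

/-- The subalgebra generated by the elements of degree less than `r` is smooth if there is a
unit of degree `r` and a vector field which multiplies it by one. -/
theorem smooth_low' {C : Subalgebra k (LP K)} (hC : Algebra.Smooth k C) (hgr : Gr C) {r : ℕ}
    (hr : 0 < r) {u : K} (hu0 : u ≠ 0) (hu : hm r u ∈ C) (hu' : hm (-r) u⁻¹ ∈ C)
    (E : Derivation k C C) (hE : E ⟨hm r u, hu⟩ = ⟨hm r u, hu⟩) :
    Algebra.Smooth k (low C r) := by
  classical
  obtain ⟨n, δ, x, hx, hCle⟩ := exists_gens inferInstance hgr hr hu0 hu hu'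
  let w : Option (Fin n) → ℤ := fun o => o.elim (-r) δ
  let y : Option (Fin n) → K := fun o => o.elim u⁻¹ x
  let φ0 := gmap k w y
  have hφ0X : ∀ i, φ0 (X i) = hm (w i) (y i) := gmap_X w y
  have hr' : (0 : ℤ) < r := by exact_mod_cast hr
  have hyC : ∀ i, hm (w i) (y i) ∈ low C r := by
    rintro (_ | i)
    · refine mem_low hu' ?_
      change -(r : ℤ) < r
      linarith
    · exact mem_low (hx i).2.2 (hx i).2.1
  have hwr : ∀ i, w i < r := by
    rintro (_ | i)
    · change -(r : ℤ) < r
      linarith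
    · exact (hx i).2.1
  have hr1 : φ0.range ≤ low C r := by
    rintro _ ⟨f, rfl⟩
    change φ0 f ∈ low C r
    induction f using MvPolynomial.induction_on with
    | C a => rw [← MvPolynomial.algebraMap_eq, AlgHom.commutes]; exact Subalgebra.algebraMap_mem _ _
    | add f g hf hg => rw [map_add]; exact add_mem hf hg
    | mul_X f i hf => rw [map_mul, hφ0X]; exact mul_mem hf (hyC i)
  have hϖ : hm (-(r : ℤ)) u⁻¹ ∈ φ0.range := ⟨X none, hφ0X none⟩
  have hCloc : C ≤ loc φ0.range (hm (-(r : ℤ)) u⁻¹) hϖ := by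
    refine hCle.trans ?_
    rw [Algebra.adjoin_le_iff]
    rintro f ((rfl | rfl) | ⟨i, rfl⟩)
    · refine inv_mem_loc _ _ _ _ ?_
      rw [hm_mul, neg_add_cancel, inv_mul_cancel₀ hu0, hm_one]
    · exact le_loc _ _ _ hϖ
    · exact le_loc _ _ _ ⟨X (some i), hφ0X (some i)⟩
  have hϖu : IsUnit (hm (-(r : ℤ)) u⁻¹) := isUnit_hm (inv_ne_zero hu0)
  have hX : φ0 (X none) = hm (-(r : ℤ)) u⁻¹ := hφ0X none
  have hr2 : low C r ≤ φ0.range := by
    unfold low
    rw [Algebra.adjoin_le_iff]
    rintro _ ⟨hf, d, a, hd, rfl⟩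
    obtain ⟨m, hm'⟩ := hCloc hf
    obtain ⟨f, hf⟩ := hm'
    have hf : φ0 f = hm (-(r : ℤ)) u⁻¹ ^ m * hm d a := hf
    have h1 := gmap_wc (k := k) w y f (m * -(r : ℤ) + d)
    change φ0 _ = hm _ ((φ0 f).coeff _) at h1
    have h2 : hm (-(r : ℤ)) u⁻¹ ^ m * hm d a = hm (m * -(r : ℤ) + d) (u⁻¹ ^ m * a) := by
      rw [hm_pow, hm_mul]
    rw [hf, h2, coeff_hm_same, ← h2] at h1
    obtain ⟨g, -, hg⟩ := div_wt (k := k) w r (by rfl) (fun i => (hx i).1)
      (weightedHomogeneousComponent_isWeightedHomogeneous (w := w) (m * -(r : ℤ) + d) f) m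
      (by linarith) hr
    rw [hg, map_mul, map_pow, hX] at h1
    exact ⟨g, (hϖu.pow m).mul_left_cancel h1⟩
  have hrange : φ0.range = low C r := le_antisymm hr1 hr2
  let I := RingHom.ker (φ0 : MvPolynomial (Option (Fin n)) k →+* LP K)
  have hp : I.IsPrime := RingHom.ker_isPrime _
  have hv : X none ∉ I := by
    intro h
    have h1 : φ0 (X none) = 0 := h
    rw [hX] at h1
    exact hm_ne_zero (inv_ne_zero hu0) h1
  have hI : ∀ f ∈ I, ∀ e, weightedHomogeneousComponent w e f ∈ I := by
    intro f hf e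
    have hf : φ0 f = 0 := hf
    change φ0 _ = 0
    rw [gmap_wc]
    change hm e ((φ0 f).coeff e) = 0
    rw [hf, AddMonoidAlgebra.coeff_zero, Finsupp.zero_apply, hm_zero]
  let φ : MvPolynomial (Option (Fin n)) k →ₐ[k] C :=
    φ0.codRestrict C fun f => low_le C r (hr1 ⟨f, rfl⟩)
  have hφ : ∀ f, ((φ f : C) : LP K) = φ0 f := fun f => rfl
  have hφI : ∀ f, φ f = 0 ↔ f ∈ I := by
    intro f
    constructor
    · intro h
      have h1 : ((φ f : C) : LP K) = 0 := by rw [h]; rfl
      exact h1
    · intro h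
      apply Subtype.ext
      exact h
  -- the vector field
  let v : C := ⟨hm (-(r : ℤ)) u⁻¹, hu'⟩
  let uu : C := ⟨hm r u, hu⟩
  have huv : uu * v = 1 := by
    apply Subtype.ext
    change hm (r : ℤ) u * hm (-(r : ℤ)) u⁻¹ = 1
    rw [hm_mul, add_neg_cancel, mul_inv_cancel₀ hu0, hm_one]
  have hφX : φ (X none) = v := Subtype.ext hX
  have hEv : E v = -v := by
    have h1 := congrArg E huv
    rw [Derivation.leibniz, Derivation.map_one_eq_zero, smul_eq_mul, smul_eq_mul, hE] at h1
    change uu * E v + v * uu = 0 at h1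
    have h2 : uu * (E v + v) = 0 := by rw [mul_add]; linear_combination h1
    have h3 : v * (uu * (E v + v)) = E v + v := by
      rw [← mul_assoc, mul_comm v, huv, one_mul]
    rw [h2, mul_zero] at h3
    exact eq_neg_of_add_eq_zero_left h3.symm
  have hex : ∀ i, ∃ (m : ℕ) (f : MvPolynomial (Option (Fin n)) k),
      v ^ m * E (φ (X i)) = φ f := by
    intro i
    obtain ⟨m, f, hf⟩ := hCloc (E (φ (X i))).2
    refine ⟨m, f, ?_⟩
    apply Subtype.ext
    exact hf.symm
  choose mm A0 hA0 using hex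
  let M : ℕ := Finset.univ.sup mm
  have hM : ∀ i, mm i ≤ M := fun i => Finset.le_sup (Finset.mem_univ i)
  let A : Option (Fin n) → MvPolynomial (Option (Fin n)) k := fun i => X none ^ (M - mm i) * A0 i
  have hA : ∀ i, φ (A i) = v ^ M * E (φ (X i)) := by
    intro i
    change φ (X none ^ (M - mm i) * A0 i) = _
    rw [map_mul, map_pow, hφX, ← hA0, ← mul_assoc, ← pow_add, Nat.sub_add_cancel (hM i)]
  have hEf : ∀ f, E (φ f) = ∑ i, φ (pderiv i f) * E (φ (X i)) := by
    intro f
    refine deriv_formula φ (fun f => E (φ f)) ?_ ?_ ?_ f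
    · intro a
      change E (φ (MvPolynomial.C a)) = 0
      rw [← MvPolynomial.algebraMap_eq, AlgHom.commutes, Derivation.map_algebraMap]
    · intro f g
      rw [map_add, map_add]
    · intro f g
      rw [map_mul, Derivation.leibniz]
      rfl
  have hIA : ∀ f ∈ I, ∑ i, pderiv i f * A i ∈ I := by
    intro f hf
    rw [← hφI, map_sum]
    have h1 : ∑ i, φ (pderiv i f * A i) = v ^ M * E (φ f) := by
      rw [hEf, Finset.mul_sum]
      refine Finset.sum_congr rfl fun i _ => ?_
      rw [map_mul, hA]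
      ring
    rw [h1, (hφI f).2 hf, map_zero, mul_zero]
  have hdiv : ∀ i, ∃ g : MvPolynomial (Option (Fin n)) k, g.IsWeightedHomogeneous w (w i) ∧
      weightedHomogeneousComponent w (w i - M * r) (A i) = X none ^ M * g := by
    intro i
    obtain ⟨g, hg, hgg⟩ := div_wt (k := k) w r (by rfl) (fun i => (hx i).1)
      (weightedHomogeneousComponent_isWeightedHomogeneous (w := w) (w i - M * r) (A i)) M
      (by have := hwr i; linarith) hr
    refine ⟨g, ?_, hgg⟩
    rwa [sub_add_cancel] at hg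
  choose g hg hgg using hdiv
  have hX0 : (X none : MvPolynomial (Option (Fin n)) k) ≠ 0 := X_ne_zero _
  have hgI : ∀ f ∈ I, ∀ e : ℤ, f.IsWeightedHomogeneous w e → ∑ i, pderiv i f * g i ∈ I := by
    intro f hf e hfe
    have h1 := hI _ (hIA f hf) (e - M * r)
    rw [map_sum] at h1
    have h2 : ∑ i, weightedHomogeneousComponent w (e - M * r) (pderiv i f * A i) =
        X none ^ M * ∑ i, pderiv i f * g i := by
      rw [Finset.mul_sum]
      refine Finset.sum_congr rfl fun i _ => ?_
      have h4 : (pderiv i f).IsWeightedHomogeneous w (e - w i) := hfe.pderiv (by ring)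
      rw [wc_mul w h4]
      have h5 : e - M * r - (e - w i) = w i - M * (r : ℤ) := by ring
      rw [h5, hgg]
      ring
    rw [h2] at h1
    exact (hp.mem_or_mem h1).resolve_left fun h2 => hv (hp.mem_of_pow_mem _ h2)
  have hg0 : g none + X none ∈ I := by
    have h1 := gmap_wc (k := k) w y (A none) (w none - M * r)
    change φ0 _ = hm _ ((φ0 _).coeff _) at h1
    rw [hgg, map_mul, map_pow, hX] at h1
    have h2 : φ0 (A none) = -(hm (-(r : ℤ)) u⁻¹ ^ (M + 1)) := by
      have h3 := congrArg (fun z : C => (z : LP K)) (hA none)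
      rw [hφX, hEv] at h3
      have h4 : (((v ^ M * -v : C)) : LP K) = -(hm (-(r : ℤ)) u⁻¹ ^ (M + 1)) := by
        have h5 : (v ^ M * -v : C) = -(v ^ (M + 1)) := by ring
        rw [h5]
        rfl
      exact h3.trans h4
    have h6 : (φ0 (A none)).coeff (w none - M * r) = -(u⁻¹ ^ (M + 1)) := by
      rw [h2, hm_pow, ← hm_neg]
      have h7 : (((M + 1 : ℕ) : ℤ)) * -(r : ℤ) = w none - M * r := by
        change _ = -(r : ℤ) - M * r
        push_cast
        ring
      rw [h7, coeff_hm_same]
    rw [h6] at h1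
    have h8 : hm (w none - M * (r : ℤ)) (-(u⁻¹ ^ (M + 1))) =
        hm (-(r : ℤ)) u⁻¹ ^ M * (-hm (-(r : ℤ)) u⁻¹) := by
      rw [mul_neg, ← pow_succ, hm_pow, ← hm_neg]
      congr 1
      change -(r : ℤ) - M * r = _
      push_cast
      ring
    rw [h8] at h1
    have h9 := (hϖu.pow M).mul_left_cancel h1
    change φ0 _ = 0
    rw [map_add, h9, hX]
    ring
  let a : Option (Fin n) → MvPolynomial (Option (Fin n)) k := fun i =>
    if i = none then -X none else g i
  have ha0 : a none = -X none := if_pos rfl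
  have ha1 : ∀ i, a i - g i ∈ I := by
    intro i
    by_cases h : i = none
    · subst h
      rw [ha0]
      have h1 := I.neg_mem hg0
      have h2 : -X none - g none = -(g none + X none) := by ring
      rw [h2]
      exact h1
    · have h1 : a i = g i := if_neg h
      rw [h1, sub_self]
      exact I.zero_mem
  have ha : ∀ i, (a i).IsWeightedHomogeneous w (w i) := by
    intro i
    by_cases h : i = none
    · subst h
      rw [ha0]
      have h1 := isWeightedHomogeneous_X k w (none : Option (Fin n))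
      intro d hd
      rw [coeff_neg, neg_ne_zero] at hd
      exact h1 hd
    · have h1 : a i = g i := if_neg h
      rw [h1]
      exact hg i
  have haI : ∀ f ∈ I, ∑ i, pderiv i f * a i ∈ I := by
    intro f hf
    obtain ⟨s, hs⟩ := exists_sum_wc w f
    have key : ∀ f' ∈ I, ∀ e : ℤ, f'.IsWeightedHomogeneous w e →
        ∑ i, pderiv i f' * a i ∈ I := by
      intro f' hf' e he
      have h1 : ∑ i, pderiv i f' * a i = ∑ i, pderiv i f' * g i +
          ∑ i, pderiv i f' * (a i - g i) := by
        rw [← Finset.sum_add_distrib]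
        refine Finset.sum_congr rfl fun i _ => ?_
        ring
      rw [h1]
      exact I.add_mem (hgI f' hf' e he) (I.sum_mem fun i _ => I.mul_mem_left _ (ha1 i))
    have h2 : ∑ i, pderiv i f * a i = ∑ e ∈ s, ∑ i,
        pderiv i (weightedHomogeneousComponent w e f) * a i := by
      conv_lhs => rw [hs]
      rw [Finset.sum_comm]
      refine Finset.sum_congr rfl fun i _ => ?_
      rw [map_sum, Finset.sum_mul]
    rw [h2]
    exact I.sum_mem fun e _ => key _ (hI f hf e) e
      (weightedHomogeneousComponent_isWeightedHomogeneous e f)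
  have hsm := smooth_sharp' (k := k) (w := w) (ρ := r) (I := I) hr rfl (fun i => (hx i).1)
    (fun i => (hx i).2.1) hI hp hv a ha ha0 haI φ hφI ?_ ?_
  · have e1 : (MvPolynomial (Option (Fin n)) k ⧸ I) ≃ₐ[k] φ0.range :=
      Ideal.quotientKerEquivRange φ0
    have h1 : Algebra.Smooth k φ0.range := Algebra.Smooth.of_equiv e1
    rwa [hrange] at h1
  · refine IsUnit.of_mul_eq_one ⟨hm r u, hu⟩ ?_
    apply Subtype.ext
    change φ0 (X none) * hm r u = 1
    rw [hX, hm_mul, neg_add_cancel, inv_mul_cancel₀ hu0, hm_one]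
  · rintro ⟨c, hc⟩
    obtain ⟨m, f, hf⟩ := hCloc hc
    refine ⟨m, f, ?_⟩
    apply Subtype.ext
    change φ0 (X none) ^ m * c = φ0 f
    rw [hX]
    exact hf.symm

end low

end Pool.Agent.H920R2
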