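import Pool.Agent.H920R2.Gn2

set_option autoImplicit false
set_option linter.unusedSectionVars false

universe u v

namespace Pool.Agent.H920R2

section good

variable {k K : Type u} [Field k] [Field K] [Algebra k K]

/-- The subalgebra contains a unit of positive degree at most `ρ` and there is a vector field
which multiplies it by one. -/
def GoodUnit (C : Subalgebra k (LP K)) (ρ : ℕ) : Prop :=
  ∃ r : ℕ, 0 < r ∧ r ≤ ρ ∧ ∃ (v : K) (_ : v ≠ 0) (hv : hm r v ∈ C) (_ : hm (-r) v⁻¹ ∈ C)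
    (E : Derivation k C C), E ⟨hm r v, hv⟩ = ⟨hm r v, hv⟩

variable {C : Subalgebra k (LP K)} (hgr : Gr C)

lemma eq_mk_of_cp {d : ℤ} {x : C} (h : cp hgr d x = x) :
    x = ⟨hm d ((x : LP K).coeff d), hgr _ x.2 d⟩ := h.symm

include hgr in
/-- Locally there is a unit whose degree is the order of the stabiliser and a vector field which
multiplies it by one. -/
theorem local_refine (hC : Algebra.Smooth k C) {ρ : ℕ} (hρ : 0 < ρ) {u : K} (hu0 : u ≠ 0)
    (hu : hm ρ u ∈ C) (hu' : hm (-ρ) u⁻¹ ∈ C) (Q : Ideal C) (hQ : Q.IsPrime) :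
    ∃ (g : K) (hg : hm 0 g ∈ C), g ≠ 0 ∧ (⟨hm 0 g, hg⟩ : C) ∉ Q ∧
      GoodUnit (loc C (hm 0 g) hg) ρ := by
  classical
  let S : ℤ → Prop := fun i => ∃ (a : K) (h : hm i a ∈ C), (⟨hm i a, h⟩ : C) ∉ Q
  have hone : (1 : C) ∉ Q := fun h => hQ.ne_top ((Ideal.eq_top_iff_one Q).2 h)
  have hSadd : ∀ i j, S i → S j → S (i + j) := by
    rintro i j ⟨a, ha, ha'⟩ ⟨b, hb, hb'⟩
    refine ⟨a * b, ?_, ?_⟩
    · rw [← hm_mul]; exact C.mul_mem ha hb
    · intro h
      have h1 : (⟨hm i a, ha⟩ : C) * ⟨hm j b, hb⟩ ∈ Q := by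
        have e : (⟨hm i a, ha⟩ : C) * ⟨hm j b, hb⟩ = ⟨hm (i + j) (a * b), by
          rw [← hm_mul]; exact C.mul_mem ha hb⟩ := Subtype.ext (hm_mul _ _ _ _)
        rw [e]; exact h
      rcases hQ.mem_or_mem h1 with h2 | h2
      · exact ha' h2
      · exact hb' h2
  have hS0 : S 0 := by
    refine ⟨1, ?_, ?_⟩
    · rw [hm_one]; exact C.one_mem
    · intro h
      apply hone
      have e : (1 : C) = ⟨hm 0 1, by rw [hm_one]; exact C.one_mem⟩ := Subtype.ext hm_one.symm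
      rw [e]; exact h
  have hSn : ∀ (n : ℕ) i, S i → S (n * i) := by
    intro n i hi
    induction n with
    | zero => simpa using hS0
    | succ n ih =>
      have := hSadd _ _ ih hi
      have e : ((n + 1 : ℕ) : ℤ) * i = n * i + i := by push_cast; ring
      rwa [e]
  have hunit : (⟨hm ρ u, hu⟩ : C) * ⟨hm (-ρ) u⁻¹, hu'⟩ = 1 := by
    apply Subtype.ext
    change hm (ρ : ℤ) u * hm (-(ρ : ℤ)) u⁻¹ = 1
    rw [hm_mul, add_neg_cancel, mul_inv_cancel₀ hu0, hm_one]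
  have hSρ : S ρ := ⟨u, hu, fun h => hone (by rw [← hunit]; exact Q.mul_mem_right _ h)⟩
  have hSρ' : S (-ρ) := ⟨u⁻¹, hu', fun h => hone (by rw [← hunit]; exact Q.mul_mem_left _ h)⟩
  have hex : ∃ r : ℕ, 0 < r ∧ S r := ⟨ρ, hρ, hSρ⟩
  let r := Nat.find hex
  obtain ⟨hr, hSr⟩ : 0 < r ∧ S r := Nat.find_spec hex
  have hmin : ∀ m : ℕ, 0 < m → S m → r ≤ m := fun m hm hSm => Nat.find_min' hex ⟨hm, hSm⟩
  have hrρ : r ≤ ρ := hmin ρ hρ hSρ
  have hSr' : S (-r) := by
    have h1 := hSadd _ _ (hSn (ρ - 1) r hSr) (hSn r _ hSρ')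
    have e : ((ρ - 1 : ℕ) : ℤ) * r + r * -(ρ : ℤ) = -r := by
      rw [Nat.cast_sub hρ]
      push_cast
      ring
    rwa [e] at h1
  have hSz : ∀ m : ℤ, S (m * r) := by
    intro m
    rcases le_or_gt 0 m with h | h
    · obtain ⟨n, rfl⟩ := Int.eq_ofNat_of_zero_le h
      exact hSn n _ hSr
    · obtain ⟨n, hn⟩ := Int.eq_ofNat_of_zero_le (a := -m) (by omega)
      have e : m * r = n * -r := by
        have h2 : (n : ℤ) = -m := hn.symm
        rw [h2]; ring
      rw [e]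
      exact hSn n _ hSr'
  have hr' : (0 : ℤ) < r := by exact_mod_cast hr
  have hSdvd : ∀ i, S i → (r : ℤ) ∣ i := by
    intro i hi
    have h1 := hSadd _ _ hi (hSz (-(i / r)))
    have h2 : i + -(i / r) * r = i % r := by
      have := Int.mul_ediv_add_emod i r
      linear_combination (-1 : ℤ) * this
    rw [h2] at h1
    have h3 := Int.emod_nonneg i hr'.ne'
    have h4 := Int.emod_lt_of_pos i hr'
    obtain ⟨n, hn⟩ := Int.eq_ofNat_of_zero_le h3
    rw [hn] at h1 h4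
    rcases Nat.eq_zero_or_pos n with h5 | h5
    · apply Int.dvd_of_emod_eq_zero
      rw [hn, h5]; rfl
    · have h6 := hmin n h5 h1
      exfalso
      have : (n : ℤ) < r := h4
      omega
  obtain ⟨v, hvC, hvQ⟩ := hSr
  obtain ⟨w, hwC, hwQ⟩ := hSr'
  -- the Euler derivation modulo `Q`
  have hE' : ∃ E' : Derivation k C (C ⧸ Q), ∀ d x, cp hgr d x = x →
      E' x = (d / r : ℤ) • Ideal.Quotient.mk Q x := by
    refine exists_mkDer hgr (fun d x => (d / r : ℤ) • Ideal.Quotient.mk Q x) ?_ ?_ ?_ ?_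
    · intro d
      rw [map_zero, smul_zero]
    · intro d x y
      rw [map_add, smul_add]
    · intro d c x
      have h1 : Ideal.Quotient.mk Q (c • x) = c • Ideal.Quotient.mk Q x := rfl
      rw [h1, smul_comm]
    · intro d d' x y hx hy
      have e1 : ∀ (a b : C) (m : ℤ), a • (m • Ideal.Quotient.mk Q b) =
          m • (Ideal.Quotient.mk Q a * Ideal.Quotient.mk Q b) := by
        intro a b m
        rw [smul_comm]
        rfl
      change ((d + d') / r : ℤ) • Ideal.Quotient.mk Q (x * y) =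
        x • ((d' / r : ℤ) • Ideal.Quotient.mk Q y) + y • ((d / r : ℤ) • Ideal.Quotient.mk Q x)
      rw [e1, e1, map_mul]
      by_cases hxQ : x ∈ Q
      · rw [Ideal.Quotient.eq_zero_iff_mem.2 hxQ]; simp
      by_cases hyQ : y ∈ Q
      · rw [Ideal.Quotient.eq_zero_iff_mem.2 hyQ]; simp
      have hd : (r : ℤ) ∣ d := hSdvd d ⟨_, _, by rw [← eq_mk_of_cp hgr hx]; exact hxQ⟩
      rw [Int.add_ediv_of_dvd_left hd, add_smul, mul_comm (Ideal.Quotient.mk Q y), add_comm]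
  obtain ⟨E', hE'⟩ := hE'
  have hfs : Algebra.FormallySmooth k C := hC.formallySmooth
  obtain ⟨E0, hE0⟩ := exists_der Q E'
  let vv : C := ⟨hm r v, hvC⟩
  have hcpv : cp hgr r vv = vv := by
    apply Subtype.ext
    change hm (r : ℤ) ((hm (r : ℤ) v).coeff r) = hm (r : ℤ) v
    rw [coeff_hm_same]
  have hE0v : E0 vv ∉ Q := by
    intro h
    have h1 := hE0 vv
    rw [hE' _ _ hcpv, Int.ediv_self hr'.ne', one_smul, Ideal.Quotient.eq_zero_iff_mem.2 h] at h1
    exact hvQ (Ideal.Quotient.eq_zero_iff_mem.1 h1.symm)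
  obtain ⟨e, heQ⟩ : ∃ e, cp hgr e (E0 vv) ∉ Q := by
    by_contra hcon
    push Not at hcon
    apply hE0v
    rw [cp_sum hgr (E0 vv)]
    exact Q.sum_mem fun d _ => hcon d
  let b : K := ((E0 vv : C) : LP K).coeff e
  have hbC : hm e b ∈ C := hgr _ (E0 vv).2 e
  have hbQ : (⟨hm e b, hbC⟩ : C) ∉ Q := heQ
  have hb0 : b ≠ 0 := by
    intro h
    apply hbQ
    have e1 : (⟨hm e b, hbC⟩ : C) = 0 := by
      apply Subtype.ext
      change hm e b = 0
      rw [h, hm_zero]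
    rw [e1]
    exact Q.zero_mem
  have hSe : S e := ⟨b, hbC, hbQ⟩
  obtain ⟨c, hc⟩ := hSdvd e hSe
  obtain ⟨z, hzC, hzQ⟩ : S (-e) := by
    have := hSz (-c)
    have e1 : -c * (r : ℤ) = -e := by rw [hc]; ring
    rwa [e1] at this
  -- the homogeneous component of the derivation
  have hE1 : ∃ E1 : Derivation k C C, ∀ d x, cp hgr d x = x →
      E1 x = cp hgr (d + (e - r)) (E0 x) := by
    refine exists_mkDer hgr (fun d x => cp hgr (d + (e - r)) (E0 x)) ?_ ?_ ?_ ?_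
    · intro d
      rw [map_zero, cp_zero]
    · intro d x y
      rw [map_add, cp_add]
    · intro d c x
      rw [Derivation.map_smul, cp_smul]
    · intro d d' x y hx hy
      change cp hgr (d + d' + (e - r)) (E0 (x * y)) =
        x • cp hgr (d' + (e - r)) (E0 y) + y • cp hgr (d + (e - r)) (E0 x)
      rw [Derivation.leibniz, cp_add, smul_eq_mul, smul_eq_mul, smul_eq_mul, smul_eq_mul]
      have h1 := cp_mul hgr d (d' + (e - r)) x (E0 y)
      have h2 := cp_mul hgr d' (d + (e - r)) y (E0 x)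
      rw [hx] at h1
      rw [hy] at h2
      have e1 : d + d' + (e - r) = d + (d' + (e - r)) := by ring
      have e2 : d + d' + (e - r) = d' + (d + (e - r)) := by ring
      rw [← h1, ← h2, ← e1, ← e2]
  obtain ⟨E1, hE1⟩ := hE1
  have hE1v : E1 vv = ⟨hm e b, hbC⟩ := by
    rw [hE1 r vv hcpv]
    have e1 : (r : ℤ) + (e - r) = e := by ring
    rw [e1]
    rfl
  have hv0 : v ≠ 0 := by
    intro h
    apply hvQ
    have e1 : (⟨hm r v, hvC⟩ : C) = 0 := by
      apply Subtype.ext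
      change hm (r : ℤ) v = 0
      rw [h, hm_zero]
    rw [e1]
    exact Q.zero_mem
  have hw0 : w ≠ 0 := by
    intro h
    apply hwQ
    have e1 : (⟨hm (-r) w, hwC⟩ : C) = 0 := by
      apply Subtype.ext
      change hm (-r : ℤ) w = 0
      rw [h, hm_zero]
    rw [e1]
    exact Q.zero_mem
  have hz0 : z ≠ 0 := by
    intro h
    apply hzQ
    have e1 : (⟨hm (-e) z, hzC⟩ : C) = 0 := by
      apply Subtype.ext
      change hm (-e : ℤ) z = 0
      rw [h, hm_zero]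
    rw [e1]
    exact Q.zero_mem
  let g : K := v * w * (b * z)
  have hg0 : g ≠ 0 := mul_ne_zero (mul_ne_zero hv0 hw0) (mul_ne_zero hb0 hz0)
  have hgeq : hm 0 g = (hm (r : ℤ) v * hm (-r : ℤ) w) * (hm e b * hm (-e) z) := by
    rw [hm_mul, hm_mul, hm_mul]
    congr 1
    ring
  have hgC : hm 0 g ∈ C := by
    rw [hgeq]
    exact C.mul_mem (C.mul_mem hvC hwC) (C.mul_mem hbC hzC)
  refine ⟨g, hgC, hg0, ?_, ?_⟩
  · intro h
    have h1 : ((⟨hm r v, hvC⟩ : C) * ⟨hm (-r) w, hwC⟩) * (⟨hm e b, hbC⟩ * ⟨hm (-e) z, hzC⟩) ∈ Q := by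
      have e1 : ((⟨hm r v, hvC⟩ : C) * ⟨hm (-r) w, hwC⟩) * (⟨hm e b, hbC⟩ * ⟨hm (-e) z, hzC⟩) =
          ⟨hm 0 g, hgC⟩ := Subtype.ext hgeq.symm
      rw [e1]; exact h
    rcases hQ.mem_or_mem h1 with h2 | h2
    · rcases hQ.mem_or_mem h2 with h3 | h3
      · exact hvQ h3
      · exact hwQ h3
    · rcases hQ.mem_or_mem h2 with h3 | h3
      · exact hbQ h3
      · exact hzQ h3
  · obtain ⟨E2, hE2⟩ := exists_der_loc hgC (isUnit_hm hg0) E1
    have hv1 : hm r v ∈ loc C (hm 0 g) hgC := le_loc _ _ _ hvC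
    have hv2 : hm (-r) v⁻¹ ∈ loc C (hm 0 g) hgC := by
      refine ⟨1, ?_⟩
      have e1 : hm 0 g ^ 1 * hm (-r) v⁻¹ = hm (-r : ℤ) w * (hm e b * hm (-e) z) := by
        rw [pow_one, hm_mul, hm_mul, hm_mul]
        congr 1
        · ring
        · change v * w * (b * z) * v⁻¹ = _
          field_simp
      rw [e1]
      exact C.mul_mem hwC (C.mul_mem hbC hzC)
    have hb2 : hm (-e) b⁻¹ ∈ loc C (hm 0 g) hgC := by
      refine ⟨1, ?_⟩
      have e1 : hm 0 g ^ 1 * hm (-e) b⁻¹ = (hm (r : ℤ) v * hm (-r : ℤ) w) * hm (-e) z := by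
        rw [pow_one, hm_mul, hm_mul, hm_mul]
        congr 1
        · ring
        · change v * w * (b * z) * b⁻¹ = _
          field_simp
      rw [e1]
      exact C.mul_mem (C.mul_mem hvC hwC) hzC
    let T := loc C (hm 0 g) hgC
    refine ⟨r, hr, hrρ, v, hv0, hv1, hv2, ((⟨hm r v, hv1⟩ : T) * ⟨hm (-e) b⁻¹, hb2⟩) • E2, ?_⟩
    apply Subtype.ext
    have h1 : (((((⟨hm r v, hv1⟩ : T) * ⟨hm (-e) b⁻¹, hb2⟩) • E2) ⟨hm r v, hv1⟩ : T) : LP K) =
        (hm r v * hm (-e) b⁻¹) * ((E2 ⟨hm r v, hv1⟩ : T) : LP K) := rfl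
    rw [h1]
    have h2 := hE2 vv
    rw [hE1v] at h2
    have h3 : ((E2 ⟨hm r v, hv1⟩ : T) : LP K) = hm e b := h2
    rw [h3, mul_assoc, hm_mul, neg_add_cancel, inv_mul_cancel₀ hb0, hm_one, mul_one]

end good

end Pool.Agent.H920R2
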