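import Pool.Agent.H920R2.Gn3
import Pool.Agent.H920R2.Gr5

set_option autoImplicit false
set_option linter.unusedSectionVars false

open AlgebraicGeometry CategoryTheory

universe u v

namespace Pool.Agent.H920R2

section fin

variable {k K : Type u} [Field k] [Field K] [Algebra k K]

lemma hm_sum {ι : Type*} (s : Finset ι) (d : ℤ) (a : ι → K) :
    hm d (∑ i ∈ s, a i) = ∑ i ∈ s, hm d (a i) := by
  classical
  induction s using Finset.induction_on with
  | empty => simp [hm_zero]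
  | insert i s hi ih => rw [Finset.sum_insert hi, Finset.sum_insert hi, hm_add, ih]

/-- Finitely many localizations which have a good unit cover. -/
theorem fin_refine {C : Subalgebra k (LP K)} (hgr : Gr C) (hC : Algebra.Smooth k C) {ρ r : ℕ}
    (hr : 0 < r) (hrρ : r ≤ ρ) {u : K} (hu0 : u ≠ 0)
    (hu : hm r u ∈ C) (hu' : hm (-r) u⁻¹ ∈ C) :
    ∃ (m : ℕ) (g : Fin m → K) (hg : ∀ i, hm 0 (g i) ∈ C), (∀ i, g i ≠ 0) ∧
      (∀ i, GoodUnit (loc C (hm 0 (g i)) (hg i)) ρ) ∧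
      ∃ c : Fin m → K, (∀ i, hm 0 (c i) ∈ C) ∧ ∑ i, c i * g i = 1 := by
  classical
  let G : Set C := {x | ∃ (g : K) (hg : hm 0 g ∈ C), g ≠ 0 ∧ x = ⟨hm 0 g, hg⟩ ∧
    GoodUnit (loc C (hm 0 g) hg) ρ}
  have hspan : Ideal.span G = ⊤ := by
    by_contra hcon
    obtain ⟨Q, hQ, hGQ⟩ := Ideal.exists_le_maximal _ hcon
    obtain ⟨g, hg, hg0, hgQ, hgood⟩ := local_refine hgr hC hr hu0 hu hu' Q hQ.isPrime
    refine hgQ (hGQ (Ideal.subset_span ⟨g, hg, hg0, rfl, ?_⟩))
    obtain ⟨r', h1, h2, h3⟩ := hgood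
    exact ⟨r', h1, h2.trans hrρ, h3⟩
  have h1 : (1 : C) ∈ Ideal.span G := by rw [hspan]; trivial
  obtain ⟨m, f, y, hsum⟩ := Submodule.mem_span_set'.1 h1
  choose g hg hg0 hgy hgood using fun i => (y i).2
  refine ⟨m, g, hg, hg0, hgood, fun i => ((f i : C) : LP K).coeff 0,
    fun i => hgr _ (f i).2 0, ?_⟩
  have h2 : (∑ i, ((f i : C) : LP K) * hm 0 (g i)) = 1 := by
    have h3 := congrArg (fun z : C => (z : LP K)) hsum
    simp only [AddSubmonoidClass.coe_finsetSum, smul_eq_mul, MulMemClass.coe_mul] at h3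
    refine Eq.trans ?_ h3
    refine Finset.sum_congr rfl fun i _ => ?_
    rw [hgy i]
  have h4 := congrArg (fun z => z.coeff 0) h2
  have h5 : ∀ s : Finset (Fin m), (∑ i ∈ s, ((f i : C) : LP K) * hm 0 (g i)).coeff 0 =
      ∑ i ∈ s, ((f i : C) : LP K).coeff 0 * g i := by
    intro s
    rw [AddMonoidAlgebra.coeff_sum, Finsupp.finsetSum_apply]
    refine Finset.sum_congr rfl fun i _ => ?_
    rw [mul_comm, coeff_hm_mul, sub_zero, mul_comm]
  rw [h5, ← hm_one, coeff_hm_same] at h4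
  exact h4

end fin

section refine

variable {k A K : Type u} [Field k] [CommRing A] [IsDomain A] [Algebra k A] [Field K]
  [Algebra k K] {g : A →ₐ[k] K}

/-- Every atlas can be refined to one with good units. -/
theorem atlas_refine {ρ : ℕ} {T : Type u} [Finite T] {C : T → Subalgebra k (LP K)} {H : T → K}
    (h : Atlas g ρ C H) :
    ∃ (T' : Type u) (_ : Finite T') (C' : T' → Subalgebra k (LP K)) (H' : T' → K),
      Atlas g ρ C' H' ∧ ∀ t, GoodUnit (C' t) ρ := by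
  classical
  choose r hr hrρ u hu0 hu hu' using h.un
  choose m γ hγ hγ0 hgood c hc hsum using fun t => fin_refine (h.gr t) (h.sm t) (hr t) (hrρ t)
    (hu0 t) (hu t) (hu' t)
  let T' := Σ t, Fin (m t)
  have hfinT : Fintype T := Fintype.ofFinite T
  let γ' : T' → K := fun p => γ p.1 p.2
  have hγ' : ∀ p : T', hm 0 (γ' p) ∈ C p.1 := fun p => hγ p.1 p.2
  have hγ'0 : ∀ p : T', γ' p ≠ 0 := fun p => hγ0 p.1 p.2
  choose n1 hn1 using fun (t : T) (p : T') => h.gl t p.1 _ (hγ' p)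
  choose n3 a3 hn3 using fun p : T' => h.dn p.1 _ (hγ' p)
  let N1 : ℕ := Finset.univ.sup fun t => Finset.univ.sup (n1 t)
  let N3 : ℕ := Finset.univ.sup n3
  have hN1 : ∀ t p, n1 t p ≤ N1 := fun t p => (Finset.le_sup (f := n1 t) (Finset.mem_univ p)).trans
    (Finset.le_sup (f := fun t => Finset.univ.sup (n1 t)) (Finset.mem_univ t))
  have hN3 : ∀ p, n3 p ≤ N3 := fun p => Finset.le_sup (Finset.mem_univ p)
  let N : ℕ := N1 + N3 + 1
  have F1 : ∀ (t : T) (p : T') (m a : ℕ), m * N1 ≤ a →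
      hm 0 (H p.1 / H t) ^ a * hm 0 (γ' p) ^ m ∈ C t := by
    intro t p m a ha
    obtain ⟨b, rfl⟩ := Nat.exists_eq_add_of_le ha
    obtain ⟨c, hc⟩ := Nat.exists_eq_add_of_le (hN1 t p)
    have h3 : hm 0 (H p.1 / H t) ^ (m * N1 + b) * hm 0 (γ' p) ^ m =
        hm 0 (H p.1 / H t) ^ (m * c + b) *
          (hm 0 (H p.1 / H t) ^ n1 t p * hm 0 (γ' p)) ^ m := by
      rw [hc]; ring
    rw [h3]
    exact (C t).mul_mem ((C t).pow_mem (h.rt t p.1) _) ((C t).pow_mem (hn1 t p) _)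
  let H' : T' → K := fun p => H p.1 ^ N * γ' p
  have hH'0 : ∀ p, H' p ≠ 0 := fun p => mul_ne_zero (pow_ne_zero _ (h.H0 _)) (hγ'0 p)
  let C' : T' → Subalgebra k (LP K) := fun p => loc (C p.1) (hm 0 (γ' p)) (hγ' p)
  have hratio : ∀ (p p' : T') (n : ℕ), hm 0 (γ' p) ^ n * hm 0 (H' p' / H' p) ^ n =
      hm 0 (H p'.1 / H p.1) ^ (n * N) * hm 0 (γ' p') ^ n := by
    intro p p' n
    have h1 : hm 0 (γ' p) * hm 0 (H' p' / H' p) =
        hm 0 (H p'.1 / H p.1) ^ N * hm 0 (γ' p') := by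
      have e1 := h.H0 p.1
      have e2 := hγ'0 p
      have e3 : γ' p * (H' p' / H' p) = (H p'.1 / H p.1) ^ N * γ' p' := by
        change γ' p * ((H p'.1 ^ N * γ' p') / (H p.1 ^ N * γ' p)) = _
        rw [div_pow]
        field_simp
      rw [hm_pow, hm_mul, hm_mul, mul_zero, e3]
    rw [← mul_pow, h1]
    ring
  refine ⟨T', inferInstance, C', H', ?_, fun p => hgood p.1 p.2⟩
  refine
    { H0 := hH'0
      hA := ?_
      sm := fun p => smooth_loc (h.sm p.1) _ (isUnit_hm (hγ'0 p))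
      gr := fun p => gr_loc (h.gr p.1) (hγ'0 p) _
      ss := fun p => le_loc _ _ _ (h.ss p.1)
      un := ?_
      aa := fun p a => le_loc _ _ _ (h.aa p.1 a)
      rt := ?_
      gl := ?_
      dn := ?_
      cv := ?_ }
  · intro p
    obtain ⟨b, hb⟩ := h.hA p.1
    have h1 : n3 p ≤ N := by
      have := hN3 p
      change n3 p ≤ N1 + N3 + 1
      omega
    obtain ⟨c, hc⟩ := Nat.exists_eq_add_of_le h1
    refine ⟨b ^ c * a3 p, ?_⟩
    change H p.1 ^ N * γ' p = _
    rw [map_mul, map_pow, ← hb, ← hn3, hc]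
    ring
  · intro p
    obtain ⟨r, h1, h2, v, hv0, hv, hv', -⟩ := hgood p.1 p.2
    exact ⟨r, h1, h2, v, hv0, hv, hv'⟩
  · intro p p'
    refine ⟨1, ?_⟩
    have h1 := hratio p p' 1
    rw [pow_one, pow_one, pow_one, one_mul] at h1
    rw [pow_one, h1]
    have h2 := F1 p.1 p' 1 N (by change 1 * N1 ≤ N1 + N3 + 1; omega)
    rwa [pow_one] at h2
  · intro p p' f hf
    obtain ⟨m, hm'⟩ := hf
    obtain ⟨n0, hn0⟩ := h.gl p.1 p'.1 _ hm'
    let n := n0 + m
    refine ⟨n, n, ?_⟩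
    have h2 : n0 * N1 + n0 ≤ n * N := by
      have e3 : n * N = n0 * N1 + n0 + (n0 * N3 + m * N) := by
        change (n0 + m) * (N1 + N3 + 1) = n0 * N1 + n0 + (n0 * N3 + m * (N1 + N3 + 1))
        ring
      omega
    obtain ⟨c', hc'⟩ := Nat.exists_eq_add_of_le h2
    have h3 : hm 0 (γ' p) ^ n * (hm 0 (H' p' / H' p) ^ n * f) =
        (hm 0 (H p'.1 / H p.1) ^ c') *
          ((hm 0 (H p'.1 / H p.1) ^ (n0 * N1) * hm 0 (γ' p') ^ n0) *
          (hm 0 (H p'.1 / H p.1) ^ n0 * (hm 0 (γ' p') ^ m * f))) := by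
      rw [← mul_assoc, hratio, hc']
      change _ * hm 0 (γ' p') ^ (n0 + m) * f = _
      ring
    rw [h3]
    exact (C p.1).mul_mem ((C p.1).pow_mem (h.rt _ _) _)
      ((C p.1).mul_mem (F1 p.1 p' _ _ le_rfl) hn0)
  · intro p y hy
    obtain ⟨m, hm'⟩ := hy
    rw [hm_pow, hm_mul, mul_zero, add_zero] at hm'
    obtain ⟨b, hb⟩ := h.hA p.1
    obtain ⟨e, a, ha⟩ := h.dn p.1 _ hm'
    have h6 : n3 p * e + e ≤ N * (m + e) := by
      have h7 : n3 p + 1 ≤ N := by
        have := hN3 p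
        change n3 p + 1 ≤ N1 + N3 + 1
        omega
      calc n3 p * e + e = (n3 p + 1) * e := by ring
        _ ≤ N * e := Nat.mul_le_mul_right e h7
        _ ≤ N * (m + e) := Nat.mul_le_mul_left N (by omega)
    obtain ⟨c, hc⟩ := Nat.exists_eq_add_of_le h6
    refine ⟨m + e, b ^ c * a3 p ^ e * a, ?_⟩
    change (H p.1 ^ N * γ' p) ^ (m + e) * y = _
    rw [map_mul, map_mul, map_pow, map_pow, ← hb, ← hn3, ← ha, mul_pow, ← pow_mul, hc]
    ring
  · intro V hV
    obtain ⟨t, ht⟩ := h.cv V hV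
    have hex : ∃ i : Fin (m t), V.valuation (γ t i) = 1 := by
      by_contra hcon
      push Not at hcon
      have hlt : ∀ i : Fin (m t), V.valuation (c t i * γ t i) < 1 := by
        intro i
        have h1 : V.valuation (γ t i) < 1 :=
          lt_of_le_of_ne ((V.valuation_le_one_iff _).2 (ht _ (hγ t i))) (hcon i)
        have h2 : V.valuation (c t i) ≤ 1 := (V.valuation_le_one_iff _).2 (ht _ (hc t i))
        rw [map_mul]
        calc V.valuation (c t i) * V.valuation (γ t i) ≤ 1 * V.valuation (γ t i) :=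
              mul_le_mul' h2 le_rfl
          _ < 1 := by rw [one_mul]; exact h1
      have h3 : V.valuation (∑ i, c t i * γ t i) < 1 :=
        Valuation.map_sum_lt _ one_ne_zero fun i _ => hlt i
      rw [hsum, map_one] at h3
      exact lt_irrefl _ h3
    obtain ⟨i, hi⟩ := hex
    refine ⟨⟨t, i⟩, ?_⟩
    rintro y ⟨n, hn⟩
    rw [hm_pow, hm_mul, mul_zero, add_zero] at hn
    have h1 := (V.valuation_le_one_iff _).2 (ht _ hn)
    change V.valuation (γ t i ^ n * y) ≤ 1 at h1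
    rw [map_mul, map_pow, hi, one_pow, one_mul] at h1
    exact (V.valuation_le_one_iff _).1 h1

end refine

end Pool.Agent.H920R2
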