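import Pool.Agent.H920R2.Gr1

set_option autoImplicit false

open MvPolynomial

universe u v

namespace Pool.Agent.H920R2

section aev

variable {k K : Type u} [Field k] [Field K] [Algebra k K]

lemma hm_prod {ι : Type*} (s : Finset ι) (d : ι → ℤ) (a : ι → K) :
    ∏ i ∈ s, hm (d i) (a i) = hm (∑ i ∈ s, d i) (∏ i ∈ s, a i) := by
  classical
  induction s using Finset.induction_on with
  | empty => simp [hm_one]
  | insert i s hi ih => rw [Finset.prod_insert hi, Finset.sum_insert hi, Finset.prod_insert hi, ih,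
      hm_mul]

variable {S : Type} [Fintype S] (w : S → ℤ) (x : S → K)

/-- The map of graded rings which sends a variable to a homogeneous element. -/
noncomputable def gmap (k : Type u) {K : Type u} [Field k] [Field K] [Algebra k K] {S : Type}
    (w : S → ℤ) (x : S → K) : MvPolynomial S k →ₐ[k] LP K :=
  aeval fun i => hm (w i) (x i)

omit [Fintype S] in
lemma gmap_X (i : S) : gmap k w x (X i) = hm (w i) (x i) := by
  unfold gmap; rw [aeval_X]

lemma gmap_monomial (m : S →₀ ℕ) (b : k) :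
    ∃ a, gmap k w x (monomial m b) = hm (Finsupp.weight w m) a := by
  classical
  unfold gmap
  rw [aeval_monomial, algebraMap_LP, Finsupp.prod_fintype _ _ (by intro; simp)]
  simp_rw [hm_pow]
  rw [hm_prod, hm_mul]
  refine ⟨algebraMap k K b * ∏ i, x i ^ m i, ?_⟩
  congr 1
  rw [zero_add, Finsupp.weight_apply, Finsupp.sum_fintype _ _ (by intro; simp)]
  refine Finset.sum_congr rfl fun i _ => ?_
  rw [nsmul_eq_mul]

lemma gmap_wc (f : MvPolynomial S k) (e : ℤ) :
    gmap k w x (weightedHomogeneousComponent w e f) = hm e ((gmap k w x f).coeff e) := by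
  classical
  induction f using MvPolynomial.induction_on' with
  | monomial m b =>
    have h1 : (monomial m b : MvPolynomial S k).IsWeightedHomogeneous w (Finsupp.weight w m) :=
      isWeightedHomogeneous_monomial w m b rfl
    obtain ⟨a, ha⟩ := gmap_monomial (k := k) w x m b
    by_cases h : e = Finsupp.weight w m
    · rw [h, h1.weightedHomogeneousComponent_same, ha, coeff_hm_same]
    · rw [h1.weightedHomogeneousComponent_ne _ h, map_zero, ha, coeff_hm, if_neg (Ne.symm h),
        hm_zero]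
  | add p q hp hq =>
    rw [map_add, map_add, map_add, hp, hq, AddMonoidAlgebra.coeff_add, Finsupp.add_apply, hm_add]

end aev

section smooth

variable {k K : Type u} [Field k] [Field K] [Algebra k K]

lemma zpow_unit_mem {C : Subalgebra k (LP K)} {r : ℤ} {u : K} (hu : hm r u ∈ C)
    (hu' : hm (-r) u⁻¹ ∈ C) (j : ℤ) : hm (j * r) (u ^ j) ∈ C := by
  rcases le_or_gt 0 j with h | h
  · obtain ⟨n, rfl⟩ := Int.eq_ofNat_of_zero_le h
    have := C.pow_mem hu n
    rw [hm_pow] at this
    rwa [zpow_natCast]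
  · obtain ⟨n, hn⟩ := Int.eq_ofNat_of_zero_le (a := -j) (by omega)
    have hj : j = -(n : ℤ) := by
      have : -j = (n : ℤ) := hn
      omega
    subst hj
    have := C.pow_mem hu' n
    rw [hm_pow, inv_pow] at this
    rw [zpow_neg, zpow_natCast]
    have e : -(n : ℤ) * r = n * -r := by ring
    rwa [e]

/-- A subalgebra with a unit of degree `r < ρ` is generated in degrees less than `ρ`. -/
lemma low_eq_of_unit {C : Subalgebra k (LP K)} (hgr : Gr C) {r ρ : ℕ} (hr : 0 < r) (hrρ : r < ρ)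
    {u : K} (hu0 : u ≠ 0) (hu : hm r u ∈ C) (hu' : hm (-r) u⁻¹ ∈ C) : low C ρ = C := by
  apply le_antisymm (low_le C ρ)
  intro f hf
  apply mem_of_comp
  intro d
  have h1 := hgr f hf d
  set a := f.coeff d with ha
  have hr' : (0 : ℤ) < r := by exact_mod_cast hr
  have hmod := Int.emod_lt_of_pos d hr'
  have hdiv := Int.mul_ediv_add_emod d r
  have e1 : hm d a = hm (d % r) (a * u ^ (-(d / r))) * hm (d / r * r) (u ^ (d / r)) := by
    rw [hm_mul]
    congr 1
    · linear_combination (-1 : ℤ) * hdiv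
    · rw [mul_assoc, ← zpow_add₀ hu0, neg_add_cancel, zpow_zero, mul_one]
  have h2 : hm (d % r) (a * u ^ (-(d / r))) ∈ low C ρ := by
    refine mem_low ?_ (by omega)
    have h3 := C.mul_mem h1 (zpow_unit_mem hu hu' (-(d / r)))
    rw [hm_mul] at h3
    have e2 : d + -(d / r) * r = d % r := by linear_combination (-1 : ℤ) * hdiv
    rwa [e2] at h3
  rw [e1]
  refine (low C ρ).mul_mem h2 (zpow_unit_mem (mem_low hu ?_) (mem_low hu' ?_) _)
  · exact_mod_cast hrρ
  · have : (0 : ℤ) < ρ := by exact_mod_cast hr.trans hrρ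
    linarith

/-- Generators of a finitely generated graded subalgebra with a unit of degree `r`. -/
lemma exists_gens {C : Subalgebra k (LP K)} (hft : Algebra.FiniteType k C) (hgr : Gr C) {r : ℕ}
    (hr : 0 < r) {u : K} (hu0 : u ≠ 0) (hu : hm r u ∈ C) (hu' : hm (-r) u⁻¹ ∈ C) :
    ∃ (n : ℕ) (δ : Fin n → ℤ) (x : Fin n → K),
      (∀ i, 0 ≤ δ i ∧ δ i < r ∧ hm (δ i) (x i) ∈ C) ∧
      C ≤ Algebra.adjoin k ({hm r u, hm (-r) u⁻¹} ∪ Set.range fun i => hm (δ i) (x i)) := by
  classical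
  obtain ⟨s, hs⟩ := (Subalgebra.fg_iff_finiteType _).2 hft
  have hr' : (0 : ℤ) < r := by exact_mod_cast hr
  let N := Σ f : s, (f : LP K).coeff.support
  have hN : Fintype N := inferInstance
  let eN : Fin (Fintype.card N) ≃ N := (Fintype.equivFin N).symm
  let δ : N → ℤ := fun p => (p.2 : ℤ) % r
  let x : N → K := fun p => (p.1 : LP K).coeff p.2 * u ^ (-((p.2 : ℤ) / r))
  have hsC : ∀ f ∈ s, f ∈ C := by
    intro f hf
    rw [← hs]
    exact Algebra.subset_adjoin hf
  refine ⟨Fintype.card N, fun i => δ (eN i), fun i => x (eN i), ?_, ?_⟩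
  · intro i
    refine ⟨Int.emod_nonneg _ hr'.ne', Int.emod_lt_of_pos _ hr', ?_⟩
    set p := eN i
    have h1 := hgr _ (hsC _ p.1.2) (p.2 : ℤ)
    have h3 := C.mul_mem h1 (zpow_unit_mem hu hu' (-((p.2 : ℤ) / r)))
    rw [hm_mul] at h3
    have hdiv := Int.mul_ediv_add_emod (p.2 : ℤ) r
    have e2 : (p.2 : ℤ) + -((p.2 : ℤ) / r) * r = (p.2 : ℤ) % r := by
      linear_combination (-1 : ℤ) * hdiv
    rwa [e2] at h3
  · rw [← hs, Algebra.adjoin_le_iff]
    intro f hf
    set D := Algebra.adjoin k ({hm (r : ℤ) u, hm (-(r : ℤ)) u⁻¹} ∪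
      Set.range fun i => hm (δ (eN i)) (x (eN i))) with hD
    have huD : hm (r : ℤ) u ∈ D := Algebra.subset_adjoin (Or.inl (by simp))
    have huD' : hm (-(r : ℤ)) u⁻¹ ∈ D := Algebra.subset_adjoin (Or.inl (by simp))
    change f ∈ D
    rw [eq_sum_hm f]
    refine D.sum_mem fun d hd => ?_
    let p : N := ⟨⟨f, hf⟩, ⟨d, hd⟩⟩
    have h1 : hm (δ p) (x p) ∈ D := by
      refine Algebra.subset_adjoin (Or.inr ⟨eN.symm p, ?_⟩)
      simp only [Equiv.apply_symm_apply]
    have hdiv := Int.mul_ediv_add_emod d r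
    have e1 : hm d (f.coeff d) = hm (δ p) (x p) * hm (d / r * r) (u ^ (d / r)) := by
      rw [hm_mul]
      congr 1
      · change d = d % r + _
        linear_combination (-1 : ℤ) * hdiv
      · change f.coeff d = f.coeff d * u ^ (-(d / r)) * _
        rw [mul_assoc, ← zpow_add₀ hu0, neg_add_cancel, zpow_zero, mul_one]
    rw [e1]
    exact D.mul_mem h1 (zpow_unit_mem huD huD' _)

/-- The subalgebra generated by the elements of degree less than `ρ` is smooth. -/
theorem smooth_low {C : Subalgebra k (LP K)} (hC : Algebra.Smooth k C) (hgr : Gr C) {r ρ : ℕ}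
    (hr : 0 < r) (hrρ : r ≤ ρ) (hrk : (r : k) ≠ 0) {u : K} (hu0 : u ≠ 0) (hu : hm r u ∈ C)
    (hu' : hm (-r) u⁻¹ ∈ C) : Algebra.Smooth k (low C ρ) := by
  classical
  rcases hrρ.lt_or_eq with hlt | rfl
  · rw [low_eq_of_unit hgr hr hlt hu0 hu hu']
    exact hC
  obtain ⟨n, δ, x, hx, hCle⟩ := exists_gens inferInstance hgr hr hu0 hu hu'
  let w : Option (Fin n) → ℤ := fun o => o.elim (-r) δ
  let y : Option (Fin n) → K := fun o => o.elim u⁻¹ x
  let φ0 := gmap k w y
  have hφ0X : ∀ i, φ0 (X i) = hm (w i) (y i) := gmap_X w y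
  have hr' : (0 : ℤ) < r := by exact_mod_cast hr
  have hyC : ∀ i, hm (w i) (y i) ∈ low C r := by
    rintro (_ | i)
    · refine mem_low hu' ?_
      change -(r : ℤ) < r
      linarith
    · exact mem_low (hx i).2.2 (hx i).2.1
  have hr1 : φ0.range ≤ low C r := by
    rintro _ ⟨f, rfl⟩
    change φ0 f ∈ low C r
    induction f using MvPolynomial.induction_on with
    | C a => rw [← MvPolynomial.algebraMap_eq, AlgHom.commutes]; exact Subalgebra.algebraMap_mem _ _
    | add f g hf hg => rw [map_add]; exact add_mem hf hg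
    | mul_X f i hf => rw [map_mul, hφ0X]; exact mul_mem hf (hyC i)
  have hϖ : hm (-(r : ℤ)) u⁻¹ ∈ φ0.range := ⟨X none, hφ0X none⟩
  have hCloc : C ≤ loc φ0.range (hm (-(r : ℤ)) u⁻¹) hϖ := by
    refine hCle.trans ?_
    rw [Algebra.adjoin_le_iff]
    rintro f ((rfl | rfl) | ⟨i, rfl⟩)
    · refine inv_mem_loc _ _ _ _ ?_
      rw [hm_mul, neg_add_cancel, inv_mul_cancel₀ hu0, hm_one]
    · exact le_loc _ _ _ hϖ
    · exact le_loc _ _ _ ⟨X (some i), hφ0X (some i)⟩
  have hϖu : IsUnit (hm (-(r : ℤ)) u⁻¹) := isUnit_hm (inv_ne_zero hu0)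
  have hX : φ0 (X none) = hm (-(r : ℤ)) u⁻¹ := hφ0X none
  have hr2 : low C r ≤ φ0.range := by
    unfold low
    rw [Algebra.adjoin_le_iff]
    rintro _ ⟨hf, d, a, hd, rfl⟩
    obtain ⟨m, hm'⟩ := hCloc hf
    obtain ⟨f, hf⟩ := hm'
    have hf : φ0 f = hm (-(r : ℤ)) u⁻¹ ^ m * hm d a := hf
    have h1 := gmap_wc (k := k) w y f (m * -(r : ℤ) + d)
    change φ0 _ = hm _ ((φ0 f).coeff _) at h1
    have h2 : hm (-(r : ℤ)) u⁻¹ ^ m * hm d a = hm (m * -(r : ℤ) + d) (u⁻¹ ^ m * a) := by
      rw [hm_pow, hm_mul]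
    rw [hf, h2, coeff_hm_same, ← h2] at h1
    obtain ⟨g, -, hg⟩ := div_wt (k := k) w r (by rfl) (fun i => (hx i).1)
      (weightedHomogeneousComponent_isWeightedHomogeneous (w := w) (m * -(r : ℤ) + d) f) m
      (by linarith) hr
    rw [hg, map_mul, map_pow, hX] at h1
    exact ⟨g, (hϖu.pow m).mul_left_cancel h1⟩
  have hrange : φ0.range = low C r := le_antisymm hr1 hr2
  let I := RingHom.ker (φ0 : MvPolynomial (Option (Fin n)) k →+* LP K)
  have hp : I.IsPrime := RingHom.ker_isPrime _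
  have hv : X none ∉ I := by
    intro h
    have h1 : φ0 (X none) = 0 := h
    rw [hX] at h1
    exact hm_ne_zero (inv_ne_zero hu0) h1
  have hI : ∀ f ∈ I, ∀ e, weightedHomogeneousComponent w e f ∈ I := by
    intro f hf e
    have hf : φ0 f = 0 := hf
    change φ0 _ = 0
    rw [gmap_wc]
    change hm e ((φ0 f).coeff e) = 0
    rw [hf, AddMonoidAlgebra.coeff_zero, Finsupp.zero_apply, hm_zero]
  let φ : MvPolynomial (Option (Fin n)) k →ₐ[k] C :=
    φ0.codRestrict C fun f => low_le C r (hr1 ⟨f, rfl⟩)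
  have hφ : ∀ f, ((φ f : C) : LP K) = φ0 f := fun f => rfl
  have hsm := smooth_sharp (k := k) (w := w) (ρ := r) (I := I) hr rfl (fun i => (hx i).1)
    (fun i => (hx i).2.1) hI hp hv hrk φ ?_ ?_ ?_
  · have e1 : (MvPolynomial (Option (Fin n)) k ⧸ I) ≃ₐ[k] φ0.range :=
      Ideal.quotientKerEquivRange φ0
    have h1 : Algebra.Smooth k φ0.range := Algebra.Smooth.of_equiv e1
    rwa [hrange] at h1
  · intro f
    constructor
    · intro h
      have h1 : ((φ f : C) : LP K) = 0 := by rw [h]; rfl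
      exact h1
    · intro h
      apply Subtype.ext
      exact h
  · refine IsUnit.of_mul_eq_one ⟨hm r u, hu⟩ ?_
    apply Subtype.ext
    change φ0 (X none) * hm r u = 1
    rw [hX, hm_mul, neg_add_cancel, inv_mul_cancel₀ hu0, hm_one]
  · rintro ⟨c, hc⟩
    obtain ⟨m, f, hf⟩ := hCloc hc
    refine ⟨m, f, ?_⟩
    apply Subtype.ext
    change φ0 (X none) ^ m * c = φ0 f
    rw [hX]
    exact hf.symm

end smooth

end Pool.Agent.H920R2
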