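import Pool.Agent.H920R2.Gr3
import Pool.Agent.H920R2.Up1

set_option autoImplicit false

open AlgebraicGeometry CategoryTheory

universe u v

namespace Pool.Agent.H920R2

section atlas

variable {k A K : Type u} [Field k] [CommRing A] [IsDomain A] [Algebra k A] [Field K]
  [Algebra k K]

/-- An atlas of a proper model of `Spec A` by quotients of smooth schemes by the multiplicative
group, with stabilisers of order at most `ρ`: the charts are the parts of degree zero of smooth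
graded algebras with a unit of positive degree at most `ρ`. -/
structure Atlas (g : A →ₐ[k] K) (ρ : ℕ) {T : Type u} (C : T → Subalgebra k (LP K)) (H : T → K) :
    Prop where
  H0 : ∀ t, H t ≠ 0
  hA : ∀ t, ∃ a, H t = g a
  sm : ∀ t, Algebra.Smooth k (C t)
  gr : ∀ t, Gr (C t)
  ss : ∀ t, hm (-1) 1 ∈ C t
  un : ∀ t, ∃ r : ℕ, 0 < r ∧ r ≤ ρ ∧ ∃ u : K, u ≠ 0 ∧ hm r u ∈ C t ∧ hm (-r) u⁻¹ ∈ C t
  aa : ∀ t a, hm 0 (g a) ∈ C t
  rt : ∀ t t', hm 0 (H t' / H t) ∈ C t
  gl : ∀ t t', ∀ f ∈ C t', ∃ n : ℕ, hm 0 (H t' / H t) ^ n * f ∈ C t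
  dn : ∀ t x, hm 0 x ∈ C t → ∃ (n : ℕ) (a : A), H t ^ n * x = g a
  cv : ∀ V : ValuationSubring K, (∀ a, g a ∈ V) → ∃ t, ∀ x, hm 0 x ∈ C t → x ∈ V

variable {g : A →ₐ[k] K} (hg : Function.Injective g)

include hg in
/-- An atlas with trivial stabilisers gives a resolution. -/
theorem hasResolution_of_atlas {T : Type u} [Finite T] {C : T → Subalgebra k (LP K)} {H : T → K}
    (h : Atlas g 1 C H) : HasResolution (X := Spec (CommRingCat.of A))
      (Spec.map (CommRingCat.ofHom (algebraMap k A))) := by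
  classical
  have : Fintype T := Fintype.ofFinite T
  have hsm : ∀ t, Algebra.Smooth k (d0 (C t)) := by
    intro t
    obtain ⟨r, hr, hr1, u, hu0, hu, hu'⟩ := h.un t
    have hr' : r = 1 := by omega
    subst hr'
    exact smooth_d0 (h.sm t) (h.gr t) hu0 (by exact_mod_cast hu') (by exact_mod_cast hu)
  have hfg : ∀ t, ∃ G : Finset K, Algebra.adjoin k (G : Set K) = d0 (C t) := by
    intro t
    have h1 := hsm t
    have h2 : Algebra.FiniteType k (d0 (C t)) := inferInstance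
    obtain ⟨G, hG⟩ := (Subalgebra.fg_iff_finiteType _).2 h2
    exact ⟨G, hG⟩
  choose G hG using hfg
  have hGm : ∀ t, ∀ x ∈ G t, hm 0 x ∈ C t := by
    intro t x hx
    have : x ∈ d0 (C t) := by rw [← hG t]; exact Algebra.subset_adjoin hx
    exact this
  -- a common exponent
  have h1 : ∀ p : (Σ t, {x // x ∈ G t}), ∃ n : ℕ, (∃ a, H p.1 ^ n * p.2.1 = g a) ∧
      ∀ t, hm 0 ((H p.1 / H t) ^ n * p.2.1) ∈ C t := by
    rintro ⟨t, x, hx⟩
    obtain ⟨n, a, ha⟩ := h.dn t x (hGm t x hx)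
    choose m hm' using fun t' => h.gl t' t _ (hGm t x hx)
    obtain ⟨b, hb⟩ := h.hA t
    refine ⟨n + Finset.univ.sup m, ⟨b ^ (Finset.univ.sup m) * a, ?_⟩, ?_⟩
    · rw [map_mul, map_pow, ← ha, ← hb]; ring
    · intro t'
      have h2 : m t' ≤ Finset.univ.sup m := Finset.le_sup (Finset.mem_univ t')
      obtain ⟨e, he⟩ := Nat.exists_eq_add_of_le h2
      have h3 : hm 0 ((H t / H t') ^ (n + Finset.univ.sup m) * x) =
          hm 0 (H t / H t') ^ (n + e) * (hm 0 (H t / H t') ^ m t' * hm 0 x) := by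
        rw [hm_pow, hm_pow, hm_mul, hm_mul, he]
        congr 1
        ring
      rw [h3]
      exact (C t').mul_mem ((C t').pow_mem (h.rt t' t) _) (hm' t')
  choose N hN1 hN2 using h1
  let M : ℕ := Finset.univ.sup N
  have hNM : ∀ p, N p ≤ M := fun p => Finset.le_sup (Finset.mem_univ p)
  choose b hb using h.hA
  have h2 : ∀ p : (Σ t, {x // x ∈ G t}), ∃ a, H p.1 ^ M * p.2.1 = g a := by
    intro p
    obtain ⟨a, ha⟩ := hN1 p
    obtain ⟨e, he⟩ := Nat.exists_eq_add_of_le (hNM p)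
    refine ⟨b p.1 ^ e * a, ?_⟩
    rw [map_mul, map_pow, ← ha, ← hb, he]; ring
  choose a ha using h2
  let z : T ⊕ (Σ t, {x // x ∈ G t}) → A := Sum.elim (fun t => b t ^ M) a
  have hz : ∀ t i, hm 0 (g (z i) / g (z (Sum.inl t))) ∈ C t := by
    intro t i
    have e0 : g (z (Sum.inl t)) = H t ^ M := by
      change g (b t ^ M) = _
      rw [map_pow, ← hb]
    rw [e0]
    rcases i with t' | p
    · have e1 : g (z (Sum.inl t')) = H t' ^ M := by
        change g (b t' ^ M) = _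
        rw [map_pow, ← hb]
      have e2 : hm 0 (H t' ^ M / H t ^ M) = hm 0 (H t' / H t) ^ M := by
        rw [hm_pow, mul_zero, div_pow]
      rw [e1, e2]
      exact (C t).pow_mem (h.rt t t') M
    · have e1 : g (z (Sum.inr p)) = H p.1 ^ M * p.2.1 := (ha p).symm
      obtain ⟨e, he⟩ := Nat.exists_eq_add_of_le (hNM p)
      have e2 : hm 0 (H p.1 ^ M * p.2.1 / H t ^ M) =
          hm 0 (H p.1 / H t) ^ e * hm 0 ((H p.1 / H t) ^ N p * p.2.1) := by
        rw [hm_pow, hm_mul, he]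
        congr 1
        rw [← mul_assoc, ← pow_add, div_pow, add_comm]
        ring
      rw [e1, e2]
      exact (C t).mul_mem ((C t).pow_mem (h.rt t p.1) _) (hN2 p t)
  have hz0 : ∀ t, z (Sum.inl t) ≠ 0 := by
    intro t h0
    have e0 : g (z (Sum.inl t)) = H t ^ M := by
      change g (b t ^ M) = _
      rw [map_pow, ← hb]
    rw [h0, map_zero] at e0
    exact pow_ne_zero M (h.H0 t) e0.symm
  refine hasResolution_of_charts' g hg z (Set.range Sum.inl) ?_ ?_
  · intro V hV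
    obtain ⟨t, ht⟩ := h.cv V hV
    exact ⟨Sum.inl t, ⟨t, rfl⟩, hz0 t, fun i => ht _ (hz t i)⟩
  · rintro _ ⟨t, rfl⟩ -
    refine ⟨d0 (C t), hsm t, fun a => h.aa t a, fun i => hz t i, ?_⟩
    rw [← hG t, Algebra.adjoin_le_iff]
    intro x hx
    apply Algebra.subset_adjoin
    right
    refine ⟨Sum.inr ⟨t, x, hx⟩, ?_⟩
    have e0 : g (z (Sum.inl t)) = H t ^ M := by
      change g (b t ^ M) = _
      rw [map_pow, ← hb]
    have e1 : g (z (Sum.inr ⟨t, x, hx⟩)) = H t ^ M * x := (ha ⟨t, x, hx⟩).symm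
    change g (z (Sum.inr ⟨t, x, hx⟩)) / g (z (Sum.inl t)) = x
    rw [e0, e1]
    have := pow_ne_zero M (h.H0 t)
    field_simp

end atlas

end Pool.Agent.H920R2
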