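import Pool.Agent.H920R2.Lin2

set_option autoImplicit false

open Module Submodule

universe u v

namespace Pool.Agent.H920R2

section ext

variable {k : Type u} {W : Type v} [Field k] [AddCommGroup W] [Module k W]
  [FiniteDimensional k W]

lemma extend_family {α : Type} (v : α → W) (hv : LinearIndependent k v) (K : Submodule k W)
    (hK : span k (Set.range v) ≤ K) :
    ∃ (m : ℕ) (u : Fin m → W), LinearIndependent k (Sum.elim v u) ∧
      span k (Set.range (Sum.elim v u)) = K := by
  obtain ⟨C, hC⟩ := Submodule.exists_isCompl (span k (Set.range v))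
  let b := Module.finBasis k (C ⊓ K : Submodule k W)
  refine ⟨_, fun j => (b j : W), ?_, ?_⟩
  · have hb : LinearIndependent k fun j => (b j : W) :=
      b.linearIndependent.map' (Submodule.subtype _) (Submodule.ker_subtype _)
    refine LinearIndependent.sum_type hv hb ?_
    refine hC.disjoint.mono_right ?_
    rw [Submodule.span_le]
    rintro _ ⟨j, rfl⟩
    exact (b j).2.1
  · have hb : span k (Set.range fun j => (b j : W)) = C ⊓ K := by
      have h1 : (Set.range fun j => (b j : W)) = (Submodule.subtype _) '' (Set.range b) := by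
        rw [← Set.range_comp]; rfl
      rw [h1, Submodule.span_image, b.span_eq, Submodule.map_top, Submodule.range_subtype]
    rw [Set.Sum.elim_range, Submodule.span_union, hb, ← sup_inf_assoc_of_le C hK,
      hC.sup_eq_top, top_inf_eq]

lemma empty_family (K : Submodule k W) :
    ∃ (m : ℕ) (u : Fin m → W), LinearIndependent k u ∧ span k (Set.range u) = K := by
  let b := Module.finBasis k K
  refine ⟨_, fun j => (b j : W), ?_, ?_⟩
  · exact b.linearIndependent.map' (Submodule.subtype _) (Submodule.ker_subtype _)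
  · have h1 : (Set.range fun j => (b j : W)) = (Submodule.subtype _) '' (Set.range b) := by
      rw [← Set.range_comp]; rfl
    rw [h1, Submodule.span_image, b.span_eq, Submodule.map_top, Submodule.range_subtype]

/-- Jordan basis of an endomorphism whose cube is zero. -/
theorem jordan3 (N : W →ₗ[k] W) (hN : ∀ w, N (N (N w)) = 0) :
    ∃ (a b c : ℕ) (β : Basis (Vr (Fin a) (Fin b) (Fin c)) k W),
      (∀ i, N (β (Sum.inl i)) = 0) ∧
      (∀ i, N (β (Sum.inr (Sum.inl (Sum.inl i)))) = β (Sum.inl i)) ∧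
      (∀ j, N (β (Sum.inr (Sum.inl (Sum.inr j)))) = 0) ∧
      (∀ ε, N (β (Sum.inr (Sum.inr (Sum.inl ε)))) = β (Sum.inr (Sum.inl ε))) ∧
      ∀ l, N (β (Sum.inr (Sum.inr (Sum.inr l)))) = 0 := by
  classical
  -- the chain of subspaces
  let K0 : Submodule k W := LinearMap.range (N ∘ₗ N)
  let K1 : Submodule k W := LinearMap.range N ⊓ LinearMap.ker N
  let K2 : Submodule k W := LinearMap.ker N
  have h01 : K0 ≤ K1 := by
    rintro _ ⟨w, rfl⟩
    exact ⟨⟨N w, rfl⟩, hN w⟩
  have h12 : K1 ≤ K2 := inf_le_right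
  obtain ⟨a, x, hx1, hx2⟩ := empty_family (k := k) K0
  obtain ⟨b, f, hf1, hf2⟩ := extend_family (k := k) x hx1 K1 (hx2.le.trans h01)
  obtain ⟨c, t, ht1, ht2⟩ := extend_family (k := k) (Sum.elim x f) hf1 K2 (hf2.le.trans h12)
  have hxN : ∀ i, ∃ q, N (N q) = x i := by
    intro i
    have : x i ∈ K0 := by rw [← hx2]; exact subset_span ⟨i, rfl⟩
    obtain ⟨q, hq⟩ := this
    exact ⟨q, hq⟩
  have hfN : ∀ j, ∃ q, N q = f j := by
    intro j
    have : f j ∈ K1 := by rw [← hf2]; exact subset_span ⟨Sum.inr j, rfl⟩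
    obtain ⟨⟨q, hq⟩, -⟩ := this
    exact ⟨q, hq⟩
  choose p hp using hxN
  choose g hg using hfN
  have hx0 : ∀ i, N (x i) = 0 := fun i => by rw [← hp]; exact hN _
  have hf0 : ∀ j, N (f j) = 0 := by
    intro j
    have : f j ∈ K1 := by rw [← hf2]; exact subset_span ⟨Sum.inr j, rfl⟩
    exact this.2
  have ht0 : ∀ l, N (t l) = 0 := by
    intro l
    have : t l ∈ K2 := by rw [← ht2]; exact subset_span ⟨Sum.inr l, rfl⟩
    exact this
  let e : Fin a ⊕ Fin b → W := Sum.elim (fun i => N (p i)) f
  let q : Fin a ⊕ Fin b → W := Sum.elim p g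
  have hqe : ∀ ε, N (q ε) = e ε := by
    rintro (i | j)
    · rfl
    · exact hg j
  let v : Vr (Fin a) (Fin b) (Fin c) → W := Sum.elim x (Sum.elim e (Sum.elim q t))
  have hsumN : ∀ {α : Type} [Fintype α] (c : α → k) (y : α → W),
      N (∑ i, c i • y i) = ∑ i, c i • N (y i) := by
    intro α _ c y
    rw [map_sum]
    exact Finset.sum_congr rfl fun i _ => map_smul _ _ _
  have hli : LinearIndependent k v := by
    rw [Fintype.linearIndependent_iff]
    intro r hr
    have hr' : (∑ i, r (Sum.inl i) • x i) + ((∑ ε, r (Sum.inr (Sum.inl ε)) • e ε) +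
        ((∑ ε, r (Sum.inr (Sum.inr (Sum.inl ε))) • q ε) +
          ∑ l, r (Sum.inr (Sum.inr (Sum.inr l))) • t l)) = 0 := by
      have hA1 := Fintype.sum_sum_type
        (fun y : (Fin a ⊕ Fin b) ⊕ ((Fin a ⊕ Fin b) ⊕ Fin c) => r (Sum.inr y) • v (Sum.inr y))
      have hA2 := Fintype.sum_sum_type (fun y : (Fin a ⊕ Fin b) ⊕ Fin c =>
        r (Sum.inr (Sum.inr y)) • v (Sum.inr (Sum.inr y)))
      rw [Fintype.sum_sum_type, hA1, hA2] at hr
      exact hr
    have hNx : N (∑ i, r (Sum.inl i) • x i) = 0 := by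
      rw [hsumN]; simp [hx0]
    have hNt : N (∑ l, r (Sum.inr (Sum.inr (Sum.inr l))) • t l) = 0 := by
      rw [hsumN]; simp [ht0]
    have hNNe : N (N (∑ ε, r (Sum.inr (Sum.inl ε)) • e ε)) = 0 := by
      rw [Fintype.sum_sum_type, map_add, map_add]
      have e1 : N (N (∑ i : Fin a, r (Sum.inr (Sum.inl (Sum.inl i))) • e (Sum.inl i))) = 0 := by
        rw [hsumN, hsumN]
        refine Finset.sum_eq_zero fun i _ => ?_
        change _ • N (N (N (p i))) = 0
        rw [hN, smul_zero]
      have e2 : N (N (∑ j : Fin b, r (Sum.inr (Sum.inl (Sum.inr j))) • e (Sum.inr j))) = 0 := by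
        rw [hsumN, hsumN]
        refine Finset.sum_eq_zero fun i _ => ?_
        change _ • N (N (f i)) = 0
        rw [hf0, map_zero, smul_zero]
      rw [e1, e2, add_zero]
    -- first step
    have s1 : ∀ i, r (Sum.inr (Sum.inr (Sum.inl (Sum.inl i)))) = 0 := by
      have h := congrArg (fun w => N (N w)) hr'
      simp only [map_add, hNx, hNt, hNNe, map_zero, zero_add, add_zero] at h
      rw [Fintype.sum_sum_type, map_add, map_add] at h
      have e1 : N (N (∑ i : Fin a, r (Sum.inr (Sum.inr (Sum.inl (Sum.inl i)))) •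
          q (Sum.inl i))) = ∑ i : Fin a, r (Sum.inr (Sum.inr (Sum.inl (Sum.inl i)))) • x i := by
        rw [hsumN, hsumN]
        refine Finset.sum_congr rfl fun i _ => ?_
        change _ • N (N (p i)) = _
        rw [hp]
      have e2 : N (N (∑ j : Fin b, r (Sum.inr (Sum.inr (Sum.inl (Sum.inr j)))) •
          q (Sum.inr j))) = 0 := by
        rw [hsumN, hsumN]
        refine Finset.sum_eq_zero fun i _ => ?_
        change _ • N (N (g i)) = 0
        rw [hg, hf0, smul_zero]
      rw [e1, e2, add_zero] at h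
      exact Fintype.linearIndependent_iff.1 hx1 _ h
    -- second step
    have s2 : ∀ y : Fin a ⊕ Fin b, Sum.elim (fun i => r (Sum.inr (Sum.inl (Sum.inl i))))
        (fun j => r (Sum.inr (Sum.inr (Sum.inl (Sum.inr j))))) y = 0 := by
      have h := congrArg (fun w => N w) hr'
      simp only [map_add, hNx, hNt, map_zero, zero_add, add_zero] at h
      rw [Fintype.sum_sum_type, Fintype.sum_sum_type, map_add, map_add] at h
      have e1 : N (∑ i : Fin a, r (Sum.inr (Sum.inl (Sum.inl i))) • e (Sum.inl i)) =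
          ∑ i : Fin a, r (Sum.inr (Sum.inl (Sum.inl i))) • x i := by
        rw [hsumN]
        refine Finset.sum_congr rfl fun i _ => ?_
        change _ • N (N (p i)) = _
        rw [hp]
      have e2 : N (∑ j : Fin b, r (Sum.inr (Sum.inl (Sum.inr j))) • e (Sum.inr j)) = 0 := by
        rw [hsumN]
        refine Finset.sum_eq_zero fun i _ => ?_
        change _ • N (f i) = 0
        rw [hf0, smul_zero]
      have e3 : N (∑ i : Fin a, r (Sum.inr (Sum.inr (Sum.inl (Sum.inl i)))) •
          q (Sum.inl i)) = 0 := by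
        rw [hsumN]
        refine Finset.sum_eq_zero fun i _ => ?_
        rw [s1, zero_smul]
      have e4 : N (∑ j : Fin b, r (Sum.inr (Sum.inr (Sum.inl (Sum.inr j)))) •
          q (Sum.inr j)) = ∑ j : Fin b, r (Sum.inr (Sum.inr (Sum.inl (Sum.inr j)))) • f j := by
        rw [hsumN]
        refine Finset.sum_congr rfl fun i _ => ?_
        change _ • N (g i) = _
        rw [hg]
      rw [e1, e2, e3, e4, add_zero, zero_add] at h
      refine Fintype.linearIndependent_iff.1 hf1 _ ?_
      rw [Fintype.sum_sum_type]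
      exact h
    have s2a : ∀ i, r (Sum.inr (Sum.inl (Sum.inl i))) = 0 := fun i => s2 (Sum.inl i)
    have s2b : ∀ j, r (Sum.inr (Sum.inr (Sum.inl (Sum.inr j)))) = 0 := fun j => s2 (Sum.inr j)
    -- third step
    have s3 : ∀ y : (Fin a ⊕ Fin b) ⊕ Fin c, Sum.elim (Sum.elim (fun i => r (Sum.inl i))
        (fun j => r (Sum.inr (Sum.inl (Sum.inr j)))))
        (fun l => r (Sum.inr (Sum.inr (Sum.inr l)))) y = 0 := by
      refine Fintype.linearIndependent_iff.1 ht1 _ ?_
      rw [Fintype.sum_sum_type, Fintype.sum_sum_type]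
      rw [Fintype.sum_sum_type, Fintype.sum_sum_type (fun ε =>
        r (Sum.inr (Sum.inr (Sum.inl ε))) • q ε)] at hr'
      have e1 : ∑ i : Fin a, r (Sum.inr (Sum.inl (Sum.inl i))) • e (Sum.inl i) = 0 :=
        Finset.sum_eq_zero fun i _ => by rw [s2a, zero_smul]
      have e2 : ∑ i : Fin a, r (Sum.inr (Sum.inr (Sum.inl (Sum.inl i)))) • q (Sum.inl i) = 0 :=
        Finset.sum_eq_zero fun i _ => by rw [s1, zero_smul]
      have e3 : ∑ i : Fin b, r (Sum.inr (Sum.inr (Sum.inl (Sum.inr i)))) • q (Sum.inr i) = 0 :=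
        Finset.sum_eq_zero fun i _ => by rw [s2b, zero_smul]
      rw [e1, e2, e3, add_zero, zero_add, zero_add, ← add_assoc] at hr'
      exact hr'
    rintro (i | (i | j) | (i | j) | l)
    · exact s3 (Sum.inl (Sum.inl i))
    · exact s2a i
    · exact s3 (Sum.inl (Sum.inr j))
    · exact s1 i
    · exact s2b j
    · exact s3 (Sum.inr l)
  have hsp : ⊤ ≤ span k (Set.range v) := by
    intro w _
    have m : ∀ s, v s ∈ span k (Set.range v) := fun s => subset_span ⟨s, rfl⟩
    have mx : ∀ i, x i ∈ span k (Set.range v) := fun i => m (Sum.inl i)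
    have me : ∀ ε, e ε ∈ span k (Set.range v) := fun i => m (Sum.inr (Sum.inl i))
    have mq : ∀ ε, q ε ∈ span k (Set.range v) := fun i => m (Sum.inr (Sum.inr (Sum.inl i)))
    have mt : ∀ l, t l ∈ span k (Set.range v) := fun i => m (Sum.inr (Sum.inr (Sum.inr i)))
    -- kernel
    have w2 : K2 ≤ span k (Set.range v) := by
      rw [← ht2, Submodule.span_le]
      rintro _ ⟨(i | j) | l, rfl⟩
      · exact mx i
      · exact me (Sum.inr j)
      · exact mt l
    have w1 : ∀ w, N w ∈ K1 → w ∈ span k (Set.range v) := by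
      intro w hw
      rw [← hf2, Submodule.mem_span_range_iff_exists_fun] at hw
      obtain ⟨r, hr⟩ := hw
      rw [Fintype.sum_sum_type] at hr
      have h1 : w - ((∑ i : Fin a, r (Sum.inl i) • e (Sum.inl i)) +
          ∑ j : Fin b, r (Sum.inr j) • q (Sum.inr j)) ∈ K2 := by
        change N _ = 0
        rw [map_sub, map_add, hsumN, hsumN, ← hr, sub_eq_zero]
        congr 1
        · refine Finset.sum_congr rfl fun i _ => ?_
          change _ = _ • N (N (p i))
          rw [hp]; rfl
        · refine Finset.sum_congr rfl fun i _ => ?_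
          change _ = _ • N (g i)
          rw [hg]; rfl
      have h2 := w2 h1
      have h3 : (∑ i : Fin a, r (Sum.inl i) • e (Sum.inl i)) +
          ∑ j : Fin b, r (Sum.inr j) • q (Sum.inr j) ∈ span k (Set.range v) :=
        Submodule.add_mem _ (Submodule.sum_mem _ fun i _ => Submodule.smul_mem _ _ (me _))
          (Submodule.sum_mem _ fun i _ => Submodule.smul_mem _ _ (mq _))
      have := Submodule.add_mem _ h2 h3
      rwa [sub_add_cancel] at this
    have hw0 : N (N w) ∈ K0 := ⟨w, rfl⟩
    rw [← hx2, Submodule.mem_span_range_iff_exists_fun] at hw0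
    obtain ⟨r, hr⟩ := hw0
    have h1 : N (w - ∑ i : Fin a, r i • q (Sum.inl i)) ∈ K1 := by
      refine ⟨⟨_, rfl⟩, ?_⟩
      change N (N _) = 0
      rw [map_sub, map_sub, hsumN, hsumN, ← hr, sub_eq_zero]
      refine Finset.sum_congr rfl fun i _ => ?_
      change _ = _ • N (N (p i))
      rw [hp]
    have h2 := w1 _ h1
    have h3 : ∑ i : Fin a, r i • q (Sum.inl i) ∈ span k (Set.range v) :=
      Submodule.sum_mem _ fun i _ => Submodule.smul_mem _ _ (mq _)
    have := Submodule.add_mem _ h2 h3
    rwa [sub_add_cancel] at this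
  refine ⟨a, b, c, Basis.mk hli hsp, ?_, ?_, ?_, ?_, ?_⟩
  · intro i; rw [Basis.mk_apply]; exact hx0 i
  · intro i
    rw [Basis.mk_apply, Basis.mk_apply]
    exact hp i
  · intro j; rw [Basis.mk_apply]; exact hf0 j
  · intro ε; rw [Basis.mk_apply, Basis.mk_apply]; exact hqe ε
  · intro l; rw [Basis.mk_apply]; exact ht0 l

end ext

end Pool.Agent.H920R2
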