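import Mathlib

set_option autoImplicit false

namespace Pool.Agent.H920R2.Km

open Finset

variable {R : Type*} [CommRing R] (u : Rˣ)

/-- The polynomials `A_n^r(q)` at `q = u`. -/
def rk : ℕ → ℕ → R
  | 0, 0 => 1
  | 0, _ + 1 => 0
  | n + 1, 0 => rk n 0
  | n + 1, r + 1 =>
      ((u ^ ((r : ℤ) + 1) : Rˣ) : R) * rk n (r + 1)
        + (((u ^ ((n : ℤ) - r) : Rˣ) : R) - ((u ^ (r : ℤ) : Rˣ) : R)) * rk n r

/-- The triangle `b_{k,l}(q)` at `q = u`. -/
def tri : ℕ → ℕ → R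
  | 0, 0 => 1
  | 0, l + 1 => ((u ^ ((l : ℤ) + 1) : Rˣ) : R) * tri l 0
  | k + 1, l =>
      ((u ^ (-1 : ℤ) : Rˣ) : R) * tri k (l + 1)
        + (((u ^ ((l : ℤ) + 1) : Rˣ) : R) - ((u ^ (l : ℤ) : Rˣ) : R)) * tri l k
termination_by k l => (k + l) * (k + l + 2) + k
decreasing_by all_goals nlinarith

/-- Ways to extend. -/
def ext : ℕ → ℕ → ℕ → R
  | 0, _, _ => 1
  | s + 1, m, r =>
      ((u ^ (r : ℤ) : Rˣ) : R) * ext s (m + 1) r
        + (((u ^ ((m : ℤ) - r) : Rˣ) : R) - ((u ^ (r : ℤ) : Rˣ) : R)) * ext s (m + 1) (r + 1)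

theorem rk_eq_zero (n r : ℕ) (h : n < r) : rk u n r = 0 := by
  induction n generalizing r with
  | zero =>
      obtain ⟨r, rfl⟩ : ∃ s, r = s + 1 := ⟨r - 1, by omega⟩
      simp [rk]
  | succ n ih =>
      obtain ⟨r, rfl⟩ : ∃ s, r = s + 1 := ⟨r - 1, by omega⟩
      rw [rk, ih (r + 1) (by omega), ih r (by omega)]
      simp

theorem sum_succ (a : ℕ) (f : ℕ → R) :
    ∑ ρ ∈ range (a + 2), rk u (a + 1) ρ * f ρ
      = ∑ ρ ∈ range (a + 1), rk u a ρ * (((u ^ (ρ : ℤ) : Rˣ) : R) * f ρ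
        + (((u ^ ((a : ℤ) - ρ) : Rˣ) : R) - ((u ^ (ρ : ℤ) : Rˣ) : R)) * f (ρ + 1)) := by
  rw [sum_range_succ']
  have h1 : ∑ ρ ∈ range (a + 1), rk u a ρ * (((u ^ (ρ : ℤ) : Rˣ) : R) * f ρ)
      = ∑ ρ ∈ range (a + 1), rk u a (ρ + 1) * (((u ^ ((ρ : ℤ) + 1) : Rˣ) : R) * f (ρ + 1))
        + rk u a 0 * f 0 := by
    have h2 := sum_range_succ (fun ρ : ℕ => rk u a ρ * (((u ^ (ρ : ℤ) : Rˣ) : R) * f ρ)) (a + 1)
    rw [rk_eq_zero u a (a + 1) (by omega), zero_mul, add_zero] at h2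
    rw [← h2, sum_range_succ']
    simp
  have h3 : ∀ ρ, rk u (a + 1) (ρ + 1) * f (ρ + 1)
      = rk u a (ρ + 1) * (((u ^ ((ρ : ℤ) + 1) : Rˣ) : R) * f (ρ + 1))
        + rk u a ρ * ((((u ^ ((a : ℤ) - ρ) : Rˣ) : R) - ((u ^ (ρ : ℤ) : Rˣ) : R)) * f (ρ + 1)) := by
    intro ρ
    rw [rk]; ring
  rw [sum_congr rfl fun ρ _ => h3 ρ, sum_add_distrib]
  simp only [mul_add, sum_add_distrib]
  rw [h1, show rk u (a + 1) 0 = rk u a 0 from by rw [rk]]
  ring

theorem ext_shift (s m r : ℕ) :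
    ext u s (m + 2) (r + 1) = ((u ^ (s : ℤ) : Rˣ) : R) * ext u s m r := by
  induction s generalizing m r with
  | zero => simp [ext]
  | succ s ih =>
      rw [ext, ext]
      rw [show m + 2 + 1 = (m + 1) + 2 from rfl, ih (m + 1) r, ih (m + 1) (r + 1)]
      have e1 : ((u ^ (((r + 1 : ℕ)) : ℤ) : Rˣ) : R) = (u : R) * ((u ^ (r : ℤ) : Rˣ) : R) := by
        rw [← Units.val_mul, Nat.cast_succ, add_comm, zpow_add, zpow_one]
      have e2 : ((u ^ (((s + 1 : ℕ)) : ℤ) : Rˣ) : R) = (u : R) * ((u ^ (s : ℤ) : Rˣ) : R) := by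
        rw [← Units.val_mul, Nat.cast_succ, add_comm, zpow_add, zpow_one]
      have e3 : ((u ^ (((m + 2 : ℕ) : ℤ) - ((r + 1 : ℕ) : ℤ)) : Rˣ) : R)
          = (u : R) * ((u ^ ((m : ℤ) - r) : Rˣ) : R) := by
        rw [← Units.val_mul, show ((m + 2 : ℕ) : ℤ) - ((r + 1 : ℕ) : ℤ) = 1 + ((m : ℤ) - r) by
          push_cast; ring, zpow_add, zpow_one]
      rw [e1, e2, e3]
      ring

/-- Row `b + 1` zero. -/
def S (a b : ℕ) : R := ∑ ρ ∈ range (a + 1), rk u a ρ * ext u b (a + 1) ρ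

/-- Column zero. -/
def C (d e : ℕ) : R :=
  ∑ ρ ∈ range (d + 1), rk u d ρ * (((u ^ ((d : ℤ) - ρ) : Rˣ) : R) * ext u e d ρ)

theorem S_step (a b : ℕ) :
    S u a (b + 1) = S u (a + 1) b + ((u : R) - 1) * ((u ^ (b : ℤ) : Rˣ) : R) * C u a b := by
  rw [S, S, C, sum_succ, mul_sum, ← sum_add_distrib]
  refine sum_congr rfl fun ρ _ => ?_
  rw [show a + 1 + 1 = a + 2 from rfl, ext_shift, ext, show a + 1 + 1 = a + 2 from rfl, ext_shift]
  have e3 : ((u ^ (((a + 1 : ℕ) : ℤ) - (ρ : ℤ)) : Rˣ) : R)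
      = (u : R) * ((u ^ ((a : ℤ) - ρ) : Rˣ) : R) := by
    rw [← Units.val_mul, show ((a + 1 : ℕ) : ℤ) - (ρ : ℤ) = 1 + ((a : ℤ) - ρ) by
      push_cast; ring, zpow_add, zpow_one]
  rw [e3]
  ring

theorem C_step (d e : ℕ) :
    C u (d + 1) e = C u d (e + 1) + ((u : R) - 1) * ((u ^ (d : ℤ) : Rˣ) : R) * S u d e := by
  rw [S, C, C, sum_succ, mul_sum, ← sum_add_distrib]
  refine sum_congr rfl fun ρ _ => ?_
  rw [ext]
  have e3 : ((u ^ (((d + 1 : ℕ) : ℤ) - (ρ : ℤ)) : Rˣ) : R)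
      = (u : R) * ((u ^ ((d : ℤ) - ρ) : Rˣ) : R) := by
    rw [← Units.val_mul, show ((d + 1 : ℕ) : ℤ) - (ρ : ℤ) = 1 + ((d : ℤ) - ρ) by
      push_cast; ring, zpow_add, zpow_one]
  have e4 : ((u ^ (((d + 1 : ℕ) : ℤ) - ((ρ + 1 : ℕ) : ℤ)) : Rˣ) : R)
      = ((u ^ ((d : ℤ) - ρ) : Rˣ) : R) := by
    rw [show ((d + 1 : ℕ) : ℤ) - ((ρ + 1 : ℕ) : ℤ) = (d : ℤ) - ρ by push_cast; ring]
  have e5 : ((u ^ (d : ℤ) : Rˣ) : R) = ((u ^ ((d : ℤ) - ρ) : Rˣ) : R) * ((u ^ (ρ : ℤ) : Rˣ) : R) := by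
    rw [← Units.val_mul, ← zpow_add, sub_add_cancel]
  rw [e3, e4, e5]
  ring

theorem ext_zero (s : ℕ) (n : ℕ) :
    ∑ ρ ∈ range (n + 1), rk u n ρ * ext u s n ρ
      = ∑ ρ ∈ range (n + s + 1), rk u (n + s) ρ := by
  induction s generalizing n with
  | zero => simp [ext]
  | succ s ih =>
      rw [show n + (s + 1) + 1 = (n + 1) + s + 1 by ring, show n + (s + 1) = (n + 1) + s by ring,
        ← ih (n + 1), sum_succ]
      refine sum_congr rfl fun ρ _ => ?_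
      rw [ext]

theorem S_eq_C (n : ℕ) : ∀ a b : ℕ, a + b = n → S u a b = C u b a := by
  induction n using Nat.strong_induction_on with
  | _ n ihn =>
    intro a b hab
    induction b generalizing a with
    | zero =>
        have h1 : S u a 0 = ∑ ρ ∈ range (a + 1), rk u a ρ := by simp [S, ext]
        have h2 := ext_zero u a 0
        simp only [zero_add] at h2
        rw [h1, ← h2]
        simp [C]
    | succ b ihb =>
        rw [S_step, C_step, ihb (a + 1) (by omega), ihn (b + a) (by omega) b a rfl]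

theorem tri_eq (n : ℕ) : ∀ k l : ℕ, k + l = n →
    tri u k l = ((u ^ (l : ℤ) : Rˣ) : R) * S u l k := by
  induction n using Nat.strong_induction_on with
  | _ n ihn =>
    intro k l hkl
    induction k generalizing l with
    | zero =>
        cases l with
        | zero => simp [tri, S, ext, rk]
        | succ l =>
            rw [tri, ihn l (by omega) l 0 (by omega), Nat.cast_succ]
            have h1 : S u (l + 1) 0 = S u 0 l := by
              have h1 : S u (l + 1) 0 = ∑ ρ ∈ range (l + 2), rk u (l + 1) ρ := by simp [S, ext]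
              have h2 := ext_zero u (l + 1) 0
              simp only [zero_add] at h2
              rw [h1, ← h2]
              simp [S, ext]
            rw [h1]
            simp
    | succ k ihk =>
        rw [tri, ihk (l + 1) (by omega), ihn (l + k) (by omega) l k rfl, S_step,
          ← S_eq_C u _ k l rfl]
        have e1 : ((u ^ ((l + 1 : ℕ) : ℤ) : Rˣ) : R) = (u : R) * ((u ^ (l : ℤ) : Rˣ) : R) := by
          rw [← Units.val_mul, Nat.cast_succ, add_comm, zpow_add, zpow_one]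
        have e2 : ((u ^ ((l : ℤ) + 1) : Rˣ) : R) = (u : R) * ((u ^ (l : ℤ) : Rˣ) : R) := by
          rw [← Units.val_mul, add_comm, zpow_add, zpow_one]
        have e3 : ((u ^ (-1 : ℤ) : Rˣ) : R) * (u : R) = 1 := by
          rw [← Units.val_mul]; simp
        rw [e1, e2]
        linear_combination (((u ^ (l : ℤ) : Rˣ) : R) * S u (l + 1) k) * e3

theorem main (n : ℕ) : ∑ r ∈ range (n + 2), rk u (n + 1) r = tri u n 0 := by
  rw [tri_eq u n n 0 rfl]
  have h2 := ext_zero u (n + 1) 0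
  simp only [zero_add] at h2
  rw [← h2]
  simp [S, ext]

end Pool.Agent.H920R2.Km
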