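import Pool.Agent.H920R2.Km1

set_option autoImplicit false

namespace Pool.Agent.H920R2.Km

open Finset Matrix

variable {F : Type*} [Field F]

/-- prepend a zero coordinate -/
def iota (n : ℕ) : (Fin n → F) →ₗ[F] (Fin (n + 1) → F) where
  toFun w := Fin.cons 0 w
  map_add' a b := by
    ext i; refine Fin.cases ?_ (fun j => ?_) i <;> simp
  map_smul' c a := by
    ext i; refine Fin.cases ?_ (fun j => ?_) i <;> simp

theorem iota_inj (n : ℕ) : Function.Injective (iota (F := F) n) := by
  intro a b h
  ext i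
  have := congrFun h i.succ
  simpa [iota] using this

/-- border a matrix with a top row and a zero first column -/
def mk {n : ℕ} (v : Fin n → F) (Y : Matrix (Fin n) (Fin n) F) :
    Matrix (Fin (n + 1)) (Fin (n + 1)) F :=
  Matrix.of (Fin.cons (Fin.cons 0 v) fun i => Fin.cons 0 (Y i))

@[simp] theorem mk_zz {n : ℕ} (v : Fin n → F) (Y : Matrix (Fin n) (Fin n) F) :
    mk v Y 0 0 = 0 := by simp [mk]
@[simp] theorem mk_zs {n : ℕ} (v : Fin n → F) (Y : Matrix (Fin n) (Fin n) F) (j : Fin n) :
    mk v Y 0 j.succ = v j := by simp [mk]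
@[simp] theorem mk_sz {n : ℕ} (v : Fin n → F) (Y : Matrix (Fin n) (Fin n) F) (i : Fin n) :
    mk v Y i.succ 0 = 0 := by simp [mk]
@[simp] theorem mk_ss {n : ℕ} (v : Fin n → F) (Y : Matrix (Fin n) (Fin n) F) (i j : Fin n) :
    mk v Y i.succ j.succ = Y i j := by simp [mk]

/-- Strictly upper triangular with square zero. -/
def Good {n : ℕ} (X : Matrix (Fin n) (Fin n) F) : Prop :=
  (∀ i j, j ≤ i → X i j = 0) ∧ X * X = 0

theorem good_mk {n : ℕ} (v : Fin n → F) (Y : Matrix (Fin n) (Fin n) F) :
    Good (mk v Y) ↔ Good Y ∧ v ᵥ* Y = 0 := by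
  constructor
  · rintro ⟨h1, h2⟩
    refine ⟨⟨fun i j hij => ?_, ?_⟩, ?_⟩
    · have := h1 i.succ j.succ (by simpa using hij)
      simpa using this
    · ext i j
      have := congrFun (congrFun h2 i.succ) j.succ
      simpa [Matrix.mul_apply, Fin.sum_univ_succ] using this
    · ext j
      have := congrFun (congrFun h2 0) j.succ
      simpa [Matrix.mul_apply, Fin.sum_univ_succ, Matrix.vecMul, dotProduct] using this
  · rintro ⟨⟨h1, h2⟩, h3⟩
    refine ⟨fun i j hij => ?_, ?_⟩
    · revert hij
      refine Fin.cases ?_ (fun i => ?_) i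
      · intro hij
        have : j = 0 := by simpa using hij
        subst this; simp
      · refine Fin.cases ?_ (fun j => ?_) j
        · simp
        · intro hij
          simpa using h1 i j (by simpa using hij)
    · ext i j
      refine Fin.cases ?_ (fun i => ?_) i <;> refine Fin.cases ?_ (fun j => ?_) j
      · simp [Matrix.mul_apply, Fin.sum_univ_succ]
      · have := congrFun h3 j
        simpa [Matrix.mul_apply, Fin.sum_univ_succ, Matrix.vecMul, dotProduct] using this
      · simp [Matrix.mul_apply, Fin.sum_univ_succ]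
      · have := congrFun (congrFun h2 i) j
        simpa [Matrix.mul_apply, Fin.sum_univ_succ] using this

/-- row space -/
def W {n : ℕ} (Y : Matrix (Fin n) (Fin n) F) : Submodule F (Fin n → F) :=
  LinearMap.range Y.vecMulLinear

theorem W_mk {n : ℕ} (v : Fin n → F) (Y : Matrix (Fin n) (Fin n) F) :
    W (mk v Y) = (Submodule.span F {v} ⊔ W Y).map (iota n) := by
  have key : ∀ c : Fin (n + 1) → F, c ᵥ* mk v Y
      = iota n (c 0 • v + (fun i => c i.succ) ᵥ* Y) := by
    intro c
    ext j
    refine Fin.cases ?_ (fun j => ?_) j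
    · simp [Matrix.vecMul, dotProduct, Fin.sum_univ_succ, iota]
    · simp [Matrix.vecMul, dotProduct, Fin.sum_univ_succ, iota]
  ext w
  constructor
  · rintro ⟨c, rfl⟩
    refine ⟨c 0 • v + (fun i => c i.succ) ᵥ* Y, ?_, ?_⟩
    · exact Submodule.add_mem_sup (Submodule.smul_mem _ _ (Submodule.mem_span_singleton_self v))
        ⟨fun i => c i.succ, rfl⟩
    · exact (key c).symm
  · rintro ⟨w, hw, rfl⟩
    obtain ⟨a, ha, b, hb, rfl⟩ := Submodule.mem_sup.1 hw
    obtain ⟨t, rfl⟩ := Submodule.mem_span_singleton.1 ha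
    obtain ⟨s, rfl⟩ := hb
    refine ⟨Fin.cons t s, ?_⟩
    have := key (Fin.cons t s)
    simpa using this

/-- dimension of the row space -/
noncomputable def dm {n : ℕ} (Y : Matrix (Fin n) (Fin n) F) : ℕ := Module.finrank F (W Y)

theorem dm_mk {n : ℕ} (v : Fin n → F) (Y : Matrix (Fin n) (Fin n) F) :
    (v ∈ W Y → dm (mk v Y) = dm Y) ∧ (v ∉ W Y → dm (mk v Y) = dm Y + 1) := by
  have h0 : dm (mk v Y) = Module.finrank F (Submodule.span F {v} ⊔ W Y : Submodule F (Fin n → F)) := by
    rw [dm, W_mk]
    exact (LinearEquiv.finrank_eq (Submodule.equivMapOfInjective (iota n) (iota_inj n) _)).symm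
  constructor
  · intro hv
    rw [h0, dm, sup_eq_right.2]
    rwa [Submodule.span_singleton_le_iff_mem]
  · intro hv
    have h1 := Submodule.finrank_sup_add_finrank_inf_eq (Submodule.span F {v}) (W Y)
    have hv0 : v ≠ 0 := fun h => hv (h ▸ (W Y).zero_mem)
    have h2 : Submodule.span F {v} ⊓ W Y = ⊥ := by
      rw [eq_bot_iff]
      rintro x ⟨hx1, hx2⟩
      obtain ⟨t, rfl⟩ := Submodule.mem_span_singleton.1 hx1
      by_cases ht : t = 0
      · simp [ht]
      · exact absurd (by simpa [smul_smul, inv_mul_cancel₀ ht] using (W Y).smul_mem t⁻¹ hx2) hv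
    rw [h2, finrank_bot, add_zero, finrank_span_singleton hv0] at h1
    rw [h0, h1, dm, add_comm]

variable [Fintype F] [DecidableEq F]

theorem card_W {n : ℕ} (Y : Matrix (Fin n) (Fin n) F) [DecidablePred (· ∈ W Y)] :
    (univ.filter (· ∈ W Y)).card = Fintype.card F ^ dm Y := by
  rw [dm, ← Module.card_eq_pow_finrank (K := F) (V := W Y), Fintype.card_subtype]

theorem card_ker {n : ℕ} (Y : Matrix (Fin n) (Fin n) F) :
    dm Y ≤ n ∧ (univ.filter (fun v : Fin n → F => v ᵥ* Y = 0)).card
      = Fintype.card F ^ (n - dm Y) := by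
  have h1 := LinearMap.finrank_range_add_finrank_ker (Y.vecMulLinear)
  rw [Module.finrank_fin_fun] at h1
  have h2 : Module.finrank F (LinearMap.ker Y.vecMulLinear) = n - dm Y := by
    rw [dm, W]; omega
  refine ⟨by rw [dm, W]; omega, ?_⟩
  classical
  rw [← h2, ← Module.card_eq_pow_finrank (K := F) (V := LinearMap.ker Y.vecMulLinear),
    Fintype.card_subtype]
  congr 1
  ext v
  simp [LinearMap.mem_ker]

theorem W_le_ker {n : ℕ} (Y : Matrix (Fin n) (Fin n) F) (h : Y * Y = 0) (v : Fin n → F)
    (hv : v ∈ W Y) : v ᵥ* Y = 0 := by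
  obtain ⟨w, rfl⟩ := hv
  simp [Matrix.vecMul_vecMul, h]

variable {R : Type*} [CommRing R] (u : Rˣ)

open Classical in
theorem sum_good (hu : (u : R) = (Fintype.card F : R)) (n : ℕ) (f : ℕ → R) :
    ∑ X ∈ univ.filter (fun X : Matrix (Fin n) (Fin n) F => Good X), f (dm X)
      = ∑ ρ ∈ range (n + 1), rk u n ρ * f ρ := by
  induction n generalizing f with
  | zero =>
      have h1 : ∀ X : Matrix (Fin 0) (Fin 0) F, Good X := by
        intro X
        exact ⟨fun i => i.elim0, by ext i; exact i.elim0⟩
      have h2 : ∀ X : Matrix (Fin 0) (Fin 0) F, dm X = 0 := by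
        intro X
        have := (card_ker X).1
        omega
      rw [filter_true_of_mem fun X _ => h1 X, sum_congr rfl fun X _ => by rw [h2 X]]
      have h3 : Fintype.card (Matrix (Fin 0) (Fin 0) F) = 1 :=
        Fintype.card_eq_one_iff.2 ⟨0, fun y => by ext i; exact i.elim0⟩
      simp [rk, h3]
  | succ n ih =>
      rw [show n + 1 + 1 = n + 2 from rfl, sum_succ]
      rw [← ih (fun ρ => ((u ^ (ρ : ℤ) : Rˣ) : R) * f ρ
        + (((u ^ ((n : ℤ) - ρ) : Rˣ) : R) - ((u ^ (ρ : ℤ) : Rˣ) : R)) * f (ρ + 1))]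
      have step1 : ∑ X ∈ univ.filter (fun X : Matrix (Fin (n + 1)) (Fin (n + 1)) F => Good X),
          f (dm X) = ∑ p ∈ (univ.filter (fun Y : Matrix (Fin n) (Fin n) F => Good Y)).sigma
            (fun Y => univ.filter (fun v : Fin n → F => v ᵥ* Y = 0)), f (dm (mk p.2 p.1)) := by
        symm
        refine sum_bij (fun p _ => mk p.2 p.1) ?_ ?_ ?_ ?_
        · rintro ⟨Y, v⟩ hp
          simp only [mem_sigma, mem_filter, mem_univ, true_and] at hp ⊢
          exact (good_mk v Y).2 hp
        · rintro ⟨Y, v⟩ _ ⟨Y', v'⟩ _ h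
          have hY : Y = Y' := by
            ext i j
            have := congrFun (congrFun h i.succ) j.succ
            simpa using this
          have hv : v = v' := by
            ext j
            have := congrFun (congrFun h 0) j.succ
            simpa using this
          subst hY hv; rfl
        · intro X hX
          simp only [mem_filter, mem_univ, true_and] at hX
          have hXe : X = mk (fun j => X 0 j.succ) (X.submatrix Fin.succ Fin.succ) := by
            ext i j
            refine Fin.cases ?_ (fun i => ?_) i <;> refine Fin.cases ?_ (fun j => ?_) j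
            · rw [mk_zz]; exact hX.1 0 0 le_rfl
            · rw [mk_zs]
            · rw [mk_sz]; exact hX.1 i.succ 0 (Fin.zero_le _)
            · rw [mk_ss, Matrix.submatrix_apply]
          refine ⟨⟨X.submatrix Fin.succ Fin.succ, fun j => X 0 j.succ⟩, ?_, hXe.symm⟩
          rw [mem_sigma, mem_filter, mem_filter]
          rw [hXe] at hX
          have := (good_mk _ _).1 hX
          exact ⟨⟨mem_univ _, this.1⟩, mem_univ _, this.2⟩
        · rintro ⟨Y, v⟩ _
          rfl
      rw [step1, sum_sigma]
      refine sum_congr rfl fun Y hY => ?_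
      simp only [mem_filter, mem_univ, true_and] at hY
      obtain ⟨hle, hk⟩ := card_ker Y
      have hpow : ∀ k : ℕ, ((u ^ (k : ℤ) : Rˣ) : R) = ((Fintype.card F ^ k : ℕ) : R) := by
        intro k
        rw [zpow_natCast, Units.val_pow_eq_pow_val, hu, Nat.cast_pow]
      have hpow2 : ((u ^ ((n : ℤ) - (dm Y : ℤ)) : Rˣ) : R)
          = ((Fintype.card F ^ (n - dm Y) : ℕ) : R) := by
        rw [← hpow, Nat.cast_sub hle]
      rw [hpow, hpow2, ← card_W Y, ← hk]
      rw [← sum_filter_add_sum_filter_not (univ.filter (fun v : Fin n → F => v ᵥ* Y = 0))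
        (fun v => v ∈ W Y)]
      have a1 : (univ.filter (fun v : Fin n → F => v ᵥ* Y = 0)).filter (fun v => v ∈ W Y)
          = univ.filter (· ∈ W Y) := by
        ext v
        simp only [mem_filter, mem_univ, true_and]
        exact ⟨fun h => h.2, fun h => ⟨W_le_ker Y hY.2 v h, h⟩⟩
      have a2 : ((((univ.filter (fun v : Fin n → F => v ᵥ* Y = 0)).filter
          (fun v => v ∉ W Y)).card : ℕ) : R)
          = ((univ.filter (fun v : Fin n → F => v ᵥ* Y = 0)).card : R)
            - ((univ.filter (· ∈ W Y) : Finset (Fin n → F)).card : R) := by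
        have h := card_filter_add_card_filter_not (s := univ.filter (fun v : Fin n → F => v ᵥ* Y = 0))
          (fun v => v ∈ W Y)
        rw [a1] at h
        rw [← h]; push_cast; ring
      have s1 : ∑ v ∈ (univ.filter (fun v : Fin n → F => v ᵥ* Y = 0)).filter (fun v => v ∈ W Y),
          f (dm (mk v Y)) = ((univ.filter (· ∈ W Y) : Finset (Fin n → F)).card : R) * f (dm Y) := by
        rw [a1, ← nsmul_eq_mul, ← sum_const]
        refine sum_congr rfl fun v hv => ?_
        rw [(dm_mk v Y).1 (mem_filter.1 hv).2]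
      have s2 : ∑ v ∈ (univ.filter (fun v : Fin n → F => v ᵥ* Y = 0)).filter (fun v => v ∉ W Y),
          f (dm (mk v Y)) = ((((univ.filter (fun v : Fin n → F => v ᵥ* Y = 0)).filter
          (fun v => v ∉ W Y)).card : ℕ) : R) * f (dm Y + 1) := by
        rw [← nsmul_eq_mul, ← sum_const]
        refine sum_congr rfl fun v hv => ?_
        rw [(dm_mk v Y).2 (mem_filter.1 hv).2]
      rw [← a2]
      exact congrArg₂ (· + ·) s1 s2

/-- The number of strictly upper triangular square zero matrices. -/
theorem card_good (hu : (u : R) = (Fintype.card F : R)) (n : ℕ) :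
    ((Nat.card {X : Matrix (Fin n) (Fin n) F // (∀ i j, j ≤ i → X i j = 0) ∧ X * X = 0} : ℕ) : R)
      = ∑ ρ ∈ range (n + 1), rk u n ρ := by
  classical
  have h := sum_good (F := F) u hu n (fun _ => 1)
  simp only [mul_one, sum_const, nsmul_eq_mul] at h
  rw [← h, Nat.card_eq_fintype_card, Fintype.card_subtype]
  congr 2
  ext X
  simp only [mem_filter, mem_univ, true_and]
  rfl

end Pool.Agent.H920R2.Km
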