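import Pool.Agent.H920R2.Mono
import Pool.Agent.H920R2.Gen

set_option autoImplicit false

universe u v

namespace Pool.Agent.H920R2

section loc

variable {k : Type u} {L : Type v} [Field k] [Field L] [Algebra k L] {Var : Type}
  (c : Var → L) (f : L)

/-- The ring generated by the `c v` and the inverse of `f`. -/
def ringC (c : Var → L) (f : L) : Subalgebra k L :=
  Algebra.adjoin k (Set.range c ∪ {f⁻¹})

lemma mem_ringC (v : Var) : c v ∈ ringC (k := k) c f :=
  Algebra.subset_adjoin (Or.inl ⟨v, rfl⟩)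

lemma inv_mem_ringC : f⁻¹ ∈ ringC (k := k) c f :=
  Algebra.subset_adjoin (Or.inr rfl)

lemma adjoin_le_ringC : Algebra.adjoin k (Set.range c) ≤ ringC (k := k) c f :=
  Algebra.adjoin_mono Set.subset_union_left

lemma exists_of_mem_ringC (hf : f ∈ Algebra.adjoin k (Set.range c)) (hf0 : f ≠ 0) (x : L)
    (hx : x ∈ ringC (k := k) c f) :
    ∃ (m : ℕ) (y : L), y ∈ Algebra.adjoin k (Set.range c) ∧ x = y / f ^ m := by
  unfold ringC at hx
  induction hx using Algebra.adjoin_induction with
  | mem x hx =>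
    rcases hx with ⟨v, rfl⟩ | rfl
    · exact ⟨0, c v, Algebra.subset_adjoin ⟨v, rfl⟩, by simp⟩
    · exact ⟨1, 1, Subalgebra.one_mem _, by simp⟩
  | algebraMap r => exact ⟨0, algebraMap k L r, Subalgebra.algebraMap_mem _ r, by simp⟩
  | add x y _ _ hx hy =>
    obtain ⟨m, a, ha, rfl⟩ := hx
    obtain ⟨m', a', ha', rfl⟩ := hy
    refine ⟨m + m', a * f ^ m' + a' * f ^ m, ?_, ?_⟩
    · exact Subalgebra.add_mem _ (Subalgebra.mul_mem _ ha (Subalgebra.pow_mem _ hf _))
        (Subalgebra.mul_mem _ ha' (Subalgebra.pow_mem _ hf _))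
    · field_simp
      ring
  | mul x y _ _ hx hy =>
    obtain ⟨m, a, ha, rfl⟩ := hx
    obtain ⟨m', a', ha', rfl⟩ := hy
    exact ⟨m + m', a * a', Subalgebra.mul_mem _ ha ha', by rw [pow_add, div_mul_div_comm]⟩

/-- A localized polynomial ring is smooth. -/
lemma smooth_ringC [Finite Var] (hc : AlgebraicIndependent k c)
    (hf : f ∈ Algebra.adjoin k (Set.range c)) (hf0 : f ≠ 0) :
    Algebra.Smooth k (ringC (k := k) c f) := by
  set S : Subalgebra k L := Algebra.adjoin k (Set.range c) with hS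
  set R : Subalgebra k L := ringC (k := k) c f with hR
  have hSR : S ≤ R := adjoin_le_ringC c f
  let _ : Algebra S R := (Subalgebra.inclusion hSR).toRingHom.toAlgebra
  have _ : IsScalarTower k S R := IsScalarTower.of_algebraMap_eq fun r => rfl
  have hmap : ∀ s : S, ((algebraMap S R s : R) : L) = s := fun s => rfl
  let f' : S := ⟨f, hf⟩
  have hloc : IsLocalization.Away f' R := by
    refine IsLocalization.Away.mk (R := S) (S := R) f' ?_ ?_ ?_
    · refine IsUnit.of_mul_eq_one ⟨f⁻¹, inv_mem_ringC c f⟩ ?_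
      apply Subtype.ext
      change f * f⁻¹ = 1
      exact mul_inv_cancel₀ hf0
    · intro x
      obtain ⟨m, y, hy, hxy⟩ := exists_of_mem_ringC c f hf hf0 x.1 x.2
      refine ⟨m, ⟨y, hy⟩, ?_⟩
      apply Subtype.ext
      change x.1 * (algebraMap S R f' : R).1 ^ m = y
      rw [hmap, hxy]
      change y / f ^ m * f ^ m = y
      field_simp
    · intro a b hab
      refine ⟨0, ?_⟩
      have h3 : ((algebraMap S R a : R) : L) = ((algebraMap S R b : R) : L) :=
        congrArg Subtype.val hab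
      rw [hmap, hmap] at h3
      rw [Subtype.ext h3]
  have h1 : Algebra.Smooth k S := by
    have e : MvPolynomial Var k ≃ₐ[k] S := hc.aevalEquiv
    have h2 : Algebra.Smooth k (MvPolynomial Var k) := by
      constructor
      · infer_instance
      · infer_instance
    exact Algebra.Smooth.of_equiv e
  have h2 : Algebra.Smooth S R := Algebra.Smooth.of_isLocalization_Away f'
  exact Algebra.Smooth.comp k S R

end loc

section ind

variable {k : Type u} {L : Type v} [Field k] [Field L] [Algebra k L] {Var : Type} [Finite Var]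
  [Algebra (MvPolynomial Var k) L] [IsScalarTower k (MvPolynomial Var k) L]
  [IsFractionRing (MvPolynomial Var k) L] (c : Var → L) (f : L)

lemma algInd_of_mem (hf : f ∈ Algebra.adjoin k (Set.range c))
    (h0 : ∀ v, algebraMap (MvPolynomial Var k) L (MvPolynomial.X v) ∈ ringC (k := k) c f) :
    AlgebraicIndependent k c := by
  set F : IntermediateField k L := IntermediateField.adjoin k (Set.range c) with hF
  have hSF : Algebra.adjoin k (Set.range c) ≤ F.toSubalgebra := by
    rw [Algebra.adjoin_le_iff]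
    exact IntermediateField.subset_adjoin k _
  have hRF : ringC (k := k) c f ≤ F.toSubalgebra := by
    unfold ringC
    rw [Algebra.adjoin_le_iff]
    rintro x (⟨v, rfl⟩ | rfl)
    · exact hSF (Algebra.subset_adjoin ⟨v, rfl⟩)
    · exact F.inv_mem (hSF hf)
  have hB : ∀ b : MvPolynomial Var k, algebraMap (MvPolynomial Var k) L b ∈ F := by
    intro b
    have h1 : (IsScalarTower.toAlgHom k (MvPolynomial Var k) L).range ≤ F.toSubalgebra := by
      have e : (IsScalarTower.toAlgHom k (MvPolynomial Var k) L).range =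
          (Algebra.adjoin k (Set.range (MvPolynomial.X : Var → MvPolynomial Var k))).map
            (IsScalarTower.toAlgHom k (MvPolynomial Var k) L) := by
        rw [MvPolynomial.adjoin_range_X, Algebra.map_top]
      rw [e, AlgHom.map_adjoin, Algebra.adjoin_le_iff]
      rintro _ ⟨_, ⟨v, rfl⟩, rfl⟩
      exact hRF (h0 v)
    exact h1 ⟨b, rfl⟩
  have htop : F = ⊤ := by
    rw [eq_top_iff]
    intro x _
    obtain ⟨a, b, -, rfl⟩ := IsFractionRing.div_surjective (A := MvPolynomial Var k) x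
    exact F.div_mem (hB a) (hB b)
  refine algebraicIndependent_of_isAlgebraic
    (fun v : Var => algebraMap (MvPolynomial Var k) L (MvPolynomial.X v)) ?_ c rfl inferInstance ?_
  · have h1 : AlgebraicIndependent k (MvPolynomial.X : Var → MvPolynomial Var k) :=
      MvPolynomial.algebraicIndependent_X Var k
    have h2 := h1.map' (f := IsScalarTower.toAlgHom k (MvPolynomial Var k) L)
      (IsFractionRing.injective (MvPolynomial Var k) L)
    exact h2
  · rw [← hF, htop]
    exact ⟨fun x => isAlgebraic_algebraMap (⟨x, trivial⟩ : (⊤ : IntermediateField k L))⟩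

end ind

section kl

variable {k : Type u} {L : Type v} [Field k] [Field L] [Algebra k L] (τ : L ≃ₐ[k] L)
  (R : Subalgebra k L) (a : L)

/-- The elements `x` of `R` with `τ x - x ∈ a R`. -/
def goodAlg (ha : a ∈ R) (ha0 : a ≠ 0) : Subalgebra k L where
  carrier := {x | x ∈ R ∧ (τ x - x) / a ∈ R}
  mul_mem' := by
    rintro x y ⟨hx, hx'⟩ ⟨hy, hy'⟩
    refine ⟨R.mul_mem hx hy, ?_⟩
    have hty : τ y ∈ R := by
      have : τ y = a * ((τ y - y) / a) + y := by field_simp; ring
      rw [this]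
      exact R.add_mem (R.mul_mem ha hy') hy
    have e : (τ (x * y) - x * y) / a = (τ x - x) / a * τ y + x * ((τ y - y) / a) := by
      rw [map_mul]
      field_simp
      ring
    rw [e]
    exact R.add_mem (R.mul_mem hx' hty) (R.mul_mem hx hy')
  add_mem' := by
    rintro x y ⟨hx, hx'⟩ ⟨hy, hy'⟩
    refine ⟨R.add_mem hx hy, ?_⟩
    have e : (τ (x + y) - (x + y)) / a = (τ x - x) / a + (τ y - y) / a := by
      rw [map_add]
      ring
    rw [e]
    exact R.add_mem hx' hy'
  algebraMap_mem' := by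
    intro r
    refine ⟨R.algebraMap_mem r, ?_⟩
    rw [τ.commutes, sub_self, zero_div]
    exact R.zero_mem

lemma good_inv (ha : a ∈ R) (ha0 : a ≠ 0) (f : L) (hf0 : f ≠ 0)
    (hf : f ∈ goodAlg τ R a ha ha0) (hfi : f⁻¹ ∈ R) (hfi' : (τ f)⁻¹ ∈ R) :
    f⁻¹ ∈ goodAlg τ R a ha ha0 := by
  refine ⟨hfi, ?_⟩
  have hτf : τ f ≠ 0 := fun h => hf0 ((map_eq_zero_iff τ τ.injective).1 h)
  have e : (τ f⁻¹ - f⁻¹) / a = -((τ f - f) / a) * (τ f)⁻¹ * f⁻¹ := by
    rw [map_inv₀]
    field_simp
    ring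
  rw [e]
  exact R.mul_mem (R.mul_mem (R.neg_mem hf.2) hfi') hfi

lemma good_ringC {Var : Type} (c : Var → L) (f : L) (hf : f ∈ Algebra.adjoin k (Set.range c))
    (hf0 : f ≠ 0) (ha : a ∈ ringC (k := k) c f) (ha0 : a ≠ 0)
    (hc : ∀ v, (τ (c v) - c v) / a ∈ ringC (k := k) c f) (hfi : (τ f)⁻¹ ∈ ringC (k := k) c f) :
    ringC (k := k) c f ≤ goodAlg τ (ringC (k := k) c f) a ha ha0 := by
  have h1 : Algebra.adjoin k (Set.range c) ≤ goodAlg τ (ringC (k := k) c f) a ha ha0 := by
    rw [Algebra.adjoin_le_iff]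
    rintro _ ⟨v, rfl⟩
    exact ⟨mem_ringC c f v, hc v⟩
  conv_lhs => unfold ringC
  rw [Algebra.adjoin_le_iff]
  rintro x (⟨v, rfl⟩ | rfl)
  · exact ⟨mem_ringC c f v, hc v⟩
  · exact good_inv τ _ a ha ha0 f hf0 (h1 hf) (inv_mem_ringC c f) hfi

lemma good_stable (ha : a ∈ R) (ha0 : a ≠ 0) (h : R ≤ goodAlg τ R a ha ha0) (x : L)
    (hx : x ∈ R) : τ x ∈ R := by
  have h1 := (h hx).2
  have : τ x = a * ((τ x - x) / a) + x := by field_simp; ring
  rw [this]
  exact R.add_mem (R.mul_mem ha h1) hx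

end kl

section main3

variable {k : Type u} {L : Type v} [Field k] [Field L] [Algebra k L] (τ : L ≃ₐ[k] L)

/-- Smoothness of the ring of invariants of a chart, in characteristic three. -/
lemma smooth_chart3 {Var : Type} [Finite Var] [Algebra (MvPolynomial Var k) L]
    [IsScalarTower k (MvPolynomial Var k) L] [IsFractionRing (MvPolynomial Var k) L]
    (hτ : ∀ x, τ (τ (τ x)) = x) (c : Var → L) (f : L)
    (hf : f ∈ Algebra.adjoin k (Set.range c)) (hf0 : f ≠ 0)
    (h0 : ∀ v, algebraMap (MvPolynomial Var k) L (MvPolynomial.X v) ∈ ringC (k := k) c f)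
    (b : L) (hb : b ∈ ringC (k := k) c f) (ha : τ b - b ∈ ringC (k := k) c f)
    (ha0 : τ b - b ≠ 0)
    (hc : ∀ v, (τ (c v) - c v) / (τ b - b) ∈ ringC (k := k) c f)
    (hfi : (τ f)⁻¹ ∈ ringC (k := k) c f) (h2 : τ (τ b) - b ≠ 0)
    (h3 : (τ b - b) / (τ (τ b) - b) ∈ ringC (k := k) c f) :
    Algebra.Smooth k ↥(ringC (k := k) c f ⊓ fixedAlg τ) := by
  have hind := algInd_of_mem c f hf h0
  have hsm := smooth_ringC c f hind hf hf0
  have hgood := good_ringC τ (τ b - b) c f hf hf0 ha ha0 hc hfi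
  refine smooth_fixed τ 3 (by norm_num) (fun x => hτ x) _
    (good_stable τ _ _ ha ha0 hgood) b hb (fun x hx => (hgood hx).2) ?_ hsm
  intro j hj hj3
  have : j = 1 ∨ j = 2 := by omega
  rcases this with rfl | rfl
  · refine ⟨sub_ne_zero.1 ha0, ?_⟩
    change (τ b - b) / (τ b - b) ∈ _
    rw [div_self ha0]
    exact Subalgebra.one_mem _
  · exact ⟨sub_ne_zero.1 h2, h3⟩

end main3

end Pool.Agent.H920R2
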