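import Pool.Agent.H920R2.Lin1

set_option autoImplicit false

universe u v

namespace Pool.Agent.H920R2

section defs

variable {ι κ μ : Type}

/-- The index set of the variables: `x i`, `e ε`, `q ε`, `t l`. -/
abbrev Vr (ι κ μ : Type) : Type := ι ⊕ ((ι ⊕ κ) ⊕ ((ι ⊕ κ) ⊕ μ))

variable {L : Type v} [Field L]

/-- `d ε` is `x i` for `ε = inl i` and zero otherwise. -/
def dd (x : ι → L) : ι ⊕ κ → L := Sum.elim x fun _ => 0

variable {k : Type u} [Field k] [Algebra k L] (τ : L ≃ₐ[k] L) (x : ι → L) (e q : ι ⊕ κ → L)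
  (t : μ → L)

/-- The action of the generator of the group on the coordinates. -/
structure Acts (τ : L ≃ₐ[k] L) (x : ι → L) (e q : ι ⊕ κ → L) (t : μ → L) : Prop where
  hx : ∀ i, τ (x i) = x i
  he : ∀ ε, τ (e ε) = e ε + dd x ε
  hq : ∀ ε, τ (q ε) = q ε + e ε
  ht : ∀ l, τ (t l) = t l
  h3 : (3 : L) = 0

/-- The data of a chart. -/
structure LChart (τ : L ≃ₐ[k] L) (x : ι → L) (e q : ι ⊕ κ → L) (t : μ → L)
    (s1 s2 s3 p2 : L) (c : Vr ι κ μ → L) (f : L) : Prop where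
  f_mem : f ∈ Algebra.adjoin k (Set.range c)
  f_ne : f ≠ 0
  s1_ne : s1 ≠ 0
  s2_ne : s2 ≠ 0
  s3_ne : s3 ≠ 0
  p2_ne : p2 ≠ 0
  vx : ∀ i, x i ∈ ringC (k := k) c f
  ve : ∀ ε, e ε ∈ ringC (k := k) c f
  vq : ∀ ε, q ε ∈ ringC (k := k) c f
  vt : ∀ l, t l ∈ ringC (k := k) c f
  j1x : ∀ i, x i / s1 ∈ ringC (k := k) c f
  j1e : ∀ ε, e ε / s1 ∈ ringC (k := k) c f
  j2s : s1 ^ 2 / s2 ∈ ringC (k := k) c f
  j2x : ∀ i, x i / s2 ∈ ringC (k := k) c f
  j3s : s1 ^ 3 / s3 ∈ ringC (k := k) c f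
  j3x : ∀ i j, x i * x j / s3 ∈ ringC (k := k) c f
  j3m : ∀ i ε, (x i * e ε - dd x ε * e (Sum.inl i)) / s3 ∈ ringC (k := k) c f
  p : s1 * s2 / p2 ∈ ringC (k := k) c f
  sig1 : s1 * s2 * p2 * s3 / τ (s1 * s2 * p2 * s3) ∈ ringC (k := k) c f
  sig2 : s1 * s2 * p2 * s3 / τ (τ (s1 * s2 * p2 * s3)) ∈ ringC (k := k) c f
  gen : ∀ R : Subalgebra k L, (∀ i, x i ∈ R) → (∀ ε, e ε ∈ R) → (∀ ε, q ε ∈ R) →
    (∀ l, t l ∈ R) → (∀ i, x i / s1 ∈ R) → (∀ ε, e ε / s1 ∈ R) → (∀ i, x i / s2 ∈ R) →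
    (∀ ε, e ε * e ε / s2 ∈ R) → (∀ ε, e ε * e ε * e ε / s3 ∈ R) → (∀ i, x i * x i / s3 ∈ R) →
    (∀ i ε, (x i * e ε - dd x ε * e (Sum.inl i)) / s3 ∈ R) → s1 * s2 / p2 ∈ R →
    s1 * s2 * p2 * s3 / τ (s1 * s2 * p2 * s3) ∈ R →
    s1 * s2 * p2 * s3 / τ (τ (s1 * s2 * p2 * s3)) ∈ R →
    (∀ v, c v ∈ R) ∧ f⁻¹ ∈ R
  kl : ∃ b ∈ ringC (k := k) c f, τ b - b ∈ ringC (k := k) c f ∧ τ b - b ≠ 0 ∧
    (∀ v, (τ (c v) - c v) / (τ b - b) ∈ ringC (k := k) c f) ∧ (τ f)⁻¹ ∈ ringC (k := k) c f ∧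
    τ (τ b) - b ≠ 0 ∧ (τ b - b) / (τ (τ b) - b) ∈ ringC (k := k) c f

end defs

section t1

variable {ι κ μ : Type} {L : Type v} [Field L]
  {k : Type u} [Field k] [Algebra k L] {τ : L ≃ₐ[k] L} {x : ι → L} {e q : ι ⊕ κ → L} {t : μ → L}
  (hA : Acts τ x e q t)

include hA in
lemma Acts.hd (ε : ι ⊕ κ) : τ (dd x ε) = dd x ε := by
  rcases ε with i | j
  · exact hA.hx i
  · exact map_zero τ

lemma dd_mem {R : Subalgebra k L} {s : L} (h : ∀ i, x i / s ∈ R) (ε : ι ⊕ κ) :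
    dd x ε / s ∈ R := by
  rcases ε with i | j
  · exact h i
  · change (0 : L) / s ∈ R
    rw [zero_div]; exact R.zero_mem

/-- Coordinates of the first type of chart. -/
def c1 [DecidableEq ι] [DecidableEq κ] (x : ι → L) (e q : ι ⊕ κ → L) (t : μ → L)
    (ε0 : ι ⊕ κ) : Vr ι κ μ → L :=
  Sum.elim (fun i => x i / e ε0 ^ 2) (Sum.elim (fun ε => if ε = ε0 then e ε0 else e ε / e ε0)
    (Sum.elim q t))

include hA in
lemma chart1 [DecidableEq ι] [DecidableEq κ] (ε0 : ι ⊕ κ) (he0 : e ε0 ≠ 0)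
    (h1 : e ε0 + dd x ε0 ≠ 0) (h2 : e ε0 + 2 * dd x ε0 ≠ 0) :
    LChart τ x e q t (e ε0) (e ε0 ^ 2) (e ε0 ^ 3) (e ε0 ^ 3) (c1 x e q t ε0)
      ((1 + dd x ε0 / e ε0) * (1 + 2 * (dd x ε0 / e ε0))) := by
  have h3 := hA.h3
  obtain ⟨e0, he0d⟩ : ∃ e0, e0 = e ε0 := ⟨_, rfl⟩
  obtain ⟨d0, hd0d⟩ : ∃ d0, d0 = dd x ε0 := ⟨_, rfl⟩
  obtain ⟨D, hD⟩ : ∃ D, D = d0 / e0 := ⟨_, rfl⟩
  obtain ⟨c, hc⟩ : ∃ c, c = c1 x e q t ε0 := ⟨_, rfl⟩
  rw [← he0d] at he0 h1 h2 ⊢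
  rw [← hd0d] at h1 h2 ⊢
  rw [← hD, ← hc]
  have hd0 : d0 = D * e0 := by rw [hD]; field_simp
  have hu1 : 1 + D ≠ 0 := by
    intro h; apply h1; rw [hd0]; linear_combination e0 * h
  have hu2 : 1 + 2 * D ≠ 0 := by
    intro h; apply h2; rw [hd0]; linear_combination e0 * h
  have hu3 : 2 + D ≠ 0 := by
    intro h; apply hu2; linear_combination 2 * h - h3
  have hτe : τ e0 = e0 * (1 + D) := by
    rw [he0d, hA.he, ← he0d, ← hd0d, hd0]; ring
  have hτd : τ d0 = d0 := by rw [hd0d]; exact hA.hd ε0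
  have hτD : τ D = D / (1 + D) := by
    rw [hD, map_div₀, hτd, hτe, ← hD, hd0]; field_simp
  have hτu1 : τ (1 + D) = (1 + 2 * D) / (1 + D) := by
    rw [map_add, map_one, hτD]; field_simp; ring
  have hτu2 : τ (1 + 2 * D) = 1 / (1 + D) := by
    rw [map_add, map_mul, map_one, hτD, map_ofNat]; field_simp
    linear_combination D * h3
  have hττe : τ (τ e0) = e0 * (1 + 2 * D) := by
    rw [hτe, map_mul, hτe, hτu1]; field_simp
  obtain ⟨f, hf⟩ : ∃ f, f = (1 + D) * (1 + 2 * D) := ⟨_, rfl⟩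
  rw [← hf]
  have hf0 : f ≠ 0 := by rw [hf]; exact mul_ne_zero hu1 hu2
  have hτf : τ f = (1 + 2 * D) / (1 + D) ^ 2 := by
    rw [hf, map_mul, hτu1, hτu2]; field_simp
  have hcx : ∀ i, c (Sum.inl i) = x i / e0 ^ 2 := fun i => by rw [hc, he0d]; rfl
  have hce0 : c (Sum.inr (Sum.inl ε0)) = e0 := by
    rw [hc, he0d]
    change (if ε0 = ε0 then e ε0 else e ε0 / e ε0) = _
    rw [if_pos rfl]
  have hce : ∀ ε, ε ≠ ε0 → c (Sum.inr (Sum.inl ε)) = e ε / e0 := by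
    intro ε hε
    rw [hc, he0d]
    change (if ε = ε0 then e ε0 else e ε / e ε0) = _
    rw [if_neg hε]
  have hcq : ∀ ε, c (Sum.inr (Sum.inr (Sum.inl ε))) = q ε := fun ε => by rw [hc]; rfl
  have hct : ∀ l, c (Sum.inr (Sum.inr (Sum.inr l))) = t l := fun l => by rw [hc]; rfl
  obtain ⟨R, hR⟩ : ∃ R, R = ringC (k := k) c f := ⟨_, rfl⟩
  -- basic members
  have mx : ∀ i, x i / e0 ^ 2 ∈ R := fun i => by rw [hR, ← hcx]; exact mem_ringC c f _
  have me0 : e0 ∈ R := by rw [hR, ← hce0]; exact mem_ringC c f _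
  have me : ∀ ε, e ε / e0 ∈ R := by
    intro ε
    by_cases h : ε = ε0
    · rw [h, ← he0d, div_self he0]; exact R.one_mem
    · rw [hR, ← hce ε h]; exact mem_ringC c f _
  have mq : ∀ ε, q ε ∈ R := fun ε => by rw [hR, ← hcq]; exact mem_ringC c f _
  have mt : ∀ l, t l ∈ R := fun l => by rw [hR, ← hct]; exact mem_ringC c f _
  have mfi : f⁻¹ ∈ R := by rw [hR]; exact inv_mem_ringC c f
  have md : ∀ ε : ι ⊕ κ, dd x ε / e0 ^ 2 ∈ R := dd_mem mx
  have mD : D ∈ R := by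
    have : D = dd x ε0 / e0 ^ 2 * e0 := by rw [hD, hd0d]; field_simp
    rw [this]; exact mul_mem (md _) me0
  have mu1 : 1 + D ∈ R := add_mem (one_mem _) mD
  have m2 : (2 : L) ∈ R := ofNat_mem R 2
  have mu2 : 1 + 2 * D ∈ R := add_mem (one_mem _) (mul_mem m2 mD)
  have mi1 : (1 + D)⁻¹ ∈ R := by
    have : (1 + D)⁻¹ = (1 + 2 * D) * f⁻¹ := by
      rw [hf, mul_inv, mul_comm (1 + D)⁻¹, ← mul_assoc, mul_inv_cancel₀ hu2, one_mul]
    rw [this]; exact mul_mem mu2 mfi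
  have mi2 : (1 + 2 * D)⁻¹ ∈ R := by
    have : (1 + 2 * D)⁻¹ = (1 + D) * f⁻¹ := by rw [hf]; field_simp
    rw [this]; exact mul_mem mu1 mfi
  have mex : ∀ i, x i / e0 ∈ R := by
    intro i
    have : x i / e0 = x i / e0 ^ 2 * e0 := by field_simp
    rw [this]; exact mul_mem (mx i) me0
  refine
    { f_mem := ?_
      f_ne := hf0
      s1_ne := he0
      s2_ne := pow_ne_zero _ he0
      s3_ne := pow_ne_zero _ he0
      p2_ne := pow_ne_zero _ he0
      vx := ?_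
      ve := ?_
      vq := ?_
      vt := ?_
      j1x := ?_
      j1e := ?_
      j2s := ?_
      j2x := ?_
      j3s := ?_
      j3x := ?_
      j3m := ?_
      p := ?_
      sig1 := ?_
      sig2 := ?_
      gen := ?_
      kl := ?_ }
  · -- f_mem
    have hx' : ∀ i, x i / e0 ^ 2 ∈ Algebra.adjoin k (Set.range c) := fun i => by
      rw [← hcx]; exact Algebra.subset_adjoin ⟨_, rfl⟩
    have he' : e0 ∈ Algebra.adjoin k (Set.range c) := by
      rw [← hce0]; exact Algebra.subset_adjoin ⟨_, rfl⟩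
    have hD' : D ∈ Algebra.adjoin k (Set.range c) := by
      have : D = dd x ε0 / e0 ^ 2 * e0 := by rw [hD, hd0d]; field_simp
      rw [this]; exact mul_mem (dd_mem hx' _) he'
    rw [hf]
    exact mul_mem (add_mem (one_mem _) hD')
      (add_mem (one_mem _) (mul_mem (ofNat_mem _ 2) hD'))
  · intro i
    rw [← hR]
    have : x i = x i / e0 * e0 := by field_simp
    rw [this]; exact mul_mem (mex i) me0
  · intro ε
    rw [← hR]
    have : e ε = e ε / e0 * e0 := by field_simp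
    rw [this]; exact mul_mem (me ε) me0
  · rw [← hR]; exact mq
  · rw [← hR]; exact mt
  · rw [← hR]; exact mex
  · rw [← hR]; exact me
  · rw [← hR, div_self (pow_ne_zero _ he0)]; exact one_mem _
  · rw [← hR]; exact mx
  · rw [← hR, div_self (pow_ne_zero _ he0)]; exact one_mem _
  · intro i j
    rw [← hR]
    have : x i * x j / e0 ^ 3 = (x i / e0 ^ 2) * (x j / e0) := by field_simp
    rw [this]; exact mul_mem (mx i) (mex j)
  · intro i ε
    rw [← hR]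
    have : (x i * e ε - dd x ε * e (Sum.inl i)) / e0 ^ 3 =
        x i / e0 ^ 2 * (e ε / e0) - dd x ε / e0 ^ 2 * (e (Sum.inl i) / e0) := by field_simp
    rw [this]; exact sub_mem (mul_mem (mx i) (me ε)) (mul_mem (md ε) (me _))
  · rw [← hR]
    have : e0 * e0 ^ 2 / e0 ^ 3 = 1 := by field_simp
    rw [this]; exact one_mem _
  · rw [← hR]
    have : e0 * e0 ^ 2 * e0 ^ 3 * e0 ^ 3 / τ (e0 * e0 ^ 2 * e0 ^ 3 * e0 ^ 3) =
        ((1 + D)⁻¹) ^ 9 := by
      simp only [map_mul, map_pow, hτe]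
      field_simp
    rw [this]; exact pow_mem mi1 _
  · rw [← hR]
    have : e0 * e0 ^ 2 * e0 ^ 3 * e0 ^ 3 / τ (τ (e0 * e0 ^ 2 * e0 ^ 3 * e0 ^ 3)) =
        ((1 + 2 * D)⁻¹) ^ 9 := by
      simp only [map_mul, map_pow]
      rw [hττe]
      field_simp
    rw [this]; exact pow_mem mi2 _
  · intro R' g1 g2 g3 g4 g5 g6 g7 g8 g9 g10 g11 g12 g13 g14
    have hD' : D ∈ R' := by rw [hD, hd0d]; exact dd_mem g5 _
    constructor
    · rintro (i | ε | ε | l)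
      · rw [hcx]; exact g7 i
      · by_cases h : ε = ε0
        · rw [h, hce0, he0d]; exact g2 _
        · rw [hce ε h]; exact g6 ε
      · rw [hcq]; exact g3 ε
      · rw [hct]; exact g4 l
    · have : f⁻¹ = (e0 * e0 ^ 2 * e0 ^ 3 * e0 ^ 3 / τ (e0 * e0 ^ 2 * e0 ^ 3 * e0 ^ 3)) *
          (e0 * e0 ^ 2 * e0 ^ 3 * e0 ^ 3 / τ (τ (e0 * e0 ^ 2 * e0 ^ 3 * e0 ^ 3))) *
          (1 + D) ^ 8 * (1 + 2 * D) ^ 8 := by
        simp only [map_mul, map_pow]
        rw [hττe, hτe, hf]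
        field_simp
      rw [this]
      exact mul_mem (mul_mem (mul_mem g13 g14) (pow_mem (add_mem (one_mem _) hD') _))
        (pow_mem (add_mem (one_mem _) (mul_mem (ofNat_mem _ 2) hD')) _)
  · have hb : τ (q ε0) - q ε0 = e0 := by rw [hA.hq, he0d]; ring
    have hb2 : τ (τ (q ε0)) - q ε0 = e0 * (2 + D) := by
      rw [hA.hq, map_add, hA.hq, ← he0d, hτe]; ring
    rw [← hR]
    refine ⟨q ε0, mq _, ?_, ?_, ?_, ?_, ?_, ?_⟩
    · rw [hb]; exact me0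
    · rw [hb]; exact he0
    · rw [hb]
      rintro (i | ε | ε | l)
      · rw [hcx, map_div₀, map_pow, hA.hx, hτe]
        have : (x i / (e0 * (1 + D)) ^ 2 - x i / e0 ^ 2) / e0 =
            -(x i / e0 ^ 2 * (dd x ε0 / e0 ^ 2) * (2 + D) * (1 + D)⁻¹ ^ 2) := by
          have : dd x ε0 / e0 ^ 2 = D / e0 := by rw [← hd0d, hD]; field_simp
          rw [this]
          field_simp
          ring
        rw [this]
        exact neg_mem (mul_mem (mul_mem (mul_mem (mx i) (md _)) (add_mem m2 mD))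
          (pow_mem mi1 _))
      · by_cases h : ε = ε0
        · rw [h, hce0, hτe]
          have : (e0 * (1 + D) - e0) / e0 = D := by field_simp; ring
          rw [this]; exact mD
        · rw [hce ε h, map_div₀, hA.he, hτe]
          have : ((e ε + dd x ε) / (e0 * (1 + D)) - e ε / e0) / e0 =
              (dd x ε / e0 ^ 2 - e ε / e0 * (dd x ε0 / e0 ^ 2)) * (1 + D)⁻¹ := by
            have : dd x ε0 / e0 ^ 2 = D / e0 := by rw [← hd0d, hD]; field_simp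
            rw [this]
            field_simp
            ring
          rw [this]
          exact mul_mem (sub_mem (md ε) (mul_mem (me ε) (md _))) mi1
      · rw [hcq, hA.hq]
        have : (q ε + e ε - q ε) / e0 = e ε / e0 := by ring
        rw [this]; exact me ε
      · rw [hct, hA.ht, sub_self, zero_div]; exact zero_mem _
    · rw [hτf]
      have : ((1 + 2 * D) / (1 + D) ^ 2)⁻¹ = (1 + D) ^ 2 * (1 + 2 * D)⁻¹ := by field_simp
      rw [this]; exact mul_mem (pow_mem mu1 _) mi2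
    · rw [hb2]; exact mul_ne_zero he0 hu3
    · rw [hb, hb2]
      have : e0 / (e0 * (2 + D)) = 2 * (1 + 2 * D)⁻¹ := by
        field_simp
        linear_combination - h3
      rw [this]; exact mul_mem m2 mi2

end t1

end Pool.Agent.H920R2
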