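import Mathlib

set_option autoImplicit false

namespace Pool.Agent.H920R2.Mf

/-- A row: a triple of integers together with its root. -/
abbrev Entry := (ℤ × ℤ × ℤ) × ℝ

/-- The entry of a positive rational `p/q` in lowest terms. -/
def IsRat (n : ℕ) (e : Entry) : Prop :=
  ∃ p q : ℕ, 1 ≤ p ∧ p ≤ n ∧ 1 ≤ q ∧ q ≤ n ∧ Nat.Coprime p q ∧
    e = ((0, (q : ℤ), -(p : ℤ)), (p : ℝ) / q)

/-- The entry of a positive quadratic irrational. -/
def IsQuad (n : ℕ) (e : Entry) : Prop :=
  ∃ a b c : ℤ, 1 ≤ a ∧ a ≤ n ∧ |b| ≤ n ∧ |c| ≤ n ∧ Int.gcd a (Int.gcd b c) = 1 ∧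
    e.1 = (a, b, c) ∧ 0 < e.2 ∧ Irrational e.2 ∧ (a : ℝ) * e.2 ^ 2 + b * e.2 + c = 0

/-- `L` is the list of entries of order `n`. -/
def IsMahlerList (n : ℕ) (L : List Entry) : Prop :=
  L.Pairwise (fun u v => u.2 ≤ v.2) ∧
    ∃ R Q : List Entry, R.Nodup ∧ (∀ e, e ∈ R ↔ IsRat n e) ∧
      Q.Nodup ∧ (∀ e, e ∈ Q ↔ IsQuad n e) ∧ L.Perm (R ++ R ++ Q)

theorem finite_rat (n : ℕ) : {e | IsRat n e}.Finite := by
  have h : {e | IsRat n e} ⊆ (fun t : ℕ × ℕ => (((0, (t.2 : ℤ), -(t.1 : ℤ)), (t.1 : ℝ) / t.2) : Entry))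
      '' (Set.Iic n ×ˢ Set.Iic n) := by
    rintro e ⟨p, q, h1, h2, h3, h4, h5, rfl⟩
    exact ⟨(p, q), ⟨h2, h4⟩, rfl⟩
  exact (((Set.finite_Iic n).prod (Set.finite_Iic n)).image _).subset h

theorem finite_quad (n : ℕ) : {e | IsQuad n e}.Finite := by
  have hroots : ∀ t : ℤ × ℤ × ℤ, {e : Entry | e.1 = t ∧ 1 ≤ t.1 ∧
      (t.1 : ℝ) * e.2 ^ 2 + t.2.1 * e.2 + t.2.2 = 0}.Finite := by
    rintro ⟨a, b, c⟩
    by_cases ha : 1 ≤ a
    · have hp : (Polynomial.C (a : ℝ) * Polynomial.X ^ 2 + Polynomial.C (b : ℝ) * Polynomial.X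
          + Polynomial.C (c : ℝ)) ≠ 0 := by
        intro h
        have h0 := congrArg (fun f => Polynomial.eval 0 f) h
        have h1 := congrArg (fun f => Polynomial.eval 1 f) h
        have h2 := congrArg (fun f => Polynomial.eval (-1) f) h
        simp only [Polynomial.eval_add, Polynomial.eval_mul, Polynomial.eval_C,
          Polynomial.eval_pow, Polynomial.eval_X, Polynomial.eval_zero] at h0 h1 h2
        have h3 : (a : ℝ) = 0 := by linarith
        have h4 : a = 0 := by exact_mod_cast h3
        omega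
      have hf := Polynomial.finite_setOf_isRoot hp
      refine (hf.image fun x => (((a, b, c), x) : Entry)).subset ?_
      rintro ⟨t, x⟩ ⟨h1, _, h3⟩
      simp only at h1 h3
      subst h1
      refine ⟨x, ?_, rfl⟩
      simpa [Polynomial.IsRoot] using h3
    · refine Set.Finite.subset Set.finite_empty ?_
      rintro e ⟨_, h, _⟩
      exact absurd h ha
  have hbox : (Set.Icc (1 : ℤ) n ×ˢ (Set.Icc (-(n : ℤ)) n ×ˢ Set.Icc (-(n : ℤ)) n)).Finite :=
    (Set.finite_Icc _ _).prod ((Set.finite_Icc _ _).prod (Set.finite_Icc _ _))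
  refine (hbox.biUnion fun t _ => hroots t).subset ?_
  rintro e ⟨a, b, c, h1, h2, h3, h4, _, h5, _, _, h6⟩
  simp only [Set.mem_iUnion]
  exact ⟨(a, b, c), ⟨⟨h1, h2⟩, abs_le.1 h3, abs_le.1 h4⟩, h5, h1, h6⟩

open Classical in
theorem exists_list (n : ℕ) : ∃ L, IsMahlerList n L := by
  refine ⟨((finite_rat n).toFinset.toList ++ (finite_rat n).toFinset.toList
    ++ (finite_quad n).toFinset.toList).mergeSort (fun u v => decide (u.2 ≤ v.2)), ?_,
    (finite_rat n).toFinset.toList, (finite_quad n).toFinset.toList, Finset.nodup_toList _,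
    fun e => by simp, Finset.nodup_toList _, fun e => by simp, List.mergeSort_perm _ _⟩
  have := List.pairwise_mergeSort (le := fun u v : Entry => decide (u.2 ≤ v.2))
    (fun a b c h1 h2 => by simp only [decide_eq_true_eq] at *; exact h1.trans h2)
    (fun a b => by simpa using le_total a.2 b.2)
    ((finite_rat n).toFinset.toList ++ (finite_rat n).toFinset.toList
    ++ (finite_quad n).toFinset.toList)
  exact this.imp (fun h => by simpa using h)

open Classical in
theorem split (lo hi : ℝ) (hlh : lo < hi) (L : List Entry) (hL : L.Pairwise (fun u v => u.2 ≤ v.2)) :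
    L = L.filter (fun e => decide (e.2 ≤ lo)) ++ L.filter (fun e => decide (lo < e.2 ∧ e.2 < hi))
      ++ L.filter (fun e => decide (hi ≤ e.2)) := by
  induction L with
  | nil => simp
  | cons x t ih =>
    rw [List.pairwise_cons] at hL
    have ih' := ih hL.2
    rcases le_or_gt x.2 lo with h | h
    · have h2 : ¬ (lo < x.2 ∧ x.2 < hi) := fun h' => absurd h'.1 (not_lt.2 h)
      have h3 : ¬ hi ≤ x.2 := fun h' => absurd (h'.trans h) (not_le.2 hlh)
      rw [List.filter_cons, List.filter_cons, List.filter_cons, if_pos (by simpa using h),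
        if_neg (by simpa using h2), if_neg (by simpa using h3), List.cons_append, List.cons_append,
        ← ih']
    · have e1 : t.filter (fun e => decide (e.2 ≤ lo)) = [] := by
        rw [List.filter_eq_nil_iff]
        intro y hy
        simpa using h.trans_le (hL.1 y hy)
      rcases lt_or_ge x.2 hi with h' | h'
      · rw [List.filter_cons, List.filter_cons, List.filter_cons, if_neg (by simpa using h),
          if_pos (by simpa using ⟨h, h'⟩), if_neg (by simpa using h'), e1, List.nil_append,
          List.cons_append]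
        rw [e1, List.nil_append] at ih'
        rw [← ih']
      · have e2 : t.filter (fun e => decide (lo < e.2 ∧ e.2 < hi)) = [] := by
          rw [List.filter_eq_nil_iff]
          intro y hy
          simp only [decide_eq_true_eq, not_and, not_lt]
          intro _
          exact h'.trans (hL.1 y hy)
        rw [List.filter_cons, List.filter_cons, List.filter_cons, if_neg (by simpa using h),
          if_neg (by simpa using fun _ => h'), if_pos (by simpa using h'), e1, e2, List.nil_append,
          List.nil_append]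
        rw [e1, e2, List.nil_append, List.nil_append] at ih'
        rw [← ih']

end Pool.Agent.H920R2.Mf
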