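import Pool.Agent.H920R2.Mf1

set_option autoImplicit false

namespace Pool.Agent.H920R2.Mf

/-- The integer check: `lo = 2264/10^4`, `hi = 2320/10^4`; a quadratic of height at most 7 other than the
three exceptions is monotone on the interval and has no sign change. -/
def chk (a b c : ℤ) : Bool :=
  let s0 := 2 * a * 2264 + b * 10000
  let s1 := 2 * a * 2320 + b * 10000
  let f0 := a * 2264 ^ 2 + b * 2264 * 10000 + c * 10000 ^ 2
  let f1 := a * 2320 ^ 2 + b * 2320 * 10000 + c * 10000 ^ 2
  (decide (0 < s0) && (decide (0 ≤ f0) || decide (f1 ≤ 0))) ||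
    (decide (s1 < 0) && (decide (f0 ≤ 0) || decide (0 ≤ f1)))

theorem chk_all : ∀ a ∈ Finset.Icc (1 : ℤ) 7, ∀ b ∈ Finset.Icc (-7 : ℤ) 7, ∀ c ∈ Finset.Icc (-7 : ℤ) 7,
    chk a b c = true ∨ (a, b, c) = (7, -6, 1) ∨ (a, b, c) = (6, 3, -1) ∨ (a, b, c) = (7, 7, -2) := by
  decide +kernel

theorem no_root (a b c : ℤ) (ha : 1 ≤ a) (h : chk a b c = true) (x : ℝ)
    (h1 : (2264 : ℝ) / 10000 < x) (h2 : x < 2320 / 10000) : (a : ℝ) * x ^ 2 + b * x + c ≠ 0 := by
  intro h0
  have ha' : (1 : ℝ) ≤ a := by exact_mod_cast ha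
  simp only [chk, Bool.or_eq_true, Bool.and_eq_true, decide_eq_true_eq] at h
  rcases h with ⟨hs, hf⟩ | ⟨hs, hf⟩
  · have hs' : (0 : ℝ) < 2 * a * 2264 + b * 10000 := by exact_mod_cast hs
    rcases hf with hf | hf
    · have hf' : (0 : ℝ) ≤ a * 2264 ^ 2 + b * 2264 * 10000 + c * 10000 ^ 2 := by exact_mod_cast hf
      have e1 : (0 : ℝ) < (x - 2264 / 10000) * (a * (x + 2264 / 10000) + b) := by
        apply mul_pos (by linarith); nlinarith
      nlinarith
    · have hf' : (a : ℝ) * 2320 ^ 2 + b * 2320 * 10000 + c * 10000 ^ 2 ≤ 0 := by exact_mod_cast hf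
      have e1 : (0 : ℝ) < (2320 / 10000 - x) * (a * (x + 2320 / 10000) + b) := by
        apply mul_pos (by linarith); nlinarith
      nlinarith
  · have hs' : (2 : ℝ) * a * 2320 + b * 10000 < 0 := by exact_mod_cast hs
    rcases hf with hf | hf
    · have hf' : (a : ℝ) * 2264 ^ 2 + b * 2264 * 10000 + c * 10000 ^ 2 ≤ 0 := by exact_mod_cast hf
      have e1 : (x - 2264 / 10000) * (a * (x + 2264 / 10000) + b) < 0 := by
        apply mul_neg_of_pos_of_neg (by linarith); nlinarith
      nlinarith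
    · have hf' : (0 : ℝ) ≤ a * 2320 ^ 2 + b * 2320 * 10000 + c * 10000 ^ 2 := by exact_mod_cast hf
      have e1 : (2320 / 10000 - x) * (a * (x + 2320 / 10000) + b) < 0 := by
        apply mul_neg_of_pos_of_neg (by linarith); nlinarith
      nlinarith

theorem no_rat : ∀ p ∈ Finset.Icc (1 : ℕ) 7, ∀ q ∈ Finset.Icc (1 : ℕ) 7,
    p * 10000 ≤ 2264 * q ∨ 2320 * q ≤ p * 10000 := by
  decide

noncomputable def e1 : Entry := ((7, -6, 1), (3 - √2) / 7)
noncomputable def e2 : Entry := ((6, 3, -1), (-3 + √33) / 12)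
noncomputable def e3 : Entry := ((7, 7, -2), (-7 + √105) / 14)

theorem b2 : 1.4142 < √2 ∧ √2 < 1.4143 := by
  constructor
  · apply Real.lt_sqrt_of_sq_lt; norm_num
  · rw [Real.sqrt_lt' (by norm_num)]; norm_num
theorem b33 : 5.7445 < √33 ∧ √33 < 5.7446 := by
  constructor
  · apply Real.lt_sqrt_of_sq_lt; norm_num
  · rw [Real.sqrt_lt' (by norm_num)]; norm_num
theorem b105 : 10.2469 < √105 ∧ √105 < 10.247 := by
  constructor
  · apply Real.lt_sqrt_of_sq_lt; norm_num
  · rw [Real.sqrt_lt' (by norm_num)]; norm_num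

theorem quad_e1 : IsQuad 7 e1 := by
  refine ⟨7, -6, 1, by norm_num, by norm_num, by norm_num [abs_le], by norm_num, by decide, rfl, ?_, ?_, ?_⟩
  · have := b2.2; simp only [e1]; linarith
  · simp only [e1]
    have h : Irrational (√2) := irrational_sqrt_two
    have h2 : Irrational (((3 : ℕ) : ℝ) - √2) := h.natCast_sub 3
    have h3 := h2.div_natCast (m := 7) (by norm_num)
    simpa using h3
  · have h := Real.sq_sqrt (show (0 : ℝ) ≤ 2 by norm_num)
    simp only [e1]; push_cast; nlinarith

theorem quad_e2 : IsQuad 7 e2 := by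
  refine ⟨6, 3, -1, by norm_num, by norm_num, by norm_num, by norm_num, by decide, rfl, ?_, ?_, ?_⟩
  · have := b33.1; simp only [e2]; linarith
  · simp only [e2]
    have h : Irrational (√33) := irrational_sqrt_ofNat_iff.2 (by decide +kernel)
    have h2 : Irrational (((-3 : ℤ) : ℝ) + √33) := h.intCast_add (-3)
    have h3 := h2.div_natCast (m := 12) (by norm_num)
    simpa using h3
  · have h := Real.sq_sqrt (show (0 : ℝ) ≤ 33 by norm_num)
    simp only [e2]; push_cast; nlinarith

theorem quad_e3 : IsQuad 7 e3 := by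
  refine ⟨7, 7, -2, by norm_num, by norm_num, by norm_num, by norm_num, by decide, rfl, ?_, ?_, ?_⟩
  · have := b105.1; simp only [e3]; linarith
  · simp only [e3]
    have h : Irrational (√105) := irrational_sqrt_ofNat_iff.2 (by decide +kernel)
    have h2 : Irrational (((-7 : ℤ) : ℝ) + √105) := h.intCast_add (-7)
    have h3 := h2.div_natCast (m := 14) (by norm_num)
    simpa using h3
  · have h := Real.sq_sqrt (show (0 : ℝ) ≤ 105 by norm_num)
    simp only [e3]; push_cast; nlinarith

theorem lt12 : e1.2 < e2.2 := by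
  have := b2.1; have := b33.1; simp only [e1, e2]; linarith
theorem lt23 : e2.2 < e3.2 := by
  have := b33.2; have := b105.1; simp only [e2, e3]; linarith
theorem lo1 : (2264 : ℝ) / 10000 < e1.2 := by
  have := b2.2; simp only [e1]; linarith
theorem hi3 : e3.2 < (2320 : ℝ) / 10000 := by
  have := b105.2; simp only [e3]; linarith

theorem window (e : Entry) (he : IsQuad 7 e) (h1 : (2264 : ℝ) / 10000 < e.2)
    (h2 : e.2 < 2320 / 10000) : e = e1 ∨ e = e2 ∨ e = e3 := by
  obtain ⟨a, b, c, ha1, ha2, hb, hc, -, he1, -, -, h0⟩ := he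
  have hc' := chk_all a (Finset.mem_Icc.2 ⟨ha1, by exact_mod_cast ha2⟩) b
    (Finset.mem_Icc.2 (abs_le.1 (by exact_mod_cast hb))) c
    (Finset.mem_Icc.2 (abs_le.1 (by exact_mod_cast hc)))
  rcases hc' with h | h | h | h
  · exact absurd h0 (no_root a b c ha1 h e.2 h1 h2)
  · left
    simp only [Prod.mk.injEq] at h
    obtain ⟨rfl, rfl, rfl⟩ := h
    push_cast at h0
    have h3 : (3 - 7 * e.2) ^ 2 = 2 := by linarith
    have h4 : 3 - 7 * e.2 = √2 := by
      rw [← h3, Real.sqrt_sq (by linarith)]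
    refine Prod.ext he1 ?_
    simp only [e1]; rw [← h4]; ring
  · right; left
    simp only [Prod.mk.injEq] at h
    obtain ⟨rfl, rfl, rfl⟩ := h
    push_cast at h0
    have h3 : (12 * e.2 + 3) ^ 2 = 33 := by linarith
    have h4 : 12 * e.2 + 3 = √33 := by
      rw [← h3, Real.sqrt_sq (by linarith)]
    refine Prod.ext he1 ?_
    simp only [e2]; rw [← h4]; ring
  · right; right
    simp only [Prod.mk.injEq] at h
    obtain ⟨rfl, rfl, rfl⟩ := h
    push_cast at h0
    have h3 : (14 * e.2 + 7) ^ 2 = 105 := by linarith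
    have h4 : 14 * e.2 + 7 = √105 := by
      rw [← h3, Real.sqrt_sq (by linarith)]
    refine Prod.ext he1 ?_
    simp only [e3]; rw [← h4]; ring

theorem window_rat (e : Entry) (he : IsRat 7 e) :
    ¬ ((2264 : ℝ) / 10000 < e.2 ∧ e.2 < 2320 / 10000) := by
  obtain ⟨p, q, hp1, hp2, hq1, hq2, -, rfl⟩ := he
  rintro ⟨h1, h2⟩
  have hq : (0 : ℝ) < q := by exact_mod_cast hq1
  simp only at h1 h2
  rw [lt_div_iff₀ hq] at h1
  rw [div_lt_iff₀ hq] at h2
  rcases no_rat p (Finset.mem_Icc.2 ⟨hp1, hp2⟩) q (Finset.mem_Icc.2 ⟨hq1, hq2⟩) with h | h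
  · have h' : (p : ℝ) * 10000 ≤ 2264 * q := by exact_mod_cast h
    linarith
  · have h' : (2320 : ℝ) * q ≤ p * 10000 := by exact_mod_cast h
    linarith

open Classical in
theorem infix_seven (L : List Entry) (hL : IsMahlerList 7 L) : [e1, e2, e3] <:+: L := by
  obtain ⟨hs, R, Q, hR, hRm, hQ, hQm, hperm⟩ := hL
  have h12 := lt12
  have h23 := lt23
  have hl := lo1
  have hh := hi3
  have key : L.filter (fun e => decide ((2264 : ℝ) / 10000 < e.2 ∧ e.2 < 2320 / 10000))
      = [e1, e2, e3] := by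
    have hp := hperm.filter (fun e => decide ((2264 : ℝ) / 10000 < e.2 ∧ e.2 < 2320 / 10000))
    have hRe : R.filter (fun e => decide ((2264 : ℝ) / 10000 < e.2 ∧ e.2 < 2320 / 10000)) = [] := by
      rw [List.filter_eq_nil_iff]
      intro e he
      simpa using window_rat e ((hRm e).1 he)
    rw [List.filter_append, List.filter_append, hRe, List.nil_append, List.nil_append] at hp
    have hp2 : (Q.filter (fun e => decide ((2264 : ℝ) / 10000 < e.2 ∧ e.2 < 2320 / 10000))).Perm
        [e1, e2, e3] := by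
      rw [List.perm_ext_iff_of_nodup (hQ.filter _)]
      · intro e
        rw [List.mem_filter, hQm]
        simp only [decide_eq_true_eq, List.mem_cons, List.not_mem_nil, or_false]
        constructor
        · rintro ⟨h1, h2, h3⟩
          exact window e h1 h2 h3
        · rintro (rfl | rfl | rfl)
          · exact ⟨quad_e1, hl, by linarith⟩
          · exact ⟨quad_e2, by linarith, by linarith⟩
          · exact ⟨quad_e3, by linarith, hh⟩
      · have n12 : e1 ≠ e2 := fun h => by rw [h] at h12; exact lt_irrefl _ h12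
        have n23 : e2 ≠ e3 := fun h => by rw [h] at h23; exact lt_irrefl _ h23
        have n13 : e1 ≠ e3 := fun h => by rw [h] at h12; exact lt_irrefl _ (h12.trans h23)
        simp [n12, n23, n13]
    refine List.Perm.eq_of_pairwise (le := fun u v : Entry => u.2 ≤ v.2) ?_
      (hs.sublist List.filter_sublist) ?_ (hp.trans hp2)
    · intro a b ha hb hab hba
      have ha' : a ∈ [e1, e2, e3] := (hp.trans hp2).subset ha
      have hab' : a.2 = b.2 := le_antisymm hab hba
      simp only [List.mem_cons, List.not_mem_nil, or_false] at ha' hb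
      rcases ha' with rfl | rfl | rfl <;> rcases hb with rfl | rfl | rfl <;>
        first | rfl | (exfalso; linarith)
    · simp only [List.pairwise_cons, List.mem_cons, List.not_mem_nil, or_false, forall_eq_or_imp,
        forall_eq]
      refine ⟨⟨h12.le, (h12.trans h23).le⟩, h23.le, ?_⟩
      simp
  have hsplit := split (2264 / 10000) (2320 / 10000) (by norm_num) L hs
  rw [key] at hsplit
  exact ⟨_, _, hsplit.symm⟩

end Pool.Agent.H920R2.Mf
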