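import Mathlib

set_option autoImplicit false

open MvPolynomial

universe u v

namespace Pool.Agent.H920R2

section star

variable {k : Type u} [Field k] {N : Type} [Fintype N]

lemma deriv_formula {A : Type v} [CommRing A] [Algebra k A] (π : MvPolynomial N k →ₐ[k] A)
    (D : MvPolynomial N k → A) (hC : ∀ a, D (C a) = 0) (hadd : ∀ f g, D (f + g) = D f + D g)
    (hmul : ∀ f g, D (f * g) = π f * D g + π g * D f) (f : MvPolynomial N k) :
    D f = ∑ i, π (pderiv i f) * D (X i) := by
  classical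
  induction f using MvPolynomial.induction_on with
  | C a => rw [hC]; simp
  | add f g hf hg =>
    rw [hadd, hf, hg, ← Finset.sum_add_distrib]
    refine Finset.sum_congr rfl fun i _ => ?_
    rw [map_add, map_add, add_mul]
  | mul_X f j hf =>
    have h1 : ∀ i, π (pderiv i (f * X j)) * D (X i) =
        π (X j) * (π (pderiv i f) * D (X i)) + (if j = i then π f * D (X i) else 0) := by
      intro i
      rw [Derivation.leibniz, pderiv_X, smul_eq_mul, smul_eq_mul, map_add, map_mul, map_mul]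
      by_cases h : j = i
      · subst h
        rw [Pi.single_eq_same, map_one, if_pos rfl]
        ring
      · rw [Pi.single_eq_of_ne h, map_zero, if_neg h]
        ring
    simp_rw [h1]
    rw [Finset.sum_add_distrib, ← Finset.mul_sum, ← hf, Finset.sum_ite_eq, if_pos
      (Finset.mem_univ j), hmul]
    ring

/-- The linearised relations, obtained from the formal smoothness of a localisation of a
quotient of a polynomial ring. -/
theorem star {C : Type u} [CommRing C] [Algebra k C] [Algebra.FormallySmooth k C]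
    (I : Ideal (MvPolynomial N k)) (φ : MvPolynomial N k →ₐ[k] C) (hφ : ∀ f, φ f = 0 ↔ f ∈ I)
    (v : MvPolynomial N k) (hv : IsUnit (φ v))
    (hsurj : ∀ c : C, ∃ (n : ℕ) (f : MvPolynomial N k), φ v ^ n * c = φ f) :
    ∃ (n : ℕ) (r : N → MvPolynomial N k), (∀ i, r i ∈ I) ∧
      ∀ f ∈ I, ∃ m : ℕ, v ^ m * (v ^ n * f - ∑ i, pderiv i f * r i) ∈ I ^ 2 := by
  classical
  let Q := MvPolynomial N k ⧸ I ^ 2
  let mk : MvPolynomial N k →ₐ[k] Q := Ideal.Quotient.mkₐ k (I ^ 2)
  have hmk : ∀ f, mk f = 0 ↔ f ∈ I ^ 2 := fun f => Ideal.Quotient.eq_zero_iff_mem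
  have hmks : Function.Surjective mk := Ideal.Quotient.mkₐ_surjective k _
  let Qv := Localization.Away (mk v)
  let q0 : Q →ₐ[k] C := Ideal.Quotient.liftₐ (I ^ 2) φ (fun a ha => (hφ a).2
    (Ideal.pow_le_self two_ne_zero ha))
  have hq0 : ∀ f, q0 (mk f) = φ f := fun f => rfl
  let q : Qv →ₐ[k] C := IsLocalization.liftAlgHom (M := Submonoid.powers (mk v)) (f := q0)
    (by
      rintro ⟨_, n, rfl⟩
      change IsUnit (q0 (mk v ^ n))
      rw [map_pow, hq0]
      exact hv.pow n)
  let α : Q →ₐ[k] Qv := IsScalarTower.toAlgHom k Q Qv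
  have hqα : ∀ x, q (α x) = q0 x := by
    intro x
    exact IsLocalization.lift_eq _ x
  have hunit : IsUnit (α (mk v)) := IsLocalization.Away.algebraMap_isUnit (mk v)
  have hfrac : ∀ x : Qv, ∃ (n : ℕ) (f : MvPolynomial N k), α (mk v) ^ n * x = α (mk f) := by
    intro x
    obtain ⟨n, a, ha⟩ := IsLocalization.Away.surj (mk v) x
    obtain ⟨f, rfl⟩ := hmks a
    exact ⟨n, f, by rw [mul_comm]; exact ha⟩
  have hfracz : ∀ f, α (mk f) = 0 → ∃ n : ℕ, v ^ n * f ∈ I ^ 2 := by
    intro f hf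
    have h1 : algebraMap Q Qv (mk f) = algebraMap Q Qv 0 := by rw [map_zero]; exact hf
    obtain ⟨n, hn⟩ := IsLocalization.Away.exists_of_eq (mk v) h1
    refine ⟨n, ?_⟩
    rw [← hmk, map_mul, map_pow, hn, mul_zero]
  have hqsurj : Function.Surjective q := by
    intro c
    obtain ⟨n, f, h⟩ := hsurj c
    obtain ⟨y, hy⟩ := hunit.pow n
    refine ⟨↑y⁻¹ * α (mk f), ?_⟩
    have h1 : φ v ^ n * q (↑y⁻¹ * α (mk f)) = φ v ^ n * c := by
      have h2 : φ v ^ n = q (α (mk v) ^ n) := by rw [map_pow, hqα, hq0]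
      rw [h, h2, ← map_mul, ← hy, Units.mul_inv_cancel_left, hqα, hq0]
    exact (hv.pow n).mul_left_cancel h1
  have hker : ∀ x, q x = 0 → ∃ (n : ℕ) (f : MvPolynomial N k), f ∈ I ∧
      α (mk v) ^ n * x = α (mk f) := by
    intro x hx
    obtain ⟨n, f, h⟩ := hfrac x
    refine ⟨n, f, ?_, h⟩
    rw [← hφ, ← hq0, ← hqα, ← h, map_mul, hx, mul_zero]
  have hsq : ∀ x y, q x = 0 → q y = 0 → x * y = 0 := by
    intro x y hx hy
    obtain ⟨n, f, hf, h⟩ := hker x hx
    obtain ⟨n', f', hf', h'⟩ := hker y hy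
    have h1 : α (mk v) ^ (n + n') * (x * y) = 0 := by
      have h2 : α (mk v) ^ (n + n') * (x * y) = α (mk (f * f')) := by
        rw [map_mul, map_mul, ← h, ← h']; ring
      rw [h2]
      have h3 : mk (f * f') = 0 := by
        rw [hmk, pow_two]; exact Ideal.mul_mem_mul hf hf'
      rw [h3, map_zero]
    exact (hunit.pow (n + n')).mul_right_eq_zero.1 h1
  have hnil : IsNilpotent (RingHom.ker (q : Qv →+* C)) := by
    refine ⟨2, ?_⟩
    rw [pow_two (RingHom.ker (q : Qv →+* C)), Submodule.zero_eq_bot, eq_bot_iff, Ideal.mul_le]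
    intro x hx y hy
    exact Ideal.mem_bot.2 (hsq x y hx hy)
  let s : C →ₐ[k] Qv := Algebra.FormallySmooth.liftOfSurjective (AlgHom.id k C) q hqsurj hnil
  have hs : ∀ c, q (s c) = c := fun c =>
    Algebra.FormallySmooth.liftOfSurjective_apply (AlgHom.id k C) q hqsurj hnil c
  let D : MvPolynomial N k → Qv := fun f => α (mk f) - s (φ f)
  have hD : ∀ f, D f = α (mk f) - s (φ f) := fun f => rfl
  have hDq : ∀ f, q (D f) = 0 := by
    intro f
    rw [hD, map_sub, hs, hqα, hq0, sub_self]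
  have hDf : ∀ f, D f = ∑ i, (α.comp mk) (pderiv i f) * D (X i) := by
    refine deriv_formula (α.comp mk) D ?_ ?_ ?_
    · intro a
      rw [hD, ← MvPolynomial.algebraMap_eq, AlgHom.commutes, AlgHom.commutes, AlgHom.commutes,
        AlgHom.commutes, sub_self]
    · intro f g
      rw [hD, hD, hD, map_add, map_add, map_add, map_add]; ring
    · intro f g
      have h1 := hsq _ _ (hDq f) (hDq g)
      rw [AlgHom.comp_apply, AlgHom.comp_apply]
      rw [hD, hD] at *
      rw [hD, map_mul, map_mul, map_mul, map_mul]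
      linear_combination (-1 : Qv) * h1
  have h1 : ∀ i, ∃ (n : ℕ) (f : MvPolynomial N k), f ∈ I ∧
      α (mk v) ^ n * D (X i) = α (mk f) := fun i => hker _ (hDq _)
  choose nn ff hff hnn using h1
  let M : ℕ := Finset.univ.sup nn
  have hM : ∀ i, nn i ≤ M := fun i => Finset.le_sup (Finset.mem_univ i)
  refine ⟨M, fun i => v ^ (M - nn i) * ff i, fun i => I.mul_mem_left _ (hff i), ?_⟩
  intro f hf
  apply hfracz
  have h2 : ∀ i, α (mk (v ^ (M - nn i) * ff i)) = α (mk v) ^ M * D (X i) := by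
    intro i
    rw [map_mul, map_mul, map_pow, map_pow, ← hnn, ← mul_assoc, ← pow_add,
      Nat.sub_add_cancel (hM i)]
  have h3 : D f = α (mk f) := by
    rw [hD, (hφ f).2 hf, map_zero, sub_zero]
  rw [map_sub, map_sub, map_mul, map_mul, map_pow, map_pow, map_sum, map_sum, ← h3, hDf f,
    Finset.mul_sum, sub_eq_zero]
  refine Finset.sum_congr rfl fun i _ => ?_
  rw [map_mul, map_mul, h2, AlgHom.comp_apply]
  ring

end star

end Pool.Agent.H920R2
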