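import Pool.Agent.H920R2.Sharp1

set_option autoImplicit false

open MvPolynomial

universe u v

namespace Pool.Agent.H920R2

section wt

variable {k : Type u} [Field k] {S : Type} (w : S → ℤ)

/-- Components of a product with a homogeneous polynomial. -/
lemma wc_mul {a : MvPolynomial S k} {d : ℤ} (ha : a.IsWeightedHomogeneous w d) (c : ℤ)
    (r : MvPolynomial S k) : weightedHomogeneousComponent w c (a * r) =
      a * weightedHomogeneousComponent w (c - d) r := by
  classical
  induction r using MvPolynomial.induction_on' with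
  | monomial m b =>
    have h1 : (monomial m b : MvPolynomial S k).IsWeightedHomogeneous w (Finsupp.weight w m) :=
      isWeightedHomogeneous_monomial w m b rfl
    by_cases h : c - d = Finsupp.weight w m
    · have h2 : (a * monomial m b).IsWeightedHomogeneous w c := by
        have h3 := ha.mul h1
        have h4 : d + Finsupp.weight w m = c := by rw [← h]; ring
        rwa [h4] at h3
      rw [h2.weightedHomogeneousComponent_same, h, h1.weightedHomogeneousComponent_same]
    · rw [h1.weightedHomogeneousComponent_ne _ h, mul_zero]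
      refine (ha.mul h1).weightedHomogeneousComponent_ne _ ?_
      intro h5
      apply h
      rw [h5]; ring
  | add p q hp hq => rw [mul_add, map_add, map_add, hp, hq, mul_add]

/-- Every polynomial is a finite sum of homogeneous ones. -/
lemma exists_sum_wc (f : MvPolynomial S k) : ∃ s : Finset ℤ,
    f = ∑ e ∈ s, weightedHomogeneousComponent w e f := by
  classical
  have hfin := weightedHomogeneousComponent_finsupp (w := w) f
  refine ⟨hfin.toFinset, ?_⟩
  conv_lhs => rw [← sum_weightedHomogeneousComponent w f]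
  rw [finsum_eq_sum _ hfin]

end wt

section div

variable {k : Type u} [Field k] {N : Type} [Fintype N] (w : Option N → ℤ) (ρ : ℕ)
  (hw0 : w none = -ρ) (hw : ∀ i, 0 ≤ w (some i))

include hw0 hw in
lemma div_wt {f : MvPolynomial (Option N) k} {e : ℤ} (hf : f.IsWeightedHomogeneous w e) (n : ℕ)
    (he : e < (1 - n) * ρ) (hρ : 0 < ρ) : ∃ g : MvPolynomial (Option N) k,
      g.IsWeightedHomogeneous w (e + n * ρ) ∧ f = X none ^ n * g := by
  classical
  let t : Option N →₀ ℕ := Finsupp.single none n
  have hkey : ∀ d, coeff d f ≠ 0 → t ≤ d := by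
    intro d hd
    have h1 := hf hd
    rw [Finsupp.weight_apply, Finsupp.sum_fintype _ _ (by intro; simp)] at h1
    rw [Fintype.sum_option, hw0] at h1
    have h2 : 0 ≤ ∑ i, d (some i) • w (some i) :=
      Finset.sum_nonneg fun i _ => nsmul_nonneg (hw i) _
    have h3 : (n : ℤ) ≤ d none := by
      rw [nsmul_eq_mul] at h1
      by_contra hcon
      push Not at hcon
      have h4 : (d none : ℤ) + 1 ≤ n := hcon
      have hρ' : (0 : ℤ) < ρ := by exact_mod_cast hρ
      nlinarith
    rw [Finsupp.single_le_iff]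
    exact_mod_cast h3
  have hX : (X none : MvPolynomial (Option N) k) ^ n = monomial t 1 := by
    rw [X_pow_eq_monomial]
  refine ⟨divMonomial f t, ?_, ?_⟩
  · intro d hd
    rw [coeff_divMonomial] at hd
    have h1 := hf hd
    rw [map_add] at h1
    have h2 : Finsupp.weight w t = -(n * ρ) := by
      rw [Finsupp.weight_single, hw0, nsmul_eq_mul]; ring
    rw [h2] at h1
    linear_combination h1
  · rw [hX]
    have h1 := divMonomial_add_modMonomial f t
    have h2 : modMonomial f t = 0 := by
      ext d
      rw [coeff_zero]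
      by_cases h : t ≤ d
      · exact coeff_modMonomial_of_le f h
      · rw [coeff_modMonomial_of_not_le f h]
        by_contra hc
        exact h (hkey d hc)
    rw [h2, add_zero] at h1
    exact h1.symm

end div

section sharp

variable {k : Type u} [Field k] {N : Type} [Fintype N] (w : Option N → ℤ) (ρ : ℕ)
  (hρ : 0 < ρ) (hw0 : w none = -ρ) (hw : ∀ i, 0 ≤ w (some i)) (hw' : ∀ i, w (some i) < ρ)
  (I : Ideal (MvPolynomial (Option N) k))

/-- The ideal generated by the homogeneous elements of `I` of degree less than `ρ`. -/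
noncomputable def shp : Ideal (MvPolynomial (Option N) k) :=
  Ideal.span {f | f ∈ I ∧ ∃ e : ℤ, e < ρ ∧ f.IsWeightedHomogeneous w e}

variable {w ρ I}

omit [Fintype N] in
lemma shp_le : shp w ρ I ≤ I := by
  unfold shp
  rw [Ideal.span_le]
  rintro f ⟨hf, -⟩
  exact hf

omit [Fintype N] in
lemma mem_shp {f : MvPolynomial (Option N) k} (hf : f ∈ I) {e : ℤ} (he : e < ρ)
    (hfe : f.IsWeightedHomogeneous w e) : f ∈ shp w ρ I :=
  Ideal.subset_span ⟨hf, e, he, hfe⟩

variable (hI : ∀ f ∈ I, ∀ e, weightedHomogeneousComponent w e f ∈ I) (hp : I.IsPrime)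
  (hv : X none ∉ I)

include hρ hw0 hw hp hv in
/-- Normalisation of the degree of a homogeneous element of `I`. -/
lemma norm_wt {g : MvPolynomial (Option N) k} (hg : g ∈ I) {a : ℤ}
    (hga : g.IsWeightedHomogeneous w a) : ∃ (p m : ℕ) (g' : MvPolynomial (Option N) k),
      g' ∈ shp w ρ I ∧ X none ^ p * g = X none ^ m * g' ∧ (p : ℤ) - m = a / ρ := by
  have hρ' : (0 : ℤ) < ρ := by exact_mod_cast hρ
  have hmod := Int.emod_lt_of_pos a hρ'
  have hdiv := Int.mul_ediv_add_emod a ρ
  rcases le_or_gt 0 (a / ρ) with h | h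
  · obtain ⟨j, hj⟩ := Int.eq_ofNat_of_zero_le h
    refine ⟨j, 0, X none ^ j * g, ?_, by rw [pow_zero, one_mul], by rw [hj]; simp⟩
    refine mem_shp (e := a % ρ) (I.mul_mem_left _ hg) hmod ?_
    have h1 := ((isWeightedHomogeneous_X k w (none : Option N)).pow j).mul hga
    have h2 : j • w none + a = a % ρ := by
      rw [hw0, nsmul_eq_mul, ← hj]
      linear_combination (-1 : ℤ) * hdiv
    rwa [h2] at h1
  · obtain ⟨j, hj⟩ := Int.eq_ofNat_of_zero_le (a := -(a / ρ)) (by omega)
    have he : a < (1 - j) * ρ := by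
      have h1 : (j : ℤ) = -(a / ρ) := hj.symm
      rw [h1]
      linarith
    obtain ⟨g', hg', hgg⟩ := div_wt w ρ hw0 hw hga j he hρ
    refine ⟨0, j, g', ?_, by rw [pow_zero, one_mul]; exact hgg, by
      have h1 : (j : ℤ) = -(a / ρ) := hj.symm
      push_cast; linarith⟩
    refine mem_shp (e := a + j * ρ) ?_ ?_ hg'
    · rw [hgg] at hg
      exact (hp.mem_or_mem hg).resolve_left fun h2 => hv (hp.mem_of_pow_mem _ h2)
    · have h1 : (j : ℤ) = -(a / ρ) := hj.symm
      rw [h1]
      linarith

include hρ hw0 hw hp hv hI in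
lemma wc_sq {x : MvPolynomial (Option N) k} (hx : x ∈ I ^ 2) (c : ℤ) (M : ℕ)
    (hc : c < (1 - M) * ρ) : ∃ z ∈ shp w ρ I ^ 2,
      weightedHomogeneousComponent w c x = X none ^ M * z := by
  have hρ' : (0 : ℤ) < ρ := by exact_mod_cast hρ
  have hX0 : (X none : MvPolynomial (Option N) k) ≠ 0 := X_ne_zero _
  have hprod : ∀ (a : ℤ) (g h : MvPolynomial (Option N) k), g ∈ I → h ∈ I →
      g.IsWeightedHomogeneous w a → h.IsWeightedHomogeneous w (c - a) →
      ∃ z ∈ shp w ρ I ^ 2, g * h = X none ^ M * z := by
    intro a g h hg hh hga hha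
    obtain ⟨p, m, g', hg', e1, d1⟩ := norm_wt hρ hw0 hw hp hv hg hga
    obtain ⟨p', m', h', hh', e2, d2⟩ := norm_wt hρ hw0 hw hp hv hh hha
    have hle : a / ρ + (c - a) / ρ ≤ -M := by
      have h1 := Int.mul_ediv_add_emod a ρ
      have h2 := Int.mul_ediv_add_emod (c - a) ρ
      have h3 := Int.emod_nonneg a hρ'.ne'
      have h4 := Int.emod_nonneg (c - a) hρ'.ne'
      by_contra hcon
      push Not at hcon
      have h5 : (1 : ℤ) - M ≤ a / ρ + (c - a) / ρ := by linarith
      nlinarith
    have hle' : p + p' + M ≤ m + m' := by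
      have : (p : ℤ) + p' + M ≤ m + m' := by linarith
      exact_mod_cast this
    obtain ⟨e, he⟩ := Nat.exists_eq_add_of_le hle'
    refine ⟨X none ^ e * (g' * h'), ?_, ?_⟩
    · refine Ideal.mul_mem_left _ _ ?_
      rw [pow_two]
      exact Ideal.mul_mem_mul hg' hh'
    · have h1 : X none ^ (p + p') * (g * h) = X none ^ (p + p') *
          (X none ^ M * (X none ^ e * (g' * h'))) := by
        have h2 : X none ^ (p + p') * (g * h) = (X none ^ p * g) * (X none ^ p' * h) := by ring
        rw [h2, e1, e2]
        have h3 : (X none ^ m * g') * (X none ^ m' * h') = X none ^ (m + m') * (g' * h') := by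
          ring
        rw [h3, he]
        ring
      exact mul_left_cancel₀ (pow_ne_zero _ hX0) h1
  rw [pow_two] at hx
  refine Submodule.mul_induction_on hx ?_ ?_
  · intro g hg h hh
    obtain ⟨s, hs⟩ := exists_sum_wc w g
    have h1 : ∀ a ∈ s, ∃ z ∈ shp w ρ I ^ 2,
        weightedHomogeneousComponent w c (weightedHomogeneousComponent w a g * h) =
          X none ^ M * z := by
      intro a _
      rw [wc_mul w (weightedHomogeneousComponent_isWeightedHomogeneous a g)]
      exact hprod a _ _ (hI _ hg _) (hI _ hh _)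
        (weightedHomogeneousComponent_isWeightedHomogeneous a g)
        (weightedHomogeneousComponent_isWeightedHomogeneous (c - a) h)
    choose! z hz1 hz2 using h1
    refine ⟨∑ a ∈ s, z a, Ideal.sum_mem _ hz1, ?_⟩
    have h2 : g * h = ∑ a ∈ s, weightedHomogeneousComponent w a g * h := by
      rw [← Finset.sum_mul, ← hs]
    rw [h2, map_sum, Finset.mul_sum]
    exact Finset.sum_congr rfl hz2
  · intro x y hx hy
    obtain ⟨z, hz, e⟩ := hx
    obtain ⟨z', hz', e'⟩ := hy
    refine ⟨z + z', Ideal.add_mem _ hz hz', ?_⟩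
    rw [map_add, e, e', mul_add]

end sharp

end Pool.Agent.H920R2
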