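import Pool.Agent.H920R2.Sharp2

set_option autoImplicit false

open MvPolynomial

universe u v

namespace Pool.Agent.H920R2

section euler

variable {k : Type u} [Field k] {S : Type} [Fintype S] (w : S → ℤ)

/-- Euler's identity with integral weights. -/
lemma euler_int {f : MvPolynomial S k} {e : ℤ} (hf : f.IsWeightedHomogeneous w e) :
    ∑ i, C (w i : k) * (X i * pderiv i f) = C (e : k) * f := by
  classical
  have key : ∀ m : S →₀ ℕ, ∀ b : k, ∑ i, C (w i : k) * (X i * pderiv i (monomial m b)) =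
      C ((Finsupp.weight w m : ℤ) : k) * monomial m b := by
    intro m b
    rw [Finsupp.weight_apply, Finsupp.sum_fintype _ _ (by intro; simp), Int.cast_sum, map_sum,
      Finset.sum_mul]
    refine Finset.sum_congr rfl fun i _ => ?_
    rw [X_mul_pderiv_monomial, nsmul_eq_mul, nsmul_eq_mul, Int.cast_mul, map_mul,
      Int.cast_natCast, map_natCast]
    ring
  rw [f.as_sum]
  simp_rw [map_sum, Finset.mul_sum]
  rw [Finset.sum_comm]
  refine Finset.sum_congr rfl fun m hm => ?_
  rw [key]
  have h1 := hf (mem_support_iff.1 hm)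
  rw [h1]

end euler

section sharp

variable {k : Type u} [Field k] {N : Type} [Fintype N] {w : Option N → ℤ} {ρ : ℕ}
  (hρ : 0 < ρ) (hw0 : w none = -ρ) (hw : ∀ i, 0 ≤ w (some i)) (hw' : ∀ i, w (some i) < ρ)
  {I : Ideal (MvPolynomial (Option N) k)}
  (hI : ∀ f ∈ I, ∀ e, weightedHomogeneousComponent w e f ∈ I) (hp : I.IsPrime)
  (hv : X none ∉ I)

include hρ hw0 hw hw' hI hp hv in
/-- Homogeneous version of the linearised relations. -/
lemma graded_star (n : ℕ) (r : Option N → MvPolynomial (Option N) k) (hr : ∀ i, r i ∈ I)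
    (hstar : ∀ f ∈ I, ∃ m : ℕ,
      X none ^ m * (X none ^ n * f - ∑ i, pderiv i f * r i) ∈ I ^ 2) :
    ∃ s : Option N → MvPolynomial (Option N) k, (∀ i, s i ∈ I) ∧
      (∀ i, (s i).IsWeightedHomogeneous w (w i)) ∧
      ∀ f ∈ I, ∀ e : ℤ, e < ρ → f.IsWeightedHomogeneous w e →
        f - ∑ i, pderiv i f * s i ∈ shp w ρ I ^ 2 := by
  classical
  have hρ' : (0 : ℤ) < ρ := by exact_mod_cast hρ
  have hX0 : (X none : MvPolynomial (Option N) k) ≠ 0 := X_ne_zero _
  have hwr : ∀ i, w i < ρ := by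
    rintro (_ | i)
    · rw [hw0]; linarith
    · exact hw' i
  have h1 : ∀ i, ∃ g : MvPolynomial (Option N) k, g.IsWeightedHomogeneous w (w i) ∧ g ∈ I ∧
      weightedHomogeneousComponent w (w i - n * ρ) (r i) = X none ^ n * g := by
    intro i
    obtain ⟨g, hg, hgg⟩ := div_wt w ρ hw0 hw
      (weightedHomogeneousComponent_isWeightedHomogeneous (w := w) (w i - n * ρ) (r i)) n
      (by have := hwr i; linarith) hρ
    refine ⟨g, ?_, ?_, hgg⟩
    · have h2 : w i - n * ρ + n * ρ = w i := by ring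
      rwa [h2] at hg
    · have h3 := hI _ (hr i) (w i - n * ρ)
      rw [hgg] at h3
      exact (hp.mem_or_mem h3).resolve_left fun h2 => hv (hp.mem_of_pow_mem _ h2)
  choose s hs1 hs2 hs3 using h1
  refine ⟨s, hs2, hs1, ?_⟩
  intro f hf e he hfe
  obtain ⟨m, hm⟩ := hstar f hf
  have hX : ∀ j : ℕ, (X none ^ j : MvPolynomial (Option N) k).IsWeightedHomogeneous w
      (-(j * ρ)) := by
    intro j
    have h1 := (isWeightedHomogeneous_X k w (none : Option N)).pow j
    have h2 : j • w none = -(j * ρ) := by rw [hw0, nsmul_eq_mul]; ring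
    rwa [h2] at h1
  obtain ⟨z, hz, hzz⟩ := wc_sq hρ hw0 hw hI hp hv hm (e - (m + n : ℕ) * ρ) (m + n) (by
    push_cast
    linarith)
  have h2 : weightedHomogeneousComponent w (e - (m + n : ℕ) * ρ)
      (X none ^ m * (X none ^ n * f - ∑ i, pderiv i f * r i)) =
      X none ^ (m + n) * (f - ∑ i, pderiv i f * s i) := by
    rw [wc_mul w (hX m), map_sub, wc_mul w (hX n)]
    have h3 : (e - (m + n : ℕ) * ρ - -(m * ρ) - -(n * ρ) : ℤ) = e := by push_cast; ring
    rw [h3, hfe.weightedHomogeneousComponent_same, map_sum, mul_sub, mul_sub, Finset.mul_sum,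
      Finset.mul_sum, pow_add]
    congr 1
    · ring
    · refine Finset.sum_congr rfl fun i _ => ?_
      have h4 : (pderiv i f).IsWeightedHomogeneous w (e - w i) := hfe.pderiv (by ring)
      rw [wc_mul w h4]
      have h5 : (e - (m + n : ℕ) * ρ - -(m * ρ) - (e - w i) : ℤ) = w i - n * ρ := by
        push_cast; ring
      rw [h5, hs3]
      ring
  rw [h2] at hzz
  have h6 := mul_left_cancel₀ (pow_ne_zero _ hX0) hzz
  rw [h6]
  exact hz

include hρ hw0 hw hw' hp hv in
/-- Version over the polynomial ring in the variable of negative weight. -/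
lemma relative_star (hρk : (ρ : k) ≠ 0) (s : Option N → MvPolynomial (Option N) k)
    (hs : ∀ i, s i ∈ I) (hs' : ∀ i, (s i).IsWeightedHomogeneous w (w i))
    (hstar : ∀ f ∈ I, ∀ e : ℤ, e < ρ → f.IsWeightedHomogeneous w e →
        f - ∑ i, pderiv i f * s i ∈ shp w ρ I ^ 2) :
    ∃ t : Option N → MvPolynomial (Option N) k, (∀ i, t i ∈ shp w ρ I) ∧ t none = 0 ∧
      ∀ f ∈ shp w ρ I, f - ∑ i, pderiv i f * t i ∈ shp w ρ I ^ 2 := by
  classical
  have hρ' : (0 : ℤ) < ρ := by exact_mod_cast hρ
  have hwr : ∀ i, w i < ρ := by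
    rintro (_ | i)
    · rw [hw0]; linarith
    · exact hw' i
  have hsJ : ∀ i, s i ∈ shp w ρ I := fun i => mem_shp (hs i) (hwr i) (hs' i)
  obtain ⟨η, hη, hηη⟩ := div_wt w ρ hw0 hw (hs' none) 1 (by rw [hw0]; push_cast; linarith) hρ
  have hη0 : w none + (1 : ℕ) * ρ = 0 := by rw [hw0]; push_cast; ring
  rw [hη0] at hη
  rw [pow_one] at hηη
  have hηI : η ∈ I := by
    have h3 := hs none
    rw [hηη] at h3
    exact (hp.mem_or_mem h3).resolve_left hv
  have hηJ : η ∈ shp w ρ I := mem_shp hηI hρ' hη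
  let t : Option N → MvPolynomial (Option N) k := fun i =>
    s i + C ((w i : k) / ρ) * X i * η
  have htJ : ∀ i, t i ∈ shp w ρ I := fun i =>
    Ideal.add_mem _ (hsJ i) (Ideal.mul_mem_left _ _ hηJ)
  refine ⟨t, htJ, ?_, ?_⟩
  · change s none + C ((w none : k) / ρ) * X none * η = 0
    have h1 : ((w none : ℤ) : k) / ρ = -1 := by
      rw [hw0]; push_cast; rw [neg_div, div_self hρk]
    rw [h1, hηη, map_neg, map_one]
    ring
  -- first the generators
  have hgen : ∀ f ∈ I, ∀ e : ℤ, e < ρ → f.IsWeightedHomogeneous w e →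
      f - ∑ i, pderiv i f * t i ∈ shp w ρ I ^ 2 := by
    intro f hf e he hfe
    have h1 := hstar f hf e he hfe
    have h2 : ∑ i, pderiv i f * t i = ∑ i, pderiv i f * s i + C ((e : k) / ρ) * (η * f) := by
      have h3 : ∑ i, pderiv i f * (C ((w i : k) / ρ) * X i * η) =
          C ((ρ : k)⁻¹) * η * ∑ i, C (w i : k) * (X i * pderiv i f) := by
        rw [Finset.mul_sum]
        refine Finset.sum_congr rfl fun i _ => ?_
        rw [div_eq_mul_inv, map_mul]
        ring
      have h4 : ∑ i, pderiv i f * t i = ∑ i, pderiv i f * s i +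
          ∑ i, pderiv i f * (C ((w i : k) / ρ) * X i * η) := by
        rw [← Finset.sum_add_distrib]
        refine Finset.sum_congr rfl fun i _ => ?_
        change pderiv i f * (s i + _) = _
        ring
      rw [h4, h3, euler_int w hfe, div_eq_mul_inv, map_mul]
      ring
    rw [h2, ← sub_sub]
    refine Ideal.sub_mem _ h1 (Ideal.mul_mem_left _ _ ?_)
    rw [pow_two]
    exact Ideal.mul_mem_mul hηJ (mem_shp hf he hfe)
  intro f hf
  unfold shp at hf
  induction hf using Submodule.span_induction with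
  | mem f hf =>
    obtain ⟨hf, e, he, hfe⟩ := hf
    exact hgen f hf e he hfe
  | zero => simp
  | add f g _ _ hf hg =>
    have h1 : f + g - ∑ i, pderiv i (f + g) * t i =
        (f - ∑ i, pderiv i f * t i) + (g - ∑ i, pderiv i g * t i) := by
      simp_rw [map_add, add_mul, Finset.sum_add_distrib]
      ring
    rw [h1]
    exact Ideal.add_mem _ hf hg
  | smul a f hf' hf =>
    have h1 : a • f - ∑ i, pderiv i (a • f) * t i =
        a * (f - ∑ i, pderiv i f * t i) - f * ∑ i, pderiv i a * t i := by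
      simp_rw [smul_eq_mul, Derivation.leibniz, smul_eq_mul, add_mul, Finset.sum_add_distrib,
        mul_sub, Finset.mul_sum]
      have h2 : ∀ i, a * pderiv i f * t i = a * (pderiv i f * t i) := fun i => by ring
      have h3 : ∀ i, f * pderiv i a * t i = f * (pderiv i a * t i) := fun i => by ring
      simp_rw [h2, h3]
      ring
    rw [h1]
    refine Ideal.sub_mem _ (Ideal.mul_mem_left _ _ hf) ?_
    rw [pow_two]
    exact Ideal.mul_mem_mul hf' (Ideal.sum_mem _ fun i _ => Ideal.mul_mem_left _ _ (htJ i))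

end sharp

end Pool.Agent.H920R2
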