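import Pool.Agent.H920R2.Sharp3

set_option autoImplicit false

open MvPolynomial

universe u v

namespace Pool.Agent.H920R2

section split

variable {R P : Type u} [CommRing R] [CommRing P] [Algebra R P] [Algebra.FormallySmooth R P]
  (J : Ideal P) (ψ : P →ₐ[R] P ⧸ J ^ 2) (hψ : ∀ f ∈ J, ψ f = 0)
  (hψ' : ∀ f, ∃ g, g - f ∈ J ∧ ψ f = Ideal.Quotient.mk (J ^ 2) g)

include hψ hψ' in
lemma formallySmooth_of_section : Algebra.FormallySmooth R (P ⧸ J) := by
  let f : P →ₐ[R] P ⧸ J := Ideal.Quotient.mkₐ R J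
  have hker : RingHom.ker f.toRingHom = J := Ideal.mk_ker
  let g : P ⧸ J →ₐ[R] P ⧸ J ^ 2 := Ideal.Quotient.liftₐ J ψ hψ
  let e : (P ⧸ J ^ 2) →ₐ[R] P ⧸ RingHom.ker f.toRingHom ^ 2 :=
    Ideal.Quotient.factorₐ R (by rw [hker])
  refine Algebra.FormallySmooth.of_split f (e.comp g) ?_
  ext x
  obtain ⟨x, rfl⟩ := Ideal.Quotient.mk_surjective x
  obtain ⟨y, hy, hxy⟩ := hψ' x
  change f.kerSquareLift (e (g (Ideal.Quotient.mk J x))) = Ideal.Quotient.mk J x
  have h1 : g (Ideal.Quotient.mk J x) = ψ x := rfl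
  rw [h1, hxy]
  have h2 : e (Ideal.Quotient.mk (J ^ 2) y) = Ideal.Quotient.mk _ y := rfl
  rw [h2]
  change Ideal.Quotient.mk J y = Ideal.Quotient.mk J x
  exact (Ideal.Quotient.mk_eq_mk_iff_sub_mem _ _).2 hy

end split

section psi

variable {k : Type u} [Field k] {S : Type} [Fintype S]
  (J : Ideal (MvPolynomial S k)) (t : S → MvPolynomial S k) (ht : ∀ i, t i ∈ J)

/-- The substitution `X i ↦ X i - t i` modulo the square of `J`. -/
noncomputable def psiJ : MvPolynomial S k →ₐ[k] MvPolynomial S k ⧸ J ^ 2 :=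
  aeval fun i => Ideal.Quotient.mk (J ^ 2) (X i - t i)

include ht in
lemma psiJ_apply (f : MvPolynomial S k) :
    psiJ J t f = Ideal.Quotient.mk (J ^ 2) (f - ∑ i, pderiv i f * t i) := by
  classical
  induction f using MvPolynomial.induction_on with
  | C a =>
    have h1 : (C a : MvPolynomial S k) = algebraMap k _ a := rfl
    have h2 : ∑ i, pderiv i (C a : MvPolynomial S k) * t i = 0 := by simp
    rw [h2, sub_zero, h1, AlgHom.commutes]
    rfl
  | add f g hf hg =>
    rw [map_add, hf, hg, ← map_add]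
    congr 1
    simp_rw [map_add, add_mul, Finset.sum_add_distrib]
    ring
  | mul_X f j hf =>
    have h0 : psiJ J t (X j) = Ideal.Quotient.mk (J ^ 2) (X j - t j) := by
      unfold psiJ; rw [aeval_X]
    rw [map_mul, hf, h0, ← map_mul, Ideal.Quotient.mk_eq_mk_iff_sub_mem]
    have h1 : ∀ i, pderiv i (f * X j) * t i =
        X j * (pderiv i f * t i) + (if j = i then f * t i else 0) := by
      intro i
      rw [Derivation.leibniz, pderiv_X, smul_eq_mul, smul_eq_mul]
      by_cases h : j = i
      · subst h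
        rw [Pi.single_eq_same, if_pos rfl]
        ring
      · rw [Pi.single_eq_of_ne h, if_neg h]
        ring
    simp_rw [h1]
    rw [Finset.sum_add_distrib, ← Finset.mul_sum, Finset.sum_ite_eq, if_pos (Finset.mem_univ j)]
    have h2 : (f - ∑ i, pderiv i f * t i) * (X j - t j) -
        (f * X j - (X j * ∑ i, pderiv i f * t i + f * t j)) =
        (∑ i, pderiv i f * t i) * t j := by ring
    rw [h2, pow_two]
    exact Ideal.mul_mem_mul (Ideal.sum_mem _ fun i _ => Ideal.mul_mem_left _ _ (ht i)) (ht j)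

end psi

section main

variable {k : Type u} [Field k] {N : Type} [Fintype N]

/-- The quotient by an ideal with linearised relations over the ring of polynomials in the
variable `X none` is formally smooth over `k` and `X none` is a nonzerodivisor. -/
theorem formallySmooth_of_rel (J : Ideal (MvPolynomial (Option N) k))
    (t : Option N → MvPolynomial (Option N) k) (ht : ∀ i, t i ∈ J) (ht0 : t none = 0)
    (hrel : ∀ f ∈ J, f - ∑ i, pderiv i f * t i ∈ J ^ 2) :
    Algebra.FormallySmooth k (MvPolynomial (Option N) k ⧸ J) ∧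
      ∀ f, X none * f ∈ J → f ∈ J := by
  classical
  let R := Polynomial k
  let P := MvPolynomial (Option N) k
  let e : P ≃ₐ[k] MvPolynomial N (Polynomial k) := optionEquivRight k N
  let _ : Algebra R P := (e.symm.toRingEquiv.toRingHom.comp (C : Polynomial k →+*
    MvPolynomial N (Polynomial k))).toAlgebra
  have hmap : ∀ r : R, algebraMap R P r = e.symm (C r) := fun r => rfl
  have htow : IsScalarTower k R P := by
    apply IsScalarTower.of_algebraMap_eq
    intro a
    rw [hmap]
    have h1 : (C (algebraMap k R a) : MvPolynomial N (Polynomial k)) =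
      algebraMap k _ a := rfl
    rw [h1, AlgEquiv.commutes]
  let eR : P ≃ₐ[R] MvPolynomial N (Polynomial k) :=
    AlgEquiv.ofRingEquiv (f := e.toRingEquiv) (by
      intro r
      change e (algebraMap R P r) = C r
      rw [hmap, AlgEquiv.apply_symm_apply])
  have hX : algebraMap R P Polynomial.X = X none := by
    rw [hmap, AlgEquiv.symm_apply_eq]
    exact (optionEquivRight_X_none k N).symm
  have hfsP : Algebra.FormallySmooth R P := Algebra.FormallySmooth.of_equiv eR.symm
  have hflP : Module.Flat R P := Module.Flat.of_linearEquiv eR.toLinearEquiv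
  have hcomm : ∀ r : R, psiJ J t (algebraMap R P r) = algebraMap R (P ⧸ J ^ 2) r := by
    intro r
    have h1 : ((psiJ J t).toRingHom.comp (algebraMap R P)) = algebraMap R (P ⧸ J ^ 2) := by
      apply Polynomial.ringHom_ext
      · intro a
        change psiJ J t (algebraMap R P (Polynomial.C a)) = algebraMap R (P ⧸ J ^ 2) _
        have h2 : (Polynomial.C a : R) = algebraMap k R a := rfl
        rw [h2, ← IsScalarTower.algebraMap_apply k R P, AlgHom.commutes,
          ← IsScalarTower.algebraMap_apply k R (P ⧸ J ^ 2)]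
      · change psiJ J t (algebraMap R P Polynomial.X) = algebraMap R (P ⧸ J ^ 2) Polynomial.X
        have h3 : algebraMap R (P ⧸ J ^ 2) Polynomial.X =
            Ideal.Quotient.mk (J ^ 2) (algebraMap R P Polynomial.X) := rfl
        rw [h3, hX]
        unfold psiJ
        rw [aeval_X, ht0, sub_zero]
    exact congrArg (fun g => g r) h1
  let ψ : P →ₐ[R] P ⧸ J ^ 2 :=
    { psiJ J t with
      commutes' := hcomm }
  have hψ : ∀ f, ψ f = Ideal.Quotient.mk (J ^ 2) (f - ∑ i, pderiv i f * t i) :=
    fun f => psiJ_apply J t ht f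
  have hfs : Algebra.FormallySmooth R (P ⧸ J) := by
    refine formallySmooth_of_section J ψ ?_ ?_
    · intro f hf
      rw [hψ]
      exact Ideal.Quotient.eq_zero_iff_mem.2 (hrel f hf)
    · intro f
      refine ⟨_, ?_, hψ f⟩
      have h1 : f - ∑ i, pderiv i f * t i - f = -∑ i, pderiv i f * t i := by ring
      rw [h1]
      exact neg_mem (Ideal.sum_mem _ fun i _ => Ideal.mul_mem_left _ _ (ht i))
  have hfl : Module.Flat R (P ⧸ J) :=
    Algebra.FormallySmooth.flat_of_algHom_of_isNoetherianRing (Ideal.Quotient.mkₐ R J)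
      (Ideal.Quotient.mkₐ_surjective R J)
  have hk : Algebra.FormallySmooth k (P ⧸ J) := Algebra.FormallySmooth.comp k R (P ⧸ J)
  refine ⟨hk, ?_⟩
  intro f hf
  have htf : Module.IsTorsionFree R (P ⧸ J) := inferInstance
  have h1 : (Polynomial.X : R) • (Ideal.Quotient.mk J f : P ⧸ J) = 0 := by
    refine (Algebra.smul_def (R := R) (A := P ⧸ J) _ _).trans ?_
    have h3 : algebraMap R (P ⧸ J) Polynomial.X =
        Ideal.Quotient.mk J (algebraMap R P Polynomial.X) := rfl
    rw [h3, hX, ← map_mul]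
    exact Ideal.Quotient.eq_zero_iff_mem.2 hf
  have h2 : (Ideal.Quotient.mk J f : P ⧸ J) = 0 :=
    (smul_eq_zero.1 h1).resolve_left Polynomial.X_ne_zero
  exact Ideal.Quotient.eq_zero_iff_mem.1 h2

variable {w : Option N → ℤ} {ρ : ℕ}
  (hρ : 0 < ρ) (hw0 : w none = -ρ) (hw : ∀ i, 0 ≤ w (some i)) (hw' : ∀ i, w (some i) < ρ)
  {I : Ideal (MvPolynomial (Option N) k)}
  (hI : ∀ f ∈ I, ∀ e, weightedHomogeneousComponent w e f ∈ I) (hp : I.IsPrime)
  (hv : X none ∉ I)

include hρ hw0 hw hw' hI hp hv in
/-- Smoothness of the quotient, from the smoothness of its localisation at the variable of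
negative weight. -/
theorem smooth_sharp (hρk : (ρ : k) ≠ 0) {A : Type u} [CommRing A] [Algebra k A]
    [Algebra.FormallySmooth k A] (φ : MvPolynomial (Option N) k →ₐ[k] A)
    (hφ : ∀ f, φ f = 0 ↔ f ∈ I) (hu : IsUnit (φ (X none)))
    (hsurj : ∀ c : A, ∃ (n : ℕ) (f : MvPolynomial (Option N) k), φ (X none) ^ n * c = φ f) :
    Algebra.Smooth k (MvPolynomial (Option N) k ⧸ I) := by
  classical
  obtain ⟨n, r, hr, hstar⟩ := star I φ hφ (X none) hu hsurj
  obtain ⟨s, hs1, hs2, hs3⟩ := graded_star hρ hw0 hw hw' hI hp hv n r hr hstar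
  obtain ⟨t, ht1, ht2, ht3⟩ := relative_star hρ hw0 hw hw' hp hv hρk s hs1 hs2 hs3
  obtain ⟨h1, h2⟩ := formallySmooth_of_rel (shp w ρ I) t ht1 ht2 ht3
  have h2' : ∀ (n : ℕ) f, X none ^ n * f ∈ shp w ρ I → f ∈ shp w ρ I := by
    intro n
    induction n with
    | zero => intro f hf; simpa using hf
    | succ n ih =>
      intro f hf
      apply ih
      apply h2
      rw [← mul_assoc, ← pow_succ']
      exact hf
  have hJI : shp w ρ I = I := by
    apply le_antisymm shp_le
    intro f hf
    obtain ⟨s, hs⟩ := exists_sum_wc w f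
    rw [hs]
    refine Ideal.sum_mem _ fun e _ => ?_
    obtain ⟨p, m, g', hg', e1, -⟩ := norm_wt hρ hw0 hw hp hv (hI f hf e)
      (weightedHomogeneousComponent_isWeightedHomogeneous e f)
    apply h2' p
    rw [e1]
    exact Ideal.mul_mem_left _ _ hg'
  rw [hJI] at h1
  have hfp : Algebra.FinitePresentation k (MvPolynomial (Option N) k ⧸ I) :=
    Algebra.FinitePresentation.of_finiteType.1 inferInstance
  exact ⟨h1, hfp⟩

end main

end Pool.Agent.H920R2
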