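import Pool.Agent.H920R2.Gr5

set_option autoImplicit false

universe u v

namespace Pool.Agent.H920R2

section diff

variable {R : Type u} [CommRing R] (s : R) (D : R → R) (hadd : ∀ f g, D (f + g) = D f + D g)
  (hmul : ∀ f g, D (f * g) = D f * g + f * D g + s * D f * D g) (I : Ideal R)
  (hI : ∀ f ∈ I, D f ∈ I) (q y : R) (hq : D q = y) (hy : D y ∈ I) (hs : D s = 0)

include hadd in
lemma D_zero' : D 0 = 0 := by
  have := hadd 0 0
  rw [add_zero] at this
  exact left_eq_add.1 this

include hadd in
lemma D_neg' (f : R) : D (-f) = -D f := by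
  have h := hadd f (-f)
  rw [add_neg_cancel, D_zero' D hadd] at h
  exact (neg_eq_of_add_eq_zero_right h.symm).symm

include hadd in
lemma D_sub' (f g : R) : D (f - g) = D f - D g := by
  rw [sub_eq_add_neg, hadd, D_neg' D hadd, sub_eq_add_neg]

include hadd in
lemma D_natMul (n : ℕ) (f : R) : D (n * f) = n * D f := by
  induction n with
  | zero => simp [D_zero' D hadd]
  | succ n ih => push_cast; rw [add_mul, one_mul, hadd, ih]; ring

include hadd hI in
lemma D_congr {f g : R} (h : f - g ∈ I) : D f - D g ∈ I := by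
  rw [← D_sub' D hadd]; exact hI _ h

include hadd hI in
lemma D_iter_congr {f g : R} (h : f - g ∈ I) (n : ℕ) : D^[n] f - D^[n] g ∈ I := by
  induction n with
  | zero => exact h
  | succ n ih =>
    rw [Function.iterate_succ_apply', Function.iterate_succ_apply']
    exact D_congr D hadd I hI ih

include hadd hmul hI hq hy hs in
lemma D_iter_mul (g : R) (j : ℕ) :
    D^[j + 1] (q * g) - ((q + (j + 1) * s * y) * D^[j + 1] g + (j + 1) * y * D^[j] g) ∈ I := by
  have hDy : ∀ n : ℕ, D (n * s * y) ∈ I := by
    intro n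
    have h1 : D (n * s * y) = n * (s * D y) := by
      rw [mul_assoc, D_natMul D hadd, hmul, hs]
      ring
    rw [h1]
    exact I.mul_mem_left _ (I.mul_mem_left _ hy)
  induction j with
  | zero =>
    have e1 : D^[0 + 1] (q * g) = D (q * g) := rfl
    have e2 : D^[0 + 1] g = D g := rfl
    have e3 : D^[0] g = g := rfl
    rw [e1, e2, e3, hmul, hq]
    have h1 : y * g + q * D g + s * y * D g - ((q + ((0 : ℕ) + 1) * s * y) * D g +
        ((0 : ℕ) + 1) * y * g) = 0 := by push_cast; ring
    rw [h1]
    exact I.zero_mem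
  | succ j ih =>
    have h1 := D_congr D hadd I hI ih
    rw [← Function.iterate_succ_apply' D] at h1
    set G := D^[j + 1] g with hG
    set G' := D^[j] g with hG'
    have e2 : D^[j + 1 + 1] g = D G := Function.iterate_succ_apply' D _ _
    have e3 : D G' = G := (Function.iterate_succ_apply' D _ _).symm
    rw [e2]
    have h2 : D ((q + (j + 1) * s * y) * G + (j + 1) * y * G') -
        ((q + ((j + 1 : ℕ) + 1) * s * y) * D G + ((j + 1 : ℕ) + 1) * y * G) ∈ I := by
      have h3 := hDy (j + 1)
      push_cast at h3 ⊢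
      rw [hadd, hmul, hadd, hq]
      have h4 : D (((j : R) + 1) * y * G') = ((j : R) + 1) * (D y * G' + y * G + s * D y * G) := by
        have h5 := D_natMul D hadd (j + 1) (y * G')
        push_cast at h5
        rw [mul_assoc, h5, hmul, e3]
      rw [h4]
      set W := D (((j : R) + 1) * s * y)
      have h6 : (y + W) * G + (q + ((j : R) + 1) * s * y) * D G + s * (y + W) * D G +
          ((j : R) + 1) * (D y * G' + y * G + s * D y * G) -
          ((q + ((j : R) + 1 + 1) * s * y) * D G + ((j : R) + 1 + 1) * y * G) =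
          W * (G + s * D G) + D y * (((j : R) + 1) * (G' + s * G)) := by ring
      rw [h6]
      exact I.add_mem (I.mul_mem_right _ h3) (I.mul_mem_right _ hy)
    have h7 := I.add_mem h1 h2
    have h8 : D^[j + 1 + 1] (q * g) - D ((q + (j + 1) * s * y) * G + (j + 1) * y * G') +
        (D ((q + (j + 1) * s * y) * G + (j + 1) * y * G') -
        ((q + ((j + 1 : ℕ) + 1) * s * y) * D G + ((j + 1 : ℕ) + 1) * y * G)) =
        D^[j + 1 + 1] (q * g) - ((q + ((j + 1 : ℕ) + 1) * s * y) * D G +
          ((j + 1 : ℕ) + 1) * y * G) := by ring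
    rw [h8] at h7
    exact h7

include hadd hmul hy in
lemma D_pow_mem (hone : D 1 = 0) (n : ℕ) : D (y ^ n) ∈ I := by
  induction n with
  | zero => rw [pow_zero, hone]; exact I.zero_mem
  | succ n ih =>
    rw [pow_succ, hmul]
    have h1 : D (y ^ n) * y + y ^ n * D y + s * D (y ^ n) * D y =
        D (y ^ n) * (y + s * D y) + y ^ n * D y := by ring
    rw [h1]
    exact I.add_mem (I.mul_mem_right _ ih) (I.mul_mem_left _ hy)

include hadd hmul hI hq hy hs in
lemma D_iter_pow (hone : D 1 = 0) (n : ℕ) :
    D^[n] (q ^ n) - (n.factorial : R) * y ^ n ∈ I := by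
  induction n with
  | zero => simp
  | succ n ih =>
    have h1 := D_iter_mul s D hadd hmul I hI q y hq hy hs (q ^ n) n
    have h2 : D^[n + 1] (q ^ n) ∈ I := by
      rw [Function.iterate_succ_apply']
      have h3 := D_congr D hadd I hI ih
      rw [D_natMul D hadd] at h3
      have h4 := I.mul_mem_left (n.factorial : R) (D_pow_mem s D hadd hmul I y hy hone n)
      have h5 := I.add_mem h3 h4
      rwa [sub_add_cancel] at h5
    have h6 : q ^ (n + 1) = q * q ^ n := by ring
    rw [h6]
    have h7 : D^[n + 1] (q * q ^ n) - ((n + 1).factorial : R) * y ^ (n + 1) =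
        (D^[n + 1] (q * q ^ n) - ((q + (n + 1) * s * y) * D^[n + 1] (q ^ n) +
          (n + 1) * y * D^[n] (q ^ n))) + (q + (n + 1) * s * y) * D^[n + 1] (q ^ n) +
          (n + 1) * y * (D^[n] (q ^ n) - (n.factorial : R) * y ^ n) := by
      rw [Nat.factorial_succ]
      push_cast
      ring
    rw [h7]
    exact I.add_mem (I.add_mem h1 (I.mul_mem_left _ h2)) (I.mul_mem_left _ ih)

end diff

section tau

variable {R : Type u} [CommRing R] (τ : R →+* R) (I : Ideal R) (hI : ∀ f ∈ I, τ f ∈ I) (s q y : R)
  (hs : τ s = s) (hq : τ q - q = s * y) (hy : τ y - y ∈ I)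

include hI in
lemma iter_mem {f : R} (hf : f ∈ I) (n : ℕ) : τ^[n] f ∈ I := by
  induction n with
  | zero => exact hf
  | succ n ih => rw [Function.iterate_succ_apply']; exact hI _ ih

include hI hy in
lemma iter_y (l : ℕ) : τ^[l] y - y ∈ I := by
  induction l with
  | zero => simp
  | succ l ih =>
    rw [Function.iterate_succ_apply']
    have h1 := I.add_mem (hI _ ih) hy
    rw [map_sub] at h1
    have h2 : τ (τ^[l] y) - τ y + (τ y - y) = τ (τ^[l] y) - y := by ring
    rwa [h2] at h1

/-- The divided differences of the iterates. -/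
def thet (m : ℕ) : R := ∑ l ∈ Finset.range m, τ^[l] y

include hs hq in
lemma thet_spec (m : ℕ) : τ^[m] q - q = s * thet τ y m := by
  unfold thet
  induction m with
  | zero => simp
  | succ m ih =>
    rw [Finset.sum_range_succ, mul_add, ← ih]
    have h1 : τ^[m + 1] q = τ^[m] (q + s * y) := by
      rw [Function.iterate_succ_apply]
      congr 1
      linear_combination hq
    have h2 : τ^[m] (q + s * y) = τ^[m] q + τ^[m] s * τ^[m] y := by
      rw [iterate_map_add, iterate_map_mul]
    have h3 : τ^[m] s = s := Function.iterate_fixed hs m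
    rw [h1, h2, h3]
    ring

include hI hy in
lemma thet_congr (m : ℕ) : thet τ y m - m * y ∈ I := by
  unfold thet
  have h1 : (∑ l ∈ Finset.range m, τ^[l] y) - m * y = ∑ l ∈ Finset.range m, (τ^[l] y - y) := by
    rw [Finset.sum_sub_distrib, Finset.sum_const, Finset.card_range, nsmul_eq_mul]
  rw [h1]
  exact I.sum_mem fun l _ => iter_y τ I hI y hy l

include hI hy in
lemma iter_thet (m l : ℕ) : τ^[l] (thet τ y m) - m * y ∈ I := by
  have h1 := iter_mem τ I hI (thet_congr τ I hI y hy m) l
  rw [iterate_map_sub, iterate_map_mul] at h1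
  have h2 : τ^[l] (m : R) = m := Function.iterate_fixed (map_natCast τ m) l
  rw [h2] at h1
  have h3 := I.add_mem h1 (I.mul_mem_left (m : R) (iter_y τ I hI y hy l))
  have h4 : τ^[l] (thet τ y m) - m * τ^[l] y + m * (τ^[l] y - y) =
      τ^[l] (thet τ y m) - m * y := by ring
  rwa [h4] at h3

include hI hy in
lemma prod_thet (m n : ℕ) : (∏ l ∈ Finset.range n, τ^[l] (thet τ y m)) - (m * y) ^ n ∈ I := by
  have h1 : Ideal.Quotient.mk I (∏ l ∈ Finset.range n, τ^[l] (thet τ y m)) =
      Ideal.Quotient.mk I ((m * y) ^ n) := by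
    rw [map_prod, map_pow]
    rw [Finset.prod_congr rfl fun l _ =>
      (Ideal.Quotient.mk_eq_mk_iff_sub_mem _ _).2 (iter_thet τ I hI y hy m l)]
    rw [Finset.prod_const, Finset.card_range]
  exact (Ideal.Quotient.mk_eq_mk_iff_sub_mem _ _).1 h1

end tau

end Pool.Agent.H920R2
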