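import Pool.Agent.H920R2.Sig2

set_option autoImplicit false

universe u v

namespace Pool.Agent.H920R2

section fixed

variable {k L : Type u} [Field k] [Field L] [Algebra k L] (τ : L ≃ₐ[k] L)

/-- Smoothness of the ring of invariants, for subalgebras of the Laurent polynomials. -/
theorem smooth_fixed_LP (n : ℕ) (hn : 0 < n) (hτ : ∀ x, τ^[n] x = x) (R : Subalgebra k (LP L))
    (hstab : ∀ x ∈ R, tl τ x ∈ R) (b : LP L) (hb : b ∈ R)
    (h1 : ∀ c ∈ R, ∃ c' ∈ R, tl τ c - c = c' * (tl τ b - b))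
    (h2 : ∀ j, 0 < j → j < n → (tl τ)^[j] b ≠ b ∧ ∃ c' ∈ R, tl τ b - b = c' * ((tl τ)^[j] b - b))
    (hR : Algebra.Smooth k R) : Algebra.Smooth k ↥(R ⊓ fixedAlg (tl τ)) := by
  let F := FractionRing (LP L)
  let ι : LP L →ₐ[k] F := IsScalarTower.toAlgHom k (LP L) F
  have hι : Function.Injective ι := IsFractionRing.injective (LP L) F
  let τF : F ≃ₐ[k] F := IsFractionRing.fieldEquivOfAlgEquiv k F F (tl τ)
  have hτF : ∀ x, τF (ι x) = ι (tl τ x) := fun x =>
    IsFractionRing.fieldEquivOfAlgEquiv_algebraMap k F F (tl τ) x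
  have hτFn : ∀ (m : ℕ) x, τF^[m] (ι x) = ι ((tl τ)^[m] x) := by
    intro m
    induction m with
    | zero => intro x; rfl
    | succ m ih => intro x; rw [Function.iterate_succ_apply, hτF, ih, Function.iterate_succ_apply]
  have hτFid : ∀ x, τF^[n] x = x := by
    intro x
    obtain ⟨a, c, -, rfl⟩ := IsFractionRing.div_surjective (A := LP L) x
    have h3 : ∀ (m : ℕ) (y z : F), τF^[m] (y / z) = τF^[m] y / τF^[m] z := by
      intro m
      induction m with
      | zero => intro y z; rfl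
      | succ m ih => intro y z; rw [Function.iterate_succ_apply, map_div₀, ih,
          Function.iterate_succ_apply, Function.iterate_succ_apply]
    have h4 : ∀ y : LP L, τF^[n] (algebraMap (LP L) F y) = algebraMap (LP L) F y := by
      intro y
      have h5 := hτFn n y
      rw [tl_iter_id τ n hτ] at h5
      exact h5
    rw [h3, h4, h4]
  let R' : Subalgebra k F := R.map ι
  have hR' : Algebra.Smooth k R' :=
    Algebra.Smooth.of_equiv (R.equivMapOfInjective ι hι)
  have hne : ∀ j, 0 < j → j < n → ι ((tl τ)^[j] b) - ι b ≠ 0 := by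
    intro j hj hjn h
    exact (h2 j hj hjn).1 (hι (sub_eq_zero.1 h))
  have key : Algebra.Smooth k ↥(R' ⊓ fixedAlg τF) := by
    by_cases hn1 : n = 1
    · have h3 : R' ⊓ fixedAlg τF = R' := by
        apply inf_eq_left.2
        intro x _
        rw [mem_fixedAlg]
        have := hτFid x
        rw [hn1] at this
        exact this
      rw [h3]; exact hR'
    refine smooth_fixed τF n hn hτFid R' ?_ (ι b) ⟨b, hb, rfl⟩ ?_ ?_ hR'
    · rintro _ ⟨x, hx, rfl⟩
      exact ⟨tl τ x, hstab x hx, (hτF x).symm⟩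
    · rintro _ ⟨c, hc, rfl⟩
      obtain ⟨c', hc', h3⟩ := h1 c hc
      refine ⟨c', hc', ?_⟩
      have h4 : ι (tl τ b) - ι b ≠ 0 := hne 1 one_pos (by omega)
      change ι c' = (τF (ι c) - ι c) / (τF (ι b) - ι b)
      rw [hτF, hτF, eq_div_iff h4, ← map_sub, ← map_sub, ← map_mul, h3]
    · intro j hj hjn
      obtain ⟨h3, c', hc', h4⟩ := h2 j hj hjn
      constructor
      · rw [hτFn]
        exact fun h => h3 (hι h)
      · refine ⟨c', hc', ?_⟩
        have h5 := hne j hj hjn
        change ι c' = (τF (ι b) - ι b) / (τF^[j] (ι b) - ι b)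
        rw [hτF, hτFn, eq_div_iff h5, ← map_sub, ← map_sub, ← map_mul, h4]
  have hmap : (R ⊓ fixedAlg (tl τ)).map ι = R' ⊓ fixedAlg τF := by
    apply le_antisymm
    · rintro _ ⟨x, ⟨hx, hx'⟩, rfl⟩
      refine ⟨⟨x, hx, rfl⟩, ?_⟩
      change _ ∈ fixedAlg τF
      rw [mem_fixedAlg]
      change τF (ι x) = ι x
      rw [hτF, mem_fixedAlg.1 hx']
    · rintro _ ⟨⟨x, hx, rfl⟩, hx'⟩
      refine ⟨x, ⟨hx, ?_⟩, rfl⟩
      change x ∈ fixedAlg (tl τ)
      rw [mem_fixedAlg]
      apply hι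
      rw [← hτF]
      exact mem_fixedAlg.1 hx'
  have e := ((R ⊓ fixedAlg (tl τ)).equivMapOfInjective ι hι).symm
  rw [hmap] at e
  exact Algebra.Smooth.of_equiv e

end fixed

end Pool.Agent.H920R2
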