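import Pool.Agent.H920R2.Sig3

set_option autoImplicit false

universe u v

namespace Pool.Agent.H920R2

section chart

variable {k B L : Type u} [Field k] [CommRing B] [Algebra k B] [Field L] [Algebra k L]
  (gB : B →ₐ[k] L) (σ : B ≃ₐ[k] B) (τ : L ≃ₐ[k] L) (hτ : ∀ b, τ (gB b) = gB (σ b)) (p : ℕ)
  (f : B) (a : ℕ)

/-- The iterated difference of order `a`. -/
def eta : B := (del σ)^[a] f
/-- The iterated difference of order `a - 1`. -/
def ccc : B := (del σ)^[a - 1] f
/-- Sums of conjugates of the iterated difference. -/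
def thB (m : ℕ) : B := ∑ l ∈ Finset.range m, σ^[l] (eta σ f a)
/-- The iterated difference of a power. -/
def zeB : B := (del σ)^[p - 1] (ccc σ f a ^ (p - 1))
/-- The product which is inverted on a chart. -/
noncomputable def hB : B := zeB σ p f a *
  ∏ m ∈ Finset.Ico 1 p, ∏ l ∈ Finset.range p, σ^[l] (thB σ f a m)

/-- Homogeneous elements attached to the above. -/
noncomputable def yL : LP L := hm a (gB (eta σ f a))
/-- Homogeneous elements attached to the above. -/
noncomputable def qL : LP L := hm ((a - 1 : ℕ) : ℤ) (gB (ccc σ f a))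
/-- Homogeneous elements attached to the above. -/
noncomputable def thL (m : ℕ) : LP L := hm a (gB (thB σ f a m))
/-- Homogeneous elements attached to the above. -/
noncomputable def zL : LP L := hm (((p - 1) * a : ℕ) : ℤ) (gB (zeB σ p f a))
/-- Homogeneous elements attached to the above. -/
noncomputable def hL : LP L := hm ((((p - 1) + (p - 1) * p) * a : ℕ) : ℤ) (gB (hB σ p f a))

include hτ in
lemma tau_iter (n : ℕ) (b : B) : τ^[n] (gB b) = gB (σ^[n] b) := by
  induction n generalizing b with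
  | zero => rfl
  | succ n ih => rw [Function.iterate_succ_apply, hτ, ih, Function.iterate_succ_apply]

include hτ in
lemma Dl_iter_hm (n : ℕ) (d : ℤ) (b : B) : (Dl τ)^[n] (hm d (gB b)) =
    hm (d + n) (gB ((del σ)^[n] b)) := by
  induction n generalizing d b with
  | zero => simp
  | succ n ih =>
    rw [Function.iterate_succ_apply, Dl_hm, hτ, ← map_sub, Function.iterate_succ_apply]
    have h1 := ih (d + 1) (del σ b)
    have h2 : d + 1 + (n : ℤ) = d + ((n + 1 : ℕ) : ℤ) := by push_cast; ring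
    rw [h2] at h1
    exact h1

include hτ in
lemma thL_eq (m : ℕ) : thL gB σ f a m = thet (tl τ : LP L →+* LP L) (yL gB σ f a) m := by
  unfold thet thL thB
  induction m with
  | zero => simp [hm_zero]
  | succ m ih =>
    rw [Finset.sum_range_succ, Finset.sum_range_succ, map_add, hm_add, ih]
    congr 1
    unfold yL
    have h1 := tl_iter_hm τ m (a : ℤ) (gB (eta σ f a))
    rw [tau_iter gB σ τ hτ] at h1
    exact h1.symm

include hτ in
lemma zL_eq (ha : 1 ≤ a) : zL gB σ p f a = (Dl τ)^[p - 1] (qL gB σ f a ^ (p - 1)) := by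
  unfold zL qL zeB
  rw [hm_pow, ← map_pow, Dl_iter_hm gB σ τ hτ]
  congr 1
  obtain ⟨b, rfl⟩ := Nat.exists_eq_add_of_le ha
  rw [Nat.add_sub_cancel_left]
  push_cast
  ring

include hτ in
lemma hL_eq : hL gB σ p f a = zL gB σ p f a * ∏ m ∈ Finset.Ico 1 p,
    ∏ l ∈ Finset.range p, (tl τ)^[l] (thL gB σ f a m) := by
  unfold zL thL hL hB
  simp_rw [tl_iter_hm, tau_iter gB σ τ hτ]
  simp_rw [hm_prod]
  rw [hm_mul, map_mul, map_prod]
  simp_rw [map_prod]
  congr 1
  rw [Finset.sum_const, Finset.sum_const, Nat.card_Ico, Finset.card_range, nsmul_eq_mul,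
    nsmul_eq_mul]
  push_cast
  ring

lemma yL_mem (hap : a < p) : yL gB σ f a ∈ sR gB σ p := sR_del gB σ p hap f

lemma qL_mem (hap : a < p) : qL gB σ f a ∈ sR gB σ p := sR_del gB σ p (by omega) f

include hτ in
lemma thL_mem (hδ : ∀ b, (del σ)^[p] b = 0) (hap : a < p) (m : ℕ) :
    thL gB σ f a m ∈ sR gB σ p := by
  rw [thL_eq gB σ τ hτ]
  unfold thet
  have h1 : ∀ l, (tl τ : LP L →+* LP L)^[l] (yL gB σ f a) ∈ sR gB σ p := by
    intro l
    induction l with
    | zero => exact yL_mem gB σ p f a hap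
    | succ l ih =>
      rw [Function.iterate_succ_apply']
      exact (sR_stable gB σ τ hτ p hδ ih).1
  exact Subalgebra.sum_mem _ fun l _ => h1 l

include hτ in
lemma zL_mem (hδ : ∀ b, (del σ)^[p] b = 0) (ha : 1 ≤ a) (hap : a < p) :
    zL gB σ p f a ∈ sR gB σ p := by
  rw [zL_eq gB σ τ hτ p f a ha]
  have h1 : ∀ n, (Dl τ)^[n] (qL gB σ f a ^ (p - 1)) ∈ sR gB σ p := by
    intro n
    induction n with
    | zero => exact Subalgebra.pow_mem _ (qL_mem gB σ p f a hap) _
    | succ n ih =>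
      rw [Function.iterate_succ_apply']
      exact (sR_stable gB σ τ hτ p hδ ih).2
  exact h1 _

include hτ in
lemma tl_iter_mem (hδ : ∀ b, (del σ)^[p] b = 0) {x : LP L} (hx : x ∈ sR gB σ p) (l : ℕ) :
    (tl τ)^[l] x ∈ sR gB σ p := by
  induction l with
  | zero => exact hx
  | succ l ih =>
    rw [Function.iterate_succ_apply']
    exact (sR_stable gB σ τ hτ p hδ ih).1

include hτ in
lemma hL_mem (hδ : ∀ b, (del σ)^[p] b = 0) (ha : 1 ≤ a) (hap : a < p) :
    hL gB σ p f a ∈ sR gB σ p := by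
  rw [hL_eq gB σ τ hτ]
  refine Subalgebra.mul_mem _ (zL_mem gB σ τ hτ p f a hδ ha hap) ?_
  refine Subalgebra.prod_mem _ fun m _ => Subalgebra.prod_mem _ fun l _ => ?_
  exact tl_iter_mem gB σ τ hτ p hδ (thL_mem gB σ τ hτ p f a hδ hap m) l

lemma zeB_fixed (hp : 1 ≤ p) (hδ : ∀ b, (del σ)^[p] b = 0) : σ (zeB σ p f a) = zeB σ p f a := by
  have h1 := hδ (ccc σ f a ^ (p - 1))
  obtain ⟨n, rfl⟩ := Nat.exists_eq_add_of_le hp
  rw [add_comm, Function.iterate_succ_apply'] at h1
  have h2 : 1 + n - 1 = n := by omega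
  unfold zeB
  rw [h2]
  rw [Nat.add_sub_cancel] at h1
  unfold del at h1
  exact sub_eq_zero.1 h1

lemma hB_fixed [IsDomain B] (hp : 1 ≤ p) (hδ : ∀ b, (del σ)^[p] b = 0)
    (hσ : ∀ b, σ^[p] b = b) : σ (hB σ p f a) = hB σ p f a := by
  unfold hB
  rw [map_mul, zeB_fixed σ p f a hp hδ, map_prod]
  congr 1
  refine Finset.prod_congr rfl fun m _ => ?_
  exact map_nrm σ p hσ (thB σ f a m)

include hτ in
lemma tl_qL (ha : 1 ≤ a) : tl τ (qL gB σ f a) - qL gB σ f a = hm (-1) 1 * yL gB σ f a := by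
  unfold qL yL ccc eta
  obtain ⟨b, rfl⟩ := Nat.exists_eq_add_of_le ha
  rw [Nat.add_sub_cancel_left, tl_hm, hτ, ← hm_sub, ← map_sub, hm_mul, one_mul, add_comm 1 b,
    Function.iterate_succ_apply']
  congr 1
  push_cast
  ring

include hτ in
lemma tl_iter_qL (ha : 1 ≤ a) (m : ℕ) :
    (tl τ)^[m] (qL gB σ f a) - qL gB σ f a = hm (-1) 1 * thL gB σ f a m := by
  rw [thL_eq gB σ τ hτ]
  exact thet_spec (tl τ : LP L →+* LP L) (hm (-1) 1) (qL gB σ f a) (yL gB σ f a)
    (by change tl τ (hm (-1) 1) = _; rw [tl_hm, map_one]) (tl_qL gB σ τ hτ f a ha) m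

end chart

section congr

variable {k B L : Type u} [Field k] [CommRing B] [Algebra k B] [Field L] [Algebra k L]
  (gB : B →ₐ[k] L) (σ : B ≃ₐ[k] B) (τ : L ≃ₐ[k] L) (hτ : ∀ b, τ (gB b) = gB (σ b)) (p : ℕ)
  (hδ : ∀ b, (del σ)^[p] b = 0) (s : Set B)

/-- The ideal of the elements of large weight. -/
noncomputable def nI (a : ℕ) : Ideal (sR gB σ p) :=
  Ideal.span {x | ∃ (c : ℕ) (b : B), b ∈ s ∧ a < c ∧ c < p ∧ (x : LP L) = hm c (gB ((del σ)^[c] b))}

/-- The automorphism of the Rees algebra. -/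
noncomputable def tR (hδ : ∀ b, (del σ)^[p] b = 0) (hτ : ∀ b, τ (gB b) = gB (σ b)) :
    sR gB σ p →+* sR gB σ p where
  toFun x := ⟨tl τ x, (sR_stable gB σ τ hτ p hδ x.2).1⟩
  map_one' := Subtype.ext (map_one (tl τ))
  map_mul' x y := Subtype.ext (map_mul (tl τ) x.1 y.1)
  map_zero' := Subtype.ext (map_zero (tl τ))
  map_add' x y := Subtype.ext (map_add (tl τ) x.1 y.1)

/-- The difference operator of the Rees algebra. -/
noncomputable def dR (hδ : ∀ b, (del σ)^[p] b = 0) (hτ : ∀ b, τ (gB b) = gB (σ b))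
    (x : sR gB σ p) : sR gB σ p := ⟨Dl τ x, (sR_stable gB σ τ hτ p hδ x.2).2⟩

lemma tR_iter (n : ℕ) (x : sR gB σ p) :
    (((tR gB σ τ p hδ hτ)^[n] x : sR gB σ p) : LP L) = (tl τ)^[n] x := by
  induction n with
  | zero => rfl
  | succ n ih => rw [Function.iterate_succ_apply', Function.iterate_succ_apply', ← ih]; rfl

lemma dR_iter (n : ℕ) (x : sR gB σ p) :
    (((dR gB σ τ p hδ hτ)^[n] x : sR gB σ p) : LP L) = (Dl τ)^[n] x := by
  induction n with
  | zero => rfl
  | succ n ih => rw [Function.iterate_succ_apply', Function.iterate_succ_apply', ← ih]; rfl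

lemma dR_add (x y : sR gB σ p) : dR gB σ τ p hδ hτ (x + y) =
    dR gB σ τ p hδ hτ x + dR gB σ τ p hδ hτ y := Subtype.ext (Dl_add τ x.1 y.1)

lemma dR_mul (x y : sR gB σ p) : dR gB σ τ p hδ hτ (x * y) =
    dR gB σ τ p hδ hτ x * y + x * dR gB σ τ p hδ hτ y +
      ⟨hm (-1) 1, sR_T gB σ p⟩ * dR gB σ τ p hδ hτ x * dR gB σ τ p hδ hτ y :=
  Subtype.ext (Dl_mul τ x.1 y.1)

lemma tR_eq (x : sR gB σ p) : tR gB σ τ p hδ hτ x =
    x + ⟨hm (-1) 1, sR_T gB σ p⟩ * dR gB σ τ p hδ hτ x := Subtype.ext (tl_eq_Dl τ x.1)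

lemma mem_nI {a c : ℕ} (hac : a < c) (hcp : c < p) {b : B} (hb : b ∈ s) :
    (⟨hm c (gB ((del σ)^[c] b)), sR_del gB σ p hcp b⟩ : sR gB σ p) ∈ nI gB σ p s a :=
  Ideal.subset_span ⟨c, b, hb, hac, hcp, rfl⟩

lemma dR_nI (a : ℕ) {x : sR gB σ p} (hx : x ∈ nI gB σ p s a) :
    dR gB σ τ p hδ hτ x ∈ nI gB σ p s a := by
  have key : ∀ x ∈ nI gB σ p s a, dR gB σ τ p hδ hτ x ∈ nI gB σ p s a := by
    intro x hx
    have hx' := hx
    unfold nI at hx
    induction hx using Submodule.span_induction with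
    | mem x hx =>
      obtain ⟨c, b, hb, hac, hcp, hxb⟩ := hx
      by_cases h : c + 1 < p
      · have h1 : dR gB σ τ p hδ hτ x = ⟨hm ((c + 1 : ℕ) : ℤ) (gB ((del σ)^[c + 1] b)),
            sR_del gB σ p h b⟩ := by
          apply Subtype.ext
          change Dl τ x = _
          rw [hxb, tl_del gB σ τ hτ]
        rw [h1]
        exact mem_nI gB σ p s (by omega) h hb
      · have h1 : dR gB σ τ p hδ hτ x = 0 := by
          apply Subtype.ext
          change Dl τ x = 0
          have h2 : c + 1 = p := by omega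
          rw [hxb, tl_del gB σ τ hτ, h2, hδ, map_zero, hm_zero]
        rw [h1]
        exact Ideal.zero_mem _
    | zero =>
      have h1 : dR gB σ τ p hδ hτ 0 = 0 := D_zero' _ (dR_add gB σ τ hτ p hδ)
      rw [h1]; exact Ideal.zero_mem _
    | add x y hx1 hy1 hx hy =>
      rw [dR_add]
      exact Ideal.add_mem _ (hx hx1) (hy hy1)
    | smul r x hx1 hx =>
      rw [smul_eq_mul, dR_mul]
      have h1 := hx hx1
      refine Ideal.add_mem _ (Ideal.add_mem _ (Ideal.mul_mem_left _ _ hx1)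
        (Ideal.mul_mem_left _ _ h1)) (Ideal.mul_mem_left _ _ h1)
  exact key x hx

/-- The main congruence: the element which is inverted on a chart is, up to elements of large
weight, a unit times a power of the leading element. -/
lemma hL_congr (f : B) (hf : f ∈ s) (a : ℕ) (ha : 1 ≤ a) (hap : a < p) :
    (⟨hL gB σ p f a, hL_mem gB σ τ hτ p f a hδ ha hap⟩ : sR gB σ p) -
      (((p - 1).factorial * ∏ m ∈ Finset.Ico 1 p, m ^ p : ℕ) : sR gB σ p) *
        ⟨yL gB σ f a, yL_mem gB σ p f a hap⟩ ^ ((p - 1) + (p - 1) * p) ∈ nI gB σ p s a := by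
  classical
  set I := nI gB σ p s a with hI
  set D := dR gB σ τ p hδ hτ with hD
  set t := tR gB σ τ p hδ hτ with ht
  let y : sR gB σ p := ⟨yL gB σ f a, yL_mem gB σ p f a hap⟩
  let q : sR gB σ p := ⟨qL gB σ f a, qL_mem gB σ p f a hap⟩
  let ss : sR gB σ p := ⟨hm (-1) 1, sR_T gB σ p⟩
  have hDq : D q = y := by
    apply Subtype.ext
    change Dl τ (qL gB σ f a) = yL gB σ f a
    unfold Dl
    rw [tl_qL gB σ τ hτ f a ha, ← mul_assoc, hm_mul, add_neg_cancel, one_mul, hm_one, one_mul]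
  have hDy : D y ∈ I := by
    by_cases h : a + 1 < p
    · have h1 : D y = ⟨hm ((a + 1 : ℕ) : ℤ) (gB ((del σ)^[a + 1] f)),
          sR_del gB σ p h f⟩ := by
        apply Subtype.ext
        exact tl_del gB σ τ hτ a f
      rw [h1]
      exact mem_nI gB σ p s (by omega) h hf
    · have h1 : D y = 0 := by
        apply Subtype.ext
        change Dl τ (hm a (gB ((del σ)^[a] f))) = 0
        have h2 : a + 1 = p := by omega
        rw [tl_del gB σ τ hτ, h2, hδ, map_zero, hm_zero]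
      rw [h1]
      exact Ideal.zero_mem _
  have hDI : ∀ x ∈ I, D x ∈ I := fun x hx => dR_nI gB σ τ hτ p hδ s a hx
  have hDs : D ss = 0 := by
    apply Subtype.ext
    change Dl τ (hm (-1) 1) = 0
    rw [Dl_hm, map_one, sub_self, hm_zero]
  have hD1 : D 1 = 0 := by
    apply Subtype.ext
    change Dl τ 1 = 0
    rw [← hm_one, Dl_hm, map_one, sub_self, hm_zero]
  have htI : ∀ x ∈ I, t x ∈ I := by
    intro x hx
    rw [ht, tR_eq]
    exact Ideal.add_mem _ hx (Ideal.mul_mem_left _ _ (hDI x hx))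
  have hty : t y - y ∈ I := by
    rw [ht, tR_eq, add_sub_cancel_left]
    exact Ideal.mul_mem_left _ _ hDy
  have hz := D_iter_pow ss D (dR_add gB σ τ hτ p hδ) (dR_mul gB σ τ hτ p hδ) I hDI q y hDq hDy
    hDs hD1 (p - 1)
  have hth := fun m => prod_thet t I htI y hty m p
  let z : sR gB σ p := ⟨zL gB σ p f a, zL_mem gB σ τ hτ p f a hδ ha hap⟩
  have hzeq : z = D^[p - 1] (q ^ (p - 1)) := by
    apply Subtype.ext
    rw [hD, dR_iter]
    exact zL_eq gB σ τ hτ p f a ha
  rw [← hzeq] at hz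
  have hhL : (⟨hL gB σ p f a, hL_mem gB σ τ hτ p f a hδ ha hap⟩ : sR gB σ p) =
      z * ∏ m ∈ Finset.Ico 1 p, ∏ l ∈ Finset.range p, t^[l] (thet t y m) := by
    apply Subtype.ext
    change hL gB σ p f a = _
    rw [hL_eq gB σ τ hτ, MulMemClass.coe_mul]
    congr 1
    push_cast
    refine Finset.prod_congr rfl fun m _ => Finset.prod_congr rfl fun l _ => ?_
    rw [ht, tR_iter]
    congr 1
    rw [thL_eq gB σ τ hτ]
    unfold thet
    push_cast
    refine Finset.sum_congr rfl fun j _ => ?_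
    rw [tR_iter]
    rfl
  rw [hhL, ← Ideal.Quotient.mk_eq_mk_iff_sub_mem, map_mul, map_prod,
    (Ideal.Quotient.mk_eq_mk_iff_sub_mem _ _).2 hz]
  rw [Finset.prod_congr rfl fun m _ => (Ideal.Quotient.mk_eq_mk_iff_sub_mem _ _).2 (hth m)]
  rw [← map_prod, ← map_mul]
  congr 1
  simp_rw [mul_pow]
  rw [Finset.prod_mul_distrib, Finset.prod_const, Nat.card_Ico]
  push_cast
  ring

end congr

end Pool.Agent.H920R2
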