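import Pool.Agent.H920R2.Sig4

set_option autoImplicit false

universe u v

namespace Pool.Agent.H920R2

section val

variable {k B L : Type u} [Field k] [CommRing B] [Algebra k B] [Field L] [Algebra k L]
  (gB : B →ₐ[k] L) (hinj : Function.Injective gB) (σ : B ≃ₐ[k] B) (τ : L ≃ₐ[k] L)
  (hτ : ∀ b, τ (gB b) = gB (σ b)) (p : ℕ) (hp : p.Prime)
  (hδ : ∀ b, (del σ)^[p] b = 0) (s : Finset B) (hs : Algebra.adjoin k (s : Set B) = ⊤)

include hinj hp in
/-- The choice of the chart which contains the centre of a valuation. -/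
lemma exists_chart (V : ValuationSubring L) (hV : ∀ b, gB b ∈ V)
    (hne : ∃ b ∈ s, del σ b ≠ 0) : ∃ (f : B) (a : ℕ), f ∈ s ∧ 1 ≤ a ∧ a < p ∧ eta σ f a ≠ 0 ∧
      (∀ b ∈ s, ∀ c : ℕ, 1 ≤ c → c < p → V.valuation (gB ((del σ)^[c] b)) ^ a ≤
        V.valuation (gB (eta σ f a)) ^ c) ∧
      (∀ b ∈ s, ∀ c : ℕ, a < c → c < p → V.valuation (gB ((del σ)^[c] b)) ^ a <
        V.valuation (gB (eta σ f a)) ^ c) := by
  classical
  set v := V.valuation
  let I0 := {t : s × Fin p // 1 ≤ (t.2 : ℕ) ∧ (del σ)^[t.2] t.1.1 ≠ 0}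
  let M := (p - 1).factorial
  have hM0 : 0 < M := Nat.factorial_pos _
  have hp2 : 2 ≤ p := hp.two_le
  have hne' : Nonempty I0 := by
    obtain ⟨b, hb, h⟩ := hne
    exact ⟨⟨(⟨b, hb⟩, ⟨1, by omega⟩), le_rfl, h⟩⟩
  let w : I0 → V.ValueGroup := fun t => v (gB ((del σ)^[t.1.2] t.1.1.1)) ^ (M / (t.1.2 : ℕ))
  obtain ⟨t1, ht1⟩ := Finite.exists_max w
  have hne2 : Nonempty {t : I0 // w t = w t1} := ⟨⟨t1, rfl⟩⟩
  obtain ⟨⟨t0, ht0⟩, hmax⟩ := Finite.exists_max fun t : {t : I0 // w t = w t1} => (t.1.1.2 : ℕ)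
  have hw : ∀ t, w t ≤ w t0 := fun t => (ht1 t).trans ht0.ge
  have hw' : ∀ t : I0, (t0.1.2 : ℕ) < t.1.2 → w t < w t0 := by
    intro t ht
    refine lt_of_le_of_ne (hw t) ?_
    intro h
    have := hmax ⟨t, h.trans ht0⟩
    exact absurd this (not_le.2 ht)
  have hdiv : ∀ t : I0, M / (t.1.2 : ℕ) * t.1.2 = M := by
    intro t
    refine Nat.div_mul_cancel (Nat.dvd_factorial t.2.1 ?_)
    have := t.1.2.2
    omega
  have hpos : 0 < v (gB (eta σ t0.1.1.1 t0.1.2)) := by
    rw [zero_lt_iff, Ne, map_eq_zero]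
    intro h
    exact t0.2.2 ((map_eq_zero_iff gB hinj).1 h)
  refine ⟨t0.1.1.1, t0.1.2, t0.1.1.2, t0.2.1, t0.1.2.2, t0.2.2, ?_, ?_⟩
  · intro b hb c hc hcp
    by_cases h0 : (del σ)^[c] b = 0
    · rw [h0, map_zero, map_zero, zero_pow (by have := t0.2.1; omega)]
      exact zero_le
    · let t : I0 := ⟨(⟨b, hb⟩, ⟨c, hcp⟩), hc, h0⟩
      have h1 := pow_le_pow_left' (hw t) ((t0.1.2 : ℕ) * c)
      have e1 := hdiv t
      have e2 := hdiv t0
      change M / c * c = M at e1
      have h2 : (v (gB ((del σ)^[c] b)) ^ (t0.1.2 : ℕ)) ^ M ≤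
          (v (gB (eta σ t0.1.1.1 t0.1.2)) ^ c) ^ M := by
        change (v (gB ((del σ)^[c] b)) ^ (M / c)) ^ ((t0.1.2 : ℕ) * c) ≤
          (v (gB (eta σ t0.1.1.1 t0.1.2)) ^ (M / (t0.1.2 : ℕ))) ^ ((t0.1.2 : ℕ) * c) at h1
        rw [← pow_mul, ← pow_mul] at h1 ⊢
        have e3 : M / c * ((t0.1.2 : ℕ) * c) = (t0.1.2 : ℕ) * M := by
          conv_rhs => rw [← e1]
          ring
        have e4 : M / (t0.1.2 : ℕ) * ((t0.1.2 : ℕ) * c) = c * M := by
          conv_rhs => rw [← e2]
          ring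
        rwa [e3, e4] at h1
      exact le_of_pow_le_pow_left₀ hM0.ne' zero_le h2
  · intro b hb c hac hcp
    by_cases h0 : (del σ)^[c] b = 0
    · rw [h0, map_zero, map_zero, zero_pow (by have := t0.2.1; omega)]
      exact pow_pos hpos c
    · have hc : 1 ≤ c := by have := t0.2.1; omega
      let t : I0 := ⟨(⟨b, hb⟩, ⟨c, hcp⟩), hc, h0⟩
      have hne3 : (t0.1.2 : ℕ) * c ≠ 0 := by
        have := t0.2.1
        exact Nat.mul_ne_zero (by omega) (by omega)
      have h1 := pow_lt_pow_left₀ (hw' t hac) zero_le hne3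
      have e1 := hdiv t
      have e2 := hdiv t0
      change M / c * c = M at e1
      have h2 : (v (gB ((del σ)^[c] b)) ^ (t0.1.2 : ℕ)) ^ M <
          (v (gB (eta σ t0.1.1.1 t0.1.2)) ^ c) ^ M := by
        change (v (gB ((del σ)^[c] b)) ^ (M / c)) ^ ((t0.1.2 : ℕ) * c) <
          (v (gB (eta σ t0.1.1.1 t0.1.2)) ^ (M / (t0.1.2 : ℕ))) ^ ((t0.1.2 : ℕ) * c) at h1
        rw [← pow_mul, ← pow_mul] at h1 ⊢
        have e3 : M / c * ((t0.1.2 : ℕ) * c) = (t0.1.2 : ℕ) * M := by
          conv_rhs => rw [← e1]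
          ring
        have e4 : M / (t0.1.2 : ℕ) * ((t0.1.2 : ℕ) * c) = c * M := by
          conv_rhs => rw [← e2]
          ring
        rwa [e3, e4] at h1
      exact lt_of_pow_lt_pow_left₀ M zero_le h2

variable (V : ValuationSubring L) (hV : ∀ b, gB b ∈ V) (f : B) (a : ℕ) (ha : 1 ≤ a) (hap : a < p)
  (hη : eta σ f a ≠ 0)
  (hle : ∀ b ∈ s, ∀ c : ℕ, 1 ≤ c → c < p → V.valuation (gB ((del σ)^[c] b)) ^ a ≤
        V.valuation (gB (eta σ f a)) ^ c)
  (hlt : ∀ b ∈ s, ∀ c : ℕ, a < c → c < p → V.valuation (gB ((del σ)^[c] b)) ^ a <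
        V.valuation (gB (eta σ f a)) ^ c)

include hinj hη in
lemma eta_pos : 0 < V.valuation (gB (eta σ f a)) := by
  rw [zero_lt_iff, Ne, map_eq_zero]
  intro h
  exact hη ((map_eq_zero_iff gB hinj).1 h)

include hinj hη hs hδ hV ha hle in
/-- The elements of the Rees algebra have bounded valuation. -/
lemma val_sR {x : LP L} (hx : x ∈ sR gB σ p) (e : ℤ) :
    V.valuation (x.coeff e) ^ a ≤ V.valuation (gB (eta σ f a)) ^ e := by
  classical
  set v := V.valuation
  have hpos := eta_pos gB hinj σ V f a hη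
  have hBpos : ∀ e : ℤ, 0 < v (gB (eta σ f a)) ^ e := fun e => zpow_pos hpos e
  have hadd : ∀ (e : ℤ) (b c : L), v b ^ a ≤ v (gB (eta σ f a)) ^ e →
      v c ^ a ≤ v (gB (eta σ f a)) ^ e → v (b + c) ^ a ≤ v (gB (eta σ f a)) ^ e := by
    intro e b c hb hc
    rcases v.map_add' b c with h | h
    · exact (pow_le_pow_left' h _).trans hb
    · exact (pow_le_pow_left' h _).trans hc
  have hzero : ∀ e : ℤ, v (0 : L) ^ a ≤ v (gB (eta σ f a)) ^ e := by
    intro e
    rw [map_zero, zero_pow (by omega)]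
    exact (hBpos e).le
  have hone : ∀ b, v (gB b) ≤ 1 := fun b => (V.valuation_le_one_iff _).2 (hV b)
  have h1 := sR_eq_adjoin gB σ p hδ s hs hx
  clear hx
  induction h1 using Algebra.adjoin_induction generalizing e with
  | mem x hx =>
    rcases hx with hx | ⟨c, b, hb, hcp, rfl⟩
    · rw [hx, coeff_hm]
      split_ifs with h
      · rw [← h, map_one, one_pow, zpow_neg, zpow_one]
        exact one_le_inv_iff₀.2 ⟨hpos, hone _⟩
      · exact hzero e
    · rw [coeff_hm]
      split_ifs with h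
      · rw [← h, zpow_natCast]
        rcases Nat.eq_zero_or_pos c with h0 | h0
        · subst h0
          rw [pow_zero]
          exact pow_le_one' (hone _) _
        · exact hle b hb c h0 hcp
      · exact hzero e
  | algebraMap r =>
    rw [algebraMap_LP, coeff_hm]
    split_ifs with h
    · rw [← h, zpow_zero]
      have h2 := hone (algebraMap k B r)
      rw [AlgHom.commutes] at h2
      exact pow_le_one' h2 _
    · exact hzero e
  | add x y _ _ hx hy =>
    rw [AddMonoidAlgebra.coeff_add, Finsupp.add_apply]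
    exact hadd e _ _ (hx e) (hy e)
  | mul x y _ _ hx hy =>
    rw [eq_sum_hm x, Finset.sum_mul, AddMonoidAlgebra.coeff_sum, Finsupp.finsetSum_apply]
    have h1 : ∀ j ∈ x.coeff.support, v ((hm j (x.coeff j) * y).coeff e) ^ a ≤
        v (gB (eta σ f a)) ^ e := by
      intro j _
      rw [coeff_hm_mul, map_mul, mul_pow]
      have h2 : v (gB (eta σ f a)) ^ e = v (gB (eta σ f a)) ^ j *
          v (gB (eta σ f a)) ^ (e - j) := by
        rw [← zpow_add₀ hpos.ne']
        congr 1
        ring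
      rw [h2]
      exact mul_le_mul' (hx j) (hy (e - j))
    have h3 : ∀ s : Finset ℤ, (∀ j ∈ s, v ((hm j (x.coeff j) * y).coeff e) ^ a ≤
        v (gB (eta σ f a)) ^ e) → v (∑ j ∈ s, (hm j (x.coeff j) * y).coeff e) ^ a ≤
          v (gB (eta σ f a)) ^ e := by
      intro s
      induction s using Finset.induction_on with
      | empty => intro _; rw [Finset.sum_empty]; exact hzero e
      | insert i s hi ih =>
        intro h
        rw [Finset.sum_insert hi]
        exact hadd e _ _ (h i (Finset.mem_insert_self i s))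
          (ih fun i' hi' => h i' (Finset.mem_insert_of_mem hi'))
    exact h3 _ h1

include hinj hη hs hδ hV ha hle hlt in
/-- The elements of large weight have strictly bounded valuation. -/
lemma val_nI {x : sR gB σ p} (hx : x ∈ nI gB σ p (s : Set B) a) (e : ℤ) :
    V.valuation ((x : LP L).coeff e) ^ a < V.valuation (gB (eta σ f a)) ^ e := by
  classical
  set v := V.valuation
  have hpos := eta_pos gB hinj σ V f a hη
  have hBpos : ∀ e : ℤ, 0 < v (gB (eta σ f a)) ^ e := fun e => zpow_pos hpos e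
  have hadd : ∀ (e : ℤ) (b c : L), v b ^ a < v (gB (eta σ f a)) ^ e →
      v c ^ a < v (gB (eta σ f a)) ^ e → v (b + c) ^ a < v (gB (eta σ f a)) ^ e := by
    intro e b c hb hc
    rcases v.map_add' b c with h | h
    · exact (pow_le_pow_left' h _).trans_lt hb
    · exact (pow_le_pow_left' h _).trans_lt hc
  have hzero : ∀ e : ℤ, v (0 : L) ^ a < v (gB (eta σ f a)) ^ e := by
    intro e
    rw [map_zero, zero_pow (by omega)]
    exact hBpos e
  unfold nI at hx
  induction hx using Submodule.span_induction generalizing e with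
  | mem x hx =>
    obtain ⟨c, b, hb, hac, hcp, hx⟩ := hx
    rw [hx, coeff_hm]
    split_ifs with h
    · rw [← h, zpow_natCast]
      exact hlt b hb c hac hcp
    · exact hzero e
  | zero =>
    have h0 : (((0 : sR gB σ p) : LP L)).coeff e = 0 := rfl
    rw [h0]; exact hzero e
  | add x y _ _ hx hy =>
    have h0 : (((x + y : sR gB σ p) : LP L)).coeff e = (x : LP L).coeff e + (y : LP L).coeff e :=
      rfl
    rw [h0]
    exact hadd e _ _ (hx e) (hy e)
  | smul r x _ hx =>
    have h0 : (((r • x : sR gB σ p) : LP L)) = (r : LP L) * (x : LP L) := rfl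
    rw [h0, eq_sum_hm (r : LP L), Finset.sum_mul, AddMonoidAlgebra.coeff_sum,
      Finsupp.finsetSum_apply]
    have h1 : ∀ j ∈ (r : LP L).coeff.support,
        v ((hm j ((r : LP L).coeff j) * (x : LP L)).coeff e) ^ a < v (gB (eta σ f a)) ^ e := by
      intro j _
      rw [coeff_hm_mul, map_mul, mul_pow]
      have h2 : v (gB (eta σ f a)) ^ e = v (gB (eta σ f a)) ^ j *
          v (gB (eta σ f a)) ^ (e - j) := by
        rw [← zpow_add₀ hpos.ne']
        congr 1
        ring
      rw [h2]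
      have h3 := val_sR gB hinj σ p hδ s hs V hV f a ha hη hle r.2 j
      calc v ((r : LP L).coeff j) ^ a * v ((x : LP L).coeff (e - j)) ^ a
          ≤ v (gB (eta σ f a)) ^ j * v ((x : LP L).coeff (e - j)) ^ a := mul_le_mul' h3 le_rfl
        _ < v (gB (eta σ f a)) ^ j * v (gB (eta σ f a)) ^ (e - j) :=
          mul_lt_mul_of_pos_left (hx (e - j)) (hBpos j)
    have h3 : ∀ s : Finset ℤ, (∀ j ∈ s, v ((hm j ((r : LP L).coeff j) * (x : LP L)).coeff e) ^ a <
        v (gB (eta σ f a)) ^ e) →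
          v (∑ j ∈ s, (hm j ((r : LP L).coeff j) * (x : LP L)).coeff e) ^ a <
          v (gB (eta σ f a)) ^ e := by
      intro s
      induction s using Finset.induction_on with
      | empty => intro _; rw [Finset.sum_empty]; exact hzero e
      | insert i s hi ih =>
        intro h
        rw [Finset.sum_insert hi]
        exact hadd e _ _ (h i (Finset.mem_insert_self i s))
          (ih fun i' hi' => h i' (Finset.mem_insert_of_mem hi'))
    exact h3 _ h1

include hinj hη hs hδ hV ha hap hle hlt hτ hp in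
/-- The valuation of the element which is inverted on the chart. -/
lemma val_hB (hpk : (p : k) = 0) (hf : f ∈ s) : V.valuation (gB (hB σ p f a)) =
    V.valuation (gB (eta σ f a)) ^ ((p - 1) + (p - 1) * p) := by
  classical
  set v := V.valuation
  have hpos := eta_pos gB hinj σ V f a hη
  have hchar : CharP k p := (CharP.charP_iff_prime_eq_zero hp).2 hpk
  let c : ℕ := (p - 1).factorial * ∏ m ∈ Finset.Ico 1 p, m ^ p
  have hc : ((c : ℕ) : k) ≠ 0 := by
    intro h
    have h1 := (CharP.cast_eq_zero_iff k p c).1 h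
    rcases (hp.dvd_mul).1 h1 with h2 | h2
    · have h3 := (hp.dvd_factorial).1 h2
      have := hp.two_le
      omega
    · obtain ⟨m, hm, h3⟩ := (Prime.dvd_finsetProd_iff hp.prime _).1 h2
      rw [Finset.mem_Ico] at hm
      have h4 := hp.dvd_of_dvd_pow h3
      have := Nat.le_of_dvd (by omega) h4
      omega
  have hone : ∀ r : k, v (algebraMap k L r) ≤ 1 := by
    intro r
    have h2 := (V.valuation_le_one_iff _).2 (hV (algebraMap k B r))
    rwa [AlgHom.commutes] at h2
  have hvc : v ((c : ℕ) : L) = 1 := by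
    have h1 : ((c : ℕ) : L) = algebraMap k L (c : k) := by rw [map_natCast]
    rw [h1]
    apply le_antisymm (hone _)
    have h2 := hone ((c : k)⁻¹)
    have h3 : v (algebraMap k L (c : k)) * v (algebraMap k L (c : k)⁻¹) = 1 := by
      rw [← map_mul, ← map_mul, mul_inv_cancel₀ hc, map_one, map_one]
    rw [← h3]
    calc v (algebraMap k L (c : k)) * v (algebraMap k L (c : k)⁻¹)
        ≤ v (algebraMap k L (c : k)) * 1 := mul_le_mul' le_rfl h2
      _ = _ := mul_one _
  have h1 := hL_congr gB σ τ hτ p hδ (s : Set B) f hf a ha hap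
  have h2 := val_nI gB hinj σ p hδ s hs V hV f a ha hη hle hlt h1
    (((((p - 1) + (p - 1) * p) * a : ℕ)) : ℤ)
  set κ := (p - 1) + (p - 1) * p with hκ
  have h3 : (((⟨hL gB σ p f a, hL_mem gB σ τ hτ p f a hδ ha hap⟩ : sR gB σ p) -
      (((p - 1).factorial * ∏ m ∈ Finset.Ico 1 p, m ^ p : ℕ) : sR gB σ p) *
        ⟨yL gB σ f a, yL_mem gB σ p f a hap⟩ ^ κ : sR gB σ p) : LP L) =
        hm ((κ * a : ℕ) : ℤ) (gB (hB σ p f a) - ((c : ℕ) : L) * gB (eta σ f a) ^ κ) := by
    rw [hm_sub]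
    have e1 : (((((p - 1).factorial * ∏ m ∈ Finset.Ico 1 p, m ^ p : ℕ) : sR gB σ p) :
        LP L)) = ((c : ℕ) : LP L) := by
      exact SubringClass.coe_natCast (sR gB σ p) _
    have e2 : ((c : ℕ) : LP L) = hm 0 ((c : ℕ) : L) := by
      have := map_natCast (algebraMap k (LP L)) c
      rw [← this, algebraMap_LP, map_natCast]
    rw [AddSubgroupClass.coe_sub, MulMemClass.coe_mul, SubmonoidClass.coe_pow, e1, e2]
    congr 1
    unfold yL
    rw [hm_pow, hm_mul]
    congr 1
    push_cast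
    ring
  rw [h3, coeff_hm_same, zpow_natCast, pow_mul] at h2
  have h4 : v (gB (hB σ p f a) - ((c : ℕ) : L) * gB (eta σ f a) ^ κ) <
      v (gB (eta σ f a)) ^ κ := lt_of_pow_lt_pow_left₀ a zero_le h2
  have h5 : v (((c : ℕ) : L) * gB (eta σ f a) ^ κ) = v (gB (eta σ f a)) ^ κ := by
    rw [map_mul, hvc, one_mul, map_pow]
  have h6 : gB (hB σ p f a) = (gB (hB σ p f a) - ((c : ℕ) : L) * gB (eta σ f a) ^ κ) +
      ((c : ℕ) : L) * gB (eta σ f a) ^ κ := by ring
  rw [h6, Valuation.map_add_eq_of_lt_right v (by rw [h5]; exact h4), h5]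

end val

end Pool.Agent.H920R2
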