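import Pool.Agent.H920R2.Up1

set_option autoImplicit false

open AlgebraicGeometry CategoryTheory

universe u v w

namespace Pool.Agent.H920R2

section inv

variable {k B : Type*} [CommRing k] [CommRing B] [Algebra k B]

/-- The subalgebra of elements fixed by an automorphism. -/
def fixedAlg (σ : B ≃ₐ[k] B) : Subalgebra k B := AlgHom.equalizer (σ : B →ₐ[k] B) (AlgHom.id k B)

lemma mem_fixedAlg {σ : B ≃ₐ[k] B} {b : B} : b ∈ fixedAlg σ ↔ σ b = b := by
  unfold fixedAlg
  rw [AlgHom.mem_equalizer]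
  rfl

/-- The product of the first `n` iterated conjugates. -/
def nrm (σ : B ≃ₐ[k] B) (n : ℕ) (s : B) : B := ∏ i ∈ Finset.range n, σ^[i] s

lemma nrm_succ' (σ : B ≃ₐ[k] B) (n : ℕ) (s : B) :
    nrm σ (n + 1) s = (∏ i ∈ Finset.range n, σ^[i + 1] s) * s := by
  unfold nrm
  rw [Finset.prod_range_succ']
  rfl

lemma map_nrm [IsDomain B] (σ : B ≃ₐ[k] B) (n : ℕ) (hσ : ∀ b, σ^[n] b = b) (s : B) :
    σ (nrm σ n s) = nrm σ n s := by
  by_cases hs : s = 0
  · subst hs
    cases n with
    | zero => unfold nrm; simp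
    | succ n => rw [nrm_succ']; simp
  · have h1 : σ (nrm σ n s) = ∏ i ∈ Finset.range n, σ^[i + 1] s := by
      unfold nrm
      rw [map_prod]
      refine Finset.prod_congr rfl fun i _ => ?_
      rw [Function.iterate_succ_apply']
    have h2 : σ (nrm σ n s) * s = nrm σ n s * s := by
      rw [h1, ← nrm_succ']
      unfold nrm
      rw [Finset.prod_range_succ, hσ]
    exact mul_right_cancel₀ hs h2

lemma isIntegral_fixedAlg (σ : B ≃ₐ[k] B) (n : ℕ) (hn : 0 < n) (hσ : ∀ b, σ^[n] b = b) :
    Algebra.IsIntegral (fixedAlg σ) B := by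
  constructor
  intro b
  let P : Polynomial B :=
    ∏ i ∈ Finset.range n, (Polynomial.X - Polynomial.C (σ^[i] b))
  have hP : P.Monic := Polynomial.monic_prod_of_monic _ _ fun g _ => Polynomial.monic_X_sub_C _
  have hmap : P.map (σ : B →+* B) = P := by
    have h1 : P.map (σ : B →+* B) =
        ∏ i ∈ Finset.range n, (Polynomial.X - Polynomial.C (σ^[i + 1] b)) := by
      simp only [P, Polynomial.map_prod, Polynomial.map_sub, Polynomial.map_X, Polynomial.map_C]
      refine Finset.prod_congr rfl fun i _ => ?_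
      rw [Function.iterate_succ_apply']
      rfl
    obtain ⟨m, rfl⟩ : ∃ m, n = m + 1 := ⟨n - 1, by omega⟩
    rw [h1, Finset.prod_range_succ, hσ]
    change _ = ∏ i ∈ Finset.range (m + 1), (Polynomial.X - Polynomial.C (σ^[i] b))
    rw [Finset.prod_range_succ']
    rfl
  have hcoeff : ∀ i, P.coeff i ∈ fixedAlg σ := by
    intro i
    rw [mem_fixedAlg]
    have := congrArg (fun p => Polynomial.coeff p i) hmap
    rw [Polynomial.coeff_map] at this
    exact this
  have hsub : ((P.coeffs : Set B)) ⊆ (fixedAlg σ).toSubring := by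
    intro c hc
    obtain ⟨i, -, rfl⟩ := Polynomial.mem_coeffs_iff.1 hc
    exact hcoeff i
  refine ⟨P.toSubring _ hsub, (Polynomial.monic_toSubring _ _ hsub).2 hP, ?_⟩
  have h1 : Polynomial.eval₂ (fixedAlg σ).toSubring.subtype b (P.toSubring _ hsub) =
      Polynomial.eval b P := by
    rw [Polynomial.eval₂_eq_eval_map, Polynomial.map_toSubring]
  change Polynomial.eval₂ (fixedAlg σ).toSubring.subtype b _ = 0
  rw [h1, Polynomial.eval_prod]
  apply Finset.prod_eq_zero (Finset.mem_range.2 hn)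
  simp

lemma prod_mem_pow' (J : Ideal B) {ι : Type*} (s : Finset ι) (f : ι → B)
    (hf : ∀ i ∈ s, f i ∈ J) : ∏ i ∈ s, f i ∈ J ^ s.card := by
  classical
  induction s using Finset.induction_on with
  | empty => simp
  | insert a s ha ih =>
    rw [Finset.prod_insert ha, Finset.card_insert_of_notMem ha, pow_succ']
    exact Ideal.mul_mem_mul (hf a (Finset.mem_insert_self a s))
      (ih fun i hi => hf i (Finset.mem_insert_of_mem hi))

end inv

section main

variable {k B : Type u} [Field k] [CommRing B] [IsDomain B] [Algebra k B] {L : Type v} [Field L]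
  [Algebra k L] [Algebra B L] [IsScalarTower k B L] [FaithfulSMul B L]
  (σ : B ≃ₐ[k] B) (τ : L ≃ₐ[k] L) (hτ : ∀ b, τ (algebraMap B L b) = algebraMap B L (σ b))
  (n : ℕ) (hn : 0 < n) (hσ : ∀ b, σ^[n] b = b)

include hτ hn hσ in
/-- Resolution of the quotient by a cyclic group, by means of an equivariant blowup upstairs all
of whose charts have a smooth ring of invariants. -/
theorem hasResolution_upstairs (J : Ideal B) (hJσ : ∀ b ∈ J, σ b ∈ J) {T : Type w} [Finite T]
    (s : T → B) (hs : ∀ t, s t ∈ J) (R : T → Subalgebra k L)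
    (hR1 : ∀ t, s t ≠ 0 → Algebra.Smooth k ↥(R t ⊓ fixedAlg τ))
    (hR0 : ∀ t, s t ≠ 0 → ∀ b, algebraMap B L b ∈ R t)
    (hR2 : ∀ t, s t ≠ 0 → ∀ b ∈ J, algebraMap B L b / algebraMap B L (s t) ∈ R t)
    (hR3 : ∀ t, s t ≠ 0 → ∀ i < n, algebraMap B L (s t) / algebraMap B L (σ^[i] (s t)) ∈ R t)
    (hR4 : ∀ t, s t ≠ 0 → R t ≤ Algebra.adjoin k (Set.range (algebraMap B L) ∪
      {x | ∃ b ∈ J, x = algebraMap B L b / algebraMap B L (s t)} ∪
      {x | ∃ i < n, x = algebraMap B L (s t) / algebraMap B L (σ^[i] (s t))}))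
    (hV : ∀ V : ValuationSubring L, (∀ b, algebraMap B L b ∈ V) →
      ∃ t, s t ≠ 0 ∧ ∀ x ∈ R t, x ∈ V) :
    HasResolution (X := Spec (CommRingCat.of (fixedAlg σ)))
      (Spec.map (CommRingCat.ofHom (algebraMap k (fixedAlg σ)))) := by
  classical
  have hinj : Function.Injective (algebraMap B L) := FaithfulSMul.algebraMap_injective B L
  let gB : B →ₐ[k] L := IsScalarTower.toAlgHom k B L
  have hgB : ∀ b, gB b = algebraMap B L b := fun b => rfl
  let H : T → B := fun t => nrm σ n (s t)
  have hit0 : ∀ (i : ℕ) (b : B), b ≠ 0 → σ^[i] b ≠ 0 := by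
    intro i
    induction i with
    | zero => intro b hb; exact hb
    | succ i ih =>
      intro b hb
      rw [Function.iterate_succ_apply]
      exact ih _ (fun h => hb ((map_eq_zero_iff σ σ.injective).1 h))
  have hitJ : ∀ (i : ℕ) (b : B), b ∈ J → σ^[i] b ∈ J := by
    intro i
    induction i with
    | zero => intro b hb; exact hb
    | succ i ih =>
      intro b hb
      rw [Function.iterate_succ_apply]
      exact ih _ (hJσ b hb)
  have hH0 : ∀ t, s t ≠ 0 → H t ≠ 0 := by
    intro t ht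
    exact Finset.prod_ne_zero_iff.2 fun i _ => hit0 i _ ht
  have hHJ : ∀ t, H t ∈ J ^ n := by
    intro t
    have := prod_mem_pow' J (Finset.range n) (fun i => σ^[i] (s t)) fun i _ => hitJ i _ (hs t)
    rwa [Finset.card_range] at this
  have hHσ : ∀ t, σ (H t) = H t := fun t => map_nrm σ n hσ (s t)
  -- elements of the big chart as fractions
  have claim1 : ∀ t, s t ≠ 0 → ∀ x ∈ R t, ∃ (m : ℕ) (b : B), b ∈ J ^ (n * m) ∧
      x = algebraMap B L b / algebraMap B L (H t) ^ m := by
    intro t ht x hx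
    have hne : algebraMap B L (H t) ≠ 0 := fun h => hH0 t ht ((map_eq_zero_iff _ hinj).1 h)
    have hx' := hR4 t ht hx
    clear hx
    induction hx' using Algebra.adjoin_induction with
    | mem x hx =>
      rcases hx with (⟨b, rfl⟩ | ⟨b, hb, rfl⟩) | ⟨i, hi, rfl⟩
      · exact ⟨0, b, by simp, by simp⟩
      · obtain ⟨m, rfl⟩ : ∃ m, n = m + 1 := ⟨n - 1, by omega⟩
        refine ⟨1, b * ∏ i ∈ Finset.range m, σ^[i + 1] (s t), ?_, ?_⟩
        · rw [mul_one, pow_succ']
          refine Ideal.mul_mem_mul hb ?_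
          have := prod_mem_pow' J (Finset.range m) (fun i => σ^[i + 1] (s t))
            fun i _ => hitJ _ _ (hs t)
          rwa [Finset.card_range] at this
        · have h1 : H t = (∏ i ∈ Finset.range m, σ^[i + 1] (s t)) * s t := nrm_succ' σ m (s t)
          have h2 : algebraMap B L (s t) ≠ 0 := fun h => ht ((map_eq_zero_iff _ hinj).1 h)
          have h3 : algebraMap B L (∏ i ∈ Finset.range m, σ^[i + 1] (s t)) ≠ 0 := by
            intro h
            apply hne
            rw [h1, map_mul, h, zero_mul]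
          rw [pow_one, h1, map_mul, map_mul]
          field_simp
      · refine ⟨1, s t * ∏ j ∈ (Finset.range n).erase i, σ^[j] (s t), ?_, ?_⟩
        · have h1 := prod_mem_pow' J ((Finset.range n).erase i) (fun j => σ^[j] (s t))
            fun j _ => hitJ _ _ (hs t)
          rw [Finset.card_erase_of_mem (Finset.mem_range.2 hi), Finset.card_range] at h1
          have h2 := Ideal.mul_mem_mul (hs t) h1
          rw [← pow_succ'] at h2
          rw [mul_one]
          have h3 : n - 1 + 1 = n := by omega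
          rwa [h3] at h2
        · have h1 : H t = σ^[i] (s t) * ∏ j ∈ (Finset.range n).erase i, σ^[j] (s t) := by
            exact (Finset.mul_prod_erase _ (fun j => σ^[j] (s t)) (Finset.mem_range.2 hi)).symm
          have h2 : algebraMap B L (σ^[i] (s t)) ≠ 0 :=
            fun h => hit0 i _ ht ((map_eq_zero_iff _ hinj).1 h)
          have h3 : algebraMap B L (∏ j ∈ (Finset.range n).erase i, σ^[j] (s t)) ≠ 0 := by
            intro h
            apply hne
            rw [h1, map_mul, h, mul_zero]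
          rw [pow_one, h1, map_mul, map_mul]
          field_simp
    | algebraMap r =>
      refine ⟨0, algebraMap k B r, by simp, ?_⟩
      rw [pow_zero, div_one, ← IsScalarTower.algebraMap_apply k B L]
    | add x y _ _ hx hy =>
      obtain ⟨m, b, hb, rfl⟩ := hx
      obtain ⟨m', b', hb', rfl⟩ := hy
      refine ⟨m + m', b * H t ^ m' + b' * H t ^ m, ?_, ?_⟩
      · have e1 : J ^ (n * (m + m')) = J ^ (n * m) * (J ^ n) ^ m' := by
          rw [← pow_mul, ← pow_add]; congr 1; ring
        have e2 : J ^ (n * (m + m')) = J ^ (n * m') * (J ^ n) ^ m := by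
          rw [← pow_mul, ← pow_add]; congr 1; ring
        refine Ideal.add_mem _ ?_ ?_
        · rw [e1]; exact Ideal.mul_mem_mul hb (Ideal.pow_mem_pow (hHJ t) _)
        · rw [e2]; exact Ideal.mul_mem_mul hb' (Ideal.pow_mem_pow (hHJ t) _)
      · rw [map_add, map_mul, map_mul, map_pow, map_pow]
        field_simp
        ring
    | mul x y _ _ hx hy =>
      obtain ⟨m, b, hb, rfl⟩ := hx
      obtain ⟨m', b', hb', rfl⟩ := hy
      refine ⟨m + m', b * b', ?_, ?_⟩
      · have e1 : J ^ (n * (m + m')) = J ^ (n * m) * J ^ (n * m') := by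
          rw [← pow_add]; congr 1; ring
        rw [e1]; exact Ideal.mul_mem_mul hb hb'
      · rw [map_mul, pow_add, div_mul_div_comm]
  have claim2 : ∀ t, s t ≠ 0 → ∀ (m : ℕ) (b : B), b ∈ J ^ (n * m) →
      algebraMap B L b / algebraMap B L (H t) ^ m ∈ R t := by
    intro t ht m b hb
    have h1 := div_pow_mem gB J (fun x : J => (x : B)) (by
        have h : Set.range (fun x : J => (x : B)) = (J : Set B) := Subtype.range_coe
        rw [h]; exact (Ideal.span_eq J).symm) ⟨s t, hs t⟩ (R t)
      (fun b => hR0 t ht b) (fun x => hR2 t ht x.1 x.2) (n * m) hb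
    have h2 : algebraMap B L (s t) ^ n / algebraMap B L (H t) ∈ R t := by
      have e : algebraMap B L (s t) ^ n / algebraMap B L (H t) =
          ∏ i ∈ Finset.range n, algebraMap B L (s t) / algebraMap B L (σ^[i] (s t)) := by
        rw [Finset.prod_div_distrib, Finset.prod_const, Finset.card_range]
        congr 1
        change algebraMap B L (∏ i ∈ Finset.range n, σ^[i] (s t)) = _
        rw [map_prod]
      rw [e]
      exact Subalgebra.prod_mem _ fun i hi => hR3 t ht i (Finset.mem_range.1 hi)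
    have h3 : algebraMap B L (s t) ≠ 0 := fun h => ht ((map_eq_zero_iff _ hinj).1 h)
    have h4 : algebraMap B L b / algebraMap B L (H t) ^ m =
        (gB b / gB (s t) ^ (n * m)) * (algebraMap B L (s t) ^ n / algebraMap B L (H t)) ^ m := by
      rw [hgB, hgB, div_pow, ← pow_mul]
      field_simp
    rw [h4]
    exact (R t).mul_mem h1 ((R t).pow_mem h2 m)
  -- finitely many generators of the rings of invariants of the charts
  have hfg : ∀ t, ∃ G : Finset L, s t ≠ 0 → Algebra.adjoin k (G : Set L) = R t ⊓ fixedAlg τ := by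
    intro t
    by_cases ht : s t ≠ 0
    · have h1 := hR1 t ht
      have h2 : Algebra.FiniteType k ↥(R t ⊓ fixedAlg τ) := inferInstance
      obtain ⟨G, hG⟩ := (Subalgebra.fg_iff_finiteType _).2 h2
      exact ⟨G, fun _ => hG⟩
    · exact ⟨∅, fun h => absurd h ht⟩
  choose G hG using hfg
  have hGR : ∀ t, s t ≠ 0 → ∀ x ∈ G t, x ∈ R t ∧ τ x = x := by
    intro t ht x hx
    have h1 : x ∈ R t ⊓ fixedAlg τ := by
      rw [← hG t ht]
      exact Algebra.subset_adjoin hx
    exact ⟨h1.1, mem_fixedAlg.1 h1.2⟩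
  have hex : ∀ p : (Σ t : T, {x // x ∈ G t}), ∃ m : ℕ, s p.1 ≠ 0 → ∃ b : B, b ∈ J ^ (n * m) ∧
      (p.2 : L) = algebraMap B L b / algebraMap B L (H p.1) ^ m := by
    rintro ⟨t, x, hx⟩
    by_cases ht : s t ≠ 0
    · obtain ⟨m, b, hb, h⟩ := claim1 t ht x (hGR t ht x hx).1
      exact ⟨m, fun _ => ⟨b, hb, h⟩⟩
    · exact ⟨0, fun h => absurd h ht⟩
  choose mm hmm using hex
  have : Fintype (Σ t : T, {x // x ∈ G t}) := Fintype.ofFinite _
  let M : ℕ := Finset.univ.sup mm
  have hexM : ∀ p : (Σ t : T, {x // x ∈ G t}), ∃ b : B, σ b = b ∧ (s p.1 ≠ 0 →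
      b ∈ J ^ (n * M) ∧ (p.2 : L) = algebraMap B L b / algebraMap B L (H p.1) ^ M) := by
    rintro ⟨t, x, hx⟩
    by_cases ht : s t ≠ 0
    · have hne : algebraMap B L (H t) ≠ 0 := fun h => hH0 t ht ((map_eq_zero_iff _ hinj).1 h)
      obtain ⟨b, hb, h⟩ := hmm ⟨t, x, hx⟩ ht
      have hle : mm ⟨t, x, hx⟩ ≤ M := Finset.le_sup (f := mm) (Finset.mem_univ _)
      obtain ⟨e, he⟩ := Nat.exists_eq_add_of_le hle
      have hxeq : x = algebraMap B L (b * H t ^ e) / algebraMap B L (H t) ^ M := by
        change x = _ at h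
        rw [h, he, map_mul, map_pow, pow_add]
        field_simp
      refine ⟨b * H t ^ e, ?_, fun _ => ⟨?_, hxeq⟩⟩
      · have h3 := (hGR t ht x hx).2
        rw [hxeq, map_div₀, map_pow, hτ, hτ, hHσ] at h3
        have h4 := (div_left_inj' (pow_ne_zero M hne)).1 h3
        exact hinj h4
      · have e1 : J ^ (n * M) = J ^ (n * mm ⟨t, x, hx⟩) * (J ^ n) ^ e := by
          rw [← pow_mul, ← pow_add, he]; congr 1; ring
        rw [e1]
        exact Ideal.mul_mem_mul hb (Ideal.pow_mem_pow (hHJ t) _)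
    · exact ⟨0, map_zero _, fun h => absurd h ht⟩
  choose bb hbσ hbb using hexM
  let z : T ⊕ (Σ t : T, {x // x ∈ G t}) → fixedAlg σ := fun i => match i with
    | Sum.inl t => ⟨H t ^ M, by rw [mem_fixedAlg, map_pow, hHσ]⟩
    | Sum.inr p => if s p.1 ≠ 0 then ⟨bb p, mem_fixedAlg.2 (hbσ p)⟩ else 0
  have hzJ : ∀ i, (z i : B) ∈ J ^ (n * M) := by
    rintro (t | p)
    · change H t ^ M ∈ _
      rw [pow_mul]
      exact Ideal.pow_mem_pow (hHJ t) M
    · change ((if s p.1 ≠ 0 then ⟨bb p, mem_fixedAlg.2 (hbσ p)⟩ else 0 : fixedAlg σ) : B) ∈ _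
      split_ifs with h
      · exact (hbb p h).1
      · exact Ideal.zero_mem _
  let g : fixedAlg σ →ₐ[k] L := gB.comp (fixedAlg σ).val
  have hg : Function.Injective g := hinj.comp Subtype.val_injective
  have hratio : ∀ t, s t ≠ 0 → ∀ i, g (z i) / g (z (Sum.inl t)) ∈ R t := by
    intro t ht i
    have h1 : g (z (Sum.inl t)) = algebraMap B L (H t) ^ M := by
      change algebraMap B L (H t ^ M) = _
      rw [map_pow]
    rw [h1]
    exact claim2 t ht M _ (hzJ i)
  have hgfix : ∀ a, g a ∈ fixedAlg τ := by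
    intro a
    rw [mem_fixedAlg]
    change τ (algebraMap B L a.1) = algebraMap B L a.1
    rw [hτ, mem_fixedAlg.1 a.2]
  refine hasResolution_of_charts' g hg z (Set.range Sum.inl) ?_ ?_
  · intro V hVA
    have hint := isIntegral_fixedAlg σ n hn hσ
    have hVB : ∀ b, algebraMap B L b ∈ V := by
      intro b
      obtain ⟨P, hP, hP0⟩ := hint.isIntegral b
      have hb : IsIntegral V (algebraMap B L b) := by
        let φ : fixedAlg σ →+* V := g.toRingHom.codRestrict V.toSubring hVA
        refine ⟨P.map φ, hP.map φ, ?_⟩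
        rw [Polynomial.eval₂_map]
        have h1 := congrArg (algebraMap B L) hP0
        rw [Polynomial.hom_eval₂, map_zero] at h1
        exact h1
      have := (IsIntegrallyClosed.isIntegral_iff (R := V) (K := L)).1 hb
      obtain ⟨y, hy⟩ := this
      rw [← hy]
      exact y.2
    obtain ⟨t, ht, htV⟩ := hV V hVB
    refine ⟨Sum.inl t, ⟨t, rfl⟩, ?_, fun i => htV _ (hratio t ht i)⟩
    intro h0
    have h1 : H t ^ M = 0 := congrArg Subtype.val h0
    exact pow_ne_zero M (hH0 t ht) h1
  · rintro _ ⟨t, rfl⟩ hz0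
    have ht : s t ≠ 0 ∨ M = 0 := by
      by_contra hcon
      push Not at hcon
      obtain ⟨h1, h2⟩ := hcon
      apply hz0
      apply Subtype.ext
      change nrm σ n (s t) ^ M = 0
      rw [h1]
      unfold nrm
      rw [Finset.prod_eq_zero (Finset.mem_range.2 hn) (by simp), zero_pow h2]
    have key : ∀ t, s t ≠ 0 → ∃ C : Subalgebra k L,
      Algebra.Smooth k C ∧ (∀ a, g a ∈ C) ∧ (∀ i, g (z i) / g (z (Sum.inl t)) ∈ C) ∧
      C ≤ Algebra.adjoin k (Set.range g ∪ Set.range fun i => g (z i) / g (z (Sum.inl t))) := by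
      intro t ht
      refine ⟨R t ⊓ fixedAlg τ, hR1 t ht, fun a => ⟨hR0 t ht _, hgfix a⟩,
        fun i => ⟨hratio t ht i, ?_⟩, ?_⟩
      · change _ ∈ fixedAlg τ
        rw [mem_fixedAlg, map_div₀, mem_fixedAlg.1 (hgfix _), mem_fixedAlg.1 (hgfix _)]
      · rw [← hG t ht, Algebra.adjoin_le_iff]
        intro x hx
        apply Algebra.subset_adjoin
        right
        refine ⟨Sum.inr ⟨t, x, hx⟩, ?_⟩
        have h1 : g (z (Sum.inl t)) = algebraMap B L (H t) ^ M := by
          change algebraMap B L (H t ^ M) = _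
          rw [map_pow]
        have h2 : g (z (Sum.inr ⟨t, x, hx⟩)) = algebraMap B L (bb ⟨t, x, hx⟩) := by
          change algebraMap B L ((if s t ≠ 0 then ⟨bb ⟨t, x, hx⟩, mem_fixedAlg.2 (hbσ _)⟩ else 0 :
            fixedAlg σ) : B) = _
          rw [if_pos ht]
        change g (z (Sum.inr ⟨t, x, hx⟩)) / g (z (Sum.inl t)) = x
        rw [h1, h2]
        exact (hbb ⟨t, x, hx⟩ ht).2.symm
    rcases ht with ht | hM
    · exact key t ht
    · by_cases ht : s t ≠ 0
      · exact key t ht
      · -- degenerate case: `M = 0`, all the charts are equal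
        obtain ⟨t', ht', -⟩ := hV ⊤ (fun b => trivial)
        obtain ⟨C, h1, h2, h3, h4⟩ := key t' ht'
        have e : g (z (Sum.inl t)) = g (z (Sum.inl t')) := by
          change algebraMap B L (H t ^ M) = algebraMap B L (H t' ^ M)
          rw [hM, pow_zero, pow_zero]
        rw [e]
        exact ⟨C, h1, h2, h3, h4⟩

end main

end Pool.Agent.H920R2
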