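import Pool.Agent.H920R2.Sig5
import Pool.Agent.H920R2.Gr5
import Pool.Agent.H920R2.Up2

set_option autoImplicit false
set_option linter.unusedSectionVars false

open AlgebraicGeometry CategoryTheory

universe u v

namespace Pool.Agent.H920R2

section atlas

variable {k B L : Type u} [Field k] [CommRing B] [IsDomain B] [Algebra k B] [Field L]
  [Algebra k L] (gB : B →ₐ[k] L) (hinj : Function.Injective gB) (σ : B ≃ₐ[k] B)
  (τ : L ≃ₐ[k] L) (hτ : ∀ b, τ (gB b) = gB (σ b)) (p : ℕ) (hp : p.Prime)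
  (hσ : ∀ b, σ^[p] b = b) (hτp : ∀ x, τ^[p] x = x)
  (hδ : ∀ b, (del σ)^[p] b = 0) (s : Finset B) (hs : Algebra.adjoin k (s : Set B) = ⊤)

/-- The index set of the charts. -/
def TSig : Type u := {t : s × Fin p // 1 ≤ (t.2 : ℕ) ∧ hB σ p t.1.1 t.2 ≠ 0}

instance : Finite (TSig σ p s) := by unfold TSig; infer_instance

/-- The ambient chart. -/
noncomputable def Rt (t : TSig σ p s) : Subalgebra k (LP L) :=
  loc (sR gB σ p) (hL gB σ p t.1.1.1 t.1.2)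
    (hL_mem gB σ τ hτ p t.1.1.1 t.1.2 hδ t.2.1 t.1.2.2)

/-- The chart. -/
noncomputable def Ct (t : TSig σ p s) : Subalgebra k (LP L) :=
  Rt gB σ τ hτ p hδ s t ⊓ fixedAlg (tl τ)

/-- The denominator. -/
noncomputable def Ht (t : TSig σ p s) : L :=
  gB (hB σ p t.1.1.1 t.1.2) ^ ((p - 1).factorial / (t.1.2 : ℕ))

variable (t : TSig σ p s)

include hinj in
lemma gBhB_ne : gB (hB σ p t.1.1.1 t.1.2) ≠ 0 := by
  intro h
  exact t.2.2 ((map_eq_zero_iff gB hinj).1 h)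

include hinj in
lemma Ht_ne : Ht gB σ p s t ≠ 0 := pow_ne_zero _ (gBhB_ne gB hinj σ p s t)

lemma idx_mul : ((p - 1).factorial / (t.1.2 : ℕ)) * (t.1.2 : ℕ) = (p - 1).factorial := by
  refine Nat.div_mul_cancel (Nat.dvd_factorial t.2.1 ?_)
  have := t.1.2.2
  omega

lemma idx_pos : 1 ≤ (p - 1).factorial / (t.1.2 : ℕ) := by
  have h := idx_mul σ p s t
  have h2 := Nat.factorial_pos (p - 1)
  rcases Nat.eq_zero_or_pos ((p - 1).factorial / (t.1.2 : ℕ)) with h1 | h1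
  · rw [h1, zero_mul] at h; omega
  · exact h1

lemma hL_pow_idx : hL gB σ p t.1.1.1 t.1.2 ^ ((p - 1).factorial / (t.1.2 : ℕ)) =
    hm ((((p - 1) + (p - 1) * p) * (p - 1).factorial : ℕ) : ℤ) (Ht gB σ p s t) := by
  unfold hL Ht
  rw [hm_pow]
  congr 1
  have h := idx_mul σ p s t
  conv_rhs => rw [← h]
  push_cast
  ring

include hτ hσ hp hδ in
lemma tl_hL (f : B) (a : ℕ) : tl τ (hL gB σ p f a) = hL gB σ p f a := by
  unfold hL
  rw [tl_hm, hτ, hB_fixed σ p f a hp.one_lt.le hδ hσ]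

include hinj in
lemma isUnit_hL : IsUnit (hL gB σ p t.1.1.1 t.1.2) := isUnit_hm (gBhB_ne gB hinj σ p s t)

include hσ hp in
lemma Rt_stable {x : LP L} (hx : x ∈ Rt gB σ τ hτ p hδ s t) :
    tl τ x ∈ Rt gB σ τ hτ p hδ s t ∧ Dl τ x ∈ Rt gB σ τ hτ p hδ s t := by
  obtain ⟨n, hn⟩ := hx
  have h0 := tl_hL gB σ τ hτ p hp hσ hδ t.1.1.1 t.1.2
  have h1 := sR_stable gB σ τ hτ p hδ hn
  constructor
  · refine ⟨n, ?_⟩
    have h2 := h1.1
    rw [map_mul, map_pow, h0] at h2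
    exact h2
  · refine ⟨n, ?_⟩
    have h2 := h1.2
    unfold Dl at h2 ⊢
    rw [map_mul, map_pow, h0] at h2
    have h3 : hL gB σ p t.1.1.1 t.1.2 ^ n * (hm 1 1 * (tl τ x - x)) =
        hm 1 1 * (hL gB σ p t.1.1.1 t.1.2 ^ n * tl τ x - hL gB σ p t.1.1.1 t.1.2 ^ n * x) := by
      ring
    rw [h3]
    exact h2

include hinj in
/-- A factor of the inverted element is invertible in the chart. -/
lemma factor_inv {x w : LP L} (hw : w ∈ sR gB σ p) (h : x * w = hL gB σ p t.1.1.1 t.1.2) :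
    ∃ y ∈ Rt gB σ τ hτ p hδ s t, x * y = 1 := by
  obtain ⟨z, hz⟩ := (isUnit_hL gB hinj σ p s t).exists_right_inv
  refine ⟨w * z, Subalgebra.mul_mem _ (le_loc _ _ _ hw) (inv_mem_loc _ _ _ _ hz), ?_⟩
  rw [← mul_assoc, h, hz]

include hτ hδ in
lemma thL_factor (m : ℕ) (h1 : 1 ≤ m) (hm : m < p) : ∃ w ∈ sR gB σ p,
    thL gB σ t.1.1.1 t.1.2 m * w = hL gB σ p t.1.1.1 t.1.2 := by
  classical
  have hz := zL_mem gB σ τ hτ p t.1.1.1 t.1.2 hδ t.2.1 t.1.2.2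
  have hp0 : 0 < p := by omega
  have hmem : m ∈ Finset.Ico 1 p := Finset.mem_Ico.2 ⟨h1, hm⟩
  have h0 : 0 ∈ Finset.range p := Finset.mem_range.2 hp0
  have hall : ∀ (m l : ℕ), (tl τ)^[l] (thL gB σ t.1.1.1 t.1.2 m) ∈ sR gB σ p := fun m l =>
    tl_iter_mem gB σ τ hτ p hδ (thL_mem gB σ τ hτ p t.1.1.1 t.1.2 hδ t.1.2.2 m) l
  refine ⟨zL gB σ p t.1.1.1 t.1.2 * ((∏ l ∈ (Finset.range p).erase 0,
    (tl τ)^[l] (thL gB σ t.1.1.1 t.1.2 m)) * ∏ m' ∈ (Finset.Ico 1 p).erase m,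
      ∏ l ∈ Finset.range p, (tl τ)^[l] (thL gB σ t.1.1.1 t.1.2 m')),
    Subalgebra.mul_mem _ hz (Subalgebra.mul_mem _ (Subalgebra.prod_mem _ fun l _ => hall m l)
      (Subalgebra.prod_mem _ fun m' _ => Subalgebra.prod_mem _ fun l _ => hall m' l)), ?_⟩
  rw [hL_eq gB σ τ hτ]
  have e1 := (Finset.mul_prod_erase (Finset.Ico 1 p) (fun m' => ∏ l ∈ Finset.range p,
    (tl τ)^[l] (thL gB σ t.1.1.1 t.1.2 m')) hmem).symm
  have e2 := (Finset.mul_prod_erase (Finset.range p) (fun l =>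
    (tl τ)^[l] (thL gB σ t.1.1.1 t.1.2 m)) h0).symm
  rw [e1, e2]
  simp only [Function.iterate_zero, id_eq]
  ring

include hτ hδ in
lemma zL_factor : ∃ w ∈ sR gB σ p,
    zL gB σ p t.1.1.1 t.1.2 * w = hL gB σ p t.1.1.1 t.1.2 := by
  refine ⟨∏ m ∈ Finset.Ico 1 p, ∏ l ∈ Finset.range p, (tl τ)^[l] (thL gB σ t.1.1.1 t.1.2 m),
    Subalgebra.prod_mem _ fun m' _ => Subalgebra.prod_mem _ fun l _ =>
      tl_iter_mem gB σ τ hτ p hδ (thL_mem gB σ τ hτ p t.1.1.1 t.1.2 hδ t.1.2.2 m') l, ?_⟩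
  rw [hL_eq gB σ τ hτ]

include hτ hδ in
lemma nL_factor (hp2 : 2 ≤ p) : ∃ w ∈ sR gB σ p,
    (∏ l ∈ Finset.range p, (tl τ)^[l] (yL gB σ t.1.1.1 t.1.2)) * w =
      hL gB σ p t.1.1.1 t.1.2 := by
  classical
  have hz := zL_mem gB σ τ hτ p t.1.1.1 t.1.2 hδ t.2.1 t.1.2.2
  have hmem : 1 ∈ Finset.Ico 1 p := Finset.mem_Ico.2 ⟨le_rfl, hp2⟩
  have hall : ∀ (m l : ℕ), (tl τ)^[l] (thL gB σ t.1.1.1 t.1.2 m) ∈ sR gB σ p := fun m l =>
    tl_iter_mem gB σ τ hτ p hδ (thL_mem gB σ τ hτ p t.1.1.1 t.1.2 hδ t.1.2.2 m) l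
  have hth1 : thL gB σ t.1.1.1 t.1.2 1 = yL gB σ t.1.1.1 t.1.2 := by
    unfold thL thB yL
    rw [Finset.sum_range_one]
    rfl
  refine ⟨zL gB σ p t.1.1.1 t.1.2 * ∏ m' ∈ (Finset.Ico 1 p).erase 1,
      ∏ l ∈ Finset.range p, (tl τ)^[l] (thL gB σ t.1.1.1 t.1.2 m'),
    Subalgebra.mul_mem _ hz
      (Subalgebra.prod_mem _ fun m' _ => Subalgebra.prod_mem _ fun l _ => hall m' l), ?_⟩
  rw [hL_eq gB σ τ hτ]
  have e1 := (Finset.mul_prod_erase (Finset.Ico 1 p) (fun m' => ∏ l ∈ Finset.range p,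
    (tl τ)^[l] (thL gB σ t.1.1.1 t.1.2 m')) hmem).symm
  rw [e1, hth1]
  ring

include hinj hp hσ hτp in
lemma Ct_smooth (hsm : Algebra.Smooth k (sR gB σ p)) :
    Algebra.Smooth k (Ct gB σ τ hτ p hδ s t) := by
  have hp2 := hp.two_le
  have hq : qL gB σ t.1.1.1 t.1.2 ∈ Rt gB σ τ hτ p hδ s t :=
    le_loc _ _ _ (qL_mem gB σ p t.1.1.1 t.1.2 t.1.2.2)
  have hth1 : thL gB σ t.1.1.1 t.1.2 1 = yL gB σ t.1.1.1 t.1.2 := by
    unfold thL thB yL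
    rw [Finset.sum_range_one]
    rfl
  have hinvth : ∀ m, 1 ≤ m → m < p → ∃ y ∈ Rt gB σ τ hτ p hδ s t,
      thL gB σ t.1.1.1 t.1.2 m * y = 1 := by
    intro m h1 hm
    obtain ⟨w, hw, h⟩ := thL_factor gB σ τ hτ p hδ s t m h1 hm
    exact factor_inv gB hinj σ τ hτ p hδ s t hw h
  have hy : yL gB σ t.1.1.1 t.1.2 ∈ Rt gB σ τ hτ p hδ s t :=
    le_loc _ _ _ (yL_mem gB σ p t.1.1.1 t.1.2 t.1.2.2)
  obtain ⟨yi, hyi, hyy⟩ := hinvth 1 le_rfl hp2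
  rw [hth1] at hyy
  have hq1 := tl_qL gB σ τ hτ t.1.1.1 t.1.2 t.2.1
  refine smooth_fixed_LP τ p hp.pos hτp (Rt gB σ τ hτ p hδ s t)
    (fun x hx => (Rt_stable gB σ τ hτ p hp hσ hδ s t hx).1) (qL gB σ t.1.1.1 t.1.2) hq ?_ ?_
    (smooth_loc hsm _ (isUnit_hL gB hinj σ p s t))
  · intro c hc
    refine ⟨Dl τ c * yi, Subalgebra.mul_mem _ (Rt_stable gB σ τ hτ p hp hσ hδ s t hc).2 hyi, ?_⟩
    rw [hq1, tl_eq_Dl]
    linear_combination (-hm (-1) 1 * Dl τ c) * hyy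
  · intro j hj hjp
    have hqj := tl_iter_qL gB σ τ hτ t.1.1.1 t.1.2 t.2.1 j
    obtain ⟨yj, hyj, hyyj⟩ := hinvth j hj hjp
    constructor
    · intro h
      rw [h, sub_self] at hqj
      have h1 : (hm (-1) 1 : LP L) ≠ 0 := hm_ne_zero one_ne_zero
      have h2 : thL gB σ t.1.1.1 t.1.2 j ≠ 0 := by
        intro h0
        rw [h0, zero_mul] at hyyj
        exact zero_ne_one hyyj
      exact mul_ne_zero h1 h2 hqj.symm
    · refine ⟨yL gB σ t.1.1.1 t.1.2 * yj, Subalgebra.mul_mem _ hy hyj, ?_⟩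
      rw [hq1, hqj]
      linear_combination (-hm (-1) 1 * yL gB σ t.1.1.1 t.1.2) * hyyj

end atlas

end Pool.Agent.H920R2
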