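import Pool.Agent.H920R2.Sig6

set_option autoImplicit false
set_option linter.unusedSectionVars false

open AlgebraicGeometry CategoryTheory

universe u v

namespace Pool.Agent.H920R2

section atlas

variable {k B L : Type u} [Field k] [CommRing B] [IsDomain B] [Algebra k B] [Field L]
  [Algebra k L] (gB : B →ₐ[k] L) (hinj : Function.Injective gB) (σ : B ≃ₐ[k] B)
  (τ : L ≃ₐ[k] L) (hτ : ∀ b, τ (gB b) = gB (σ b)) (p : ℕ) (hp : p.Prime) (hpk : (p : k) = 0)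
  (hσ : ∀ b, σ^[p] b = b) (hτp : ∀ x, τ^[p] x = x)
  (hδ : ∀ b, (del σ)^[p] b = 0) (s : Finset B) (hs : Algebra.adjoin k (s : Set B) = ⊤)
  (t : TSig σ p s)

include hinj hp hσ in
lemma Ct_un : ∃ r : ℕ, 0 < r ∧ r ≤ p - 1 ∧ ∃ u : L, u ≠ 0 ∧
    hm r u ∈ Ct gB σ τ hτ p hδ s t ∧ hm (-r) u⁻¹ ∈ Ct gB σ τ hτ p hδ s t := by
  have hp2 := hp.two_le
  have hap := t.1.2.2
  set f := t.1.1.1 with hf
  set a : ℕ := (t.1.2 : ℕ) with ha
  obtain ⟨w1, hw1, hw1'⟩ := zL_factor gB σ τ hτ p hδ s t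
  obtain ⟨w2, hw2, hw2'⟩ := nL_factor gB σ τ hτ p hδ s t hp2
  obtain ⟨y1, hy1, hy1'⟩ := factor_inv gB hinj σ τ hτ p hδ s t hw1 hw1'
  obtain ⟨y2, hy2, hy2'⟩ := factor_inv gB hinj σ τ hτ p hδ s t hw2 hw2'
  let ν : B := nrm σ p (eta σ f a)
  have hν : ∏ l ∈ Finset.range p, (tl τ)^[l] (yL gB σ f a) = hm ((p * a : ℕ) : ℤ) (gB ν) := by
    unfold yL
    simp_rw [tl_iter_hm, tau_iter gB σ τ hτ]
    rw [hm_prod]
    change hm _ _ = hm _ (gB (∏ i ∈ Finset.range p, σ^[i] (eta σ f a)))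
    rw [map_prod]
    congr 1
    rw [Finset.sum_const, Finset.card_range, nsmul_eq_mul]
    push_cast
    ring
  have hζ : zL gB σ p f a = hm (((p - 1) * a : ℕ) : ℤ) (gB (zeB σ p f a)) := rfl
  rw [← hf, ← ha] at hy1' hy2'
  rw [hν] at hy2'
  rw [hζ] at hy1'
  have hz0 : gB (zeB σ p f a) ≠ 0 := by
    intro h
    rw [h, hm_zero, zero_mul] at hy1'
    exact zero_ne_one hy1'
  have hn0 : gB ν ≠ 0 := by
    intro h
    rw [h, hm_zero, zero_mul] at hy2'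
    exact zero_ne_one hy2'
  have hy1e : y1 = hm (-(((p - 1) * a : ℕ) : ℤ)) (gB (zeB σ p f a))⁻¹ := by
    have h1 : hm (((p - 1) * a : ℕ) : ℤ) (gB (zeB σ p f a)) *
        hm (-(((p - 1) * a : ℕ) : ℤ)) (gB (zeB σ p f a))⁻¹ = 1 := by
      rw [hm_mul, add_neg_cancel, mul_inv_cancel₀ hz0, hm_one]
    have h2 := hy1'.trans h1.symm
    exact mul_left_cancel₀ (hm_ne_zero hz0) h2
  have hy2e : y2 = hm (-((p * a : ℕ) : ℤ)) (gB ν)⁻¹ := by
    have h1 : hm ((p * a : ℕ) : ℤ) (gB ν) *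
        hm (-((p * a : ℕ) : ℤ)) (gB ν)⁻¹ = 1 := by
      rw [hm_mul, add_neg_cancel, mul_inv_cancel₀ hn0, hm_one]
    have h2 := hy2'.trans h1.symm
    exact mul_left_cancel₀ (hm_ne_zero hn0) h2
  have hζσ := zeB_fixed σ p f a hp.one_lt.le hδ
  have hνσ : σ ν = ν := map_nrm σ p hσ _
  have hτζ : τ (gB (zeB σ p f a)) = gB (zeB σ p f a) := by rw [hτ, hζσ]
  have hτν : τ (gB ν) = gB ν := by rw [hτ, hνσ]
  have hzR : hm (((p - 1) * a : ℕ) : ℤ) (gB (zeB σ p f a)) ∈ Rt gB σ τ hτ p hδ s t := by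
    have := zL_mem gB σ τ hτ p f a hδ t.2.1 t.1.2.2
    exact le_loc _ _ _ this
  have hnR : hm ((p * a : ℕ) : ℤ) (gB ν) ∈ Rt gB σ τ hτ p hδ s t := by
    rw [← hν]
    refine le_loc _ _ _ (Subalgebra.prod_mem _ fun l _ => ?_)
    exact tl_iter_mem gB σ τ hτ p hδ (yL_mem gB σ p f a t.1.2.2) l
  have hcast : ((p - 1 : ℕ) : ℤ) = (p : ℤ) - 1 := by
    rw [Nat.cast_sub hp.one_lt.le, Nat.cast_one]
  refine ⟨a, t.2.1, by omega, gB ν / gB (zeB σ p f a), div_ne_zero hn0 hz0, ⟨?_, ?_⟩, ⟨?_, ?_⟩⟩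
  · have h := Subalgebra.mul_mem _ hnR hy1
    rw [hy1e, hm_mul, ← div_eq_mul_inv] at h
    have e : ((p * a : ℕ) : ℤ) + -(((p - 1) * a : ℕ) : ℤ) = (a : ℤ) := by
      push_cast
      rw [hcast]
      ring
    rwa [e] at h
  · change _ ∈ fixedAlg (tl τ)
    rw [mem_fixedAlg, tl_hm, map_div₀, hτζ, hτν]
  · have h := Subalgebra.mul_mem _ hzR hy2
    rw [hy2e, hm_mul, ← div_eq_mul_inv] at h
    have e : (((p - 1) * a : ℕ) : ℤ) + -((p * a : ℕ) : ℤ) = -(a : ℤ) := by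
      push_cast
      rw [hcast]
      ring
    rw [e] at h
    rw [inv_div]
    exact h
  · change _ ∈ fixedAlg (tl τ)
    rw [mem_fixedAlg, tl_hm, map_inv₀, map_div₀, hτζ, hτν]

/-- The embedding of the ring of invariants. -/
noncomputable def gA : fixedAlg σ →ₐ[k] L := gB.comp (fixedAlg σ).val

include hτ hσ hp hδ in
lemma tau_Ht : τ (Ht gB σ p s t) = Ht gB σ p s t := by
  unfold Ht
  rw [map_pow, hτ, hB_fixed σ p _ _ hp.one_lt.le hδ hσ]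

include hinj hp hσ hτp hpk hs in
/-- The atlas of the quotient. -/
theorem atlas_sig (hne : ∃ b ∈ s, del σ b ≠ 0) (hsm : Algebra.Smooth k (sR gB σ p)) :
    Atlas (gA gB σ) (p - 1) (Ct gB σ τ hτ p hδ s) (Ht gB σ p s) := by
  have hp2 := hp.two_le
  have hHfix : ∀ t t', τ (Ht gB σ p s t' / Ht gB σ p s t) =
      Ht gB σ p s t' / Ht gB σ p s t := by
    intro t t'
    rw [map_div₀, tau_Ht gB σ τ hτ p hp hσ hδ s, tau_Ht gB σ τ hτ p hp hσ hδ s]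
  have hκ : ∀ t, hL gB σ p t.1.1.1 t.1.2 ^ ((p - 1).factorial / (t.1.2 : ℕ)) =
    hm ((((p - 1) + (p - 1) * p) * (p - 1).factorial : ℕ) : ℤ) (Ht gB σ p s t) :=
      hL_pow_idx gB σ p s
  have hHne := Ht_ne gB hinj σ p s
  -- transition
  have htr : ∀ t t' : TSig σ p s, hL gB σ p t.1.1.1 t.1.2 ^ ((p - 1).factorial / (t.1.2 : ℕ)) *
      hm 0 (Ht gB σ p s t' / Ht gB σ p s t) =
        hL gB σ p t'.1.1.1 t'.1.2 ^ ((p - 1).factorial / (t'.1.2 : ℕ)) := by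
    intro t t'
    rw [hκ, hκ, hm_mul, add_zero, mul_div_cancel₀ _ (hHne t)]
  refine ⟨hHne, ?_, ?_, ?_, ?_, ?_, ?_, ?_, ?_, ?_, ?_⟩
  · intro t
    refine ⟨⟨hB σ p t.1.1.1 t.1.2 ^ ((p - 1).factorial / (t.1.2 : ℕ)), ?_⟩, ?_⟩
    · rw [mem_fixedAlg, map_pow, hB_fixed σ p _ _ hp.one_lt.le hδ hσ]
    · change _ = gB (hB σ p t.1.1.1 t.1.2 ^ ((p - 1).factorial / (t.1.2 : ℕ)))
      rw [map_pow]
      rfl
  · intro t
    exact Ct_smooth gB hinj σ τ hτ p hp hσ hτp hδ s t hsm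
  · intro t
    exact gr_inf (gr_loc (gr_sR gB σ p) (gBhB_ne gB hinj σ p s t) _) (gr_fixed τ)
  · intro t
    refine ⟨le_loc _ _ _ (sR_T gB σ p), ?_⟩
    change _ ∈ fixedAlg (tl τ)
    rw [mem_fixedAlg, tl_hm, map_one]
  · intro t
    exact Ct_un gB hinj σ τ hτ p hp hσ hδ s t
  · intro t x
    refine ⟨le_loc _ _ _ ?_, ?_⟩
    · have h := sR_del gB σ p hp.pos x.1
      exact h
    · change _ ∈ fixedAlg (tl τ)
      rw [mem_fixedAlg, tl_hm]
      change hm 0 (τ (gB x.1)) = hm 0 (gB x.1)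
      rw [hτ, mem_fixedAlg.1 x.2]
  · intro t t'
    refine ⟨⟨(p - 1).factorial / (t.1.2 : ℕ), ?_⟩, ?_⟩
    · rw [htr]
      exact Subalgebra.pow_mem _ (hL_mem gB σ τ hτ p _ _ hδ t'.2.1 t'.1.2.2) _
    · change _ ∈ fixedAlg (tl τ)
      rw [mem_fixedAlg, tl_hm, hHfix]
  · rintro t t' f ⟨⟨m, hm'⟩, hf⟩
    change _ ∈ fixedAlg (tl τ) at hf
    rw [mem_fixedAlg] at hf
    refine ⟨m, ⟨(p - 1).factorial / (t.1.2 : ℕ) * m, ?_⟩, ?_⟩
    · obtain ⟨e, he⟩ := Nat.exists_eq_add_of_le (idx_pos σ p s t')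
      have h1 : hL gB σ p t.1.1.1 t.1.2 ^ ((p - 1).factorial / (t.1.2 : ℕ) * m) *
          (hm 0 (Ht gB σ p s t' / Ht gB σ p s t) ^ m * f) =
          hL gB σ p t'.1.1.1 t'.1.2 ^ (e * m) * (hL gB σ p t'.1.1.1 t'.1.2 ^ m * f) := by
        rw [pow_mul, ← mul_assoc, ← mul_pow, htr, he, pow_add, pow_one, mul_pow, ← pow_mul]
        ring
      rw [h1]
      exact Subalgebra.mul_mem _ (Subalgebra.pow_mem _
        (hL_mem gB σ τ hτ p _ _ hδ t'.2.1 t'.1.2.2) _) hm'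
    · change _ ∈ fixedAlg (tl τ)
      rw [mem_fixedAlg, map_mul, map_pow, tl_hm, hHfix, hf]
  · rintro t x ⟨⟨m, hm'⟩, hx⟩
    change _ ∈ fixedAlg (tl τ) at hx
    rw [mem_fixedAlg, tl_hm] at hx
    have hx' := hm_inj hx
    have h1 : hL gB σ p t.1.1.1 t.1.2 ^ m * hm 0 x =
        hm (m * ((((p - 1) + (p - 1) * p) * (t.1.2 : ℕ) : ℕ) : ℤ))
          (gB (hB σ p t.1.1.1 t.1.2) ^ m * x) := by
      unfold hL
      rw [hm_pow, hm_mul, add_zero]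
    rw [h1] at hm'
    obtain ⟨b, hb⟩ := sR_coeff gB σ p hm' (m * ((((p - 1) + (p - 1) * p) * (t.1.2 : ℕ) : ℕ) : ℤ))
    rw [coeff_hm_same] at hb
    obtain ⟨e, he⟩ := Nat.exists_eq_add_of_le (idx_pos σ p s t)
    have h2 : Ht gB σ p s t ^ m * x = gB (hB σ p t.1.1.1 t.1.2 ^ (e * m) * b) := by
      rw [map_mul, map_pow, ← hb]
      unfold Ht
      rw [he, pow_add, pow_one, mul_pow, ← pow_mul]
      ring
    refine ⟨m, ⟨hB σ p t.1.1.1 t.1.2 ^ (e * m) * b, ?_⟩, h2⟩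
    rw [mem_fixedAlg]
    apply hinj
    rw [← hτ, ← h2, map_mul, map_pow, tau_Ht gB σ τ hτ p hp hσ hδ s, hx']
  · intro V hVA
    have hint := isIntegral_fixedAlg σ p hp.pos hσ
    have hVB : ∀ b, gB b ∈ V := by
      intro b
      obtain ⟨P, hP, hP0⟩ := hint.isIntegral b
      have hb : IsIntegral V (gB b) := by
        let φ : fixedAlg σ →+* V := (gA gB σ).toRingHom.codRestrict V.toSubring hVA
        refine ⟨P.map φ, hP.map φ, ?_⟩
        rw [Polynomial.eval₂_map]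
        have h1 := congrArg gB hP0
        rw [map_zero, ← AlgHom.coe_toRingHom, Polynomial.hom_eval₂] at h1
        exact h1
      obtain ⟨y, hy⟩ := (IsIntegrallyClosedIn.algebraMap_eq_of_integral (R := V) (A := L) hb)
      rw [← hy]
      exact y.2
    obtain ⟨f, a, hf, ha, hap, hη, hle, hlt⟩ := exists_chart gB hinj σ p hp s V hVB hne
    have hpos := eta_pos gB hinj σ V f a hη
    have hval := val_hB gB hinj σ τ hτ p hp hδ s hs V hVB f a ha hap hη hle hlt hpk hf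
    have hB0 : hB σ p f a ≠ 0 := by
      intro h
      rw [h, map_zero, map_zero] at hval
      exact (pow_pos hpos _).ne hval
    let t : TSig σ p s := ⟨(⟨f, hf⟩, ⟨a, hap⟩), ha, hB0⟩
    refine ⟨t, ?_⟩
    rintro x ⟨⟨m, hm'⟩, -⟩
    have h1 : hL gB σ p t.1.1.1 t.1.2 ^ m * hm 0 x =
        hm (m * ((((p - 1) + (p - 1) * p) * (t.1.2 : ℕ) : ℕ) : ℤ))
          (gB (hB σ p t.1.1.1 t.1.2) ^ m * x) := by
      unfold hL
      rw [hm_pow, hm_mul, add_zero]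
    rw [h1] at hm'
    have h2 := val_sR gB hinj σ p hδ s hs V hVB f a ha hη hle hm'
      (m * ((((p - 1) + (p - 1) * p) * (t.1.2 : ℕ) : ℕ) : ℤ))
    rw [coeff_hm_same] at h2
    change V.valuation (gB (hB σ p f a) ^ m * x) ^ a ≤ V.valuation (gB (eta σ f a)) ^
      (m * ((((p - 1) + (p - 1) * p) * a : ℕ) : ℤ)) at h2
    rw [map_mul, map_pow, hval] at h2
    have h3 : V.valuation (gB (eta σ f a)) ^ (m * ((((p - 1) + (p - 1) * p) * a : ℕ) : ℤ)) =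
        ((V.valuation (gB (eta σ f a)) ^ ((p - 1) + (p - 1) * p)) ^ m) ^ a := by
      rw [← pow_mul, ← pow_mul, ← zpow_natCast]
      congr 1
      push_cast
      ring
    rw [h3, mul_pow] at h2
    have hQ : 0 < ((V.valuation (gB (eta σ f a)) ^ ((p - 1) + (p - 1) * p)) ^ m) ^ a :=
      pow_pos (pow_pos (pow_pos hpos _) _) _
    have h4 : V.valuation x ^ a ≤ 1 := by
      by_contra hcon
      rw [not_le] at hcon
      have := mul_lt_mul_of_pos_left hcon hQ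
      rw [mul_one] at this
      exact absurd h2 (not_le.2 this)
    rw [← V.valuation_le_one_iff]
    by_contra hcon
    rw [not_le] at hcon
    exact absurd h4 (not_le.2 (one_lt_pow₀ hcon (by omega)))

end atlas

end Pool.Agent.H920R2
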