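import Pool.Agent.H920R2.Sig7
import Pool.Agent.H920R2.Trans

set_option autoImplicit false
set_option linter.unusedSectionVars false

open AlgebraicGeometry CategoryTheory

universe u v

namespace Pool.Agent.H920R2

section main

variable {k B : Type u} [Field k] [CommRing B] [IsDomain B] [Algebra k B] (σ : B ≃ₐ[k] B) (p : ℕ)

/-- The Rees algebra of the filtration of `B` generated by the elements `(σ - 1) ^ a b` in degree
`a`, for `a < p`. -/
noncomputable def reesSig : Subalgebra k (LP (FractionRing B)) :=
  sR (IsScalarTower.toAlgHom k B (FractionRing B)) σ p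

/-- If the Rees algebra is smooth, so is the ring. -/
lemma smooth_of_reesSig [Algebra.FiniteType k B] (hp : 0 < p)
    (hsm : Algebra.Smooth k (reesSig σ p)) :
    Algebra.Smooth k B := by
  let L := FractionRing B
  let gB : B →ₐ[k] L := IsScalarTower.toAlgHom k B L
  have hinj : Function.Injective gB := IsFractionRing.injective B L
  let i : B →ₐ[k] reesSig σ p :=
    ((zer k L).comp gB).codRestrict (reesSig σ p) fun b => sR_del gB σ p hp b
  let e : LP L →ₐ[k] L := ev1 k (1 : Lˣ)
  have he : ∀ d a, e (hm d a) = a := by
    intro d a
    change ev1 k 1 (hm d a) = a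
    rw [ev1_hm, Units.val_one, one_zpow, mul_one]
  have hr : ∀ x : reesSig σ p, e x ∈ gB.range := by
    intro x
    have h1 : reesSig σ p ≤ gB.range.comap e := by
      unfold reesSig sR
      rw [Algebra.adjoin_le_iff]
      rintro f (hf | ⟨a, b, -, rfl⟩)
      · rw [hf]
        change e _ ∈ gB.range
        rw [he]
        exact Subalgebra.one_mem _
      · change e _ ∈ gB.range
        rw [he]
        exact ⟨_, rfl⟩
    exact h1 x.2
  let r : reesSig σ p →ₐ[k] B :=
    ((AlgEquiv.ofInjective gB hinj).symm : gB.range →ₐ[k] B).comp
      ((e.comp (reesSig σ p).val).codRestrict gB.range hr)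
  have hri : ∀ b, r (i b) = b := by
    intro b
    change (AlgEquiv.ofInjective gB hinj).symm ⟨e (hm 0 (gB b)), _⟩ = b
    rw [AlgEquiv.symm_apply_eq]
    apply Subtype.ext
    rw [AlgEquiv.ofInjective_apply]
    exact he _ _
  have hfs : Algebra.FormallySmooth k (reesSig σ p) := hsm.formallySmooth
  have h1 : Algebra.FormallySmooth k B := formallySmooth_retract i r hri
  exact ⟨h1, Algebra.FinitePresentation.of_finiteType.1 inferInstance⟩

/-- **Resolution of quotients by groups of order `p` in characteristic `p`.** If the Rees algebra
of the filtration of a finitely generated domain defined by an automorphism of order `p` is smooth,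
then the spectrum of the ring of invariants has a resolution of singularities. -/
theorem hasResolution_reesSig [Algebra.FiniteType k B] (hp : p.Prime) (hpk : (p : k) = 0)
    (hσ : ∀ b, σ^[p] b = b) (hsm : Algebra.Smooth k (reesSig σ p)) :
    HasResolution (X := Spec (CommRingCat.of (fixedAlg σ)))
      (Spec.map (CommRingCat.ofHom (algebraMap k (fixedAlg σ)))) := by
  classical
  obtain ⟨s, hs⟩ : ∃ s : Finset B, Algebra.adjoin k (s : Set B) = ⊤ :=
    (inferInstance : Algebra.FiniteType k B).1
  by_cases hne : ∃ b ∈ s, del σ b ≠ 0
  · let L := FractionRing B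
    let gB : B →ₐ[k] L := IsScalarTower.toAlgHom k B L
    have hinj : Function.Injective gB := IsFractionRing.injective B L
    let τ : L ≃ₐ[k] L := IsFractionRing.fieldEquivOfAlgEquiv k L L σ
    have hτ : ∀ b, τ (gB b) = gB (σ b) := fun b =>
      IsFractionRing.fieldEquivOfAlgEquiv_algebraMap k L L σ b
    have hτp : ∀ x, τ^[p] x = x := by
      intro x
      obtain ⟨a, c, -, rfl⟩ := IsFractionRing.div_surjective (A := B) x
      have h3 : ∀ (m : ℕ) (y z : L), τ^[m] (y / z) = τ^[m] y / τ^[m] z := by
        intro m
        induction m with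
        | zero => intro y z; rfl
        | succ m ih => intro y z; rw [Function.iterate_succ_apply, map_div₀, ih,
            Function.iterate_succ_apply, Function.iterate_succ_apply]
      have h4 : ∀ y : B, τ^[p] (algebraMap B L y) = algebraMap B L y := by
        intro y
        have h5 := tau_iter gB σ τ hτ p y
        rw [hσ] at h5
        exact h5
      rw [h3, h4, h4]
    have hδ := del_iter_p σ p hp hpk hσ
    have hat := atlas_sig gB hinj σ τ hτ p hp hpk hσ hτp hδ s hs hne hsm
    have hchar : CharP k p := (CharP.charP_iff_prime_eq_zero hp).2 hpk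
    refine hasResolution_of_atlas' (g := gA gB σ) ?_ (p - 1) ?_ hat
    · exact hinj.comp Subtype.val_injective
    · intro r hr hrp h
      have h1 := (CharP.cast_eq_zero_iff k p r).1 h
      have := Nat.le_of_dvd hr h1
      have := hp.two_le
      omega
  · push Not at hne
    have h1 : fixedAlg σ = ⊤ := by
      rw [eq_top_iff, ← hs, Algebra.adjoin_le_iff]
      intro b hb
      change b ∈ fixedAlg σ
      rw [mem_fixedAlg]
      exact sub_eq_zero.1 (hne b hb)
    have hB := smooth_of_reesSig σ p hp.pos hsm
    rw [h1]
    exact hasResolution_congr (Subalgebra.topEquiv (R := k) (A := B)).symm hasResolution_of_smooth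

end main

end Pool.Agent.H920R2
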