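import Pool.Agent.H920R2.Sig8
import Pool.Agent.H920R2.Jord

set_option autoImplicit false
set_option linter.unusedSectionVars false

open MvPolynomial AlgebraicGeometry CategoryTheory

universe u v

namespace Pool.Agent.H920R2

section chain

open Module Submodule

variable {k : Type u} {W : Type v} [Field k] [AddCommGroup W] [Module k W]
  [FiniteDimensional k W]

/-- A basis which is adapted to a decreasing filtration. -/
lemma adapted_basis (F : ℕ → Submodule k W) (hF : ∀ a, F (a + 1) ≤ F a) (p : ℕ)
    (h0 : F 0 = ⊤) (hp : F p = ⊥) :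
    ∃ (α : Type) (_ : Finite α) (β : Basis α k W) (w : α → ℕ), (∀ i, w i < p ∧ β i ∈ F (w i)) ∧
      ∀ a, a ≤ p → F a ≤ span k {x | ∃ i, a ≤ w i ∧ x = β i} := by
  have key : ∀ j, j ≤ p → ∃ (α : Type) (_ : Finite α) (v : α → W) (w : α → ℕ),
      LinearIndependent k v ∧ span k (Set.range v) = F (p - j) ∧
      (∀ i, p - j ≤ w i ∧ w i < p ∧ v i ∈ F (w i)) ∧
      ∀ a, p - j ≤ a → a ≤ p → F a ≤ span k {x | ∃ i, a ≤ w i ∧ x = v i} := by
    intro j
    induction j with
    | zero =>
      intro _
      refine ⟨Fin 0, inferInstance, Fin.elim0, Fin.elim0, linearIndependent_empty_type, ?_,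
        fun i => i.elim0, ?_⟩
      · rw [Nat.sub_zero, hp, Set.range_eq_empty, span_empty]
      · intro a h1 h2
        have : a = p := by omega
        rw [this, hp]
        exact bot_le
    | succ j ih =>
      intro hj
      obtain ⟨α, hα, v, w, hv, hspan, hw, hall⟩ := ih (by omega)
      have e : p - j = p - (j + 1) + 1 := by omega
      have hle : span k (Set.range v) ≤ F (p - (j + 1)) := by
        rw [hspan, e]; exact hF _
      obtain ⟨m, u, hu, huspan⟩ := extend_family v hv (F (p - (j + 1))) hle
      have hwt : ∀ i, p - (j + 1) ≤ (Sum.elim w fun _ : Fin m => p - (j + 1)) i := by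
        rintro (i | i)
        · have := (hw i).1
          change p - (j + 1) ≤ w i
          omega
        · exact le_rfl
      refine ⟨α ⊕ Fin m, inferInstance, Sum.elim v u, Sum.elim w fun _ => p - (j + 1), hu,
        huspan, ?_, ?_⟩
      · intro i
        refine ⟨hwt i, ?_⟩
        rcases i with i | i
        · exact (hw i).2
        · refine ⟨?_, ?_⟩
          · change p - (j + 1) < p
            omega
          · change u i ∈ F (p - (j + 1))
            rw [← huspan]
            exact subset_span ⟨Sum.inr i, rfl⟩
      · intro a h1 h2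
        by_cases h3 : a = p - (j + 1)
        · subst h3
          rw [← huspan]
          refine span_mono ?_
          rintro _ ⟨i, rfl⟩
          exact ⟨i, hwt i, rfl⟩
        · refine (hall a (by omega) h2).trans (span_mono ?_)
          rintro _ ⟨i, hi, rfl⟩
          exact ⟨Sum.inl i, hi, rfl⟩
  obtain ⟨α, hα, v, w, hv, hspan, hw, hall⟩ := key p le_rfl
  rw [Nat.sub_self, h0] at hspan
  refine ⟨α, hα, Basis.mk hv hspan.ge, w, ?_, ?_⟩
  · intro i
    rw [Basis.mk_apply]
    exact (hw i).2
  · intro a ha
    have h := hall a (by omega) ha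
    refine h.trans (span_mono ?_)
    rintro _ ⟨i, hi, rfl⟩
    exact ⟨i, hi, by rw [Basis.mk_apply]⟩

end chain

section indep

variable {k L : Type u} [Field k] [Field L] [Algebra k L] {α : Type}

/-- The polynomial presentation of a weighted Rees algebra. -/
noncomputable def wmap (y : α → L) (w : α → ℕ) : MvPolynomial (Option α) k →ₐ[k] LP L :=
  aeval fun o : Option α => o.elim (hm (-1) 1) fun i => hm (w i) (y i)

lemma wmap_none (y : α → L) (w : α → ℕ) : wmap (k := k) y w (X none) = hm (-1) 1 := by
  unfold wmap; rw [aeval_X]; rfl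

lemma wmap_some (y : α → L) (w : α → ℕ) (i : α) :
    wmap (k := k) y w (X (some i)) = hm (w i) (y i) := by
  unfold wmap; rw [aeval_X]; rfl

lemma wmap_monomial [Fintype α] (y : α → L) (w : α → ℕ) (m : Option α →₀ ℕ) :
    wmap (k := k) y w (monomial m 1) =
      hm ((∑ i, (m (some i) : ℤ) * w i) - m none) (∏ i, y i ^ m (some i)) := by
  unfold wmap
  rw [aeval_monomial, map_one, one_mul, Finsupp.prod_fintype _ _ (fun i => pow_zero _),
    Fintype.prod_option]
  change hm (-1) 1 ^ m none * ∏ i, hm (w i) (y i) ^ m (some i) = _
  simp_rw [hm_pow]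
  rw [hm_prod, hm_mul, one_pow, one_mul]
  congr 1
  ring

/-- The elements defining a weighted Rees algebra are algebraically independent. -/
lemma wmap_injective [Fintype α] (y : α → L) (w : α → ℕ) (hy : AlgebraicIndependent k y) :
    Function.Injective (wmap (k := k) y w) := by
  classical
  have h1 : LinearIndependent k fun m : α →₀ ℕ => ∏ i, y i ^ m i := by
    have h2 : LinearIndependent k ((aeval y : MvPolynomial α k →ₐ[k] L).toLinearMap ∘
        (basisMonomials α k)) := by
      refine (basisMonomials α k).linearIndependent.map' _ (LinearMap.ker_eq_bot.2 ?_)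
      exact hy
    convert! h2 with m
    rw [Function.comp_apply, coe_basisMonomials, AlgHom.toLinearMap_apply, aeval_monomial,
      map_one, one_mul, Finsupp.prod_fintype _ _ (fun i => pow_zero _)]
  have h3 : LinearIndependent k fun ix : Σ _ : ℤ, (α →₀ ℕ) =>
      (Finsupp.single ix.1 (∏ i, y i ^ ix.2 i) : ℤ →₀ L) :=
    Finsupp.linearIndependent_single (fun (_ : ℤ) (m : α →₀ ℕ) => ∏ i, y i ^ m i) fun _ => h1
  let J : (Option α →₀ ℕ) → Σ _ : ℤ, (α →₀ ℕ) := fun m =>
    ⟨(∑ i, (m (some i) : ℤ) * w i) - m none, m.some⟩
  have hJ : Function.Injective J := by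
    intro m m' h
    have e1 := congrArg Sigma.fst h
    have e2 : m.some = m'.some := by
      have := Sigma.mk.inj_iff.1 h
      exact eq_of_heq this.2
    have e3 : ∀ i, m (some i) = m' (some i) := fun i => by
      rw [← Finsupp.some_apply, ← Finsupp.some_apply, e2]
    change (∑ i, (m (some i) : ℤ) * w i) - m none = (∑ i, (m' (some i) : ℤ) * w i) - m' none
      at e1
    simp_rw [e3] at e1
    ext o
    rcases o with _ | i
    · have : (m none : ℤ) = m' none := by linarith
      exact_mod_cast this
    · exact e3 i
  have h4 := h3.comp J hJ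
  have h5 : LinearIndependent k ((wmap (k := k) y w).toLinearMap ∘
      (basisMonomials (Option α) k)) := by
    let E := AddMonoidAlgebra.coeffLinearEquiv (M := ℤ) (S := L) k
    refine LinearIndependent.of_comp E.toLinearMap ?_
    have h8 : (E.toLinearMap : LP L → _) ∘ ((wmap (k := k) y w).toLinearMap ∘
        (basisMonomials (Option α) k)) = (fun ix : Σ _ : ℤ, (α →₀ ℕ) =>
      (Finsupp.single ix.1 (∏ i, y i ^ ix.2 i) : ℤ →₀ L)) ∘ J := by
      funext m
      rw [Function.comp_apply, Function.comp_apply, coe_basisMonomials,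
        AlgHom.toLinearMap_apply, wmap_monomial]
      rfl
    rw [h8]
    exact h4
  have h6 : (wmap (k := k) y w).toLinearMap = Finsupp.linearCombination k
      ((wmap (k := k) y w).toLinearMap ∘ (basisMonomials (Option α) k)) ∘ₗ
      (basisMonomials (Option α) k).repr.toLinearMap := by
    refine (basisMonomials (Option α) k).ext fun m => ?_
    rw [LinearMap.comp_apply, LinearEquiv.coe_coe, Module.Basis.repr_self,
      Finsupp.linearCombination_single, one_smul]
    rfl
  have h7 : Function.Injective (wmap (k := k) y w).toLinearMap := by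
    rw [h6, LinearMap.coe_comp]
    exact Function.Injective.comp h5 (basisMonomials (Option α) k).repr.injective
  exact h7

lemma smooth_wmap [Finite α] (y : α → L) (w : α → ℕ) (hy : AlgebraicIndependent k y) :
    Algebra.Smooth k (wmap (k := k) y w).range := by
  have : Fintype α := Fintype.ofFinite α
  have e := AlgEquiv.ofInjective _ (wmap_injective (k := k) y w hy)
  have hsm : Algebra.Smooth k (MvPolynomial (Option α) k) := by
    constructor
    · infer_instance
    · infer_instance
  exact Algebra.Smooth.of_equiv e

end indep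

end Pool.Agent.H920R2
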