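import Pool.Agent.H920R2.Cu6
import Pool.Agent.H920R2.Zp4
import Pool.Agent.H920R2.Trans

set_option autoImplicit false
set_option linter.unusedSectionVars false

open MvPolynomial AlgebraicGeometry CategoryTheory

universe u v

namespace Pool.Agent.H920R2

/-- A filtration of a `k`-algebra `B` by ideals `F d` which defines a regular weighted centre:
near the subscheme defined by `F 1` there are étale coordinates `x i` with weights `w i`, such that
`F d` is generated by the monomials of weight at least `d`. -/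
structure RegularWeightedCentre (k : Type u) {B : Type u} [Field k] [CommRing B] [Algebra k B]
    (F : ℕ → Ideal B) : Prop where
  zero : F 0 = ⊤
  anti : ∀ a b, a ≤ b → F b ≤ F a
  mul : ∀ a b, F a * F b ≤ F (a + b)
  coord : ∀ P : Ideal B, P.IsPrime → F 1 ≤ P →
    ∃ (f : B) (n : ℕ) (x : Fin n → B) (w : Fin n → ℕ), f ∉ P ∧
      ((aeval (fun i => algebraMap B (Localization.Away f) (x i)) :
        MvPolynomial (Fin n) k →ₐ[k] Localization.Away f) :
        MvPolynomial (Fin n) k →+* Localization.Away f).Etale ∧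
      ∀ d, (F d).map (algebraMap B (Localization.Away f)) =
        Ideal.span {y | ∃ α : Fin n → ℕ, d ≤ ∑ i, α i * w i ∧
          y = ∏ i, algebraMap B (Localization.Away f) (x i) ^ α i}

section rees

variable {k B L : Type u} [Field k] [CommRing B] [Algebra k B] [Field L] [Algebra k L]
  (gB : B →ₐ[k] L) (hinj : Function.Injective gB) {F : ℕ → Ideal B}
  (hF : RegularWeightedCentre k F)

/-- The Rees algebra of a filtration. -/
def reesF (hF : RegularWeightedCentre k F) : Subalgebra k (LP L) where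
  carrier := {f | ∀ d : ℤ, ∃ b ∈ F d.toNat, gB b = f.coeff d}
  mul_mem' := by
    intro f g hf hg d
    rw [eq_sum_hm f, Finset.sum_mul, AddMonoidAlgebra.coeff_sum, Finsupp.finsetSum_apply]
    have h1 : ∀ a : ℤ, ∃ b ∈ F d.toNat, gB b = (hm a (f.coeff a) * g).coeff d := by
      intro a
      obtain ⟨b, hb, hb'⟩ := hf a
      obtain ⟨c, hc, hc'⟩ := hg (d - a)
      refine ⟨b * c, ?_, by rw [coeff_hm_mul, map_mul, hb', hc']⟩
      exact hF.anti _ _ (by omega) (hF.mul _ _ (Ideal.mul_mem_mul hb hc))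
    choose b hb hb' using h1
    refine ⟨∑ a ∈ f.coeff.support, b a, Ideal.sum_mem _ fun a _ => hb a, ?_⟩
    rw [map_sum]
    exact Finset.sum_congr rfl fun a _ => hb' a
  add_mem' := by
    intro f g hf hg d
    obtain ⟨b, hb, hb'⟩ := hf d
    obtain ⟨c, hc, hc'⟩ := hg d
    exact ⟨b + c, Ideal.add_mem _ hb hc, by
      rw [AddMonoidAlgebra.coeff_add, Finsupp.add_apply, map_add, hb', hc']⟩
  algebraMap_mem' := by
    intro r d
    rw [algebraMap_LP, coeff_hm]
    split_ifs with h
    · subst h
      refine ⟨algebraMap k B r, ?_, AlgHom.commutes _ _⟩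
      change _ ∈ F 0
      rw [hF.zero]
      trivial
    · exact ⟨0, Ideal.zero_mem _, map_zero _⟩

lemma mem_reesF {f : LP L} : f ∈ reesF gB hF ↔ ∀ d : ℤ, ∃ b ∈ F d.toNat, gB b = f.coeff d :=
  Iff.rfl

lemma hm_mem_reesF {d : ℤ} {b : B} (hb : b ∈ F d.toNat) : hm d (gB b) ∈ reesF gB hF := by
  intro e
  rw [coeff_hm]
  split_ifs with h
  · subst h
    exact ⟨b, hb, rfl⟩
  · exact ⟨0, Ideal.zero_mem _, map_zero _⟩

lemma gr_reesF : Gr (reesF gB hF) := by
  intro f hf d
  obtain ⟨b, hb, hb'⟩ := hf d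
  rw [← hb']
  exact hm_mem_reesF gB hF hb

lemma s_reesF : hm (-1) 1 ∈ reesF gB hF := by
  have h1 := hm_mem_reesF gB hF (d := -1) (b := 1) (by
    change _ ∈ F 0
    rw [hF.zero]; trivial)
  rwa [map_one] at h1

lemma b_reesF (b : B) : hm 0 (gB b) ∈ reesF gB hF :=
  hm_mem_reesF gB hF (by
    change _ ∈ F 0
    rw [hF.zero]; trivial)

lemma of_hm_mem_reesF {d : ℤ} {a : L} (h : hm d a ∈ reesF gB hF) :
    ∃ b ∈ F d.toNat, gB b = a := by
  obtain ⟨b, hb, hb'⟩ := h d
  rw [coeff_hm_same] at hb'
  exact ⟨b, hb, hb'⟩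

include hinj in
/-- The Rees algebra of a regular weighted centre in a smooth scheme is smooth. -/
theorem smooth_reesF (hsmB : Algebra.Smooth k B) : Algebra.Smooth k (reesF gB hF) := by
  classical
  set R := reesF gB hF with hR
  apply smooth_of_loc
  intro Q hQ
  by_cases hsQ : (⟨hm (-1) 1, s_reesF gB hF⟩ : R) ∈ Q
  swap
  · exact ⟨hm (-1) 1, s_reesF gB hF, isUnit_hm one_ne_zero, hsQ,
      smooth_loc_s gB hinj hsmB R (s_reesF gB hF) (b_reesF gB hF) fun f hf d => by
        obtain ⟨b, -, hb⟩ := hf d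
        exact ⟨b, hb.symm⟩⟩
  let ib : B →+* R :=
    { toFun := fun b => ⟨hm 0 (gB b), b_reesF gB hF b⟩
      map_one' := Subtype.ext (by change hm 0 (gB 1) = 1; rw [map_one, hm_one])
      map_mul' := fun a b => Subtype.ext (by
        change hm 0 (gB (a * b)) = hm 0 (gB a) * hm 0 (gB b)
        rw [map_mul, hm_mul, add_zero])
      map_zero' := Subtype.ext (by change hm 0 (gB 0) = 0; rw [map_zero, hm_zero])
      map_add' := fun a b => Subtype.ext (by
        change hm 0 (gB (a + b)) = hm 0 (gB a) + hm 0 (gB b)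
        rw [map_add, hm_add]) }
  have hP : (Q.comap ib).IsPrime := hQ.comap _
  have hP1 : F 1 ≤ Q.comap ib := by
    intro a ha
    rw [Ideal.mem_comap]
    have h1 : ib a = (⟨hm (-1) 1, s_reesF gB hF⟩ : R) *
        ⟨hm 1 (gB a), hm_mem_reesF gB hF (d := 1) ha⟩ := by
      apply Subtype.ext
      change hm 0 (gB a) = hm (-1) 1 * hm 1 (gB a)
      rw [hm_mul, one_mul]
      norm_num
    rw [h1]
    exact Q.mul_mem_right _ hsQ
  obtain ⟨f, n, x, w, hf, hE, hFd⟩ := hF.coord _ hP hP1
  have hFQ : (⟨hm 0 (gB f), b_reesF gB hF f⟩ : R) ∉ Q := hf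
  have hf0 : gB f ≠ 0 := by
    intro h
    apply hFQ
    have h1 : (⟨hm 0 (gB f), b_reesF gB hF f⟩ : R) = 0 := by
      apply Subtype.ext
      change hm 0 (gB f) = 0
      rw [h, hm_zero]
    rw [h1]
    exact Q.zero_mem
  refine ⟨hm 0 (gB f), b_reesF gB hF f, isUnit_hm hf0, hFQ, ?_⟩
  let D := Localization.Away f
  let gD' : D →+* L := IsLocalization.Away.lift f (g := (gB : B →+* L)) hf0.isUnit
  have hgD' : ∀ b, gD' (algebraMap B D b) = gB b := fun b => IsLocalization.Away.lift_eq f _ b
  let gD : D →ₐ[k] L :=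
    { toRingHom := gD'
      commutes' := fun r => by
        change gD' (algebraMap k D r) = _
        rw [IsScalarTower.algebraMap_apply k B D, hgD', AlgHom.commutes] }
  have hgD : ∀ b, gD (algebraMap B D b) = gB b := hgD'
  have hDrep : ∀ x : D, ∃ (n : ℕ) (b : B), gB f ^ n * gD x = gB b := by
    intro x
    obtain ⟨n, b, hb⟩ := IsLocalization.Away.surj f x
    refine ⟨n, b, ?_⟩
    rw [← hgD b, ← hb, map_mul, map_pow, hgD]
    ring
  have hgDinj : Function.Injective gD := by
    rw [injective_iff_map_eq_zero]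
    intro x hx
    obtain ⟨n, b, hb⟩ := IsLocalization.Away.surj f x
    have h1 : gB b = 0 := by
      rw [← hgD b, ← hb, map_mul, hx, zero_mul]
    rw [map_eq_zero_iff gB hinj] at h1
    rw [h1, map_zero] at hb
    have hu : IsUnit (algebraMap B D f ^ n) :=
      (IsLocalization.map_units D (⟨f, Submonoid.mem_powers f⟩ : Submonoid.powers f)).pow n
    exact (hu.mul_left_eq_zero).1 hb
  have hsm := smooth_rwA gD w (x := fun i => algebraMap B D (x i)) hgDinj hE
  set R1 := rwA gD w (fun i => algebraMap B D (x i)) with hR1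
  -- monomials
  have hmon : ∀ (α : Fin n → ℕ) (s : Finset (Fin n)),
      hm (∑ i ∈ s, α i * w i : ℕ) (gD (∏ i ∈ s, algebraMap B D (x i) ^ α i)) ∈ R1 := by
    intro α s
    induction s using Finset.induction_on with
    | empty =>
      simp only [Finset.sum_empty, Finset.prod_empty, map_one]
      rw [Nat.cast_zero, hm_one]
      exact Subalgebra.one_mem _
    | insert i s hi ih =>
      rw [Finset.sum_insert hi, Finset.prod_insert hi, map_mul, Nat.cast_add, ← hm_mul]
      refine Subalgebra.mul_mem _ ?_ ih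
      have h1 := Subalgebra.pow_mem _ (rwA_x gD w (fun i => algebraMap B D (x i)) i) (α i)
      rw [hm_pow] at h1
      rw [map_pow]
      push_cast
      exact h1
  have hmonD : ∀ (d : ℤ) (z : D), z ∈ (F d.toNat).map (algebraMap B D) → hm d (gD z) ∈ R1 := by
    intro d z hz
    rw [hFd] at hz
    induction hz using Submodule.span_induction with
    | mem z hz =>
      obtain ⟨α, hα, rfl⟩ := hz
      have h1 := hmon α Finset.univ
      obtain ⟨e, he⟩ : ∃ e : ℕ, ((∑ i, α i * w i : ℕ) : ℤ) = d + e := by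
        refine ⟨(((∑ i, α i * w i : ℕ) : ℤ) - d).toNat, ?_⟩
        rw [Int.toNat_of_nonneg (by omega)]
        ring
      have h2 : hm d (gD (∏ i, algebraMap B D (x i) ^ α i)) = hm (-1) 1 ^ e *
          hm ((∑ i, α i * w i : ℕ) : ℤ) (gD (∏ i, algebraMap B D (x i) ^ α i)) := by
        rw [hm_pow, hm_mul, one_pow, one_mul, he]
        congr 1
        ring
      rw [h2]
      exact Subalgebra.mul_mem _ (Subalgebra.pow_mem _ (rwA_s gD _ _) _) h1
    | zero => rw [map_zero, hm_zero]; exact Subalgebra.zero_mem _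
    | add y z _ _ hy hz => rw [map_add, hm_add]; exact Subalgebra.add_mem _ hy hz
    | smul c z _ hz =>
      have h1 : hm d (gD (c • z)) = hm 0 (gD c) * hm d (gD z) := by
        rw [smul_eq_mul, map_mul, hm_mul, zero_add]
      rw [h1]
      exact Subalgebra.mul_mem _ (rwA_b gD _ _ c) hz
  have hle : R ≤ R1 := by
    intro y hy
    rw [eq_sum_hm y]
    refine Subalgebra.sum_mem _ fun d _ => ?_
    obtain ⟨b, hb, hb'⟩ := hy d
    rw [← hb', ← hgD]
    exact hmonD d _ (Ideal.mem_map_of_mem _ hb)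
  obtain ⟨finv, hfinv⟩ : ∃ y : D, algebraMap B D f * y = 1 :=
    (IsLocalization.map_units D (⟨f, Submonoid.mem_powers f⟩ : Submonoid.powers f)).exists_right_inv
  have heq : loc R (hm 0 (gB f)) (b_reesF gB hF f) = R1 := by
    apply le_antisymm
    · rintro y ⟨n, hn⟩
      have h1 : y = hm 0 (gD finv) ^ n * (hm 0 (gB f) ^ n * y) := by
        rw [← mul_assoc, ← mul_pow, hm_mul, ← hgD, ← map_mul, mul_comm finv, hfinv, map_one,
          add_zero, hm_one, one_pow, one_mul]
      rw [h1]
      exact Subalgebra.mul_mem _ (Subalgebra.pow_mem _ (rwA_b gD _ _ _) _) (hle hn)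
    · rw [hR1]
      unfold rwA
      rw [Algebra.adjoin_le_iff]
      rintro y ((hy | ⟨z, rfl⟩) | ⟨i, rfl⟩)
      · rw [hy]
        exact le_loc _ _ _ (s_reesF gB hF)
      · obtain ⟨n, b, hb⟩ := hDrep z
        refine ⟨n, ?_⟩
        change hm 0 (gB f) ^ n * hm 0 (gD z) ∈ R
        rw [hm_pow, hm_mul, hb, mul_zero, add_zero]
        exact b_reesF gB hF b
      · have h1 : algebraMap B D (x i) ∈ (F (w i)).map (algebraMap B D) := by
          rw [hFd]
          apply Ideal.subset_span
          refine ⟨Pi.single i 1, ?_, ?_⟩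
          · rw [Finset.sum_eq_single i]
            · rw [Pi.single_eq_same, one_mul]
            · intro l _ hl
              rw [Pi.single_eq_of_ne hl, zero_mul]
            · intro h; exact absurd (Finset.mem_univ i) h
          · rw [Finset.prod_eq_single i]
            · rw [Pi.single_eq_same, pow_one]
            · intro l _ hl
              rw [Pi.single_eq_of_ne hl, pow_zero]
            · intro h; exact absurd (Finset.mem_univ i) h
        obtain ⟨⟨⟨b, hb⟩, ⟨_, m, rfl⟩⟩, hbm⟩ :=
          (IsLocalization.mem_map_algebraMap_iff (Submonoid.powers f) D).1 h1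
        refine ⟨m, ?_⟩
        have h2 : hm 0 (gB f) ^ m * hm (w i) (gD (algebraMap B D (x i))) = hm (w i) (gB b) := by
          have h3 := congrArg gD hbm
          change gD (algebraMap B D (x i) * algebraMap B D (f ^ m)) = gD (algebraMap B D b) at h3
          rw [map_mul, hgD, hgD, hgD, map_pow] at h3
          rw [hm_pow, hm_mul, mul_zero, zero_add, hgD, ← h3, mul_comm]
        change hm 0 (gB f) ^ m * hm ((w i : ℕ) : ℤ) (gD (algebraMap B D (x i))) ∈ R
        rw [h2]
        exact hm_mem_reesF gB hF (d := ((w i : ℕ) : ℤ)) (by rw [Int.toNat_natCast]; exact hb)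
  rw [heq]
  exact hsm

end rees

end Pool.Agent.H920R2
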