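import Pool.Agent.H920R2.We2
import Pool.Agent.H920R2.Cu9

set_option autoImplicit false
set_option linter.unusedSectionVars false

open MvPolynomial AlgebraicGeometry CategoryTheory

universe u v

namespace Pool.Agent.H920R2

section crit

variable {k B : Type u} [Field k] [CommRing B] [IsDomain B] [Algebra k B]

/-- **Criterion.** Let `σ` be an automorphism of order `p` of a smooth affine variety of
characteristic `p` and `F` a regular weighted centre, such that `σ - 1` raises the weights by `l`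
and its leading form has no zeros outside the centre. Then the quotient has a resolution. -/
theorem hasResolution_centre {p : ℕ} (hp : p.Prime) (hpk : (p : k) = 0)
    (hsmB : Algebra.Smooth k B) (σ : B ≃ₐ[k] B) (hσ : ∀ b, σ^[p] b = b)
    {F : ℕ → Ideal B} (hF : RegularWeightedCentre k F) (hne : F 1 ≠ ⊥) {l : ℕ} (hl : 0 < l)
    (hdiv : ∀ d, ∀ a ∈ F d, σ a - a ∈ F (d + l))
    (hfix : ∀ P : Ideal B, P.IsPrime → (∀ a, σ a - a ∈ P) → F 1 ≤ P)
    (hlead : ∀ d, 1 ≤ d → ∀ a ∈ F d, ∃ N : ℕ, a ^ N ∈ F (N * d + 1) ⊔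
      Ideal.span {y | ∃ e, ∃ c ∈ F e, ∃ b ∈ F (N * d - (e + l)), y = b * (σ c - c)}) :
    HasResolution (X := Spec (CommRingCat.of (fixedAlg σ)))
      (Spec.map (CommRingCat.ofHom (algebraMap k (fixedAlg σ)))) := by
  classical
  let L := FractionRing B
  let gB : B →ₐ[k] L := IsScalarTower.toAlgHom k B L
  have hinj : Function.Injective gB := IsFractionRing.injective B L
  let τ : L ≃ₐ[k] L := IsFractionRing.fieldEquivOfAlgEquiv k L L σ
  have hτ : ∀ b, τ (gB b) = gB (σ b) := fun b =>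
    IsFractionRing.fieldEquivOfAlgEquiv_algebraMap k L L σ b
  set R := reesF gB hF with hR
  have hDgen : ∀ (d : ℤ) (b : B), hm (l : ℤ) 1 * (tl τ (hm d (gB b)) - hm d (gB b)) =
      hm (d + l) (gB (σ b - b)) := by
    intro d b
    rw [tl_hm, hτ, ← hm_sub, hm_mul, one_mul, ← map_sub, add_comm]
  have hDF : ∀ (d : ℤ) (b : B), b ∈ F d.toNat → σ b - b ∈ F (d + l).toNat := by
    intro d b hb
    exact hF.anti _ _ (by omega) (hdiv _ b hb)
  have hD : ∀ f ∈ R, hm l 1 * (tl τ f - f) ∈ R := by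
    intro f hf
    have h1 : hm (l : ℤ) 1 * (tl τ f - f) = ∑ d ∈ f.coeff.support,
        hm (l : ℤ) 1 * (tl τ (hm d (f.coeff d)) - hm d (f.coeff d)) := by
      rw [← Finset.mul_sum, Finset.sum_sub_distrib, ← map_sum, ← eq_sum_hm f]
    rw [h1]
    refine Subalgebra.sum_mem _ fun d _ => ?_
    obtain ⟨b, hb, hb'⟩ := hf d
    rw [← hb', hDgen]
    exact hm_mem_reesF gB hF (hDF d b hb)
  refine hasResolution_zp hp hpk σ hσ τ hτ R (gr_reesF gB hF) (s_reesF gB hF) (b_reesF gB hF)
    (fun f hf d => by obtain ⟨b, -, hb⟩ := hf d; exact ⟨b, hb.symm⟩)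
    (smooth_reesF gB hinj hF hsmB) ?_ l hl hD ?_
  · obtain ⟨a, ha, ha0⟩ := Submodule.exists_mem_ne_zero_of_ne_bot hne
    refine ⟨1, gB a, one_pos, ?_, hm_mem_reesF gB hF (d := ((1 : ℕ) : ℤ)) (by
      rw [Int.toNat_natCast]; exact ha)⟩
    intro h
    exact ha0 ((map_eq_zero_iff gB hinj).1 h)
  · intro Q hQ hDQ d a h hd
    have hDQ' : ∀ (e : ℤ) (c : B) (hc : c ∈ F e.toNat),
        (⟨hm (e + l) (gB (σ c - c)), hm_mem_reesF gB hF (hDF e c hc)⟩ : R) ∈ Q := by
      intro e c hc
      have h1 := hDQ _ (hm_mem_reesF gB hF hc)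
      have e1 : (⟨hm (l : ℤ) 1 * (tl τ (hm e (gB c)) - hm e (gB c)),
          hD _ (hm_mem_reesF gB hF hc)⟩ : R) =
          ⟨hm (e + l) (gB (σ c - c)), hm_mem_reesF gB hF (hDF e c hc)⟩ :=
        Subtype.ext (hDgen e c)
      rw [e1] at h1
      exact h1
    obtain ⟨b, hb, hba⟩ := of_hm_mem_reesF gB hF h
    rw [Int.toNat_natCast] at hb
    subst hba
    let s : R := ⟨hm (-1) 1, s_reesF gB hF⟩
    by_cases hsQ : s ∈ Q
    · obtain ⟨N, hN⟩ := hlead d hd b hb
      have key : ∀ z ∈ F (N * d + 1) ⊔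
          Ideal.span {y | ∃ e, ∃ c ∈ F e, ∃ b ∈ F (N * d - (e + l)), y = b * (σ c - c)},
          ∃ hz : hm ((N * d : ℕ) : ℤ) (gB z) ∈ R, (⟨hm ((N * d : ℕ) : ℤ) (gB z), hz⟩ : R) ∈ Q := by
        intro z hz
        obtain ⟨z1, hz1, z2, hz2, rfl⟩ := Submodule.mem_sup.1 hz
        have h1 : ∃ hz : hm ((N * d : ℕ) : ℤ) (gB z1) ∈ R,
            (⟨hm ((N * d : ℕ) : ℤ) (gB z1), hz⟩ : R) ∈ Q := by
          have h2 : hm ((N * d : ℕ) : ℤ) (gB z1) =
              hm (-1) 1 * hm ((N * d + 1 : ℕ) : ℤ) (gB z1) := by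
            rw [hm_mul, one_mul]
            push_cast
            congr 1
            ring
          have h3 : hm ((N * d + 1 : ℕ) : ℤ) (gB z1) ∈ R :=
            hm_mem_reesF gB hF (by rw [Int.toNat_natCast]; exact hz1)
          have h4 : hm ((N * d : ℕ) : ℤ) (gB z1) ∈ R := by
            rw [h2]; exact R.mul_mem (s_reesF gB hF) h3
          refine ⟨h4, ?_⟩
          have h5 : (⟨hm ((N * d : ℕ) : ℤ) (gB z1), h4⟩ : R) = s * ⟨_, h3⟩ := Subtype.ext h2
          rw [h5]
          exact Q.mul_mem_right _ hsQ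
        have h2 : ∃ hz : hm ((N * d : ℕ) : ℤ) (gB z2) ∈ R,
            (⟨hm ((N * d : ℕ) : ℤ) (gB z2), hz⟩ : R) ∈ Q := by
          clear hz h1
          induction hz2 using Submodule.span_induction with
          | mem z hz =>
            obtain ⟨e, c, hc, b', hb', rfl⟩ := hz
            have h2 : hm ((N * d : ℕ) : ℤ) (gB (b' * (σ c - c))) =
                hm (((N * d : ℕ) : ℤ) - (e + l)) (gB b') * hm ((e : ℤ) + l) (gB (σ c - c)) := by
              rw [hm_mul, map_mul]
              congr 1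
              ring
            have h3 : hm (((N * d : ℕ) : ℤ) - (e + l)) (gB b') ∈ R := by
              refine hm_mem_reesF gB hF ?_
              have e1 : (((N * d : ℕ) : ℤ) - (e + l)).toNat = N * d - (e + l) := by omega
              rw [e1]
              exact hb'
            have hc' : c ∈ F (e : ℤ).toNat := by rw [Int.toNat_natCast]; exact hc
            have h4 := hDQ' e c hc'
            refine ⟨by rw [h2]; exact R.mul_mem h3 (hm_mem_reesF gB hF (hDF e c hc')), ?_⟩
            have h5 : (⟨hm ((N * d : ℕ) : ℤ) (gB (b' * (σ c - c))), by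
                rw [h2]; exact R.mul_mem h3 (hm_mem_reesF gB hF (hDF e c hc'))⟩ : R) =
                ⟨_, h3⟩ * ⟨hm ((e : ℤ) + l) (gB (σ c - c)),
                  hm_mem_reesF gB hF (hDF e c hc')⟩ := Subtype.ext h2
            rw [h5]
            exact Q.mul_mem_left _ h4
          | zero =>
            have h2 : hm ((N * d : ℕ) : ℤ) (gB 0) = 0 := by rw [map_zero, hm_zero]
            refine ⟨by rw [h2]; exact R.zero_mem, ?_⟩
            have h3 : (⟨hm ((N * d : ℕ) : ℤ) (gB 0), by rw [h2]; exact R.zero_mem⟩ : R) = 0 :=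
              Subtype.ext h2
            rw [h3]
            exact Q.zero_mem
          | add y z _ _ hy hz =>
            obtain ⟨hy1, hy2⟩ := hy
            obtain ⟨hz1, hz2⟩ := hz
            have h2 : hm ((N * d : ℕ) : ℤ) (gB (y + z)) =
                hm ((N * d : ℕ) : ℤ) (gB y) + hm ((N * d : ℕ) : ℤ) (gB z) := by
              rw [map_add, hm_add]
            refine ⟨by rw [h2]; exact R.add_mem hy1 hz1, ?_⟩
            have h3 : (⟨hm ((N * d : ℕ) : ℤ) (gB (y + z)), by
                rw [h2]; exact R.add_mem hy1 hz1⟩ : R) = ⟨_, hy1⟩ + ⟨_, hz1⟩ := Subtype.ext h2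
            rw [h3]
            exact Q.add_mem hy2 hz2
          | smul r z _ hz =>
            obtain ⟨hz1, hz2⟩ := hz
            have h2 : hm ((N * d : ℕ) : ℤ) (gB (r • z)) =
                hm 0 (gB r) * hm ((N * d : ℕ) : ℤ) (gB z) := by
              rw [smul_eq_mul, map_mul, hm_mul, zero_add]
            refine ⟨by rw [h2]; exact R.mul_mem (b_reesF gB hF r) hz1, ?_⟩
            have h3 : (⟨hm ((N * d : ℕ) : ℤ) (gB (r • z)), by
                rw [h2]; exact R.mul_mem (b_reesF gB hF r) hz1⟩ : R) =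
                ⟨_, b_reesF gB hF r⟩ * ⟨_, hz1⟩ := Subtype.ext h2
            rw [h3]
            exact Q.mul_mem_left _ hz2
        obtain ⟨a1, a2⟩ := h1
        obtain ⟨b1, b2⟩ := h2
        have h3 : hm ((N * d : ℕ) : ℤ) (gB (z1 + z2)) =
            hm ((N * d : ℕ) : ℤ) (gB z1) + hm ((N * d : ℕ) : ℤ) (gB z2) := by
          rw [map_add, hm_add]
        refine ⟨by rw [h3]; exact R.add_mem a1 b1, ?_⟩
        have h4 : (⟨hm ((N * d : ℕ) : ℤ) (gB (z1 + z2)), by
            rw [h3]; exact R.add_mem a1 b1⟩ : R) = ⟨_, a1⟩ + ⟨_, b1⟩ := Subtype.ext h3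
        rw [h4]
        exact Q.add_mem a2 b2
      obtain ⟨h1, h2⟩ := key _ hN
      have h3 : (⟨hm d (gB b), h⟩ : R) ^ N = ⟨_, h1⟩ := by
        apply Subtype.ext
        change hm (d : ℤ) (gB b) ^ N = hm ((N * d : ℕ) : ℤ) (gB (b ^ N))
        rw [hm_pow, map_pow]
        push_cast
        rfl
      rw [← h3] at h2
      exact hQ.mem_of_pow_mem _ h2
    · -- the general fibre
      have hsn : ∀ n : ℕ, s ^ n ∉ Q := fun n hn => hsQ (hQ.mem_of_pow_mem n hn)
      let ib : B →+* R :=
        { toFun := fun b => ⟨hm 0 (gB b), b_reesF gB hF b⟩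
          map_one' := Subtype.ext (by change hm 0 (gB 1) = 1; rw [map_one, hm_one])
          map_mul' := fun a b => Subtype.ext (by
            change hm 0 (gB (a * b)) = hm 0 (gB a) * hm 0 (gB b)
            rw [map_mul, hm_mul, add_zero])
          map_zero' := Subtype.ext (by change hm 0 (gB 0) = 0; rw [map_zero, hm_zero])
          map_add' := fun a b => Subtype.ext (by
            change hm 0 (gB (a + b)) = hm 0 (gB a) + hm 0 (gB b)
            rw [map_add, hm_add]) }
      have hF0 : ∀ c : B, c ∈ F (0 : ℤ).toNat := fun c => by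
        change c ∈ F 0
        rw [hF.zero]; trivial
      have h1 : F 1 ≤ Q.comap ib := by
        refine hfix _ (hQ.comap _) fun c => ?_
        rw [Ideal.mem_comap]
        have h2 := hDQ' 0 c (hF0 c)
        have h3 : ib (σ c - c) = s ^ l * ⟨hm (0 + l) (gB (σ c - c)),
            hm_mem_reesF gB hF (hDF 0 c (hF0 c))⟩ := by
          apply Subtype.ext
          change hm 0 (gB (σ c - c)) = hm (-1) 1 ^ l * hm (0 + l) (gB (σ c - c))
          rw [hm_pow, hm_mul, one_pow, one_mul]
          congr 1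
          ring
        rw [h3]
        exact Q.mul_mem_left _ h2
      have h2 : b ∈ Q.comap ib := h1 (hF.anti 1 d hd hb)
      rw [Ideal.mem_comap] at h2
      have h3 : ib b = s ^ d * ⟨hm d (gB b), h⟩ := by
        apply Subtype.ext
        change hm 0 (gB b) = hm (-1) 1 ^ d * hm (d : ℤ) (gB b)
        rw [hm_pow, hm_mul, one_pow, one_mul]
        congr 1
        ring
      rw [h3] at h2
      exact (hQ.mem_or_mem h2).resolve_left (hsn d)

end crit

end Pool.Agent.H920R2
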