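import Pool.Agent.H920R2.Fol2
import Pool.Agent.H920R2.Sig8

set_option autoImplicit false
set_option linter.unusedSectionVars false

universe u v

namespace Pool.Agent.H920R2

section prime

variable {k B : Type u} [Field k] [CommRing B] [Algebra k B] (σ : B ≃ₐ[k] B) {p : ℕ}

/-- The trace. -/
def trc (p : ℕ) (e : B) : B := ∑ i ∈ Finset.range p, σ^[i] e

lemma sum_iter_id (hp : p.Prime) (hσ : ∀ b, σ^[p] b = b) (e : B) :
    σ (trc σ p e) = trc σ p e := by
  unfold trc
  obtain ⟨n, hn⟩ : ∃ n, p = n + 1 := ⟨p - 1, by have := hp.one_lt; omega⟩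
  rw [map_sum]
  have h1 : ∀ i, σ (σ^[i] e) = σ^[i + 1] e := fun i => (Function.iterate_succ_apply' σ i e).symm
  simp_rw [h1]
  rw [hn, Finset.sum_range_succ, Finset.sum_range_succ' (fun i => σ^[i] e), ← hn, hσ]
  rfl

/-- The weighted trace. -/
def wtr (p : ℕ) (e : B) : B := ∑ i ∈ Finset.range p, (i : B) * σ^[i] e

lemma map_wtr (hp : p.Prime) (hpk : (p : k) = 0) (hσ : ∀ b, σ^[p] b = b) (e : B) :
    σ (wtr σ p e) = wtr σ p e - trc σ p e := by
  obtain ⟨n, hn⟩ : ∃ n, p = n + 1 := ⟨p - 1, by have := hp.one_lt; omega⟩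
  have hpB : ((p : ℕ) : B) = 0 := by rw [← map_natCast (algebraMap k B), hpk, map_zero]
  have h0 : wtr σ p e - trc σ p e = ∑ i ∈ Finset.range p, ((i : B) - 1) * σ^[i] e := by
    unfold wtr trc
    rw [← Finset.sum_sub_distrib]
    refine Finset.sum_congr rfl fun i _ => ?_
    ring
  have h1 : σ (wtr σ p e) = ∑ i ∈ Finset.range p, (i : B) * σ^[i + 1] e := by
    unfold wtr
    rw [map_sum]
    refine Finset.sum_congr rfl fun i _ => ?_
    rw [map_mul, map_natCast, Function.iterate_succ_apply']
  rw [h0, h1, hn, Finset.sum_range_succ, Finset.sum_range_succ' (fun i => ((i : B) - 1) * σ^[i] e),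
    ← hn, hσ]
  have h2 : ((n : ℕ) : B) = -1 := by
    rw [hn] at hpB
    push_cast at hpB
    linear_combination hpB
  rw [h2]
  simp

lemma iter_wtr (hp : p.Prime) (hpk : (p : k) = 0) (hσ : ∀ b, σ^[p] b = b) (e : B) (j : ℕ) :
    σ^[j] (wtr σ p e) - wtr σ p e = -(j * trc σ p e) := by
  induction j with
  | zero => simp
  | succ j ih =>
    rw [Function.iterate_succ_apply']
    have h1 := congrArg σ ih
    rw [map_sub, map_neg, map_mul, map_natCast, sum_iter_id σ hp hσ, map_wtr σ hp hpk hσ] at h1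
    push_cast
    linear_combination h1

/-- If a prime ideal is not stable under an automorphism of prime order, then there is an element
all of whose differences are outside of the prime ideal. -/
lemma exists_trc (hp : p.Prime) (hσ : ∀ b, σ^[p] b = b) (q : Ideal B) (hq : q.IsPrime) (α : B)
    (hα : α ∈ q) (hα' : σ α ∉ q) : ∃ e, trc σ p e ∉ q := by
  classical
  have hper : ∀ (u : ℕ) b, σ^[p * u] b = b := by
    intro u b
    rw [Function.iterate_mul]
    exact Function.iterate_fixed (hσ b) u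
  have h1 : ∀ m, 0 < m → m < p → ∃ x, σ^[m] x ∈ q ∧ x ∉ q := by
    intro m hm hmp
    by_contra hcon
    push Not at hcon
    have h2 : ∀ (t : ℕ) x, σ^[m * t] x ∈ q → x ∈ q := by
      intro t
      induction t with
      | zero => intro x h; exact h
      | succ t ih =>
        intro x h
        apply hcon
        apply ih
        rw [← Function.iterate_add_apply]
        rw [Nat.mul_succ] at h
        exact h
    have hco : Nat.Coprime m p := (Nat.coprime_of_lt_prime (by omega) hmp hp).symm
    obtain ⟨t, -, ht⟩ := Nat.exists_mul_mod_eq_one_of_coprime hco hp.one_lt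
    -- m * t ≡ 1, so m * (t * (p - 1)) ≡ -1
    have h3 : ∃ u, m * (t * (p - 1)) + 1 = p * u := by
      have h4 : ∃ w, m * t = p * w + 1 := by
        refine ⟨m * t / p, ?_⟩
        have := Nat.div_add_mod (m * t) p
        omega
      obtain ⟨w, h4⟩ := h4
      refine ⟨w * (p - 1) + 1, ?_⟩
      have h5 : 1 ≤ p := hp.one_lt.le
      have h6 : m * (t * (p - 1)) = (m * t) * (p - 1) := by ring
      rw [h6, h4]
      obtain ⟨r, hr⟩ : ∃ r, p = r + 1 := ⟨p - 1, by omega⟩
      have h7 : p - 1 = r := by omega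
      rw [h7]
      rw [hr]; ring
    obtain ⟨u, hu⟩ := h3
    apply hα'
    apply h2 (t * (p - 1))
    rw [← Function.iterate_succ_apply]
    change σ^[m * (t * (p - 1)) + 1] α ∈ q
    rw [hu, hper]
    exact hα
  choose! x hx hx' using h1
  let e := ∏ m ∈ Finset.Ico 1 p, x m
  have he : e ∉ q := by
    intro h
    obtain ⟨m, hm, h3⟩ := (hq.prod_mem_iff).1 h
    rw [Finset.mem_Ico] at hm
    exact hx' m hm.1 hm.2 h3
  have he' : ∀ m, 0 < m → m < p → σ^[m] e ∈ q := by
    intro m hm hmp
    have h3 : ∀ (f : B →+* B) , f (x m) ∈ q → f e ∈ q := by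
      intro f hf
      change f (∏ m ∈ Finset.Ico 1 p, x m) ∈ q
      rw [map_prod]
      exact (hq.prod_mem_iff).2 ⟨m, Finset.mem_Ico.2 ⟨hm, hmp⟩, hf⟩
    have h4 : ∀ (n : ℕ), ∃ f : B →+* B, ∀ b, f b = σ^[n] b := by
      intro n
      induction n with
      | zero => exact ⟨RingHom.id B, fun b => rfl⟩
      | succ n ih =>
        obtain ⟨f, hf⟩ := ih
        refine ⟨f.comp (σ : B →+* B), fun b => ?_⟩
        rw [Function.iterate_succ_apply]
        exact hf _
    obtain ⟨f, hf⟩ := h4 m
    rw [← hf]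
    apply h3
    rw [hf]
    exact hx m hm hmp
  refine ⟨e, fun h => he ?_⟩
  unfold trc at h
  rw [Finset.range_eq_Ico, Finset.sum_eq_sum_Ico_succ_bot hp.pos] at h
  have h5 : ∑ i ∈ Finset.Ico (0 + 1) p, σ^[i] e ∈ q := by
    refine q.sum_mem fun i hi => ?_
    rw [Finset.mem_Ico] at hi
    exact he' i (by omega) hi.2
  exact (q.add_mem_iff_left h5).1 h

/-- If the residue classes are stable, then the differences of all orders prime to `p` are outside
of a stable set as soon as the first one is. -/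
lemma exists_mul_one (hp : p.Prime) {j : ℕ} (hj : 0 < j) (hjp : j < p) :
    ∃ t u, j * t = p * u + 1 := by
  have hco : Nat.Coprime j p := (Nat.coprime_of_lt_prime (by omega) hjp hp).symm
  obtain ⟨t, -, ht⟩ := Nat.exists_mul_mod_eq_one_of_coprime hco hp.one_lt
  refine ⟨t, j * t / p, ?_⟩
  have := Nat.div_add_mod (j * t) p
  omega

end prime

end Pool.Agent.H920R2
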