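import Pool.Agent.H920R2.Zp1

set_option autoImplicit false
set_option linter.unusedSectionVars false

open AlgebraicGeometry CategoryTheory

universe u v

namespace Pool.Agent.H920R2

section ops

variable {k L : Type u} [Field k] [Field L] [Algebra k L] (τ : L ≃ₐ[k] L)
  (R : Subalgebra k (LP L)) (hs : hm (-1) 1 ∈ R) (l : ℕ)
  (hD : ∀ f ∈ R, hm l 1 * (tl τ f - f) ∈ R)

lemma sl_one : ((hm (-1) 1 : LP L)) ^ l * hm l 1 = 1 := by
  rw [hm_pow, hm_mul, one_pow, one_mul]
  have : (l : ℤ) * -1 + l = 0 := by ring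
  rw [this, hm_one]

include hs hD in
lemma tl_mem_of {f : LP L} (hf : f ∈ R) : tl τ f ∈ R := by
  have h1 : tl τ f = f + (hm (-1) 1) ^ l * (hm l 1 * (tl τ f - f)) := by
    rw [← mul_assoc, sl_one, one_mul]; ring
  rw [h1]
  exact R.add_mem hf (R.mul_mem (R.pow_mem hs l) (hD f hf))

/-- The automorphism of the algebra. -/
noncomputable def TR (hs : hm (-1) 1 ∈ R) (hD : ∀ f ∈ R, hm l 1 * (tl τ f - f) ∈ R) : R →+* R where
  toFun x := ⟨tl τ x, tl_mem_of τ R hs l hD x.2⟩
  map_one' := Subtype.ext (map_one (tl τ))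
  map_mul' x y := Subtype.ext (map_mul (tl τ) x.1 y.1)
  map_zero' := Subtype.ext (map_zero (tl τ))
  map_add' x y := Subtype.ext (map_add (tl τ) x.1 y.1)

lemma coe_TR (x : R) : ((TR τ R l hs hD x : R) : LP L) = tl τ x := rfl

lemma coe_TR_iter (n : ℕ) (x : R) : (((TR τ R l hs hD)^[n] x : R) : LP L) = (tl τ)^[n] x := by
  induction n with
  | zero => rfl
  | succ n ih => rw [Function.iterate_succ_apply', Function.iterate_succ_apply', ← ih]; rfl

include hs hD in
lemma th_mem (j : ℕ) {f : LP L} (hf : f ∈ R) : hm l 1 * ((tl τ)^[j] f - f) ∈ R := by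
  induction j with
  | zero => simp
  | succ j ih =>
    have h1 : ∀ n, (tl τ)^[n] f ∈ R := by
      intro n
      induction n with
      | zero => exact hf
      | succ n ih => rw [Function.iterate_succ_apply']; exact tl_mem_of τ R hs l hD ih
    have h2 : hm l 1 * ((tl τ)^[j + 1] f - f) = hm l 1 * (tl τ ((tl τ)^[j] f) - (tl τ)^[j] f) +
        hm l 1 * ((tl τ)^[j] f - f) := by
      rw [Function.iterate_succ_apply']; ring
    rw [h2]
    exact R.add_mem (hD _ (h1 j)) ih

/-- The difference operators. -/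
noncomputable def TH (hs : hm (-1) 1 ∈ R) (hD : ∀ f ∈ R, hm l 1 * (tl τ f - f) ∈ R) (j : ℕ)
    (x : R) : R :=
  ⟨(hm (l : ℤ) (1 : L) : LP L) * ((tl τ)^[j] (x : LP L) - (x : LP L)),
    th_mem τ R hs l hD j x.2⟩

lemma TH_zero (x : R) : TH τ R l hs hD 0 x = 0 := by
  apply Subtype.ext
  change hm l 1 * ((tl τ)^[0] (x : LP L) - (x : LP L)) = 0
  simp

lemma TR_fixed_iter (n : ℕ) : (tl τ)^[n] (hm l 1 : LP L) = hm l 1 := by
  apply Function.iterate_fixed
  rw [tl_hm, map_one]

lemma TH_add (i j : ℕ) (x : R) : TH τ R l hs hD (i + j) x =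
    TH τ R l hs hD i x + (TR τ R l hs hD)^[i] (TH τ R l hs hD j x) := by
  apply Subtype.ext
  rw [AddMemClass.coe_add, coe_TR_iter]
  change hm l 1 * ((tl τ)^[i + j] (x : LP L) - (x : LP L)) = hm l 1 * ((tl τ)^[i] (x : LP L) - (x : LP L)) +
    (tl τ)^[i] (hm l 1 * ((tl τ)^[j] (x : LP L) - (x : LP L)))
  rw [iterate_map_mul, iterate_map_sub, TR_fixed_iter, Function.iterate_add_apply]
  ring

lemma TR_eq (x : R) : TR τ R l hs hD x =
    x + (⟨hm (-1) 1, hs⟩ : R) ^ l * TH τ R l hs hD 1 x := by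
  apply Subtype.ext
  rw [AddMemClass.coe_add, MulMemClass.coe_mul, SubmonoidClass.coe_pow]
  change tl τ x = (x : LP L) + (hm (-1) 1) ^ l * (hm l 1 * ((tl τ)^[1] (x : LP L) - (x : LP L)))
  rw [← mul_assoc, sl_one, one_mul, Function.iterate_one]
  ring

/-- Homogeneous elements. -/
def Hom' (x : R) : Prop := ∃ (d : ℤ) (b : L), (x : LP L) = hm d b

variable {R}

lemma hom_TR {x : R} (hx : Hom' R x) : Hom' R (TR τ R l hs hD x) := by
  obtain ⟨d, b, h⟩ := hx
  exact ⟨d, τ b, by rw [coe_TR, h, tl_hm]⟩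

lemma hom_TR_iter {x : R} (hx : Hom' R x) (n : ℕ) : Hom' R ((TR τ R l hs hD)^[n] x) := by
  induction n with
  | zero => exact hx
  | succ n ih => rw [Function.iterate_succ_apply']; exact hom_TR τ hs l hD ih

lemma coe_TH {x : R} {d : ℤ} {b : L} (h : (x : LP L) = hm d b) (j : ℕ) :
    ((TH τ R l hs hD j x : R) : LP L) = hm (d + l) (τ^[j] b - b) := by
  change hm l 1 * ((tl τ)^[j] (x : LP L) - (x : LP L)) = _
  rw [h, tl_iter_hm, ← hm_sub, hm_mul, one_mul, add_comm]

lemma hom_TH {x : R} (hx : Hom' R x) (j : ℕ) : Hom' R (TH τ R l hs hD j x) := by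
  obtain ⟨d, b, h⟩ := hx
  exact ⟨_, _, coe_TH τ hs l hD h j⟩

variable {p : ℕ} (hp : p.Prime) (hτp : ∀ x, τ^[p] x = x)

include hτp in
lemma TR_per (u : ℕ) (x : R) : (TR τ R l hs hD)^[p * u] x = x := by
  rw [Function.iterate_mul]
  apply Function.iterate_fixed
  apply Subtype.ext
  rw [coe_TR_iter]
  exact tl_iter_id τ p hτp _

include hτp in
lemma TH_per (u j : ℕ) (x : R) : TH τ R l hs hD (p * u + j) x = TH τ R l hs hD j x := by
  apply Subtype.ext
  change hm l 1 * ((tl τ)^[p * u + j] (x : LP L) - (x : LP L)) = hm l 1 * ((tl τ)^[j] (x : LP L) - (x : LP L))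
  congr 2
  rw [Function.iterate_add_apply, Function.iterate_mul]
  apply Function.iterate_fixed
  exact tl_iter_id τ p hτp _

include hp hτp in
/-- The first step of the proof of the radical condition. -/
lemma TH_ne (Q : Ideal R) (hst : ∀ x : R, Hom' R x → x ∈ Q → TR τ R l hs hD x ∈ Q) {b : R}
    (hb : Hom' R b) (h1 : TH τ R l hs hD 1 b ∉ Q) {j : ℕ} (hj : 0 < j) (hjp : j < p) :
    TH τ R l hs hD j b ∉ Q := by
  intro hP
  apply h1
  obtain ⟨t, u, htu⟩ := exists_mul_one hp hj hjp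
  have hstn : ∀ (n : ℕ) (x : R), Hom' R x → x ∈ Q → (TR τ R l hs hD)^[n] x ∈ Q := by
    intro n
    induction n with
    | zero => intro x _ hx; exact hx
    | succ n ih =>
      intro x hx hxQ
      rw [Function.iterate_succ_apply']
      exact hst _ (hom_TR_iter τ hs l hD hx n) (ih x hx hxQ)
  have hall : ∀ t, TH τ R l hs hD (j * t) b ∈ Q := by
    intro t
    induction t with
    | zero => rw [mul_zero, TH_zero]; exact Q.zero_mem
    | succ t ih =>
      have e1 : j * (t + 1) = j + j * t := by ring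
      rw [e1, TH_add]
      exact Q.add_mem hP (hstn j _ (hom_TH τ hs l hD hb _) ih)
  have h2 := hall t
  rw [htu, TH_per τ hs l hD hτp] at h2
  exact h2

include hτp hp in
lemma TR_back (Q : Ideal R) (hst : ∀ x : R, Hom' R x → x ∈ Q → TR τ R l hs hD x ∈ Q) {x : R}
    (hx : Hom' R x) {n : ℕ} (h : (TR τ R l hs hD)^[n] x ∈ Q) : x ∈ Q := by
  have hstn : ∀ (n : ℕ) (x : R), Hom' R x → x ∈ Q → (TR τ R l hs hD)^[n] x ∈ Q := by
    intro n
    induction n with
    | zero => intro x _ hx; exact hx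
    | succ n ih =>
      intro x hx hxQ
      rw [Function.iterate_succ_apply']
      exact hst _ (hom_TR_iter τ hs l hD hx n) (ih x hx hxQ)
  have h1 := hstn (n * (p - 1)) _ (hom_TR_iter τ hs l hD hx n) h
  rw [← Function.iterate_add_apply] at h1
  have h2 : n * (p - 1) + n = p * n := by
    obtain ⟨r, hr⟩ : ∃ r, p = r + 1 := ⟨p - 1, by have := hp.pos; omega⟩
    rw [hr, Nat.add_sub_cancel]; ring
  rw [h2, TR_per τ hs l hD hτp] at h1
  exact h1

end ops

end Pool.Agent.H920R2
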