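import Pool.Agent.H920R2.Zp2

set_option autoImplicit false
set_option linter.unusedSectionVars false

open AlgebraicGeometry CategoryTheory

universe u v

namespace Pool.Agent.H920R2

lemma cast_ne_of_lt' {k : Type u} [Field k] {p : ℕ} (hp : p.Prime) (hpk : (p : k) = 0) {j : ℕ}
    (hj : 0 < j) (hjp : j < p) : (j : k) ≠ 0 := by
  have hchar : CharP k p := (CharP.charP_iff_prime_eq_zero hp).2 hpk
  intro h
  have h1 := (CharP.cast_eq_zero_iff k p _).1 h
  have := Nat.le_of_dvd hj h1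
  omega

section rad

variable {k B : Type u} [Field k] [CommRing B] [IsDomain B] [Algebra k B]
  {L : Type u} [Field L] [Algebra k L] (gB : B →ₐ[k] L) (hinj : Function.Injective gB)
  (σ : B ≃ₐ[k] B) (τ : L ≃ₐ[k] L) (hτ : ∀ b, τ (gB b) = gB (σ b))
  {p : ℕ} (hp : p.Prime) (hpk : (p : k) = 0) (hσ : ∀ b, σ^[p] b = b) (hτp : ∀ x, τ^[p] x = x)
  (R : Subalgebra k (LP L)) (hgr : Gr R) (hs : hm (-1) 1 ∈ R)
  (hb : ∀ b : B, hm 0 (gB b) ∈ R) (hc : ∀ f ∈ R, ∀ d, ∃ b : B, f.coeff d = gB b)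
  (l : ℕ) (hl : 0 < l) (hD : ∀ f ∈ R, hm l 1 * (tl τ f - f) ∈ R)

/-- The good elements. -/
def SZ (p : ℕ) (hs : hm (-1) 1 ∈ R) (hD : ∀ f ∈ R, hm l 1 * (tl τ f - f) ∈ R) : Set R :=
  {x | ∃ (e : ℕ) (η : L), 0 < e ∧ η ≠ 0 ∧ (x : LP L) = hm e η ∧ τ η = η ∧
    ∃ b : R, ∀ j, 0 < j → j < p → TH τ R l hs hD j b ∣ x}

include hτ hσ hc hb hl hp hpk hinj in
/-- Second case of the proof of the radical condition. -/
lemma rad_case2 (Q : Ideal R) (hQ : Q.IsPrime) (hSQ : SZ τ R l p hs hD ⊆ Q) (x : R)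
    (hx : Hom' R x) (hxQ : x ∈ Q) : TR τ R l hs hD x ∈ Q := by
  by_contra hxQ'
  let s : R := ⟨hm (-1) 1, hs⟩
  have hsQ : s ∉ Q := by
    intro h
    apply hxQ'
    rw [TR_eq]
    exact Q.add_mem hxQ (Q.mul_mem_right _ (Ideal.pow_mem_of_mem _ h _ hl))
  have hsQn : ∀ n : ℕ, s ^ n ∉ Q := fun n h => hsQ (hQ.mem_of_pow_mem n h)
  let i0 : B →+* R :=
    { toFun := fun b => ⟨hm 0 (gB b), hb b⟩
      map_one' := Subtype.ext (by change hm 0 (gB 1) = 1; rw [map_one, hm_one])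
      map_mul' := fun a b => Subtype.ext (by
        change hm 0 (gB (a * b)) = hm 0 (gB a) * hm 0 (gB b)
        rw [map_mul, hm_mul, add_zero])
      map_zero' := Subtype.ext (by change hm 0 (gB 0) = 0; rw [map_zero, hm_zero])
      map_add' := fun a b => Subtype.ext (by
        change hm 0 (gB (a + b)) = hm 0 (gB a) + hm 0 (gB b)
        rw [map_add, hm_add]) }
  have hi0 : ∀ b, ((i0 b : R) : LP L) = hm 0 (gB b) := fun b => rfl
  let q : Ideal B := Q.comap i0
  have hq : q.IsPrime := hQ.comap i0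
  have key : ∀ (y : R) (d : ℤ) (α : B), (y : LP L) = hm d (gB α) → (y ∈ Q ↔ α ∈ q) := by
    intro y d α hy
    change y ∈ Q ↔ i0 α ∈ Q
    rcases le_total 0 d with h | h
    · obtain ⟨n, hn⟩ := Int.eq_ofNat_of_zero_le h
      have h1 : s ^ n * y = i0 α := by
        apply Subtype.ext
        rw [MulMemClass.coe_mul, SubmonoidClass.coe_pow, hi0]
        change (hm (-1) 1) ^ n * (y : LP L) = _
        rw [hy, hm_pow, hm_mul, one_pow, one_mul, hn]
        congr 1
        ring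
      constructor
      · intro h2
        rw [← h1]
        exact Q.mul_mem_left _ h2
      · intro h2
        rw [← h1] at h2
        exact (hQ.mem_or_mem h2).resolve_left (hsQn n)
    · obtain ⟨n, hn⟩ := Int.eq_ofNat_of_zero_le (a := -d) (by omega)
      have h1 : s ^ n * i0 α = y := by
        apply Subtype.ext
        rw [MulMemClass.coe_mul, SubmonoidClass.coe_pow, hi0]
        change (hm (-1) 1) ^ n * hm 0 (gB α) = _
        rw [hy, hm_pow, hm_mul, one_pow, one_mul]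
        have hd : d = -(n : ℤ) := by
          have : -d = (n : ℤ) := hn
          omega
        rw [hd]
        congr 1
        ring
      constructor
      · intro h2
        rw [← h1] at h2
        exact (hQ.mem_or_mem h2).resolve_left (hsQn n)
      · intro h2
        rw [← h1]
        exact Q.mul_mem_left _ h2
  obtain ⟨d, b', hxb⟩ := hx
  obtain ⟨α, hα⟩ := hc _ x.2 d
  rw [hxb, coeff_hm_same] at hα
  have hx1 : (x : LP L) = hm d (gB α) := by rw [hxb, hα]
  have hx2 : ((TR τ R l hs hD x : R) : LP L) = hm d (gB (σ α)) := by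
    rw [coe_TR, hx1, tl_hm, hτ]
  have hαq : α ∈ q := (key _ _ _ hx1).1 hxQ
  have hαq' : σ α ∉ q := fun h => hxQ' ((key _ _ _ hx2).2 h)
  obtain ⟨e, he⟩ := exists_trc σ hp hσ q hq α hαq hαq'
  set t := trc σ p e with ht
  set β := wtr σ p e with hβ
  have hτit : ∀ (n : ℕ) b, τ^[n] (gB b) = gB (σ^[n] b) := fun n b => tau_iter gB σ τ hτ n b
  have hTH : ∀ j, ((TH τ R l hs hD j (i0 β) : R) : LP L) = hm l (gB (-(j * t))) := by
    intro j
    rw [coe_TH τ hs l hD (hi0 β), zero_add, hτit, ← map_sub, hβ, iter_wtr σ hp hpk hσ]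
  have ht0 : t ≠ 0 := by
    intro h
    apply he
    rw [h]
    exact q.zero_mem
  have hmem : TH τ R l hs hD 1 (i0 β) ∈ Q := by
    apply hSQ
    refine ⟨l, gB (-(((1 : ℕ) : B) * t)), hl, ?_, hTH 1, ?_, i0 β, ?_⟩
    · intro h
      rw [map_eq_zero_iff gB hinj, neg_eq_zero, Nat.cast_one, one_mul] at h
      exact ht0 h
    · rw [hτ, map_neg, map_mul, map_natCast, ht, sum_iter_id σ hp hσ]
    · intro j hj hjp
      have hjk : (j : k) ≠ 0 := cast_ne_of_lt' hp hpk hj hjp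
      refine ⟨algebraMap k R ((j : k)⁻¹), ?_⟩
      apply Subtype.ext
      rw [MulMemClass.coe_mul, hTH, hTH]
      change _ = _ * algebraMap k (LP L) ((j : k)⁻¹)
      rw [algebraMap_LP, hm_mul, add_zero]
      congr 1
      have hjL : (j : L) ≠ 0 := by
        intro h
        apply hjk
        apply (algebraMap k L).injective
        rw [map_natCast, h, map_zero]
      rw [map_neg, map_neg, map_mul, map_mul, map_natCast, map_natCast, map_inv₀, map_natCast]
      field_simp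
      push_cast
      ring
  rw [key _ _ _ (hTH 1)] at hmem
  apply he
  rw [Nat.cast_one, one_mul] at hmem
  exact (neg_mem_iff).1 hmem

include hp hτp in
/-- First case of the proof of the radical condition. -/
lemma rad_case1 (Q : Ideal R) (hQ : Q.IsPrime) (hSQ : SZ τ R l p hs hD ⊆ Q)
    (hst : ∀ x : R, Hom' R x → x ∈ Q → TR τ R l hs hD x ∈ Q) (y : R) (d : ℕ) (hd : 0 < d) (a : L)
    (hy : (y : LP L) = hm d a) (hyQ : y ∉ Q) (b : R) (hb : Hom' R b) :
    TH τ R l hs hD 1 b ∈ Q := by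
  classical
  by_contra hnb
  obtain ⟨d', b', hbb⟩ := id hb
  let m : ℕ := p * (d' + l).natAbs + 1
  let H0 : R := (∏ i ∈ Finset.range p, (TR τ R l hs hD)^[i] y) ^ m *
    ∏ j ∈ Finset.Ico 1 p, ∏ i ∈ Finset.range p, (TR τ R l hs hD)^[i] (TH τ R l hs hD j b)
  have hH0 : H0 ∉ Q := by
    intro h
    rcases hQ.mem_or_mem h with h1 | h1
    · obtain ⟨i, -, h2⟩ := hQ.prod_mem_iff.1 (hQ.mem_of_pow_mem _ h1)
      exact hyQ (TR_back τ hs l hD hp hτp Q hst ⟨d, a, hy⟩ h2)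
    · obtain ⟨j, hj, h2⟩ := hQ.prod_mem_iff.1 h1
      obtain ⟨i, -, h3⟩ := hQ.prod_mem_iff.1 h2
      rw [Finset.mem_Ico] at hj
      exact TH_ne τ hs l hD hp hτp Q hst hb hnb hj.1 hj.2
        (TR_back τ hs l hD hp hτp Q hst (hom_TH τ hs l hD hb j) h3)
  have hprod : ∀ (z : R) (c : ℤ) (w : L), (z : LP L) = hm c w →
      ((∏ i ∈ Finset.range p, (TR τ R l hs hD)^[i] z : R) : LP L) = hm (p * c) (nrm τ p w) := by
    intro z c w hz
    have h1 : ((∏ i ∈ Finset.range p, (TR τ R l hs hD)^[i] z : R) : LP L) =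
        ∏ i ∈ Finset.range p, hm c (τ^[i] w) := by
      push_cast
      refine Finset.prod_congr rfl fun i _ => ?_
      rw [coe_TR_iter, hz, tl_iter_hm]
    rw [h1, hm_prod, Finset.sum_const, Finset.card_range, nsmul_eq_mul]
    rfl
  have hcoe : (H0 : LP L) = hm (m * (p * d) + (p - 1 : ℕ) * (p * (d' + l)))
      (nrm τ p a ^ m * ∏ j ∈ Finset.Ico 1 p, nrm τ p (τ^[j] b' - b')) := by
    change (((∏ i ∈ Finset.range p, (TR τ R l hs hD)^[i] y) ^ m *
      ∏ j ∈ Finset.Ico 1 p, ∏ i ∈ Finset.range p, (TR τ R l hs hD)^[i] (TH τ R l hs hD j b) : R) :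
        LP L) = _
    rw [MulMemClass.coe_mul, SubmonoidClass.coe_pow, hprod y d a hy, hm_pow]
    have h2 : ((∏ j ∈ Finset.Ico 1 p, ∏ i ∈ Finset.range p,
        (TR τ R l hs hD)^[i] (TH τ R l hs hD j b) : R) : LP L) =
        ∏ j ∈ Finset.Ico 1 p, hm (p * (d' + l)) (nrm τ p (τ^[j] b' - b')) := by
      rw [SubmonoidClass.coe_finsetProd]
      refine Finset.prod_congr rfl fun j _ => ?_
      exact hprod _ _ _ (coe_TH τ hs l hD hbb j)
    rw [h2, hm_prod, Finset.sum_const, Nat.card_Ico, nsmul_eq_mul, hm_mul]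
  have hpos : 0 < (m * (p * d) + (p - 1 : ℕ) * (p * (d' + l)) : ℤ) := by
    have h1 : -(((d' + l).natAbs : ℤ)) ≤ d' + l := by omega
    have h2 : (m : ℤ) = p * (d' + l).natAbs + 1 := by
      change ((((p * (d' + l).natAbs + 1 : ℕ)) : ℤ)) = _
      push_cast; ring
    have h3 : (1 : ℤ) ≤ d := by exact_mod_cast hd
    have h4 : (1 : ℤ) ≤ p := by exact_mod_cast hp.pos
    have h5 : ((p - 1 : ℕ) : ℤ) = p - 1 := by
      rw [Nat.cast_sub hp.pos]; rfl
    rw [h5, h2]
    have e0 : (0 : ℤ) ≤ p * (d' + l).natAbs := by positivity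
    have e1 : (0 : ℤ) ≤ (p * (d' + l).natAbs + 1) * p * (d - 1) :=
      mul_nonneg (mul_nonneg (by omega) (by omega)) (by omega)
    have e2 : (0 : ℤ) ≤ (p - 1) * p * ((d' + l) + (d' + l).natAbs) :=
      mul_nonneg (mul_nonneg (by omega) (by omega)) (by omega)
    have e3 : ((p * (d' + l).natAbs + 1) * (p * d) + (p - 1) * (p * (d' + l)) : ℤ) =
        (p * (d' + l).natAbs + 1) * p * (d - 1) + (p - 1) * p * ((d' + l) + (d' + l).natAbs) +
          p * (d' + l).natAbs + p := by ring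
    rw [e3]
    omega
  obtain ⟨E, hE⟩ := Int.eq_ofNat_of_zero_le hpos.le
  have hE0 : 0 < E := by
    have : (0 : ℤ) < E := by rw [← hE]; exact hpos
    exact_mod_cast this
  rw [hE] at hcoe
  apply hH0
  apply hSQ
  refine ⟨E, _, hE0, ?_, hcoe, ?_, b, ?_⟩
  · intro h
    apply hH0
    have : H0 = 0 := by
      apply Subtype.ext
      rw [hcoe, h, hm_zero]
      rfl
    rw [this]
    exact Q.zero_mem
  · rw [map_mul, map_pow, map_nrm τ p hτp, map_prod]
    congr 1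
    refine Finset.prod_congr rfl fun j _ => ?_
    exact map_nrm τ p hτp _
  · intro j hj hjp
    have h1 : (TH τ R l hs hD j b) ∣
        ∏ i ∈ Finset.range p, (TR τ R l hs hD)^[i] (TH τ R l hs hD j b) := by
      have h0 := Finset.dvd_prod_of_mem (fun i => (TR τ R l hs hD)^[i] (TH τ R l hs hD j b))
        (Finset.mem_range.2 hp.pos)
      rw [Function.iterate_zero, id_eq] at h0
      exact h0
    have h2 : (∏ i ∈ Finset.range p, (TR τ R l hs hD)^[i] (TH τ R l hs hD j b)) ∣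
        ∏ j ∈ Finset.Ico 1 p, ∏ i ∈ Finset.range p, (TR τ R l hs hD)^[i] (TH τ R l hs hD j b) :=
      Finset.dvd_prod_of_mem (fun j => ∏ i ∈ Finset.range p,
        (TR τ R l hs hD)^[i] (TH τ R l hs hD j b)) (Finset.mem_Ico.2 ⟨hj, hjp⟩)
    exact (h1.trans h2).trans (Dvd.intro_left _ rfl)

include hgr hτ hσ hc hb hl hp hpk hinj hτp in
/-- The radical condition. -/
lemma rad_zp (hrad : ∀ Q : Ideal R, Q.IsPrime → (∀ f : R, TH τ R l hs hD 1 f ∈ Q) →
      ∀ (d : ℕ) (a : L) (h : hm d a ∈ R), 0 < d → (⟨hm d a, h⟩ : R) ∈ Q)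
    (Q : Ideal R) (hQ : Q.IsPrime) (hSQ : SZ τ R l p hs hD ⊆ Q) (d : ℕ) (a : L)
    (h : hm d a ∈ R) (hd : 0 < d) : (⟨hm d a, h⟩ : R) ∈ Q := by
  classical
  by_contra hnQ
  apply hnQ
  refine hrad Q hQ ?_ d a h hd
  have hst := rad_case2 gB hinj σ τ hτ hp hpk hσ R hs hb hc l hl hD Q hQ hSQ
  have key := rad_case1 τ hp hτp R hs l hD Q hQ hSQ hst ⟨hm d a, h⟩ d hd a rfl hnQ
  intro f
  have h1 : TH τ R l hs hD 1 f = ∑ e ∈ ((f : LP L).coeff.support).attach,
      TH τ R l hs hD 1 ⟨hm e ((f : LP L).coeff e), hgr f f.2 e⟩ := by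
    apply Subtype.ext
    rw [AddSubmonoidClass.coe_finsetSum]
    change hm (l : ℤ) 1 * ((tl τ)^[1] (f : LP L) - (f : LP L)) =
      ∑ e ∈ (f : LP L).coeff.support.attach, hm (l : ℤ) 1 *
        ((tl τ)^[1] (hm (e : ℤ) ((f : LP L).coeff e)) - hm (e : ℤ) ((f : LP L).coeff e))
    rw [Finset.sum_attach (f : LP L).coeff.support (fun e => hm (l : ℤ) 1 *
        ((tl τ)^[1] (hm e ((f : LP L).coeff e)) - hm e ((f : LP L).coeff e))),
      ← Finset.mul_sum, Finset.sum_sub_distrib, Function.iterate_one, ← map_sum, ← eq_sum_hm]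
  rw [h1]
  exact Q.sum_mem fun e _ => key _ ⟨_, _, rfl⟩

end rad

end Pool.Agent.H920R2
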